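import Pool.Agent.Lib.H17B.AFV

set_option autoImplicit false

/-!
# H74X: definitions of the statement

Space-times with a double null foliation by spheres whose null expansions are constant on the leaves. In suitable coordinates
`(T, x)`, `ρ = |x|`, the leaves are the spheres `(T, ρ) = const`, the metric is
`-F dT² + F k(ρ)² dρ² + (r/ρ)² <V, H V>`, `V = dx - (x/ρ) dρ - U dT - W dρ`, where `F` is an arbitrary positive function, `r` a
function of `(T, ρ)`, `H` is the metric of the leaves (any smooth family of metrics with the area form of the round sphere), `U` and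
`W` are divergence free vector fields tangent to the spheres. There is no symmetry.
-/

open MeasureTheory Filter Topology Set
open scoped ContDiff

namespace H74X

open H17T (E4 pt pos tang slice second DEC)
open H17V (Near)
open Pool.Agent.Lib.PenroseSph (E3 Tens S2 sm pd)

/-- The differential of `T`. -/
noncomputable def dtm : Fin 4 → ℝ := Fin.cons 1 fun _ => 0

/-- The differential of `ρ = |x|`. -/
noncomputable def drh (p : E4) : Fin 4 → ℝ := Fin.cons 0 fun j => pos p j / ‖pos p‖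

/-- The one-form `V_i = dx_i - (x_i/ρ) dρ - U_i dT - W_i dρ`. -/
noncomputable def form (U W : E4 → Fin 3 → ℝ) (p : E4) (i : Fin 3) : Fin 4 → ℝ :=
  Fin.cons (-U p i) fun j => (if i = j then 1 else 0) - (pos p i / ‖pos p‖ + W p i) * (pos p j / ‖pos p‖)

/-- The metric `-F dT² + F k(ρ)² dρ² + (r/ρ)² Σ H_ij V_i V_j`. -/
noncomputable def metric (F : E4 → ℝ) (k : ℝ → ℝ) (r : ℝ × ℝ → ℝ) (H : E4 → Matrix (Fin 3) (Fin 3) ℝ) (U W : E4 → Fin 3 → ℝ)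
    (p : E4) : Matrix (Fin 4) (Fin 4) ℝ :=
  Matrix.of fun a b => -F p * (dtm a * dtm b) + F p * k ‖pos p‖ ^ 2 * (drh p a * drh p b)
    + (r (p 0, ‖pos p‖) / ‖pos p‖) ^ 2 * ∑ i, ∑ j, H p i j * (form U W p i a * form U W p j b)

/-- The space-time consists of the events `(T, x)` with `(T, |x|) ∈ D`; all functions are smooth there. `H` is symmetric and positive
definite, `H x = x` and `det H = 1` (so `H` is a metric on the spheres with the area form of the round sphere); `U` and `W` are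
tangent to the spheres `|x| = const` and divergence free. -/
structure SpaceTime (R₀ : ℝ) (D : Set (ℝ × ℝ)) (F : E4 → ℝ) (k : ℝ → ℝ) (r : ℝ × ℝ → ℝ) (H : E4 → Matrix (Fin 3) (Fin 3) ℝ)
    (U W : E4 → Fin 3 → ℝ) : Prop where
  nonneg : 0 ≤ R₀
  isOpen : IsOpen D
  rad : ∀ q ∈ D, R₀ < q.2
  F_smooth : ∀ p : E4, (p 0, ‖pos p‖) ∈ D → ContDiffAt ℝ ∞ F p
  F_pos : ∀ p : E4, (p 0, ‖pos p‖) ∈ D → 0 < F p
  k_smooth : ∀ t : ℝ, R₀ < t → ContDiffAt ℝ ∞ k t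
  k_pos : ∀ t : ℝ, R₀ < t → 0 < k t
  r_smooth : ∀ q ∈ D, ContDiffAt ℝ ∞ r q
  r_pos : ∀ q ∈ D, 0 < r q
  H_smooth : ∀ p : E4, (p 0, ‖pos p‖) ∈ D → ∀ i j, ContDiffAt ℝ ∞ (fun q => H q i j) p
  H_symm : ∀ p : E4, (p 0, ‖pos p‖) ∈ D → ∀ i j, H p i j = H p j i
  H_pos : ∀ p : E4, (p 0, ‖pos p‖) ∈ D → ∀ ξ : Fin 3 → ℝ, ξ ≠ 0 → 0 < ∑ i, ∑ j, H p i j * ξ i * ξ j
  H_det : ∀ p : E4, (p 0, ‖pos p‖) ∈ D → (H p).det = 1
  H_rad : ∀ p : E4, (p 0, ‖pos p‖) ∈ D → ∀ i, ∑ j, H p i j * pos p j = pos p i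
  U_smooth : ∀ p : E4, (p 0, ‖pos p‖) ∈ D → ∀ i, ContDiffAt ℝ ∞ (fun q => U q i) p
  U_tan : ∀ p : E4, (p 0, ‖pos p‖) ∈ D → ∑ i, pos p i * U p i = 0
  U_div : ∀ p : E4, (p 0, ‖pos p‖) ∈ D → ∑ i : Fin 3, H31R.pd i.succ (fun q => U q i) p = 0
  W_smooth : ∀ p : E4, (p 0, ‖pos p‖) ∈ D → ∀ i, ContDiffAt ℝ ∞ (fun q => W q i) p
  W_tan : ∀ p : E4, (p 0, ‖pos p‖) ∈ D → ∑ i, pos p i * W p i = 0
  W_div : ∀ p : E4, (p 0, ‖pos p‖) ∈ D → ∑ i : Fin 3, H31R.pd i.succ (fun q => W q i) p = 0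

/-- The part `|x| > R₀` of the slice `T = f(x)` is smooth and spacelike, and `|∂f/∂ρ| < k` (this says that `T + X(ρ)` and `X(ρ) - T`,
`X' = k`, increase along the rays, and follows from the spacelike condition if `U = W = 0`). The dominant energy condition holds at the
events with the time and the radius of an event of the slice. -/
structure Slice (R₀ : ℝ) (D : Set (ℝ × ℝ)) (F : E4 → ℝ) (k : ℝ → ℝ) (r : ℝ × ℝ → ℝ) (H : E4 → Matrix (Fin 3) (Fin 3) ℝ)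
    (U W : E4 → Fin 3 → ℝ) (f : E3 → ℝ) : Prop where
  st : SpaceTime R₀ D F k r H U W
  mem : ∀ x : E3, R₀ < ‖x‖ → (f x, ‖x‖) ∈ D
  f_smooth : ∀ x : E3, R₀ < ‖x‖ → ContDiffAt ℝ ∞ f x
  spacelike : ∀ x : E3, R₀ < ‖x‖ → ∀ ξ : Fin 3 → ℝ, ξ ≠ 0 →
    0 < ∑ i, ∑ j, slice (metric F k r H U W) f x i j * ξ i * ξ j
  slope : ∀ x : E3, R₀ < ‖x‖ → |fderiv ℝ f x x| < k ‖x‖ * ‖x‖
  dec : ∀ p ∈ Near R₀ f, DEC (metric F k r H U W) p

/-- `φ = O(ρ⁻ⁿ)` and `∂φ = O(ρ⁻ⁿ⁻¹)` at the events `Near R₀ f`. -/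
def Small (R₀ : ℝ) (f : E3 → ℝ) (n : ℕ) (φ : E4 → ℝ) : Prop :=
  ∃ C R : ℝ, 0 < R ∧ ∀ p ∈ Near R₀ f, R ≤ ‖pos p‖ → |φ p| ≤ C / ‖pos p‖ ^ n ∧ ∀ a, |H31R.pd a φ p| ≤ C / ‖pos p‖ ^ (n + 1)

/-- `∂∂φ = O(ρ⁻³)` at the events `Near R₀ f`. -/
def Small2 (R₀ : ℝ) (f : E3 → ℝ) (φ : E4 → ℝ) : Prop :=
  ∃ C R : ℝ, 0 < R ∧ ∀ p ∈ Near R₀ f, R ≤ ‖pos p‖ → ∀ a b, |H31R.pd a (H31R.pd b φ) p| ≤ C / ‖pos p‖ ^ 3

/-- The space-time and the slice are asymptotically flat; the slice is asymptotic to the hyperplane `T = β x_0`; if `β ≠ 0`, the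
space-time is asymptotic to a Schwarzschild space-time. -/
structure AsympFlatB (R₀ β : ℝ) (F : E4 → ℝ) (k : ℝ → ℝ) (r : ℝ × ℝ → ℝ) (H : E4 → Matrix (Fin 3) (Fin 3) ℝ)
    (U W : E4 → Fin 3 → ℝ) (f : E3 → ℝ) : Prop where
  base : H17V.AsympFlatB R₀ β F k r f
  H_decay : ∀ i j, Small R₀ f 1 fun p => H p i j - if i = j then 1 else 0
  U_decay : ∀ i, Small R₀ f 1 fun p => U p i
  W_decay : ∀ i, Small R₀ f 1 fun p => W p i
  second : β = 0 → ∀ i, Small2 R₀ f (fun p => U p i) ∧ Small2 R₀ f fun p => W p i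
  schw : β ≠ 0 → (∀ i j, Small R₀ f 2 fun p => H p i j - if i = j then 1 else 0) ∧ (∀ i, Small R₀ f 2 fun p => U p i) ∧
    ∀ i, Small R₀ f 2 fun p => W p i

end H74X
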