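import Pool.Agent.Lib.H17W.A4
import Pool.Agent.Lib.H74X.Defs

set_option autoImplicit false

/-!
# H74X, chunk A1A (S): algebra of the metric (pure sums)

Auxiliary names start with `a1a_`. `H17T/T0.lean`, `H17T/T7.lean` have the case `H = 1`, `U = W = 0` (`stMetric_quad`, `stMetric_inv`, `t7_form`).
-/

open MeasureTheory Filter Topology Set
open scoped ContDiff

namespace H74X

open H17T (E4 pt pos tang slice second DEC)

open H17W (ip MetAt)

open Pool.Agent.Lib.PenroseSph (E3 Tens S2 sm)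

/-- The vector `∂_T + U`. -/
noncomputable def eT (U : E4 → Fin 3 → ℝ) (p : E4) : Fin 4 → ℝ := Fin.cons 1 fun i => U p i

/-- The vector `∂_ρ + W`. -/
noncomputable def eR (W : E4 → Fin 3 → ℝ) (p : E4) : Fin 4 → ℝ := Fin.cons 0 fun i => pos p i / ‖pos p‖ + W p i

/-- `dρ(a)`. -/
noncomputable def dra (p : E4) (a : Fin 4 → ℝ) : ℝ := ∑ j : Fin 3, pos p j / ‖pos p‖ * a j.succ

/-- `V_i(a)`. -/
noncomputable def va (U W : E4 → Fin 3 → ℝ) (p : E4) (a : Fin 4 → ℝ) (i : Fin 3) : ℝ :=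
  a i.succ - (pos p i / ‖pos p‖ + W p i) * dra p a - U p i * a 0

variable {R₀ : ℝ} {D : Set (ℝ × ℝ)} {F : E4 → ℝ} {k : ℝ → ℝ} {r : ℝ × ℝ → ℝ} {H : E4 → Matrix (Fin 3) (Fin 3) ℝ}
  {U W : E4 → Fin 3 → ℝ} {p : E4}

theorem a1a_bil (F' Fk c : ℝ) (x y : Fin 4 → ℝ) (H' : Matrix (Fin 3) (Fin 3) ℝ) (f : Fin 3 → Fin 4 → ℝ) (u w : Fin 4 → ℝ) :
    ∑ a, ∑ b, (-F' * (x a * x b) + Fk * (y a * y b) + c * ∑ i, ∑ j, H' i j * (f i a * f j b)) * u a * w b =
      -F' * ((∑ a, x a * u a) * ∑ b, x b * w b) + Fk * ((∑ a, y a * u a) * ∑ b, y b * w b) +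
        c * ∑ i, ∑ j, H' i j * ((∑ a, f i a * u a) * ∑ b, f j b * w b) := by
  simp only [Fin.sum_univ_four, Fin.sum_univ_three]
  ring

theorem a1a_dtm (u : Fin 4 → ℝ) : ∑ a, dtm a * u a = u 0 := by
  rw [Fin.sum_univ_succ]
  simp [dtm]

theorem a1a_drh (p : E4) (u : Fin 4 → ℝ) : ∑ a, drh p a * u a = dra p u := by
  rw [Fin.sum_univ_succ]
  simp [drh, dra]

theorem a1a_form (U W : E4 → Fin 3 → ℝ) (p : E4) (i : Fin 3) (u : Fin 4 → ℝ) : ∑ a, form U W p i a * u a = va U W p u i := by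
  rw [Fin.sum_univ_succ]
  simp only [form, va, dra, Fin.cons_zero, Fin.cons_succ]
  have h : ∑ j : Fin 3, ((if i = j then (1 : ℝ) else 0) - (pos p i / ‖pos p‖ + W p i) * (pos p j / ‖pos p‖)) * u j.succ =
      u i.succ - (pos p i / ‖pos p‖ + W p i) * ∑ j : Fin 3, pos p j / ‖pos p‖ * u j.succ := by
    rw [Finset.mul_sum]
    have h2 : u i.succ = ∑ j : Fin 3, (if i = j then (1 : ℝ) else 0) * u j.succ := by simp
    rw [h2, ← Finset.sum_sub_distrib]
    refine Finset.sum_congr rfl fun j _ => ?_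
    ring
  rw [h]
  ring

theorem a1a_sq (x : E3) : ∑ i, x i * x i = ‖x‖ ^ 2 := by
  rw [EuclideanSpace.norm_sq_eq]
  refine Finset.sum_congr rfl fun i _ => ?_
  rw [Real.norm_eq_abs, sq_abs, sq]

/-- The quadratic form (for all `p`). -/
theorem met_ip (F : E4 → ℝ) (k : ℝ → ℝ) (r : ℝ × ℝ → ℝ) (H : E4 → Matrix (Fin 3) (Fin 3) ℝ) (U W : E4 → Fin 3 → ℝ) (p : E4)
    (a b : Fin 4 → ℝ) : ip (metric F k r H U W) p a b =
      -F p * (a 0 * b 0) + F p * k ‖pos p‖ ^ 2 * (dra p a * dra p b) +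
        (r (p 0, ‖pos p‖) / ‖pos p‖) ^ 2 * ∑ i, ∑ j, H p i j * (va U W p a i * va U W p b j) := by
  unfold ip metric
  simp only [Matrix.of_apply]
  rw [a1a_bil, a1a_dtm, a1a_dtm, a1a_drh, a1a_drh]
  simp only [a1a_form]

theorem met_symm (hS : SpaceTime R₀ D F k r H U W) (hp : (p 0, ‖pos p‖) ∈ D) (a b : Fin 4) :
    metric F k r H U W p a b = metric F k r H U W p b a := by
  unfold metric
  simp only [Matrix.of_apply]
  have h : ∑ i, ∑ j, H p i j * (form U W p i a * form U W p j b) = ∑ i, ∑ j, H p i j * (form U W p i b * form U W p j a) := by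
    rw [Finset.sum_comm]
    refine Finset.sum_congr rfl fun i _ => Finset.sum_congr rfl fun j _ => ?_
    rw [hS.H_symm p hp j i]
    ring
  rw [h]
  ring

theorem pos_ne (hS : SpaceTime R₀ D F k r H U W) (hp : (p 0, ‖pos p‖) ∈ D) : pos p ≠ 0 := by
  have h1 : R₀ < ‖pos p‖ := hS.rad _ hp
  have h2 := hS.nonneg
  intro h
  rw [h, norm_zero] at h1
  linarith

/-- `Σ (x_i/ρ)² = 1`, `Σ (x_i/ρ) U_i = 0`, `Σ (x_i/ρ) W_i = 0`. -/
theorem unit_pos (hS : SpaceTime R₀ D F k r H U W) (hp : (p 0, ‖pos p‖) ∈ D) :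
    (∑ i, pos p i / ‖pos p‖ * (pos p i / ‖pos p‖)) = 1 ∧ (∑ i, pos p i / ‖pos p‖ * U p i) = 0 ∧
      ∑ i, pos p i / ‖pos p‖ * W p i = 0 := by
  have hne : ‖pos p‖ ≠ 0 := norm_ne_zero_iff.mpr (pos_ne hS hp)
  refine ⟨?_, ?_, ?_⟩
  · have h : ∑ i, pos p i / ‖pos p‖ * (pos p i / ‖pos p‖) = (∑ i, pos p i * pos p i) / ‖pos p‖ ^ 2 := by
      rw [Finset.sum_div]
      refine Finset.sum_congr rfl fun i _ => ?_
      field_simp
    rw [h, a1a_sq, div_self (pow_ne_zero 2 hne)]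
  · have h : ∑ i, pos p i / ‖pos p‖ * U p i = (∑ i, pos p i * U p i) / ‖pos p‖ := by
      rw [Finset.sum_div]
      refine Finset.sum_congr rfl fun i _ => ?_
      ring
    rw [h, hS.U_tan p hp, zero_div]
  · have h : ∑ i, pos p i / ‖pos p‖ * W p i = (∑ i, pos p i * W p i) / ‖pos p‖ := by
      rw [Finset.sum_div]
      refine Finset.sum_congr rfl fun i _ => ?_
      ring
    rw [h, hS.W_tan p hp, zero_div]

/-- The values of `dρ` and `V` on the frame: `dρ(e_T) = 0`, `V(e_T) = 0`, `dρ(e_ρ) = 1`, `V(e_ρ) = 0`. -/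
theorem frame_val (hS : SpaceTime R₀ D F k r H U W) (hp : (p 0, ‖pos p‖) ∈ D) :
    dra p (eT U p) = 0 ∧ (∀ i, va U W p (eT U p) i = 0) ∧ dra p (eR W p) = 1 ∧ ∀ i, va U W p (eR W p) i = 0 := by
  obtain ⟨h1, h2, h3⟩ := unit_pos hS hp
  have e1 : dra p (eT U p) = 0 := by
    unfold dra eT
    simp only [Fin.cons_succ]
    exact h2
  have e2 : dra p (eR W p) = 1 := by
    unfold dra eR
    simp only [Fin.cons_succ, mul_add]
    rw [Finset.sum_add_distrib, h1, h3, add_zero]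
  refine ⟨e1, fun i => ?_, e2, fun i => ?_⟩
  · unfold va
    rw [e1]
    unfold eT
    simp only [Fin.cons_succ, Fin.cons_zero]
    ring
  · unfold va
    rw [e2]
    unfold eR
    simp only [Fin.cons_succ, Fin.cons_zero]
    ring

/-- The values on a vector tangent to the sphere. -/
theorem tan_val {v : Fin 3 → ℝ} (hv : ∑ i, pos p i * v i = 0) :
    dra p (Fin.cons 0 v) = 0 ∧ ∀ i, va U W p (Fin.cons 0 v) i = v i := by
  have e1 : dra p (Fin.cons 0 v) = 0 := by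
    unfold dra
    simp only [Fin.cons_succ]
    have h : ∑ i, pos p i / ‖pos p‖ * v i = (∑ i, pos p i * v i) / ‖pos p‖ := by
      rw [Finset.sum_div]
      refine Finset.sum_congr rfl fun i _ => ?_
      ring
    rw [h, hv, zero_div]
  refine ⟨e1, fun i => ?_⟩
  unfold va
  rw [e1]
  simp only [Fin.cons_succ, Fin.cons_zero]
  ring

end H74X
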