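import Pool.Agent.Lib.H17W.A4
import Pool.Agent.Lib.H74X.A1A
import Pool.Agent.Lib.H74X.Defs

set_option autoImplicit false

/-!
# H74X, chunk A1B (S): algebra of the metric (pure sums)

Auxiliary names start with `a1b_`. `H17T/T0.lean`, `H17T/T7.lean` have the case `H = 1`, `U = W = 0` (`stMetric_quad`, `stMetric_inv`, `t7_form`).
-/

open MeasureTheory Filter Topology Set
open scoped ContDiff

namespace H74X

open H17T (E4 pt pos tang slice second DEC)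

open H17W (ip MetAt)

open Pool.Agent.Lib.PenroseSph (E3 Tens S2 sm)

variable {R₀ : ℝ} {D : Set (ℝ × ℝ)} {F : E4 → ℝ} {k : ℝ → ℝ} {r : ℝ × ℝ → ℝ} {H : E4 → Matrix (Fin 3) (Fin 3) ℝ}
  {U W : E4 → Fin 3 → ℝ} {p : E4}

/-- `V(a)` is orthogonal to `x`. -/
theorem va_orth (hS : SpaceTime R₀ D F k r H U W) (hp : (p 0, ‖pos p‖) ∈ D) (a : Fin 4 → ℝ) :
    ∑ i, pos p i * va U W p a i = 0 := by
  obtain ⟨h1, h2, h3⟩ := unit_pos hS hp
  have hne : ‖pos p‖ ≠ 0 := norm_ne_zero_iff.mpr (pos_ne hS hp)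
  have e1 : ∑ i, pos p i * va U W p a i = ‖pos p‖ * (dra p a -
      (∑ i, pos p i / ‖pos p‖ * (pos p i / ‖pos p‖)) * dra p a - (∑ i, pos p i / ‖pos p‖ * W p i) * dra p a -
      (∑ i, pos p i / ‖pos p‖ * U p i) * a 0) := by
    have e2 : dra p a = ∑ i : Fin 3, pos p i / ‖pos p‖ * a i.succ := rfl
    conv_rhs => rw [e2]
    simp only [va]
    rw [Finset.sum_mul, Finset.sum_mul, Finset.sum_mul, ← Finset.sum_sub_distrib, ← Finset.sum_sub_distrib,
      ← Finset.sum_sub_distrib, Finset.mul_sum, ← e2]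
    refine Finset.sum_congr rfl fun i _ => ?_
    field_simp
    ring
  rw [e1, h1, h2, h3]
  ring

/-- Each vector is `a^0 e_T + dρ(a) e_ρ + (0, V(a))`. -/
theorem vec_split (hS : SpaceTime R₀ D F k r H U W) (hp : (p 0, ‖pos p‖) ∈ D) (a : Fin 4 → ℝ) :
    a = a 0 • eT U p + dra p a • eR W p + (Fin.cons 0 fun i => va U W p a i : Fin 4 → ℝ) := by
  funext m
  refine Fin.cases ?_ (fun i => ?_) m
  · simp [eT, eR]
  · simp only [Pi.add_apply, Pi.smul_apply, smul_eq_mul, eT, eR, Fin.cons_succ, va]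
    ring

/-- Scalar products of the frame vectors: `<e_T,e_T> = -F`, `<e_T,e_ρ> = 0`, `<e_ρ,e_ρ> = F k²`. -/
theorem frame_ip (hS : SpaceTime R₀ D F k r H U W) (hp : (p 0, ‖pos p‖) ∈ D) :
    ip (metric F k r H U W) p (eT U p) (eT U p) = -F p ∧ ip (metric F k r H U W) p (eT U p) (eR W p) = 0 ∧
      ip (metric F k r H U W) p (eR W p) (eT U p) = 0 ∧
      ip (metric F k r H U W) p (eR W p) (eR W p) = F p * k ‖pos p‖ ^ 2 := by
  obtain ⟨e1, e2, e3, e4⟩ := frame_val hS hp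
  have t0 : eT U p 0 = 1 := rfl
  have r0 : eR W p 0 = 0 := rfl
  simp only [met_ip, e1, e2, e3, e4, t0, r0]
  refine ⟨?_, ?_, ?_, ?_⟩ <;> simp

/-- Scalar products of `e_T`, `e_ρ` with an arbitrary vector. -/
theorem frame_ip' (hS : SpaceTime R₀ D F k r H U W) (hp : (p 0, ‖pos p‖) ∈ D) (a : Fin 4 → ℝ) :
    ip (metric F k r H U W) p (eT U p) a = -F p * a 0 ∧ ip (metric F k r H U W) p (eR W p) a = F p * k ‖pos p‖ ^ 2 * dra p a := by
  obtain ⟨e1, e2, e3, e4⟩ := frame_val hS hp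
  have t0 : eT U p 0 = 1 := rfl
  have r0 : eR W p 0 = 0 := rfl
  simp only [met_ip, e1, e2, e3, e4, t0, r0]
  refine ⟨?_, ?_⟩ <;> simp

end H74X
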