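import Pool.Agent.Lib.H17W.CB1
import Pool.Agent.Lib.H74X.A1

set_option autoImplicit false

/-!
# H74X, chunk A2A (S/M): inverse of H

Auxiliary names start with `a2a_`. `H17W/A1.lean` (`a1_det_sm` etc.) and `H17T/T0.lean` (`stMetric_smooth`, `pos_smooth`) for smoothness.
-/

open MeasureTheory Filter Topology Set
open scoped ContDiff

namespace H74X

open H17T (E4 pt pos tang slice second DEC)

open H17W (ip MetAt)

open Pool.Agent.Lib.PenroseSph (E3 Tens S2 sm)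

variable {R₀ : ℝ} {D : Set (ℝ × ℝ)} {F : E4 → ℝ} {k : ℝ → ℝ} {r : ℝ × ℝ → ℝ} {H : E4 → Matrix (Fin 3) (Fin 3) ℝ}
  {U W : E4 → Fin 3 → ℝ} {p : E4}

/-- A spatial form as a form on `ℝ⁴`. -/
noncomputable def sp4 (A : Fin 3 → Fin 3 → ℝ) (a b : Fin 4) : ℝ := Fin.cases 0 (fun i => Fin.cases 0 (fun j => A i j) b) a

/-- The inverse metric `-e_T e_T/F + e_ρ e_ρ/(F k²) + (ρ/r)² (H⁻¹ - x x/ρ²)`. -/
noncomputable def minv (F : E4 → ℝ) (k : ℝ → ℝ) (r : ℝ × ℝ → ℝ) (H : E4 → Matrix (Fin 3) (Fin 3) ℝ) (U W : E4 → Fin 3 → ℝ) (p : E4) :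
    Matrix (Fin 4) (Fin 4) ℝ := Matrix.of fun a b =>
  -(eT U p a * eT U p b) / F p + eR W p a * eR W p b / (F p * k ‖pos p‖ ^ 2) + (‖pos p‖ / r (p 0, ‖pos p‖)) ^ 2 *
    sp4 (fun i j => (H p)⁻¹ i j - pos p i / ‖pos p‖ * (pos p j / ‖pos p‖)) a b

/-- `H⁻¹` is symmetric, `H⁻¹ x = x`. -/
theorem Hinv_symm (hS : SpaceTime R₀ D F k r H U W) (hp : (p 0, ‖pos p‖) ∈ D) (i j : Fin 3) : (H p)⁻¹ i j = (H p)⁻¹ j i := by
  have h1 : (H p).transpose = H p := by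
    ext i j
    exact hS.H_symm p hp j i
  have h2 : ((H p)⁻¹).transpose = (H p)⁻¹ := by
    rw [Matrix.transpose_nonsing_inv, h1]
  conv_lhs => rw [← h2]
  rfl

theorem a2a_unit (hS : SpaceTime R₀ D F k r H U W) (hp : (p 0, ‖pos p‖) ∈ D) : IsUnit (H p).det := by
  rw [hS.H_det p hp]
  exact isUnit_one

theorem a2a_vec (hS : SpaceTime R₀ D F k r H U W) (hp : (p 0, ‖pos p‖) ∈ D) :
    ((H p)⁻¹).mulVec (fun j => pos p j) = fun j => pos p j := by
  have h1 : (H p).mulVec (fun j => pos p j) = fun j => pos p j := funext (hS.H_rad p hp)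
  conv_lhs => rw [← h1]
  rw [Matrix.mulVec_mulVec, Matrix.nonsing_inv_mul _ (a2a_unit hS hp), Matrix.one_mulVec]

theorem a2a_dot (M : Matrix (Fin 3) (Fin 3) ℝ) (x y : Fin 3 → ℝ) :
    ∑ i, ∑ j, M i j * x i * y j = dotProduct x (M.mulVec y) := by
  simp only [dotProduct, Matrix.mulVec, Finset.mul_sum]
  refine Finset.sum_congr rfl fun a _ => Finset.sum_congr rfl fun b _ => ?_
  ring

theorem a2a_nonneg (hS : SpaceTime R₀ D F k r H U W) (hp : (p 0, ‖pos p‖) ∈ D) (η : Fin 3 → ℝ) :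
    0 ≤ dotProduct η (((H p)⁻¹).mulVec η) := by
  set ζ : Fin 3 → ℝ := ((H p)⁻¹).mulVec η with hζ
  have h1 : (H p).mulVec ζ = η := by
    rw [hζ, Matrix.mulVec_mulVec, Matrix.mul_nonsing_inv _ (a2a_unit hS hp), Matrix.one_mulVec]
  by_cases h0 : ζ = 0
  · rw [h0, dotProduct_zero]
  · have h2 := hS.H_pos p hp ζ h0
    rw [a2a_dot, h1, dotProduct_comm] at h2
    exact h2.le

theorem Hinv_rad (hS : SpaceTime R₀ D F k r H U W) (hp : (p 0, ‖pos p‖) ∈ D) (i : Fin 3) :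
    ∑ j, (H p)⁻¹ i j * pos p j = pos p i :=
  congrFun (a2a_vec hS hp) i

/-- `H⁻¹ - x x/ρ²` is positive semidefinite: for `ξ` put `η = ξ - (x·ξ) x/ρ²`; the form at `ξ` is `<η, H⁻¹ η>` since `H⁻¹ x = x`; `H⁻¹` is positive
definite (`η = H ζ`, `<η, H⁻¹ η> = <ζ, H ζ>`). -/
theorem Hinv_pos (hS : SpaceTime R₀ D F k r H U W) (hp : (p 0, ‖pos p‖) ∈ D) (ξ : Fin 3 → ℝ) :
    0 ≤ ∑ i, ∑ j, ((H p)⁻¹ i j - pos p i / ‖pos p‖ * (pos p j / ‖pos p‖)) * ξ i * ξ j := by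
  obtain ⟨h1, -, -⟩ := unit_pos hS hp
  set N : Fin 3 → ℝ := fun i => pos p i / ‖pos p‖ with hN
  have hNN : dotProduct N N = 1 := h1
  have hHN : ((H p)⁻¹).mulVec N = N := by
    have e1 : N = (‖pos p‖)⁻¹ • fun i => pos p i := by
      funext i
      rw [Pi.smul_apply, smul_eq_mul, hN]
      dsimp only
      rw [div_eq_inv_mul]
    rw [e1, Matrix.mulVec_smul, a2a_vec hS hp]
  have hHt : ((H p)⁻¹).transpose = (H p)⁻¹ := by
    ext i j
    exact Hinv_symm hS hp j i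
  set t : ℝ := dotProduct N ξ with ht
  have hη := a2a_nonneg hS hp (ξ - t • N)
  have e2 : dotProduct N (((H p)⁻¹).mulVec ξ) = t := by
    rw [Matrix.dotProduct_mulVec, ← Matrix.mulVec_transpose, hHt, hHN]
  have e3 : dotProduct ξ N = t := by rw [dotProduct_comm]
  rw [Matrix.mulVec_sub, Matrix.mulVec_smul, hHN, sub_dotProduct, dotProduct_sub, dotProduct_sub, smul_dotProduct,
    smul_dotProduct, dotProduct_smul, dotProduct_smul, e2, e3, hNN] at hη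
  have e4 : ∑ i, ∑ j, ((H p)⁻¹ i j - pos p i / ‖pos p‖ * (pos p j / ‖pos p‖)) * ξ i * ξ j =
      dotProduct ξ (((H p)⁻¹).mulVec ξ) - t * t := by
    rw [← a2a_dot]
    have e5 : t * t = ∑ i, ∑ j, N i * N j * ξ i * ξ j := by
      rw [ht]
      simp only [dotProduct]
      rw [Finset.sum_mul]
      refine Finset.sum_congr rfl fun i _ => ?_
      rw [Finset.mul_sum]
      refine Finset.sum_congr rfl fun j _ => ?_
      ring
    rw [e5, ← Finset.sum_sub_distrib]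
    refine Finset.sum_congr rfl fun i _ => ?_
    rw [← Finset.sum_sub_distrib]
    refine Finset.sum_congr rfl fun j _ => ?_
    rw [hN]
    ring
  rw [e4]
  simp only [smul_eq_mul, mul_one] at hη
  linarith

end H74X
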