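import Pool.Agent.Lib.H17W.CB1
import Pool.Agent.Lib.H74X.A1
import Pool.Agent.Lib.H74X.A2A

set_option autoImplicit false

/-!
# H74X, chunk A2B (S/M): inverse metric

Auxiliary names start with `a2b_`. `H17W/A1.lean` (`a1_det_sm` etc.) and `H17T/T0.lean` (`stMetric_smooth`, `pos_smooth`) for smoothness.
-/

open MeasureTheory Filter Topology Set
open scoped ContDiff

namespace H74X

open H17T (E4 pt pos tang slice second DEC)

open H17W (ip MetAt)

open Pool.Agent.Lib.PenroseSph (E3 Tens S2 sm)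

variable {R₀ : ℝ} {D : Set (ℝ × ℝ)} {F : E4 → ℝ} {k : ℝ → ℝ} {r : ℝ × ℝ → ℝ} {H : E4 → Matrix (Fin 3) (Fin 3) ℝ}
  {U W : E4 → Fin 3 → ℝ} {p : E4}

/-- A spatial form on two covectors. -/
theorem a2b_sp4 (A : Fin 3 → Fin 3 → ℝ) (σ τ : Fin 4 → ℝ) :
    ∑ a, ∑ b, sp4 A a b * σ a * τ b = ∑ i : Fin 3, ∑ j : Fin 3, A i j * σ i.succ * τ j.succ := by
  rw [Fin.sum_univ_succ]
  have h0 : ∑ b, sp4 A 0 b * σ 0 * τ b = 0 := by simp [sp4]
  rw [h0, zero_add]
  refine Finset.sum_congr rfl fun i _ => ?_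
  rw [Fin.sum_univ_succ]
  simp [sp4]

/-- A spatial form on one covector. -/
theorem a2b_sp4' (A : Fin 3 → Fin 3 → ℝ) (τ : Fin 4 → ℝ) :
    (fun c => ∑ d, sp4 A c d * τ d) = (Fin.cons 0 fun i => ∑ j : Fin 3, A i j * τ j.succ : Fin 4 → ℝ) := by
  funext c
  refine Fin.cases ?_ (fun i => ?_) c
  · simp [sp4]
  · rw [Fin.sum_univ_succ]
    simp [sp4]

theorem a2b_form (c : ℝ) (x y : Fin 4 → ℝ) :
    ∑ a, ∑ b, c * (x a * y b) = c * ((∑ a, x a) * ∑ b, y b) := by
  rw [Finset.sum_mul_sum, Finset.mul_sum]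
  refine Finset.sum_congr rfl fun a _ => ?_
  rw [Finset.mul_sum]

/-- `H H⁻¹ = 1`, entrywise. -/
theorem a2b_mul (hS : SpaceTime R₀ D F k r H U W) (hp : (p 0, ‖pos p‖) ∈ D) (i j : Fin 3) :
    ∑ l, H p i l * (H p)⁻¹ l j = if i = j then 1 else 0 := by
  have hu : IsUnit (H p).det := by
    rw [hS.H_det p hp]
    exact isUnit_one
  have h := congrFun (congrFun (Matrix.mul_nonsing_inv _ hu) i) j
  rw [Matrix.mul_apply, Matrix.one_apply] at h
  exact h

/-- `metric * minv = 1`: for a covector `τ` the vector `minv τ = - τ(e_T)/F e_T + τ(e_ρ)/(F k²) e_ρ + (0, (ρ/r)² (H⁻¹ - x x/ρ²) τ)` has, by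
`frame_ip'` and `met_ip`, scalar product `τ(e_T) a^0 + τ(e_ρ) dρ(a) + Σ τ_i V_i(a) = τ(a)` with every vector `a` (`vec_split`). -/
theorem minv_ip (hS : SpaceTime R₀ D F k r H U W) (hp : (p 0, ‖pos p‖) ∈ D) (τ a : Fin 4 → ℝ) :
    ip (metric F k r H U W) p (fun c => ∑ d, minv F k r H U W p c d * τ d) a = ∑ c, τ c * a c := by
  have hF : F p ≠ 0 := (hS.F_pos p hp).ne'
  have hρ : ‖pos p‖ ≠ 0 := norm_ne_zero_iff.2 (pos_ne hS hp)
  have hk : k ‖pos p‖ ≠ 0 := (hS.k_pos _ (hS.rad _ hp)).ne'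
  have hr : r (p 0, ‖pos p‖) ≠ 0 := (hS.r_pos _ hp).ne'
  obtain ⟨w, hw⟩ : ∃ w : Fin 3 → ℝ, w = fun i => ∑ j : Fin 3, ((H p)⁻¹ i j - pos p i / ‖pos p‖ * (pos p j / ‖pos p‖)) * τ j.succ :=
    ⟨_, rfl⟩
  have hv : (fun c => ∑ d, minv F k r H U W p c d * τ d) =
      (-(∑ d, τ d * eT U p d) / F p) • eT U p + ((∑ d, τ d * eR W p d) / (F p * k ‖pos p‖ ^ 2)) • eR W p +
      ((‖pos p‖ / r (p 0, ‖pos p‖)) ^ 2) • (Fin.cons 0 w : Fin 4 → ℝ) := by
    funext c
    have h1 := congrFun (a2b_sp4' (fun i j => (H p)⁻¹ i j - pos p i / ‖pos p‖ * (pos p j / ‖pos p‖)) τ) c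
    rw [← hw] at h1
    simp only [Pi.add_apply, Pi.smul_apply, smul_eq_mul]
    rw [← h1]
    simp only [minv, Matrix.of_apply]
    rw [neg_div, Finset.sum_div, Finset.sum_div, Finset.mul_sum, ← Finset.sum_neg_distrib, Finset.sum_mul, Finset.sum_mul,
      ← Finset.sum_add_distrib, ← Finset.sum_add_distrib]
    refine Finset.sum_congr rfl fun d _ => ?_
    ring
  rw [hv, H17W.ip_add_left, H17W.ip_add_left, H17W.ip_smul_left, H17W.ip_smul_left, H17W.ip_smul_left,
    (frame_ip' hS hp a).1, (frame_ip' hS hp a).2, met_ip]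
  have hu := unit_pos hS hp
  have hnn : ∑ i, pos p i / ‖pos p‖ * (pos p i / ‖pos p‖) = 1 := hu.1
  have hpw : ∑ i, pos p i * w i = 0 := by
    have h1 : ∀ j, ∑ i, pos p i * ((H p)⁻¹ i j - pos p i / ‖pos p‖ * (pos p j / ‖pos p‖)) = 0 := by
      intro j
      have h2 : ∑ i, pos p i * (H p)⁻¹ i j = pos p j := by
        rw [← Hinv_rad hS hp j]
        refine Finset.sum_congr rfl fun i _ => ?_
        rw [Hinv_symm hS hp i j]
        ring
      have h3 : ∑ i, pos p i * (pos p i / ‖pos p‖ * (pos p j / ‖pos p‖)) = pos p j := by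
        have h4 : ∀ i, pos p i * (pos p i / ‖pos p‖ * (pos p j / ‖pos p‖)) =
            pos p j * (pos p i / ‖pos p‖ * (pos p i / ‖pos p‖)) := by
          intro i
          field_simp
        rw [Finset.sum_congr rfl fun i _ => h4 i, ← Finset.mul_sum, hnn, mul_one]
      have h5 : ∀ i, pos p i * ((H p)⁻¹ i j - pos p i / ‖pos p‖ * (pos p j / ‖pos p‖)) =
          pos p i * (H p)⁻¹ i j - pos p i * (pos p i / ‖pos p‖ * (pos p j / ‖pos p‖)) := by
        intro i
        ring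
      rw [Finset.sum_congr rfl fun i _ => h5 i, Finset.sum_sub_distrib, h2, h3, sub_self]
    rw [hw]
    simp only [Finset.mul_sum]
    rw [Finset.sum_comm]
    refine Finset.sum_eq_zero fun j _ => ?_
    have h6 : ∀ i, pos p i * (((H p)⁻¹ i j - pos p i / ‖pos p‖ * (pos p j / ‖pos p‖)) * τ j.succ) =
        (pos p i * ((H p)⁻¹ i j - pos p i / ‖pos p‖ * (pos p j / ‖pos p‖))) * τ j.succ := by
      intro i
      ring
    rw [Finset.sum_congr rfl fun i _ => h6 i, ← Finset.sum_mul, h1 j, zero_mul]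
  obtain ⟨t1, t2⟩ := tan_val (U := U) (W := W) hpw
  simp only [t1, t2, Fin.cons_zero, zero_mul, mul_zero, zero_add]
  have hHH : ∑ i, ∑ j, H p i j * (w i * va U W p a j) = ∑ j : Fin 3, τ j.succ * va U W p a j := by
    rw [Finset.sum_comm]
    have h7 : ∀ j, ∑ i, H p i j * (w i * va U W p a j) =
        τ j.succ * va U W p a j - (pos p j * va U W p a j) * ((∑ l : Fin 3, pos p l * τ l.succ) / ‖pos p‖ ^ 2) := by
      intro j
      have h8 : ∑ i, H p i j * w i = τ j.succ - pos p j * ((∑ l : Fin 3, pos p l * τ l.succ) / ‖pos p‖ ^ 2) := by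
        rw [hw]
        simp only [Finset.mul_sum]
        rw [Finset.sum_comm]
        have h9 : ∀ l : Fin 3, ∑ i, H p i j * (((H p)⁻¹ i l - pos p i / ‖pos p‖ * (pos p l / ‖pos p‖)) * τ l.succ) =
            (if j = l then 1 else 0) * τ l.succ - pos p j * (pos p l * τ l.succ / ‖pos p‖ ^ 2) := by
          intro l
          have h10 : ∀ i, H p i j * (((H p)⁻¹ i l - pos p i / ‖pos p‖ * (pos p l / ‖pos p‖)) * τ l.succ) =
              (H p j i * (H p)⁻¹ i l) * τ l.succ - (H p j i * pos p i) * (pos p l * τ l.succ / ‖pos p‖ ^ 2) := by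
            intro i
            rw [hS.H_symm p hp i j]
            field_simp
          rw [Finset.sum_congr rfl fun i _ => h10 i, Finset.sum_sub_distrib, ← Finset.sum_mul, ← Finset.sum_mul,
            a2b_mul hS hp, hS.H_rad p hp]
        rw [Finset.sum_congr rfl fun l _ => h9 l, Finset.sum_sub_distrib, ← Finset.mul_sum, Finset.sum_div]
        congr 1
        simp
      have h11 : ∀ i, H p i j * (w i * va U W p a j) = (H p i j * w i) * va U W p a j := by
        intro i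
        ring
      rw [Finset.sum_congr rfl fun i _ => h11 i, ← Finset.sum_mul, h8]
      ring
    rw [Finset.sum_congr rfl fun j _ => h7 j, Finset.sum_sub_distrib, ← Finset.sum_mul, va_orth hS hp, zero_mul, sub_zero]
  rw [hHH]
  have hsplit : ∑ c, τ c * a c = a 0 * (∑ d, τ d * eT U p d) + dra p a * (∑ d, τ d * eR W p d) +
      ∑ j : Fin 3, τ j.succ * va U W p a j := by
    have h12 := vec_split hS hp a
    have h13 : ∀ c, a c = a 0 * eT U p c + dra p a * eR W p c + (Fin.cons 0 fun i => va U W p a i : Fin 4 → ℝ) c := by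
      intro c
      have := congrFun h12 c
      simpa only [Pi.add_apply, Pi.smul_apply, smul_eq_mul] using this
    have h14 : ∑ c, τ c * (Fin.cons 0 fun i => va U W p a i : Fin 4 → ℝ) c = ∑ j : Fin 3, τ j.succ * va U W p a j := by
      rw [Fin.sum_univ_succ]
      simp
    calc ∑ c, τ c * a c = ∑ c, (a 0 * (τ c * eT U p c) + dra p a * (τ c * eR W p c) +
          τ c * (Fin.cons 0 fun i => va U W p a i : Fin 4 → ℝ) c) := by
          refine Finset.sum_congr rfl fun c _ => ?_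
          conv_lhs => rw [h13 c]
          ring
      _ = _ := by
          rw [Finset.sum_add_distrib, Finset.sum_add_distrib, ← Finset.mul_sum, ← Finset.mul_sum, h14]
  rw [hsplit]
  field_simp

theorem a2b_one (hS : SpaceTime R₀ D F k r H U W) (hp : (p 0, ‖pos p‖) ∈ D) :
    metric F k r H U W p * minv F k r H U W p = 1 := by
  ext b d
  rw [Matrix.mul_apply, Matrix.one_apply]
  have h := minv_ip hS hp (Pi.single d 1) (Pi.single b 1)
  have e1 : (fun c => ∑ d', minv F k r H U W p c d' * (Pi.single d 1 : Fin 4 → ℝ) d') = fun c => minv F k r H U W p c d := by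
    funext c
    rw [Finset.sum_eq_single d]
    · simp
    · intro j _ hj
      simp [hj]
    · intro hj
      exact absurd (Finset.mem_univ d) hj
  rw [e1] at h
  have e2 : ip (metric F k r H U W) p (fun c => minv F k r H U W p c d) (Pi.single b 1) =
      ∑ j, metric F k r H U W p b j * minv F k r H U W p j d := by
    unfold ip
    refine Finset.sum_congr rfl fun j _ => ?_
    rw [Finset.sum_eq_single b]
    · simp [met_symm hS hp j b]
    · intro l _ hl
      simp [hl]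
    · intro hj
      exact absurd (Finset.mem_univ b) hj
  rw [← e2, h]
  rw [Finset.sum_eq_single b]
  · simp only [Pi.single_apply, if_true, mul_one]
  · intro l _ hl
    simp [hl]
  · intro hj
    exact absurd (Finset.mem_univ b) hj

theorem met_inv (hS : SpaceTime R₀ D F k r H U W) (hp : (p 0, ‖pos p‖) ∈ D) :
    (metric F k r H U W p)⁻¹ = minv F k r H U W p ∧ (metric F k r H U W p).det ≠ 0 :=
  ⟨Matrix.inv_eq_right_inv (a2b_one hS hp), Matrix.det_ne_zero_of_right_inverse (a2b_one hS hp)⟩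

/-- The inverse metric on two covectors. -/
theorem inv_form (hS : SpaceTime R₀ D F k r H U W) (hp : (p 0, ‖pos p‖) ∈ D) (σ τ : Fin 4 → ℝ) :
    ∑ a, ∑ b, (metric F k r H U W p)⁻¹ a b * σ a * τ b =
      -((∑ a, σ a * eT U p a) * ∑ a, τ a * eT U p a) / F p +
      ((∑ a, σ a * eR W p a) * ∑ a, τ a * eR W p a) / (F p * k ‖pos p‖ ^ 2) +
      (‖pos p‖ / r (p 0, ‖pos p‖)) ^ 2 * ∑ i : Fin 3, ∑ j : Fin 3,
        ((H p)⁻¹ i j - pos p i / ‖pos p‖ * (pos p j / ‖pos p‖)) * σ i.succ * τ j.succ := by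
  rw [(met_inv hS hp).1]
  have h1 : ∀ a b, minv F k r H U W p a b * σ a * τ b =
      -1 / F p * ((σ a * eT U p a) * (τ b * eT U p b)) +
      1 / (F p * k ‖pos p‖ ^ 2) * ((σ a * eR W p a) * (τ b * eR W p b)) +
      (‖pos p‖ / r (p 0, ‖pos p‖)) ^ 2 *
        (sp4 (fun i j => (H p)⁻¹ i j - pos p i / ‖pos p‖ * (pos p j / ‖pos p‖)) a b * σ a * τ b) := by
    intro a b
    simp only [minv, Matrix.of_apply]
    ring
  simp only [h1, Finset.sum_add_distrib, a2b_form]
  simp only [← Finset.mul_sum, a2b_sp4]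
  ring

end H74X
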