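import Pool.Agent.Lib.H17W.CB1
import Pool.Agent.Lib.H74X.A1
import Pool.Agent.Lib.H74X.A2B

set_option autoImplicit false

/-!
# H74X, chunk A2C (S/M): smoothness of the metric

Auxiliary names start with `a2c_`. `H17W/A1.lean` (`a1_det_sm` etc.) and `H17T/T0.lean` (`stMetric_smooth`, `pos_smooth`) for smoothness.
-/

open MeasureTheory Filter Topology Set
open scoped ContDiff

namespace H74X

open H17T (E4 pt pos tang slice second DEC)

open H17W (ip MetAt)

open Pool.Agent.Lib.PenroseSph (E3 Tens S2 sm)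

variable {R₀ : ℝ} {D : Set (ℝ × ℝ)} {F : E4 → ℝ} {k : ℝ → ℝ} {r : ℝ × ℝ → ℝ} {H : E4 → Matrix (Fin 3) (Fin 3) ℝ}
  {U W : E4 → Fin 3 → ℝ} {p : E4}

theorem a2c_zero : ContDiff ℝ ∞ (fun p : E4 => p 0) := by
  have : ContDiff ℝ ∞ (fun p : E4 => (EuclideanSpace.proj (0 : Fin 4) : E4 →L[ℝ] ℝ) p) :=
    (EuclideanSpace.proj (0 : Fin 4) : E4 →L[ℝ] ℝ).contDiff
  exact this

theorem dom_open (hS : SpaceTime R₀ D F k r H U W) : IsOpen {p : E4 | (p 0, ‖pos p‖) ∈ D} := by
  have h1 : Continuous fun p : E4 => (p 0, ‖pos p‖) :=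
    a2c_zero.continuous.prodMk H17T.pos_smooth.continuous.norm
  exact hS.isOpen.preimage h1

theorem met_smooth (hS : SpaceTime R₀ D F k r H U W) (hp : (p 0, ‖pos p‖) ∈ D) (a b : Fin 4) :
    ContDiffAt ℝ ∞ (fun q => metric F k r H U W q a b) p := by
  have hp' : pos p ≠ 0 := pos_ne hS hp
  have hF := hS.F_smooth p hp
  have hk := hS.k_smooth ‖pos p‖ (hS.rad _ hp)
  have hr := hS.r_smooth _ hp
  have hpos : ContDiffAt ℝ ∞ pos p := H17T.pos_smooth.contDiffAt
  have hnorm : ContDiffAt ℝ ∞ (fun p : E4 => ‖pos p‖) p := hpos.norm ℝ hp'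
  have hn : ‖pos p‖ ≠ 0 := norm_ne_zero_iff.mpr hp'
  have hp0 : ContDiffAt ℝ ∞ (fun p : E4 => p 0) p := a2c_zero.contDiffAt
  have hk' : ContDiffAt ℝ ∞ (fun p : E4 => k ‖pos p‖) p := hk.comp p hnorm
  have hr' : ContDiffAt ℝ ∞ (fun p : E4 => r (p 0, ‖pos p‖)) p := by
    have h1 : ContDiffAt ℝ ∞ (fun p : E4 => (p 0, ‖pos p‖)) p := hp0.prodMk hnorm
    exact ContDiffAt.comp p (g := r) hr h1
  have hc : ∀ i : Fin 3, ContDiffAt ℝ ∞ (fun p : E4 => pos p i / ‖pos p‖) p := by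
    intro i
    have h1 : ContDiffAt ℝ ∞ (fun p : E4 => pos p i) p := (contDiffAt_euclidean.mp hpos) i
    exact h1.div hnorm hn
  have hd : ∀ a : Fin 4, ContDiffAt ℝ ∞ (fun q : E4 => drh q a) p := by
    intro a
    refine Fin.cases ?_ (fun j => ?_) a
    · simp only [drh, Fin.cons_zero]
      exact contDiffAt_const
    · simp only [drh, Fin.cons_succ]
      exact hc j
  have hf : ∀ (i : Fin 3) (a : Fin 4), ContDiffAt ℝ ∞ (fun q : E4 => form U W q i a) p := by
    intro i a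
    refine Fin.cases ?_ (fun j => ?_) a
    · simp only [form, Fin.cons_zero]
      exact (hS.U_smooth p hp i).neg
    · simp only [form, Fin.cons_succ]
      exact contDiffAt_const.sub (((hc i).add (hS.W_smooth p hp i)).mul (hc j))
  simp only [metric, Matrix.of_apply]
  refine ((hF.neg.mul contDiffAt_const).add ((hF.mul (hk'.pow 2)).mul ((hd a).mul (hd b)))).add
    (((hr'.div hnorm hn).pow 2).mul ?_)
  exact ContDiffAt.sum fun i _ => ContDiffAt.sum fun j _ => (hS.H_smooth p hp i j).mul ((hf i a).mul (hf j b))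

theorem met_at (hS : SpaceTime R₀ D F k r H U W) (hp : (p 0, ‖pos p‖) ∈ D) : MetAt (metric F k r H U W) p := by
  have ho : ∀ᶠ q in 𝓝 p, (q 0, ‖pos q‖) ∈ D := (dom_open hS).mem_nhds hp
  refine ⟨?_, ?_, (met_inv hS hp).2⟩
  · filter_upwards [ho] with q hq
    exact fun a b => met_smooth hS hq a b
  · filter_upwards [ho] with q hq
    exact fun a b => met_symm hS hq a b

end H74X
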