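import Pool.Agent.Lib.H17W.FB
import Pool.Agent.Lib.H74X.A2

set_option autoImplicit false

/-!
# H74X, chunk A3A (S/M): slice at a point

Auxiliary names start with `a3a_`. 
-/

open MeasureTheory Filter Topology Set
open scoped ContDiff

namespace H74X

open H17T (E4 pt pos tang conorm slice second DEC)

open H17W (ip MetAt SlAt)

open Pool.Agent.Lib.PenroseSph (E3 Tens S2 sm pd)

variable {R₀ : ℝ} {D : Set (ℝ × ℝ)} {F : E4 → ℝ} {k : ℝ → ℝ} {r : ℝ × ℝ → ℝ} {H : E4 → Matrix (Fin 3) (Fin 3) ℝ}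
  {U W : E4 → Fin 3 → ℝ} {f : E3 → ℝ} {x : E3}

theorem dom_pt (hS : Slice R₀ D F k r H U W f) (hx : R₀ < ‖x‖) : ((pt (f x) x : E4) 0, ‖pos (pt (f x) x)‖) ∈ D := by
  rw [H17T.pt_zero, H17T.pos_pt]
  exact hS.mem x hx

theorem a3a_nonneg {p : E4} (hS : SpaceTime R₀ D F k r H U W) (hp : (p 0, ‖pos p‖) ∈ D) (ξ : Fin 3 → ℝ) :
    0 ≤ ∑ i, ∑ j, H p i j * (ξ i * ξ j) ∧ (ξ ≠ 0 → 0 < ∑ i, ∑ j, H p i j * (ξ i * ξ j)) := by
  have e : ∑ i, ∑ j, H p i j * (ξ i * ξ j) = ∑ i, ∑ j, H p i j * ξ i * ξ j :=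
    Finset.sum_congr rfl fun i _ => Finset.sum_congr rfl fun j _ => by ring
  rw [e]
  refine ⟨?_, fun h => hS.H_pos p hp ξ h⟩
  by_cases h : ξ = 0
  · rw [h]
    simp
  · exact (hS.H_pos p hp ξ h).le

theorem a3a_sp {p : E4} (hS : SpaceTime R₀ D F k r H U W) (hp : (p 0, ‖pos p‖) ∈ D) {ξ : Fin 3 → ℝ} (hξ : ξ ≠ 0) :
    0 < ∑ i, ∑ j, metric F k r H U W p (Fin.succ i) (Fin.succ j) * ξ i * ξ j := by
  have e : ∑ i, ∑ j, metric F k r H U W p (Fin.succ i) (Fin.succ j) * ξ i * ξ j =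
      ip (metric F k r H U W) p (Fin.cons 0 ξ) (Fin.cons 0 ξ) := by
    symm
    unfold ip
    rw [Fin.sum_univ_succ]
    have h0 : ∑ j, metric F k r H U W p 0 j * (Fin.cons 0 ξ : Fin 4 → ℝ) 0 * (Fin.cons 0 ξ : Fin 4 → ℝ) j = 0 := by
      simp
    rw [h0, zero_add]
    refine Finset.sum_congr rfl fun i _ => ?_
    rw [Fin.sum_univ_succ]
    simp
  rw [e, met_ip]
  have hF : 0 < F p := hS.F_pos p hp
  have hρ : 0 < ‖pos p‖ := norm_pos_iff.2 (pos_ne hS hp)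
  have hk : 0 < k ‖pos p‖ := hS.k_pos _ (hS.rad _ hp)
  have hr : 0 < r (p 0, ‖pos p‖) := hS.r_pos _ hp
  obtain ⟨h1, h2⟩ := a3a_nonneg hS hp (va U W p (Fin.cons 0 ξ))
  have h3 : 0 < (r (p 0, ‖pos p‖) / ‖pos p‖) ^ 2 := by positivity
  simp only [Fin.cons_zero, mul_zero, zero_add]
  by_cases hd : dra p (Fin.cons 0 ξ) = 0
  · have hva : va U W p (Fin.cons 0 ξ) = ξ := by
      funext i
      unfold va
      rw [hd]
      simp
    rw [hd, hva]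
    rw [hva] at h2
    have := mul_pos h3 (h2 hξ)
    linarith
  · have h4 : 0 < dra p (Fin.cons 0 ξ) * dra p (Fin.cons 0 ξ) := mul_self_pos.2 hd
    have h5 : 0 < F p * k ‖pos p‖ ^ 2 * (dra p (Fin.cons 0 ξ) * dra p (Fin.cons 0 ξ)) := by positivity
    have := mul_nonneg h3.le h1
    linarith

/-- The hypersurface `T = f(x)` and the hypersurface `T = const` are spacelike: for `ξ` spatial, `G(ξ,ξ) = F k² (x·ξ/ρ)² + (r/ρ)² <V, H V>` is `≥ 0` and `= 0` only if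
`x·ξ = 0` and `V = ξ = 0` (`met_ip`); `(G⁻¹)^00 = -1/F` (`met_inv`). -/
theorem sl_at (hS : Slice R₀ D F k r H U W f) (hx : R₀ < ‖x‖) : SlAt (metric F k r H U W) f x := by
  have hp := dom_pt hS hx
  refine ⟨met_at hS.st hp, hS.f_smooth x hx, hS.spacelike x hx, fun ξ hξ => a3a_sp hS.st hp hξ, ?_⟩
  rw [(met_inv hS.st hp).1]
  have hF : 0 < F (pt (f x) x) := hS.st.F_pos _ hp
  have e : minv F k r H U W (pt (f x) x) 0 0 = -1 / F (pt (f x) x) := by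
    simp only [minv, Matrix.of_apply, eT, eR, sp4, Fin.cons_zero, Fin.cases_zero]
    ring
  rw [e]
  exact div_neg_of_neg_of_pos (by norm_num) hF

/-- `τ(e_T) = 1 - U·∂f`, `τ(e_ρ) = - (x/ρ + W)·∂f` for `τ = d(T - f)`. -/
theorem tau_eT (f : E3 → ℝ) (x : E3) : ∑ a, conorm f x a * eT U (pt (f x) x) a = 1 - ∑ i, U (pt (f x) x) i * pd i f x := by
  rw [Fin.sum_univ_succ]
  simp only [conorm, eT, Fin.cons_zero, Fin.cons_succ, mul_one]
  rw [sub_eq_add_neg, ← Finset.sum_neg_distrib]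
  congr 1
  refine Finset.sum_congr rfl fun i _ => ?_
  ring

theorem tau_eR (f : E3 → ℝ) (x : E3) : ∑ a, conorm f x a * eR W (pt (f x) x) a =
    -∑ i, (x i / ‖x‖ + W (pt (f x) x) i) * pd i f x := by
  rw [Fin.sum_univ_succ]
  simp only [conorm, eR, Fin.cons_zero, Fin.cons_succ, mul_zero, zero_add, H17T.pos_pt]
  rw [← Finset.sum_neg_distrib]
  refine Finset.sum_congr rfl fun i _ => ?_
  ring

end H74X
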