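import Pool.Agent.Lib.H17W.FB
import Pool.Agent.Lib.H74X.A2
import Pool.Agent.Lib.H74X.A3A

set_option autoImplicit false

/-!
# H74X, chunk A3B (M): orientation of the slice

Auxiliary names start with `a3b_`. 
-/

open MeasureTheory Filter Topology Set
open scoped ContDiff

namespace H74X

open H17T (E4 pt pos tang conorm slice second DEC)

open H17W (ip MetAt SlAt)

open Pool.Agent.Lib.PenroseSph (E3 Tens S2 sm pd)

variable {R₀ : ℝ} {D : Set (ℝ × ℝ)} {F : E4 → ℝ} {k : ℝ → ℝ} {r : ℝ × ℝ → ℝ} {H : E4 → Matrix (Fin 3) (Fin 3) ℝ}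
  {U W : E4 → Fin 3 → ℝ} {f : E3 → ℝ} {x : E3}

/-- `τ(e_T)² > τ(e_ρ)²/k²`: `H17W.conorm_time` and `inv_form`, `Hinv_pos`. -/
theorem tau_sq (hS : Slice R₀ D F k r H U W f) (hx : R₀ < ‖x‖) :
    (∑ i, (x i / ‖x‖ + W (pt (f x) x) i) * pd i f x) ^ 2 < (k ‖x‖ * (1 - ∑ i, U (pt (f x) x) i * pd i f x)) ^ 2 := by
  have hp := dom_pt hS hx
  have h1 := H17W.conorm_time (sl_at hS hx)
  rw [inv_form hS.st hp, tau_eT, tau_eR] at h1
  have hF : 0 < F (pt (f x) x) := hS.st.F_pos _ hp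
  have hk : 0 < k ‖x‖ := hS.st.k_pos _ hx
  have h2 := Hinv_pos hS.st hp fun i => conorm f x i.succ
  have h3 : 0 ≤ (‖pos (pt (f x) x)‖ / r ((pt (f x) x : E4) 0, ‖pos (pt (f x) x)‖)) ^ 2 := sq_nonneg _
  have h4 := mul_nonneg h3 h2
  rw [H17T.pos_pt] at h1 h4
  rw [H17T.pt_zero] at h1 h4
  obtain ⟨A, hA⟩ : ∃ A : ℝ, A = 1 - ∑ i, U (pt (f x) x) i * pd i f x := ⟨_, rfl⟩
  obtain ⟨B, hB⟩ : ∃ B : ℝ, B = ∑ i, (x i / ‖x‖ + W (pt (f x) x) i) * pd i f x := ⟨_, rfl⟩
  rw [← hA, ← hB] at h1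
  rw [← hA, ← hB]
  have h5 : 0 < -(-(A * A) / F (pt (f x) x) + -B * -B / (F (pt (f x) x) * k ‖x‖ ^ 2)) := by linarith
  have h6 : -(-(A * A) / F (pt (f x) x) + -B * -B / (F (pt (f x) x) * k ‖x‖ ^ 2)) =
      ((k ‖x‖ * A) ^ 2 - B ^ 2) / (F (pt (f x) x) * k ‖x‖ ^ 2) := by
    field_simp
    ring
  rw [h6] at h5
  have h7 : 0 < F (pt (f x) x) * k ‖x‖ ^ 2 := by positivity
  have h8 := (div_pos_iff_of_pos_right h7).1 h5
  linarith

theorem a3b_fd (f : E3 → ℝ) (y : E3) (u : Fin 3 → ℝ) :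
    fderiv ℝ f y (∑ i, u i • EuclideanSpace.single i 1) = ∑ i, u i * pd i f y := by
  rw [map_sum]
  refine Finset.sum_congr rfl fun i _ => ?_
  rw [map_smul, smul_eq_mul]
  rfl

theorem a3b_inner (y : E3) (u : Fin 3 → ℝ) :
    innerSL ℝ y (∑ i, u i • EuclideanSpace.single i 1 : E3) = ∑ i, y i * u i := by
  rw [map_sum]
  refine Finset.sum_congr rfl fun i _ => ?_
  rw [map_smul, smul_eq_mul, innerSL_apply_apply, EuclideanSpace.inner_single_right]
  simp [mul_comm]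

/-- At a maximum on the sphere the derivative in tangential directions vanishes. -/
theorem a3b_crit {y : E3} (hy : y ≠ 0) (hf : ContDiffAt ℝ ∞ f y) (hm : IsMaxOn f (Metric.sphere 0 ‖y‖) y) {u : Fin 3 → ℝ}
    (hu : ∑ i, y i * u i = 0) : ∑ i, u i * pd i f y = 0 := by
  have hset : {z : E3 | ‖z‖ ^ 2 = ‖y‖ ^ 2} = Metric.sphere 0 ‖y‖ := by
    ext z
    rw [mem_sphere_zero_iff_norm, Set.mem_setOf_eq]
    exact pow_left_inj₀ (norm_nonneg _) (norm_nonneg _) two_ne_zero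
  have hext : IsLocalExtrOn f {z : E3 | ‖z‖ ^ 2 = ‖y‖ ^ 2} y := by
    rw [hset]
    exact Or.inr hm.localize
  obtain ⟨a, b, hab, h⟩ := hext.exists_multipliers_of_hasStrictFDerivAt_1d (hasStrictFDerivAt_norm_sq y)
    (hf.hasStrictFDerivAt (by simp))
  have h1 := congrArg (fun L : StrongDual ℝ E3 => L (∑ i, u i • EuclideanSpace.single i 1)) h
  have h2 := congrArg (fun L : StrongDual ℝ E3 => L y) h
  simp only [ContinuousLinearMap.add_apply, ContinuousLinearMap.smul_apply, ContinuousLinearMap.zero_apply,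
    smul_eq_mul, nsmul_eq_mul, a3b_fd, a3b_inner, hu, mul_zero, zero_add] at h1 h2
  rcases mul_eq_zero.1 h1 with hb | hb
  · exfalso
    rw [hb, zero_mul, add_zero, innerSL_apply_apply, real_inner_self_eq_norm_sq] at h2
    have hy2 : ‖y‖ ^ 2 ≠ 0 := pow_ne_zero 2 (norm_ne_zero_iff.2 hy)
    rcases mul_eq_zero.1 h2 with ha | ha
    · exact hab (by rw [ha, hb]; rfl)
    · rcases mul_eq_zero.1 ha with ha | ha
      · norm_num at ha
      · exact hy2 ha
  · exact hb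

/-- `1 - U·∂f > 0`. The function `x ↦ 1 - Σ U_i ∂_i f` is continuous on the sphere `|y| = |x|`, never zero there (`tau_sq`), and the sphere is
connected (`isPreconnected_sphere`); let `y` be the point of the sphere where `f` is maximal (compactness): there `∂f` vanishes on tangent vectors of the sphere
(`IsLocalMax` along the curve `y cos t + |y| v sin t`, or: Lagrange multipliers, `∂f` is proportional to `y`), so `Σ U_i ∂_i f = 0` (`U` is tangent) and the value is `1`. -/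
theorem tau_pos (hS : Slice R₀ D F k r H U W f) (hx : R₀ < ‖x‖) : 0 < 1 - ∑ i, U (pt (f x) x) i * pd i f x := by
  obtain ⟨g, hg⟩ : ∃ g : E3 → ℝ, g = fun y => 1 - ∑ i, U (pt (f y) y) i * pd i f y := ⟨_, rfl⟩
  have hR : ∀ y ∈ Metric.sphere (0 : E3) ‖x‖, R₀ < ‖y‖ := by
    intro y hy
    rw [mem_sphere_zero_iff_norm] at hy
    rw [hy]
    exact hx
  have hne : ∀ y ∈ Metric.sphere (0 : E3) ‖x‖, g y ≠ 0 := by
    intro y hy h0
    have h1 := tau_sq hS (hR y hy)
    rw [hg] at h0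
    simp only at h0
    rw [h0, mul_zero] at h1
    have h2 : (0 : ℝ) ^ 2 = 0 := by norm_num
    rw [h2] at h1
    exact absurd h1 (not_lt.2 (sq_nonneg _))
  have hcont : ContinuousOn g (Metric.sphere (0 : E3) ‖x‖) := by
    intro y hy
    refine ContinuousAt.continuousWithinAt ?_
    have hf := hS.f_smooth y (hR y hy)
    have hpt : ContinuousAt (fun y : E3 => pt (f y) y) y := by
      have h1 : ContinuousAt (fun y : E3 => (f y, y)) y := hf.continuousAt.prodMk continuousAt_id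
      exact ContinuousAt.comp (g := fun q : ℝ × E3 => pt q.1 q.2) (H17T.pt_smooth.continuous.continuousAt) h1
    have hfd : ContinuousAt (fderiv ℝ f) y :=
      (hf.fderiv_right (m := 0) (by simp)).continuousAt
    rw [hg]
    refine continuousAt_const.sub ?_
    refine tendsto_finsetSum _ fun i _ => ?_
    refine Filter.Tendsto.mul ?_ ?_
    · have h2 : ContinuousAt (fun q => U q i) (pt (f y) y) :=
        (hS.st.U_smooth _ (dom_pt hS (hR y hy)) i).continuousAt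
      exact ContinuousAt.comp (f := fun y : E3 => pt (f y) y) h2 hpt
    · exact hfd.clm_apply continuousAt_const
  have hx0 : x ≠ 0 := by
    intro h
    rw [h, norm_zero] at hx
    exact absurd hx (not_lt.2 hS.st.nonneg)
  have hxS : x ∈ Metric.sphere (0 : E3) ‖x‖ := mem_sphere_zero_iff_norm.2 rfl
  have hfc : ContinuousOn f (Metric.sphere (0 : E3) ‖x‖) := fun y hy =>
    (hS.f_smooth y (hR y hy)).continuousAt.continuousWithinAt
  obtain ⟨y₀, hy₀, hmax⟩ := (isCompact_sphere (0 : E3) ‖x‖).exists_isMaxOn ⟨x, hxS⟩ hfc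
  have hy₀n : ‖y₀‖ = ‖x‖ := mem_sphere_zero_iff_norm.1 hy₀
  have hy₀0 : y₀ ≠ 0 := by
    intro h
    rw [h, norm_zero] at hy₀n
    exact hx0 (norm_eq_zero.1 hy₀n.symm)
  have hg0 : g y₀ = 1 := by
    rw [hg]
    simp only
    rw [a3b_crit hy₀0 (hS.f_smooth y₀ (hR y₀ hy₀)) (by rw [hy₀n]; exact hmax)
      (u := fun i => U (pt (f y₀) y₀) i) ?_, sub_zero]
    have h3 := hS.st.U_tan _ (dom_pt hS (hR y₀ hy₀))
    rw [H17T.pos_pt] at h3
    exact h3
  have hconn : IsPreconnected (Metric.sphere (0 : E3) ‖x‖) := by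
    refine isPreconnected_sphere ?_ 0 ‖x‖
    rw [← Module.finrank_eq_rank, finrank_euclideanSpace_fin]
    norm_num
  have hgx : 0 < g x := by
    by_contra hle
    have h4 : g x ≤ 0 := not_lt.1 hle
    have h5 := hconn.intermediate_value hxS hy₀ hcont
    obtain ⟨z, hz, hz0⟩ := h5 ⟨h4, by rw [hg0]; exact zero_le_one⟩
    exact hne z hz hz0
  rw [hg] at hgx
  exact hgx

/-- From `tau_sq`, `tau_pos`. -/
theorem tau_lt (hS : Slice R₀ D F k r H U W f) (hx : R₀ < ‖x‖) :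
    |∑ i, (x i / ‖x‖ + W (pt (f x) x) i) * pd i f x| < k ‖x‖ * (1 - ∑ i, U (pt (f x) x) i * pd i f x) := by
  have h1 := tau_sq hS hx
  have h2 := tau_pos hS hx
  have h3 : 0 < k ‖x‖ := hS.st.k_pos _ hx
  exact abs_lt_of_sq_lt_sq h1 (by positivity)

end H74X
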