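import Pool.Agent.Lib.H17W.A0
import Pool.Agent.Lib.H17W.C0
import Pool.Agent.Lib.H74X.Defs

set_option autoImplicit false

/-!
# H74X, module B: double null frames, definitions

All fields are functions of `(T, ρ, y)`, `y ≠ 0`, homogeneous in `y`; `Φ(T, ρ, y)` is the event with time `T` and position `ρ y/|y|`.
`L_e = (e/2) (∂_T + ..) + (1/2k) (∂_ρ + ..)` is null for `e = 1` and `e = -1`, `<L_1, L_{-1}> = F/2`; `X_i = ∂Φ/∂y_i`.
-/

open MeasureTheory Filter Topology Set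
open scoped ContDiff

namespace H74X

open H17T (E4 pt pos)
open H17W (ip vel cov riem Ric scal MetAt Cyl)
open Pool.Agent.Lib.PenroseSph (E3 S2 sm)

/-- The parameters `(T, ρ, y)`. -/
abbrev VV := ℝ × ℝ × E3

/-- The direction `∂/∂y_i`. -/
noncomputable def dY (i : Fin 3) : VV := (0, 0, EuclideanSpace.single i (1 : ℝ))

/-- The data of a double null frame: the metric `G` and the map `Φ`, the functions `F`, `k`, `r` of the metric, the metrics `P` of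
the cylinders `ℝ × S2` over the leaves, the shift vectors. -/
structure Dat where
  G : E4 → Matrix (Fin 4) (Fin 4) ℝ
  Ph : VV → E4
  D : Set (ℝ × ℝ)
  F : VV → ℝ
  k : ℝ → ℝ
  r : ℝ × ℝ → ℝ
  P : VV → Matrix (Fin 3) (Fin 3) ℝ
  u : VV → E3
  w : VV → E3

variable (S : Dat)

/-- The domain. -/
def OO : Set VV := {p | (p.1, p.2.1) ∈ S.D ∧ p.2.2 ≠ 0}

/-- The direction of `L_e` in the space of the parameters. -/
noncomputable def ell (e : ℝ) (p : VV) : VV := (e / 2, 1 / (2 * S.k p.2.1), e • S.u p + S.w p)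

/-- The vector `L_e`. -/
noncomputable def LL (e : ℝ) (p : VV) : Fin 4 → ℝ := vel S.Ph p (ell S e p)

/-- The vector `X_i`. -/
noncomputable def XX (i : Fin 3) (p : VV) : Fin 4 → ℝ := vel S.Ph p (dY i)

/-- Scalar product of two vectors at `Φ(p)`. -/
noncomputable def ipp (p : VV) (A B : Fin 4 → ℝ) : ℝ := ip S.G (S.Ph p) A B

/-- The radius. -/
noncomputable def rr (p : VV) : ℝ := S.r (p.1, p.2.1)

/-- `<X_i, X_j>`. -/
noncomputable def hh (i j : Fin 3) (p : VV) : ℝ := rr S p ^ 2 * (S.P p i j - p.2.2 i * p.2.2 j / ‖p.2.2‖ ^ 4)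

/-- The inverse of `<X_i, X_j>` on the tangent planes. -/
noncomputable def QQ (i j : Fin 3) (p : VV) : ℝ := ((S.P p)⁻¹ i j - p.2.2 i * p.2.2 j) / rr S p ^ 2

/-- The Christoffel symbols of the cylinder metric. -/
noncomputable def cc (m i j : Fin 3) (p : VV) : ℝ := H31R.chr (fun y => S.P (p.1, p.2.1, y)) m i j p.2.2

/-- Derivative of a function in the direction `L_e`. -/
noncomputable def ld (e : ℝ) (φ : VV → ℝ) (p : VV) : ℝ := fderiv ℝ φ p (ell S e p)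

/-- Covariant derivative in the direction `L_e`. -/
noncomputable def DL (e : ℝ) (A : VV → Fin 4 → ℝ) (p : VV) : Fin 4 → ℝ := cov S.G S.Ph A p (ell S e p)

/-- Covariant derivative in the direction `X_i`. -/
noncomputable def DX (i : Fin 3) (A : VV → Fin 4 → ℝ) (p : VV) : Fin 4 → ℝ := cov S.G S.Ph A p (dY i)

/-- `∂_i α^m`, `α = e u + w`. -/
noncomputable def dal (e : ℝ) (i m : Fin 3) (p : VV) : ℝ :=
  e * fderiv ℝ (fun q => S.u q m) p (dY i) + fderiv ℝ (fun q => S.w q m) p (dY i)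

/-- The null second fundamental forms `χ_ij = <D_i L_e, X_j>`. -/
noncomputable def chi (e : ℝ) (i j : Fin 3) (p : VV) : ℝ := ipp S p (DX S i (LL S e) p) (XX S j p)

/-- The torsion `η_i = <D_i L_e, L_{-e}>`. -/
noncomputable def eta (e : ℝ) (i : Fin 3) (p : VV) : ℝ := ipp S p (DX S i (LL S e) p) (LL S (-e) p)

/-- The expansion. -/
noncomputable def exl (e : ℝ) (p : VV) : ℝ := ∑ i, ∑ j, QQ S i j p * chi S e i j p

/-- `div η`. -/
noncomputable def deta (e : ℝ) (p : VV) : ℝ :=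
  ∑ i, ∑ j, QQ S i j p * (fderiv ℝ (eta S e j) p (dY i) - ∑ m, cc S m i j p * eta S e m p)

/-- The trace of `Ric` over the leaf. -/
noncomputable def ricS (p : VV) : ℝ := ∑ i, ∑ j, QQ S i j p * Ric S.G (S.Ph p) (XX S i p) (XX S j p)

/-- The conditions on the data. -/
structure Ok : Prop where
  isOpen : IsOpen S.D
  smooth : ∀ p ∈ OO S, ContDiffAt ℝ ∞ S.Ph p
  met : ∀ p ∈ OO S, MetAt S.G (S.Ph p)
  F_smooth : ∀ p ∈ OO S, ContDiffAt ℝ ∞ S.F p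
  F_pos : ∀ p ∈ OO S, 0 < S.F p
  k_smooth : ∀ q ∈ S.D, ContDiffAt ℝ ∞ S.k q.2
  k_pos : ∀ q ∈ S.D, 0 < S.k q.2
  r_smooth : ∀ q ∈ S.D, ContDiffAt ℝ ∞ S.r q
  r_pos : ∀ q ∈ S.D, 0 < S.r q
  P_smooth : ∀ p ∈ OO S, ∀ i j, ContDiffAt ℝ ∞ (fun q => S.P q i j) p
  P_cyl : ∀ q ∈ S.D, Cyl fun y => S.P (q.1, q.2, y)
  P_det : ∀ p ∈ OO S, (S.P p).det = (‖p.2.2‖ ^ 6)⁻¹
  u_smooth : ∀ p ∈ OO S, ContDiffAt ℝ ∞ S.u p
  u_tan : ∀ p ∈ OO S, ∑ i, p.2.2 i * S.u p i = 0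
  u_div : ∀ p ∈ OO S, ∑ i, fderiv ℝ (fun q => S.u q i) p (dY i) = 0
  w_smooth : ∀ p ∈ OO S, ContDiffAt ℝ ∞ S.w p
  w_tan : ∀ p ∈ OO S, ∑ i, p.2.2 i * S.w p i = 0
  w_div : ∀ p ∈ OO S, ∑ i, fderiv ℝ (fun q => S.w q i) p (dY i) = 0
  hom : ∀ p ∈ OO S, ∀ c : ℝ, 0 < c → S.Ph (p.1, p.2.1, c • p.2.2) = S.Ph p ∧ S.F (p.1, p.2.1, c • p.2.2) = S.F p ∧
    S.u (p.1, p.2.1, c • p.2.2) = c • S.u p ∧ S.w (p.1, p.2.1, c • p.2.2) = c • S.w p
  ipL : ∀ p ∈ OO S, ∀ e e' : ℝ, ipp S p (LL S e p) (LL S e' p) = S.F p * (1 - e * e') / 4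
  ipLX : ∀ p ∈ OO S, ∀ e : ℝ, ∀ i, ipp S p (LL S e p) (XX S i p) = 0
  ipX : ∀ p ∈ OO S, ∀ i j, ipp S p (XX S i p) (XX S j p) = hh S i j p

end H74X
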