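import Pool.Agent.Lib.H74X.A2
import Pool.Agent.Lib.H74X.B0
import Pool.Agent.Lib.H17W.B1A

set_option autoImplicit false

/-!
# H74X, chunk A4A (S/M): the map phi

Auxiliary names start with `a4a_`. `H17W/B1A.lean` (`b1a_unit`: the derivative of `y ↦ y/|y|`, `b1a_comp`).
-/

open MeasureTheory Filter Topology Set
open scoped ContDiff

namespace H74X

open H17T (E4 pt pos tang slice second DEC)

open H17W (ip vel cov MetAt Cyl)

open Pool.Agent.Lib.PenroseSph (E3 Tens S2 sm)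

/-- A triple as a vector of `E3`. -/
noncomputable def toE (v : Fin 3 → ℝ) : E3 := !₂[v 0, v 1, v 2]

theorem toE_apply (v : Fin 3 → ℝ) (i : Fin 3) : toE v i = v i := by
  fin_cases i <;> rfl

/-- The event with time `T` and position `ρ y/|y|`. -/
noncomputable def phi (p : VV) : E4 := pt p.1 ((p.2.1 / ‖p.2.2‖) • p.2.2)

/-- The data of the double null frame. -/
noncomputable def dat (D : Set (ℝ × ℝ)) (F : E4 → ℝ) (k : ℝ → ℝ) (r : ℝ × ℝ → ℝ) (H : E4 → Matrix (Fin 3) (Fin 3) ℝ)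
    (U W : E4 → Fin 3 → ℝ) : Dat where
  G := metric F k r H U W
  Ph := phi
  D := D
  F := fun p => F (phi p)
  k := k
  r := r
  P := fun p => (‖p.2.2‖ ^ 2)⁻¹ • H (phi p)
  u := fun p => (‖p.2.2‖ / (2 * p.2.1)) • toE (U (phi p))
  w := fun p => (‖p.2.2‖ / (2 * p.2.1 * k p.2.1)) • toE (W (phi p))

variable {R₀ : ℝ} {D : Set (ℝ × ℝ)} {F : E4 → ℝ} {k : ℝ → ℝ} {r : ℝ × ℝ → ℝ} {H : E4 → Matrix (Fin 3) (Fin 3) ℝ}
  {U W : E4 → Fin 3 → ℝ} {p : VV}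

/-- `ρ > 0`, `|pos Φ| = ρ`. -/
theorem phi_val (hS : SpaceTime R₀ D F k r H U W) (hp : p ∈ OO (dat D F k r H U W)) :
    0 < p.2.1 ∧ 0 < ‖p.2.2‖ ∧ phi p 0 = p.1 ∧ pos (phi p) = (p.2.1 / ‖p.2.2‖) • p.2.2 ∧ ‖pos (phi p)‖ = p.2.1 := by
  obtain ⟨h1, h2⟩ := hp
  have hr : 0 < p.2.1 := lt_of_le_of_lt hS.nonneg (hS.rad _ h1)
  have hn : 0 < ‖p.2.2‖ := norm_pos_iff.2 h2
  have hpos : pos (phi p) = (p.2.1 / ‖p.2.2‖) • p.2.2 := by
    unfold phi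
    rw [H17T.pos_pt]
  refine ⟨hr, hn, ?_, hpos, ?_⟩
  · unfold phi
    rw [H17T.pt_zero]
  · rw [hpos, norm_smul, Real.norm_eq_abs, abs_of_pos (div_pos hr hn), div_mul_cancel₀ _ hn.ne']

theorem phi_dom (hS : SpaceTime R₀ D F k r H U W) (hp : p ∈ OO (dat D F k r H U W)) : (phi p 0, ‖pos (phi p)‖) ∈ D := by
  obtain ⟨-, -, h3, -, h5⟩ := phi_val hS hp
  rw [h3, h5]
  exact hp.1

theorem phi_smooth (hp : p.2.2 ≠ 0) : ContDiffAt ℝ ∞ phi p := by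
  have h1 : ContDiffAt ℝ ∞ (fun q : VV => q.1) p := contDiffAt_fst
  have h2 : ContDiffAt ℝ ∞ (fun q : VV => q.2.1) p := contDiffAt_fst.comp p contDiffAt_snd
  have h3 : ContDiffAt ℝ ∞ (fun q : VV => q.2.2) p := contDiffAt_snd.comp p contDiffAt_snd
  have h4 : ContDiffAt ℝ ∞ (fun q : VV => ‖q.2.2‖) p := h3.norm ℝ hp
  have h5 : ContDiffAt ℝ ∞ (fun q : VV => (q.1, (q.2.1 / ‖q.2.2‖) • q.2.2)) p :=
    h1.prodMk ((h2.div h4 (norm_ne_zero_iff.2 hp)).smul h3)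
  exact ContDiffAt.comp p (g := fun q : ℝ × E3 => pt q.1 q.2) H17T.pt_smooth.contDiffAt h5

/-- `Φ` is constant on the rays. -/
theorem phi_hom (p : VV) {c : ℝ} (hc : 0 < c) : phi (p.1, p.2.1, c • p.2.2) = phi p := by
  unfold phi
  simp only
  rw [norm_smul, Real.norm_eq_abs, abs_of_pos hc, smul_smul]
  congr 2
  rw [div_mul_eq_mul_div, mul_comm p.2.1 c, mul_div_mul_left _ _ hc.ne']

/-- The derivative of `Φ`. -/
theorem vel_phi (hp : p.2.2 ≠ 0) (v : VV) : vel phi p v = Fin.cons v.1 fun j =>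
    v.2.1 * (p.2.2 j / ‖p.2.2‖) + p.2.1 / ‖p.2.2‖ * (v.2.2 j - (∑ i, p.2.2 i * v.2.2 i) * p.2.2 j / ‖p.2.2‖ ^ 2) := by
  funext a
  refine Fin.cases ?_ (fun j => ?_) a
  · have h1 : (fun q : VV => phi q 0) = fun q : VV => q.1 := by
      funext q
      unfold phi
      rw [H17T.pt_zero]
    unfold vel
    rw [h1, Fin.cons_zero]
    have h2 : HasFDerivAt (fun q : VV => q.1) (ContinuousLinearMap.fst ℝ ℝ (ℝ × E3)) p := hasFDerivAt_fst
    rw [h2.fderiv]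
    rfl
  · have h1 : (fun q : VV => phi q j.succ) = fun q : VV => q.2.1 * (‖q.2.2‖⁻¹ • q.2.2) j := by
      funext q
      unfold phi
      rw [H17T.pt_succ, PiLp.smul_apply, PiLp.smul_apply, smul_eq_mul, smul_eq_mul]
      ring
    unfold vel
    rw [h1, Fin.cons_succ]
    have g1 : HasFDerivAt (fun q : VV => q.2) (ContinuousLinearMap.snd ℝ ℝ (ℝ × E3)) p := hasFDerivAt_snd
    have g2 : HasFDerivAt (fun q : VV => q.2.1)
        ((ContinuousLinearMap.fst ℝ ℝ E3).comp (ContinuousLinearMap.snd ℝ ℝ (ℝ × E3))) p :=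
      HasFDerivAt.comp (g := fun q : ℝ × E3 => q.1) p hasFDerivAt_fst g1
    have g3 : HasFDerivAt (fun q : VV => q.2.2)
        ((ContinuousLinearMap.snd ℝ ℝ E3).comp (ContinuousLinearMap.snd ℝ ℝ (ℝ × E3))) p :=
      HasFDerivAt.comp (g := fun q : ℝ × E3 => q.2) p hasFDerivAt_snd g1
    have g4 : HasFDerivAt (fun q : VV => ‖q.2.2‖⁻¹ • q.2.2)
        ((H17W.b1a_D p.2.2).comp ((ContinuousLinearMap.snd ℝ ℝ E3).comp (ContinuousLinearMap.snd ℝ ℝ (ℝ × E3)))) p :=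
      HasFDerivAt.comp (g := fun y : E3 => ‖y‖⁻¹ • y) p (H17W.b1a_unit hp) g3
    have g5 : HasFDerivAt (fun q : VV => (‖q.2.2‖⁻¹ • q.2.2) j)
        ((EuclideanSpace.proj (𝕜 := ℝ) j : E3 →L[ℝ] ℝ).comp ((H17W.b1a_D p.2.2).comp
          ((ContinuousLinearMap.snd ℝ ℝ E3).comp (ContinuousLinearMap.snd ℝ ℝ (ℝ × E3))))) p :=
      HasFDerivAt.comp (g := fun y : E3 => y j) p (EuclideanSpace.proj (𝕜 := ℝ) j : E3 →L[ℝ] ℝ).hasFDerivAt g4
    have g6 := g2.mul g5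
    rw [HasFDerivAt.fderiv (f := fun q : VV => q.2.1 * (‖q.2.2‖⁻¹ • q.2.2) j) g6]
    have hn : ‖p.2.2‖ ≠ 0 := norm_ne_zero_iff.2 hp
    have hin : innerSL ℝ p.2.2 v.2.2 = ∑ i, p.2.2 i * v.2.2 i := by
      rw [innerSL_apply_apply, PiLp.inner_apply]
      refine Finset.sum_congr rfl fun i _ => ?_
      simp [mul_comm]
    have hD : (H17W.b1a_D p.2.2 v.2.2) j = ‖p.2.2‖⁻¹ * v.2.2 j +
        (-(‖p.2.2‖ ^ 2)⁻¹ * (1 / (2 * ‖p.2.2‖)) * 2) * (∑ i, p.2.2 i * v.2.2 i) * p.2.2 j := by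
      unfold H17W.b1a_D
      rw [← hin]
      rfl
    show p.2.1 * (H17W.b1a_D p.2.2 v.2.2) j + (‖p.2.2‖⁻¹ • p.2.2) j * v.2.1 = _
    rw [hD, PiLp.smul_apply, smul_eq_mul]
    field_simp
    ring

theorem XX_val (hp : p.2.2 ≠ 0) (i : Fin 3) : XX (dat D F k r H U W) i p = Fin.cons 0 fun j =>
    p.2.1 / ‖p.2.2‖ * ((if j = i then 1 else 0) - p.2.2 i * p.2.2 j / ‖p.2.2‖ ^ 2) := by
  have h1 : XX (dat D F k r H U W) i p = vel phi p (dY i) := rfl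
  rw [h1, vel_phi hp]
  congr 1
  funext j
  have h2 : ∑ l, p.2.2 l * (dY i).2.2 l = p.2.2 i := by
    unfold dY
    simp
  rw [h2]
  have h3 : (dY i).2.2 j = if j = i then 1 else 0 := by
    unfold dY
    simp
  have h4 : (dY i).2.1 = 0 := rfl
  rw [h3, h4, zero_mul, zero_add]

end H74X
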