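import Pool.Agent.Lib.H74X.A2
import Pool.Agent.Lib.H74X.A4A
import Pool.Agent.Lib.H74X.B0

set_option autoImplicit false

/-!
# H74X, chunk A4B (S/M): the frame

Auxiliary names start with `a4b_`. `H17W/B1A.lean` (`b1a_unit`: the derivative of `y ↦ y/|y|`, `b1a_comp`).
-/

open MeasureTheory Filter Topology Set
open scoped ContDiff

namespace H74X

open H17T (E4 pt pos tang slice second DEC)

open H17W (ip vel cov MetAt Cyl)

open Pool.Agent.Lib.PenroseSph (E3 Tens S2 sm)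

variable {R₀ : ℝ} {D : Set (ℝ × ℝ)} {F : E4 → ℝ} {k : ℝ → ℝ} {r : ℝ × ℝ → ℝ} {H : E4 → Matrix (Fin 3) (Fin 3) ℝ}
  {U W : E4 → Fin 3 → ℝ} {p : VV}

theorem a4b_ip_add (G : E4 → Matrix (Fin 4) (Fin 4) ℝ) (q : E4) (s t : ℝ) (a b c : Fin 4 → ℝ) :
    ip G q (s • a + t • b) c = s * ip G q a c + t * ip G q b c := by
  unfold ip
  simp only [Pi.add_apply, Pi.smul_apply, smul_eq_mul, Finset.mul_sum, ← Finset.sum_add_distrib]
  refine Finset.sum_congr rfl fun i _ => Finset.sum_congr rfl fun j _ => ?_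
  ring

/-- The position is a multiple of `y`. -/
theorem a4b_pos (hS : SpaceTime R₀ D F k r H U W) (hp : p ∈ OO (dat D F k r H U W)) (i : Fin 3) :
    pos (phi p) i = p.2.1 / ‖p.2.2‖ * p.2.2 i := by
  obtain ⟨h1, h2, h3, h4, h5⟩ := phi_val hS hp
  rw [h4]
  simp

theorem a4b_tan (hS : SpaceTime R₀ D F k r H U W) (hp : p ∈ OO (dat D F k r H U W)) {V : Fin 3 → ℝ}
    (hV : ∑ i, pos (phi p) i * V i = 0) : ∑ i, p.2.2 i * V i = 0 := by
  obtain ⟨h1, h2, h3, h4, h5⟩ := phi_val hS hp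
  have e1 : ∑ i, pos (phi p) i * V i = p.2.1 / ‖p.2.2‖ * ∑ i, p.2.2 i * V i := by
    rw [Finset.mul_sum]
    refine Finset.sum_congr rfl fun i _ => ?_
    rw [a4b_pos hS hp]
    ring
  rw [e1] at hV
  rcases mul_eq_zero.1 hV with h | h
  · exact absurd h (div_pos h1 h2).ne'
  · exact h

theorem a4b_k (hS : SpaceTime R₀ D F k r H U W) (hp : p ∈ OO (dat D F k r H U W)) : 0 < k p.2.1 :=
  hS.k_pos _ (hS.rad _ hp.1)

/-- `L_e = (e/2) e_T + (1/2k) e_ρ`. -/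
theorem LL_val (hS : SpaceTime R₀ D F k r H U W) (hp : p ∈ OO (dat D F k r H U W)) (e : ℝ) :
    LL (dat D F k r H U W) e p = (e / 2) • eT U (phi p) + (1 / (2 * k p.2.1)) • eR W (phi p) := by
  obtain ⟨h1, h2, h3, h4, h5⟩ := phi_val hS hp
  have hk := a4b_k hS hp
  have hU := a4b_tan hS hp (hS.U_tan _ (phi_dom hS hp))
  have hW := a4b_tan hS hp (hS.W_tan _ (phi_dom hS hp))
  have e0 : LL (dat D F k r H U W) e p = vel phi p (ell (dat D F k r H U W) e p) := rfl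
  have e1 : (ell (dat D F k r H U W) e p).1 = e / 2 := rfl
  have e2 : (ell (dat D F k r H U W) e p).2.1 = 1 / (2 * k p.2.1) := rfl
  have e3 : ∀ j, (ell (dat D F k r H U W) e p).2.2 j =
      e * (‖p.2.2‖ / (2 * p.2.1) * U (phi p) j) + ‖p.2.2‖ / (2 * p.2.1 * k p.2.1) * W (phi p) j := by
    intro j
    have : (ell (dat D F k r H U W) e p).2.2 = e • ((‖p.2.2‖ / (2 * p.2.1)) • toE (U (phi p))) +
        (‖p.2.2‖ / (2 * p.2.1 * k p.2.1)) • toE (W (phi p)) := rfl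
    rw [this]
    simp only [PiLp.add_apply, PiLp.smul_apply, smul_eq_mul, toE_apply]
  have e4 : ∑ i, p.2.2 i * (ell (dat D F k r H U W) e p).2.2 i = 0 := by
    have : ∑ i, p.2.2 i * (ell (dat D F k r H U W) e p).2.2 i =
        e * (‖p.2.2‖ / (2 * p.2.1)) * (∑ i, p.2.2 i * U (phi p) i) +
          ‖p.2.2‖ / (2 * p.2.1 * k p.2.1) * ∑ i, p.2.2 i * W (phi p) i := by
      rw [Finset.mul_sum, Finset.mul_sum, ← Finset.sum_add_distrib]
      refine Finset.sum_congr rfl fun i _ => ?_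
      rw [e3]
      ring
    rw [this, hU, hW]
    ring
  rw [e0, vel_phi hp.2, e4, e1, e2]
  funext a
  refine Fin.cases ?_ (fun j => ?_) a
  · simp [eT, eR]
  · simp only [Fin.cons_succ, Pi.add_apply, Pi.smul_apply, smul_eq_mul, eT, eR, e3, a4b_pos hS hp, h5]
    have n1 := h1.ne'
    have n2 := h2.ne'
    have n3 := hk.ne'
    field_simp
    ring

/-- `frame_ip`. -/
theorem dat_ipL (hS : SpaceTime R₀ D F k r H U W) (hp : p ∈ OO (dat D F k r H U W)) (e e' : ℝ) :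
    ipp (dat D F k r H U W) p (LL (dat D F k r H U W) e p) (LL (dat D F k r H U W) e' p) = F (phi p) * (1 - e * e') / 4 := by
  obtain ⟨h1, h2, h3, h4, h5⟩ := phi_val hS hp
  have hk := (a4b_k hS hp).ne'
  obtain ⟨f1, f2, f3, f4⟩ := frame_val hS (phi_dom hS hp)
  have e0 : ∀ a b, ipp (dat D F k r H U W) p a b = ip (metric F k r H U W) (phi p) a b := fun _ _ => rfl
  have d1 : dra (phi p) (LL (dat D F k r H U W) e' p) = 1 / (2 * k p.2.1) := by
    rw [LL_val hS hp]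
    have : dra (phi p) ((e' / 2) • eT U (phi p) + (1 / (2 * k p.2.1)) • eR W (phi p)) =
        e' / 2 * dra (phi p) (eT U (phi p)) + 1 / (2 * k p.2.1) * dra (phi p) (eR W (phi p)) := by
      unfold dra
      rw [Finset.mul_sum, Finset.mul_sum, ← Finset.sum_add_distrib]
      refine Finset.sum_congr rfl fun i _ => ?_
      simp only [Pi.add_apply, Pi.smul_apply, smul_eq_mul]
      ring
    rw [this, f1, f3]
    ring
  have d2 : LL (dat D F k r H U W) e' p 0 = e' / 2 := by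
    rw [LL_val hS hp]
    simp [eT, eR]
  rw [e0, LL_val hS hp e, a4b_ip_add, (frame_ip' hS (phi_dom hS hp) _).1, (frame_ip' hS (phi_dom hS hp) _).2, d1, d2, h5]
  field_simp
  ring

/-- `X_i` is orthogonal to the radius. -/
theorem a4b_X (hS : SpaceTime R₀ D F k r H U W) (hp : p ∈ OO (dat D F k r H U W)) (i : Fin 3) :
    ∑ j, pos (phi p) j * (p.2.1 / ‖p.2.2‖ * ((if j = i then 1 else 0) - p.2.2 i * p.2.2 j / ‖p.2.2‖ ^ 2)) = 0 := by
  obtain ⟨h1, h2, h3, h4, h5⟩ := phi_val hS hp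
  have hq : ∑ j, p.2.2 j * p.2.2 j = ‖p.2.2‖ ^ 2 := a1a_sq _
  have e1 : ∑ j, pos (phi p) j * (p.2.1 / ‖p.2.2‖ * ((if j = i then 1 else 0) - p.2.2 i * p.2.2 j / ‖p.2.2‖ ^ 2)) =
      (p.2.1 / ‖p.2.2‖) ^ 2 * ((∑ j, p.2.2 j * (if j = i then 1 else 0)) - p.2.2 i / ‖p.2.2‖ ^ 2 * ∑ j, p.2.2 j * p.2.2 j) := by
    rw [Finset.mul_sum, ← Finset.sum_sub_distrib, Finset.mul_sum]
    refine Finset.sum_congr rfl fun j _ => ?_
    rw [a4b_pos hS hp]
    ring
  rw [e1, hq]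
  have e2 : ∑ j, p.2.2 j * (if j = i then (1 : ℝ) else 0) = p.2.2 i := by simp
  rw [e2]
  have n2 := h2.ne'
  field_simp
  ring

/-- `X_i` is tangent to the sphere (`tan_val`, `frame_ip'`). -/
theorem dat_ipLX (hS : SpaceTime R₀ D F k r H U W) (hp : p ∈ OO (dat D F k r H U W)) (e : ℝ) (i : Fin 3) :
    ipp (dat D F k r H U W) p (LL (dat D F k r H U W) e p) (XX (dat D F k r H U W) i p) = 0 := by
  have e0 : ∀ a b, ipp (dat D F k r H U W) p a b = ip (metric F k r H U W) (phi p) a b := fun _ _ => rfl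
  rw [e0, LL_val hS hp e, a4b_ip_add, (frame_ip' hS (phi_dom hS hp) _).1, (frame_ip' hS (phi_dom hS hp) _).2, XX_val hp.2,
    (tan_val (U := U) (W := W) (a4b_X hS hp i)).1]
  simp

/-- `met_ip`, `tan_val`, `H y = y` for `y` proportional to `pos (Φ p)` (`H_rad`, `H_symm`). -/
theorem dat_ipX (hS : SpaceTime R₀ D F k r H U W) (hp : p ∈ OO (dat D F k r H U W)) (i j : Fin 3) :
    ipp (dat D F k r H U W) p (XX (dat D F k r H U W) i p) (XX (dat D F k r H U W) j p) = hh (dat D F k r H U W) i j p := by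
  obtain ⟨h1, h2, h3, h4, h5⟩ := phi_val hS hp
  have n1 := h1.ne'
  have n2 := h2.ne'
  have hq : ∑ j, p.2.2 j * p.2.2 j = ‖p.2.2‖ ^ 2 := a1a_sq _
  have e0 : ∀ a b, ipp (dat D F k r H U W) p a b = ip (metric F k r H U W) (phi p) a b := fun _ _ => rfl
  have eh : hh (dat D F k r H U W) i j p =
      r (p.1, p.2.1) ^ 2 * ((‖p.2.2‖ ^ 2)⁻¹ * H (phi p) i j - p.2.2 i * p.2.2 j / ‖p.2.2‖ ^ 4) := rfl
  have hrad : ∀ a, ∑ b, H (phi p) a b * p.2.2 b = p.2.2 a := by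
    intro a
    have h6 := hS.H_rad _ (phi_dom hS hp) a
    have e1 : ∑ b, H (phi p) a b * pos (phi p) b = p.2.1 / ‖p.2.2‖ * ∑ b, H (phi p) a b * p.2.2 b := by
      rw [Finset.mul_sum]
      refine Finset.sum_congr rfl fun b _ => ?_
      rw [a4b_pos hS hp]
      ring
    rw [e1, a4b_pos hS hp] at h6
    exact mul_left_cancel₀ (div_pos h1 h2).ne' h6
  have hrad' : ∀ b, ∑ a, H (phi p) a b * p.2.2 a = p.2.2 b := by
    intro b
    rw [← hrad b]
    refine Finset.sum_congr rfl fun a _ => ?_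
    rw [hS.H_symm _ (phi_dom hS hp)]
  rw [e0, met_ip, XX_val hp.2, XX_val hp.2, (tan_val (U := U) (W := W) (a4b_X hS hp i)).1, eh, h3, h5]
  simp only [(tan_val (U := U) (W := W) (a4b_X hS hp i)).2, (tan_val (U := U) (W := W) (a4b_X hS hp j)).2, Fin.cons_zero]
  set c := p.2.1 / ‖p.2.2‖ with hc
  have s1 : ∑ a, ∑ b, H (phi p) a b * (c * ((if a = i then 1 else 0) - p.2.2 i * p.2.2 a / ‖p.2.2‖ ^ 2) *
      (c * ((if b = j then 1 else 0) - p.2.2 j * p.2.2 b / ‖p.2.2‖ ^ 2))) =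
      c ^ 2 * (H (phi p) i j - p.2.2 i * p.2.2 j / ‖p.2.2‖ ^ 2) := by
    have s2 : ∀ a, ∑ b, H (phi p) a b * (c * ((if a = i then 1 else 0) - p.2.2 i * p.2.2 a / ‖p.2.2‖ ^ 2) *
        (c * ((if b = j then 1 else 0) - p.2.2 j * p.2.2 b / ‖p.2.2‖ ^ 2))) =
        c ^ 2 * (((if a = i then 1 else 0) - p.2.2 i * p.2.2 a / ‖p.2.2‖ ^ 2) *
          (H (phi p) a j - p.2.2 j / ‖p.2.2‖ ^ 2 * p.2.2 a)) := by
      intro a
      have s3 : ∑ b, H (phi p) a b * (if b = j then (1 : ℝ) else 0) = H (phi p) a j := by simp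
      have s4 : ∑ b, H (phi p) a b * (c * ((if a = i then 1 else 0) - p.2.2 i * p.2.2 a / ‖p.2.2‖ ^ 2) *
          (c * ((if b = j then 1 else 0) - p.2.2 j * p.2.2 b / ‖p.2.2‖ ^ 2))) =
          c ^ 2 * (((if a = i then 1 else 0) - p.2.2 i * p.2.2 a / ‖p.2.2‖ ^ 2) *
            ((∑ b, H (phi p) a b * (if b = j then (1 : ℝ) else 0)) -
              p.2.2 j / ‖p.2.2‖ ^ 2 * ∑ b, H (phi p) a b * p.2.2 b)) := by
        rw [Finset.mul_sum, ← Finset.sum_sub_distrib, Finset.mul_sum, Finset.mul_sum]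
        refine Finset.sum_congr rfl fun b _ => ?_
        ring
      rw [s4, s3, hrad a]
    rw [Finset.sum_congr rfl fun a _ => s2 a, ← Finset.mul_sum]
    congr 1
    have s5 : ∑ a, ((if a = i then 1 else 0) - p.2.2 i * p.2.2 a / ‖p.2.2‖ ^ 2) *
        (H (phi p) a j - p.2.2 j / ‖p.2.2‖ ^ 2 * p.2.2 a) =
        (∑ a, (if a = i then 1 else 0) * H (phi p) a j) - p.2.2 j / ‖p.2.2‖ ^ 2 * (∑ a, (if a = i then 1 else 0) * p.2.2 a) -
          p.2.2 i / ‖p.2.2‖ ^ 2 * (∑ a, H (phi p) a j * p.2.2 a) +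
          p.2.2 i / ‖p.2.2‖ ^ 2 * (p.2.2 j / ‖p.2.2‖ ^ 2) * ∑ a, p.2.2 a * p.2.2 a := by
      rw [Finset.mul_sum, Finset.mul_sum, Finset.mul_sum, ← Finset.sum_sub_distrib, ← Finset.sum_sub_distrib,
        ← Finset.sum_add_distrib]
      refine Finset.sum_congr rfl fun a _ => ?_
      ring
    rw [s5, hrad' j, hq]
    have s6 : ∑ a, (if a = i then (1 : ℝ) else 0) * H (phi p) a j = H (phi p) i j := by simp
    have s7 : ∑ a, (if a = i then (1 : ℝ) else 0) * p.2.2 a = p.2.2 i := by simp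
    rw [s6, s7]
    field_simp
    ring
  rw [s1, hc]
  field_simp
  ring

end H74X
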