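import Pool.Agent.Lib.H74X.A4
import Pool.Agent.Lib.H74X.B1

set_option autoImplicit false

/-!
# H74X, chunk A5A (S/M): cylinder metric

Auxiliary names start with `a5a_`. 
-/

open MeasureTheory Filter Topology Set
open scoped ContDiff

namespace H74X

open H17T (E4 pt pos tang slice second DEC)

open H17W (ip vel cov MetAt Cyl)

open Pool.Agent.Lib.PenroseSph (E3 Tens S2 sm)

variable {R₀ : ℝ} {D : Set (ℝ × ℝ)} {F : E4 → ℝ} {k : ℝ → ℝ} {r : ℝ × ℝ → ℝ} {H : E4 → Matrix (Fin 3) (Fin 3) ℝ}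
  {U W : E4 → Fin 3 → ℝ} {p : VV}

theorem a5a_rad (hS : SpaceTime R₀ D F k r H U W) (hp : p ∈ OO (dat D F k r H U W)) (a : Fin 3) :
    ∑ b, H (phi p) a b * p.2.2 b = p.2.2 a := by
  obtain ⟨h1, h2, h3, h4, h5⟩ := phi_val hS hp
  have h6 := hS.H_rad _ (phi_dom hS hp) a
  have e1 : ∑ b, H (phi p) a b * pos (phi p) b = p.2.1 / ‖p.2.2‖ * ∑ b, H (phi p) a b * p.2.2 b := by
    rw [Finset.mul_sum]
    refine Finset.sum_congr rfl fun b _ => ?_
    rw [a4b_pos hS hp]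
    ring
  rw [e1, a4b_pos hS hp] at h6
  exact mul_left_cancel₀ (div_pos h1 h2).ne' h6

theorem a5a_sm (hx : p.2.2 ≠ 0) : ContDiffAt ℝ ∞ (fun y : E3 => phi (p.1, p.2.1, y)) p.2.2 := by
  have h1 : ContDiffAt ℝ ∞ (fun y : E3 => ((p.1, p.2.1, y) : VV)) p.2.2 :=
    contDiffAt_const.prodMk (contDiffAt_const.prodMk contDiffAt_id)
  exact ContDiffAt.comp (f := fun y : E3 => ((p.1, p.2.1, y) : VV)) p.2.2 (phi_smooth (p := p) hx) h1

/-- `P(T, ρ, y) = H(T, ρ y/|y|)/|y|²` is a cylinder metric. -/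
theorem dat_cyl (hS : SpaceTime R₀ D F k r H U W) {q : ℝ × ℝ} (hq : q ∈ D) :
    Cyl fun y => (dat D F k r H U W).P (q.1, q.2, y) := by
  have hO : ∀ y : E3, y ≠ 0 → ((q.1, q.2, y) : VV) ∈ OO (dat D F k r H U W) := fun y hy => ⟨hq, hy⟩
  have e : ∀ y : E3, ∀ i j, (dat D F k r H U W).P (q.1, q.2, y) i j = (‖y‖ ^ 2)⁻¹ * H (phi (q.1, q.2, y)) i j :=
    fun y i j => rfl
  refine ⟨fun x hx i j => ?_, fun x hx i j => ?_, fun x hx ξ hξ => ?_, fun x hx c hc i j => ?_, fun x hx i => ?_⟩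
  · simp only [e]
    have h1 : ContDiffAt ℝ ∞ (fun y : E3 => (‖y‖ ^ 2)⁻¹) x :=
      ((contDiffAt_id.norm ℝ hx).pow 2).inv (pow_ne_zero 2 (norm_ne_zero_iff.2 hx))
    have h2 : ContDiffAt ℝ ∞ (fun y : E3 => H (phi (q.1, q.2, y)) i j) x :=
      ContDiffAt.comp (g := fun p => H p i j) (f := fun y : E3 => phi (q.1, q.2, y)) x
        (hS.H_smooth _ (phi_dom hS (hO x hx)) i j) (a5a_sm (p := (q.1, q.2, x)) hx)
    exact h1.mul h2
  · rw [e, e, hS.H_symm _ (phi_dom hS (hO x hx))]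
  · have hn : 0 < (‖x‖ ^ 2)⁻¹ := by
      have := norm_pos_iff.2 hx
      positivity
    have h1 : ∑ i, ∑ j, (dat D F k r H U W).P (q.1, q.2, x) i j * ξ i * ξ j =
        (‖x‖ ^ 2)⁻¹ * ∑ i, ∑ j, H (phi (q.1, q.2, x)) i j * ξ i * ξ j := by
      rw [Finset.mul_sum]
      refine Finset.sum_congr rfl fun i _ => ?_
      rw [Finset.mul_sum]
      refine Finset.sum_congr rfl fun j _ => ?_
      rw [e]
      ring
    rw [h1]
    exact mul_pos hn (hS.H_pos _ (phi_dom hS (hO x hx)) ξ hξ)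
  · rw [e, e, phi_hom (q.1, q.2, x) hc, norm_smul, Real.norm_eq_abs, abs_of_pos hc]
    have h1 := (norm_pos_iff.2 hx).ne'
    field_simp
  · have h1 : ∑ j, (dat D F k r H U W).P (q.1, q.2, x) i j * x j =
        (‖x‖ ^ 2)⁻¹ * ∑ j, H (phi (q.1, q.2, x)) i j * x j := by
      rw [Finset.mul_sum]
      refine Finset.sum_congr rfl fun j _ => ?_
      rw [e]
      ring
    have h2 := a5a_rad hS (hO x hx) i
    rw [h1, h2]
    rw [div_eq_mul_inv, mul_comm]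

theorem dat_det (hS : SpaceTime R₀ D F k r H U W) (hp : p ∈ OO (dat D F k r H U W)) :
    ((dat D F k r H U W).P p).det = (‖p.2.2‖ ^ 6)⁻¹ := by
  have e : (dat D F k r H U W).P p = (‖p.2.2‖ ^ 2)⁻¹ • H (phi p) := rfl
  rw [e, Matrix.det_smul, hS.H_det _ (phi_dom hS hp), Fintype.card_fin, mul_one, inv_pow, ← pow_mul]

end H74X
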