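import Pool.Agent.Lib.H74X.A4
import Pool.Agent.Lib.H74X.A5A
import Pool.Agent.Lib.H74X.B1

set_option autoImplicit false

/-!
# H74X, chunk A5B (S/M): divergence free fields

Auxiliary names start with `a5b_`. 
-/

open MeasureTheory Filter Topology Set
open scoped ContDiff

namespace H74X

open H17T (E4 pt pos tang slice second DEC)

open H17W (ip vel cov MetAt Cyl)

open Pool.Agent.Lib.PenroseSph (E3 Tens S2 sm)

variable {R₀ : ℝ} {D : Set (ℝ × ℝ)} {F : E4 → ℝ} {k : ℝ → ℝ} {r : ℝ × ℝ → ℝ} {H : E4 → Matrix (Fin 3) (Fin 3) ℝ}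
  {U W : E4 → Fin 3 → ℝ} {p : VV}

/-- `c` does not depend on `y`. -/
theorem a5b_c (hp2 : p.2.2 ≠ 0) (c : VV → ℝ)
    (hc : ContDiffAt ℝ ∞ c p) (hcy : ∀ q : VV, q.2.2 ≠ 0 → c q = c (q.1, q.2.1, p.2.2)) {i : Fin 3} :
    fderiv ℝ c p (dY i) = 0 := by
  have hev : ∀ᶠ q : VV in 𝓝 p, q.2.2 ≠ 0 := by
    have h1 : IsOpen {q : VV | q.2.2 ≠ 0} := isOpen_ne.preimage (continuous_snd.comp continuous_snd)
    exact h1.mem_nhds hp2
  have h1 : c =ᶠ[𝓝 p] fun q : VV => (fun z : ℝ × ℝ => c (z.1, z.2, p.2.2)) (q.1, q.2.1) := by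
    filter_upwards [hev] with q hq
    exact hcy q hq
  rw [h1.fderiv_eq]
  refine fd_q (p := p) (φ := fun z : ℝ × ℝ => c (z.1, z.2, p.2.2)) ?_ i
  have h2 : DifferentiableAt ℝ (fun z : ℝ × ℝ => ((z.1, z.2, p.2.2) : VV)) (p.1, p.2.1) :=
    differentiableAt_fst.prodMk (differentiableAt_snd.prodMk (differentiableAt_const _))
  have h3 : DifferentiableAt ℝ c ((fun z : ℝ × ℝ => ((z.1, z.2, p.2.2) : VV)) (p.1, p.2.1)) :=
    hc.differentiableAt (by norm_num)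
  exact h3.comp (p.1, p.2.1) h2

theorem a5b_norm (hp2 : p.2.2 ≠ 0) {i : Fin 3} :
    fderiv ℝ (fun q : VV => ‖q.2.2‖) p (dY i) = p.2.2 i / ‖p.2.2‖ := by
  have hn : ‖p.2.2‖ ≠ 0 := norm_ne_zero_iff.mpr hp2
  have h0 : HasFDerivAt (fun q : VV => q.2.2)
      ((ContinuousLinearMap.snd ℝ ℝ E3).comp (ContinuousLinearMap.snd ℝ ℝ (ℝ × E3))) p :=
    ((ContinuousLinearMap.snd ℝ ℝ E3).comp (ContinuousLinearMap.snd ℝ ℝ (ℝ × E3))).hasFDerivAt
  have h1 : HasFDerivAt (fun y : E3 => ‖y‖ ^ 2) (2 • innerSL ℝ p.2.2) p.2.2 :=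
    (hasStrictFDerivAt_norm_sq p.2.2).hasFDerivAt
  have h2 := h1.sqrt (pow_ne_zero 2 hn)
  have h3 : (fun y : E3 => √(‖y‖ ^ 2)) = fun y => ‖y‖ := by
    funext y
    exact Real.sqrt_sq (norm_nonneg _)
  rw [h3, Real.sqrt_sq (norm_nonneg _)] at h2
  have h4 := h2.comp p h0
  have h5 : fderiv ℝ (fun q : VV => ‖q.2.2‖) p = _ := h4.fderiv
  rw [h5]
  have h6 : (ContinuousLinearMap.snd ℝ ℝ E3).comp (ContinuousLinearMap.snd ℝ ℝ (ℝ × E3)) (dY i) =
      EuclideanSpace.single i (1 : ℝ) := rfl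
  rw [ContinuousLinearMap.comp_apply, h6]
  simp only [ContinuousLinearMap.smul_apply, innerSL_apply_apply, EuclideanSpace.inner_single_right, smul_eq_mul]
  simp
  field_simp

/-- Derivative of `Σ x_i V_i = 0`. -/
theorem a5b_tan {V : E4 → Fin 3 → ℝ} (hO : IsOpen D)
    (hV : ∀ p : E4, (p 0, ‖pos p‖) ∈ D → ∀ i, ContDiffAt ℝ ∞ (fun q => V q i) p)
    (htan : ∀ p : E4, (p 0, ‖pos p‖) ∈ D → ∑ i, pos p i * V p i = 0) {q : E4} (hq : (q 0, ‖pos q‖) ∈ D) (j : Fin 3) :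
    ∑ i : Fin 3, pos q i * H31R.pd j.succ (fun z => V z i) q = -V q j := by
  have hcont : Continuous fun z : E4 => (z 0, ‖pos z‖) :=
    ((EuclideanSpace.proj (0 : Fin 4) : E4 →L[ℝ] ℝ).continuous).prodMk H17T.pos_smooth.continuous.norm
  have hev : (fun z : E4 => ∑ i : Fin 3, pos z i * V z i) =ᶠ[𝓝 q] fun _ => 0 := by
    filter_upwards [(hO.preimage hcont).mem_nhds hq] with z hz
    exact htan z hz
  have h1 : ∀ i : Fin 3, HasFDerivAt (fun z : E4 => pos z i) (EuclideanSpace.proj i.succ : E4 →L[ℝ] ℝ) q := by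
    intro i
    have e : (fun z : E4 => pos z i) = fun z => (EuclideanSpace.proj i.succ : E4 →L[ℝ] ℝ) z := by
      funext z
      rw [H17T.t0_pos_apply]
      rfl
    rw [e]
    exact (EuclideanSpace.proj i.succ : E4 →L[ℝ] ℝ).hasFDerivAt
  have h2 : ∀ i : Fin 3, HasFDerivAt (fun z : E4 => V z i) (fderiv ℝ (fun z : E4 => V z i) q) q := fun i =>
    ((hV q hq i).differentiableAt (by norm_num)).hasFDerivAt
  have h3 := HasFDerivAt.fun_sum fun (i : Fin 3) (_ : i ∈ Finset.univ) => (h1 i).mul (h2 i)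
  have h4 := h3.fderiv
  have h5 : fderiv ℝ (fun z : E4 => ∑ i : Fin 3, pos z i * V z i) q = 0 := by
    rw [hev.fderiv_eq]
    exact fderiv_const_apply 0
  have h6 : (fun z : E4 => ∑ i : Fin 3, (fun z : E4 => pos z i) z * (fun z : E4 => V z i) z) =
      fun z : E4 => ∑ i : Fin 3, pos z i * V z i := rfl
  have h7 : (∑ i : Fin 3, (pos q i • fderiv ℝ (fun z : E4 => V z i) q + V q i • (EuclideanSpace.proj i.succ : E4 →L[ℝ] ℝ)) :
      E4 →L[ℝ] ℝ) = 0 := by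
    rw [← h5]
    exact h4.symm
  have h8 := congrArg (fun L : E4 →L[ℝ] ℝ => L (H31R.ebas j.succ)) h7
  simp only [ContinuousLinearMap.sum_apply, ContinuousLinearMap.add_apply, ContinuousLinearMap.smul_apply, smul_eq_mul,
    ContinuousLinearMap.zero_apply, Finset.sum_add_distrib] at h8
  have h9 : ∑ i : Fin 3, V q i * (EuclideanSpace.proj i.succ : E4 →L[ℝ] ℝ) (H31R.ebas j.succ) = V q j := by
    have h10 : ∀ i : Fin 3, (EuclideanSpace.proj i.succ : E4 →L[ℝ] ℝ) (H31R.ebas j.succ) = if i = j then 1 else 0 := by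
      intro i
      have : (EuclideanSpace.proj i.succ : E4 →L[ℝ] ℝ) (H31R.ebas j.succ) = (H31R.ebas j.succ : E4) i.succ := rfl
      rw [this]
      unfold H31R.ebas
      simp [Pi.single_apply]
    simp only [h10]
    simp
  rw [h9] at h8
  have h11 : ∑ i : Fin 3, pos q i * H31R.pd j.succ (fun z => V z i) q =
      ∑ i : Fin 3, pos q i * fderiv ℝ (fun z : E4 => V z i) q (H31R.ebas j.succ) := rfl
  rw [h11]
  linarith

/-- A field `V` on `E4` which is tangent to the spheres and divergence free gives a divergence free field `c |y| V(Φ(T, ρ, y))` for fixed `(T, ρ)`: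
`∂_{y_i} (|y| V_i(Φ)) = (y_i/|y|) V_i + |y| Σ_m (∂_m V_i) (ρ/|y|) (δ_im - y_i y_m/|y|²)`, the sum over `i` is
`0 + ρ (div V - Σ_im x^_i x^_m ∂_m V_i)`, and `Σ_i x_i V_i = 0` near the event gives `Σ_i x_i ∂_m V_i = - V_m`, so `Σ_im x_i x_m ∂_m V_i = - Σ x_m V_m = 0`. -/
theorem div_field {V : E4 → Fin 3 → ℝ} (hO : IsOpen D) (hR : ∀ q ∈ D, 0 < q.2)
    (hV : ∀ p : E4, (p 0, ‖pos p‖) ∈ D → ∀ i, ContDiffAt ℝ ∞ (fun q => V q i) p)
    (htan : ∀ p : E4, (p 0, ‖pos p‖) ∈ D → ∑ i, pos p i * V p i = 0)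
    (hdiv : ∀ p : E4, (p 0, ‖pos p‖) ∈ D → ∑ i : Fin 3, H31R.pd i.succ (fun q => V q i) p = 0)
    (hp1 : (p.1, p.2.1) ∈ D) (hp2 : p.2.2 ≠ 0) (c : VV → ℝ)
    (hc : ContDiffAt ℝ ∞ c p) (hcy : ∀ q : VV, q.2.2 ≠ 0 → c q = c (q.1, q.2.1, p.2.2)) :
    ∑ i, fderiv ℝ (fun q : VV => c q * (‖q.2.2‖ * V (phi q) i)) p (dY i) = 0 := by
  have hρ : 0 < p.2.1 := hR _ hp1
  have hn : 0 < ‖p.2.2‖ := norm_pos_iff.2 hp2
  have hpos : pos (phi p) = (p.2.1 / ‖p.2.2‖) • p.2.2 := H17T.pos_pt _ _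
  have hposi : ∀ i, pos (phi p) i = p.2.1 / ‖p.2.2‖ * p.2.2 i := fun i => by rw [hpos]; simp
  have hnorm : ‖pos (phi p)‖ = p.2.1 := by
    rw [hpos, norm_smul, Real.norm_eq_abs, abs_of_pos (div_pos hρ hn), div_mul_cancel₀ _ hn.ne']
  have hdom : (phi p 0, ‖pos (phi p)‖) ∈ D := by
    rw [hnorm]
    exact hp1
  have hΦ : DifferentiableAt ℝ phi p := (phi_smooth hp2).differentiableAt (by norm_num)
  have hV' : ∀ i, DifferentiableAt ℝ (fun q => V q i) (phi p) := fun i => (hV _ hdom i).differentiableAt (by norm_num)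
  have hnd : DifferentiableAt ℝ (fun q : VV => ‖q.2.2‖) p := by
    have h3 : ContDiffAt ℝ ∞ (fun q : VV => q.2.2) p := contDiffAt_snd.comp p contDiffAt_snd
    exact (h3.norm ℝ hp2).differentiableAt (by norm_num)
  have hVd : ∀ i, DifferentiableAt ℝ (fun q : VV => V (phi q) i) p := fun i => (hV' i).comp p hΦ
  have e1 : ∀ i, fderiv ℝ (fun q : VV => c q * (‖q.2.2‖ * V (phi q) i)) p (dY i) =
      c p * (‖p.2.2‖ * fderiv ℝ (fun q : VV => V (phi q) i) p (dY i) + V (phi p) i * (p.2.2 i / ‖p.2.2‖)) := by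
    intro i
    have h1 := (hc.differentiableAt (by norm_num : (∞ : WithTop ℕ∞) ≠ 0)).hasFDerivAt.mul
      (hnd.hasFDerivAt.mul (hVd i).hasFDerivAt)
    have h2 := h1.fderiv
    have h3 : fderiv ℝ (fun q : VV => c q * (‖q.2.2‖ * V (phi q) i)) p = _ := h2
    rw [h3]
    simp only [ContinuousLinearMap.add_apply, ContinuousLinearMap.smul_apply, smul_eq_mul]
    rw [a5b_c hp2 c hc hcy, a5b_norm hp2]
    ring
  have e2 : ∀ i, fderiv ℝ (fun q : VV => V (phi q) i) p (dY i) =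
      ∑ j : Fin 3, H31R.pd j.succ (fun q => V q i) (phi p) *
        (p.2.1 / ‖p.2.2‖ * ((if j = i then 1 else 0) - p.2.2 i * p.2.2 j / ‖p.2.2‖ ^ 2)) := by
    intro i
    have h1 := H17W.chain (hV' i) hΦ (dY i)
    have h2 : vel phi p (dY i) = _ := XX_val (D := D) (F := fun _ => 0) (k := fun _ => 0) (r := fun _ => 0) (H := fun _ => 0)
      (U := fun _ => 0) (W := fun _ => 0) hp2 i
    rw [h1, h2, Fin.sum_univ_succ]
    simp only [Fin.cons_zero, Fin.cons_succ, mul_zero, zero_add]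
  have e3 : ∑ i, ∑ j : Fin 3, p.2.2 i * p.2.2 j * H31R.pd j.succ (fun q => V q i) (phi p) = 0 := by
    have h1 : ∀ j : Fin 3, ∑ i : Fin 3, pos (phi p) i * H31R.pd j.succ (fun q => V q i) (phi p) = -V (phi p) j :=
      a5b_tan hO hV htan hdom
    have h2 : ∑ i, ∑ j : Fin 3, pos (phi p) i * pos (phi p) j * H31R.pd j.succ (fun q => V q i) (phi p) = 0 := by
      rw [Finset.sum_comm]
      have h3 : ∀ j : Fin 3, ∑ i, pos (phi p) i * pos (phi p) j * H31R.pd j.succ (fun q => V q i) (phi p) =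
          -(pos (phi p) j * V (phi p) j) := by
        intro j
        have h4 : ∑ i, pos (phi p) i * pos (phi p) j * H31R.pd j.succ (fun q => V q i) (phi p) =
            pos (phi p) j * ∑ i : Fin 3, pos (phi p) i * H31R.pd j.succ (fun q => V q i) (phi p) := by
          rw [Finset.mul_sum]
          refine Finset.sum_congr rfl fun i _ => ?_
          ring
        rw [h4, h1]
        ring
      rw [Finset.sum_congr rfl fun j _ => h3 j, Finset.sum_neg_distrib, htan _ hdom, neg_zero]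
    have h5 : ∑ i, ∑ j : Fin 3, pos (phi p) i * pos (phi p) j * H31R.pd j.succ (fun q => V q i) (phi p) =
        (p.2.1 / ‖p.2.2‖) ^ 2 * ∑ i, ∑ j : Fin 3, p.2.2 i * p.2.2 j * H31R.pd j.succ (fun q => V q i) (phi p) := by
      rw [Finset.mul_sum]
      refine Finset.sum_congr rfl fun i _ => ?_
      rw [Finset.mul_sum]
      refine Finset.sum_congr rfl fun j _ => ?_
      rw [hposi, hposi]
      ring
    rw [h5] at h2
    rcases mul_eq_zero.1 h2 with h | h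
    · exact absurd h (pow_ne_zero 2 (div_pos hρ hn).ne')
    · exact h
  have e4 : ∑ i, p.2.2 i * V (phi p) i = 0 := by
    have h1 := htan _ hdom
    have h2 : ∑ i, pos (phi p) i * V (phi p) i = p.2.1 / ‖p.2.2‖ * ∑ i, p.2.2 i * V (phi p) i := by
      rw [Finset.mul_sum]
      refine Finset.sum_congr rfl fun i _ => ?_
      rw [hposi]
      ring
    rw [h2] at h1
    rcases mul_eq_zero.1 h1 with h | h
    · exact absurd h (div_pos hρ hn).ne'
    · exact h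
  have e5 : ∑ i, fderiv ℝ (fun q : VV => c q * (‖q.2.2‖ * V (phi q) i)) p (dY i) =
      c p * (p.2.1 * (∑ i : Fin 3, H31R.pd i.succ (fun q => V q i) (phi p)) -
        p.2.1 / ‖p.2.2‖ ^ 2 * (∑ i, ∑ j : Fin 3, p.2.2 i * p.2.2 j * H31R.pd j.succ (fun q => V q i) (phi p)) +
        1 / ‖p.2.2‖ * ∑ i, p.2.2 i * V (phi p) i) := by
    rw [Finset.mul_sum, Finset.mul_sum, Finset.mul_sum, ← Finset.sum_sub_distrib, ← Finset.sum_add_distrib, Finset.mul_sum]
    refine Finset.sum_congr rfl fun i _ => ?_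
    have h1 : ∑ j : Fin 3, H31R.pd j.succ (fun q => V q i) (phi p) *
        (p.2.1 / ‖p.2.2‖ * ((if j = i then 1 else 0) - p.2.2 i * p.2.2 j / ‖p.2.2‖ ^ 2)) =
        p.2.1 / ‖p.2.2‖ * ((∑ j : Fin 3, H31R.pd j.succ (fun q => V q i) (phi p) * (if j = i then 1 else 0)) -
          1 / ‖p.2.2‖ ^ 2 * ∑ j : Fin 3, p.2.2 i * p.2.2 j * H31R.pd j.succ (fun q => V q i) (phi p)) := by
      rw [Finset.mul_sum, ← Finset.sum_sub_distrib, Finset.mul_sum]
      refine Finset.sum_congr rfl fun j _ => ?_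
      ring
    have h2 : ∑ j : Fin 3, H31R.pd j.succ (fun q => V q i) (phi p) * (if j = i then 1 else 0) =
        H31R.pd i.succ (fun q => V q i) (phi p) := by simp
    rw [e1, e2, h1, h2]
    have n1 := hn.ne'
    field_simp
  rw [e5, hdiv _ hdom, e3, e4]
  ring

end H74X
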