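import Pool.Agent.Lib.H74X.A4
import Pool.Agent.Lib.H74X.A5B
import Pool.Agent.Lib.H74X.B1

set_option autoImplicit false

/-!
# H74X, chunk A5C (S/M): assembly of the conditions

Auxiliary names start with `a5c_`. 
-/

open MeasureTheory Filter Topology Set
open scoped ContDiff

namespace H74X

open H17T (E4 pt pos tang slice second DEC)

open H17W (ip vel cov MetAt Cyl)

open Pool.Agent.Lib.PenroseSph (E3 Tens S2 sm)

variable {R₀ : ℝ} {D : Set (ℝ × ℝ)} {F : E4 → ℝ} {k : ℝ → ℝ} {r : ℝ × ℝ → ℝ} {H : E4 → Matrix (Fin 3) (Fin 3) ℝ}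
  {U W : E4 → Fin 3 → ℝ} {p : VV}

theorem a5c_ny (hp : p.2.2 ≠ 0) : ContDiffAt ℝ ∞ (fun q : VV => ‖q.2.2‖) p := by
  have h3 : ContDiffAt ℝ ∞ (fun q : VV => q.2.2) p := contDiffAt_snd.comp p contDiffAt_snd
  exact h3.norm ℝ hp

theorem a5c_rho : ContDiffAt ℝ ∞ (fun q : VV => q.2.1) p := contDiffAt_fst.comp p contDiffAt_snd

theorem a5c_toE {V : VV → Fin 3 → ℝ} (h : ∀ i, ContDiffAt ℝ ∞ (fun q => V q i) p) :
    ContDiffAt ℝ ∞ (fun q => toE (V q)) p := by
  rw [contDiffAt_euclidean]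
  intro i
  simp only [toE_apply]
  exact h i

theorem a5c_k (hS : SpaceTime R₀ D F k r H U W) (hp : p ∈ OO (dat D F k r H U W)) :
    ContDiffAt ℝ ∞ (fun q : VV => k q.2.1) p :=
  ContDiffAt.comp (g := k) (f := fun q : VV => q.2.1) p (hS.k_smooth _ (hS.rad _ hp.1)) a5c_rho

theorem a5c_V {V : E4 → Fin 3 → ℝ} (hS : SpaceTime R₀ D F k r H U W) (hp : p ∈ OO (dat D F k r H U W))
    (hV : ∀ p : E4, (p 0, ‖pos p‖) ∈ D → ∀ i, ContDiffAt ℝ ∞ (fun q => V q i) p) (i : Fin 3) :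
    ContDiffAt ℝ ∞ (fun q : VV => V (phi q) i) p :=
  ContDiffAt.comp (g := fun z => V z i) (f := phi) p (hV _ (phi_dom hS hp) i) (phi_smooth hp.2)

theorem dat_ok (hS : SpaceTime R₀ D F k r H U W) : Ok (dat D F k r H U W) where
  isOpen := hS.isOpen
  smooth := fun p hp => phi_smooth hp.2
  met := fun p hp => met_at hS (phi_dom hS hp)
  F_smooth := fun p hp => (hS.F_smooth _ (phi_dom hS hp)).comp p (phi_smooth hp.2)
  F_pos := fun p hp => hS.F_pos _ (phi_dom hS hp)
  k_smooth := fun q hq => hS.k_smooth _ (hS.rad q hq)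
  k_pos := fun q hq => hS.k_pos _ (hS.rad q hq)
  r_smooth := hS.r_smooth
  r_pos := hS.r_pos
  P_smooth := fun p hp i j => by
    have e : (fun q => (dat D F k r H U W).P q i j) = fun q : VV => (‖q.2.2‖ ^ 2)⁻¹ * H (phi q) i j := rfl
    rw [e]
    exact (((a5c_ny hp.2).pow 2).inv (pow_ne_zero 2 (norm_ne_zero_iff.2 hp.2))).mul
      (ContDiffAt.comp (g := fun z => H z i j) (f := phi) p (hS.H_smooth _ (phi_dom hS hp) i j) (phi_smooth hp.2))
  P_cyl := fun q hq => dat_cyl hS hq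
  P_det := fun p hp => dat_det hS hp
  u_smooth := fun p hp => by
    have e : (dat D F k r H U W).u = fun q : VV => (‖q.2.2‖ / (2 * q.2.1)) • toE (U (phi q)) := rfl
    obtain ⟨h1, h2, h3, h4, h5⟩ := phi_val hS hp
    rw [e]
    exact ((a5c_ny hp.2).div (contDiffAt_const.mul a5c_rho) (mul_ne_zero two_ne_zero h1.ne')).smul
      (a5c_toE fun i => a5c_V hS hp hS.U_smooth i)
  u_tan := fun p hp => by
    have h1 := a4b_tan hS hp (hS.U_tan _ (phi_dom hS hp))
    have e : ∀ i, (dat D F k r H U W).u p i = (‖p.2.2‖ / (2 * p.2.1)) * U (phi p) i := by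
      intro i
      have : (dat D F k r H U W).u p = (‖p.2.2‖ / (2 * p.2.1)) • toE (U (phi p)) := rfl
      rw [this, PiLp.smul_apply, smul_eq_mul, toE_apply]
    have h2 : ∑ i, p.2.2 i * (dat D F k r H U W).u p i = ‖p.2.2‖ / (2 * p.2.1) * ∑ i, p.2.2 i * U (phi p) i := by
      rw [Finset.mul_sum]
      refine Finset.sum_congr rfl fun i _ => ?_
      rw [e]
      ring
    rw [h2, h1, mul_zero]
  u_div := fun p hp => by
    obtain ⟨h1, h2, h3, h4, h5⟩ := phi_val hS hp
    have e : ∀ i : Fin 3, (fun q : VV => (dat D F k r H U W).u q i) = fun q : VV => (2 * q.2.1)⁻¹ * (‖q.2.2‖ * U (phi q) i) := by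
      intro i
      funext q
      have : (dat D F k r H U W).u q = (‖q.2.2‖ / (2 * q.2.1)) • toE (U (phi q)) := rfl
      rw [this, PiLp.smul_apply, smul_eq_mul, toE_apply]
      ring
    have h6 := div_field (p := p) (V := U) hS.isOpen (fun q hq => lt_of_le_of_lt hS.nonneg (hS.rad q hq)) hS.U_smooth hS.U_tan
      hS.U_div hp.1 hp.2 (fun q : VV => (2 * q.2.1)⁻¹)
      ((contDiffAt_const.mul a5c_rho).inv (mul_ne_zero two_ne_zero h1.ne')) (fun _ _ => rfl)
    simp only [e]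
    exact h6
  w_smooth := fun p hp => by
    have e : (dat D F k r H U W).w = fun q : VV => (‖q.2.2‖ / (2 * q.2.1 * k q.2.1)) • toE (W (phi q)) := rfl
    obtain ⟨h1, h2, h3, h4, h5⟩ := phi_val hS hp
    rw [e]
    exact ((a5c_ny hp.2).div ((contDiffAt_const.mul a5c_rho).mul (a5c_k hS hp))
      (mul_ne_zero (mul_ne_zero two_ne_zero h1.ne') (a4b_k hS hp).ne')).smul
      (a5c_toE fun i => a5c_V hS hp hS.W_smooth i)
  w_tan := fun p hp => by
    have h1 := a4b_tan hS hp (hS.W_tan _ (phi_dom hS hp))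
    have e : ∀ i, (dat D F k r H U W).w p i = (‖p.2.2‖ / (2 * p.2.1 * k p.2.1)) * W (phi p) i := by
      intro i
      have : (dat D F k r H U W).w p = (‖p.2.2‖ / (2 * p.2.1 * k p.2.1)) • toE (W (phi p)) := rfl
      rw [this, PiLp.smul_apply, smul_eq_mul, toE_apply]
    have h2 : ∑ i, p.2.2 i * (dat D F k r H U W).w p i =
        ‖p.2.2‖ / (2 * p.2.1 * k p.2.1) * ∑ i, p.2.2 i * W (phi p) i := by
      rw [Finset.mul_sum]
      refine Finset.sum_congr rfl fun i _ => ?_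
      rw [e]
      ring
    rw [h2, h1, mul_zero]
  w_div := fun p hp => by
    obtain ⟨h1, h2, h3, h4, h5⟩ := phi_val hS hp
    have e : ∀ i : Fin 3, (fun q : VV => (dat D F k r H U W).w q i) =
        fun q : VV => (2 * q.2.1 * k q.2.1)⁻¹ * (‖q.2.2‖ * W (phi q) i) := by
      intro i
      funext q
      have : (dat D F k r H U W).w q = (‖q.2.2‖ / (2 * q.2.1 * k q.2.1)) • toE (W (phi q)) := rfl
      rw [this, PiLp.smul_apply, smul_eq_mul, toE_apply]
      ring
    have h6 := div_field (p := p) (V := W) hS.isOpen (fun q hq => lt_of_le_of_lt hS.nonneg (hS.rad q hq)) hS.W_smooth hS.W_tan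
      hS.W_div hp.1 hp.2 (fun q : VV => (2 * q.2.1 * k q.2.1)⁻¹)
      (((contDiffAt_const.mul a5c_rho).mul (a5c_k hS hp)).inv
        (mul_ne_zero (mul_ne_zero two_ne_zero h1.ne') (a4b_k hS hp).ne')) (fun _ _ => rfl)
    simp only [e]
    exact h6
  hom := fun p hp c hc => by
    have h1 := phi_hom p hc
    have h2 : ‖c • p.2.2‖ = c * ‖p.2.2‖ := by rw [norm_smul, Real.norm_eq_abs, abs_of_pos hc]
    refine ⟨h1, ?_, ?_, ?_⟩
    · have e : ∀ q, (dat D F k r H U W).F q = F (phi q) := fun _ => rfl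
      rw [e, e, h1]
    · have e : ∀ q : VV, (dat D F k r H U W).u q = (‖q.2.2‖ / (2 * q.2.1)) • toE (U (phi q)) := fun _ => rfl
      rw [e, e, h1, smul_smul]
      simp only [h2]
      congr 1
      ring
    · have e : ∀ q : VV, (dat D F k r H U W).w q = (‖q.2.2‖ / (2 * q.2.1 * k q.2.1)) • toE (W (phi q)) := fun _ => rfl
      rw [e, e, h1, smul_smul]
      simp only [h2]
      congr 1
      ring
  ipL := fun p hp e e' => dat_ipL hS hp e e'
  ipLX := fun p hp e i => dat_ipLX hS hp e i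
  ipX := fun p hp i j => dat_ipX hS hp i j

end H74X
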