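import Pool.Agent.Lib.H74X.B9

set_option autoImplicit false

/-!
# H74X, chunk B10A (M): log F

Auxiliary names start with `b10a_`. 
-/

open MeasureTheory Filter Topology Set
open scoped ContDiff

namespace H74X

open H17T (E4 pt pos)

open H17W (ip vel cov riem rm Ric scal MetAt Cyl NFrame)

open Pool.Agent.Lib.PenroseSph (E3 S2 sm pd)

variable {S : Dat} {p : VV}

/-- `∂ log F`. -/
noncomputable def dlog (S : Dat) (p : VV) (y : E3) (i : Fin 3) : ℝ := fderiv ℝ S.F (p.1, p.2.1, y) (dY i) / S.F (p.1, p.2.1, y)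

/-- The Laplacian of `log F` of the cylinder metric. -/
noncomputable def lap (S : Dat) (p : VV) : ℝ :=
  ∑ i, ∑ j, (S.P p)⁻¹ i j * (pd i (fun y => dlog S p y j) p.2.2 - ∑ m, cc S m i j p * dlog S p p.2.2 m)

theorem dlog_diff (h : Ok S) (hp : p ∈ OO S) (i : Fin 3) : ContDiffAt ℝ ∞ (fun y => dlog S p y i) p.2.2 := by
  have h1 : ContDiffAt ℝ ∞ (fun q : VV => fderiv ℝ S.F q (dY i) / S.F q) p :=
    (sm_fd (h.F_smooth p hp) (dY i)).div (h.F_smooth p hp) (h.F_pos p hp).ne'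
  exact sm_leaf h1

/-- `∂_i (∂_j F / F) = ∂_i ∂_j F / F - ∂_i F ∂_j F / F²` (`pd_y'`). -/
theorem pd_dlog (h : Ok S) (hp : p ∈ OO S) (i j : Fin 3) :
    pd i (fun y => dlog S p y j) p.2.2 = fderiv ℝ (fun q => fderiv ℝ S.F q (dY j)) p (dY i) / S.F p -
      fderiv ℝ S.F p (dY i) * fderiv ℝ S.F p (dY j) / S.F p ^ 2 := by
  have hF0 : S.F p ≠ 0 := (h.F_pos p hp).ne'
  have h1 : DifferentiableAt ℝ (fun q : VV => fderiv ℝ S.F q (dY j)) p :=
    (sm_fd (h.F_smooth p hp) (dY j)).differentiableAt (by norm_num)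
  have h2 : DifferentiableAt ℝ S.F p := (h.F_smooth p hp).differentiableAt (by norm_num)
  have h2' : HasFDerivAt (fun q => (S.F q)⁻¹) (-(S.F p ^ 2)⁻¹ • fderiv ℝ S.F p) p :=
    (hasDerivAt_inv hF0).comp_hasFDerivAt p h2.hasFDerivAt
  have h3 := h1.hasFDerivAt.mul h2'
  have h4 := pd_y' h3.differentiableAt i
  have h5 : (fun y => dlog S p y j) =
      fun y => ((fun q : VV => fderiv ℝ S.F q (dY j)) * fun q : VV => (S.F q)⁻¹) (p.1, p.2.1, y) := by
    funext y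
    exact div_eq_mul_inv _ _
  rw [h5, h4, h3.fderiv]
  simp only [add_apply, smul_apply, smul_eq_mul]
  field_simp
  ring

/-- `F` is constant on the rays: `Σ y_j ∂_j F = 0` (`fd_rad`, `h.hom`). -/
theorem dF_rad (h : Ok S) (hp : p ∈ OO S) : ∑ j, p.2.2 j * fderiv ℝ S.F p (dY j) = 0 :=
  b2b_fd ((h.F_smooth p hp).differentiableAt (by norm_num)) fun c hc => (h.hom p hp c hc).2.1

end H74X
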