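import Pool.Agent.Lib.H74X.B10A
import Pool.Agent.Lib.H74X.B9

set_option autoImplicit false

/-!
# H74X, chunk B10B (M): Laplacian of log F, final inequality

Auxiliary names start with `b10b_`. 
-/

open MeasureTheory Filter Topology Set
open scoped ContDiff

namespace H74X

open H17T (E4 pt pos)

open H17W (ip vel cov riem rm Ric scal MetAt Cyl NFrame)

open Pool.Agent.Lib.PenroseSph (E3 S2 sm pd)

variable {S : Dat} {p : VV}

/-- `Σ_j y_j ∂_i ∂_j F = -∂_i F`. -/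
theorem b10b_rad (h : Ok S) (hp : p ∈ OO S) (i : Fin 3) :
    ∑ j, p.2.2 j * fderiv ℝ (fun q => fderiv ℝ S.F q (dY j)) p (dY i) = -fderiv ℝ S.F p (dY i) := by
  have h0 : (fun q : VV => ∑ j, q.2.2 j * fderiv ℝ S.F q (dY j)) =ᶠ[𝓝 p] fun _ => (0 : ℝ) := by
    filter_upwards [(OO_open h).mem_nhds hp] with q hq
    exact dF_rad h hq
  have h1 : fderiv ℝ (fun q : VV => ∑ j, q.2.2 j * fderiv ℝ S.F q (dY j)) p (dY i) = 0 := by
    rw [h0.fderiv_eq, fderiv_fun_const]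
    rfl
  have hy : ∀ j : Fin 3, HasFDerivAt (fun q : VV => q.2.2 j)
      ((EuclideanSpace.proj (𝕜 := ℝ) j).comp ((ContinuousLinearMap.snd ℝ ℝ E3).comp (ContinuousLinearMap.snd ℝ ℝ (ℝ × E3)))) p :=
    fun j => ((EuclideanSpace.proj (𝕜 := ℝ) j).comp
      ((ContinuousLinearMap.snd ℝ ℝ E3).comp (ContinuousLinearMap.snd ℝ ℝ (ℝ × E3)))).hasFDerivAt
  have hf : ∀ j : Fin 3, HasFDerivAt (fun q : VV => fderiv ℝ S.F q (dY j))
      (fderiv ℝ (fun q : VV => fderiv ℝ S.F q (dY j)) p) p := fun j =>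
    ((sm_fd (h.F_smooth p hp) (dY j)).differentiableAt (by norm_num)).hasFDerivAt
  have h2 := HasFDerivAt.fun_sum (u := Finset.univ) fun j (_ : j ∈ Finset.univ) => (hy j).mul (hf j)
  have h3 : fderiv ℝ (fun q : VV => ∑ j, q.2.2 j * fderiv ℝ S.F q (dY j)) p = _ := h2.fderiv
  rw [h3] at h1
  have h4 : ∀ j : Fin 3, (dY i).2.2 j = if j = i then (1 : ℝ) else 0 := by
    intro j
    simp [dY]
  have h5 : ∑ j, (p.2.2 j * fderiv ℝ (fun q : VV => fderiv ℝ S.F q (dY j)) p (dY i) +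
      fderiv ℝ S.F p (dY j) * (dY i).2.2 j) = 0 := by
    rw [sum_apply] at h1
    exact h1
  simp only [h4] at h5
  rw [Finset.sum_add_distrib] at h5
  simp only [mul_ite, mul_one, mul_zero, Finset.sum_ite_eq', Finset.mem_univ, if_true] at h5
  linarith

/-- Hence `Σ_j y_j ∂_i ∂_j F = - ∂_i F` (differentiate `dF_rad`, which holds on the domain) and `Σ_ij y_i y_j ∂_i ∂_j F = 0`; `Σ_j cc^m_ij y_j = - δ_mi`
(`H17W.cyl_chr_rad`). So `P⁻¹ = r² Q + y y` may be replaced by `r² Q` in the Laplacian: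
`lap = r² Σ Q^ij (∂_i ∂_j F - cc ∂F)/F - r² Σ Q^ij ∂_i F ∂_j F / F²`. -/
theorem lap_eq (h : Ok S) (hp : p ∈ OO S) :
    lap S p = rr S p ^ 2 / S.F p * (∑ i, ∑ j, QQ S i j p *
        (fderiv ℝ (fun q => fderiv ℝ S.F q (dY j)) p (dY i) - ∑ m, cc S m i j p * fderiv ℝ S.F p (dY m))) -
      rr S p ^ 2 / S.F p ^ 2 * ∑ i, ∑ j, QQ S i j p * (fderiv ℝ S.F p (dY i) * fderiv ℝ S.F p (dY j)) := by
  have hF0 : S.F p ≠ 0 := (h.F_pos p hp).ne'
  have hr : rr S p ≠ 0 := (rr_pos h hp).ne'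
  have hrad := b10b_rad h hp
  have hd := dF_rad h hp
  have hcc : ∀ m i : Fin 3, ∑ j, cc S m i j p * p.2.2 j = -(if m = i then 1 else 0) := fun m i =>
    H17W.cyl_chr_rad (h.P_cyl (p.1, p.2.1) hp.1) hp.2 m i
  have hP : ∀ i j, (S.P p)⁻¹ i j = rr S p ^ 2 * QQ S i j p + p.2.2 i * p.2.2 j := by
    intro i j
    unfold QQ
    field_simp
    ring
  have hlog : ∀ m, dlog S p p.2.2 m = fderiv ℝ S.F p (dY m) / S.F p := fun m => rfl
  unfold lap
  simp only [pd_dlog h hp, hlog, hP]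
  generalize hHd : (fun i j => fderiv ℝ (fun q => fderiv ℝ S.F q (dY j)) p (dY i)) = Hs at *
  have hH : ∀ i j, fderiv ℝ (fun q => fderiv ℝ S.F q (dY j)) p (dY i) = Hs i j := fun i j =>
    congrFun (congrFun hHd i) j
  generalize hfd : (fun i => fderiv ℝ S.F p (dY i)) = f at *
  have hf : ∀ i, fderiv ℝ S.F p (dY i) = f i := fun i => congrFun hfd i
  simp only [hH, hf] at hrad hd ⊢
  have hA : ∑ i, ∑ j, p.2.2 i * p.2.2 j * Hs i j = 0 := by
    have e1 : ∀ i, ∑ j, p.2.2 i * p.2.2 j * Hs i j = -(p.2.2 i * f i) := by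
      intro i
      rw [← mul_neg, ← hrad i, Finset.mul_sum]
      exact Finset.sum_congr rfl fun j _ => by ring
    simp only [e1]
    rw [Finset.sum_neg_distrib, hd, neg_zero]
  have hB : ∑ i, ∑ j, p.2.2 i * p.2.2 j * ∑ m, cc S m i j p * f m = 0 := by
    have e1 : ∑ i, ∑ j, p.2.2 i * p.2.2 j * ∑ m, cc S m i j p * f m =
        ∑ i, p.2.2 i * ∑ m, f m * ∑ j, cc S m i j p * p.2.2 j := by
      refine Finset.sum_congr rfl fun i _ => ?_
      simp only [Finset.mul_sum]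
      rw [Finset.sum_comm]
      refine Finset.sum_congr rfl fun m _ => Finset.sum_congr rfl fun j _ => ?_
      ring
    rw [e1]
    simp only [hcc, mul_neg, Finset.sum_neg_distrib, mul_ite, mul_one, mul_zero, Finset.sum_ite_eq', Finset.mem_univ, if_true]
    rw [hd, neg_zero]
  have hC : ∑ i, ∑ j, p.2.2 i * p.2.2 j * (f i * f j) = 0 := by
    have e1 : ∑ i, ∑ j, p.2.2 i * p.2.2 j * (f i * f j) = (∑ i, p.2.2 i * f i) * ∑ j, p.2.2 j * f j := by
      rw [Finset.sum_mul]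
      refine Finset.sum_congr rfl fun i _ => ?_
      rw [Finset.mul_sum]
      exact Finset.sum_congr rfl fun j _ => by ring
    rw [e1, hd, zero_mul]
  have key : ∑ i, ∑ j, (rr S p ^ 2 * QQ S i j p + p.2.2 i * p.2.2 j) *
      (Hs i j / S.F p - f i * f j / S.F p ^ 2 - ∑ m, cc S m i j p * (f m / S.F p)) =
      rr S p ^ 2 / S.F p * (∑ i, ∑ j, QQ S i j p * (Hs i j - ∑ m, cc S m i j p * f m)) -
      rr S p ^ 2 / S.F p ^ 2 * (∑ i, ∑ j, QQ S i j p * (f i * f j)) +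
      1 / S.F p * ((∑ i, ∑ j, p.2.2 i * p.2.2 j * Hs i j) - ∑ i, ∑ j, p.2.2 i * p.2.2 j * ∑ m, cc S m i j p * f m) -
      1 / S.F p ^ 2 * ∑ i, ∑ j, p.2.2 i * p.2.2 j * (f i * f j) := by
    simp only [Finset.mul_sum, ← Finset.sum_sub_distrib, ← Finset.sum_add_distrib]
    refine Finset.sum_congr rfl fun i _ => Finset.sum_congr rfl fun j _ => ?_
    have e2 : ∑ m, cc S m i j p * (f m / S.F p) = (∑ m, cc S m i j p * f m) / S.F p := by
      rw [Finset.sum_div]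
      exact Finset.sum_congr rfl fun m _ => by ring
    rw [e2]
    have e3 : ∑ m, p.2.2 i * p.2.2 j * (cc S m i j p * f m) = p.2.2 i * p.2.2 j * ∑ m, cc S m i j p * f m := by
      rw [Finset.mul_sum]
    rw [e3]
    field_simp
    ring
  rw [key, hA, hB, hC]
  ring

/-- `ricS_le`, `lap_eq`, `QQ_pos`: `- LapF/F + |∂F|²/(2F²) = - lap - |∂F|²/(2F²) ≤ - lap`. -/
theorem hawk (h : Ok S) (hp : p ∈ OO S) (hric : 0 ≤ ricS S p) :
    8 / S.F p * (rr S p * dk S 1 (dk S (-1) S.r) (p.1, p.2.1) + dk S 1 S.r (p.1, p.2.1) * dk S (-1) S.r (p.1, p.2.1)) ≤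
      scal (fun y => S.P (p.1, p.2.1, y)) p.2.2 - lap S p := by
  have hF0 : 0 < S.F p := h.F_pos p hp
  have h1 := ricS_le h hp
  have h2 := lap_eq h hp
  have h3 := QQ_pos h hp fun i => fderiv ℝ S.F p (dY i)
  have h4 : ∑ i, ∑ j, QQ S i j p * fderiv ℝ S.F p (dY i) * fderiv ℝ S.F p (dY j) =
      ∑ i, ∑ j, QQ S i j p * (fderiv ℝ S.F p (dY i) * fderiv ℝ S.F p (dY j)) :=
    Finset.sum_congr rfl fun i _ => Finset.sum_congr rfl fun j _ => mul_assoc _ _ _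
  rw [h4] at h3
  have h5 : 0 ≤ rr S p ^ 2 * ricS S p := by positivity
  rw [h2]
  set X : ℝ := ∑ i, ∑ j, QQ S i j p * (fderiv ℝ S.F p (dY i) * fderiv ℝ S.F p (dY j)) with hX
  have h6 : rr S p ^ 2 / S.F p ^ 2 * X = 2 * (rr S p ^ 2 / (2 * S.F p ^ 2) * X) := by
    field_simp
  have h7 : 0 ≤ rr S p ^ 2 / (2 * S.F p ^ 2) * X := by positivity
  rw [h6]
  linarith

end H74X
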