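import Pool.Agent.Lib.H17W.A2
import Pool.Agent.Lib.H17W.B2C
import Pool.Agent.Lib.H74X.B0

set_option autoImplicit false

/-!
# H74X, chunk B1A (S): smoothness of the fields

Auxiliary names start with `b1a_`. `H17W/A2.lean`: `vel_smooth`, `ip_smooth`, `cov_smooth`, `a2_vel_at`, `a2_cov_at`; `H17W/B2C.lean`: `b2c_inv`
(smoothness of the inverse of a matrix), and the same statements for `H17W` there.
-/

open MeasureTheory Filter Topology Set
open scoped ContDiff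

namespace H74X

open H17T (E4 pt pos)

open H17W (ip vel cov riem Ric scal MetAt Cyl)

open Pool.Agent.Lib.PenroseSph (E3 S2 sm)

variable {S : Dat} {p : VV}

/-- `S.D` is open, `(p.1, p.2.1)` and `p.2.2` are continuous. -/
theorem OO_open (h : Ok S) : IsOpen (OO S) := by
  have h1 : Continuous fun p : VV => (p.1, p.2.1) := by fun_prop
  have h2 : Continuous fun p : VV => p.2.2 := by fun_prop
  exact (h.isOpen.preimage h1).inter (isOpen_ne.preimage h2)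

theorem OO_ev (h : Ok S) (hp : p ∈ OO S) : ∀ᶠ q in 𝓝 p, q ∈ OO S := (OO_open h).mem_nhds hp

theorem OO_ev_of {Q : VV → Prop} (h : Ok S) (hp : p ∈ OO S) (hQ : ∀ q ∈ OO S, Q q) : ∀ᶠ q in 𝓝 p, Q q := by
  filter_upwards [OO_ev h hp] with q hq using hQ q hq

/-- The domain is invariant under `y ↦ c y`, `c > 0`. -/
theorem OO_smul (hp : p ∈ OO S) {c : ℝ} (hc : 0 < c) : ((p.1, p.2.1, c • p.2.2) : VV) ∈ OO S :=
  ⟨hp.1, smul_ne_zero hc.ne' hp.2⟩

/-- A function of `(T, ρ)` as a function of `(T, ρ, y)`. -/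
theorem sm_q {φ : ℝ × ℝ → ℝ} (hφ : ContDiffAt ℝ ∞ φ (p.1, p.2.1)) : ContDiffAt ℝ ∞ (fun q : VV => φ (q.1, q.2.1)) p := by
  have h1 : ContDiffAt ℝ ∞ (fun q : VV => (q.1, q.2.1)) p := by fun_prop
  exact ContDiffAt.comp (f := fun q : VV => (q.1, q.2.1)) p hφ h1

theorem sm_y (i : Fin 3) : ContDiffAt ℝ ∞ (fun q : VV => q.2.2 i) p := by
  fun_prop

/-- `ell` is smooth (`k` is smooth and positive). -/
theorem ell_smooth (h : Ok S) (hp : p ∈ OO S) (e : ℝ) : ContDiffAt ℝ ∞ (ell S e) p := by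
  have h1 : ContDiffAt ℝ ∞ (fun q : VV => q.2.1) p := by fun_prop
  have h2 : ContDiffAt ℝ ∞ (fun q : VV => S.k q.2.1) p :=
    ContDiffAt.comp (f := fun q : VV => q.2.1) p (h.k_smooth (p.1, p.2.1) hp.1) h1
  have h3 : 2 * S.k p.2.1 ≠ 0 := mul_ne_zero two_ne_zero (h.k_pos (p.1, p.2.1) hp.1).ne'
  have h4 : ContDiffAt ℝ ∞ (fun q : VV => 1 / (2 * S.k q.2.1)) p :=
    contDiffAt_const.div (contDiffAt_const.mul h2) h3
  have h5 : ContDiffAt ℝ ∞ (fun q : VV => e • S.u q + S.w q) p :=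
    ((h.u_smooth p hp).const_smul e).add (h.w_smooth p hp)
  exact contDiffAt_const.prodMk (h4.prodMk h5)

/-- The component `a` of `LL` is `fderiv ℝ (fun y => S.Ph y a) q (ell S e q)`. -/
theorem LL_smooth (h : Ok S) (hp : p ∈ OO S) (e : ℝ) (a : Fin 4) : ContDiffAt ℝ ∞ (fun q => LL S e q a) p := by
  have h1 : ContDiffAt ℝ ∞ (fun y => S.Ph y a) p :=
    (EuclideanSpace.proj (𝕜 := ℝ) a).contDiff.contDiffAt.comp p (h.smooth p hp)
  exact (h1.fderiv_right (m := ∞) (by norm_cast)).clm_apply (ell_smooth h hp e)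

theorem XX_smooth (h : Ok S) (hp : p ∈ OO S) (i : Fin 3) (a : Fin 4) : ContDiffAt ℝ ∞ (fun q => XX S i q a) p :=
  H17W.a2_vel_at (h.smooth p hp) (dY i) a

theorem rr_smooth (h : Ok S) (hp : p ∈ OO S) : ContDiffAt ℝ ∞ (rr S) p :=
  sm_q (φ := S.r) (h.r_smooth (p.1, p.2.1) hp.1)

theorem rr_pos (h : Ok S) (hp : p ∈ OO S) : 0 < rr S p := h.r_pos (p.1, p.2.1) hp.1

end H74X
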