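import Pool.Agent.Lib.H17W.A2
import Pool.Agent.Lib.H17W.B2C
import Pool.Agent.Lib.H74X.B0
import Pool.Agent.Lib.H74X.B1A

set_option autoImplicit false

/-!
# H74X, chunk B1B (S/M): smoothness, partial derivatives on a leaf

Auxiliary names start with `b1b_`. `H17W/A2.lean`: `vel_smooth`, `ip_smooth`, `cov_smooth`, `a2_vel_at`, `a2_cov_at`; `H17W/B2C.lean`: `b2c_inv`
(smoothness of the inverse of a matrix), and the same statements for `H17W` there.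
-/

open MeasureTheory Filter Topology Set
open scoped ContDiff

namespace H74X

open H17T (E4 pt pos)

open H17W (ip vel cov riem Ric scal MetAt Cyl)

open Pool.Agent.Lib.PenroseSph (E3 S2 sm)

variable {S : Dat} {p : VV}

theorem hh_smooth (h : Ok S) (hp : p ∈ OO S) (i j : Fin 3) : ContDiffAt ℝ ∞ (hh S i j) p := by
  have hn : p.2.2 ≠ 0 := hp.2
  have h0 : ContDiffAt ℝ ∞ (fun q : VV => q.2.2) p := by fun_prop
  have h1 : ContDiffAt ℝ ∞ (fun q : VV => ‖q.2.2‖ ^ 4) p := (h0.norm ℝ hn).pow 4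
  exact ((rr_smooth h hp).pow 2).mul ((h.P_smooth p hp i j).sub
    (((sm_y i).mul (sm_y j)).div h1 (pow_ne_zero 4 (norm_ne_zero_iff.2 hn))))

/-- `det P > 0`: `H17W.Cyl.det_pos` for `P_cyl`. -/
theorem QQ_smooth (h : Ok S) (hp : p ∈ OO S) (i j : Fin 3) : ContDiffAt ℝ ∞ (QQ S i j) p := by
  have hd : (S.P p).det ≠ 0 := (H17W.Cyl.det_pos (h.P_cyl (p.1, p.2.1) hp.1) hp.2).ne'
  have h1 := H17W.b2c_inv (A := fun q => S.P q) (p := p) (fun i j => h.P_smooth p hp i j) hd i j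
  exact (h1.sub ((sm_y i).mul (sm_y j))).div ((rr_smooth h hp).pow 2) (pow_ne_zero 2 (rr_pos h hp).ne')

/-- Partial derivatives in `y` for fixed `(T, ρ)`: chain rule with `y ↦ (p.1, p.2.1, y)`. -/
theorem pd_y {φ : VV → ℝ} (hφ : DifferentiableAt ℝ φ p) (i : Fin 3) :
    H31R.pd i (fun y => φ (p.1, p.2.1, y)) p.2.2 = fderiv ℝ φ p (dY i) := by
  have h1 : HasFDerivAt (fun y : E3 => ((p.1, p.2.1, y) : VV)) ((0 : E3 →L[ℝ] ℝ).prod
      ((0 : E3 →L[ℝ] ℝ).prod (ContinuousLinearMap.id ℝ E3))) p.2.2 :=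
    (hasFDerivAt_const p.1 p.2.2).prodMk ((hasFDerivAt_const p.2.1 p.2.2).prodMk (hasFDerivAt_id p.2.2))
  have h2 : HasFDerivAt (fun y : E3 => φ (p.1, p.2.1, y)) ((fderiv ℝ φ p).comp ((0 : E3 →L[ℝ] ℝ).prod
      ((0 : E3 →L[ℝ] ℝ).prod (ContinuousLinearMap.id ℝ E3)))) p.2.2 :=
    HasFDerivAt.comp (f := fun y : E3 => ((p.1, p.2.1, y) : VV)) p.2.2 hφ.hasFDerivAt h1
  unfold H31R.pd
  rw [h2.fderiv]
  rfl

/-- The same with the notation of `PenroseSph` (`PenroseSph.pd` and `H31R.pd` are the same by `rfl`). -/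
theorem pd_y' {φ : VV → ℝ} (hφ : DifferentiableAt ℝ φ p) (i : Fin 3) :
    Pool.Agent.Lib.PenroseSph.pd i (fun y => φ (p.1, p.2.1, y)) p.2.2 = fderiv ℝ φ p (dY i) := pd_y hφ i

/-- Restriction to a leaf. -/
theorem sm_leaf {φ : VV → ℝ} (hφ : ContDiffAt ℝ ∞ φ p) : ContDiffAt ℝ ∞ (fun y => φ (p.1, p.2.1, y)) p.2.2 := by
  have h1 : ContDiffAt ℝ ∞ (fun y : E3 => ((p.1, p.2.1, y) : VV)) p.2.2 := by fun_prop
  exact ContDiffAt.comp (f := fun y : E3 => ((p.1, p.2.1, y) : VV)) p.2.2 hφ h1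

/-- The derivative of a smooth function in a constant direction is smooth. -/
theorem sm_fd {φ : VV → ℝ} (hφ : ContDiffAt ℝ ∞ φ p) (v : VV) : ContDiffAt ℝ ∞ (fun q => fderiv ℝ φ q v) p :=
  (hφ.fderiv_right (m := ∞) (by norm_cast)).clm_apply contDiffAt_const

/-- The derivative of a smooth function in the direction `L_e` is smooth. -/
theorem sm_ld (h : Ok S) (hp : p ∈ OO S) {φ : VV → ℝ} (hφ : ContDiffAt ℝ ∞ φ p) (e : ℝ) : ContDiffAt ℝ ∞ (ld S e φ) p :=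
  (hφ.fderiv_right (m := ∞) (by norm_cast)).clm_apply (ell_smooth h hp e)

end H74X
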