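import Pool.Agent.Lib.H17W.A2
import Pool.Agent.Lib.H17W.B2C
import Pool.Agent.Lib.H74X.B0
import Pool.Agent.Lib.H74X.B1B

set_option autoImplicit false

/-!
# H74X, chunk B1C (S/M): derivative of the direction field

Auxiliary names start with `b1c_`. `H17W/A2.lean`: `vel_smooth`, `ip_smooth`, `cov_smooth`, `a2_vel_at`, `a2_cov_at`; `H17W/B2C.lean`: `b2c_inv`
(smoothness of the inverse of a matrix), and the same statements for `H17W` there.
-/

open MeasureTheory Filter Topology Set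
open scoped ContDiff

namespace H74X

open H17T (E4 pt pos)

open H17W (ip vel cov riem Ric scal MetAt Cyl)

open Pool.Agent.Lib.PenroseSph (E3 S2 sm)

variable {S : Dat} {p : VV}

theorem b1c_sum (x : E3) : (((0 : ℝ), (0 : ℝ), x) : VV) = ∑ m, x m • dY m := by
  refine Prod.ext ?_ (Prod.ext ?_ ?_)
  · rw [Prod.fst_sum]
    simp [dY]
  · rw [Prod.snd_sum, Prod.fst_sum]
    simp [dY]
  · rw [Prod.snd_sum, Prod.snd_sum]
    ext k
    simp [dY, Pi.single_apply]

/-- Derivative of a function of `(T, ρ)`. -/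
theorem b1c_q {φ : ℝ × ℝ → ℝ} (hφ : DifferentiableAt ℝ φ (p.1, p.2.1)) (v : VV) :
    fderiv ℝ (fun q : VV => φ (q.1, q.2.1)) p v = fderiv ℝ φ (p.1, p.2.1) (v.1, v.2.1) := by
  have h1 : HasFDerivAt (fun q : VV => (q.1, q.2.1)) ((ContinuousLinearMap.fst ℝ ℝ (ℝ × E3)).prod
      ((ContinuousLinearMap.fst ℝ ℝ E3).comp (ContinuousLinearMap.snd ℝ ℝ (ℝ × E3)))) p :=
    ((ContinuousLinearMap.fst ℝ ℝ (ℝ × E3)).prod
      ((ContinuousLinearMap.fst ℝ ℝ E3).comp (ContinuousLinearMap.snd ℝ ℝ (ℝ × E3)))).hasFDerivAt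
  have h2 := HasFDerivAt.comp (f := fun q : VV => (q.1, q.2.1)) p hφ.hasFDerivAt h1
  have h3 : fderiv ℝ (fun q : VV => φ (q.1, q.2.1)) p = _ := h2.fderiv
  rw [h3]
  rfl

/-- Derivative of a function of `ρ`. -/
theorem b1c_k {κ : ℝ → ℝ} (hκ : DifferentiableAt ℝ κ p.2.1) (v : VV) :
    fderiv ℝ (fun q : VV => κ q.2.1) p v = fderiv ℝ κ p.2.1 v.2.1 := by
  have h1 : HasFDerivAt (fun q : VV => q.2.1)
      ((ContinuousLinearMap.fst ℝ ℝ E3).comp (ContinuousLinearMap.snd ℝ ℝ (ℝ × E3))) p :=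
    ((ContinuousLinearMap.fst ℝ ℝ E3).comp (ContinuousLinearMap.snd ℝ ℝ (ℝ × E3))).hasFDerivAt
  have h2 := HasFDerivAt.comp (f := fun q : VV => q.2.1) p hκ.hasFDerivAt h1
  have h3 : fderiv ℝ (fun q : VV => κ q.2.1) p = _ := h2.fderiv
  rw [h3]
  rfl

theorem b1c_kd (h : Ok S) (hp : p ∈ OO S) : DifferentiableAt ℝ (fun t : ℝ => 1 / (2 * S.k t)) p.2.1 := by
  have h3 : 2 * S.k p.2.1 ≠ 0 := mul_ne_zero two_ne_zero (h.k_pos (p.1, p.2.1) hp.1).ne'
  have h4 : ContDiffAt ℝ ∞ (fun t : ℝ => 1 / (2 * S.k t)) p.2.1 :=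
    contDiffAt_const.div (contDiffAt_const.mul (h.k_smooth (p.1, p.2.1) hp.1)) h3
  exact h4.differentiableAt (by norm_num)

/-- The derivative of `ell`. -/
theorem b1c_ell (h : Ok S) (hp : p ∈ OO S) (e : ℝ) (v : VV) :
    fderiv ℝ (ell S e) p v = (0, fderiv ℝ (fun t : ℝ => 1 / (2 * S.k t)) p.2.1 v.2.1,
      e • fderiv ℝ S.u p v + fderiv ℝ S.w p v) := by
  have hu : DifferentiableAt ℝ S.u p := (h.u_smooth p hp).differentiableAt (by norm_num)
  have hw : DifferentiableAt ℝ S.w p := (h.w_smooth p hp).differentiableAt (by norm_num)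
  have h1 : HasFDerivAt (fun q : VV => q.2.1)
      ((ContinuousLinearMap.fst ℝ ℝ E3).comp (ContinuousLinearMap.snd ℝ ℝ (ℝ × E3))) p :=
    ((ContinuousLinearMap.fst ℝ ℝ E3).comp (ContinuousLinearMap.snd ℝ ℝ (ℝ × E3))).hasFDerivAt
  have h2 : HasFDerivAt (fun q : VV => 1 / (2 * S.k q.2.1)) _ p :=
    HasFDerivAt.comp (g := fun t : ℝ => 1 / (2 * S.k t)) (f := fun q : VV => q.2.1) p (b1c_kd h hp).hasFDerivAt h1
  have h3 : HasFDerivAt (fun q : VV => e • S.u q + S.w q) (e • fderiv ℝ S.u p + fderiv ℝ S.w p) p :=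
    (hu.hasFDerivAt.const_smul e).add hw.hasFDerivAt
  have h4 := (hasFDerivAt_const (e / 2) p).prodMk (h2.prodMk h3)
  have h5 : fderiv ℝ (ell S e) p = _ := h4.fderiv
  rw [h5]
  rfl

/-- Components of the derivative of a vector valued function. -/
theorem b1c_comp {f : VV → E3} (hf : DifferentiableAt ℝ f p) (v : VV) (m : Fin 3) :
    fderiv ℝ (fun q => f q m) p v = fderiv ℝ f p v m := by
  have h1 : HasFDerivAt (fun y => f y m)
      ((EuclideanSpace.proj (𝕜 := ℝ) m).comp (fderiv ℝ f p)) p :=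
    (EuclideanSpace.proj (𝕜 := ℝ) m).hasFDerivAt.comp p hf.hasFDerivAt
  rw [h1.fderiv]
  rfl

/-- `dal` is the derivative of the component `m` of `e u + w` in the direction `∂_i`, and of the third component of `ell`;
the first two components of `fderiv ell (dY i)` vanish (they do not depend on `y`). -/
theorem ell_dY (h : Ok S) (hp : p ∈ OO S) (e : ℝ) (i : Fin 3) :
    fderiv ℝ (ell S e) p (dY i) = ∑ m, dal S e i m p • dY m := by
  have hu : DifferentiableAt ℝ S.u p := (h.u_smooth p hp).differentiableAt (by norm_num)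
  have hw : DifferentiableAt ℝ S.w p := (h.w_smooth p hp).differentiableAt (by norm_num)
  rw [b1c_ell h hp e (dY i)]
  have e1 : fderiv ℝ (fun t : ℝ => 1 / (2 * S.k t)) p.2.1 (dY i).2.1 = 0 := by
    have : (dY i).2.1 = (0 : ℝ) := rfl
    rw [this, map_zero]
  rw [e1, b1c_sum]
  refine Finset.sum_congr rfl fun m _ => ?_
  congr 1
  unfold dal
  rw [b1c_comp hu, b1c_comp hw]
  rfl

/-- `[ell_e, ell_e']` has no components in the directions `T` and `ρ`: the first component of `ell e'` is constant, the second one is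
`1 / (2 k(ρ))` for both and `ell_e`, `ell_e'` have the same `ρ`-component. -/
theorem ell_comm (h : Ok S) (hp : p ∈ OO S) (e e' : ℝ) : ∃ τ : Fin 3 → ℝ,
    fderiv ℝ (ell S e') p (ell S e p) - fderiv ℝ (ell S e) p (ell S e' p) = ∑ m, τ m • dY m := by
  rw [b1c_ell h hp e', b1c_ell h hp e]
  refine ⟨fun m => ((e' • fderiv ℝ S.u p (ell S e p) + fderiv ℝ S.w p (ell S e p)) -
    (e • fderiv ℝ S.u p (ell S e' p) + fderiv ℝ S.w p (ell S e' p)) : E3) m, ?_⟩
  rw [← b1c_sum]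
  have e1 : (ell S e p).2.1 = (ell S e' p).2.1 := rfl
  rw [e1]
  refine Prod.ext ?_ (Prod.ext ?_ ?_)
  · exact sub_self _
  · exact sub_self _
  · rfl

/-- Derivative of a function of `(T, ρ)` in the direction `L_e`. -/
theorem ld_q {φ : ℝ × ℝ → ℝ} (hφ : DifferentiableAt ℝ φ (p.1, p.2.1)) (e : ℝ) :
    ld S e (fun q => φ (q.1, q.2.1)) p = fderiv ℝ φ (p.1, p.2.1) (e / 2, 1 / (2 * S.k p.2.1)) :=
  b1c_q hφ (ell S e p)

/-- A function of `(T, ρ)` has derivative `0` in the direction `∂_i`. -/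
theorem fd_q {φ : ℝ × ℝ → ℝ} (hφ : DifferentiableAt ℝ φ (p.1, p.2.1)) (i : Fin 3) :
    fderiv ℝ (fun q : VV => φ (q.1, q.2.1)) p (dY i) = 0 := by
  rw [b1c_q hφ (dY i)]
  have : ((dY i).1, (dY i).2.1) = ((0, 0) : ℝ × ℝ) := rfl
  rw [this]
  exact map_zero _

end H74X
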