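import Pool.Agent.Lib.H17W.CB1
import Pool.Agent.Lib.H17W.CB3
import Pool.Agent.Lib.H74X.B1

set_option autoImplicit false

/-!
# H74X, chunk B2A (S/M): algebra of P, h, Q

Auxiliary names start with `b2a_`. The cylinder metric `P(T, ρ, ·)` is `h.P_cyl`; its lemmas are in `H17W/CB1.lean`. Templates:
`H17W/B2A.lean` (`hh_rad`, `QQ_rad`, `hQ`, `hQ_apply`, `XX_rad`), `H17W/B4C.lean` (`b4c_Qpos`).
-/

open MeasureTheory Filter Topology Set
open scoped ContDiff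

namespace H74X

open H17T (E4 pt pos)

open H17W (ip vel cov riem Ric scal MetAt Cyl)

open Pool.Agent.Lib.PenroseSph (E3 S2 sm)

variable {S : Dat} {p : VV}

theorem b2a_norm (x : E3) : ‖x‖ ^ 2 = ∑ j, x j ^ 2 := EuclideanSpace.real_norm_sq_eq x

theorem PP_symm (h : Ok S) (hp : p ∈ OO S) (i j : Fin 3) : S.P p i j = S.P p j i :=
  (h.P_cyl (p.1, p.2.1) hp.1).symm p.2.2 hp.2 i j

theorem Pinv_symm (h : Ok S) (hp : p ∈ OO S) (i j : Fin 3) : (S.P p)⁻¹ i j = (S.P p)⁻¹ j i :=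
  (h.P_cyl (p.1, p.2.1) hp.1).inv_symm hp.2 i j

theorem PP_rad (h : Ok S) (hp : p ∈ OO S) (i : Fin 3) : ∑ j, S.P p i j * p.2.2 j = p.2.2 i / ‖p.2.2‖ ^ 2 :=
  (h.P_cyl (p.1, p.2.1) hp.1).rad p.2.2 hp.2 i

/-- `P⁻¹ y = |y|² y` (`Cyl.inv_rad`). -/
theorem Pinv_rad (h : Ok S) (hp : p ∈ OO S) (i : Fin 3) : ∑ j, (S.P p)⁻¹ i j * p.2.2 j = ‖p.2.2‖ ^ 2 * p.2.2 i := by
  have h1 : ∑ j, (S.P p)⁻¹ i j * (p.2.2 j / ‖p.2.2‖ ^ 2) = p.2.2 i := (h.P_cyl (p.1, p.2.1) hp.1).inv_rad hp.2 i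
  have hne : ‖p.2.2‖ ≠ 0 := norm_ne_zero_iff.2 hp.2
  rw [← h1, Finset.mul_sum]
  refine Finset.sum_congr rfl fun j _ => ?_
  field_simp

theorem hh_symm (h : Ok S) (hp : p ∈ OO S) (i j : Fin 3) : hh S i j p = hh S j i p := by
  unfold hh
  rw [PP_symm h hp i j, mul_comm (p.2.2 i)]

theorem hh_rad (h : Ok S) (hp : p ∈ OO S) (i : Fin 3) : ∑ j, hh S i j p * p.2.2 j = 0 := by
  have hx := b2a_norm p.2.2
  have hne : ‖p.2.2‖ ≠ 0 := norm_ne_zero_iff.2 hp.2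
  have h1 : ∀ j, hh S i j p * p.2.2 j = rr S p ^ 2 * (S.P p i j * p.2.2 j) -
      rr S p ^ 2 * p.2.2 i / ‖p.2.2‖ ^ 4 * p.2.2 j ^ 2 := by
    intro j
    unfold hh
    ring
  rw [Finset.sum_congr rfl fun j _ => h1 j, Finset.sum_sub_distrib, ← Finset.mul_sum, ← Finset.mul_sum, PP_rad h hp,
    ← hx]
  field_simp
  ring

theorem QQ_symm (h : Ok S) (hp : p ∈ OO S) (i j : Fin 3) : QQ S i j p = QQ S j i p := by
  unfold QQ
  rw [Pinv_symm h hp i j, mul_comm (p.2.2 i)]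

theorem QQ_rad (h : Ok S) (hp : p ∈ OO S) (i : Fin 3) : ∑ j, QQ S i j p * p.2.2 j = 0 := by
  have hx := b2a_norm p.2.2
  have h1 : ∀ j, QQ S i j p * p.2.2 j = ((S.P p)⁻¹ i j * p.2.2 j - p.2.2 i * p.2.2 j ^ 2) / rr S p ^ 2 := by
    intro j
    unfold QQ
    ring
  rw [Finset.sum_congr rfl fun j _ => h1 j, ← Finset.sum_div, Finset.sum_sub_distrib, Pinv_rad h hp, ← Finset.mul_sum,
    ← hx, mul_comm, sub_self, zero_div]

theorem hQ (h : Ok S) (hp : p ∈ OO S) (i j : Fin 3) :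
    ∑ l, hh S i l p * QQ S l j p = (if i = j then 1 else 0) - p.2.2 i * p.2.2 j / ‖p.2.2‖ ^ 2 := by
  have hr : rr S p ≠ 0 := (rr_pos h hp).ne'
  have h1 : ∑ l, S.P p i l * (S.P p)⁻¹ l j = if i = j then 1 else 0 :=
    (h.P_cyl (p.1, p.2.1) hp.1).mul_inv hp.2 i j
  have h3 : ∀ l, hh S i l p * QQ S l j p = S.P p i l * (S.P p)⁻¹ l j -
      p.2.2 j * (S.P p i l * p.2.2 l) - rr S p ^ 2 * p.2.2 i / ‖p.2.2‖ ^ 4 * (QQ S j l p * p.2.2 l) := by
    intro l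
    rw [QQ_symm h hp j l]
    unfold hh QQ
    field_simp
  rw [Finset.sum_congr rfl fun l _ => h3 l, Finset.sum_sub_distrib, Finset.sum_sub_distrib, h1,
    ← Finset.mul_sum, ← Finset.mul_sum, PP_rad h hp, QQ_rad h hp]
  ring

/-- Contraction of a covector which vanishes on `y`. -/
theorem hQ_apply (h : Ok S) (hp : p ∈ OO S) {v : Fin 3 → ℝ} (hv : ∑ i, v i * p.2.2 i = 0) (i : Fin 3) :
    ∑ a, (∑ b, QQ S a b p * v b) * hh S a i p = v i := by
  have h1 : ∀ a, (∑ b, QQ S a b p * v b) * hh S a i p =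
      ∑ b, v b * (hh S i a p * QQ S a b p) := by
    intro a
    rw [Finset.sum_mul, hh_symm h hp a i]
    refine Finset.sum_congr rfl fun b _ => ?_
    ring
  rw [Finset.sum_congr rfl fun a _ => h1 a, Finset.sum_comm]
  have h2 : ∀ b, ∑ a, v b * (hh S i a p * QQ S a b p) =
      (if i = b then v b else 0) - p.2.2 i / ‖p.2.2‖ ^ 2 * (v b * p.2.2 b) := by
    intro b
    rw [← Finset.mul_sum, hQ h hp]
    split_ifs <;> ring
  rw [Finset.sum_congr rfl fun b _ => h2 b, Finset.sum_sub_distrib, ← Finset.mul_sum, hv,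
    Finset.sum_ite_eq Finset.univ i v, if_pos (Finset.mem_univ i)]
  ring

/-- `Q = Q P Q r²` (`Q y = 0`, `P⁻¹ = r² Q + y y`), so `Q` is positive semidefinite. -/
theorem QQ_pos (h : Ok S) (hp : p ∈ OO S) (ξ : Fin 3 → ℝ) : 0 ≤ ∑ i, ∑ j, QQ S i j p * ξ i * ξ j := by
  have hr : rr S p ≠ 0 := (rr_pos h hp).ne'
  set η : Fin 3 → ℝ := fun i => ∑ j, QQ S i j p * ξ j with hη
  have h1 : 0 ≤ ∑ i, ∑ j, S.P p i j * η i * η j := by
    by_cases h0 : η = 0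
    · simp [h0]
    · exact ((h.P_cyl (p.1, p.2.1) hp.1).pos p.2.2 hp.2 η h0).le
  have hyη : ∑ i, p.2.2 i * η i = 0 := by
    have : ∑ i, p.2.2 i * η i = ∑ j, (∑ i, QQ S j i p * p.2.2 i) * ξ j := by
      simp only [hη, Finset.mul_sum, Finset.sum_mul]
      rw [Finset.sum_comm]
      refine Finset.sum_congr rfl fun j _ => Finset.sum_congr rfl fun i _ => ?_
      rw [QQ_symm h hp i j]
      ring
    rw [this]
    simp [QQ_rad h hp]
  have hhη : ∀ i, ∑ j, hh S i j p * η j = ξ i - p.2.2 i * ((∑ m, p.2.2 m * ξ m) / ‖p.2.2‖ ^ 2) := by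
    intro i
    have e2 : ∑ j, hh S i j p * η j = ∑ m, (∑ j, hh S i j p * QQ S j m p) * ξ m := by
      simp only [hη, Finset.mul_sum, Finset.sum_mul]
      rw [Finset.sum_comm]
      refine Finset.sum_congr rfl fun j _ => Finset.sum_congr rfl fun m _ => ?_
      ring
    rw [e2]
    simp only [hQ h hp]
    have e3 : ∀ m, ((if i = m then (1 : ℝ) else 0) - p.2.2 i * p.2.2 m / ‖p.2.2‖ ^ 2) * ξ m =
        (if i = m then ξ m else 0) - p.2.2 i / ‖p.2.2‖ ^ 2 * (p.2.2 m * ξ m) := by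
      intro m
      split_ifs <;> ring
    rw [Finset.sum_congr rfl fun m _ => e3 m, Finset.sum_sub_distrib, Finset.sum_ite_eq, if_pos (Finset.mem_univ i),
      ← Finset.mul_sum]
    ring
  have h2 : rr S p ^ 2 * ∑ i, ∑ j, S.P p i j * η i * η j = ∑ i, ∑ j, QQ S i j p * ξ i * ξ j := by
    have e1 : ∀ i, rr S p ^ 2 * ∑ j, S.P p i j * η i * η j =
        η i * (∑ j, hh S i j p * η j) + rr S p ^ 2 / ‖p.2.2‖ ^ 4 * (p.2.2 i * η i) * ∑ j, p.2.2 j * η j := by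
      intro i
      rw [Finset.mul_sum, Finset.mul_sum, Finset.mul_sum, ← Finset.sum_add_distrib]
      refine Finset.sum_congr rfl fun j _ => ?_
      unfold hh
      ring
    rw [Finset.mul_sum, Finset.sum_congr rfl fun i _ => e1 i]
    simp only [hyη, hhη, mul_zero, add_zero, mul_sub, Finset.sum_sub_distrib]
    have e4 : ∑ i, η i * (p.2.2 i * ((∑ m, p.2.2 m * ξ m) / ‖p.2.2‖ ^ 2)) =
        (∑ i, p.2.2 i * η i) * ((∑ m, p.2.2 m * ξ m) / ‖p.2.2‖ ^ 2) := by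
      rw [Finset.sum_mul]
      exact Finset.sum_congr rfl fun i _ => by ring
    rw [e4, hyη, zero_mul, sub_zero]
    refine Finset.sum_congr rfl fun i _ => ?_
    rw [hη, Finset.sum_mul]
    exact Finset.sum_congr rfl fun j _ => by ring
  rw [← h2]
  positivity

end H74X
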