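import Pool.Agent.Lib.H17W.A3
import Pool.Agent.Lib.H74X.B0

set_option autoImplicit false

/-!
# H74X, chunk GA1 (S/M): linearity, product rule for variable directions

Auxiliary names start with `ga1_`. `Φ : V → ℝ^d`, fields along `Φ`, and vector fields `w : V → V` on `V`. See `H17W/A0.lean` for the
definitions of `vel`, `cov`, `riem` and `H17W/A2.lean`, `A3.lean` for `cov_symm`, `cov_comm` (constant directions).
-/

open MeasureTheory Filter Topology Set
open scoped ContDiff

namespace H74X

open H17W (ip gam vel cov riem Ric scal MetAt cov_symm cov_comm)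

variable {d : ℕ} {V : Type*} [NormedAddCommGroup V] [NormedSpace ℝ V]
  {G : H31R.EE d → Matrix (Fin d) (Fin d) ℝ} {Φ : V → H31R.EE d} {A : V → Fin d → ℝ} {w w' : V → V} {x : V}

/-- Product rule for a field of linear forms and a variable direction. -/
theorem ga1_clm {L : V → V →L[ℝ] ℝ} {w : V → V} {x : V} (hL : DifferentiableAt ℝ L x) (hw : DifferentiableAt ℝ w x) (v : V) :
    fderiv ℝ (fun y => L y (w y)) x v = fderiv ℝ (fun y => L y (w x)) x v + L x (fderiv ℝ w x v) := by
  have h1 := (hL.hasFDerivAt.clm_apply hw.hasFDerivAt).fderiv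
  have h2 := (hL.hasFDerivAt.clm_apply (hasFDerivAt_const (w x) x)).fderiv
  rw [h1, h2]
  simp only [ContinuousLinearMap.add_apply, ContinuousLinearMap.comp_apply, ContinuousLinearMap.flip_apply,
    ContinuousLinearMap.zero_apply, map_zero, zero_add]
  ring

/-- Linearity in the direction: by definition `vel` and `cov` are sums of values of Fréchet derivatives and of bilinear terms in `vel`. -/
theorem vel_add (v v' : V) : vel Φ x (v + v') = vel Φ x v + vel Φ x v' := by
  funext a
  rw [Pi.add_apply]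
  unfold vel
  rw [map_add]

theorem vel_smul (c : ℝ) (v : V) : vel Φ x (c • v) = c • vel Φ x v := by
  funext a
  rw [Pi.smul_apply]
  unfold vel
  rw [map_smul]

theorem ga1_vel_sub (v v' : V) : vel Φ x (v - v') = vel Φ x v - vel Φ x v' := by
  funext a
  rw [Pi.sub_apply]
  unfold vel
  rw [map_sub]

theorem cov_dir_add (v v' : V) : cov G Φ A x (v + v') = cov G Φ A x v + cov G Φ A x v' := by
  funext a
  rw [Pi.add_apply]
  unfold cov gam
  rw [map_add, vel_add]
  have h : ∑ i, ∑ j, H31R.chr G a i j (Φ x) * (vel Φ x v + vel Φ x v') i * A x j =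
      ∑ i, ∑ j, H31R.chr G a i j (Φ x) * vel Φ x v i * A x j +
      ∑ i, ∑ j, H31R.chr G a i j (Φ x) * vel Φ x v' i * A x j := by
    simp only [← Finset.sum_add_distrib]
    exact Finset.sum_congr rfl fun i _ => Finset.sum_congr rfl fun j _ => by
      rw [Pi.add_apply]
      ring
  rw [h]
  ring

theorem cov_dir_smul (c : ℝ) (v : V) : cov G Φ A x (c • v) = c • cov G Φ A x v := by
  funext a
  rw [Pi.smul_apply]
  unfold cov gam
  rw [map_smul, vel_smul]
  have h : ∑ i, ∑ j, H31R.chr G a i j (Φ x) * (c • vel Φ x v) i * A x j =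
      c * ∑ i, ∑ j, H31R.chr G a i j (Φ x) * vel Φ x v i * A x j := by
    simp only [Finset.mul_sum]
    exact Finset.sum_congr rfl fun i _ => Finset.sum_congr rfl fun j _ => by
      rw [Pi.smul_apply, smul_eq_mul]
      ring
  rw [h, smul_eq_mul, smul_eq_mul]
  ring

theorem cov_dir_sum {ι : Type*} (s : Finset ι) (c : ι → ℝ) (v : ι → V) :
    cov G Φ A x (∑ i ∈ s, c i • v i) = ∑ i ∈ s, c i • cov G Φ A x (v i) := by
  classical
  induction s using Finset.induction_on with
  | empty =>
    rw [Finset.sum_empty, Finset.sum_empty]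
    have h := cov_dir_smul (G := G) (Φ := Φ) (A := A) (x := x) 0 0
    rwa [zero_smul, zero_smul] at h
  | insert i s hi ih => rw [Finset.sum_insert hi, Finset.sum_insert hi, cov_dir_add, cov_dir_smul, ih]

/-- The component `a` of `y ↦ vel Φ y (w y)` is `fderiv ℝ (fun y => Φ y a) y (w y)`; product rule (`HasFDerivAt.clm_apply`): its derivative
in the direction `v` is the one with the constant direction `w x` plus `fderiv ℝ (fun y => Φ y a) x (fderiv ℝ w x v)`. -/
theorem cov_field (hΦ : ContDiffAt ℝ ∞ Φ x) (hw : DifferentiableAt ℝ w x) (v : V) :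
    cov G Φ (fun y => vel Φ y (w y)) x v = cov G Φ (fun y => vel Φ y (w x)) x v + vel Φ x (fderiv ℝ w x v) := by
  funext a
  have hL : DifferentiableAt ℝ (fun y => fderiv ℝ (fun z => Φ z a) y) x := by
    have h1 : ContDiffAt ℝ ∞ (fun y => Φ y a) x :=
      (EuclideanSpace.proj (𝕜 := ℝ) a).contDiff.contDiffAt.comp x hΦ
    exact (h1.fderiv_right (m := ∞) (by norm_cast)).differentiableAt (by norm_num)
  have h := ga1_clm hL hw v
  rw [Pi.add_apply]
  unfold cov
  have e1 : fderiv ℝ (fun y => vel Φ y (w y) a) x v = fderiv ℝ (fun y => vel Φ y (w x) a) x v +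
      vel Φ x (fderiv ℝ w x v) a := h
  rw [e1]
  ring

/-- `D_v (∂_w Φ) = D_w (∂_v Φ) + ∂_{∂_v w} Φ`: `cov_field` and `cov_symm`. -/
theorem cov_symm_field (hG : MetAt G (Φ x)) (hΦ : ContDiffAt ℝ ∞ Φ x) (hw : DifferentiableAt ℝ w x) (v : V) :
    cov G Φ (fun y => vel Φ y (w y)) x v = cov G Φ (fun y => vel Φ y v) x (w x) + vel Φ x (fderiv ℝ w x v) := by
  rw [cov_field hΦ hw v, cov_symm hG (hΦ.of_le (by norm_cast)) v (w x)]

/-- Two variable directions: `cov_field` for both terms and `cov_symm` for the constant directions `w x`, `w' x`. -/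
theorem cov_symm_two (hG : MetAt G (Φ x)) (hΦ : ContDiffAt ℝ ∞ Φ x) (hw : DifferentiableAt ℝ w x)
    (hw' : DifferentiableAt ℝ w' x) :
    cov G Φ (fun y => vel Φ y (w' y)) x (w x) - cov G Φ (fun y => vel Φ y (w y)) x (w' x) =
      vel Φ x (fderiv ℝ w' x (w x) - fderiv ℝ w x (w' x)) := by
  rw [cov_field hΦ hw' (w x), cov_field hΦ hw (w' x), cov_symm hG (hΦ.of_le (by norm_cast)) (w x) (w' x), ga1_vel_sub]
  abel

end H74X
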