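import Pool.Agent.Lib.H17W.CB1
import Pool.Agent.Lib.H17W.CB3
import Pool.Agent.Lib.H74X.B1
import Pool.Agent.Lib.H74X.GA1
import Pool.Agent.Lib.H74X.B2A

set_option autoImplicit false

/-!
# H74X, chunk B2B (S/M): homogeneity

Auxiliary names start with `b2b_`. The cylinder metric `P(T, ρ, ·)` is `h.P_cyl`; its lemmas are in `H17W/CB1.lean`. Templates:
`H17W/B2A.lean` (`hh_rad`, `QQ_rad`, `hQ`, `hQ_apply`, `XX_rad`), `H17W/B4C.lean` (`b4c_Qpos`).
-/

open MeasureTheory Filter Topology Set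
open scoped ContDiff

namespace H74X

open H17T (E4 pt pos)

open H17W (ip vel cov riem Ric scal MetAt Cyl)

open Pool.Agent.Lib.PenroseSph (E3 S2 sm)

variable {S : Dat} {p : VV}

/-- The derivative of a function which is constant on the rays. -/
theorem b2b_rad {φ : VV → ℝ} (hφ : DifferentiableAt ℝ φ p) (h0 : ∀ c : ℝ, 0 < c → φ (p.1, p.2.1, c • p.2.2) = φ p) :
    fderiv ℝ φ p (0, 0, p.2.2) = 0 := by
  have h2 : HasDerivAt (fun t : ℝ => φ (p.1, p.2.1, (1 + t) • p.2.2)) (fderiv ℝ φ p (0, 0, p.2.2)) 0 := by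
    have h3 : HasDerivAt (fun t : ℝ => ((p.1, p.2.1, (1 + t) • p.2.2) : VV)) (0, 0, p.2.2) 0 := by
      have h4 : HasDerivAt (fun t : ℝ => (1 + t) • p.2.2) p.2.2 0 := by
        have h5 : HasDerivAt (fun t : ℝ => 1 + t) 1 0 := by
          simpa using (hasDerivAt_id (0 : ℝ)).const_add 1
        simpa using h5.smul_const p.2.2
      exact (hasDerivAt_const (0 : ℝ) p.1).prodMk ((hasDerivAt_const (0 : ℝ) p.2.1).prodMk h4)
    have h6 : ((p.1, p.2.1, (1 + (0 : ℝ)) • p.2.2) : VV) = p := by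
      rw [add_zero, one_smul]
    have h7 : HasFDerivAt φ (fderiv ℝ φ p) ((p.1, p.2.1, (1 + (0 : ℝ)) • p.2.2) : VV) := by
      rw [h6]
      exact hφ.hasFDerivAt
    exact h7.comp_hasDerivAt (0 : ℝ) h3
  have h3 : HasDerivAt (fun t : ℝ => φ (p.1, p.2.1, (1 + t) • p.2.2)) 0 0 := by
    have h4 : (fun t : ℝ => φ (p.1, p.2.1, (1 + t) • p.2.2)) =ᶠ[𝓝 0] fun _ => φ p := by
      have h5 : ∀ᶠ t : ℝ in 𝓝 0, -1 < t := lt_mem_nhds (by norm_num)
      filter_upwards [h5] with t ht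
      exact h0 _ (by linarith)
    exact (hasDerivAt_const (0 : ℝ) (φ p)).congr_of_eventuallyEq h4
  exact h2.unique h3

theorem b2b_fd {φ : VV → ℝ} (hφ : DifferentiableAt ℝ φ p) (h0 : ∀ c : ℝ, 0 < c → φ (p.1, p.2.1, c • p.2.2) = φ p) :
    ∑ i, p.2.2 i * fderiv ℝ φ p (dY i) = 0 := by
  have h1 := b2b_rad hφ h0
  rw [b1c_sum, map_sum] at h1
  rw [← h1]
  exact Finset.sum_congr rfl fun i _ => by rw [map_smul, smul_eq_mul]

/-- The map `(T, ρ, y) ↦ (T, ρ, c y)`. -/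
noncomputable def b2b_iso {c : ℝ} (hc : 0 < c) : VV ≃L[ℝ] VV :=
  (ContinuousLinearEquiv.refl ℝ ℝ).prodCongr ((ContinuousLinearEquiv.refl ℝ ℝ).prodCongr
    (ContinuousLinearEquiv.smulLeft (Units.mk0 c hc.ne')))

/-- Euler's relation: `Φ` is constant on the rays `c ↦ (T, ρ, c y)` (`h.hom`). -/
theorem XX_rad (h : Ok S) (hp : p ∈ OO S) (a : Fin 4) : ∑ i, p.2.2 i * XX S i p a = 0 := by
  have h1 : DifferentiableAt ℝ (fun y => S.Ph y a) p :=
    differentiableAt_euclidean.1 ((h.smooth p hp).differentiableAt (by norm_num)) a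
  exact b2b_fd h1 fun c hc => by rw [(h.hom p hp c hc).1]

/-- `L_e` is constant on the rays: differentiate `Φ(T, ρ, c y) = Φ(T, ρ, y)` (chain rule, `h.hom` near `p`), so
`vel Φ (T, ρ, c y) (a, b, c v) = vel Φ (T, ρ, y) (a, b, v)`, and `ell (T, ρ, c y) = (.., .., c α)`. Template `H17W/B2A.lean`, `LL_hom`. -/
theorem LL_hom (h : Ok S) (hp : p ∈ OO S) {c : ℝ} (hc : 0 < c) (e : ℝ) : LL S e (p.1, p.2.1, c • p.2.2) = LL S e p := by
  funext a
  have h1 : (fun y => S.Ph y a) ∘ (b2b_iso hc) =ᶠ[𝓝 p] fun y => S.Ph y a := by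
    filter_upwards [OO_ev h hp] with q hq
    have h2 := (h.hom q hq c hc).1
    change S.Ph (q.1, q.2.1, c • q.2.2) a = S.Ph q a
    rw [h2]
  have h2 := (b2b_iso hc).comp_right_fderiv (f := fun y => S.Ph y a) (x := p)
  rw [h1.fderiv_eq] at h2
  obtain ⟨-, -, hu, hw⟩ := h.hom p hp c hc
  have h3 : ell S e (p.1, p.2.1, c • p.2.2) = b2b_iso hc (ell S e p) := by
    change ((e / 2, 1 / (2 * S.k p.2.1), e • S.u (p.1, p.2.1, c • p.2.2) + S.w (p.1, p.2.1, c • p.2.2)) : VV) =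
      (e / 2, 1 / (2 * S.k p.2.1), c • (e • S.u p + S.w p))
    rw [hu, hw, smul_add, smul_comm e c]
  change fderiv ℝ (fun y => S.Ph y a) (p.1, p.2.1, c • p.2.2) (ell S e (p.1, p.2.1, c • p.2.2)) =
    fderiv ℝ (fun y => S.Ph y a) p (ell S e p)
  rw [h3, h2]
  rfl

/-- A function which is constant on the rays (at all points of the domain) has `Σ y_i ∂_i φ = 0`. -/
theorem fd_rad {φ : VV → ℝ} (hφ : DifferentiableAt ℝ φ p) (h0 : ∀ c : ℝ, 0 < c → φ (p.1, p.2.1, c • p.2.2) = φ p) :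
    ∑ i, p.2.2 i * fderiv ℝ φ p (dY i) = 0 := b2b_fd hφ h0

/-- A field along `Φ` which is constant on the rays has `Σ y_i D_i A = 0` (`fd_rad` and `XX_rad`). -/
theorem DX_rad (h : Ok S) (hp : p ∈ OO S) {A : VV → Fin 4 → ℝ} (hA : ∀ a, DifferentiableAt ℝ (fun q => A q a) p)
    (h0 : ∀ c : ℝ, 0 < c → A (p.1, p.2.1, c • p.2.2) = A p) : ∑ i, p.2.2 i • DX S i A p = 0 := by
  have h1 : ∑ i, p.2.2 i • DX S i A p = cov S.G S.Ph A p (0, 0, p.2.2) := by
    rw [b1c_sum, cov_dir_sum]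
    rfl
  rw [h1]
  have hv : vel S.Ph p (0, 0, p.2.2) = 0 := by
    funext a
    have h2 : DifferentiableAt ℝ (fun y => S.Ph y a) p :=
      differentiableAt_euclidean.1 ((h.smooth p hp).differentiableAt (by norm_num)) a
    exact b2b_rad h2 fun c hc => by rw [(h.hom p hp c hc).1]
  funext a
  have e1 : fderiv ℝ (fun q => A q a) p (0, 0, p.2.2) = 0 := b2b_rad (hA a) fun c hc => by rw [h0 c hc]
  unfold cov H17W.gam
  rw [e1, hv]
  simp

/-- The christoffel symbols of the cylinder metric are symmetric (`H17W.Cyl.chr_symm`, file `H17W/CB3.lean`). -/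
theorem cc_symm (h : Ok S) (hp : p ∈ OO S) (m i j : Fin 3) : cc S m i j p = cc S m j i p :=
  (h.P_cyl (p.1, p.2.1) hp.1).chr_symm hp.2 m i j

end H74X
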