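import Pool.Agent.Lib.H17W.A6
import Pool.Agent.Lib.H74X.B2

set_option autoImplicit false

/-!
# H74X, chunk B3 (S): the null frame

Auxiliary names start with `b3_`. Template: `H17W/B2B.lean`, `nframe`.
-/

open MeasureTheory Filter Topology Set
open scoped ContDiff

namespace H74X

open H17T (E4 pt pos)
open H17W (ip vel cov riem Ric scal MetAt Cyl NFrame nframe_of)
open Pool.Agent.Lib.PenroseSph (E3 S2 sm)

variable {S : Dat} {p : VV} {e : ℝ}

theorem ipp_symm (h : Ok S) (hp : p ∈ OO S) (a b : Fin 4 → ℝ) : ipp S p a b = ipp S p b a :=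
  H17W.ip_symm (h.met p hp) a b

theorem ipp_add_left (a a' b : Fin 4 → ℝ) : ipp S p (a + a') b = ipp S p a b + ipp S p a' b :=
  H17W.ip_add_left a a' b

theorem ipp_add_right (a b b' : Fin 4 → ℝ) : ipp S p a (b + b') = ipp S p a b + ipp S p a b' :=
  H17W.ip_add_right a b b'

theorem b3_smul_left (t : ℝ) (a b : Fin 4 → ℝ) : ipp S p (t • a) b = t * ipp S p a b := H17W.ip_smul_left t a b

theorem b3_smul_right (t : ℝ) (a b : Fin 4 → ℝ) : ipp S p a (t • b) = t * ipp S p a b := H17W.ip_smul_right t a b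

theorem ipp_sub_left (a a' b : Fin 4 → ℝ) : ipp S p (a - a') b = ipp S p a b - ipp S p a' b := by
  have h1 : a - a' = a + (-1 : ℝ) • a' := by
    rw [neg_smul, one_smul, sub_eq_add_neg]
  rw [h1, ipp_add_left, b3_smul_left]
  ring

theorem ipp_sub_right (a b b' : Fin 4 → ℝ) : ipp S p a (b - b') = ipp S p a b - ipp S p a b' := by
  have h1 : b - b' = b + (-1 : ℝ) • b' := by
    rw [neg_smul, one_smul, sub_eq_add_neg]
  rw [h1, ipp_add_right, b3_smul_right]
  ring

theorem ipp_smul_left (t : ℝ) (a b : Fin 4 → ℝ) : ipp S p (t • a) b = t * ipp S p a b := H17W.ip_smul_left t a b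

theorem ipp_smul_right (t : ℝ) (a b : Fin 4 → ℝ) : ipp S p a (t • b) = t * ipp S p a b := H17W.ip_smul_right t a b

theorem b3_zero_left (b : Fin 4 → ℝ) : ipp S p 0 b = 0 := by
  have h1 := ipp_smul_left (S := S) (p := p) 0 0 b
  rwa [zero_smul, zero_mul] at h1

theorem b3_zero_right (b : Fin 4 → ℝ) : ipp S p b 0 = 0 := by
  have h1 := ipp_smul_right (S := S) (p := p) 0 b 0
  rwa [zero_smul, zero_mul] at h1

theorem ipp_sum_left {ι : Type*} (s : Finset ι) (c : ι → ℝ) (A : ι → Fin 4 → ℝ) (b : Fin 4 → ℝ) :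
    ipp S p (∑ i ∈ s, c i • A i) b = ∑ i ∈ s, c i * ipp S p (A i) b := by
  classical
  induction s using Finset.induction_on with
  | empty => rw [Finset.sum_empty, Finset.sum_empty, b3_zero_left]
  | insert i s hi ih => rw [Finset.sum_insert hi, Finset.sum_insert hi, ipp_add_left, ipp_smul_left, ih]

theorem ipp_sum_right {ι : Type*} (s : Finset ι) (c : ι → ℝ) (A : ι → Fin 4 → ℝ) (b : Fin 4 → ℝ) :
    ipp S p b (∑ i ∈ s, c i • A i) = ∑ i ∈ s, c i * ipp S p b (A i) := by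
  classical
  induction s using Finset.induction_on with
  | empty => rw [Finset.sum_empty, Finset.sum_empty, b3_zero_right]
  | insert i s hi ih => rw [Finset.sum_insert hi, Finset.sum_insert hi, ipp_add_right, ipp_smul_right, ih]

/-- `nframe_of` with `x = y`, `L = L_e`, `k = (4/F) L_{-e}`: `ipL`, `ipLX`, `ipX`, `hQ`, `QQ_rad`, `XX_rad`. -/
theorem nframe (h : Ok S) (hp : p ∈ OO S) (he : e * e = 1) :
    NFrame (S.G (S.Ph p)) (fun i => XX S i p) (fun i j => QQ S i j p) (LL S e p) ((4 / S.F p) • LL S (-e) p) := by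
  have hF : S.F p ≠ 0 := (h.F_pos p hp).ne'
  have hn : ∑ m, (p.2.2 m) ^ 2 = ‖p.2.2‖ ^ 2 := (EuclideanSpace.real_norm_sq_eq p.2.2).symm
  have hne : ‖p.2.2‖ ≠ 0 := norm_ne_zero_iff.2 hp.2
  refine nframe_of (h.met p hp) (fun i => p.2.2 i) ?_ ?_ ?_ ?_ ?_ ?_ ?_ ?_ ?_ ?_
  · rw [hn]
    exact pow_ne_zero 2 hne
  · exact XX_rad h hp
  · exact QQ_symm h hp
  · exact QQ_rad h hp
  · intro i j
    rw [hn, ← hQ h hp i j]
    refine Finset.sum_congr rfl fun l _ => ?_
    have h1 : ip S.G (S.Ph p) (XX S i p) (XX S l p) = hh S i l p := h.ipX p hp i l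
    rw [h1]
  · have h1 : ip S.G (S.Ph p) (LL S e p) (LL S e p) = S.F p * (1 - e * e) / 4 := h.ipL p hp e e
    rw [h1, he]
    ring
  · have h1 : ip S.G (S.Ph p) (LL S (-e) p) (LL S (-e) p) = S.F p * (1 - -e * -e) / 4 := h.ipL p hp (-e) (-e)
    rw [H17W.ip_smul_left, H17W.ip_smul_right, h1, neg_mul_neg, he]
    ring
  · have h1 : ip S.G (S.Ph p) (LL S e p) (LL S (-e) p) = S.F p * (1 - e * -e) / 4 := h.ipL p hp e (-e)
    rw [H17W.ip_smul_right, h1, mul_neg, he]
    field_simp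
    ring
  · exact h.ipLX p hp e
  · intro i
    have h1 : ip S.G (S.Ph p) (LL S (-e) p) (XX S i p) = 0 := h.ipLX p hp (-e) i
    rw [H17W.ip_smul_left, h1, mul_zero]

/-- `H17W.expand`: a vector in terms of its scalar products. -/
theorem expand_e (h : Ok S) (hp : p ∈ OO S) (he : e * e = 1) (Y : Fin 4 → ℝ) :
    Y = (∑ a, (∑ b, QQ S a b p * ipp S p Y (XX S b p)) • XX S a p) + (2 / S.F p * ipp S p Y (LL S (-e) p)) • LL S e p +
      (2 / S.F p * ipp S p Y (LL S e p)) • LL S (-e) p := by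
  have h1 := H17W.expand (h.met p hp) (nframe h hp he) Y
  have h2 : ip S.G (S.Ph p) Y ((4 / S.F p) • LL S (-e) p) / 2 = 2 / S.F p * ipp S p Y (LL S (-e) p) := by
    rw [H17W.ip_smul_right]
    unfold ipp
    ring
  rw [h2, smul_smul] at h1
  have h3 : ip S.G (S.Ph p) Y (LL S e p) / 2 * (4 / S.F p) = 2 / S.F p * ipp S p Y (LL S e p) := by
    unfold ipp
    ring
  rw [h3] at h1
  exact h1

/-- Two vectors with the same scalar products with `X_i`, `L_e`, `L_{-e}` are equal. -/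
theorem ext_e (h : Ok S) (hp : p ∈ OO S) (he : e * e = 1) {Y Z : Fin 4 → ℝ} (h1 : ∀ i, ipp S p Y (XX S i p) = ipp S p Z (XX S i p))
    (h2 : ipp S p Y (LL S e p) = ipp S p Z (LL S e p)) (h3 : ipp S p Y (LL S (-e) p) = ipp S p Z (LL S (-e) p)) : Y = Z := by
  have e1 := expand_e h hp he Y
  have e2 := expand_e h hp he Z
  simp only [h1, h2, h3] at e1
  exact e1.trans e2.symm

end H74X
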