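import Pool.Agent.Lib.H74X.B3
import Pool.Agent.Lib.H74X.GA

set_option autoImplicit false

/-!
# H74X, chunk B4A1 (S/M): symmetry and product rule

Auxiliary names start with `b4a1_`. 
-/

open MeasureTheory Filter Topology Set
open scoped ContDiff

namespace H74X

open H17T (E4 pt pos)

open H17W (ip vel cov riem Ric scal MetAt Cyl NFrame)

open Pool.Agent.Lib.PenroseSph (E3 S2 sm)

variable {S : Dat} {p : VV} {e : ℝ}

/-- `vel` in the direction `Σ v_m ∂_m` is `Σ v_m X_m`. -/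
theorem vel_dY (v : Fin 3 → ℝ) : vel S.Ph p (∑ m, v m • dY m) = ∑ m, v m • XX S m p := by
  funext a
  have h1 : vel S.Ph p (∑ m, v m • dY m) a = fderiv ℝ (fun y => S.Ph y a) p (∑ m, v m • dY m) := rfl
  rw [h1, map_sum, Finset.sum_apply]
  exact Finset.sum_congr rfl fun m _ => by
    rw [map_smul]
    rfl

/-- `D_L X_i = D_i L - Σ ∂_i α^m X_m`: `cov_symm_field` with `w = ell S e`, `v = dY i` (`DX S i (LL S e) p` is
`cov S.G S.Ph (fun y => vel S.Ph y (ell S e y)) p (dY i)` by definition), `ell_dY`. -/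
theorem DL_XX (h : Ok S) (hp : p ∈ OO S) (e : ℝ) (i : Fin 3) :
    DL S e (XX S i) p = DX S i (LL S e) p - ∑ m, dal S e i m p • XX S m p := by
  have h1 := cov_symm_field (w := ell S e) (h.met p hp) (h.smooth p hp)
    ((ell_smooth h hp e).differentiableAt (by norm_num)) (dY i)
  rw [ell_dY h hp e i, vel_dY] at h1
  have h2 : DX S i (LL S e) p = DL S e (XX S i) p + ∑ m, dal S e i m p • XX S m p := h1
  rw [h2]
  abel

/-- `D_i X_j = D_j X_i` (`H17W.cov_symm`). -/
theorem DX_symm (h : Ok S) (hp : p ∈ OO S) (i j : Fin 3) : DX S i (XX S j) p = DX S j (XX S i) p :=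
  H17W.cov_symm (h.met p hp) ((h.smooth p hp).of_le (by norm_cast)) (dY i) (dY j)

/-- `D_L L' - D_L' L` is tangential to the leaf: `cov_symm_two` with `w = ell e`, `w' = ell e'`, `ell_comm`. -/
theorem DL_comm (h : Ok S) (hp : p ∈ OO S) (e e' : ℝ) : ∃ τ : Fin 3 → ℝ,
    DL S e (LL S e') p - DL S e' (LL S e) p = ∑ m, τ m • XX S m p := by
  obtain ⟨τ, hτ⟩ := ell_comm h hp e e'
  refine ⟨τ, ?_⟩
  have h1 := cov_symm_two (w := ell S e) (w' := ell S e') (h.met p hp) (h.smooth p hp)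
    ((ell_smooth h hp e).differentiableAt (by norm_num)) ((ell_smooth h hp e').differentiableAt (by norm_num))
  rw [hτ, vel_dY] at h1
  exact h1

/-- Product rule (`H17W.ip_cov`), for the directions `dY i` and `ell S e p` in particular. -/
theorem ipp_D (h : Ok S) (hp : p ∈ OO S) {A B : VV → Fin 4 → ℝ} (hA : ∀ a, DifferentiableAt ℝ (fun q => A q a) p)
    (hB : ∀ a, DifferentiableAt ℝ (fun q => B q a) p) (v : VV) :
    fderiv ℝ (fun q => ipp S q (A q) (B q)) p v = ipp S p (cov S.G S.Ph A p v) (B p) + ipp S p (A p) (cov S.G S.Ph B p v) :=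
  H17W.ip_cov (h.met p hp) ((h.smooth p hp).differentiableAt (by norm_num)) hA hB v

/-- If `<A, B> = φ` on the domain, the derivatives agree. -/
theorem ipp_D_of (h : Ok S) (hp : p ∈ OO S) {A B : VV → Fin 4 → ℝ} (hA : ∀ a, DifferentiableAt ℝ (fun q => A q a) p)
    (hB : ∀ a, DifferentiableAt ℝ (fun q => B q a) p) {φ : VV → ℝ} (hφ : ∀ q ∈ OO S, ipp S q (A q) (B q) = φ q) (v : VV) :
    ipp S p (cov S.G S.Ph A p v) (B p) + ipp S p (A p) (cov S.G S.Ph B p v) = fderiv ℝ φ p v := by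
  rw [← ipp_D h hp hA hB v]
  have h1 : (fun q => ipp S q (A q) (B q)) =ᶠ[𝓝 p] φ := OO_ev_of h hp hφ
  rw [h1.fderiv_eq]

end H74X
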