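import Pool.Agent.Lib.H74X.B3
import Pool.Agent.Lib.H74X.B4A1
import Pool.Agent.Lib.H74X.GA

set_option autoImplicit false

/-!
# H74X, chunk B4A2 (S): smoothness

Auxiliary names start with `b4a2_`. 
-/

open MeasureTheory Filter Topology Set
open scoped ContDiff

namespace H74X

open H17T (E4 pt pos)

open H17W (ip vel cov riem Ric scal MetAt Cyl NFrame)

open Pool.Agent.Lib.PenroseSph (E3 S2 sm)

variable {S : Dat} {p : VV} {e : ℝ}

/-- The fields are differentiable. -/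
theorem LL_diff (h : Ok S) (hp : p ∈ OO S) (e : ℝ) (a : Fin 4) : DifferentiableAt ℝ (fun q => LL S e q a) p :=
  (LL_smooth h hp e a).differentiableAt (by norm_num)

theorem XX_diff (h : Ok S) (hp : p ∈ OO S) (i : Fin 3) (a : Fin 4) : DifferentiableAt ℝ (fun q => XX S i q a) p :=
  (XX_smooth h hp i a).differentiableAt (by norm_num)

/-- The covariant derivatives of smooth fields are smooth (`H17W.cov_smooth`, `a2_cov_at`; for `DL` the direction is variable: the
component `a` of `DL S e A q` is `fderiv ℝ (fun y => A y a) q (ell S e q) + ..`). -/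
theorem DX_smooth (h : Ok S) (hp : p ∈ OO S) (i : Fin 3) {A : VV → Fin 4 → ℝ} (hA : ∀ a, ContDiffAt ℝ ∞ (fun q => A q a) p)
    (a : Fin 4) : ContDiffAt ℝ ∞ (fun q => DX S i A q a) p :=
  H17W.a2_cov_at (h.met p hp) (h.smooth p hp) hA (dY i) a

theorem DL_smooth (h : Ok S) (hp : p ∈ OO S) (e : ℝ) {A : VV → Fin 4 → ℝ} (hA : ∀ a, ContDiffAt ℝ ∞ (fun q => A q a) p)
    (a : Fin 4) : ContDiffAt ℝ ∞ (fun q => DL S e A q a) p := by
  have h1 : ContDiffAt ℝ ∞ (fun q => fderiv ℝ (fun y => A y a) q (ell S e q)) p :=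
    ((hA a).fderiv_right (m := ∞) (by norm_cast)).clm_apply (ell_smooth h hp e)
  have h2 : ContDiffAt ℝ ∞ (fun q => ∑ i, ∑ j, H31R.chr S.G a i j (S.Ph q) * LL S e q i * A q j) p := by
    refine ContDiffAt.sum fun i _ => ContDiffAt.sum fun j _ => ?_
    refine ((?_ : ContDiffAt ℝ ∞ (fun z => H31R.chr S.G a i j (S.Ph z)) p).mul (LL_smooth h hp e i)).mul (hA j)
    exact (H17W.a1_chr_at (h.met p hp) a i j).comp p (h.smooth p hp)
  exact h1.add h2

theorem ipp_smooth (h : Ok S) (hp : p ∈ OO S) {A B : VV → Fin 4 → ℝ} (hA : ∀ a, ContDiffAt ℝ ∞ (fun q => A q a) p)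
    (hB : ∀ a, ContDiffAt ℝ ∞ (fun q => B q a) p) : ContDiffAt ℝ ∞ (fun q => ipp S q (A q) (B q)) p := by
  unfold ipp ip
  refine ContDiffAt.sum fun i _ => ContDiffAt.sum fun j _ => ?_
  refine ((?_ : ContDiffAt ℝ ∞ (fun z => S.G (S.Ph z) i j) p).mul (hA i)).mul (hB j)
  exact ((h.met p hp).smooth.self_of_nhds i j).comp p (h.smooth p hp)

theorem chi_smooth (h : Ok S) (hp : p ∈ OO S) (e : ℝ) (i j : Fin 3) : ContDiffAt ℝ ∞ (chi S e i j) p :=
  ipp_smooth h hp (A := DX S i (LL S e)) (B := XX S j) (DX_smooth h hp i (LL_smooth h hp e)) (XX_smooth h hp j)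

theorem eta_smooth (h : Ok S) (hp : p ∈ OO S) (e : ℝ) (i : Fin 3) : ContDiffAt ℝ ∞ (eta S e i) p :=
  ipp_smooth h hp (A := DX S i (LL S e)) (B := LL S (-e)) (DX_smooth h hp i (LL_smooth h hp e)) (LL_smooth h hp (-e))

theorem exl_smooth (h : Ok S) (hp : p ∈ OO S) (e : ℝ) : ContDiffAt ℝ ∞ (exl S e) p :=
  ContDiffAt.sum fun i _ => ContDiffAt.sum fun j _ => (QQ_smooth h hp i j).mul (chi_smooth h hp e i j)

end H74X
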