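import Pool.Agent.Lib.H74X.B4A

set_option autoImplicit false

/-!
# H74X, chunk B4B1 (S/M): chi, eta

Auxiliary names start with `b4b1_`. All from `ipp_D_of` with `ipL`, `ipLX`, `ipX`.
-/

open MeasureTheory Filter Topology Set
open scoped ContDiff

namespace H74X

open H17T (E4 pt pos)

open H17W (ip vel cov riem Ric scal MetAt Cyl NFrame)

open Pool.Agent.Lib.PenroseSph (E3 S2 sm)

variable {S : Dat} {p : VV} {e : ℝ}

/-- `2 <D_v L_e, L_e> = ∂_v <L_e, L_e> = 0` for `e² = 1`. -/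
theorem ip_DL_same (h : Ok S) (hp : p ∈ OO S) (he : e * e = 1) (v : VV) :
    ipp S p (cov S.G S.Ph (LL S e) p v) (LL S e p) = 0 := by
  have h1 := ipp_D_of h hp (A := LL S e) (B := LL S e) (φ := fun _ => 0) (LL_diff h hp e) (LL_diff h hp e)
    (fun q hq => by rw [h.ipL q hq e e, he, sub_self, mul_zero, zero_div]) v
  rw [ipp_symm h hp (LL S e p)] at h1
  have h2 : fderiv ℝ (fun _ : VV => (0 : ℝ)) p v = 0 := by simp
  rw [h2] at h1
  linarith

/-- `<D_v L_e, L_{-e}> + <L_e, D_v L_{-e}> = ∂_v F / 2`. -/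
theorem ip_DL_sum (h : Ok S) (hp : p ∈ OO S) (he : e * e = 1) (v : VV) :
    ipp S p (cov S.G S.Ph (LL S e) p v) (LL S (-e) p) + ipp S p (LL S e p) (cov S.G S.Ph (LL S (-e)) p v) =
      fderiv ℝ S.F p v / 2 := by
  have h1 := ipp_D_of h hp (A := LL S e) (B := LL S (-e)) (φ := fun q => 1 / 2 * S.F q) (LL_diff h hp e) (LL_diff h hp (-e))
    (fun q hq => by
      rw [h.ipL q hq e (-e), mul_neg, he]
      ring) v
  rw [h1, fderiv_const_mul ((h.F_smooth p hp).differentiableAt (by norm_num))]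
  change 1 / 2 * fderiv ℝ S.F p v = _
  ring

/-- `<D_v L_e, X_j> = - <L_e, D_v X_j>`. -/
theorem ip_DL_X (h : Ok S) (hp : p ∈ OO S) (e : ℝ) (v : VV) (j : Fin 3) :
    ipp S p (cov S.G S.Ph (LL S e) p v) (XX S j p) = -ipp S p (LL S e p) (cov S.G S.Ph (XX S j) p v) := by
  have h1 := ipp_D_of h hp (A := LL S e) (B := XX S j) (φ := fun _ => 0) (LL_diff h hp e) (XX_diff h hp j)
    (fun q hq => h.ipLX q hq e j) v
  have h2 : fderiv ℝ (fun _ : VV => (0 : ℝ)) p v = 0 := by simp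
  rw [h2] at h1
  linarith

theorem chi_eq (h : Ok S) (hp : p ∈ OO S) (e : ℝ) (i j : Fin 3) :
    chi S e i j p = -ipp S p (LL S e p) (DX S i (XX S j) p) := ip_DL_X h hp e (dY i) j

/-- `DX_symm`. -/
theorem chi_symm (h : Ok S) (hp : p ∈ OO S) (e : ℝ) (i j : Fin 3) : chi S e i j p = chi S e j i p := by
  rw [chi_eq h hp, chi_eq h hp, DX_symm h hp i j]

/-- `XX_rad`. -/
theorem chi_rad (h : Ok S) (hp : p ∈ OO S) (e : ℝ) (i : Fin 3) : ∑ j, chi S e i j p * p.2.2 j = 0 := by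
  have h1 : ∑ j, chi S e i j p * p.2.2 j = ipp S p (DX S i (LL S e) p) (∑ j, p.2.2 j • XX S j p) := by
    rw [ipp_sum_right]
    exact Finset.sum_congr rfl fun j _ => mul_comm _ _
  have h2 : ∑ j, p.2.2 j • XX S j p = 0 := by
    funext a
    rw [Finset.sum_apply]
    exact XX_rad h hp a
  rw [h1, h2, b3_zero_right]

/-- `η_e + η_{-e} = ∂F / 2` (note `- -e = e`, `ipp_symm`). -/
theorem eta_sum (h : Ok S) (hp : p ∈ OO S) (he : e * e = 1) (i : Fin 3) :
    eta S e i p + eta S (-e) i p = fderiv ℝ S.F p (dY i) / 2 := by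
  rw [← ip_DL_sum h hp he (dY i)]
  unfold eta DX
  rw [neg_neg, ipp_symm h hp (cov S.G S.Ph (LL S (-e)) p (dY i))]

/-- `DX_rad` with `LL_hom`. -/
theorem eta_rad (h : Ok S) (hp : p ∈ OO S) (e : ℝ) : ∑ i, eta S e i p * p.2.2 i = 0 := by
  have h1 : ∑ i, eta S e i p * p.2.2 i = ipp S p (∑ i, p.2.2 i • DX S i (LL S e) p) (LL S (-e) p) := by
    rw [ipp_sum_left]
    exact Finset.sum_congr rfl fun j _ => mul_comm _ _
  rw [h1, DX_rad h hp (LL_diff h hp e) (fun c hc => LL_hom h hp hc e), b3_zero_left]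

end H74X
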