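import Pool.Agent.Lib.H74X.B4A
import Pool.Agent.Lib.H74X.B4B1

set_option autoImplicit false

/-!
# H74X, chunk B4B2 (M): derivatives of L

Auxiliary names start with `b4b2_`. All from `ipp_D_of` with `ipL`, `ipLX`, `ipX`.
-/

open MeasureTheory Filter Topology Set
open scoped ContDiff

namespace H74X

open H17T (E4 pt pos)

open H17W (ip vel cov riem Ric scal MetAt Cyl NFrame)

open Pool.Agent.Lib.PenroseSph (E3 S2 sm)

variable {S : Dat} {p : VV} {e : ℝ}

theorem b4b2_he (he : e * e = 1) : -e * -e = 1 := by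
  rw [neg_mul_neg, he]

/-- `<L_e, L_e> = 0`. -/
theorem b4b2_LL (h : Ok S) (hp : p ∈ OO S) (he : e * e = 1) : ipp S p (LL S e p) (LL S e p) = 0 := by
  rw [h.ipL p hp e e, he, sub_self, mul_zero, zero_div]

theorem b4b2_LLm (h : Ok S) (hp : p ∈ OO S) (he : e * e = 1) : ipp S p (LL S e p) (LL S (-e) p) = S.F p / 2 := by
  rw [h.ipL p hp e (-e), mul_neg, he]
  ring

/-- `<L_e', D_L X_i> = <L_e', D_i L>`. -/
theorem b4b2_DX (h : Ok S) (hp : p ∈ OO S) (e e' : ℝ) (i : Fin 3) :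
    ipp S p (LL S e' p) (DL S e (XX S i) p) = ipp S p (LL S e' p) (DX S i (LL S e) p) := by
  rw [DL_XX h hp e i, ipp_sub_right, ipp_sum_right]
  have h1 : ∑ m, dal S e i m p * ipp S p (LL S e' p) (XX S m p) = 0 :=
    Finset.sum_eq_zero fun m _ => by rw [h.ipLX p hp e' m, mul_zero]
  rw [h1, sub_zero]

/-- `<L, D_L L_{-e}> = 0`. -/
theorem b4b2_zero (h : Ok S) (hp : p ∈ OO S) (he : e * e = 1) :
    ipp S p (LL S e p) (DL S e (LL S (-e)) p) = 0 := by
  obtain ⟨τ, hτ⟩ := DL_comm h hp e (-e)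
  have h1 : DL S e (LL S (-e)) p = DL S (-e) (LL S e) p + ∑ m, τ m • XX S m p := by
    rw [← hτ]
    abel
  have h2 : ipp S p (LL S e p) (DL S (-e) (LL S e) p) = 0 := by
    rw [ipp_symm h hp]
    exact ip_DL_same h hp he _
  rw [h1, ipp_add_right, ipp_sum_right, h2, zero_add]
  exact Finset.sum_eq_zero fun m _ => by rw [h.ipLX p hp e m, mul_zero]

/-- `D_L L = (LF / F) L`: `ext_e` with `<D_L L, L> = 0`; `<D_L L, X_i> = - <L, D_L X_i> = 0` (`DL_XX`, `<L, D_i L> = 0`, `<L, X_m> = 0`);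
`<D_L L, L_{-e}> = ∂_L F / 2 - <L, D_L L_{-e}>` (`ip_DL_sum`) and `<L, D_L L_{-e}> = <L, D_{L_{-e}} L> + 0 = 0` (`DL_comm`). -/
theorem DL_LL (h : Ok S) (hp : p ∈ OO S) (he : e * e = 1) :
    DL S e (LL S e) p = (ld S e S.F p / S.F p) • LL S e p := by
  have hF : S.F p ≠ 0 := (h.F_pos p hp).ne'
  refine ext_e h hp he (fun i => ?_) ?_ ?_
  · have h1 : ipp S p (DL S e (LL S e) p) (XX S i p) = -ipp S p (LL S e p) (DL S e (XX S i) p) :=
      ip_DL_X h hp e (ell S e p) i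
    have h2 : ipp S p (LL S e p) (DX S i (LL S e) p) = 0 := by
      rw [ipp_symm h hp]
      exact ip_DL_same h hp he _
    rw [h1, b4b2_DX h hp, h2, ipp_smul_left, h.ipLX p hp e i]
    ring
  · have h1 : ipp S p (DL S e (LL S e) p) (LL S e p) = 0 := ip_DL_same h hp he _
    rw [h1, ipp_smul_left, b4b2_LL h hp he, mul_zero]
  · have h1 : ipp S p (DL S e (LL S e) p) (LL S (-e) p) + ipp S p (LL S e p) (DL S e (LL S (-e)) p) =
        ld S e S.F p / 2 := ip_DL_sum h hp he (ell S e p)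
    rw [b4b2_zero h hp he, add_zero] at h1
    rw [h1, ipp_smul_left, b4b2_LLm h hp he]
    field_simp

/-- `D_L L_{-e} = - η^a X_a`: `<D_L L_{-e}, X_i> = - <L_{-e}, D_L X_i> = - <L_{-e}, D_i L> = - η_i`, `<D_L L_{-e}, L_{-e}> = 0`,
`<D_L L_{-e}, L> = 0` (as in `DL_LL`). -/
theorem DL_LLm (h : Ok S) (hp : p ∈ OO S) (he : e * e = 1) :
    DL S e (LL S (-e)) p = -∑ a, (∑ b, QQ S a b p * eta S e b p) • XX S a p := by
  have hneg : ∀ b : Fin 4 → ℝ, ipp S p (-∑ a, (∑ b, QQ S a b p * eta S e b p) • XX S a p) b =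
      -∑ a, (∑ b, QQ S a b p * eta S e b p) * ipp S p (XX S a p) b := by
    intro b
    have h1 : -∑ a, (∑ b, QQ S a b p * eta S e b p) • XX S a p =
        (-1 : ℝ) • ∑ a, (∑ b, QQ S a b p * eta S e b p) • XX S a p := by
      rw [neg_smul, one_smul]
    rw [h1, ipp_smul_left, ipp_sum_left]
    ring
  have hXL : ∀ e' : ℝ, ∀ a, ipp S p (XX S a p) (LL S e' p) = 0 := fun e' a => by
    rw [ipp_symm h hp, h.ipLX p hp e' a]
  refine ext_e h hp he (fun i => ?_) ?_ ?_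
  · have h1 : ipp S p (DL S e (LL S (-e)) p) (XX S i p) = -ipp S p (LL S (-e) p) (DL S e (XX S i) p) :=
      ip_DL_X h hp (-e) (ell S e p) i
    have h2 : ipp S p (LL S (-e) p) (DX S i (LL S e) p) = eta S e i p := ipp_symm h hp _ _
    have h3 := hQ_apply h hp (v := fun b => eta S e b p) (eta_rad h hp e) i
    rw [h1, b4b2_DX h hp, h2, hneg, ← h3]
    congr 1
    refine Finset.sum_congr rfl fun a _ => ?_
    rw [h.ipX p hp a i]
  · have h1 : ipp S p (DL S e (LL S (-e)) p) (LL S e p) = 0 := by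
      rw [ipp_symm h hp]
      exact b4b2_zero h hp he
    rw [h1, hneg]
    simp [hXL]
  · have h1 : ipp S p (DL S e (LL S (-e)) p) (LL S (-e) p) = 0 := ip_DL_same h hp (b4b2_he he) _
    rw [h1, hneg]
    simp [hXL]

/-- `D_i L = χ_i^a X_a + (2/F) η_i L` (`expand_e`). -/
theorem DX_LL (h : Ok S) (hp : p ∈ OO S) (he : e * e = 1) (i : Fin 3) :
    DX S i (LL S e) p = (∑ a, (∑ b, QQ S a b p * chi S e i b p) • XX S a p) + (2 / S.F p * eta S e i p) • LL S e p := by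
  have h1 := expand_e h hp he (DX S i (LL S e) p)
  have h2 : ipp S p (DX S i (LL S e) p) (LL S e p) = 0 := ip_DL_same h hp he _
  rw [h2, mul_zero, zero_smul, add_zero] at h1
  exact h1

/-- `DX_LL`, `<X_a, D_j L> = χ_ja`, `<L, D_j L> = 0`. -/
theorem ip_LL (h : Ok S) (hp : p ∈ OO S) (he : e * e = 1) (i j : Fin 3) :
    ipp S p (DX S i (LL S e) p) (DX S j (LL S e) p) = ∑ a, ∑ b, QQ S a b p * chi S e i a p * chi S e j b p := by
  have h2 : ipp S p (LL S e p) (DX S j (LL S e) p) = 0 := by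
    rw [ipp_symm h hp]
    exact ip_DL_same h hp he _
  have h3 : ∀ a, ipp S p (XX S a p) (DX S j (LL S e) p) = chi S e j a p := fun a => ipp_symm h hp _ _
  conv_lhs => rw [DX_LL h hp he i]
  rw [ipp_add_left, ipp_sum_left, ipp_smul_left, h2, mul_zero, add_zero]
  simp only [h3, Finset.sum_mul]
  rw [Finset.sum_comm]
  refine Finset.sum_congr rfl fun a _ => Finset.sum_congr rfl fun b _ => ?_
  rw [QQ_symm h hp b a]

/-- `DX_LL` for `L_{-e}` (`- -e = e`), `<X_a, D_j L> = χ_ja`, `<L_{-e}, D_j L> = η_j`. -/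
theorem ip_LmL (h : Ok S) (hp : p ∈ OO S) (he : e * e = 1) (i j : Fin 3) :
    ipp S p (DX S i (LL S (-e)) p) (DX S j (LL S e) p) =
      (∑ a, ∑ b, QQ S a b p * chi S (-e) i a p * chi S e j b p) + 2 / S.F p * (eta S (-e) i p * eta S e j p) := by
  have h2 : ipp S p (LL S (-e) p) (DX S j (LL S e) p) = eta S e j p := ipp_symm h hp _ _
  have h3 : ∀ a, ipp S p (XX S a p) (DX S j (LL S e) p) = chi S e j a p := fun a => ipp_symm h hp _ _
  rw [DX_LL h hp (b4b2_he he) i, ipp_add_left, ipp_sum_left, ipp_smul_left, h2]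
  congr 1
  · simp only [h3, Finset.sum_mul]
    rw [Finset.sum_comm]
    refine Finset.sum_congr rfl fun a _ => Finset.sum_congr rfl fun b _ => ?_
    rw [QQ_symm h hp b a]
  · ring

end H74X
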