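import Pool.Agent.Lib.H17W.B3E
import Pool.Agent.Lib.H74X.B4B

set_option autoImplicit false

/-!
# H74X, chunk B5A (M): derivatives of h, Q in the leaf

Auxiliary names start with `b5a_`. Template: `H17W/B3F.lean` (`hh_di`, `QQ_di`, `cc_contract`, `ip_DXX`, `DXX`) and `H17W/B3E.lean`
(`cyl_chr_rad`, `cyl_chr_up`, `b3e_div`).
-/

open MeasureTheory Filter Topology Set
open scoped ContDiff

namespace H74X

open H17T (E4 pt pos)

open H17W (ip vel cov riem Ric scal MetAt Cyl NFrame)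

open Pool.Agent.Lib.PenroseSph (E3 S2 sm)

variable {S : Dat} {p : VV} {e : ℝ}

theorem b5a_pd {A B C : E3 → ℝ} {x : E3} (hA : DifferentiableAt ℝ A x) (hB : DifferentiableAt ℝ B x)
    (hC : DifferentiableAt ℝ C x) (c : ℝ) (i : Fin 3) : H31R.pd i (fun y => c * (A y - B y * C y)) x =
      c * (H31R.pd i A x - (H31R.pd i B x * C x + B x * H31R.pd i C x)) := by
  have h1 : HasFDerivAt (fun y => c * (A y - B y * C y)) _ x :=
    (hA.hasFDerivAt.sub (hB.hasFDerivAt.mul hC.hasFDerivAt)).const_mul c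
  unfold H31R.pd
  rw [h1.fderiv]
  change c * (fderiv ℝ A x (H31R.ebas i) - (B x * fderiv ℝ C x (H31R.ebas i) + C x * fderiv ℝ B x (H31R.ebas i))) = _
  ring

/-- Derivatives of `h` within the leaf: `h = r² (P - ν ν)`, `ν = y/|y|²`, `r` constant on the leaf; `∂_i P_jl = Σ_m (cc^m_ij P_ml + cc^m_il P_jm)`
(`H17W.compat` for the metric `P(T, ρ, ·)`, `H17W.Cyl.metAt`), `∂_i ν_j = Σ_m cc^m_ij ν_m` (`cyl_chr_up`, `b3e_div`: `ν` is parallel). -/
theorem hh_di (h : Ok S) (hp : p ∈ OO S) (i j l : Fin 3) :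
    fderiv ℝ (hh S j l) p (dY i) = ∑ m, (cc S m i j p * hh S m l p + cc S m i l p * hh S j m p) := by
  have hC := h.P_cyl (p.1, p.2.1) hp.1
  have hx : p.2.2 ≠ 0 := hp.2
  have hn : ‖p.2.2‖ ≠ 0 := norm_ne_zero_iff.2 hx
  have hd : DifferentiableAt ℝ (hh S j l) p := (hh_smooth h hp j l).differentiableAt (by norm_num)
  have e0 : (fun y => hh S j l (p.1, p.2.1, y)) =ᶠ[𝓝 p.2.2] fun y => rr S p ^ 2 *
      ((fun y => S.P (p.1, p.2.1, y) j l) y - (fun y : E3 => y j / ‖y‖ ^ 2) y * (fun y : E3 => y l / ‖y‖ ^ 2) y) := by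
    filter_upwards [H17W.b3e_ne hx] with y hy
    have h1 : ‖y‖ ≠ 0 := norm_ne_zero_iff.2 hy
    change rr S p ^ 2 * (S.P (p.1, p.2.1, y) j l - y j * y l / ‖y‖ ^ 4) =
      rr S p ^ 2 * (S.P (p.1, p.2.1, y) j l - y j / ‖y‖ ^ 2 * (y l / ‖y‖ ^ 2))
    congr 2
    field_simp
  have e1 := H17W.compat (H17W.cyl_metAt hC hx) j l i
  have e2 := H17W.cyl_chr_up hC hx i j
  have e3 := H17W.cyl_chr_up hC hx i l
  rw [← pd_y hd i, H17W.b3e_pd_congr e0 i, b5a_pd (H17W.b3e_diff hC hx j l) (H17W.b3e_div_diff hx j)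
    (H17W.b3e_div_diff hx l), e1, H17W.b3e_div hx, H17W.b3e_div hx]
  have e4 : ∑ m, (cc S m i j p * hh S m l p + cc S m i l p * hh S j m p) =
      rr S p ^ 2 * ((∑ m, (S.P p m l * H31R.chr (fun y => S.P (p.1, p.2.1, y)) m i j p.2.2 +
        S.P p j m * H31R.chr (fun y => S.P (p.1, p.2.1, y)) m i l p.2.2)) -
        (∑ m, H31R.chr (fun y => S.P (p.1, p.2.1, y)) m i j p.2.2 * p.2.2 m) * (p.2.2 l / ‖p.2.2‖ ^ 4) -
        (∑ m, H31R.chr (fun y => S.P (p.1, p.2.1, y)) m i l p.2.2 * p.2.2 m) * (p.2.2 j / ‖p.2.2‖ ^ 4)) := by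
    rw [Finset.sum_mul, Finset.sum_mul, ← Finset.sum_sub_distrib, ← Finset.sum_sub_distrib, Finset.mul_sum]
    refine Finset.sum_congr rfl fun m _ => ?_
    unfold hh cc
    ring
  rw [e4, e2, e3]
  change rr S p ^ 2 * ((∑ m, (S.P p m l * H31R.chr (fun y => S.P (p.1, p.2.1, y)) m i j p.2.2 +
        S.P p j m * H31R.chr (fun y => S.P (p.1, p.2.1, y)) m i l p.2.2)) - _) = _
  field_simp
  ring

/-- Derivatives of `Q`: the connection is metric (`Q = (P⁻¹ - y y)/r²`, `H17W.Cyl.inv_chr`, `cyl_chr_rad`). -/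
theorem QQ_di (h : Ok S) (hp : p ∈ OO S) (i j l : Fin 3) :
    fderiv ℝ (QQ S j l) p (dY i) = -∑ m, (cc S j i m p * QQ S m l p + cc S l i m p * QQ S j m p) := by
  have hC := h.P_cyl (p.1, p.2.1) hp.1
  have hx : p.2.2 ≠ 0 := hp.2
  have hd : DifferentiableAt ℝ (QQ S j l) p := (QQ_smooth h hp j l).differentiableAt (by norm_num)
  have e0 : (fun y => QQ S j l (p.1, p.2.1, y)) = fun y => (rr S p ^ 2)⁻¹ *
      ((fun y => (S.P (p.1, p.2.1, y))⁻¹ j l) y - (fun y : E3 => y j) y * (fun y : E3 => y l) y) := by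
    funext y
    change ((S.P (p.1, p.2.1, y))⁻¹ j l - y j * y l) / rr S p ^ 2 =
      (rr S p ^ 2)⁻¹ * ((S.P (p.1, p.2.1, y))⁻¹ j l - y j * y l)
    rw [div_eq_inv_mul]
  have hinv : DifferentiableAt ℝ (fun y => (S.P (p.1, p.2.1, y))⁻¹ j l) p.2.2 :=
    (H17W.a1_inv_at (H17W.cyl_metAt hC hx) j l).differentiableAt (by norm_num)
  have e1 := hC.inv_chr hx i j l
  have e2 := H17W.cyl_chr_rad hC hx j i
  have e3 := H17W.cyl_chr_rad hC hx l i
  rw [← pd_y hd i, e0, b5a_pd hinv (H17W.b3e_coord p.2.2 j) (H17W.b3e_coord p.2.2 l), e1,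
    H17W.b3e_pd_coord, H17W.b3e_pd_coord]
  have e4 : -∑ m, (cc S j i m p * QQ S m l p + cc S l i m p * QQ S j m p) =
      (rr S p ^ 2)⁻¹ * (-(∑ m, (H31R.chr (fun y => S.P (p.1, p.2.1, y)) j i m p.2.2 * (S.P p)⁻¹ m l +
        H31R.chr (fun y => S.P (p.1, p.2.1, y)) l i m p.2.2 * (S.P p)⁻¹ j m)) +
        (∑ m, H31R.chr (fun y => S.P (p.1, p.2.1, y)) j i m p.2.2 * p.2.2 m) * p.2.2 l +
        (∑ m, H31R.chr (fun y => S.P (p.1, p.2.1, y)) l i m p.2.2 * p.2.2 m) * p.2.2 j) := by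
    rw [Finset.sum_mul, Finset.sum_mul, ← Finset.sum_neg_distrib, ← Finset.sum_neg_distrib, ← Finset.sum_add_distrib,
      ← Finset.sum_add_distrib, Finset.mul_sum]
    refine Finset.sum_congr rfl fun m _ => ?_
    unfold QQ cc
    ring
  rw [e4, e2, e3]
  have hc1 : (if i = j then (1 : ℝ) else 0) = if j = i then 1 else 0 := by simp only [eq_comm]
  have hc2 : (if i = l then (1 : ℝ) else 0) = if l = i then 1 else 0 := by simp only [eq_comm]
  rw [hc1, hc2]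
  ring

end H74X
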