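import Pool.Agent.Lib.H17W.B3E
import Pool.Agent.Lib.H74X.B4B
import Pool.Agent.Lib.H74X.B5A

set_option autoImplicit false

/-!
# H74X, chunk B5B (M): D_i X_j

Auxiliary names start with `b5b_`. Template: `H17W/B3F.lean` (`hh_di`, `QQ_di`, `cc_contract`, `ip_DXX`, `DXX`) and `H17W/B3E.lean`
(`cyl_chr_rad`, `cyl_chr_up`, `b3e_div`).
-/

open MeasureTheory Filter Topology Set
open scoped ContDiff

namespace H74X

open H17T (E4 pt pos)

open H17W (ip vel cov riem Ric scal MetAt Cyl NFrame)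

open Pool.Agent.Lib.PenroseSph (E3 S2 sm)

variable {S : Dat} {p : VV} {e : ℝ}

/-- `<D_i X_j, X_l>`: by `ipp_D_of` for `<X_j, X_l> = h_jl` (three times) and `DX_symm` it is
`(∂_i h_jl + ∂_j h_il - ∂_l h_ij) / 2`, then `hh_di`, `cc_symm`, `hh_symm`. -/
theorem ip_DXX (h : Ok S) (hp : p ∈ OO S) (i j l : Fin 3) :
    ipp S p (DX S i (XX S j) p) (XX S l p) = ∑ m, cc S m i j p * hh S m l p := by
  have key : ∀ i j l : Fin 3, ipp S p (DX S i (XX S j) p) (XX S l p) + ipp S p (DX S i (XX S l) p) (XX S j p) =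
      (∑ m, cc S m i j p * hh S m l p) + ∑ m, cc S m i l p * hh S m j p := by
    intro i j l
    have h1 := ipp_D_of h hp (A := XX S j) (B := XX S l) (φ := hh S j l) (XX_diff h hp j) (XX_diff h hp l)
      (fun q hq => h.ipX q hq j l) (dY i)
    rw [ipp_symm h hp (XX S j p), hh_di h hp i j l, Finset.sum_add_distrib] at h1
    have h2 : ∑ m, cc S m i l p * hh S j m p = ∑ m, cc S m i l p * hh S m j p :=
      Finset.sum_congr rfl fun m _ => by rw [hh_symm h hp j m]
    rw [h2] at h1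
    exact h1
  have sc : ∀ i j l : Fin 3, ∑ m, cc S m i j p * hh S m l p = ∑ m, cc S m j i p * hh S m l p := fun i j l =>
    Finset.sum_congr rfl fun m _ => by rw [cc_symm h hp m i j]
  have k1 := key i j l
  have k2 := key j i l
  have k3 := key l i j
  rw [DX_symm h hp j i, sc j i l] at k2
  rw [DX_symm h hp l i, DX_symm h hp l j, sc l i j, sc l j i] at k3
  linarith

/-- `D_i X_j = cc^m_ij X_m - (2/F) (χ^{-e}_ij L_e + χ^e_ij L_{-e})`: `ext_e`; the sum `Σ_m cc^m_ij X_m` has the scalar products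
`Σ_m cc^m_ij h_ml` with `X_l` and `0` with `L_e`, `L_{-e}`; `chi_eq`; `<L_e, L_{-e}> = F/2`. -/
theorem DXX (h : Ok S) (hp : p ∈ OO S) (he : e * e = 1) (i j : Fin 3) :
    DX S i (XX S j) p = (∑ m, cc S m i j p • XX S m p) -
      (2 / S.F p) • (chi S (-e) i j p • LL S e p + chi S e i j p • LL S (-e) p) := by
  have hF : S.F p ≠ 0 := (h.F_pos p hp).ne'
  have he' : -e * -e = 1 := b4b2_he he
  have hXL : ∀ e' : ℝ, ∀ a, ipp S p (XX S a p) (LL S e' p) = 0 := fun e' a => by
    rw [ipp_symm h hp, h.ipLX p hp e' a]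
  have hs : ∀ b : Fin 4 → ℝ, ipp S p ((∑ m, cc S m i j p • XX S m p) -
      (2 / S.F p) • (chi S (-e) i j p • LL S e p + chi S e i j p • LL S (-e) p)) b =
      (∑ m, cc S m i j p * ipp S p (XX S m p) b) - 2 / S.F p * (chi S (-e) i j p * ipp S p (LL S e p) b +
        chi S e i j p * ipp S p (LL S (-e) p) b) := by
    intro b
    rw [ipp_sub_left, ipp_sum_left, ipp_smul_left, ipp_add_left, ipp_smul_left, ipp_smul_left]
  refine ext_e h hp he (fun l => ?_) ?_ ?_
  · rw [hs, ip_DXX h hp i j l, h.ipLX p hp e l, h.ipLX p hp (-e) l]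
    simp only [h.ipX p hp]
    ring
  · have h1 : ipp S p (DX S i (XX S j) p) (LL S e p) = -chi S e i j p := by
      rw [chi_eq h hp, ipp_symm h hp, neg_neg]
    have h2 : ipp S p (LL S (-e) p) (LL S e p) = S.F p / 2 := by
      rw [ipp_symm h hp, b4b2_LLm h hp he]
    rw [hs, h1, h2, b4b2_LL h hp he]
    simp only [hXL, mul_zero, Finset.sum_const_zero]
    field_simp
    ring
  · have h1 : ipp S p (DX S i (XX S j) p) (LL S (-e) p) = -chi S (-e) i j p := by
      rw [chi_eq h hp, ipp_symm h hp, neg_neg]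
    rw [hs, h1, b4b2_LLm h hp he, b4b2_LL h hp he']
    simp only [hXL, mul_zero, Finset.sum_const_zero]
    field_simp
    ring

/-- Contraction of the Christoffel symbols with a covector which vanishes on `y`: the tangential part of `cc`. -/
theorem cc_contract (h : Ok S) (hp : p ∈ OO S) {v : Fin 3 → ℝ} (hv : ∑ i, v i * p.2.2 i = 0) (i j : Fin 3) :
    ∑ a, ∑ m, (∑ b, QQ S a b p * v b) * (cc S m i j p * hh S m a p) = ∑ m, cc S m i j p * v m := by
  rw [Finset.sum_comm]
  refine Finset.sum_congr rfl fun m _ => ?_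
  rw [← hQ_apply h hp hv m, Finset.mul_sum]
  refine Finset.sum_congr rfl fun a _ => ?_
  rw [hh_symm h hp m a]
  ring

end H74X
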