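import Pool.Agent.Lib.H17W.B3D
import Pool.Agent.Lib.H74X.B4B

set_option autoImplicit false

/-!
# H74X, chunk B6A1 (M): L h, L Q, trace of the Lie derivative

Auxiliary names start with `b6a1_`. The direction `ell S e p` has the `y`-component `α = e u + w`, so `y` is not constant along `L`:
`ld S e (fun q => q.2.2 i) p = α_i`, `Σ y_i α_i = 0`.
-/

open MeasureTheory Filter Topology Set
open scoped ContDiff

namespace H74X

open H17T (E4 pt pos)

open H17W (ip vel cov riem Ric scal MetAt Cyl NFrame)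

open Pool.Agent.Lib.PenroseSph (E3 S2 sm)

variable {S : Dat} {p : VV} {e : ℝ}

/-- `L h_ij = 2 χ_ij - Σ_m (∂_i α^m h_mj + ∂_j α^m h_mi)` (`ipp_D_of` with `ipX` and `v = ell S e p`, `DL_XX`, `chi_symm`). -/
theorem hh_ld (h : Ok S) (hp : p ∈ OO S) (e : ℝ) (i j : Fin 3) :
    ld S e (hh S i j) p = 2 * chi S e i j p - ∑ m, (dal S e i m p * hh S m j p + dal S e j m p * hh S m i p) := by
  have h1 := ipp_D_of h hp (A := XX S i) (B := XX S j) (φ := hh S i j) (XX_diff h hp i) (XX_diff h hp j)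
    (fun q hq => h.ipX q hq i j) (ell S e p)
  have h2 : ipp S p (DL S e (XX S i) p) (XX S j p) = chi S e i j p - ∑ m, dal S e i m p * hh S m j p := by
    rw [DL_XX h hp e i, ipp_sub_left, ipp_sum_left]
    simp only [h.ipX p hp]
    rfl
  have h3 : ipp S p (XX S i p) (DL S e (XX S j) p) = chi S e i j p - ∑ m, dal S e j m p * hh S m i p := by
    rw [DL_XX h hp e j, ipp_sub_right, ipp_sum_right]
    simp only [h.ipX p hp]
    have h4 : ipp S p (XX S i p) (DX S j (LL S e) p) = chi S e i j p := by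
      rw [ipp_symm h hp, chi_symm h hp e i j]
      rfl
    rw [h4]
    congr 1
    exact Finset.sum_congr rfl fun m _ => by rw [hh_symm h hp i m]
  have h5 : ipp S p (DL S e (XX S i) p) (XX S j p) + ipp S p (XX S i p) (DL S e (XX S j) p) = ld S e (hh S i j) p := h1
  rw [← h5, h2, h3, Finset.sum_add_distrib]
  ring

/-- The algebra of `QQ_ld`. -/
theorem b6a1_mat (H Q H' Q' B X D : Matrix (Fin 3) (Fin 3) ℝ) (y ν α ν' : Fin 3 → ℝ)
    (hHQ : H * Q = 1 - Matrix.vecMulVec y ν) (hQH : Q * H = 1 - Matrix.vecMulVec ν y)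
    (hd : H' * Q + H * Q' = -(Matrix.vecMulVec α ν + Matrix.vecMulVec y ν'))
    (hH' : H' = 2 • X - (D * H + (D * H).transpose)) (hHt : H.transpose = H) (hBt : B.transpose = B)
    (hQt : Q.transpose = Q) (hBν : B.mulVec ν = 0) (hQy : Q.mulVec y = 0) :
    (Q' * B).trace = -(2 * (Q * X * Q * B).trace) + 2 * (Q * D * B).trace := by
  have hνB : Matrix.vecMul ν B = 0 := by
    rw [← Matrix.mulVec_transpose, hBt, hBν]
  have e1 : B * Q * H = B := by
    rw [Matrix.mul_assoc, hQH, Matrix.mul_sub, Matrix.mul_one, Matrix.mul_vecMulVec, hBν]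
    ext i j
    simp [Matrix.vecMulVec_apply]
  have z1 : ∀ (M : Matrix (Fin 3) (Fin 3) ℝ) (a : Fin 3 → ℝ), (B * M * Matrix.vecMulVec a ν).trace = 0 := by
    intro M a
    rw [Matrix.mul_assoc, Matrix.trace_mul_comm, Matrix.mul_assoc, Matrix.vecMulVec_mul, hνB]
    have : Matrix.vecMulVec a (0 : Fin 3 → ℝ) = 0 := by
      ext i j
      simp [Matrix.vecMulVec_apply]
    rw [this, Matrix.mul_zero, Matrix.trace_zero]
  have z2 : B * Q * Matrix.vecMulVec y ν' = 0 := by
    rw [Matrix.mul_assoc, Matrix.mul_vecMulVec, hQy]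
    have : Matrix.vecMulVec (0 : Fin 3 → ℝ) ν' = 0 := by
      ext i j
      simp [Matrix.vecMulVec_apply]
    rw [this, Matrix.mul_zero]
  have e2 : H * Q' = -(Matrix.vecMulVec α ν + Matrix.vecMulVec y ν') - H' * Q := by
    rw [← hd]
    abel
  have e3 : (Q' * B).trace = -(B * Q * H' * Q).trace := by
    calc (Q' * B).trace = (Q' * (B * Q * H)).trace := by rw [e1]
      _ = (B * Q * H * Q').trace := Matrix.trace_mul_comm _ _
      _ = (B * Q * (H * Q')).trace := by rw [Matrix.mul_assoc (B * Q)]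
      _ = -(B * Q * H' * Q).trace := by
        rw [e2, Matrix.mul_sub, Matrix.mul_neg, Matrix.mul_add, z2, add_zero, Matrix.trace_sub, Matrix.trace_neg, z1,
          neg_zero, zero_sub, ← Matrix.mul_assoc (B * Q)]
  have e4 : B * Q * H' * Q = 2 • (B * Q * X * Q) - (B * Q * D * (H * Q) + B * Q * H * D.transpose * Q) := by
    rw [hH', Matrix.transpose_mul, hHt]
    simp only [Matrix.mul_sub, Matrix.sub_mul, Matrix.mul_add, Matrix.add_mul, Matrix.mul_smul, Matrix.smul_mul,
      Matrix.mul_assoc]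
  have e5 : (B * Q * D * (H * Q)).trace = (Q * D * B).trace := by
    rw [hHQ, Matrix.mul_sub, Matrix.mul_one, Matrix.trace_sub, Matrix.mul_assoc B Q D, z1, sub_zero,
      Matrix.trace_mul_comm]
  have e6 : (B * Q * H * D.transpose * Q).trace = (Q * D * B).trace := by
    rw [e1, ← Matrix.trace_transpose, Matrix.transpose_mul, Matrix.transpose_mul, Matrix.transpose_transpose, hQt, hBt,
      Matrix.mul_assoc]
  have e7 : (B * Q * X * Q).trace = (Q * X * Q * B).trace := by
    rw [Matrix.mul_assoc B Q X, Matrix.mul_assoc B, Matrix.trace_mul_comm]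
  rw [e3, e4, Matrix.trace_sub, Matrix.trace_smul, Matrix.trace_add, e5, e6, e7]
  simp only [nsmul_eq_mul, Nat.cast_ofNat]
  ring

/-- The contraction of `L Q` with a symmetric form which vanishes on `y`. Proof. `h Q = 1 - y ν` (`hQ`, at all points of the domain; `ν = y/|y|²`),
so `(L h) Q + h (L Q) = - α ν - y (L ν)`. Multiply by `Q` from the left: `Q h = 1 - ν y`, `Q y = 0`, so
`L Q = - Q (L h) Q - (Q α) ν + ν (y (L Q))`, `y (L Q) = - α Q` (from `Q y = 0`), that is
`L Q^ij = - Q^ia (L h_ab) Q^bj - (Qα)_i ν_j - ν_i (Qα)_j`. The last two terms vanish against `B`. Insert `hh_ld` and `Σ_m h_mb Q^bj B_ij = B_im`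
(`hQ`, `B y = 0`). -/
theorem QQ_ld (h : Ok S) (hp : p ∈ OO S) (e : ℝ) {B : Fin 3 → Fin 3 → ℝ} (hB : ∀ i j, B i j = B j i)
    (hBy : ∀ i, ∑ j, B i j * p.2.2 j = 0) :
    ∑ i, ∑ j, ld S e (QQ S i j) p * B i j =
      -2 * (∑ i, ∑ j, ∑ a, ∑ b, QQ S i a p * QQ S j b p * chi S e i j p * B a b) +
        2 * ∑ i, ∑ j, ∑ m, QQ S i j p * dal S e i m p * B m j := by
  have hy0 : p.2.2 ≠ 0 := hp.2
  have hqd : ∀ i j, DifferentiableAt ℝ (QQ S i j) p := fun i j => (QQ_smooth h hp i j).differentiableAt (by norm_num)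
  have hhd : ∀ i j, DifferentiableAt ℝ (hh S i j) p := fun i j => (hh_smooth h hp i j).differentiableAt (by norm_num)
  have hyd : ∀ i, DifferentiableAt ℝ (fun q : VV => q.2.2 i) p := fun i => (sm_y i).differentiableAt (by norm_num)
  have hνd : ∀ j, DifferentiableAt ℝ (fun q : VV => q.2.2 j / ‖q.2.2‖ ^ 2) p := by
    intro j
    have h0 : ContDiffAt ℝ ∞ (fun q : VV => q.2.2) p := by fun_prop
    have h1 : ContDiffAt ℝ ∞ (fun q : VV => ‖q.2.2‖ ^ 2) p := (h0.norm ℝ hy0).pow 2
    exact ((sm_y j).div h1 (pow_ne_zero 2 (norm_ne_zero_iff.2 hy0))).differentiableAt (by norm_num)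
  have hder : ∀ i j, (∑ l, (ld S e (hh S i l) p * QQ S l j p + hh S i l p * ld S e (QQ S l j) p)) =
      -(fderiv ℝ (fun q : VV => q.2.2 i) p (ell S e p) * (p.2.2 j / ‖p.2.2‖ ^ 2) +
        p.2.2 i * fderiv ℝ (fun q : VV => q.2.2 j / ‖q.2.2‖ ^ 2) p (ell S e p)) := by
    intro i j
    have e1 : (fun q => ∑ l, hh S i l q * QQ S l j q) =ᶠ[𝓝 p] fun q : VV =>
        (if i = j then 1 else 0) - q.2.2 i * (q.2.2 j / ‖q.2.2‖ ^ 2) := by
      refine OO_ev_of h hp fun q hq => ?_
      change (∑ l, hh S i l q * QQ S l j q) = (if i = j then 1 else 0) - q.2.2 i * (q.2.2 j / ‖q.2.2‖ ^ 2)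
      rw [hQ h hq i j, mul_div_assoc]
    have e2 : HasFDerivAt (fun q => ∑ l, hh S i l q * QQ S l j q)
        (∑ l, (hh S i l p • fderiv ℝ (QQ S l j) p + QQ S l j p • fderiv ℝ (hh S i l) p)) p :=
      HasFDerivAt.fun_sum fun l _ => (hhd i l).hasFDerivAt.mul (hqd l j).hasFDerivAt
    have e3 : HasFDerivAt (fun q : VV => (if i = j then (1 : ℝ) else 0) - q.2.2 i * (q.2.2 j / ‖q.2.2‖ ^ 2)) _ p :=
      ((hyd i).hasFDerivAt.mul (hνd j).hasFDerivAt).const_sub _
    have e4 := (e2.congr_of_eventuallyEq e1.symm).unique e3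
    have e5 := congrArg (fun T : VV →L[ℝ] ℝ => T (ell S e p)) e4
    simp only [ContinuousLinearMap.sum_apply, ContinuousLinearMap.add_apply, ContinuousLinearMap.smul_apply,
      ContinuousLinearMap.neg_apply, smul_eq_mul] at e5
    have e6 : ∑ l, (ld S e (hh S i l) p * QQ S l j p + hh S i l p * ld S e (QQ S l j) p) =
        ∑ l, (hh S i l p * fderiv ℝ (QQ S l j) p (ell S e p) + QQ S l j p * fderiv ℝ (hh S i l) p (ell S e p)) := by
      refine Finset.sum_congr rfl fun l _ => ?_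
      unfold ld
      ring
    rw [e6, e5]
    ring
  have hmat := b6a1_mat (Matrix.of fun i j => hh S i j p) (Matrix.of fun i j => QQ S i j p)
    (Matrix.of fun i j => ld S e (hh S i j) p) (Matrix.of fun i j => ld S e (QQ S i j) p) (Matrix.of fun i j => B i j)
    (Matrix.of fun i j => chi S e i j p) (Matrix.of fun i j => dal S e i j p)
    (fun i => p.2.2 i) (fun i => p.2.2 i / ‖p.2.2‖ ^ 2) (fun i => fderiv ℝ (fun q : VV => q.2.2 i) p (ell S e p))
    (fun j => fderiv ℝ (fun q : VV => q.2.2 j / ‖q.2.2‖ ^ 2) p (ell S e p)) ?_ ?_ ?_ ?_ ?_ ?_ ?_ ?_ ?_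
  · have l1 : (Matrix.of (fun i j => ld S e (QQ S i j) p) * Matrix.of (fun i j => B i j)).trace =
        ∑ i, ∑ j, ld S e (QQ S i j) p * B i j := by
      simp only [Matrix.trace, Matrix.diag_apply, Matrix.mul_apply, Matrix.of_apply]
      exact Finset.sum_congr rfl fun i _ => Finset.sum_congr rfl fun j _ => by rw [hB j i]
    have l2 : (Matrix.of (fun i j => QQ S i j p) * Matrix.of (fun i j => chi S e i j p) * Matrix.of (fun i j => QQ S i j p) *
        Matrix.of (fun i j => B i j)).trace =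
        ∑ i, ∑ j, ∑ a, ∑ b, QQ S i a p * QQ S j b p * chi S e i j p * B a b := by
      simp only [Matrix.trace, Matrix.diag_apply, Matrix.mul_apply, Matrix.of_apply, Finset.sum_mul]
      calc ∑ a, ∑ b, ∑ j, ∑ i, QQ S a i p * chi S e i j p * QQ S j b p * B b a
          = ∑ a, ∑ b, ∑ i, ∑ j, QQ S i a p * QQ S j b p * chi S e i j p * B a b := by
            refine Finset.sum_congr rfl fun a _ => Finset.sum_congr rfl fun b _ => ?_
            rw [Finset.sum_comm]
            refine Finset.sum_congr rfl fun i _ => Finset.sum_congr rfl fun j _ => ?_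
            rw [QQ_symm h hp a i, hB b a]
            ring
        _ = ∑ i, ∑ j, ∑ a, ∑ b, QQ S i a p * QQ S j b p * chi S e i j p * B a b :=
            H17W.a6_swap (A := Fin 3) (B := Fin 3) fun a b i j => QQ S i a p * QQ S j b p * chi S e i j p * B a b
    have l3 : (Matrix.of (fun i j => QQ S i j p) * Matrix.of (fun i j => dal S e i j p) *
        Matrix.of (fun i j => B i j)).trace = ∑ i, ∑ j, ∑ m, QQ S i j p * dal S e i m p * B m j := by
      simp only [Matrix.trace, Matrix.diag_apply, Matrix.mul_apply, Matrix.of_apply, Finset.sum_mul]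
      calc ∑ j, ∑ m, ∑ i, QQ S j i p * dal S e i m p * B m j
          = ∑ j, ∑ i, ∑ m, QQ S i j p * dal S e i m p * B m j := by
            refine Finset.sum_congr rfl fun j _ => ?_
            rw [Finset.sum_comm]
            refine Finset.sum_congr rfl fun i _ => Finset.sum_congr rfl fun m _ => ?_
            rw [QQ_symm h hp j i]
        _ = _ := Finset.sum_comm
    rw [l1, l2, l3] at hmat
    rw [hmat]
    ring
  · ext i j
    rw [Matrix.mul_apply, Matrix.sub_apply, Matrix.one_apply, Matrix.vecMulVec_apply]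
    simp only [Matrix.of_apply]
    rw [hQ h hp i j, mul_div_assoc]
  · ext i j
    rw [Matrix.mul_apply, Matrix.sub_apply, Matrix.one_apply, Matrix.vecMulVec_apply]
    simp only [Matrix.of_apply]
    have e1 := hQ h hp j i
    have e2 : ∑ x, QQ S i x p * hh S x j p = ∑ l, hh S j l p * QQ S l i p :=
      Finset.sum_congr rfl fun l _ => by rw [QQ_symm h hp i l, hh_symm h hp l j, mul_comm]
    have hc1 : (if j = i then (1 : ℝ) else 0) = if i = j then 1 else 0 := by simp only [eq_comm]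
    rw [e2, e1, hc1]
    ring
  · ext i j
    rw [Matrix.add_apply, Matrix.mul_apply, Matrix.mul_apply, Matrix.neg_apply, Matrix.add_apply, Matrix.vecMulVec_apply,
      Matrix.vecMulVec_apply, ← Finset.sum_add_distrib]
    exact hder i j
  · ext i j
    rw [Matrix.sub_apply, Matrix.smul_apply, Matrix.add_apply, Matrix.transpose_apply, Matrix.mul_apply, Matrix.mul_apply,
      ← Finset.sum_add_distrib]
    simp only [Matrix.of_apply, nsmul_eq_mul, Nat.cast_ofNat]
    exact hh_ld h hp e i j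
  · ext i j
    exact hh_symm h hp j i
  · ext i j
    exact hB j i
  · ext i j
    exact QQ_symm h hp j i
  · funext i
    change ∑ j, B i j * (p.2.2 j / ‖p.2.2‖ ^ 2) = 0
    have e1 : ∑ j, B i j * (p.2.2 j / ‖p.2.2‖ ^ 2) = (∑ j, B i j * p.2.2 j) / ‖p.2.2‖ ^ 2 := by
      rw [Finset.sum_div]
      exact Finset.sum_congr rfl fun j _ => by ring
    rw [e1, hBy i, zero_div]
  · funext i
    exact QQ_rad h hp i

/-- The trace of the Lie derivative (product rule and `QQ_ld`). -/
theorem lie_trace (h : Ok S) (hp : p ∈ OO S) (e : ℝ) {B : Fin 3 → Fin 3 → VV → ℝ} (hd : ∀ i j, DifferentiableAt ℝ (B i j) p)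
    (hB : ∀ i j, B i j p = B j i p) (hBy : ∀ i, ∑ j, B i j p * p.2.2 j = 0) :
    ∑ i, ∑ j, QQ S i j p * (ld S e (B i j) p + (∑ m, dal S e i m p * B m j p) + ∑ m, dal S e j m p * B i m p) =
      ld S e (fun q => ∑ i, ∑ j, QQ S i j q * B i j q) p +
        2 * ∑ i, ∑ j, ∑ a, ∑ b, QQ S i a p * QQ S j b p * chi S e i j p * B a b p := by
  have hqd : ∀ i j, DifferentiableAt ℝ (QQ S i j) p := fun i j => (QQ_smooth h hp i j).differentiableAt (by norm_num)
  have h1 := QQ_ld h hp e (B := fun i j => B i j p) hB hBy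
  have h2 : ld S e (fun q => ∑ i, ∑ j, QQ S i j q * B i j q) p =
      ∑ i, ∑ j, (QQ S i j p * ld S e (B i j) p + ld S e (QQ S i j) p * B i j p) := by
    have e2 : HasFDerivAt (fun q => ∑ i, ∑ j, QQ S i j q * B i j q)
        (∑ i, ∑ j, (QQ S i j p • fderiv ℝ (B i j) p + B i j p • fderiv ℝ (QQ S i j) p)) p :=
      HasFDerivAt.fun_sum fun i _ => HasFDerivAt.fun_sum fun j _ => (hqd i j).hasFDerivAt.mul (hd i j).hasFDerivAt
    unfold ld
    rw [e2.fderiv]
    simp only [ContinuousLinearMap.sum_apply, ContinuousLinearMap.add_apply, ContinuousLinearMap.smul_apply, smul_eq_mul]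
    exact Finset.sum_congr rfl fun i _ => Finset.sum_congr rfl fun j _ => by ring
  have h3 : ∑ i, ∑ j, QQ S i j p * (ld S e (B i j) p + (∑ m, dal S e i m p * B m j p) + ∑ m, dal S e j m p * B i m p) =
      (∑ i, ∑ j, QQ S i j p * ld S e (B i j) p) + (∑ i, ∑ j, ∑ m, QQ S i j p * dal S e i m p * B m j p) +
        ∑ i, ∑ j, ∑ m, QQ S i j p * dal S e j m p * B i m p := by
    simp only [mul_add, Finset.mul_sum, Finset.sum_add_distrib, mul_assoc]
  have h4 : ∑ i, ∑ j, ∑ m, QQ S i j p * dal S e j m p * B i m p = ∑ i, ∑ j, ∑ m, QQ S i j p * dal S e i m p * B m j p := by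
    rw [Finset.sum_comm]
    refine Finset.sum_congr rfl fun j _ => Finset.sum_congr rfl fun i _ => Finset.sum_congr rfl fun m _ => ?_
    rw [QQ_symm h hp i j, hB i m]
  rw [h3, h4, h2]
  simp only [Finset.sum_add_distrib]
  rw [h1]
  ring

end H74X
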