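import Pool.Agent.Lib.H17W.B3D
import Pool.Agent.Lib.H74X.B4B
import Pool.Agent.Lib.H74X.B6A1

set_option autoImplicit false

/-!
# H74X, chunk B6A2 (M): expansion = 2 Lr/r

Auxiliary names start with `b6a2_`. The direction `ell S e p` has the `y`-component `α = e u + w`, so `y` is not constant along `L`:
`ld S e (fun q => q.2.2 i) p = α_i`, `Σ y_i α_i = 0`.
-/

open MeasureTheory Filter Topology Set
open scoped ContDiff

namespace H74X

open H17T (E4 pt pos)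

open H17W (ip vel cov riem Ric scal MetAt Cyl NFrame)

open Pool.Agent.Lib.PenroseSph (E3 S2 sm)

variable {S : Dat} {p : VV} {e : ℝ}

/-- Euler's relation for homogeneous functions of degree one. -/
theorem b6a2_hom {φ : VV → ℝ} (hφ : DifferentiableAt ℝ φ p) (h0 : ∀ c : ℝ, 0 < c → φ (p.1, p.2.1, c • p.2.2) = c * φ p) :
    ∑ i, p.2.2 i * fderiv ℝ φ p (dY i) = φ p := by
  have h2 : HasDerivAt (fun t : ℝ => φ (p.1, p.2.1, (1 + t) • p.2.2)) (fderiv ℝ φ p (0, 0, p.2.2)) 0 := by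
    have h3 : HasDerivAt (fun t : ℝ => ((p.1, p.2.1, (1 + t) • p.2.2) : VV)) (0, 0, p.2.2) 0 := by
      have h4 : HasDerivAt (fun t : ℝ => (1 + t) • p.2.2) p.2.2 0 := by
        have h5 : HasDerivAt (fun t : ℝ => 1 + t) 1 0 := by
          simpa using (hasDerivAt_id (0 : ℝ)).const_add 1
        simpa using h5.smul_const p.2.2
      exact (hasDerivAt_const (0 : ℝ) p.1).prodMk ((hasDerivAt_const (0 : ℝ) p.2.1).prodMk h4)
    have h6 : ((p.1, p.2.1, (1 + (0 : ℝ)) • p.2.2) : VV) = p := by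
      rw [add_zero, one_smul]
    have h7 : HasFDerivAt φ (fderiv ℝ φ p) ((p.1, p.2.1, (1 + (0 : ℝ)) • p.2.2) : VV) := by
      rw [h6]
      exact hφ.hasFDerivAt
    exact h7.comp_hasDerivAt (0 : ℝ) h3
  have h3 : HasDerivAt (fun t : ℝ => φ (p.1, p.2.1, (1 + t) • p.2.2)) (φ p) 0 := by
    have h4 : (fun t : ℝ => φ (p.1, p.2.1, (1 + t) • p.2.2)) =ᶠ[𝓝 0] fun t => (1 + t) * φ p := by
      have h5 : ∀ᶠ t : ℝ in 𝓝 0, -1 < t := lt_mem_nhds (by norm_num)
      filter_upwards [h5] with t ht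
      exact h0 _ (by linarith)
    have h5 : HasDerivAt (fun t : ℝ => (1 + t) * φ p) (φ p) 0 := by
      have h6 : HasDerivAt (fun t : ℝ => 1 + t) 1 0 := by
        simpa using (hasDerivAt_id (0 : ℝ)).const_add 1
      simpa using h6.mul_const (φ p)
    exact h5.congr_of_eventuallyEq h4
  have h1 := h2.unique h3
  rw [b1c_sum, map_sum] at h1
  rw [← h1]
  exact Finset.sum_congr rfl fun i _ => by rw [map_smul, smul_eq_mul]

/-- `Σ_i ∂_i α^i = 0`. -/
theorem dal_div (h : Ok S) (hp : p ∈ OO S) (e : ℝ) : ∑ i, dal S e i i p = 0 := by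
  unfold dal
  rw [Finset.sum_add_distrib, ← Finset.mul_sum, h.u_div p hp, h.w_div p hp, mul_zero, add_zero]

/-- `Σ_i y_i ∂_i α^m = α^m` (homogeneity of degree one), so `Σ_im y_i y_m ∂_i α^m = 0`. -/
theorem dal_rad (h : Ok S) (hp : p ∈ OO S) (e : ℝ) : ∑ i, ∑ m, p.2.2 i * p.2.2 m * dal S e i m p = 0 := by
  have hu : ∀ m, ∑ i, p.2.2 i * fderiv ℝ (fun q => S.u q m) p (dY i) = S.u p m := fun m =>
    b6a2_hom (φ := fun q => S.u q m) (differentiableAt_euclidean.1 ((h.u_smooth p hp).differentiableAt (by norm_num)) m)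
      fun c hc => by
        rw [(h.hom p hp c hc).2.2.1]
        rfl
  have hw : ∀ m, ∑ i, p.2.2 i * fderiv ℝ (fun q => S.w q m) p (dY i) = S.w p m := fun m =>
    b6a2_hom (φ := fun q => S.w q m) (differentiableAt_euclidean.1 ((h.w_smooth p hp).differentiableAt (by norm_num)) m)
      fun c hc => by
        rw [(h.hom p hp c hc).2.2.2]
        rfl
  rw [Finset.sum_comm]
  have h1 : ∀ m, ∑ i, p.2.2 i * p.2.2 m * dal S e i m p = e * (p.2.2 m * S.u p m) + p.2.2 m * S.w p m := by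
    intro m
    rw [← hu m, ← hw m, Finset.mul_sum, Finset.mul_sum, Finset.mul_sum, ← Finset.sum_add_distrib]
    refine Finset.sum_congr rfl fun i _ => ?_
    unfold dal
    ring
  rw [Finset.sum_congr rfl fun m _ => h1 m, Finset.sum_add_distrib, ← Finset.mul_sum, h.u_tan p hp, h.w_tan p hp,
    mul_zero, add_zero]

/-- `Σ y_i α_i = 0`. -/
theorem b6a2_al (h : Ok S) (hp : p ∈ OO S) (e : ℝ) : ∑ i, p.2.2 i * (ell S e p).2.2 i = 0 := by
  have h1 : ∀ i, p.2.2 i * (ell S e p).2.2 i = e * (p.2.2 i * S.u p i) + p.2.2 i * S.w p i := by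
    intro i
    change p.2.2 i * (e * S.u p i + S.w p i) = _
    ring
  rw [Finset.sum_congr rfl fun m _ => h1 m, Finset.sum_add_distrib, ← Finset.mul_sum, h.u_tan p hp, h.w_tan p hp,
    mul_zero, add_zero]

theorem b6a2_y (i : Fin 3) : HasFDerivAt (fun q : VV => q.2.2 i) ((EuclideanSpace.proj (𝕜 := ℝ) i : E3 →L[ℝ] ℝ).comp
    ((ContinuousLinearMap.snd ℝ ℝ E3).comp (ContinuousLinearMap.snd ℝ ℝ (ℝ × E3)))) p :=
  ((EuclideanSpace.proj (𝕜 := ℝ) i : E3 →L[ℝ] ℝ).comp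
    ((ContinuousLinearMap.snd ℝ ℝ E3).comp (ContinuousLinearMap.snd ℝ ℝ (ℝ × E3)))).hasFDerivAt

theorem b6a2_ldy (e : ℝ) (i : Fin 3) : ld S e (fun q : VV => q.2.2 i) p = (ell S e p).2.2 i := by
  unfold ld
  rw [(b6a2_y i).fderiv]
  rfl

theorem b6a2_mul {f g : VV → ℝ} (hf : DifferentiableAt ℝ f p) (hg : DifferentiableAt ℝ g p) (e : ℝ) :
    ld S e (fun q => f q * g q) p = ld S e f p * g p + f p * ld S e g p := by
  have h1 : HasFDerivAt (fun q => f q * g q) (f p • fderiv ℝ g p + g p • fderiv ℝ f p) p :=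
    hf.hasFDerivAt.mul hg.hasFDerivAt
  unfold ld
  rw [h1.fderiv]
  change f p * fderiv ℝ g p (ell S e p) + g p * fderiv ℝ f p (ell S e p) = _
  ring

/-- `|y|²` is constant along `L`. -/
theorem b6a2_n (h : Ok S) (hp : p ∈ OO S) (e : ℝ) {g : ℝ → ℝ} (hg : DifferentiableAt ℝ g (‖p.2.2‖ ^ 2)) :
    ld S e (fun q : VV => g (‖q.2.2‖ ^ 2)) p = 0 := by
  have h0 : (fun q : VV => ‖q.2.2‖ ^ 2) = fun q : VV => ∑ i, q.2.2 i * q.2.2 i := by
    funext q
    rw [b2a_norm]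
    exact Finset.sum_congr rfl fun i _ => by ring
  have h1 : HasFDerivAt (fun q : VV => ‖q.2.2‖ ^ 2) (∑ i, (p.2.2 i • fderiv ℝ (fun q : VV => q.2.2 i) p +
      p.2.2 i • fderiv ℝ (fun q : VV => q.2.2 i) p)) p := by
    rw [h0]
    exact HasFDerivAt.fun_sum fun i _ => (b6a2_y i).differentiableAt.hasFDerivAt.mul (b6a2_y i).differentiableAt.hasFDerivAt
  have h2 := HasFDerivAt.comp (f := fun q : VV => ‖q.2.2‖ ^ 2) p hg.hasFDerivAt h1
  have h3 : fderiv ℝ (fun q : VV => g (‖q.2.2‖ ^ 2)) p = _ := h2.fderiv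
  unfold ld
  rw [h3, ContinuousLinearMap.comp_apply]
  have h4 : (∑ i, (p.2.2 i • fderiv ℝ (fun q : VV => q.2.2 i) p +
      p.2.2 i • fderiv ℝ (fun q : VV => q.2.2 i) p)) (ell S e p) = 0 := by
    simp only [ContinuousLinearMap.sum_apply, ContinuousLinearMap.add_apply, ContinuousLinearMap.smul_apply, smul_eq_mul]
    have h5 : ∀ i, p.2.2 i * fderiv ℝ (fun q : VV => q.2.2 i) p (ell S e p) +
        p.2.2 i * fderiv ℝ (fun q : VV => q.2.2 i) p (ell S e p) = 2 * (p.2.2 i * (ell S e p).2.2 i) := by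
      intro i
      have h6 : fderiv ℝ (fun q : VV => q.2.2 i) p (ell S e p) = (ell S e p).2.2 i := b6a2_ldy e i
      rw [h6]
      ring
    rw [Finset.sum_congr rfl fun i _ => h5 i, ← Finset.mul_sum, b6a2_al h hp e, mul_zero]
  rw [h4, map_zero]

theorem b6a2_nd (hp : p ∈ OO S) : DifferentiableAt ℝ (fun q : VV => ‖q.2.2‖ ^ 2) p := by
  have h0 : ContDiffAt ℝ ∞ (fun q : VV => q.2.2) p := by fun_prop
  exact ((h0.norm ℝ hp.2).pow 2).differentiableAt (by norm_num)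

/-- `Σ P⁻¹_ij L P_ij = 0`. -/
theorem b6a2_tr (h : Ok S) (hp : p ∈ OO S) (e : ℝ) :
    ∑ i, ∑ j, (S.P p)⁻¹ i j * ld S e (fun q => S.P q i j) p = 0 := by
  have hn : ‖p.2.2‖ ≠ 0 := norm_ne_zero_iff.2 hp.2
  have hd : (S.P p).det ≠ 0 := (H17W.Cyl.det_pos (h.P_cyl (p.1, p.2.1) hp.1) hp.2).ne'
  have h1 := H17W.b3d_det (M := S.P) (p := p) hd (fun i j => (h.P_smooth p hp i j).differentiableAt (by norm_num)) (ell S e p)
  have h2 : (fun q => (S.P q).det) =ᶠ[𝓝 p] fun q : VV => (fun t : ℝ => (t ^ 3)⁻¹) (‖q.2.2‖ ^ 2) := by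
    refine OO_ev_of h hp fun q hq => ?_
    change (S.P q).det = ((‖q.2.2‖ ^ 2) ^ 3)⁻¹
    rw [h.P_det q hq, ← pow_mul]
  have h3 : fderiv ℝ (fun q => (S.P q).det) p (ell S e p) = 0 := by
    rw [h2.fderiv_eq]
    refine b6a2_n h hp e (g := fun t : ℝ => (t ^ 3)⁻¹) ?_
    exact (differentiableAt_id.pow 3).inv (pow_ne_zero 3 (pow_ne_zero 2 hn))
  rw [h3] at h1
  have h4 := (mul_eq_zero.1 h1.symm).resolve_left hd
  rw [← h4]
  refine Finset.sum_congr rfl fun i _ => Finset.sum_congr rfl fun j _ => ?_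
  rw [Pinv_symm h hp i j]
  rfl

/-- `Σ y_i y_j L P_ij = 0`. -/
theorem b6a2_yy (h : Ok S) (hp : p ∈ OO S) (e : ℝ) :
    ∑ i, ∑ j, p.2.2 i * p.2.2 j * ld S e (fun q => S.P q i j) p = 0 := by
  have hn : ‖p.2.2‖ ≠ 0 := norm_ne_zero_iff.2 hp.2
  have hPd : ∀ i j, DifferentiableAt ℝ (fun q => S.P q i j) p := fun i j =>
    (h.P_smooth p hp i j).differentiableAt (by norm_num)
  have h2 : (fun q : VV => ∑ i, ∑ j, q.2.2 i * q.2.2 j * S.P q i j) =ᶠ[𝓝 p] fun _ : VV => (1 : ℝ) := by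
    refine OO_ev_of h hp fun q hq => ?_
    have hnq : ‖q.2.2‖ ≠ 0 := norm_ne_zero_iff.2 hq.2
    have h3 : ∀ i, ∑ j, q.2.2 i * q.2.2 j * S.P q i j = q.2.2 i ^ 2 / ‖q.2.2‖ ^ 2 := by
      intro i
      have h4 : ∑ j, q.2.2 i * q.2.2 j * S.P q i j = q.2.2 i * ∑ j, S.P q i j * q.2.2 j := by
        rw [Finset.mul_sum]
        exact Finset.sum_congr rfl fun j _ => by ring
      rw [h4, PP_rad h hq i]
      ring
    change ∑ i, ∑ j, q.2.2 i * q.2.2 j * S.P q i j = 1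
    rw [Finset.sum_congr rfl fun i _ => h3 i, ← Finset.sum_div, ← b2a_norm]
    exact div_self (pow_ne_zero 2 hnq)
  have hyd : ∀ i, DifferentiableAt ℝ (fun q : VV => q.2.2 i) p := fun i => (b6a2_y i).differentiableAt
  have e2 : HasFDerivAt (fun q : VV => ∑ i, ∑ j, q.2.2 i * q.2.2 j * S.P q i j)
      (∑ i, ∑ j, ((p.2.2 i * p.2.2 j) • fderiv ℝ (fun q => S.P q i j) p +
        S.P p i j • (p.2.2 i • fderiv ℝ (fun q : VV => q.2.2 j) p + p.2.2 j • fderiv ℝ (fun q : VV => q.2.2 i) p))) p :=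
    HasFDerivAt.fun_sum fun i _ => HasFDerivAt.fun_sum fun j _ =>
      ((hyd i).hasFDerivAt.mul (hyd j).hasFDerivAt).mul (hPd i j).hasFDerivAt
  have e3 := e2.fderiv
  rw [h2.fderiv_eq, fderiv_fun_const] at e3
  have e5 := congrArg (fun T : VV →L[ℝ] ℝ => T (ell S e p)) e3
  simp only [ContinuousLinearMap.sum_apply, ContinuousLinearMap.add_apply, ContinuousLinearMap.smul_apply, smul_eq_mul,
    Pi.zero_apply, ContinuousLinearMap.zero_apply] at e5
  have e6 : ∀ i, fderiv ℝ (fun q : VV => q.2.2 i) p (ell S e p) = (ell S e p).2.2 i := fun i => b6a2_ldy e i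
  simp only [e6] at e5
  have hA : ∑ i, ∑ j, S.P p i j * (p.2.2 i * (ell S e p).2.2 j) = 0 := by
    rw [Finset.sum_comm]
    have h4 : ∀ j, ∑ i, S.P p i j * (p.2.2 i * (ell S e p).2.2 j) = p.2.2 j * (ell S e p).2.2 j / ‖p.2.2‖ ^ 2 := by
      intro j
      have h5 : ∑ i, S.P p i j * (p.2.2 i * (ell S e p).2.2 j) = (∑ i, S.P p j i * p.2.2 i) * (ell S e p).2.2 j := by
        rw [Finset.sum_mul]
        exact Finset.sum_congr rfl fun i _ => by
          rw [PP_symm h hp i j]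
          ring
      rw [h5, PP_rad h hp j]
      ring
    rw [Finset.sum_congr rfl fun j _ => h4 j, ← Finset.sum_div, b6a2_al h hp e, zero_div]
  have hB : ∑ i, ∑ j, S.P p i j * (p.2.2 j * (ell S e p).2.2 i) = 0 := by
    rw [Finset.sum_comm, ← hA]
    refine Finset.sum_congr rfl fun i _ => Finset.sum_congr rfl fun j _ => ?_
    rw [PP_symm h hp i j]
  have e7 : ∑ i, ∑ j, (p.2.2 i * p.2.2 j * fderiv ℝ (fun q => S.P q i j) p (ell S e p) +
      S.P p i j * (p.2.2 i * (ell S e p).2.2 j + p.2.2 j * (ell S e p).2.2 i)) =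
      ∑ i, ∑ j, p.2.2 i * p.2.2 j * ld S e (fun q => S.P q i j) p := by
    simp only [mul_add, Finset.sum_add_distrib]
    rw [hA, hB, add_zero, add_zero]
    rfl
  rw [← e7, ← e5]

theorem b6a2_hh (h : Ok S) (hp : p ∈ OO S) (e : ℝ) (i j : Fin 3) :
    ld S e (hh S i j) p = 2 * (ld S e (rr S) p / rr S p) * hh S i j p + rr S p ^ 2 * ld S e (fun q => S.P q i j) p -
      rr S p ^ 2 / ‖p.2.2‖ ^ 4 * ((ell S e p).2.2 i * p.2.2 j + p.2.2 i * (ell S e p).2.2 j) := by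
  have hn : ‖p.2.2‖ ≠ 0 := norm_ne_zero_iff.2 hp.2
  have hr : rr S p ≠ 0 := (rr_pos h hp).ne'
  have hrd : DifferentiableAt ℝ (rr S) p := (rr_smooth h hp).differentiableAt (by norm_num)
  have hPd : DifferentiableAt ℝ (fun q => S.P q i j) p := (h.P_smooth p hp i j).differentiableAt (by norm_num)
  have hyd : ∀ i, DifferentiableAt ℝ (fun q : VV => q.2.2 i) p := fun i => (b6a2_y i).differentiableAt
  have hgd : DifferentiableAt ℝ (fun t : ℝ => (t ^ 2)⁻¹) (‖p.2.2‖ ^ 2) :=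
    (differentiableAt_id.pow 2).inv (pow_ne_zero 2 (pow_ne_zero 2 hn))
  have hGd : DifferentiableAt ℝ (fun q : VV => ((‖q.2.2‖ ^ 2) ^ 2)⁻¹) p :=
    DifferentiableAt.comp (g := fun t : ℝ => (t ^ 2)⁻¹) (f := fun q : VV => ‖q.2.2‖ ^ 2) p hgd (b6a2_nd hp)
  have hG0 : ld S e (fun q : VV => ((‖q.2.2‖ ^ 2) ^ 2)⁻¹) p = 0 := b6a2_n h hp e (g := fun t : ℝ => (t ^ 2)⁻¹) hgd
  have e0 : hh S i j = fun q => (fun q => rr S q * rr S q) q *
      (fun q : VV => S.P q i j - (fun q : VV => (fun q : VV => q.2.2 i * q.2.2 j) q * ((‖q.2.2‖ ^ 2) ^ 2)⁻¹) q) q := by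
    funext q
    change rr S q ^ 2 * (S.P q i j - q.2.2 i * q.2.2 j / ‖q.2.2‖ ^ 4) =
      rr S q * rr S q * (S.P q i j - q.2.2 i * q.2.2 j * ((‖q.2.2‖ ^ 2) ^ 2)⁻¹)
    rw [← pow_mul, ← div_eq_mul_inv, sq]
  have hyy : DifferentiableAt ℝ (fun q : VV => q.2.2 i * q.2.2 j) p := (hyd i).fun_mul (hyd j)
  have hsub : ld S e (fun q : VV => S.P q i j - (fun q : VV => (fun q : VV => q.2.2 i * q.2.2 j) q * ((‖q.2.2‖ ^ 2) ^ 2)⁻¹) q) p =
      ld S e (fun q => S.P q i j) p - ld S e (fun q : VV => (fun q : VV => q.2.2 i * q.2.2 j) q * ((‖q.2.2‖ ^ 2) ^ 2)⁻¹) p := by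
    unfold ld
    rw [fderiv_fun_sub hPd (hyy.fun_mul hGd)]
    rfl
  conv_lhs => rw [e0]
  rw [b6a2_mul (hrd.fun_mul hrd) (hPd.fun_sub (hyy.fun_mul hGd)), hsub, b6a2_mul hrd hrd, b6a2_mul hyy hGd,
    b6a2_mul (hyd i) (hyd j), b6a2_ldy, b6a2_ldy, hG0]
  unfold hh
  field_simp
  ring

/-- `tr χ = 2 (Lr)/r`. Proof. By `hh_ld`, `2 tr χ = Σ Q^ij L h_ij + 2 Σ_im ∂_i α^m (δ_im - y_i y_m/|y|²) = Σ Q^ij L h_ij` (`dal_div`, `dal_rad`).
`h = r² (P - ν ν)`, so `Σ Q^ij L h_ij = 2 (Lr)/r · 2 + Σ (P⁻¹ - y y)_ij L(P_ij - ν_i ν_j)`, and: `Σ P⁻¹_ij L P_ij = L (log det P) = - 6 (y·α)/|y|² = 0`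
(`b3d_det`; or differentiate `det P = |y|⁻⁶`); `Σ y_i y_j L P_ij = L(Σ y_i y_j P_ij) - 2 Σ α_i P_ij y_j = 0` (`Σ y_i y_j P_ij = 1`);
`Σ P⁻¹_ij L(ν_i ν_j) = 2 Σ y_j L ν_j = 2 (L(Σ y_j ν_j) - Σ α_j ν_j) = 0`; `Σ y_i y_j L(ν_i ν_j) = 0` in the same way. -/
theorem exl_eq (h : Ok S) (hp : p ∈ OO S) (e : ℝ) : exl S e p = 2 * ld S e (rr S) p / rr S p := by
  have hn : ‖p.2.2‖ ≠ 0 := norm_ne_zero_iff.2 hp.2
  have hr : rr S p ≠ 0 := (rr_pos h hp).ne'
  -- twice the expansion is the trace of the derivative of `h`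
  have hS1 : ∑ i, ∑ j, QQ S i j p * (∑ m, dal S e i m p * hh S m j p) = 0 := by
    have e1 : ∀ i, ∑ j, QQ S i j p * (∑ m, dal S e i m p * hh S m j p) =
        ∑ m, dal S e i m p * ((if m = i then 1 else 0) - p.2.2 m * p.2.2 i / ‖p.2.2‖ ^ 2) := by
      intro i
      simp only [Finset.mul_sum]
      rw [Finset.sum_comm]
      refine Finset.sum_congr rfl fun m _ => ?_
      rw [← hQ h hp m i, Finset.mul_sum]
      refine Finset.sum_congr rfl fun j _ => ?_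
      rw [QQ_symm h hp i j]
      ring
    have e2 : ∀ i, ∑ m, dal S e i m p * ((if m = i then 1 else 0) - p.2.2 m * p.2.2 i / ‖p.2.2‖ ^ 2) =
        dal S e i i p - (∑ m, p.2.2 i * p.2.2 m * dal S e i m p) / ‖p.2.2‖ ^ 2 := by
      intro i
      have e3 : ∀ m, dal S e i m p * ((if m = i then 1 else 0) - p.2.2 m * p.2.2 i / ‖p.2.2‖ ^ 2) =
          (if m = i then dal S e i m p else 0) - p.2.2 i * p.2.2 m * dal S e i m p / ‖p.2.2‖ ^ 2 := by
        intro m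
        split_ifs <;> ring
      rw [Finset.sum_congr rfl fun m _ => e3 m, Finset.sum_sub_distrib, Finset.sum_ite_eq', if_pos (Finset.mem_univ i),
        Finset.sum_div]
    rw [Finset.sum_congr rfl fun i _ => (e1 i).trans (e2 i), Finset.sum_sub_distrib, dal_div h hp e, ← Finset.sum_div,
      dal_rad h hp e, zero_div, sub_zero]
  have hS2 : ∑ i, ∑ j, QQ S i j p * (∑ m, dal S e j m p * hh S m i p) = 0 := by
    rw [Finset.sum_comm, ← hS1]
    refine Finset.sum_congr rfl fun i _ => Finset.sum_congr rfl fun j _ => ?_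
    rw [QQ_symm h hp i j]
  have h2 : 2 * exl S e p = ∑ i, ∑ j, QQ S i j p * ld S e (hh S i j) p := by
    have e1 : ∀ i j, QQ S i j p * ld S e (hh S i j) p = 2 * (QQ S i j p * chi S e i j p) -
        QQ S i j p * (∑ m, dal S e i m p * hh S m j p) - QQ S i j p * (∑ m, dal S e j m p * hh S m i p) := by
      intro i j
      rw [hh_ld h hp e i j, Finset.sum_add_distrib]
      ring
    simp only [e1, Finset.sum_sub_distrib, ← Finset.mul_sum]
    rw [hS1, hS2, sub_zero, sub_zero]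
    rfl
  have hQh : ∑ i, ∑ j, QQ S i j p * hh S i j p = 2 := by
    have e1 : ∀ i, ∑ j, QQ S i j p * hh S i j p = 1 - p.2.2 i ^ 2 / ‖p.2.2‖ ^ 2 := by
      intro i
      have e2 := hQ h hp i i
      rw [if_pos rfl] at e2
      rw [sq (p.2.2 i), ← e2]
      refine Finset.sum_congr rfl fun j _ => ?_
      rw [QQ_symm h hp i j, mul_comm]
    rw [Finset.sum_congr rfl fun i _ => e1 i, Finset.sum_sub_distrib, ← Finset.sum_div, ← b2a_norm,
      div_self (pow_ne_zero 2 hn)]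
    norm_num
  have hQP : rr S p ^ 2 * ∑ i, ∑ j, QQ S i j p * ld S e (fun q => S.P q i j) p = 0 := by
    have e1 : ∀ i j, rr S p ^ 2 * (QQ S i j p * ld S e (fun q => S.P q i j) p) =
        (S.P p)⁻¹ i j * ld S e (fun q => S.P q i j) p - p.2.2 i * p.2.2 j * ld S e (fun q => S.P q i j) p := by
      intro i j
      unfold QQ
      field_simp
    simp only [Finset.mul_sum, e1, Finset.sum_sub_distrib]
    rw [b6a2_tr h hp e, b6a2_yy h hp e, sub_zero]
  have hQy : ∑ i, ∑ j, QQ S i j p * ((ell S e p).2.2 i * p.2.2 j + p.2.2 i * (ell S e p).2.2 j) = 0 := by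
    have e1 : ∑ i, ∑ j, QQ S i j p * ((ell S e p).2.2 i * p.2.2 j) = 0 := by
      refine Finset.sum_eq_zero fun i _ => ?_
      have e2 : ∑ j, QQ S i j p * ((ell S e p).2.2 i * p.2.2 j) = (ell S e p).2.2 i * ∑ j, QQ S i j p * p.2.2 j := by
        rw [Finset.mul_sum]
        exact Finset.sum_congr rfl fun j _ => by ring
      rw [e2, QQ_rad h hp i, mul_zero]
    have e3 : ∑ i, ∑ j, QQ S i j p * (p.2.2 i * (ell S e p).2.2 j) = 0 := by
      rw [Finset.sum_comm, ← e1]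
      refine Finset.sum_congr rfl fun i _ => Finset.sum_congr rfl fun j _ => ?_
      rw [QQ_symm h hp i j, mul_comm (p.2.2 j)]
    simp only [mul_add, Finset.sum_add_distrib]
    rw [e1, e3, add_zero]
  have h3 : ∑ i, ∑ j, QQ S i j p * ld S e (hh S i j) p =
      2 * (ld S e (rr S) p / rr S p) * (∑ i, ∑ j, QQ S i j p * hh S i j p) +
        rr S p ^ 2 * (∑ i, ∑ j, QQ S i j p * ld S e (fun q => S.P q i j) p) -
        rr S p ^ 2 / ‖p.2.2‖ ^ 4 *
          ∑ i, ∑ j, QQ S i j p * ((ell S e p).2.2 i * p.2.2 j + p.2.2 i * (ell S e p).2.2 j) := by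
    simp only [Finset.mul_sum, ← Finset.sum_add_distrib, ← Finset.sum_sub_distrib]
    refine Finset.sum_congr rfl fun i _ => Finset.sum_congr rfl fun j _ => ?_
    rw [b6a2_hh h hp e i j]
    ring
  rw [h3, hQh, hQP, hQy, mul_zero, sub_zero, add_zero] at h2
  rw [mul_div_assoc]
  linarith

end H74X
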