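import Pool.Agent.Lib.H17W.A5
import Pool.Agent.Lib.H17W.B4C
import Pool.Agent.Lib.H74X.B6A

set_option autoImplicit false

/-!
# H74X, chunk B6B1 (M): R(L,X)L

Auxiliary names start with `b6b1_`. Templates: `H17W/B4A.lean` (`chi_ds`), `H17W/B4B.lean` (`ee_eq`), `H17W/B4C.lean` (`ray`, `b4c_cs`).
-/

open MeasureTheory Filter Topology Set
open scoped ContDiff

namespace H74X

open H17T (E4 pt pos)

open H17W (ip vel cov riem Ric scal MetAt Cyl NFrame)

open Pool.Agent.Lib.PenroseSph (E3 S2 sm)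

variable {S : Dat} {p : VV} {e : ℝ}

/-- The covariant derivative depends only on the germ of the field. -/
theorem b6b1_congr {A B : VV → Fin 4 → ℝ} (hAB : ∀ᶠ q in 𝓝 p, A q = B q) (v : VV) :
    cov S.G S.Ph A p v = cov S.G S.Ph B p v := by
  funext a
  have h1 : (fun q => A q a) =ᶠ[𝓝 p] fun q => B q a := by
    filter_upwards [hAB] with q hq
    rw [hq]
  have e : ∀ C : VV → Fin 4 → ℝ, cov S.G S.Ph C p v a =
      fderiv ℝ (fun q => C q a) p v + H17W.gam S.G (S.Ph p) (vel S.Ph p v) (C p) a := fun C => rfl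
  rw [e, e, h1.fderiv_eq, hAB.self_of_nhds]

/-- The curvature and the second derivatives (`cov_comm_field` with `w = ell S e`, `v = dY i`, `ell_dY`, `cov_dir_sum`):
`R(L, X_i) A = D_L D_i A - D_i D_L A + Σ_m ∂_i α^m D_m A`. -/
theorem riem_LX (h : Ok S) (hp : p ∈ OO S) (e : ℝ) (i : Fin 3) {A : VV → Fin 4 → ℝ}
    (hA : ∀ q ∈ OO S, ∀ a, ContDiffAt ℝ ∞ (fun z => A z a) q) :
    riem S.G (S.Ph p) (LL S e p) (XX S i p) (A p) =
      DL S e (DX S i A) p - DX S i (DL S e A) p + ∑ m, dal S e i m p • DX S m A p := by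
  have h1 := cov_comm_field (w := ell S e) (A := A) (h.met p hp) (OO_ev_of h hp h.smooth) (OO_ev_of h hp hA)
    ((ell_smooth h hp e).differentiableAt (by norm_num)) (dY i)
  rw [ell_dY h hp e i, cov_dir_sum] at h1
  have h2 : DL S e (DX S i A) p - DX S i (DL S e A) p =
      riem S.G (S.Ph p) (LL S e p) (XX S i p) (A p) - ∑ m, dal S e i m p • DX S m A p := h1
  rw [h2]
  abel

/-- `<R(L,X_i)L, X_j>`: `riem_LX` with `A = L`. `<D_L D_i L, X_j> = L χ_ij - <D_i L, D_L X_j>` (`ipp_D_of`), `D_L X_j = D_j L - Σ ∂_j α^m X_m`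
(`DL_XX`), `ip_LL`; `D_L L = (LF/F) L` on the domain (`DL_LL`), so `<D_i D_L L, X_j> = (LF/F) χ_ij` (`<L, X_j> = 0`; `H17W.cov_smul`). -/
theorem chi_ld (h : Ok S) (hp : p ∈ OO S) (he : e * e = 1) (i j : Fin 3) :
    ipp S p (riem S.G (S.Ph p) (LL S e p) (XX S i p) (LL S e p)) (XX S j p) =
      ld S e (chi S e i j) p + (∑ m, dal S e i m p * chi S e m j p) + (∑ m, dal S e j m p * chi S e i m p) -
        (∑ a, ∑ b, QQ S a b p * chi S e i a p * chi S e j b p) - ld S e S.F p / S.F p * chi S e i j p := by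
  have hF : S.F p ≠ 0 := (h.F_pos p hp).ne'
  rw [riem_LX h hp e i (A := LL S e) (fun q hq a => LL_smooth h hq e a), ipp_add_left, ipp_sub_left, ipp_sum_left]
  have h1 : ipp S p (DL S e (DX S i (LL S e)) p) (XX S j p) + ipp S p (DX S i (LL S e) p) (DL S e (XX S j) p) =
      ld S e (chi S e i j) p :=
    ipp_D_of h hp (A := DX S i (LL S e)) (B := XX S j) (φ := chi S e i j)
      (fun a => (DX_smooth h hp i (LL_smooth h hp e) a).differentiableAt (by norm_num)) (XX_diff h hp j)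
      (fun q hq => rfl) (ell S e p)
  have h2 : ipp S p (DX S i (LL S e) p) (DL S e (XX S j) p) =
      (∑ a, ∑ b, QQ S a b p * chi S e i a p * chi S e j b p) - ∑ m, dal S e j m p * chi S e i m p := by
    rw [DL_XX h hp e j, ipp_sub_right, ipp_sum_right, ip_LL h hp he i j]
    rfl
  have h3 : ipp S p (DX S i (DL S e (LL S e)) p) (XX S j p) = ld S e S.F p / S.F p * chi S e i j p := by
    have h4 : DX S i (DL S e (LL S e)) p = cov S.G S.Ph (fun q => (ld S e S.F q / S.F q) • LL S e q) p (dY i) :=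
      b6b1_congr (OO_ev_of h hp fun q hq => DL_LL h hq he) (dY i)
    have hf : DifferentiableAt ℝ (fun q => ld S e S.F q / S.F q) p :=
      ((sm_ld h hp (h.F_smooth p hp) e).div (h.F_smooth p hp) hF).differentiableAt (by norm_num)
    rw [h4, H17W.cov_smul hf (LL_diff h hp e), ipp_add_left, ipp_smul_left, ipp_smul_left, h.ipLX p hp e j, mul_zero,
      zero_add]
    rfl
  have h5 : ∑ m, dal S e i m p * ipp S p (DX S m (LL S e) p) (XX S j p) = ∑ m, dal S e i m p * chi S e m j p := rfl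
  rw [h5]
  linarith

end H74X
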