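import Pool.Agent.Lib.H17W.A5
import Pool.Agent.Lib.H17W.B4C
import Pool.Agent.Lib.H74X.B6A
import Pool.Agent.Lib.H74X.B6B1

set_option autoImplicit false

/-!
# H74X, chunk B6B2 (S/M): Raychaudhuri

Auxiliary names start with `b6b2_`. Templates: `H17W/B4A.lean` (`chi_ds`), `H17W/B4B.lean` (`ee_eq`), `H17W/B4C.lean` (`ray`, `b4c_cs`).
-/

open MeasureTheory Filter Topology Set
open scoped ContDiff

namespace H74X

open H17T (E4 pt pos)

open H17W (ip vel cov riem Ric scal MetAt Cyl NFrame)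

open Pool.Agent.Lib.PenroseSph (E3 S2 sm)

variable {S : Dat} {p : VV} {e : ℝ}

theorem b6b2_perm (g : Fin 3 → Fin 3 → Fin 3 → Fin 3 → ℝ) :
    ∑ i, ∑ j, ∑ k, ∑ l, g j l i k = ∑ i, ∑ j, ∑ k, ∑ l, g i j k l := by
  rw [Finset.sum_comm]
  refine Finset.sum_congr rfl fun j _ => ?_
  calc ∑ i, ∑ k, ∑ l, g j l i k = ∑ i, ∑ l, ∑ k, g j l i k := Finset.sum_congr rfl fun i _ => Finset.sum_comm
    _ = ∑ l, ∑ i, ∑ k, g j l i k := Finset.sum_comm

/-- Contraction of a contraction. -/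
theorem b6b2_con {Q X K : Fin 3 → Fin 3 → ℝ} (hQ : ∀ i j, Q i j = Q j i) :
    ∑ i, ∑ j, Q i j * (∑ a, ∑ b, Q a b * K i a * X j b) = ∑ i, ∑ j, ∑ a, ∑ b, Q i a * Q j b * X i j * K a b := by
  rw [← b6b2_perm fun i j a b => Q i a * Q j b * X i j * K a b]
  refine Finset.sum_congr rfl fun i _ => Finset.sum_congr rfl fun j _ => ?_
  rw [Finset.mul_sum]
  refine Finset.sum_congr rfl fun a _ => ?_
  rw [Finset.mul_sum]
  refine Finset.sum_congr rfl fun b _ => ?_
  rw [hQ i j, hQ a b]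
  ring

/-- `Ric(L, L) = - Σ Q^ij <R(L,X_i)L, X_j>` (`H17W.Ric_frame`, `riem_skew`, `riem_anti`; the terms with `L` and `k` vanish:
`R(L,L) = 0`, `<R(k,L)L,L> = 0`). -/
theorem ric_LL (h : Ok S) (hp : p ∈ OO S) (he : e * e = 1) :
    Ric S.G (S.Ph p) (LL S e p) (LL S e p) = -∑ i, ∑ j, QQ S i j p *
      ipp S p (riem S.G (S.Ph p) (LL S e p) (XX S i p) (LL S e p)) (XX S j p) := by
  have hM := h.met p hp
  have h0 : riem S.G (S.Ph p) (LL S e p) (LL S e p) (LL S e p) = 0 := by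
    have h1 := H17W.riem_anti (G := S.G) (p := S.Ph p) (LL S e p) (LL S e p) (LL S e p)
    funext l
    have h2 := congrFun h1 l
    rw [Pi.neg_apply] at h2
    rw [Pi.zero_apply]
    linarith
  have h1 : ip S.G (S.Ph p) (riem S.G (S.Ph p) ((4 / S.F p) • LL S (-e) p) (LL S e p) (LL S e p)) (LL S e p) = 0 := by
    have h2 := H17W.riem_skew hM ((4 / S.F p) • LL S (-e) p) (LL S e p) (LL S e p) (LL S e p)
    linarith
  have h2 : ip S.G (S.Ph p) (riem S.G (S.Ph p) (LL S e p) (LL S e p) (LL S e p)) ((4 / S.F p) • LL S (-e) p) = 0 := by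
    rw [h0]
    exact b3_zero_left (S := S) (p := p) _
  rw [H17W.Ric_frame hM (nframe h hp he) (LL S e p) (LL S e p), h1, h2, zero_div, add_zero, add_zero,
    ← Finset.sum_neg_distrib]
  refine Finset.sum_congr rfl fun i _ => ?_
  rw [← Finset.sum_neg_distrib]
  refine Finset.sum_congr rfl fun j _ => ?_
  have h3 : riem S.G (S.Ph p) (XX S i p) (LL S e p) (LL S e p) =
      (-1 : ℝ) • riem S.G (S.Ph p) (LL S e p) (XX S i p) (LL S e p) := by
    rw [neg_one_smul]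
    exact H17W.riem_anti _ _ _
  rw [h3, H17W.ip_smul_left]
  unfold ipp
  ring

/-- Raychaudhuri's equation: `ric_LL`, `chi_ld`, `lie_trace` with `B = χ`. -/
theorem ray (h : Ok S) (hp : p ∈ OO S) (he : e * e = 1) :
    Ric S.G (S.Ph p) (LL S e p) (LL S e p) = -ld S e (exl S e) p
      - (∑ i, ∑ j, ∑ a, ∑ b, QQ S i a p * QQ S j b p * chi S e i j p * chi S e a b p)
      + ld S e S.F p / S.F p * exl S e p := by
  rw [ric_LL h hp he]
  have h1 := lie_trace h hp e (B := fun i j => chi S e i j) (fun i j => (chi_smooth h hp e i j).differentiableAt (by norm_num))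
    (chi_symm h hp e) (chi_rad h hp e)
  have h2 := b6b2_con (Q := fun i j => QQ S i j p) (X := fun i j => chi S e i j p) (K := fun i j => chi S e i j p)
    (QQ_symm h hp)
  have h3 : ∀ i j, QQ S i j p * ipp S p (riem S.G (S.Ph p) (LL S e p) (XX S i p) (LL S e p)) (XX S j p) =
      QQ S i j p * (ld S e (chi S e i j) p + (∑ m, dal S e i m p * chi S e m j p) + ∑ m, dal S e j m p * chi S e i m p) -
        QQ S i j p * (∑ a, ∑ b, QQ S a b p * chi S e i a p * chi S e j b p) -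
        ld S e S.F p / S.F p * (QQ S i j p * chi S e i j p) := by
    intro i j
    rw [chi_ld h hp he i j]
    ring
  simp only [h3, Finset.sum_sub_distrib, ← Finset.mul_sum]
  have h4 : ld S e (fun q => ∑ i, ∑ j, QQ S i j q * chi S e i j q) p = ld S e (exl S e) p := rfl
  have h5 : ∑ i, ∑ j, QQ S i j p * chi S e i j p = exl S e p := rfl
  rw [h1, h2, h4, h5]
  ring

/-- `H17W.b4c_cs` with `x = y`, `hQ`, `QQ_pos`, `QQ_rad`. -/
theorem chi_cs (h : Ok S) (hp : p ∈ OO S) (e : ℝ) :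
    exl S e p ^ 2 / 2 ≤ ∑ i, ∑ j, ∑ a, ∑ b, QQ S i a p * QQ S j b p * chi S e i j p * chi S e a b p :=
  H17W.b4c_cs (fun i j => QQ S i j p) (fun i j => hh S i j p) (fun i j => chi S e i j p) (fun i => p.2.2 i)
    (‖p.2.2‖ ^ 2) (pow_ne_zero 2 (norm_ne_zero_iff.2 hp.2)) (EuclideanSpace.real_norm_sq_eq p.2.2).symm
    (fun i j => QQ_symm h hp i j) (QQ_pos h hp) (fun i => QQ_rad h hp i) (fun i j => hQ h hp i j)

end H74X
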