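import Pool.Agent.Lib.H17W.A5
import Pool.Agent.Lib.H17W.B4C
import Pool.Agent.Lib.H74X.B6A
import Pool.Agent.Lib.H74X.B6B2

set_option autoImplicit false

/-!
# H74X, chunk B6B3 (S/M): reduced Raychaudhuri inequality

Auxiliary names start with `b6b3_`. Templates: `H17W/B4A.lean` (`chi_ds`), `H17W/B4B.lean` (`ee_eq`), `H17W/B4C.lean` (`ray`, `b4c_cs`).
-/

open MeasureTheory Filter Topology Set
open scoped ContDiff

namespace H74X

open H17T (E4 pt pos)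

open H17W (ip vel cov riem Ric scal MetAt Cyl NFrame)

open Pool.Agent.Lib.PenroseSph (E3 S2 sm)

variable {S : Dat} {p : VV} {e : ℝ}

/-- Derivative of a function of `(T, ρ)` in the direction `L_e`, as a function of `(T, ρ)`. -/
noncomputable def dk (S : Dat) (e : ℝ) (φ : ℝ × ℝ → ℝ) (q : ℝ × ℝ) : ℝ := fderiv ℝ φ q (e / 2, 1 / (2 * S.k q.2))

theorem dk_smooth (h : Ok S) {q : ℝ × ℝ} (hq : q ∈ S.D) (e : ℝ) {φ : ℝ × ℝ → ℝ} (hφ : ContDiffAt ℝ ∞ φ q) :
    ContDiffAt ℝ ∞ (dk S e φ) q := by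
  have h2 : ContDiffAt ℝ ∞ (fun q : ℝ × ℝ => S.k q.2) q :=
    ContDiffAt.comp (f := fun q : ℝ × ℝ => q.2) q (h.k_smooth q hq) contDiffAt_snd
  have h3 : 2 * S.k q.2 ≠ 0 := mul_ne_zero two_ne_zero (h.k_pos q hq).ne'
  have h4 : ContDiffAt ℝ ∞ (fun q : ℝ × ℝ => 1 / (2 * S.k q.2)) q :=
    contDiffAt_const.div (contDiffAt_const.mul h2) h3
  exact (hφ.fderiv_right (m := ∞) (by norm_cast)).clm_apply (contDiffAt_const.prodMk h4)

/-- `exl_eq` and `ld_q`. -/
theorem exl_dk (h : Ok S) (hp : p ∈ OO S) (e : ℝ) : exl S e p = 2 * dk S e S.r (p.1, p.2.1) / S.r (p.1, p.2.1) := by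
  have h1 : ld S e (rr S) p = dk S e S.r (p.1, p.2.1) :=
    ld_q ((h.r_smooth (p.1, p.2.1) hp.1).differentiableAt (by norm_num)) e
  rw [exl_eq h hp e, h1]
  rfl

theorem b6b3_dd {E : Type*} [NormedAddCommGroup E] [NormedSpace ℝ E] {f g : E → ℝ} {x : E}
    (hf : DifferentiableAt ℝ f x) (hg : DifferentiableAt ℝ g x) (h0 : g x ≠ 0) :
    DifferentiableAt ℝ (fun z => f z / g z) x := by
  simp only [div_eq_mul_inv]
  exact hf.fun_mul (hg.fun_inv h0)

theorem b6b3_div {E : Type*} [NormedAddCommGroup E] [NormedSpace ℝ E] {f g : E → ℝ} {x : E}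
    (hf : DifferentiableAt ℝ f x) (hg : DifferentiableAt ℝ g x) (h0 : g x ≠ 0) (v : E) :
    fderiv ℝ (fun z => f z / g z) x v = fderiv ℝ f x v / g x - f x * fderiv ℝ g x v / g x ^ 2 := by
  have hd : DifferentiableAt ℝ (fun z => f z / g z) x := b6b3_dd hf hg h0
  have h1 : HasFDerivAt (fun z => (f z / g z) * g z) ((f x / g x) • fderiv ℝ g x + g x • fderiv ℝ (fun z => f z / g z) x) x :=
    hd.hasFDerivAt.mul hg.hasFDerivAt
  have h2 : (fun z => (f z / g z) * g z) =ᶠ[𝓝 x] f := by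
    filter_upwards [hg.continuousAt.eventually_ne h0] with z hz
    exact div_mul_cancel₀ _ hz
  have h3 := (h1.congr_of_eventuallyEq h2.symm).unique hf.hasFDerivAt
  have h4 := congrArg (fun T : E →L[ℝ] ℝ => T v) h3
  have h5 : f x / g x * fderiv ℝ g x v + g x * fderiv ℝ (fun z => f z / g z) x v = fderiv ℝ f x v := h4
  rw [← h5]
  field_simp
  ring

/-- `exl_dk` on the domain, quotient rule and `ld_q`. -/
theorem exl_ld (h : Ok S) (hp : p ∈ OO S) (e e' : ℝ) :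
    ld S e' (exl S e) p = 2 * dk S e' (dk S e S.r) (p.1, p.2.1) / S.r (p.1, p.2.1) -
      2 * dk S e S.r (p.1, p.2.1) * dk S e' S.r (p.1, p.2.1) / S.r (p.1, p.2.1) ^ 2 := by
  have hr0 : S.r (p.1, p.2.1) ≠ 0 := (h.r_pos (p.1, p.2.1) hp.1).ne'
  have hrd : DifferentiableAt ℝ S.r (p.1, p.2.1) := (h.r_smooth (p.1, p.2.1) hp.1).differentiableAt (by norm_num)
  have hkd : DifferentiableAt ℝ (dk S e S.r) (p.1, p.2.1) :=
    (dk_smooth h hp.1 e (h.r_smooth (p.1, p.2.1) hp.1)).differentiableAt (by norm_num)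
  have hkd2 : DifferentiableAt ℝ (fun z => 2 * dk S e S.r z) (p.1, p.2.1) := hkd.const_mul 2
  have e1 : exl S e =ᶠ[𝓝 p] fun q => (fun z => 2 * dk S e S.r z / S.r z) (q.1, q.2.1) :=
    OO_ev_of h hp fun q hq => exl_dk h hq e
  have e2 : ld S e' (exl S e) p = fderiv ℝ (fun z => 2 * dk S e S.r z / S.r z) (p.1, p.2.1) (e' / 2, 1 / (2 * S.k p.2.1)) := by
    have e3 := ld_q (S := S) (p := p) (φ := fun z => 2 * dk S e S.r z / S.r z) (b6b3_dd hkd2 hrd hr0) e'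
    rw [← e3]
    unfold ld
    rw [e1.fderiv_eq]
  rw [e2, b6b3_div hkd2 hrd hr0, fderiv_const_mul hkd]
  rfl

/-- The reduced form of Raychaudhuri's inequality (`ray`, `chi_cs`, `exl_dk`, `exl_ld`): the right side of `ray` is at most
`(2/r) ((LF/F) Lr - LLr)`. -/
theorem ray_ineq (h : Ok S) (hp : p ∈ OO S) (he : e * e = 1) (hric : 0 ≤ Ric S.G (S.Ph p) (LL S e p) (LL S e p)) :
    S.F p * dk S e (dk S e S.r) (p.1, p.2.1) ≤ ld S e S.F p * dk S e S.r (p.1, p.2.1) := by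
  have hF : 0 < S.F p := h.F_pos p hp
  have hr : 0 < S.r (p.1, p.2.1) := h.r_pos (p.1, p.2.1) hp.1
  have h1 := ray h hp he
  have h2 := chi_cs h hp e
  rw [h1, exl_ld h hp e e] at hric
  rw [exl_dk h hp e] at hric h2
  set d := dk S e S.r (p.1, p.2.1) with hd
  set d2 := dk S e (dk S e S.r) (p.1, p.2.1) with hd2
  set r := S.r (p.1, p.2.1) with hrr
  set f := ld S e S.F p with hf
  set s := ∑ i, ∑ j, ∑ a, ∑ b, QQ S i a p * QQ S j b p * chi S e i j p * chi S e a b p with hs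
  have h3 : 0 ≤ -(2 * d2 / r - 2 * d * d / r ^ 2) - (2 * d / r) ^ 2 / 2 + f / S.F p * (2 * d / r) := by linarith
  have h4 : -(2 * d2 / r - 2 * d * d / r ^ 2) - (2 * d / r) ^ 2 / 2 + f / S.F p * (2 * d / r) =
      2 / (r * S.F p) * (f * d - S.F p * d2) := by
    field_simp
    ring
  rw [h4] at h3
  have h5 : 0 < 2 / (r * S.F p) := by positivity
  have h6 := nonneg_of_mul_nonneg_right h3 h5
  linarith

end H74X
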