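import Pool.Agent.Lib.H74X.B5
import Pool.Agent.Lib.H74X.B6B

set_option autoImplicit false

/-!
# H74X, chunk B7A (M): D_i D_L L_

Auxiliary names start with `b7a_`. Template: `H17W/B6C.lean` (`kap_ds`).
-/

open MeasureTheory Filter Topology Set
open scoped ContDiff

namespace H74X

open H17T (E4 pt pos)

open H17W (ip vel cov riem Ric scal MetAt Cyl NFrame)

open Pool.Agent.Lib.PenroseSph (E3 S2 sm)

variable {S : Dat} {p : VV} {e : ℝ}

theorem b7a_ip (h : Ok S) (hp : p ∈ OO S) (e : ℝ) (j : Fin 3) :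
    ipp S p (DL S e (LL S (-e)) p) (XX S j p) = -eta S e j p := by
  have h1 : ipp S p (DL S e (LL S (-e)) p) (XX S j p) = -ipp S p (LL S (-e) p) (DL S e (XX S j) p) :=
    ip_DL_X h hp (-e) (ell S e p) j
  have h2 : ipp S p (LL S (-e) p) (DX S j (LL S e) p) = eta S e j p := ipp_symm h hp _ _
  rw [h1, b4b2_DX h hp, h2]

/-- `<D_i D_L L_{-e}, X_j> = - ∂_i η_j + Σ cc^m_ij η_m`: with `A = D_L L_{-e} = - η^a X_a` (`DL_LLm` on the domain) `<A, X_j> = - η_j` on the domain
(`hQ_apply`, `eta_rad`), so `<D_i A, X_j> = - ∂_i η_j - <A, D_i X_j>` (`ipp_D_of`, `DL_smooth`), and `<A, D_i X_j> = - Σ_m cc^m_ij η_m` (`ip_DXX`, `cc_contract`). -/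
theorem ip_DXDL (h : Ok S) (hp : p ∈ OO S) (he : e * e = 1) (i j : Fin 3) :
    ipp S p (DX S i (DL S e (LL S (-e))) p) (XX S j p) =
      -(fderiv ℝ (eta S e j) p (dY i) - ∑ m, cc S m i j p * eta S e m p) := by
  have h1 := ipp_D_of h hp (A := DL S e (LL S (-e))) (B := XX S j) (φ := fun q => -eta S e j q)
    (fun a => (DL_smooth h hp e (LL_smooth h hp (-e)) a).differentiableAt (by norm_num)) (XX_diff h hp j)
    (fun q hq => b7a_ip h hq e j) (dY i)
  have h2 : fderiv ℝ (fun q => -eta S e j q) p (dY i) = -fderiv ℝ (eta S e j) p (dY i) := by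
    rw [fderiv_fun_neg]
    rfl
  have h3 : ipp S p (DL S e (LL S (-e)) p) (DX S i (XX S j) p) = -∑ m, cc S m i j p * eta S e m p := by
    rw [DL_LLm h hp he]
    have h4 : -∑ a, (∑ b, QQ S a b p * eta S e b p) • XX S a p =
        (-1 : ℝ) • ∑ a, (∑ b, QQ S a b p * eta S e b p) • XX S a p := by
      rw [neg_smul, one_smul]
    rw [h4, ipp_smul_left, ipp_sum_left, ← cc_contract h hp (v := fun b => eta S e b p) (eta_rad h hp e) i j, neg_one_mul]
    congr 1
    refine Finset.sum_congr rfl fun a _ => ?_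
    rw [ipp_symm h hp, ip_DXX h hp i j a, Finset.mul_sum]
  rw [h2] at h1
  have h5 : ipp S p (DX S i (DL S e (LL S (-e))) p) (XX S j p) + ipp S p (DL S e (LL S (-e)) p) (DX S i (XX S j) p) =
      -fderiv ℝ (eta S e j) p (dY i) := h1
  linarith

end H74X
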