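import Pool.Agent.Lib.H74X.B5
import Pool.Agent.Lib.H74X.B6B
import Pool.Agent.Lib.H74X.B7A

set_option autoImplicit false

/-!
# H74X, chunk B7B (M): mixed equation

Auxiliary names start with `b7b_`. Template: `H17W/B6C.lean` (`kap_ds`).
-/

open MeasureTheory Filter Topology Set
open scoped ContDiff

namespace H74X

open H17T (E4 pt pos)

open H17W (ip vel cov riem Ric scal MetAt Cyl NFrame)

open Pool.Agent.Lib.PenroseSph (E3 S2 sm)

variable {S : Dat} {p : VV} {e : ℝ}

/-- `<R(L,X_i) L_{-e}, X_j>`: `riem_LX` with `A = L_{-e}`; `<D_L D_i L_{-e}, X_j> = L χ^{-e}_ij - <D_i L_{-e}, D_L X_j>`, `DL_XX`, `ip_LmL`; `ip_DXDL`. -/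
theorem mix (h : Ok S) (hp : p ∈ OO S) (he : e * e = 1) (i j : Fin 3) :
    ipp S p (riem S.G (S.Ph p) (LL S e p) (XX S i p) (LL S (-e) p)) (XX S j p) =
      ld S e (chi S (-e) i j) p + (∑ m, dal S e i m p * chi S (-e) m j p) + (∑ m, dal S e j m p * chi S (-e) i m p) -
        ((∑ a, ∑ b, QQ S a b p * chi S (-e) i a p * chi S e j b p) + 2 / S.F p * (eta S (-e) i p * eta S e j p)) +
        (fderiv ℝ (eta S e j) p (dY i) - ∑ m, cc S m i j p * eta S e m p) := by
  rw [riem_LX h hp e i (A := LL S (-e)) (fun q hq a => LL_smooth h hq (-e) a), ipp_add_left, ipp_sub_left, ipp_sum_left]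
  have h1 : ipp S p (DL S e (DX S i (LL S (-e))) p) (XX S j p) + ipp S p (DX S i (LL S (-e)) p) (DL S e (XX S j) p) =
      ld S e (chi S (-e) i j) p :=
    ipp_D_of h hp (A := DX S i (LL S (-e))) (B := XX S j) (φ := chi S (-e) i j)
      (fun a => (DX_smooth h hp i (LL_smooth h hp (-e)) a).differentiableAt (by norm_num)) (XX_diff h hp j)
      (fun q hq => rfl) (ell S e p)
  have h2 : ipp S p (DX S i (LL S (-e)) p) (DL S e (XX S j) p) =
      ((∑ a, ∑ b, QQ S a b p * chi S (-e) i a p * chi S e j b p) + 2 / S.F p * (eta S (-e) i p * eta S e j p)) -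
        ∑ m, dal S e j m p * chi S (-e) i m p := by
    rw [DL_XX h hp e j, ipp_sub_right, ipp_sum_right, ip_LmL h hp he i j]
    rfl
  have h3 := ip_DXDL h hp he i j
  have h5 : ∑ m, dal S e i m p * ipp S p (DX S m (LL S (-e)) p) (XX S j p) = ∑ m, dal S e i m p * chi S (-e) m j p := rfl
  rw [h5, h3]
  linarith

/-- The trace of `mix` (`lie_trace` with `B = χ^{-e}`). -/
theorem mix_tr (h : Ok S) (hp : p ∈ OO S) (he : e * e = 1) :
    ∑ i, ∑ j, QQ S i j p * ipp S p (riem S.G (S.Ph p) (LL S e p) (XX S i p) (LL S (-e) p)) (XX S j p) =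
      ld S e (exl S (-e)) p + (∑ i, ∑ j, ∑ a, ∑ b, QQ S i a p * QQ S j b p * chi S e i j p * chi S (-e) a b p) -
        2 / S.F p * (∑ i, ∑ j, QQ S i j p * (eta S e i p * eta S (-e) j p)) + deta S e p := by
  have h1 := lie_trace h hp e (B := fun i j => chi S (-e) i j)
    (fun i j => (chi_smooth h hp (-e) i j).differentiableAt (by norm_num)) (chi_symm h hp (-e)) (chi_rad h hp (-e))
  have h2 := b6b2_con (Q := fun i j => QQ S i j p) (X := fun i j => chi S e i j p) (K := fun i j => chi S (-e) i j p)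
    (QQ_symm h hp)
  have h3 : ∀ i j, QQ S i j p * ipp S p (riem S.G (S.Ph p) (LL S e p) (XX S i p) (LL S (-e) p)) (XX S j p) =
      QQ S i j p * (ld S e (chi S (-e) i j) p + (∑ m, dal S e i m p * chi S (-e) m j p) +
        ∑ m, dal S e j m p * chi S (-e) i m p) -
        QQ S i j p * (∑ a, ∑ b, QQ S a b p * chi S (-e) i a p * chi S e j b p) -
        2 / S.F p * (QQ S i j p * (eta S (-e) i p * eta S e j p)) +
        QQ S i j p * (fderiv ℝ (eta S e j) p (dY i) - ∑ m, cc S m i j p * eta S e m p) := by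
    intro i j
    rw [mix h hp he i j]
    ring
  simp only [h3, Finset.sum_sub_distrib, Finset.sum_add_distrib, ← Finset.mul_sum]
  have h4 : ld S e (fun q => ∑ i, ∑ j, QQ S i j q * chi S (-e) i j q) p = ld S e (exl S (-e)) p := rfl
  have h5 : ∑ i, ∑ j, QQ S i j p * (fderiv ℝ (eta S e j) p (dY i) - ∑ m, cc S m i j p * eta S e m p) = deta S e p := rfl
  have h6 : ∑ i, ∑ j, QQ S i j p * (eta S (-e) i p * eta S e j p) =
      ∑ i, ∑ j, QQ S i j p * (eta S e i p * eta S (-e) j p) := by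
    rw [Finset.sum_comm]
    refine Finset.sum_congr rfl fun i _ => Finset.sum_congr rfl fun j _ => ?_
    rw [QQ_symm h hp j i, mul_comm (eta S (-e) j p)]
  rw [h1, h2, h4, h5, h6]
  ring

end H74X
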