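import Pool.Agent.Lib.H17W.A5
import Pool.Agent.Lib.H74X.B5

set_option autoImplicit false

/-!
# H74X, chunk B8A (M): Gauss equation

Auxiliary names start with `b8a_`. Template: `H17W/B6A.lean` (`gauss`), `H17W/B6B.lean` (`gauss_tr`, `b6b_alg`).
-/

open MeasureTheory Filter Topology Set
open scoped ContDiff

namespace H74X

open H17T (E4 pt pos)

open H17W (ip vel cov riem rm Ric scal MetAt Cyl NFrame)

open Pool.Agent.Lib.PenroseSph (E3 S2 sm)

variable {S : Dat} {p : VV} {e : ℝ}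

/-- The Christoffel symbols are smooth functions of `(T, ρ, y)`. -/
theorem b8a_cc_smooth (h : Ok S) (hp : p ∈ OO S) (m i j : Fin 3) : ContDiffAt ℝ ∞ (cc S m i j) p := by
  have hPd : ∀ q ∈ OO S, ∀ a b, DifferentiableAt ℝ (fun q => S.P q a b) q := fun q hq a b =>
    (h.P_smooth q hq a b).differentiableAt (by norm_num)
  have he : cc S m i j =ᶠ[𝓝 p] fun q => (1 / 2) * ∑ l, (S.P q)⁻¹ m l *
      (fderiv ℝ (fun q => S.P q j l) q (dY i) + fderiv ℝ (fun q => S.P q i l) q (dY j) -
        fderiv ℝ (fun q => S.P q i j) q (dY l)) := by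
    refine OO_ev_of h hp fun q hq => ?_
    unfold cc H31R.chr
    congr 1
    refine Finset.sum_congr rfl fun l _ => ?_
    have h1 : H31R.pd i (fun y => S.P (q.1, q.2.1, y) j l) q.2.2 = fderiv ℝ (fun q => S.P q j l) q (dY i) :=
      pd_y (φ := fun q => S.P q j l) (hPd q hq j l) i
    have h2 : H31R.pd j (fun y => S.P (q.1, q.2.1, y) i l) q.2.2 = fderiv ℝ (fun q => S.P q i l) q (dY j) :=
      pd_y (φ := fun q => S.P q i l) (hPd q hq i l) j
    have h3 : H31R.pd l (fun y => S.P (q.1, q.2.1, y) i j) q.2.2 = fderiv ℝ (fun q => S.P q i j) q (dY l) :=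
      pd_y (φ := fun q => S.P q i j) (hPd q hq i j) l
    rw [h1, h2, h3]
  refine ContDiffAt.congr_of_eventuallyEq ?_ he
  refine contDiffAt_const.mul (ContDiffAt.sum fun l _ => ?_)
  have hd : (S.P p).det ≠ 0 := (H17W.Cyl.det_pos (h.P_cyl (p.1, p.2.1) hp.1) hp.2).ne'
  have h1 := H17W.b2c_inv (A := fun q => S.P q) (p := p) (fun i j => h.P_smooth p hp i j) hd m l
  exact h1.mul (((sm_fd (h.P_smooth p hp j l) (dY i)).add (sm_fd (h.P_smooth p hp i l) (dY j))).sub
    (sm_fd (h.P_smooth p hp i j) (dY l)))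

theorem b8a_ccd (h : Ok S) (hp : p ∈ OO S) (i m j k : Fin 3) :
    fderiv ℝ (cc S m j k) p (dY i) = H31R.pd i (H31R.chr (fun y => S.P (p.1, p.2.1, y)) m j k) p.2.2 :=
  (pd_y ((b8a_cc_smooth h hp m j k).differentiableAt (by norm_num)) i).symm

/-- `<D_i D_j X_k, X_l>`. -/
theorem b8a_dd (h : Ok S) (hp : p ∈ OO S) (he : e * e = 1) (i j k l : Fin 3) :
    ipp S p (DX S i (DX S j (XX S k)) p) (XX S l p) =
      ∑ m, H31R.pd i (H31R.chr (fun y => S.P (p.1, p.2.1, y)) m j k) p.2.2 * hh S m l p +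
      (∑ m, ∑ n, cc S m j k p * cc S n i m p * hh S n l p) -
      2 / S.F p * (chi S (-e) j k p * chi S e i l p + chi S e j k p * chi S (-e) i l p) := by
  have hcd : ∀ m, DifferentiableAt ℝ (cc S m j k) p := fun m => (b8a_cc_smooth h hp m j k).differentiableAt (by norm_num)
  have hhd : ∀ m, DifferentiableAt ℝ (hh S m l) p := fun m => (hh_smooth h hp m l).differentiableAt (by norm_num)
  have h1 : ipp S p (DX S i (DX S j (XX S k)) p) (XX S l p) + ipp S p (DX S j (XX S k) p) (DX S i (XX S l) p) =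
      fderiv ℝ (fun q => ∑ m, cc S m j k q * hh S m l q) p (dY i) :=
    ipp_D_of h hp (A := DX S j (XX S k)) (B := XX S l) (φ := fun q => ∑ m, cc S m j k q * hh S m l q)
      (fun a => (DX_smooth h hp j (XX_smooth h hp k) a).differentiableAt (by norm_num)) (XX_diff h hp l)
      (fun q hq => ip_DXX h hq j k l) (dY i)
  have e3 : fderiv ℝ (fun q => ∑ m, cc S m j k q * hh S m l q) p (dY i) =
      ∑ m, (H31R.pd i (H31R.chr (fun y => S.P (p.1, p.2.1, y)) m j k) p.2.2 * hh S m l p +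
        cc S m j k p * ∑ n, (cc S n i m p * hh S n l p + cc S n i l p * hh S n m p)) := by
    have h1 : HasFDerivAt (fun q => ∑ m, cc S m j k q * hh S m l q)
        (∑ m, (cc S m j k p • fderiv ℝ (hh S m l) p + hh S m l p • fderiv ℝ (cc S m j k) p)) p := by
      apply HasFDerivAt.fun_sum
      intro m _
      exact (hcd m).hasFDerivAt.mul (hhd m).hasFDerivAt
    rw [h1.fderiv]
    simp only [ContinuousLinearMap.sum_apply, ContinuousLinearMap.add_apply, ContinuousLinearMap.smul_apply, smul_eq_mul]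
    refine Finset.sum_congr rfl fun m _ => ?_
    have h2 : ∑ n, (cc S n i m p * hh S n l p + cc S n i l p * hh S n m p) =
        ∑ n, (cc S n i m p * hh S n l p + cc S n i l p * hh S m n p) :=
      Finset.sum_congr rfl fun n _ => by rw [hh_symm h hp n m]
    rw [b8a_ccd h hp, hh_di h hp i m l, h2]
    ring
  have e4 : ipp S p (DX S j (XX S k) p) (DX S i (XX S l) p) =
      ∑ m, cc S m j k p * ∑ n, cc S n i l p * hh S n m p +
      2 / S.F p * (chi S (-e) j k p * chi S e i l p + chi S e j k p * chi S (-e) i l p) := by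
    have hterm : ∀ m, ipp S p (XX S m p) (DX S i (XX S l) p) = ∑ n, cc S n i l p * hh S n m p := by
      intro m
      rw [ipp_symm h hp]
      exact ip_DXX h hp i l m
    have hc1 := chi_eq h hp e i l
    have hc2 := chi_eq h hp (-e) i l
    rw [DXX h hp he j k, ipp_sub_left, ipp_sum_left, ipp_smul_left, ipp_add_left, ipp_smul_left, ipp_smul_left]
    simp only [hterm]
    rw [hc1, hc2]
    ring
  have e5 : ipp S p (DX S i (DX S j (XX S k)) p) (XX S l p) =
      fderiv ℝ (fun q => ∑ m, cc S m j k q * hh S m l q) p (dY i) - ipp S p (DX S j (XX S k) p) (DX S i (XX S l) p) := by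
    rw [← h1]
    ring
  rw [e5, e3, e4]
  simp only [Finset.mul_sum, Finset.sum_add_distrib, mul_add, mul_assoc]
  ring

/-- Gauss' equation. `<D_i D_j X_k, X_l> = ∂_i <D_j X_k, X_l> - <D_j X_k, D_i X_l>`, `<D_j X_k, X_l> = Σ cc^m_jk h_ml` (`ip_DXX`, on the domain),
`<D_j X_k, D_i X_l> = Σ cc^m_jk cc^n_il h_mn + (2/F) (χ^{-e}_jk χ^e_il + χ^e_jk χ^{-e}_il)` (`DXX`), `hh_di`, `H17W.cov_comm`; `∂_i cc` is `H31R.pd i` of
the Christoffel symbol of `P(T, ρ, ·)` (`pd_y`, smoothness of `cc`: `H17W.chr_smooth` for fixed `(T, ρ)` gives only the leaf; use that `hh`, `QQ` are smooth and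
`Σ_m cc^m_jk h_ml` is smooth, or that `cc` is a rational function of the first derivatives of `P`). -/
theorem gauss (h : Ok S) (hp : p ∈ OO S) (he : e * e = 1) (i j k l : Fin 3) :
    ipp S p (riem S.G (S.Ph p) (XX S i p) (XX S j p) (XX S k p)) (XX S l p) =
      (∑ m, rm (fun y => S.P (p.1, p.2.1, y)) m k i j p.2.2 * hh S m l p) -
        2 / S.F p * (chi S (-e) j k p * chi S e i l p + chi S e j k p * chi S (-e) i l p) +
        2 / S.F p * (chi S (-e) i k p * chi S e j l p + chi S e i k p * chi S (-e) j l p) := by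
  have h1 := H17W.cov_comm (G := S.G) (Φ := S.Ph) (A := XX S k) (h.met p hp) (OO_ev_of h hp h.smooth)
    (OO_ev_of h hp fun q hq a => XX_smooth h hq k a) (dY i) (dY j)
  have h2 : riem S.G (S.Ph p) (XX S i p) (XX S j p) (XX S k p) =
      DX S i (DX S j (XX S k)) p - DX S j (DX S i (XX S k)) p := h1.symm
  rw [h2, ipp_sub_left, b8a_dd h hp he i j k l, b8a_dd h hp he j i k l]
  have h3 : ∀ m j k, H31R.chr (fun y => S.P (p.1, p.2.1, y)) m j k p.2.2 = cc S m j k p := fun _ _ _ => rfl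
  simp only [rm, h3]
  simp only [Fin.sum_univ_three]
  ring

end H74X
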