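import Pool.Agent.Lib.H17W.A5
import Pool.Agent.Lib.H74X.B5
import Pool.Agent.Lib.H74X.B8A

set_option autoImplicit false

/-!
# H74X, chunk B8B (M): contracted Gauss equation

Auxiliary names start with `b8b_`. Template: `H17W/B6A.lean` (`gauss`), `H17W/B6B.lean` (`gauss_tr`, `b6b_alg`).
-/

open MeasureTheory Filter Topology Set
open scoped ContDiff

namespace H74X

open H17T (E4 pt pos)

open H17W (ip vel cov riem rm Ric scal MetAt Cyl NFrame)

open Pool.Agent.Lib.PenroseSph (E3 S2 sm)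

variable {S : Dat} {p : VV} {e : ℝ}

theorem b8b_perm1 (g : Fin 3 → Fin 3 → Fin 3 → Fin 3 → ℝ) :
    ∑ i, ∑ j, ∑ k, ∑ l, g j l k i = ∑ i, ∑ j, ∑ k, ∑ l, g i j k l := by
  rw [Finset.sum_comm]
  refine Finset.sum_congr rfl fun j _ => ?_
  rw [Finset.sum_comm]
  calc ∑ k, ∑ i, ∑ l, g j l k i = ∑ k, ∑ l, ∑ i, g j l k i := Finset.sum_congr rfl fun k _ => Finset.sum_comm
    _ = ∑ l, ∑ k, ∑ i, g j l k i := Finset.sum_comm

theorem b8b_perm2 (g : Fin 3 → Fin 3 → Fin 3 → Fin 3 → ℝ) :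
    ∑ i, ∑ j, ∑ k, ∑ l, g i k l j = ∑ i, ∑ j, ∑ k, ∑ l, g i j k l := by
  refine Finset.sum_congr rfl fun i _ => ?_
  rw [Finset.sum_comm]
  exact Finset.sum_congr rfl fun k _ => Finset.sum_comm

/-- Algebra of the contraction. -/
theorem b8b_alg {Q X K : Fin 3 → Fin 3 → ℝ} (c : ℝ) (hQ : ∀ i j, Q i j = Q j i) (hK : ∀ i j, K i j = K j i)
    (R : Fin 3 → Fin 3 → Fin 3 → Fin 3 → ℝ) :
    ∑ i, ∑ j, ∑ k, ∑ l, Q j k * Q i l * (R i j k l - c * (K j k * X i l + X j k * K i l) + c * (K i k * X j l + X i k * K j l)) =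
      (∑ i, ∑ j, ∑ k, ∑ l, Q j k * Q i l * R i j k l) - 2 * c * ((∑ i, ∑ j, Q i j * X i j) * (∑ i, ∑ j, Q i j * K i j)) +
        2 * c * ∑ i, ∑ j, ∑ a, ∑ b, Q i a * Q j b * X i j * K a b := by
  have e1 : ∑ i, ∑ j, ∑ k, ∑ l, Q j k * Q i l * (K j k * X i l) = (∑ i, ∑ j, Q i j * X i j) * (∑ i, ∑ j, Q i j * K i j) := by
    rw [Finset.sum_mul]
    refine Finset.sum_congr rfl fun i _ => ?_
    rw [Finset.mul_sum]
    refine Finset.sum_congr rfl fun j _ => ?_
    rw [Finset.mul_sum]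
    refine Finset.sum_congr rfl fun k _ => ?_
    rw [Finset.sum_mul]
    exact Finset.sum_congr rfl fun l _ => by ring
  have e2 : ∑ i, ∑ j, ∑ k, ∑ l, Q j k * Q i l * (X j k * K i l) = (∑ i, ∑ j, Q i j * X i j) * (∑ i, ∑ j, Q i j * K i j) := by
    rw [mul_comm, Finset.sum_mul]
    refine Finset.sum_congr rfl fun i _ => ?_
    rw [Finset.mul_sum]
    refine Finset.sum_congr rfl fun j _ => ?_
    rw [Finset.mul_sum]
    refine Finset.sum_congr rfl fun k _ => ?_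
    rw [Finset.sum_mul]
    exact Finset.sum_congr rfl fun l _ => by ring
  have e3 : ∑ i, ∑ j, ∑ k, ∑ l, Q j k * Q i l * (K i k * X j l) = ∑ i, ∑ j, ∑ a, ∑ b, Q i a * Q j b * X i j * K a b := by
    rw [← b8b_perm1 fun i j a b => Q i a * Q j b * X i j * K a b]
    refine Finset.sum_congr rfl fun i _ => Finset.sum_congr rfl fun j _ => Finset.sum_congr rfl fun k _ =>
      Finset.sum_congr rfl fun l _ => ?_
    rw [hQ i l, hK i k]
    ring
  have e4 : ∑ i, ∑ j, ∑ k, ∑ l, Q j k * Q i l * (X i k * K j l) = ∑ i, ∑ j, ∑ a, ∑ b, Q i a * Q j b * X i j * K a b := by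
    rw [← b8b_perm2 fun i j a b => Q i a * Q j b * X i j * K a b]
    refine Finset.sum_congr rfl fun i _ => Finset.sum_congr rfl fun j _ => Finset.sum_congr rfl fun k _ =>
      Finset.sum_congr rfl fun l _ => ?_
    rw [hQ j k, hK j l]
    ring
  have e5 : ∀ i j k l, Q j k * Q i l * (R i j k l - c * (K j k * X i l + X j k * K i l) + c * (K i k * X j l + X i k * K j l)) =
      Q j k * Q i l * R i j k l - c * (Q j k * Q i l * (K j k * X i l)) - c * (Q j k * Q i l * (X j k * K i l)) +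
        c * (Q j k * Q i l * (K i k * X j l)) + c * (Q j k * Q i l * (X i k * K j l)) := fun i j k l => by ring
  simp only [e5, Finset.sum_add_distrib, Finset.sum_sub_distrib, ← Finset.mul_sum, e1, e2, e3, e4]
  ring

/-- The curvature term of the contraction. -/
theorem b8b_R (h : Ok S) (hp : p ∈ OO S) :
    ∑ i, ∑ j, ∑ k, ∑ l, QQ S j k p * QQ S i l p * (∑ m, rm (fun y => S.P (p.1, p.2.1, y)) m k i j p.2.2 * hh S m l p) =
      scal (fun y => S.P (p.1, p.2.1, y)) p.2.2 / rr S p ^ 2 := by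
  have hP := h.P_cyl (p.1, p.2.1) hp.1
  have hx : p.2.2 ≠ 0 := hp.2
  have hPM := H17W.cyl_metAt hP hx
  have hr : rr S p ≠ 0 := (rr_pos h hp).ne'
  -- contraction with `Q^il`
  have e1 : ∀ i j k, ∑ l, QQ S i l p * (∑ m, rm (fun y => S.P (p.1, p.2.1, y)) m k i j p.2.2 * hh S m l p) =
      rm (fun y => S.P (p.1, p.2.1, y)) i k i j p.2.2 := by
    intro i j k
    have h1 : ∑ l, QQ S i l p * (∑ m, rm (fun y => S.P (p.1, p.2.1, y)) m k i j p.2.2 * hh S m l p) =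
        ∑ m, rm (fun y => S.P (p.1, p.2.1, y)) m k i j p.2.2 * ∑ l, hh S m l p * QQ S l i p := by
      simp only [Finset.mul_sum]
      rw [Finset.sum_comm]
      refine Finset.sum_congr rfl fun m _ => Finset.sum_congr rfl fun l _ => ?_
      rw [QQ_symm h hp i l]
      ring
    rw [h1]
    have h2 : ∀ m, ∑ l, hh S m l p * QQ S l i p = (if m = i then 1 else 0) - p.2.2 m * p.2.2 i / ‖p.2.2‖ ^ 2 := fun m =>
      hQ h hp m i
    simp only [h2, mul_sub, Finset.sum_sub_distrib]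
    have h3 : ∑ m, rm (fun y => S.P (p.1, p.2.1, y)) m k i j p.2.2 * (p.2.2 m * p.2.2 i / ‖p.2.2‖ ^ 2) = 0 := by
      have h4 := H17W.cyl_riem_up hP hx k i j
      calc ∑ m, rm (fun y => S.P (p.1, p.2.1, y)) m k i j p.2.2 * (p.2.2 m * p.2.2 i / ‖p.2.2‖ ^ 2) =
          (∑ m, rm (fun y => S.P (p.1, p.2.1, y)) m k i j p.2.2 * p.2.2 m) * (p.2.2 i / ‖p.2.2‖ ^ 2) := by
            rw [Finset.sum_mul]
            exact Finset.sum_congr rfl fun m _ => by ring
        _ = 0 := by rw [h4, zero_mul]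
    rw [h3, sub_zero]
    simp
  have e2 : ∀ i j, ∑ k, ∑ l, QQ S j k p * QQ S i l p * (∑ m, rm (fun y => S.P (p.1, p.2.1, y)) m k i j p.2.2 * hh S m l p) =
      ∑ k, QQ S j k p * rm (fun y => S.P (p.1, p.2.1, y)) i k i j p.2.2 := by
    intro i j
    refine Finset.sum_congr rfl fun k _ => ?_
    rw [← e1 i j k, Finset.mul_sum]
    exact Finset.sum_congr rfl fun l _ => by ring
  simp only [e2]
  rw [Finset.sum_comm]
  have e3 : ∀ j, ∑ i, ∑ k, QQ S j k p * rm (fun y => S.P (p.1, p.2.1, y)) i k i j p.2.2 =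
      (∑ k, (S.P p)⁻¹ j k * H31R.ric (fun y => S.P (p.1, p.2.1, y)) k j p.2.2 -
        p.2.2 j * ∑ k, H31R.ric (fun y => S.P (p.1, p.2.1, y)) k j p.2.2 * p.2.2 k) / rr S p ^ 2 := by
    intro j
    rw [Finset.sum_comm]
    have h1 : ∀ k, ∑ i, QQ S j k p * rm (fun y => S.P (p.1, p.2.1, y)) i k i j p.2.2 =
        QQ S j k p * H31R.ric (fun y => S.P (p.1, p.2.1, y)) k j p.2.2 := by
      intro k
      rw [H17W.ric_eq hPM, Finset.mul_sum]
    simp only [h1]
    rw [Finset.mul_sum, ← Finset.sum_sub_distrib, Finset.sum_div]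
    refine Finset.sum_congr rfl fun k _ => ?_
    unfold QQ
    ring
  simp only [e3]
  rw [← Finset.sum_div, Finset.sum_sub_distrib]
  have e4 : ∑ j, p.2.2 j * ∑ k, H31R.ric (fun y => S.P (p.1, p.2.1, y)) k j p.2.2 * p.2.2 k = 0 := by
    have h1 : ∑ j, p.2.2 j * ∑ k, H31R.ric (fun y => S.P (p.1, p.2.1, y)) k j p.2.2 * p.2.2 k =
        ∑ k, p.2.2 k * ∑ j, H31R.ric (fun y => S.P (p.1, p.2.1, y)) k j p.2.2 * p.2.2 j := by
      simp only [Finset.mul_sum]
      rw [Finset.sum_comm]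
      exact Finset.sum_congr rfl fun k _ => Finset.sum_congr rfl fun j _ => by ring
    rw [h1]
    simp only [H17W.cyl_ric hP hx, mul_zero, Finset.sum_const_zero]
  rw [e4, sub_zero, Finset.sum_comm]
  congr 1
  unfold scal
  refine Finset.sum_congr rfl fun i _ => Finset.sum_congr rfl fun j _ => ?_
  rw [Pinv_symm h hp j i]

/-- The contraction of `gauss` with `Q^jk Q^il`: `Σ_l h_ml Q^il = δ_mi - y_m y_i/|y|²` (`hQ`), `H17W.cyl_riem`, `ric_eq`, `cyl_ric`; `r² Q = P⁻¹ - y y`. -/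
theorem gauss_tr (h : Ok S) (hp : p ∈ OO S) (he : e * e = 1) :
    ∑ i, ∑ j, ∑ k, ∑ l, QQ S j k p * QQ S i l p *
      ipp S p (riem S.G (S.Ph p) (XX S i p) (XX S j p) (XX S k p)) (XX S l p) =
      scal (fun y => S.P (p.1, p.2.1, y)) p.2.2 / rr S p ^ 2 - 4 / S.F p * (exl S e p * exl S (-e) p) +
        4 / S.F p * ∑ i, ∑ j, ∑ a, ∑ b, QQ S i a p * QQ S j b p * chi S e i j p * chi S (-e) a b p := by
  have h1 := b8b_alg (Q := fun i j => QQ S i j p) (X := fun i j => chi S e i j p) (K := fun i j => chi S (-e) i j p)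
    (2 / S.F p) (fun i j => QQ_symm h hp i j) (fun i j => chi_symm h hp (-e) i j)
    (fun i j k l => ∑ m, rm (fun y => S.P (p.1, p.2.1, y)) m k i j p.2.2 * hh S m l p)
  simp only [gauss h hp he]
  rw [h1, b8b_R h hp]
  have h2 : ∑ i, ∑ j, QQ S i j p * chi S e i j p = exl S e p := rfl
  have h3 : ∑ i, ∑ j, QQ S i j p * chi S (-e) i j p = exl S (-e) p := rfl
  rw [h2, h3]
  ring

end H74X
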