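import Pool.Agent.Lib.H74X.B7
import Pool.Agent.Lib.H74X.B8

set_option autoImplicit false

/-!
# H74X, chunk B9A (M): trace of Ric over the leaf

Auxiliary names start with `b9a_`. Template: `H17W/B6D.lean` (`rr_eq`, `theta_eq`).
-/

open MeasureTheory Filter Topology Set
open scoped ContDiff

namespace H74X

open H17T (E4 pt pos)

open H17W (ip vel cov riem rm Ric scal MetAt Cyl NFrame)

open Pool.Agent.Lib.PenroseSph (E3 S2 sm)

variable {S : Dat} {p : VV} {e : ℝ}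

theorem b9a_perm (g : Fin 3 → Fin 3 → Fin 3 → Fin 3 → ℝ) :
    ∑ i, ∑ j, ∑ k, ∑ l, g k j i l = ∑ i, ∑ j, ∑ k, ∑ l, g i j k l := by
  calc ∑ i, ∑ j, ∑ k, ∑ l, g k j i l = ∑ j, ∑ i, ∑ k, ∑ l, g k j i l := Finset.sum_comm
    _ = ∑ j, ∑ i, ∑ k, ∑ l, g i j k l := Finset.sum_congr rfl fun j _ => Finset.sum_comm
    _ = ∑ i, ∑ j, ∑ k, ∑ l, g i j k l := Finset.sum_comm

/-- `H17W.Ric_frame` for `Ric(X_i, X_j)` with `L = L_e`, `k = (4/F) L_{-e}` (`nframe`): `<R(L,X_j)X_i,k> = - <R(L,X_j)k,X_i>`,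
`<R(k,X_j)X_i,L> = <R(X_i,L)k,X_j> = - <R(L,X_i)k,X_j>` (`riem_skew`, `riem_pair`, `riem_anti`, `riem_smul3`). -/
theorem ricS_eq (h : Ok S) (hp : p ∈ OO S) (he : e * e = 1) :
    ricS S p = (∑ i, ∑ j, ∑ k, ∑ l, QQ S j k p * QQ S i l p *
      ipp S p (riem S.G (S.Ph p) (XX S i p) (XX S j p) (XX S k p)) (XX S l p)) -
      4 / S.F p * ∑ i, ∑ j, QQ S i j p *
        ipp S p (riem S.G (S.Ph p) (LL S e p) (XX S i p) (LL S (-e) p)) (XX S j p) := by
  have hM := h.met p hp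
  have hF := nframe h hp he
  have hQ' : ∀ i j, QQ S i j p = QQ S j i p := QQ_symm h hp
  set k : Fin 4 → ℝ := (4 / S.F p) • LL S (-e) p with hk
  have h1 : ∀ i j, Ric S.G (S.Ph p) (XX S i p) (XX S j p) =
      (∑ a, ∑ b, QQ S a b p * ipp S p (riem S.G (S.Ph p) (XX S a p) (XX S j p) (XX S i p)) (XX S b p)) -
      ipp S p (riem S.G (S.Ph p) (LL S e p) (XX S j p) k) (XX S i p) / 2 -
      ipp S p (riem S.G (S.Ph p) (LL S e p) (XX S i p) k) (XX S j p) / 2 := by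
    intro i j
    have h2 := H17W.Ric_frame hM hF (XX S i p) (XX S j p)
    have h3 := H17W.riem_skew hM (LL S e p) (XX S j p) (XX S i p) k
    have h4 := H17W.riem_pair hM k (XX S j p) (XX S i p) (LL S e p)
    have h5 : riem S.G (S.Ph p) (XX S i p) (LL S e p) k = (-1 : ℝ) • riem S.G (S.Ph p) (LL S e p) (XX S i p) k := by
      rw [neg_one_smul]
      exact H17W.riem_anti _ _ _
    rw [h5, H17W.ip_smul_left] at h4
    rw [h2, h3, h4]
    unfold ipp
    ring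
  have hk2 : ∀ i j, ipp S p (riem S.G (S.Ph p) (LL S e p) (XX S i p) k) (XX S j p) =
      4 / S.F p * ipp S p (riem S.G (S.Ph p) (LL S e p) (XX S i p) (LL S (-e) p)) (XX S j p) := by
    intro i j
    rw [hk, H17W.riem_smul3, ipp_smul_left]
  unfold ricS
  simp only [h1, hk2]
  have e1 : ∀ i j, QQ S i j p * ((∑ a, ∑ b, QQ S a b p *
        ipp S p (riem S.G (S.Ph p) (XX S a p) (XX S j p) (XX S i p)) (XX S b p)) -
      4 / S.F p * ipp S p (riem S.G (S.Ph p) (LL S e p) (XX S j p) (LL S (-e) p)) (XX S i p) / 2 -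
      4 / S.F p * ipp S p (riem S.G (S.Ph p) (LL S e p) (XX S i p) (LL S (-e) p)) (XX S j p) / 2) =
      (∑ a, ∑ b, QQ S j i p * QQ S a b p *
        ipp S p (riem S.G (S.Ph p) (XX S a p) (XX S j p) (XX S i p)) (XX S b p)) -
      2 / S.F p * (QQ S j i p * ipp S p (riem S.G (S.Ph p) (LL S e p) (XX S j p) (LL S (-e) p)) (XX S i p)) -
      2 / S.F p * (QQ S i j p * ipp S p (riem S.G (S.Ph p) (LL S e p) (XX S i p) (LL S (-e) p)) (XX S j p)) := by
    intro i j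
    rw [hQ' i j]
    simp only [mul_assoc, ← Finset.mul_sum]
    ring
  simp only [e1, Finset.sum_sub_distrib, ← Finset.mul_sum]
  have e2 : ∑ i, ∑ j, QQ S j i p * ipp S p (riem S.G (S.Ph p) (LL S e p) (XX S j p) (LL S (-e) p)) (XX S i p) =
      ∑ i, ∑ j, QQ S i j p * ipp S p (riem S.G (S.Ph p) (LL S e p) (XX S i p) (LL S (-e) p)) (XX S j p) :=
    Finset.sum_comm
  have e3 : ∑ i, ∑ j, ∑ a, ∑ b, QQ S j i p * QQ S a b p *
        ipp S p (riem S.G (S.Ph p) (XX S a p) (XX S j p) (XX S i p)) (XX S b p) =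
      ∑ i, ∑ j, ∑ k, ∑ l, QQ S j k p * QQ S i l p *
        ipp S p (riem S.G (S.Ph p) (XX S i p) (XX S j p) (XX S k p)) (XX S l p) :=
    b9a_perm fun i j k l => QQ S j k p * QQ S i l p *
        ipp S p (riem S.G (S.Ph p) (XX S i p) (XX S j p) (XX S k p)) (XX S l p)
  rw [e2, e3]
  ring

/-- `ricS_eq`, `gauss_tr`, `mix_tr`. -/
theorem ricS_formula (h : Ok S) (hp : p ∈ OO S) (he : e * e = 1) :
    ricS S p = scal (fun y => S.P (p.1, p.2.1, y)) p.2.2 / rr S p ^ 2 -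
      4 / S.F p * (exl S e p * exl S (-e) p + ld S e (exl S (-e)) p + deta S e p) +
      8 / S.F p ^ 2 * ∑ i, ∑ j, QQ S i j p * (eta S e i p * eta S (-e) j p) := by
  have hF : S.F p ≠ 0 := (h.F_pos p hp).ne'
  rw [ricS_eq h hp he, gauss_tr h hp he, mix_tr h hp he]
  field_simp
  ring

/-- `exl_dk`, `exl_ld`. -/
theorem ricS_formula' (h : Ok S) (hp : p ∈ OO S) (he : e * e = 1) :
    ricS S p = scal (fun y => S.P (p.1, p.2.1, y)) p.2.2 / rr S p ^ 2 -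
      8 / (S.F p * rr S p ^ 2) * (rr S p * dk S e (dk S (-e) S.r) (p.1, p.2.1) + dk S e S.r (p.1, p.2.1) * dk S (-e) S.r (p.1, p.2.1)) -
      4 / S.F p * deta S e p +
      8 / S.F p ^ 2 * ∑ i, ∑ j, QQ S i j p * (eta S e i p * eta S (-e) j p) := by
  have hF : S.F p ≠ 0 := (h.F_pos p hp).ne'
  have hr : rr S p ≠ 0 := (rr_pos h hp).ne'
  have e0 : S.r (p.1, p.2.1) = rr S p := rfl
  rw [ricS_formula h hp he, exl_dk h hp e, exl_dk h hp (-e), exl_ld h hp (-e) e, e0]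
  field_simp
  ring

end H74X
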