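import Pool.Agent.Lib.H74X.B7
import Pool.Agent.Lib.H74X.B8
import Pool.Agent.Lib.H74X.B9A
import Pool.Agent.Lib.H17T.Rev

set_option autoImplicit false

/-!
# H74X, chunk B9B (S/M): mean of the two formulas

Auxiliary names start with `b9b_`. Template: `H17W/B6D.lean` (`rr_eq`, `theta_eq`).
-/

open MeasureTheory Filter Topology Set
open scoped ContDiff

namespace H74X

open H17T (E4 pt pos)

open H17W (ip vel cov riem rm Ric scal MetAt Cyl NFrame)

open Pool.Agent.Lib.PenroseSph (E3 S2 sm)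

variable {S : Dat} {p : VV} {e : ℝ}

/-- `η_e + η_{-e} = ∂F/2` on the domain (`eta_sum`), differentiate. -/
theorem deta_sum (h : Ok S) (hp : p ∈ OO S) (he : e * e = 1) :
    deta S e p + deta S (-e) p = 1 / 2 * ∑ i, ∑ j, QQ S i j p *
      (fderiv ℝ (fun q => fderiv ℝ S.F q (dY j)) p (dY i) - ∑ m, cc S m i j p * fderiv ℝ S.F p (dY m)) := by
  have h1 : ∀ i j, fderiv ℝ (eta S e j) p (dY i) + fderiv ℝ (eta S (-e) j) p (dY i) =
      1 / 2 * fderiv ℝ (fun q => fderiv ℝ S.F q (dY j)) p (dY i) := by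
    intro i j
    have e1 : (fun q => eta S e j q + eta S (-e) j q) =ᶠ[𝓝 p] fun q => 1 / 2 * fderiv ℝ S.F q (dY j) :=
      OO_ev_of h hp fun q hq => by
        change eta S e j q + eta S (-e) j q = 1 / 2 * fderiv ℝ S.F q (dY j)
        rw [eta_sum h hq he j]
        ring
    have e2 : fderiv ℝ (fun q => eta S e j q + eta S (-e) j q) p =
        fderiv ℝ (eta S e j) p + fderiv ℝ (eta S (-e) j) p :=
      fderiv_fun_add ((eta_smooth h hp e j).differentiableAt (by norm_num))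
        ((eta_smooth h hp (-e) j).differentiableAt (by norm_num))
    have e3 : fderiv ℝ (fun q => 1 / 2 * fderiv ℝ S.F q (dY j)) p =
        (1 / 2 : ℝ) • fderiv ℝ (fun q => fderiv ℝ S.F q (dY j)) p :=
      fderiv_const_mul ((sm_fd (h.F_smooth p hp) (dY j)).differentiableAt (by norm_num)) _
    rw [e1.fderiv_eq, e3] at e2
    have e4 := congrArg (fun T : VV →L[ℝ] ℝ => T (dY i)) e2
    exact e4.symm
  unfold deta
  rw [← Finset.sum_add_distrib, Finset.mul_sum]
  refine Finset.sum_congr rfl fun i _ => ?_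
  rw [← Finset.sum_add_distrib, Finset.mul_sum]
  refine Finset.sum_congr rfl fun j _ => ?_
  have h2 : (∑ m, cc S m i j p * eta S e m p) + ∑ m, cc S m i j p * eta S (-e) m p =
      1 / 2 * ∑ m, cc S m i j p * fderiv ℝ S.F p (dY m) := by
    rw [← Finset.sum_add_distrib, Finset.mul_sum]
    refine Finset.sum_congr rfl fun m _ => ?_
    have h3 := eta_sum h hp he m
    linear_combination cc S m i j p * h3
  linear_combination QQ S i j p * h1 i j - QQ S i j p * h2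

/-- `4 <a, b> ≤ |a + b|²` for the positive semidefinite form `Q` (`QQ_pos` for `a - b`), `eta_sum`. -/
theorem eta_cs (h : Ok S) (hp : p ∈ OO S) (he : e * e = 1) :
    16 * (∑ i, ∑ j, QQ S i j p * (eta S e i p * eta S (-e) j p)) ≤
      ∑ i, ∑ j, QQ S i j p * (fderiv ℝ S.F p (dY i) * fderiv ℝ S.F p (dY j)) := by
  have h1 := QQ_pos h hp (fun i => eta S e i p - eta S (-e) i p)
  have hs : ∑ i, ∑ j, QQ S i j p * (eta S (-e) i p * eta S e j p) =
      ∑ i, ∑ j, QQ S i j p * (eta S e i p * eta S (-e) j p) := by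
    rw [Finset.sum_comm]
    refine Finset.sum_congr rfl fun i _ => Finset.sum_congr rfl fun j _ => ?_
    rw [QQ_symm h hp j i, mul_comm (eta S (-e) j p)]
  have e1 : ∑ i, ∑ j, QQ S i j p * (fderiv ℝ S.F p (dY i) * fderiv ℝ S.F p (dY j)) =
      4 * ∑ i, ∑ j, QQ S i j p * (eta S e i p * eta S e j p) + 4 * ∑ i, ∑ j, QQ S i j p * (eta S e i p * eta S (-e) j p) +
      4 * ∑ i, ∑ j, QQ S i j p * (eta S (-e) i p * eta S e j p) +
      4 * ∑ i, ∑ j, QQ S i j p * (eta S (-e) i p * eta S (-e) j p) := by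
    simp only [Finset.mul_sum, ← Finset.sum_add_distrib]
    refine Finset.sum_congr rfl fun i _ => Finset.sum_congr rfl fun j _ => ?_
    have h3 : fderiv ℝ S.F p (dY i) = 2 * (eta S e i p + eta S (-e) i p) := by
      rw [eta_sum h hp he i]
      ring
    have h4 : fderiv ℝ S.F p (dY j) = 2 * (eta S e j p + eta S (-e) j p) := by
      rw [eta_sum h hp he j]
      ring
    rw [h3, h4]
    ring
  have e2 : ∑ i, ∑ j, QQ S i j p * (eta S e i p - eta S (-e) i p) * (eta S e j p - eta S (-e) j p) =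
      ∑ i, ∑ j, QQ S i j p * (eta S e i p * eta S e j p) - ∑ i, ∑ j, QQ S i j p * (eta S e i p * eta S (-e) j p) -
      ∑ i, ∑ j, QQ S i j p * (eta S (-e) i p * eta S e j p) +
      ∑ i, ∑ j, QQ S i j p * (eta S (-e) i p * eta S (-e) j p) := by
    simp only [← Finset.sum_sub_distrib, ← Finset.sum_add_distrib]
    exact Finset.sum_congr rfl fun i _ => Finset.sum_congr rfl fun j _ => by ring
  rw [e2, hs] at h1
  rw [e1, hs]
  linarith

/-- `dk 1` and `dk (-1)` commute (`H17T.D_comm` in `H17T/Rev.lean`; `dk S 1 = H17T.Da S.k`, `dk S (-1) = H17T.Db S.k` up to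
`-1 / 2 = -(1 / 2)`). -/
theorem dk_comm (h : Ok S) {q : ℝ × ℝ} (hq : q ∈ S.D) {φ : ℝ × ℝ → ℝ} (hφ : ContDiffAt ℝ ∞ φ q) :
    dk S (-1) (dk S 1 φ) q = dk S 1 (dk S (-1) φ) q := by
  have h1 : ∀ ψ : ℝ × ℝ → ℝ, dk S 1 ψ = H17T.Da S.k ψ := fun ψ => rfl
  have h2 : ∀ ψ : ℝ × ℝ → ℝ, dk S (-1) ψ = H17T.Db S.k ψ := by
    intro ψ
    funext z
    unfold dk H17T.Db
    rw [neg_div]
  rw [h1 φ, h2, h1, h2]
  exact (H17T.D_comm (h.k_smooth q hq) (h.k_pos q hq) hφ).symm

/-- The mean of `ricS_formula'` for `e = 1` and `e = -1`. -/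
theorem ricS_le (h : Ok S) (hp : p ∈ OO S) :
    rr S p ^ 2 * ricS S p ≤ scal (fun y => S.P (p.1, p.2.1, y)) p.2.2 -
      8 / S.F p * (rr S p * dk S 1 (dk S (-1) S.r) (p.1, p.2.1) + dk S 1 S.r (p.1, p.2.1) * dk S (-1) S.r (p.1, p.2.1)) -
      rr S p ^ 2 / S.F p * (∑ i, ∑ j, QQ S i j p *
        (fderiv ℝ (fun q => fderiv ℝ S.F q (dY j)) p (dY i) - ∑ m, cc S m i j p * fderiv ℝ S.F p (dY m))) +
      rr S p ^ 2 / (2 * S.F p ^ 2) * ∑ i, ∑ j, QQ S i j p * (fderiv ℝ S.F p (dY i) * fderiv ℝ S.F p (dY j)) := by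
  have hF : 0 < S.F p := h.F_pos p hp
  have hr : 0 < rr S p := rr_pos h hp
  have he : (1 : ℝ) * 1 = 1 := one_mul 1
  have he' : (-1 : ℝ) * -1 = 1 := by norm_num
  have f1 := ricS_formula' h hp he
  have f2 := ricS_formula' h hp he'
  rw [neg_neg] at f2
  have hc := dk_comm h hp.1 (h.r_smooth (p.1, p.2.1) hp.1)
  have hs : ∑ i, ∑ j, QQ S i j p * (eta S (-1) i p * eta S 1 j p) =
      ∑ i, ∑ j, QQ S i j p * (eta S 1 i p * eta S (-1) j p) := by
    rw [Finset.sum_comm]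
    refine Finset.sum_congr rfl fun i _ => Finset.sum_congr rfl fun j _ => ?_
    rw [QQ_symm h hp j i, mul_comm (eta S (-1) j p)]
  rw [hc, hs] at f2
  have hds := deta_sum h hp he
  have hcs := eta_cs h hp he
  set c := dk S 1 (dk S (-1) S.r) (p.1, p.2.1) with hcd
  set a := dk S 1 S.r (p.1, p.2.1) with had
  set b := dk S (-1) S.r (p.1, p.2.1) with hbd
  set W := ∑ i, ∑ j, QQ S i j p * (eta S 1 i p * eta S (-1) j p) with hW
  set Z := ∑ i, ∑ j, QQ S i j p * (fderiv ℝ S.F p (dY i) * fderiv ℝ S.F p (dY j)) with hZ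
  set Y := ∑ i, ∑ j, QQ S i j p *
    (fderiv ℝ (fun q => fderiv ℝ S.F q (dY j)) p (dY i) - ∑ m, cc S m i j p * fderiv ℝ S.F p (dY m)) with hY
  set s := scal (fun y => S.P (p.1, p.2.1, y)) p.2.2 with hsd
  have key : rr S p ^ 2 * ricS S p = s - 8 / S.F p * (rr S p * c + a * b) -
      2 * rr S p ^ 2 / S.F p * (deta S 1 p + deta S (-1) p) + 8 * rr S p ^ 2 / S.F p ^ 2 * W := by
    have h1 : ricS S p = (ricS S p + ricS S p) / 2 := by ring
    rw [h1]
    nth_rewrite 1 [f1]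
    rw [f2]
    field_simp
    ring
  rw [key, hds]
  have h2 : 8 * rr S p ^ 2 / S.F p ^ 2 * W ≤ rr S p ^ 2 / (2 * S.F p ^ 2) * Z := by
    have h3 : 8 * rr S p ^ 2 / S.F p ^ 2 * W = rr S p ^ 2 / (2 * S.F p ^ 2) * (16 * W) := by
      field_simp
      ring
    rw [h3]
    exact mul_le_mul_of_nonneg_left hcs (by positivity)
  have h4 : 2 * rr S p ^ 2 / S.F p * (1 / 2 * Y) = rr S p ^ 2 / S.F p * Y := by ring
  rw [h4]
  linarith

end H74X
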