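import Pool.Agent.Lib.H17W.C2
import Pool.Agent.Lib.H17W.CI
import Pool.Agent.Lib.H74X.B10

set_option autoImplicit false

/-!
# H74X, chunk BE1 (M): integrals of scal and of the Laplacian

Auxiliary names start with `be1_`. `H17W.flux` (file `H17W/C1.lean`), `H17W.div_form` (`C2.lean`), `H17W.gauss_bonnet` (`CI.lean`).
-/

open MeasureTheory Filter Topology Set
open scoped ContDiff

namespace H74X

open H17T (E4 pt pos)

open H17W (ip vel cov riem rm Ric scal MetAt Cyl NFrame)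

open Pool.Agent.Lib.PenroseSph (E3 S2 sm pd)

variable {S : Dat} {q : ℝ × ℝ}

/-- The point `(T, ρ, n)`. -/
theorem leaf_mem (hq : q ∈ S.D) {y : E3} (hy : y ≠ 0) : ((q.1, q.2, y) : VV) ∈ OO S := ⟨hq, hy⟩

theorem be1_norm (n : S2) : ‖(n : E3)‖ = 1 := by simp

theorem be1_ne (n : S2) : (n : E3) ≠ 0 := by
  intro h
  have h1 := be1_norm n
  rw [h, norm_zero] at h1
  exact zero_ne_one h1

/-- `P` has the area density of the round sphere at the points of the unit sphere. -/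
theorem sdet_one (h : Ok S) (hq : q ∈ S.D) (n : S2) : Real.sqrt (S.P (q.1, q.2, (n : E3))).det = 1 := by
  rw [h.P_det _ (leaf_mem hq (be1_ne n))]
  have h1 : ‖((q.1, q.2, (n : E3)) : VV).2.2‖ = 1 := be1_norm n
  rw [h1]
  simp

/-- `∫ scal P = 8 π` (`gauss_bonnet`, `sdet_one`). -/
theorem int_scal (h : Ok S) (hq : q ∈ S.D) :
    ∫ n : S2, scal (fun y => S.P (q.1, q.2, y)) (n : E3) ∂sm = 8 * Real.pi := by
  rw [← H17W.gauss_bonnet (h.P_cyl q hq)]
  refine integral_congr_ae (Eventually.of_forall fun n => ?_)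
  dsimp only
  rw [sdet_one h hq n, mul_one]

/-- `∂F` is homogeneous of degree `-1`. -/
theorem be1_dF (h : Ok S) (hq : q ∈ S.D) {y : E3} (hy : y ≠ 0) {c : ℝ} (hc : 0 < c) (i : Fin 3) :
    c * fderiv ℝ S.F (q.1, q.2, c • y) (dY i) = fderiv ℝ S.F (q.1, q.2, y) (dY i) := by
  have hm := leaf_mem hq hy
  have hmc : ((q.1, q.2, c • y) : VV) ∈ OO S := leaf_mem hq (smul_ne_zero hc.ne' hy)
  have h1 : HasFDerivAt S.F (fderiv ℝ S.F (q.1, q.2, c • y)) (q.1, q.2, c • y) :=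
    ((h.F_smooth _ hmc).differentiableAt (by norm_num)).hasFDerivAt
  have h2 : HasFDerivAt (fun z : E3 => ((q.1, q.2, c • z) : VV)) ((0 : E3 →L[ℝ] ℝ).prod
      ((0 : E3 →L[ℝ] ℝ).prod (c • ContinuousLinearMap.id ℝ E3))) y :=
    (hasFDerivAt_const q.1 y).prodMk ((hasFDerivAt_const q.2 y).prodMk ((hasFDerivAt_id y).const_smul c))
  have h3 := HasFDerivAt.comp (g := S.F) (f := fun z : E3 => ((q.1, q.2, c • z) : VV)) y h1 h2
  have h4 : (S.F ∘ fun z : E3 => ((q.1, q.2, c • z) : VV)) =ᶠ[𝓝 y] fun z => S.F (q.1, q.2, z) := by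
    filter_upwards [isOpen_ne.mem_nhds hy] with z hz
    exact (h.hom _ (leaf_mem hq hz) c hc).2.1
  have h5 := pd_y' (p := (q.1, q.2, y)) ((h.F_smooth _ hm).differentiableAt (by norm_num)) i
  rw [← h5]
  unfold pd
  dsimp only
  rw [← h4.fderiv_eq, h3.fderiv]
  have h6 : (((0 : E3 →L[ℝ] ℝ).prod ((0 : E3 →L[ℝ] ℝ).prod (c • ContinuousLinearMap.id ℝ E3)))
      (EuclideanSpace.single i (1 : ℝ)) : VV) = c • dY i := by
    refine Prod.ext ?_ (Prod.ext ?_ ?_)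
    · simp [dY]
    · simp [dY]
    · simp [dY]
  rw [ContinuousLinearMap.comp_apply, h6, map_smul, smul_eq_mul]

/-- `P(c y)⁻¹ = c² P(y)⁻¹`. -/
theorem be1_inv {P : E3 → Matrix (Fin 3) (Fin 3) ℝ} (hP : Cyl P) {y : E3} (hy : y ≠ 0) {c : ℝ} (hc : 0 < c) (i j : Fin 3) :
    (P (c • y))⁻¹ i j = c ^ 2 * (P y)⁻¹ i j := by
  have h1 : P (c • y) = (c ^ 2)⁻¹ • P y := by
    ext a b
    rw [hP.hom y hy c hc a b, Matrix.smul_apply, smul_eq_mul, div_eq_inv_mul]
  have hu := H17W.cb1_unit hP hy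
  have h2 : (P (c • y))⁻¹ = c ^ 2 • (P y)⁻¹ := by
    rw [h1]
    refine Matrix.inv_eq_left_inv ?_
    rw [Matrix.smul_mul, Matrix.mul_smul, Matrix.nonsing_inv_mul _ hu, smul_smul, mul_inv_cancel₀ (by positivity), one_smul]
  rw [h2, Matrix.smul_apply, smul_eq_mul]

/-- `∫ Lap log F = 0`: `div_form` with `al = dlog` at the points `n` (`sdet_one`), and `flux` for `Z_i = √det P Σ_j P⁻¹_ij ∂_j log F`, which is homogeneous of
degree `-2` (`P` has degree `-2`: `Cyl.hom`, so `P⁻¹` degree `2`, `√det P = |y|⁻³`; `∂ log F` degree `-1` since `F` is constant on the rays). -/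
theorem int_lap (h : Ok S) (hq : q ∈ S.D) : ∫ n : S2, lap S (q.1, q.2, (n : E3)) ∂sm = 0 := by
  have hP : Cyl fun y => S.P (q.1, q.2, y) := h.P_cyl q hq
  have hal : ∀ y : E3, y ≠ 0 → ∀ i, ContDiffAt ℝ ∞ (fun z => dlog S (q.1, q.2, y) z i) y := fun y hy i =>
    dlog_diff h (leaf_mem hq hy) i
  have hdl : ∀ (y z : E3) (i : Fin 3), dlog S (q.1, q.2, y) z i = dlog S (q.1, q.2, 0) z i := fun y z i => rfl
  have hal' : ∀ y : E3, y ≠ 0 → ∀ i, ContDiffAt ℝ ∞ (fun z => dlog S (q.1, q.2, 0) z i) y := fun y hy i => hal y hy i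
  have hsd : ∀ y : E3, y ≠ 0 → Real.sqrt (S.P (q.1, q.2, y)).det = (‖y‖ ^ 3)⁻¹ := by
    intro y hy
    rw [h.P_det _ (leaf_mem hq hy)]
    have h1 : ‖((q.1, q.2, y) : VV).2.2‖ = ‖y‖ := rfl
    rw [h1]
    have h2 : (‖y‖ ^ 6)⁻¹ = ((‖y‖ ^ 3)⁻¹) ^ 2 := by
      rw [inv_pow, ← pow_mul]
    rw [h2, Real.sqrt_sq (by positivity)]
  have hfl := H17W.flux (Z := fun y i => Real.sqrt (S.P (q.1, q.2, y)).det * ∑ j, (S.P (q.1, q.2, y))⁻¹ i j * dlog S (q.1, q.2, 0) y j)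
    (fun y hy i => by
      have hd : 0 < (S.P (q.1, q.2, y)).det := hP.det_pos hy
      have e1 : ContDiffAt ℝ ∞ (fun z => (S.P (q.1, q.2, z)).det) y := H31R.N_det_at (hP.smooth y hy)
      have e2 : ContDiffAt ℝ ∞ (fun z => Real.sqrt (S.P (q.1, q.2, z)).det) y := e1.sqrt hd.ne'
      have e3 : ∀ j, ContDiffAt ℝ ∞ (fun z => (S.P (q.1, q.2, z))⁻¹ i j * dlog S (q.1, q.2, 0) z j) y := fun j =>
        (H31R.N_inv_at (hP.smooth y hy) hd.ne' i j).mul (hal' y hy j)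
      have e4 : ContDiffAt ℝ ∞ (fun z => ∑ j, (S.P (q.1, q.2, z))⁻¹ i j * dlog S (q.1, q.2, 0) z j) y :=
        ContDiffAt.sum fun j _ => e3 j
      exact (e2.mul e4).of_le (by exact_mod_cast le_top))
    (fun y hy c hc i => by
      have hcy : c • y ≠ 0 := smul_ne_zero hc.ne' hy
      rw [hsd _ hcy, hsd _ hy, norm_smul, Real.norm_eq_abs, abs_of_pos hc, Finset.mul_sum, Finset.mul_sum, Finset.sum_div]
      refine Finset.sum_congr rfl fun j _ => ?_
      rw [be1_inv hP hy hc i j]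
      have e1 : dlog S (q.1, q.2, 0) (c • y) j = dlog S (q.1, q.2, 0) y j / c := by
        have e2 := be1_dF h hq hy hc j
        have e3 : S.F (q.1, q.2, c • y) = S.F (q.1, q.2, y) := (h.hom _ (leaf_mem hq hy) c hc).2.1
        have e4 : dlog S (q.1, q.2, 0) (c • y) j = fderiv ℝ S.F (q.1, q.2, c • y) (dY j) / S.F (q.1, q.2, c • y) := rfl
        have e5 : dlog S (q.1, q.2, 0) y j = fderiv ℝ S.F (q.1, q.2, y) (dY j) / S.F (q.1, q.2, y) := rfl
        rw [e4, e5, e3, ← e2]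
        field_simp
      have hn : ‖y‖ ≠ 0 := norm_ne_zero_iff.mpr hy
      rw [e1]
      field_simp)
  refine Eq.trans (integral_congr_ae (Eventually.of_forall fun n => ?_)) hfl
  have hn := be1_ne n
  have h1 := H17W.div_form hP (al := fun y i => dlog S (q.1, q.2, 0) y i) hn
    (fun i => (hal' _ hn i).differentiableAt (by norm_num))
  dsimp only at h1 ⊢
  rw [← h1, sdet_one h hq n, one_mul]
  rfl

end H74X
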