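import Pool.Agent.Lib.H17W.C2
import Pool.Agent.Lib.H17W.C4
import Pool.Agent.Lib.H17W.CI
import Pool.Agent.Lib.H74X.B10
import Pool.Agent.Lib.H74X.BE1

set_option autoImplicit false

/-!
# H74X, chunk BE2 (S/M): continuity, mean inequality

Auxiliary names start with `be2_`. `H17W.flux` (file `H17W/C1.lean`), `H17W.div_form` (`C2.lean`), `H17W.gauss_bonnet` (`CI.lean`).
-/

open MeasureTheory Filter Topology Set
open scoped ContDiff

namespace H74X

open H17T (E4 pt pos)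

open H17W (ip vel cov riem rm Ric scal MetAt Cyl NFrame)

open Pool.Agent.Lib.PenroseSph (E3 S2 sm pd)

variable {S : Dat} {q : ℝ × ℝ}

theorem be2_cont {φ : E3 → ℝ} (hφ : ∀ y : E3, y ≠ 0 → ContinuousAt φ y) : Continuous fun n : S2 => φ (n : E3) := by
  rw [continuous_iff_continuousAt]
  intro n
  exact ContinuousAt.comp (f := fun n : S2 => (n : E3)) (hφ _ (be1_ne n)) continuous_subtype_val.continuousAt

theorem be2_scal {P : E3 → Matrix (Fin 3) (Fin 3) ℝ} (hP : Cyl P) {x : E3} (hx : x ≠ 0) : ContDiffAt ℝ ∞ (scal P) x := by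
  have hF : H17W.Fam (fun _ : ℝ => P) := by
    refine ⟨fun _ => hP, fun t x hx i j => ?_⟩
    exact ContDiffAt.comp (f := fun z : ℝ × E3 => z.2) ((t, x) : ℝ × E3) (hP.smooth x hx i j) contDiffAt_snd
  have h1 := H17W.j_scal (t := 0) hF hx
  have h2 : ContDiffAt ℝ ∞ (fun y : E3 => (((0 : ℝ), y) : ℝ × E3)) x := by fun_prop
  exact ContDiffAt.comp (f := fun y : E3 => (((0 : ℝ), y) : ℝ × E3)) x h1 h2

/-- Continuity on the sphere, for integrability (`H17W.PP` analogue: `scal` of a smooth family is continuous; here the leaf is fixed). -/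
theorem cont_scal (h : Ok S) (hq : q ∈ S.D) : Continuous fun n : S2 => scal (fun y => S.P (q.1, q.2, y)) (n : E3) :=
  be2_cont fun _ hy => (be2_scal (h.P_cyl q hq) hy).continuousAt

theorem cont_lap (h : Ok S) (hq : q ∈ S.D) : Continuous fun n : S2 => lap S (q.1, q.2, (n : E3)) := by
  have hP : Cyl fun y => S.P (q.1, q.2, y) := h.P_cyl q hq
  refine be2_cont (φ := fun y => lap S (q.1, q.2, y)) fun y hy => ?_
  have hal : ∀ i, ContDiffAt ℝ ∞ (fun z => dlog S (q.1, q.2, 0) z i) y := fun i => dlog_diff h (leaf_mem hq hy) i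
  have hinv : ∀ i j, ContDiffAt ℝ ∞ (fun z => (S.P (q.1, q.2, z))⁻¹ i j) y := fun i j =>
    H31R.N_inv_at (hP.smooth y hy) (hP.det_pos hy).ne' i j
  have hcc : ∀ m i j, ContDiffAt ℝ ∞ (H31R.chr (fun z => S.P (q.1, q.2, z)) m i j) y := fun m i j =>
    H17W.a1_chr_at (hP.metAt hy) m i j
  have hpd : ∀ i j, ContDiffAt ℝ ∞ (fun z => pd i (fun w => dlog S (q.1, q.2, 0) w j) z) y := fun i j =>
    ((hal j).fderiv_right (m := ∞) (by norm_cast)).clm_apply contDiffAt_const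
  have h1 : ContDiffAt ℝ ∞ (fun z => ∑ i, ∑ j, (S.P (q.1, q.2, z))⁻¹ i j * (pd i (fun w => dlog S (q.1, q.2, 0) w j) z -
      ∑ m, H31R.chr (fun z => S.P (q.1, q.2, z)) m i j z * dlog S (q.1, q.2, 0) z m)) y :=
    ContDiffAt.sum fun i _ => ContDiffAt.sum fun j _ => (hinv i j).mul ((hpd i j).sub
      (ContDiffAt.sum fun m _ => (hcc m i j).mul (hal m)))
  exact h1.continuousAt

theorem cont_Finv (h : Ok S) (hq : q ∈ S.D) : Continuous fun n : S2 => (S.F (q.1, q.2, (n : E3)))⁻¹ := by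
  refine be2_cont (φ := fun y => (S.F (q.1, q.2, y))⁻¹) fun y hy => ?_
  have h1 := sm_leaf (h.F_smooth _ (leaf_mem hq hy))
  exact h1.continuousAt.inv₀ (h.F_pos _ (leaf_mem hq hy)).ne'

/-- Mean of `1/F` over the leaf. -/
noncomputable def mf (S : Dat) (q : ℝ × ℝ) : ℝ := (4 * Real.pi)⁻¹ * ∫ n : S2, (S.F (q.1, q.2, (n : E3)))⁻¹ ∂sm

/-- Integrate `hawk` over the sphere (`int_scal`, `int_lap`, `sm` has total mass `4 π`). -/
theorem int_rc (h : Ok S) (hq : q ∈ S.D) (hric : ∀ n : S2, 0 ≤ ricS S (q.1, q.2, (n : E3))) :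
    4 * mf S q * (S.r q * dk S 1 (dk S (-1) S.r) q + dk S 1 S.r q * dk S (-1) S.r q) ≤ 1 := by
  set A : ℝ := S.r q * dk S 1 (dk S (-1) S.r) q + dk S 1 S.r q * dk S (-1) S.r q with hA
  have hint : ∀ {φ : S2 → ℝ}, Continuous φ → Integrable φ sm := fun hφ =>
    hφ.integrable_of_hasCompactSupport (HasCompactSupport.of_compactSpace _)
  have h1 : ∀ n : S2, 8 * A * (S.F (q.1, q.2, (n : E3)))⁻¹ ≤
      scal (fun y => S.P (q.1, q.2, y)) (n : E3) - lap S (q.1, q.2, (n : E3)) := by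
    intro n
    have h2 := hawk h (leaf_mem hq (be1_ne n)) (hric n)
    refine le_trans (le_of_eq ?_) h2
    rw [hA]
    change _ = 8 / S.F (q.1, q.2, (n : E3)) * (S.r q * dk S 1 (dk S (-1) S.r) q + dk S 1 S.r q * dk S (-1) S.r q)
    rw [div_eq_mul_inv]
    ring
  have h3 : ∫ n : S2, 8 * A * (S.F (q.1, q.2, (n : E3)))⁻¹ ∂sm ≤
      ∫ n : S2, (scal (fun y => S.P (q.1, q.2, y)) (n : E3) - lap S (q.1, q.2, (n : E3))) ∂sm :=
    integral_mono ((hint (cont_Finv h hq)).const_mul _) ((hint (cont_scal h hq)).sub (hint (cont_lap h hq))) h1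
  rw [integral_const_mul, integral_sub (hint (cont_scal h hq)) (hint (cont_lap h hq)), int_scal h hq, int_lap h hq, sub_zero] at h3
  have hpi := Real.pi_pos
  have h4 : ∫ n : S2, (S.F (q.1, q.2, (n : E3)))⁻¹ ∂sm = 4 * Real.pi * mf S q := by
    unfold mf
    field_simp
  rw [h4] at h3
  have h5 : 8 * Real.pi * (4 * mf S q * A) ≤ 8 * Real.pi * 1 := by linarith
  exact le_of_mul_le_mul_left h5 (by positivity)

end H74X
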