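import Pool.Agent.Lib.H74X.BE
import Pool.Agent.Lib.H74X.BS

set_option autoImplicit false

/-!
# H74X, chunk BR1 (S/M): mean of 1/F

Auxiliary names start with `br1_`. 
-/

open MeasureTheory Filter Topology Set
open scoped ContDiff

namespace H74X

open H17T (E4 pt pos)

open H17W (ip vel cov riem rm Ric scal MetAt Cyl NFrame)

open Pool.Agent.Lib.PenroseSph (E3 S2 sm pd)

variable {S : Dat} {q : ℝ × ℝ}

theorem br1_inv (h : Ok S) (hq : q ∈ S.D) (n : S2) : ContDiffAt ℝ ∞ (fun p : VV => (S.F p)⁻¹) (q.1, q.2, (n : E3)) :=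
  (h.F_smooth _ (leaf_mem hq (be1_ne n))).inv (h.F_pos _ (leaf_mem hq (be1_ne n))).ne'

theorem mf_smooth (h : Ok S) (hq : q ∈ S.D) : ContDiffAt ℝ ∞ (mf S) q :=
  contDiffAt_const.mul (param_smooth (φ := fun p : VV => (S.F p)⁻¹) (br1_inv h hq))

/-- The integral of a positive continuous function is positive. -/
theorem mf_pos (h : Ok S) (hq : q ∈ S.D) : 0 < mf S q := by
  have hc := cont_Finv h hq
  obtain ⟨n0, -, hn0⟩ := isCompact_univ.exists_isMinOn (univ_nonempty (α := S2)) hc.continuousOn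
  have hpos : 0 < (S.F (q.1, q.2, (n0 : E3)))⁻¹ := inv_pos.mpr (h.F_pos _ (leaf_mem hq (be1_ne n0)))
  have h1 : ∫ _n : S2, (S.F (q.1, q.2, (n0 : E3)))⁻¹ ∂sm ≤ ∫ n : S2, (S.F (q.1, q.2, (n : E3)))⁻¹ ∂sm :=
    integral_mono (integrable_const _) (hc.integrable_of_hasCompactSupport (HasCompactSupport.of_compactSpace _))
      fun n => hn0 (mem_univ n)
  have h2 : 0 < ∫ _n : S2, (S.F (q.1, q.2, (n0 : E3)))⁻¹ ∂sm := by
    rw [integral_const, smul_eq_mul, Pool.Agent.Lib.PenroseSph.sm_univ]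
    have hpi := Real.pi_pos
    positivity
  unfold mf
  have hpi := Real.pi_pos
  have h3 := lt_of_lt_of_le h2 h1
  positivity

/-- `param_fderiv` for `φ = F⁻¹`. -/
theorem mf_fderiv (h : Ok S) (hq : q ∈ S.D) (v : ℝ × ℝ) :
    fderiv ℝ (mf S) q v = -((4 * Real.pi)⁻¹ * ∫ n : S2, fderiv ℝ S.F (q.1, q.2, (n : E3)) (v.1, v.2, 0) /
      S.F (q.1, q.2, (n : E3)) ^ 2 ∂sm) := by
  have h1 := param_fderiv (φ := fun p : VV => (S.F p)⁻¹) (br1_inv h hq) v
  have h2 : DifferentiableAt ℝ (fun q' : ℝ × ℝ => ∫ n : S2, (fun p : VV => (S.F p)⁻¹) (q'.1, q'.2, (n : E3)) ∂sm) q :=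
    (param_smooth (φ := fun p : VV => (S.F p)⁻¹) (br1_inv h hq)).differentiableAt (by norm_num)
  have h3 := h2.hasFDerivAt.const_mul ((4 * Real.pi)⁻¹)
  have h4 : fderiv ℝ (mf S) q = (4 * Real.pi)⁻¹ •
      fderiv ℝ (fun q' : ℝ × ℝ => ∫ n : S2, (fun p : VV => (S.F p)⁻¹) (q'.1, q'.2, (n : E3)) ∂sm) q := h3.fderiv
  rw [h4, smul_apply, h1, smul_eq_mul, ← mul_neg, ← integral_neg]
  congr 1
  refine integral_congr_ae (Eventually.of_forall fun n => ?_)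
  have hp := leaf_mem hq (be1_ne n)
  have h5 : HasFDerivAt (fun p : VV => (S.F p)⁻¹)
      (-(S.F (q.1, q.2, (n : E3)) ^ 2)⁻¹ • fderiv ℝ S.F (q.1, q.2, (n : E3))) (q.1, q.2, (n : E3)) :=
    (hasDerivAt_inv (h.F_pos _ hp).ne').comp_hasFDerivAt _ ((h.F_smooth _ hp).differentiableAt (by norm_num)).hasFDerivAt
  dsimp only
  rw [h5.fderiv, smul_apply, smul_eq_mul]
  ring

end H74X
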