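import Pool.Agent.Lib.H74X.S0

set_option autoImplicit false

/-!
# H74X, chunk S4A (M): the primitive with respect to `t` of a family of fields

Auxiliary names start with `s4a_`.
-/

open MeasureTheory Filter Topology Set
open scoped ContDiff

namespace H74X

open Pool.Agent.Lib.PenroseSph (E3 Tens S2 sm pd)

theorem s4a_tube {B : Type*} [NormedAddCommGroup B] {q : B} {P : ℝ × B → Prop}
    (h : ∀ t ∈ Icc (0 : ℝ) 1, ∀ᶠ z in 𝓝 (t, q), P z) : ∀ᶠ q' in 𝓝 q, ∀ t ∈ Icc (0 : ℝ) 1, P (t, q') := by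
  refine (isCompact_Icc (a := (0 : ℝ)) (b := 1)).eventually_forall_of_forall_eventually
    (P := fun x y => P (y, x)) (x₀ := q) (fun t ht => ?_)
  have h1 : Tendsto (Prod.swap : B × ℝ → ℝ × B) (𝓝 (q, t)) (𝓝 (t, q)) := continuous_swap.tendsto (q, t)
  exact h1.eventually (h t ht)

theorem s4a_slice {B E : Type*} [NormedAddCommGroup B] [NormedAddCommGroup E] {g : ℝ × B → E} {q : B}
    (hg : ∀ t ∈ Icc (0 : ℝ) 1, ContinuousAt g (t, q)) : ContinuousOn (fun t : ℝ => g (t, q)) (Icc 0 1) := by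
  intro t ht
  have h1 : ContinuousAt (fun t : ℝ => ((t, q) : ℝ × B)) t := by fun_prop
  exact (ContinuousAt.comp (f := fun t : ℝ => ((t, q) : ℝ × B)) (hg t ht) h1).continuousWithinAt

theorem s4a_bound {B E : Type*} [NormedAddCommGroup B] [NormedAddCommGroup E] {g : ℝ × B → E} {q : B}
    (hg : ∀ t ∈ Icc (0 : ℝ) 1, ContinuousAt g (t, q)) : ∃ C : ℝ, ∀ᶠ q' in 𝓝 q, ∀ t ∈ Icc (0 : ℝ) 1, ‖g (t, q')‖ ≤ C := by
  obtain ⟨C, hC⟩ := (isCompact_Icc (a := (0 : ℝ)) (b := 1)).exists_bound_of_continuousOn (s4a_slice hg)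
  refine ⟨C + 1, s4a_tube (P := fun z => ‖g z‖ ≤ C + 1) fun t ht => ?_⟩
  have h2 : ∀ᶠ z in 𝓝 (t, q), ‖g z‖ < ‖g (t, q)‖ + 1 := (hg t ht).norm.eventually_lt_const (lt_add_one _)
  filter_upwards [h2] with z hz
  have h3 := hC t ht
  linarith

theorem s4a_meas {E : Type*} [NormedAddCommGroup E] {φ : ℝ → E} (h : ContinuousOn φ (Icc 0 1)) :
    AEStronglyMeasurable φ (volume.restrict (uIoc (0 : ℝ) 1)) := by
  rw [uIoc_of_le zero_le_one]
  exact (h.mono Ioc_subset_Icc_self).aestronglyMeasurable measurableSet_Ioc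

theorem s4a_sub {t : ℝ} (ht : t ∈ uIoc (0 : ℝ) 1) : t ∈ Icc (0 : ℝ) 1 := by
  rw [uIoc_of_le zero_le_one] at ht
  exact Ioc_subset_Icc_self ht

theorem s4a_cont {B E : Type*} [NormedAddCommGroup B] [NormedSpace ℝ B] [NormedAddCommGroup E] [NormedSpace ℝ E]
    {g : ℝ × B → E} {q : B} (hg : ∀ᶠ q' in 𝓝 q, ∀ t ∈ Icc (0 : ℝ) 1, ContinuousAt g (t, q')) :
    ContinuousAt (fun q' : B => ∫ t in (0 : ℝ)..1, g (t, q')) q := by
  obtain ⟨C, hC⟩ := s4a_bound hg.self_of_nhds
  refine intervalIntegral.continuousAt_of_dominated_interval (bound := fun _ => C) ?_ ?_ ?_ ?_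
  · filter_upwards [hg] with q' hq
    exact s4a_meas (s4a_slice hq)
  · filter_upwards [hC] with q' hq
    exact Eventually.of_forall fun t ht => hq t (s4a_sub ht)
  · exact continuous_const.intervalIntegrable _ _
  · refine Eventually.of_forall fun t ht => ?_
    have h1 : ContinuousAt (fun x : B => ((t, x) : ℝ × B)) q := by fun_prop
    exact ContinuousAt.comp (f := fun x : B => ((t, x) : ℝ × B)) (hg.self_of_nhds t (s4a_sub ht)) h1

theorem s4a_has {B E : Type*} [NormedAddCommGroup B] [NormedSpace ℝ B] [NormedAddCommGroup E] [NormedSpace ℝ E]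
    {g : ℝ × B → E} {q : B} (hg : ∀ t ∈ Icc (0 : ℝ) 1, ContDiffAt ℝ 1 g (t, q)) :
    HasFDerivAt (fun q' : B => ∫ t in (0 : ℝ)..1, g (t, q'))
      (∫ t in (0 : ℝ)..1, (fderiv ℝ g (t, q)).comp (ContinuousLinearMap.inr ℝ ℝ B)) q := by
  have hgev : ∀ᶠ q' in 𝓝 q, ∀ t ∈ Icc (0 : ℝ) 1, ContDiffAt ℝ 1 g (t, q') :=
    s4a_tube (P := fun z => ContDiffAt ℝ 1 g z) fun t ht => (hg t ht).eventually (by simp)
  have hD : ∀ t ∈ Icc (0 : ℝ) 1, ContinuousAt (fun z : ℝ × B => (fderiv ℝ g z).comp (ContinuousLinearMap.inr ℝ ℝ B)) (t, q) := by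
    intro t ht
    have h1 : ContDiffAt ℝ 0 (fderiv ℝ g) (t, q) := (hg t ht).fderiv_right (by simp)
    exact h1.continuousAt.clm_comp continuousAt_const
  obtain ⟨C, hC⟩ := s4a_bound hD
  refine intervalIntegral.hasFDerivAt_integral_of_dominated_of_fderiv_le (𝕜 := ℝ)
    (F' := fun q' t => (fderiv ℝ g (t, q')).comp (ContinuousLinearMap.inr ℝ ℝ B))
    (bound := fun _ => C) (hgev.and hC) ?_ ?_ ?_ ?_ (continuous_const.intervalIntegrable _ _) ?_
  · filter_upwards [hgev] with q' hq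
    exact s4a_meas (s4a_slice fun t ht => (hq t ht).continuousAt)
  · refine ContinuousOn.intervalIntegrable ?_
    rw [uIcc_of_le zero_le_one]
    exact s4a_slice fun t ht => (hg t ht).continuousAt
  · exact s4a_meas (s4a_slice hD)
  · exact Eventually.of_forall fun t ht q' hq => hq.2 t (s4a_sub ht)
  · refine Eventually.of_forall fun t ht q' hq => ?_
    have h1 : HasFDerivAt g (fderiv ℝ g (t, q')) (t, q') :=
      ((hq.1 t (s4a_sub ht)).differentiableAt (by simp)).hasFDerivAt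
    exact h1.comp q' (hasFDerivAt_prodMk_right t q')

theorem s4a_C1 {B E : Type*} [NormedAddCommGroup B] [NormedSpace ℝ B] [NormedAddCommGroup E] [NormedSpace ℝ E]
    {g : ℝ × B → E} {q : B} (hg : ∀ t ∈ Icc (0 : ℝ) 1, ContDiffAt ℝ 1 g (t, q)) :
    ContDiffAt ℝ 1 (fun q' : B => ∫ t in (0 : ℝ)..1, g (t, q')) q := by
  have hgev : ∀ᶠ q' in 𝓝 q, ∀ t ∈ Icc (0 : ℝ) 1, ContDiffAt ℝ 1 g (t, q') :=
    s4a_tube (P := fun z => ContDiffAt ℝ 1 g z) fun t ht => (hg t ht).eventually (by simp)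
  rw [contDiffAt_one_iff]
  refine ⟨fun q' => ∫ t in (0 : ℝ)..1, (fderiv ℝ g (t, q')).comp (ContinuousLinearMap.inr ℝ ℝ B),
    {q' | ∀ᶠ q'' in 𝓝 q', ∀ t ∈ Icc (0 : ℝ) 1, ContDiffAt ℝ 1 g (t, q'')}, eventually_eventually_nhds.mpr hgev, ?_, ?_⟩
  · intro q' hq'
    refine (s4a_cont (g := fun z : ℝ × B => (fderiv ℝ g z).comp (ContinuousLinearMap.inr ℝ ℝ B)) ?_).continuousWithinAt
    filter_upwards [hq'] with q'' hq'' t ht
    have h1 : ContDiffAt ℝ 0 (fderiv ℝ g) (t, q'') := (hq'' t ht).fderiv_right (by simp)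
    exact h1.continuousAt.clm_comp continuousAt_const
  · intro q' hq'
    exact s4a_has hq'.self_of_nhds

/-- A family with a `C¹` primitive. `Γ(t, y) = ∫_{t₀}^t v(s, y) ds` for a fixed `t₀ ∈ (a, b)`. `C¹` at `(t, y)`: for `(t', y')` near `(t, y)` the segment between `t₀` and `t'` is in a compact part of `(a, b)`; the
candidate derivative is `(τ, η) ↦ τ v(t, y) + ∫_{t₀}^t ∂_y v(s, y) η ds`, which is continuous; use `hasFDerivAt_integral_of_dominated_of_fderiv_le` for the `y`-part,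
`intervalIntegral.integral_hasDerivAt_right` for the `t`-part, and that a function with continuous partial derivatives is `C¹`
(`hasStrictFDerivAt_of_hasFDerivAt_of_continuousAt` needs the full derivative: or substitute `s = t₀ + λ (t' - t₀)`, so that `Γ(t', y') = (t' - t₀) ∫_0^1 v(t₀ + λ (t' - t₀), y') dλ` and only
the derivative of an integral over `[0, 1]` with respect to parameters is needed). -/
theorem exists_prim {a b : ℝ} {v : ℝ × E3 → E3} (hab : a < b) (hv : Fld a b v) : ∃ Γ : ℝ × E3 → E3,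
    (∀ t ∈ Ioo a b, ∀ y : E3, y ≠ 0 → ContDiffAt ℝ 1 Γ (t, y)) ∧
    (∀ t ∈ Ioo a b, ∀ y : E3, y ≠ 0 → ∀ i, fderiv ℝ (fun z => Γ z i) (t, y) (1, 0) = v (t, y) i) ∧
    (∀ t ∈ Ioo a b, ∀ y : E3, y ≠ 0 → ∑ i, fderiv ℝ (fun z => Γ z i) (t, y) (0, EuclideanSpace.single i (1 : ℝ)) = 0) ∧
    (∀ t ∈ Ioo a b, ∀ y : E3, y ≠ 0 → ∑ i, y i * Γ (t, y) i = 0) ∧
    ∀ t ∈ Ioo a b, ∀ y : E3, y ≠ 0 → ∀ c : ℝ, 0 < c → Γ (t, c • y) = c • Γ (t, y) := by
  set t0 : ℝ := (a + b) / 2 with ht0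
  have h0 : t0 ∈ Ioo a b := ⟨by rw [ht0]; linarith, by rw [ht0]; linarith⟩
  -- the family on `[0, 1]`
  let g : Fin 3 → ℝ × (ℝ × E3) → ℝ := fun i w => v (t0 + w.1 * (w.2.1 - t0), w.2.2) i
  have hmem : ∀ t ∈ Ioo a b, ∀ l ∈ Icc (0 : ℝ) 1, t0 + l * (t - t0) ∈ Ioo a b := fun t ht l hl =>
    (convex_Ioo a b).add_smul_sub_mem h0 ht hl
  have hvi : ∀ t ∈ Ioo a b, ∀ y : E3, y ≠ 0 → ∀ i, ContDiffAt ℝ ∞ (fun z => v z i) (t, y) := fun t ht y hy i =>
    contDiffAt_euclidean.1 (hv.smooth t ht y hy) i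
  have hg : ∀ i, ∀ t ∈ Ioo a b, ∀ y : E3, y ≠ 0 → ∀ l ∈ Icc (0 : ℝ) 1, ContDiffAt ℝ 1 (g i) (l, (t, y)) := by
    intro i t ht y hy l hl
    have h1 : ContDiffAt ℝ 1 (fun z => v z i) (t0 + l * (t - t0), y) :=
      (hvi _ (hmem t ht l hl) y hy i).of_le (by exact_mod_cast le_top)
    have h2 : ContDiffAt ℝ 1 (fun w : ℝ × (ℝ × E3) => (t0 + w.1 * (w.2.1 - t0), w.2.2)) (l, (t, y)) := by fun_prop
    exact ContDiffAt.comp (f := fun w : ℝ × (ℝ × E3) => (t0 + w.1 * (w.2.1 - t0), w.2.2)) (l, (t, y)) h1 h2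
  let I : Fin 3 → ℝ × E3 → ℝ := fun i z => ∫ l in (0 : ℝ)..1, g i (l, z)
  let Γ : ℝ × E3 → E3 := fun z => WithLp.toLp 2 fun i => (z.1 - t0) * I i z
  have hΓ : ∀ z i, Γ z i = (z.1 - t0) * I i z := fun z i => rfl
  have hIC : ∀ i, ∀ t ∈ Ioo a b, ∀ y : E3, y ≠ 0 → ContDiffAt ℝ 1 (I i) (t, y) := fun i t ht y hy =>
    s4a_C1 (hg i t ht y hy)
  have hGC : ∀ t ∈ Ioo a b, ∀ y : E3, y ≠ 0 → ContDiffAt ℝ 1 Γ (t, y) := by
    intro t ht y hy
    rw [contDiffAt_euclidean]
    intro i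
    have h1 : ContDiffAt ℝ 1 (fun z : ℝ × E3 => z.1 - t0) (t, y) := by fun_prop
    exact h1.mul (hIC i t ht y hy)
  have hintg : ∀ i, ∀ t ∈ Ioo a b, ∀ y : E3, y ≠ 0 → IntervalIntegrable (fun l => g i (l, (t, y))) volume 0 1 := by
    intro i t ht y hy
    refine ContinuousOn.intervalIntegrable ?_
    rw [uIcc_of_le zero_le_one]
    exact s4a_slice fun l hl => (hg i t ht y hy l hl).continuousAt
  refine ⟨Γ, hGC, ?_, ?_, ?_, ?_⟩
  · -- derivative in `t`
    intro t ht y hy i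
    have h1 : ∀ s : ℝ, Γ (s, y) i = ∫ u in t0..s, v (u, y) i := by
      intro s
      have h2 := intervalIntegral.smul_integral_comp_add_mul (a := 0) (b := 1) (fun u => v (u, y) i) (s - t0) t0
      rw [mul_zero, add_zero, mul_one, add_sub_cancel, smul_eq_mul] at h2
      rw [hΓ, ← h2]
      dsimp only [I, g]
      congr 1
      refine intervalIntegral.integral_congr fun l _ => ?_
      rw [mul_comm l]
    have hc : ContinuousOn (fun u => v (u, y) i) (Ioo a b) := by
      intro u hu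
      have h3 : ContinuousAt (fun u : ℝ => ((u, y) : ℝ × E3)) u := by fun_prop
      exact (ContinuousAt.comp (f := fun u : ℝ => ((u, y) : ℝ × E3)) (hvi u hu y hy i).continuousAt h3).continuousWithinAt
    have hsub : uIcc t0 t ⊆ Ioo a b := by
      rw [← segment_eq_uIcc]
      exact (convex_Ioo a b).segment_subset h0 ht
    have h4 : HasDerivAt (fun s => ∫ u in t0..s, v (u, y) i) (v (t, y) i) t :=
      intervalIntegral.integral_hasDerivAt_right ((hc.mono hsub).intervalIntegrable)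
        (hc.stronglyMeasurableAtFilter isOpen_Ioo t ht) (hc.continuousAt (Ioo_mem_nhds ht.1 ht.2))
    have h5 : HasDerivAt (fun s => Γ (s, y) i) (v (t, y) i) t := by
      have h6 : (fun s => Γ (s, y) i) = fun s => ∫ u in t0..s, v (u, y) i := funext h1
      rw [h6]
      exact h4
    have h7 : HasFDerivAt (fun z => Γ z i) (fderiv ℝ (fun z => Γ z i) (t, y)) (t, y) :=
      (((contDiffAt_euclidean.1 (hGC t ht y hy)) i).differentiableAt (by simp)).hasFDerivAt
    have h8 : HasDerivAt (fun s : ℝ => ((s, y) : ℝ × E3)) (1, 0) t := (hasDerivAt_id t).prodMk (hasDerivAt_const t y)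
    have h9 : HasDerivAt (fun s => Γ (s, y) i) (fderiv ℝ (fun z => Γ z i) (t, y) (1, 0)) t :=
      HasFDerivAt.comp_hasDerivAt (l := fun z => Γ z i) (f := fun s : ℝ => ((s, y) : ℝ × E3)) t h7 h8
    exact h9.unique h5
  · -- divergence
    intro t ht y hy
    have hI' : ∀ i, fderiv ℝ (fun z => Γ z i) (t, y) (0, EuclideanSpace.single i (1 : ℝ)) =
        (t - t0) * ∫ l in (0 : ℝ)..1, pd i (fun z => v (t0 + l * (t - t0), z) i) y := by
      intro i
      have h1 := s4a_has (hg i t ht y hy)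
      have h2 : HasFDerivAt (fun z : ℝ × E3 => z.1 - t0) (ContinuousLinearMap.fst ℝ ℝ E3) (t, y) :=
        (hasFDerivAt_fst (𝕜 := ℝ) (p := ((t, y) : ℝ × E3))).sub_const t0
      have h3 := h2.mul h1
      have h4 : (fun z => Γ z i) = (fun z : ℝ × E3 => z.1 - t0) * fun q' : ℝ × E3 => ∫ l in (0 : ℝ)..1, g i (l, q') := rfl
      rw [h4, h3.fderiv]
      have hDc : ContinuousOn (fun l : ℝ => (fderiv ℝ (g i) (l, (t, y))).comp (ContinuousLinearMap.inr ℝ ℝ (ℝ × E3))) (Icc 0 1) := by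
        refine s4a_slice (g := fun z => (fderiv ℝ (g i) z).comp (ContinuousLinearMap.inr ℝ ℝ (ℝ × E3))) fun l hl => ?_
        have h5 : ContDiffAt ℝ 0 (fderiv ℝ (g i)) (l, (t, y)) := (hg i t ht y hy l hl).fderiv_right (by simp)
        exact h5.continuousAt.clm_comp continuousAt_const
      have hDi : IntervalIntegrable (fun l : ℝ => (fderiv ℝ (g i) (l, (t, y))).comp (ContinuousLinearMap.inr ℝ ℝ (ℝ × E3))) volume 0 1 := by
        refine ContinuousOn.intervalIntegrable ?_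
        rw [uIcc_of_le zero_le_one]
        exact hDc
      simp only [add_apply, smul_apply, ContinuousLinearMap.coe_fst', smul_eq_mul,
        mul_zero, add_zero]
      rw [ContinuousLinearMap.intervalIntegral_apply hDi]
      congr 1
      refine intervalIntegral.integral_congr fun l hl => ?_
      rw [uIcc_of_le zero_le_one] at hl
      have h6 : HasFDerivAt (g i) (fderiv ℝ (g i) (l, (t, y))) (l, (t, y)) :=
        ((hg i t ht y hy l hl).differentiableAt (by simp)).hasFDerivAt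
      have h7 : HasFDerivAt (fun z : E3 => ((l, (t, z)) : ℝ × (ℝ × E3)))
          ((ContinuousLinearMap.inr ℝ ℝ (ℝ × E3)).comp (ContinuousLinearMap.inr ℝ ℝ E3)) y :=
        (hasFDerivAt_prodMk_right l (t, y)).comp y (hasFDerivAt_prodMk_right t y)
      have h8 := h6.comp y h7
      have h9 : pd i (fun z => v (t0 + l * (t - t0), z) i) y =
          (fderiv ℝ (g i) (l, (t, y))) (0, (0, EuclideanSpace.single i (1 : ℝ))) := by
        unfold pd
        have h10 : (fun z => v (t0 + l * (t - t0), z) i) = (g i) ∘ fun z : E3 => ((l, (t, z)) : ℝ × (ℝ × E3)) := rfl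
        rw [h10, h8.fderiv]
        rfl
      rw [h9]
      rfl
    simp only [hI']
    rw [← Finset.mul_sum, ← intervalIntegral.integral_finsetSum]
    · have h1 : ∫ l in (0 : ℝ)..1, ∑ i, pd i (fun z => v (t0 + l * (t - t0), z) i) y = ∫ l in (0 : ℝ)..1, (0 : ℝ) := by
        refine intervalIntegral.integral_congr fun l hl => ?_
        rw [uIcc_of_le zero_le_one] at hl
        exact hv.div _ (hmem t ht l hl) y hy
      rw [h1, intervalIntegral.integral_zero, mul_zero]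
    · intro i _
      refine ContinuousOn.intervalIntegrable ?_
      rw [uIcc_of_le zero_le_one]
      have h1 : ContinuousOn (fun l : ℝ => (fderiv ℝ (g i) (l, (t, y))) (0, (0, EuclideanSpace.single i (1 : ℝ)))) (Icc 0 1) := by
        refine s4a_slice (g := fun z => (fderiv ℝ (g i) z) (0, (0, EuclideanSpace.single i (1 : ℝ)))) fun l hl => ?_
        have h5 : ContDiffAt ℝ 0 (fderiv ℝ (g i)) (l, (t, y)) := (hg i t ht y hy l hl).fderiv_right (by simp)
        exact h5.continuousAt.clm_apply continuousAt_const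
      refine h1.congr fun l hl => ?_
      have h6 : HasFDerivAt (g i) (fderiv ℝ (g i) (l, (t, y))) (l, (t, y)) :=
        ((hg i t ht y hy l hl).differentiableAt (by simp)).hasFDerivAt
      have h7 : HasFDerivAt (fun z : E3 => ((l, (t, z)) : ℝ × (ℝ × E3)))
          ((ContinuousLinearMap.inr ℝ ℝ (ℝ × E3)).comp (ContinuousLinearMap.inr ℝ ℝ E3)) y :=
        (hasFDerivAt_prodMk_right l (t, y)).comp y (hasFDerivAt_prodMk_right t y)
      have h8 := h6.comp y h7
      unfold pd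
      have h10 : (fun z => v (t0 + l * (t - t0), z) i) = (g i) ∘ fun z : E3 => ((l, (t, z)) : ℝ × (ℝ × E3)) := rfl
      rw [h10, h8.fderiv]
      rfl
  · -- tangential
    intro t ht y hy
    have h1 : ∑ i, y i * Γ (t, y) i = (t - t0) * ∫ l in (0 : ℝ)..1, ∑ i, y i * g i (l, (t, y)) := by
      rw [intervalIntegral.integral_finsetSum, Finset.mul_sum]
      · refine Finset.sum_congr rfl fun i _ => ?_
        rw [intervalIntegral.integral_const_mul, hΓ]
        dsimp only [I]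
        ring
      · intro i _
        exact (hintg i t ht y hy).const_mul _
    have h2 : ∫ l in (0 : ℝ)..1, ∑ i, y i * g i (l, (t, y)) = ∫ l in (0 : ℝ)..1, (0 : ℝ) := by
      refine intervalIntegral.integral_congr fun l hl => ?_
      rw [uIcc_of_le zero_le_one] at hl
      exact hv.tan _ (hmem t ht l hl) y hy
    rw [h1, h2, intervalIntegral.integral_zero, mul_zero]
  · -- homogeneous
    intro t ht y hy c hc
    ext i
    have h1 : I i (t, c • y) = c * I i (t, y) := by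
      dsimp only [I]
      rw [← intervalIntegral.integral_const_mul]
      refine intervalIntegral.integral_congr fun l hl => ?_
      rw [uIcc_of_le zero_le_one] at hl
      dsimp only [g]
      rw [hv.hom _ (hmem t ht l hl) y hy c hc]
      rfl
    have h2 : (c • Γ (t, y)) i = c * Γ (t, y) i := rfl
    rw [h2, hΓ, hΓ, h1]
    ring

end H74X
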