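import Pool.Agent.Lib.H17W.C1
import Pool.Agent.Lib.H74X.S4A

set_option autoImplicit false

/-!
# H74X, chunk S4B (S/M): the flux lemma along a graph

Auxiliary names start with `s4b_`.
-/

open MeasureTheory Filter Topology Set
open scoped ContDiff

namespace H74X

open Pool.Agent.Lib.PenroseSph (E3 Tens S2 sm pd)

theorem s4b_norm {y : E3} (hy : ‖y‖ = 1) :
    HasFDerivAt (fun y : E3 => (‖y‖ ^ 3)⁻¹) ((-3 : ℝ) • (‖y‖⁻¹ • innerSL ℝ y)) y := by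
  have hy0 : y ≠ 0 := by
    intro h
    rw [h, norm_zero] at hy
    exact zero_ne_one hy
  have h1 : HasDerivAt (fun t : ℝ => (t ^ 3)⁻¹) (-3) ‖y‖ := by
    rw [hy]
    refine ((hasDerivAt_pow 3 (1 : ℝ)).inv (by norm_num)).congr_deriv ?_
    norm_num
  exact h1.comp_hasFDerivAt y (Pool.Agent.Lib.PenroseSph.hasFDerivAt_norm' hy0)

theorem s4b_inner (y : E3) (i : Fin 3) : (innerSL ℝ y) (EuclideanSpace.single i (1 : ℝ)) = y i := by
  rw [innerSL_apply_apply, EuclideanSpace.inner_single_right]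
  simp

/-- `∫ v(σ(n), n)·∂σ(n) = 0`. With `Γ` of `exists_prim`, `Z(y) = |y|⁻³ Γ(σ(y), y)` is homogeneous of degree `-2`, and at `|y| = 1`
`div Z = v(σ, y)·∂σ + (div_y Γ)(σ, y) - 3 y·Γ = v(σ, y)·∂σ` (chain rule); `H17W.flux`. -/
theorem int_field {a b : ℝ} {v : ℝ × E3 → E3} (hab : a < b) (hv : Fld a b v) {σ : E3 → ℝ}
    (hσ : ∀ y : E3, y ≠ 0 → ContDiffAt ℝ ∞ σ y) (hh : ∀ y : E3, y ≠ 0 → ∀ c : ℝ, 0 < c → σ (c • y) = σ y)
    (hI : ∀ y : E3, y ≠ 0 → σ y ∈ Ioo a b) :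
    ∫ n : S2, (∑ i, v (σ n, (n : E3)) i * pd i σ n) ∂sm = 0 := by
  obtain ⟨Γ, g1, g2, g3, g4, g5⟩ := exists_prim hab hv
  have hσ1 : ∀ y : E3, y ≠ 0 → ContDiffAt ℝ 1 σ y := fun y hy => (hσ y hy).of_le (by exact_mod_cast le_top)
  have hpair : ∀ y : E3, y ≠ 0 → ContDiffAt ℝ 1 (fun z : E3 => ((σ z, z) : ℝ × E3)) y := fun y hy =>
    (hσ1 y hy).prodMk contDiffAt_id
  have hΓi : ∀ y : E3, y ≠ 0 → ∀ i, ContDiffAt ℝ 1 (fun z => Γ z i) (σ y, y) := fun y hy i =>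
    contDiffAt_euclidean.1 (g1 _ (hI y hy) y hy) i
  have hcomp : ∀ y : E3, y ≠ 0 → ∀ i, ContDiffAt ℝ 1 (fun z : E3 => Γ (σ z, z) i) y := fun y hy i =>
    ContDiffAt.comp (f := fun z : E3 => ((σ z, z) : ℝ × E3)) y (hΓi y hy i) (hpair y hy)
  have hfl := H17W.flux (Z := fun y i => (‖y‖ ^ 3)⁻¹ * Γ (σ y, y) i) (fun y hy i => by
    have h1 : ContDiffAt ℝ 1 (fun y : E3 => (‖y‖ ^ 3)⁻¹) y :=
      ((contDiffAt_norm ℝ hy).pow 3).inv (pow_ne_zero 3 (norm_ne_zero_iff.mpr hy))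
    exact h1.mul (hcomp y hy i)) (fun y hy c hc i => by
    have h1 : Γ (σ (c • y), c • y) i = c * Γ (σ y, y) i := by
      rw [hh y hy c hc, g5 _ (hI y hy) y hy c hc]
      rfl
    have hn : ‖y‖ ≠ 0 := norm_ne_zero_iff.mpr hy
    rw [h1, norm_smul, Real.norm_eq_abs, abs_of_pos hc]
    field_simp)
  refine Eq.trans (integral_congr_ae (Eventually.of_forall fun n => ?_)) hfl
  have hn1 : ‖(n : E3)‖ = 1 := by simpa using n.2
  have hn0 : (n : E3) ≠ 0 := by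
    intro h
    rw [h, norm_zero] at hn1
    exact zero_ne_one hn1
  set y : E3 := (n : E3) with hy
  have hd : ∀ i, pd i (fun y => (‖y‖ ^ 3)⁻¹ * Γ (σ y, y) i) y =
      v (σ y, y) i * pd i σ y + fderiv ℝ (fun z => Γ z i) (σ y, y) (0, EuclideanSpace.single i (1 : ℝ)) -
        3 * (y i * Γ (σ y, y) i) := by
    intro i
    have h1 := s4b_norm hn1
    have h2 : HasFDerivAt (fun z => Γ z i) (fderiv ℝ (fun z => Γ z i) (σ y, y)) (σ y, y) :=
      ((hΓi y hn0 i).differentiableAt (by simp)).hasFDerivAt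
    have h3 : HasFDerivAt σ (fderiv ℝ σ y) y := ((hσ1 y hn0).differentiableAt (by simp)).hasFDerivAt
    have h4 : HasFDerivAt (fun z : E3 => ((σ z, z) : ℝ × E3)) ((fderiv ℝ σ y).prod (ContinuousLinearMap.id ℝ E3)) y :=
      h3.prodMk (hasFDerivAt_id y)
    have h5 : HasFDerivAt (fun z : E3 => Γ (σ z, z) i)
        ((fderiv ℝ (fun z => Γ z i) (σ y, y)).comp ((fderiv ℝ σ y).prod (ContinuousLinearMap.id ℝ E3))) y :=
      HasFDerivAt.comp (g := fun z => Γ z i) (f := fun z : E3 => ((σ z, z) : ℝ × E3)) y h2 h4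
    have h6 := h1.mul h5
    have h7 : (fun y : E3 => (‖y‖ ^ 3)⁻¹ * Γ (σ y, y) i) = (fun y : E3 => (‖y‖ ^ 3)⁻¹) * fun z : E3 => Γ (σ z, z) i := rfl
    unfold pd
    rw [h7, h6.fderiv]
    simp only [add_apply, smul_apply, ContinuousLinearMap.comp_apply, ContinuousLinearMap.prod_apply,
      ContinuousLinearMap.id_apply, smul_eq_mul, s4b_inner, hn1]
    have h8 : ((fderiv ℝ σ y (EuclideanSpace.single i 1), EuclideanSpace.single i 1) : ℝ × E3) =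
        fderiv ℝ σ y (EuclideanSpace.single i 1) • ((1, 0) : ℝ × E3) + (0, EuclideanSpace.single i 1) := by
      ext <;> simp
    rw [h8, map_add, map_smul, g2 _ (hI y hn0) y hn0 i, smul_eq_mul]
    ring
  simp only [hd]
  rw [Finset.sum_sub_distrib, Finset.sum_add_distrib, ← Finset.mul_sum, g3 _ (hI y hn0) y hn0, g4 _ (hI y hn0) y hn0]
  ring

end H74X
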