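import Pool.Agent.Lib.H74X.BE
import Pool.Agent.Lib.H74X.BR1
import Pool.Agent.Lib.H74X.BS
import Pool.Agent.Lib.H74X.S4B

set_option autoImplicit false

/-!
# H74X, chunk BR2 (M): mean of Raychaudhuri

Auxiliary names start with `br2_`. 
-/

open MeasureTheory Filter Topology Set
open scoped ContDiff

namespace H74X

open H17T (E4 pt pos)

open H17W (ip vel cov riem rm Ric scal MetAt Cyl NFrame)

open Pool.Agent.Lib.PenroseSph (E3 S2 sm pd)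

variable {S : Dat} {q : ℝ × ℝ}

/-- `∫ α · ∂F / F² = 0`: `flux` for `Z_m(y) = |y|⁻³ α_m(y) / F(y)` (degree `-2`; `α = e u + w` has degree `1`, `F` degree `0`); at `|y| = 1` its divergence is
`(div α)/F - α·∂F/F² - 3 (y·α)/F = - α·∂F/F²` (`u_div`, `w_div`, `u_tan`, `w_tan`). -/
theorem int_alpha (h : Ok S) (hq : q ∈ S.D) (e : ℝ) :
    ∫ n : S2, (∑ m, (e * S.u (q.1, q.2, (n : E3)) m + S.w (q.1, q.2, (n : E3)) m) *
      fderiv ℝ S.F (q.1, q.2, (n : E3)) (dY m)) / S.F (q.1, q.2, (n : E3)) ^ 2 ∂sm = 0 := by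
  -- the field
  have hs : ∀ y : E3, y ≠ 0 → ∀ m, ContDiffAt ℝ ∞ (fun p : VV => e * S.u p m + S.w p m) (q.1, q.2, y) := by
    intro y hy m
    have hp := leaf_mem hq hy
    exact (contDiffAt_const.mul (contDiffAt_euclidean.1 (h.u_smooth _ hp) m)).add (contDiffAt_euclidean.1 (h.w_smooth _ hp) m)
  have hs' : ∀ y : E3, y ≠ 0 → ∀ m, ContDiffAt ℝ ∞ (fun z : E3 => e * S.u (q.1, q.2, z) m + S.w (q.1, q.2, z) m) y :=
    fun y hy m => sm_leaf (hs y hy m)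
  have hF : ∀ y : E3, y ≠ 0 → ContDiffAt ℝ ∞ (fun z : E3 => S.F (q.1, q.2, z)) y := fun y hy =>
    sm_leaf (h.F_smooth _ (leaf_mem hq hy))
  have hF0 : ∀ y : E3, y ≠ 0 → S.F (q.1, q.2, y) ≠ 0 := fun y hy => (h.F_pos _ (leaf_mem hq hy)).ne'
  have hfl := H17W.flux
    (Z := fun y m => (‖y‖ ^ 3)⁻¹ * ((e * S.u (q.1, q.2, y) m + S.w (q.1, q.2, y) m) * (S.F (q.1, q.2, y))⁻¹))
    (fun y hy m => by
      have h1 : ContDiffAt ℝ ∞ (fun y : E3 => (‖y‖ ^ 3)⁻¹) y :=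
        ((contDiffAt_norm ℝ hy).pow 3).inv (pow_ne_zero 3 (norm_ne_zero_iff.mpr hy))
      exact (h1.mul ((hs' y hy m).mul ((hF y hy).inv (hF0 y hy)))).of_le (by exact_mod_cast le_top))
    (fun y hy c hc m => by
      obtain ⟨-, e1, e2, e3⟩ := h.hom _ (leaf_mem hq hy) c hc
      have e1' : S.F (q.1, q.2, c • y) = S.F (q.1, q.2, y) := e1
      have e2' : S.u (q.1, q.2, c • y) m = c * S.u (q.1, q.2, y) m := congrFun (congrArg (fun x : E3 => (x : Fin 3 → ℝ)) e2) m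
      have e3' : S.w (q.1, q.2, c • y) m = c * S.w (q.1, q.2, y) m := congrFun (congrArg (fun x : E3 => (x : Fin 3 → ℝ)) e3) m
      have hn : ‖y‖ ≠ 0 := norm_ne_zero_iff.mpr hy
      rw [e1', e2', e3', norm_smul, Real.norm_eq_abs, abs_of_pos hc]
      field_simp)
  rw [← neg_eq_zero, ← integral_neg]
  refine Eq.trans (integral_congr_ae (Eventually.of_forall fun n => ?_)) hfl
  have hn0 := be1_ne n
  have hn1 := be1_norm n
  have hp := leaf_mem hq hn0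
  set y : E3 := (n : E3) with hy
  have hd : ∀ m, pd m (fun y => (‖y‖ ^ 3)⁻¹ * ((e * S.u (q.1, q.2, y) m + S.w (q.1, q.2, y) m) * (S.F (q.1, q.2, y))⁻¹)) y =
      (e * fderiv ℝ (fun p : VV => S.u p m) (q.1, q.2, y) (dY m) + fderiv ℝ (fun p : VV => S.w p m) (q.1, q.2, y) (dY m)) *
        (S.F (q.1, q.2, y))⁻¹ -
      (e * S.u (q.1, q.2, y) m + S.w (q.1, q.2, y) m) * fderiv ℝ S.F (q.1, q.2, y) (dY m) / S.F (q.1, q.2, y) ^ 2 -
      3 * (S.F (q.1, q.2, y))⁻¹ * (e * (y m * S.u (q.1, q.2, y) m) + y m * S.w (q.1, q.2, y) m) := by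
    intro m
    have h1 := s4b_norm hn1
    have hum : DifferentiableAt ℝ (fun p : VV => S.u p m) (q.1, q.2, y) :=
      (contDiffAt_euclidean.1 (h.u_smooth _ hp) m).differentiableAt (by norm_num)
    have hwm : DifferentiableAt ℝ (fun p : VV => S.w p m) (q.1, q.2, y) :=
      (contDiffAt_euclidean.1 (h.w_smooth _ hp) m).differentiableAt (by norm_num)
    have hFd : DifferentiableAt ℝ S.F (q.1, q.2, y) := (h.F_smooth _ hp).differentiableAt (by norm_num)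
    have k1 : pd m (fun z => S.u (q.1, q.2, z) m) y = fderiv ℝ (fun p : VV => S.u p m) (q.1, q.2, y) (dY m) :=
      pd_y' (p := (q.1, q.2, y)) hum m
    have k2 : pd m (fun z => S.w (q.1, q.2, z) m) y = fderiv ℝ (fun p : VV => S.w p m) (q.1, q.2, y) (dY m) :=
      pd_y' (p := (q.1, q.2, y)) hwm m
    have k3 : pd m (fun z => S.F (q.1, q.2, z)) y = fderiv ℝ S.F (q.1, q.2, y) (dY m) := pd_y' (p := (q.1, q.2, y)) hFd m
    have g1 : HasFDerivAt (fun z : E3 => S.u (q.1, q.2, z) m) (fderiv ℝ (fun z : E3 => S.u (q.1, q.2, z) m) y) y :=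
      ((sm_leaf (contDiffAt_euclidean.1 (h.u_smooth _ hp) m)).differentiableAt (by norm_num)).hasFDerivAt
    have g2 : HasFDerivAt (fun z : E3 => S.w (q.1, q.2, z) m) (fderiv ℝ (fun z : E3 => S.w (q.1, q.2, z) m) y) y :=
      ((sm_leaf (contDiffAt_euclidean.1 (h.w_smooth _ hp) m)).differentiableAt (by norm_num)).hasFDerivAt
    have g3 : HasFDerivAt (fun z : E3 => S.F (q.1, q.2, z)) (fderiv ℝ (fun z : E3 => S.F (q.1, q.2, z)) y) y :=
      ((hF y hn0).differentiableAt (by norm_num)).hasFDerivAt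
    have g4 : HasFDerivAt (fun z : E3 => (S.F (q.1, q.2, z))⁻¹)
        (-(S.F (q.1, q.2, y) ^ 2)⁻¹ • fderiv ℝ (fun z : E3 => S.F (q.1, q.2, z)) y) y :=
      (hasDerivAt_inv (hF0 y hn0)).comp_hasFDerivAt y g3
    have g5 := h1.mul (((g1.const_mul e).add g2).mul g4)
    have g6 : (fun y : E3 => (‖y‖ ^ 3)⁻¹ * ((e * S.u (q.1, q.2, y) m + S.w (q.1, q.2, y) m) * (S.F (q.1, q.2, y))⁻¹)) =
        (fun y : E3 => (‖y‖ ^ 3)⁻¹) * (((fun z : E3 => e * S.u (q.1, q.2, z) m) + fun z : E3 => S.w (q.1, q.2, z) m) *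
          fun z : E3 => (S.F (q.1, q.2, z))⁻¹) := rfl
    rw [← k1, ← k2, ← k3]
    unfold pd
    rw [g6, g5.fderiv]
    simp only [add_apply, smul_apply, smul_eq_mul, s4b_inner, hn1, Pi.add_apply, Pi.mul_apply]
    field_simp
    ring
  simp only [hd]
  have u1 : ∑ m, y m * S.u (q.1, q.2, y) m = 0 := h.u_tan _ hp
  have w1 : ∑ m, y m * S.w (q.1, q.2, y) m = 0 := h.w_tan _ hp
  have u2 : ∑ m, fderiv ℝ (fun p : VV => S.u p m) (q.1, q.2, y) (dY m) = 0 := h.u_div _ hp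
  have w2 : ∑ m, fderiv ℝ (fun p : VV => S.w p m) (q.1, q.2, y) (dY m) = 0 := h.w_div _ hp
  rw [Finset.sum_sub_distrib, Finset.sum_sub_distrib, ← Finset.sum_mul, Finset.sum_add_distrib, ← Finset.mul_sum, u2, w2,
    ← Finset.mul_sum, Finset.sum_add_distrib, ← Finset.mul_sum, u1, w1, ← Finset.sum_div]
  ring

/-- `LF` at a point of the leaf. -/
theorem ld_F (h : Ok S) (hq : q ∈ S.D) (e : ℝ) (n : S2) :
    ld S e S.F (q.1, q.2, (n : E3)) = fderiv ℝ S.F (q.1, q.2, (n : E3)) (e / 2, 1 / (2 * S.k q.2), 0) +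
      ∑ m, (e * S.u (q.1, q.2, (n : E3)) m + S.w (q.1, q.2, (n : E3)) m) * fderiv ℝ S.F (q.1, q.2, (n : E3)) (dY m) := by
  have h1 : ell S e (q.1, q.2, (n : E3)) = ((e / 2, 1 / (2 * S.k q.2), 0) : VV) +
      ∑ m, (e * S.u (q.1, q.2, (n : E3)) m + S.w (q.1, q.2, (n : E3)) m) • dY m := by
    have h2 := b1c_sum (e • S.u (q.1, q.2, (n : E3)) + S.w (q.1, q.2, (n : E3)))
    have h3 : ∀ m, (e • S.u (q.1, q.2, (n : E3)) + S.w (q.1, q.2, (n : E3))) m =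
      e * S.u (q.1, q.2, (n : E3)) m + S.w (q.1, q.2, (n : E3)) m := fun m => rfl
    simp only [h3] at h2
    rw [← h2]
    unfold ell
    refine Prod.ext ?_ (Prod.ext ?_ ?_)
    · simp
    · simp
    · simp
  unfold ld
  rw [h1, map_add, map_sum]
  congr 1
  refine Finset.sum_congr rfl fun m _ => ?_
  rw [map_smul, smul_eq_mul]

/-- Divide `ray_ineq` by `F²` and integrate (`ld_F`, `int_alpha`, `mf_fderiv` with `v = (e/2, 1/(2k))`). -/
theorem int_ra (h : Ok S) (hq : q ∈ S.D) {e : ℝ} (he : e * e = 1)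
    (hric : ∀ n : S2, 0 ≤ Ric S.G (S.Ph (q.1, q.2, (n : E3))) (LL S e (q.1, q.2, (n : E3))) (LL S e (q.1, q.2, (n : E3)))) :
    dk S e (dk S e S.r) q * mf S q ≤ -dk S e (mf S) q * dk S e S.r q := by
  set A : ℝ := dk S e (dk S e S.r) q with hA
  set B : ℝ := dk S e S.r q with hB
  have hint : ∀ {φ : E3 → ℝ}, (∀ y : E3, y ≠ 0 → ContinuousAt φ y) → Integrable (fun n : S2 => φ (n : E3)) sm := fun hφ =>
    (be2_cont hφ).integrable_of_hasCompactSupport (HasCompactSupport.of_compactSpace _)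
  have hF0 : ∀ y : E3, y ≠ 0 → S.F (q.1, q.2, y) ≠ 0 := fun y hy => (h.F_pos _ (leaf_mem hq hy)).ne'
  have hFc : ∀ y : E3, y ≠ 0 → ContinuousAt (fun z : E3 => S.F (q.1, q.2, z)) y := fun y hy =>
    (sm_leaf (h.F_smooth _ (leaf_mem hq hy))).continuousAt
  have i1 : Integrable (fun n : S2 => (S.F (q.1, q.2, (n : E3)))⁻¹) sm :=
    hint (φ := fun y => (S.F (q.1, q.2, y))⁻¹) fun y hy => (hFc y hy).inv₀ (hF0 y hy)
  have i2 : Integrable (fun n : S2 => fderiv ℝ S.F (q.1, q.2, (n : E3)) (e / 2, 1 / (2 * S.k q.2), 0) /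
      S.F (q.1, q.2, (n : E3)) ^ 2) sm :=
    hint (φ := fun y => fderiv ℝ S.F (q.1, q.2, y) (e / 2, 1 / (2 * S.k q.2), 0) / S.F (q.1, q.2, y) ^ 2) fun y hy =>
      (sm_leaf (sm_fd (h.F_smooth _ (leaf_mem hq hy)) _)).continuousAt.div ((hFc y hy).pow 2) (pow_ne_zero 2 (hF0 y hy))
  have i3 : Integrable (fun n : S2 => (∑ m, (e * S.u (q.1, q.2, (n : E3)) m + S.w (q.1, q.2, (n : E3)) m) *
      fderiv ℝ S.F (q.1, q.2, (n : E3)) (dY m)) / S.F (q.1, q.2, (n : E3)) ^ 2) sm := by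
    refine hint (φ := fun y => (∑ m, (e * S.u (q.1, q.2, y) m + S.w (q.1, q.2, y) m) *
      fderiv ℝ S.F (q.1, q.2, y) (dY m)) / S.F (q.1, q.2, y) ^ 2) fun y hy => ?_
    have hp := leaf_mem hq hy
    have j1 : ContDiffAt ℝ ∞ (fun p : VV => ∑ m, (e * S.u p m + S.w p m) * fderiv ℝ S.F p (dY m)) (q.1, q.2, y) :=
      ContDiffAt.sum fun m _ => ((contDiffAt_const.mul (contDiffAt_euclidean.1 (h.u_smooth _ hp) m)).add
        (contDiffAt_euclidean.1 (h.w_smooth _ hp) m)).mul (sm_fd (h.F_smooth _ hp) _)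
    exact (sm_leaf j1).continuousAt.div ((hFc y hy).pow 2) (pow_ne_zero 2 (hF0 y hy))
  have h1 : ∀ n : S2, A * (S.F (q.1, q.2, (n : E3)))⁻¹ ≤
      (fderiv ℝ S.F (q.1, q.2, (n : E3)) (e / 2, 1 / (2 * S.k q.2), 0) / S.F (q.1, q.2, (n : E3)) ^ 2 +
        (∑ m, (e * S.u (q.1, q.2, (n : E3)) m + S.w (q.1, q.2, (n : E3)) m) *
          fderiv ℝ S.F (q.1, q.2, (n : E3)) (dY m)) / S.F (q.1, q.2, (n : E3)) ^ 2) * B := by
    intro n
    have hp := leaf_mem hq (be1_ne n)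
    have hF := h.F_pos _ hp
    have h2 : S.F (q.1, q.2, (n : E3)) * A ≤ ld S e S.F (q.1, q.2, (n : E3)) * B := ray_ineq h hp he (hric n)
    rw [ld_F h hq e n] at h2
    rw [← add_div, div_mul_eq_mul_div, le_div_iff₀ (by positivity)]
    refine le_trans (le_of_eq ?_) h2
    field_simp
  have h3 := integral_mono (i1.const_mul A) ((i2.add i3).mul_const B) h1
  have h4 : ∫ n : S2, ((fderiv ℝ S.F (q.1, q.2, (n : E3)) (e / 2, 1 / (2 * S.k q.2), 0) / S.F (q.1, q.2, (n : E3)) ^ 2 +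
        (∑ m, (e * S.u (q.1, q.2, (n : E3)) m + S.w (q.1, q.2, (n : E3)) m) *
          fderiv ℝ S.F (q.1, q.2, (n : E3)) (dY m)) / S.F (q.1, q.2, (n : E3)) ^ 2) * B) ∂sm =
      (∫ n : S2, fderiv ℝ S.F (q.1, q.2, (n : E3)) (e / 2, 1 / (2 * S.k q.2), 0) / S.F (q.1, q.2, (n : E3)) ^ 2 ∂sm) * B := by
    rw [integral_mul_const, integral_add i2 i3, int_alpha h hq e, add_zero]
  have h5 := mf_fderiv h hq (e / 2, 1 / (2 * S.k q.2))
  have h6 : dk S e (mf S) q = -((4 * Real.pi)⁻¹ *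
      ∫ n : S2, fderiv ℝ S.F (q.1, q.2, (n : E3)) (e / 2, 1 / (2 * S.k q.2), 0) / S.F (q.1, q.2, (n : E3)) ^ 2 ∂sm) := h5
  have h7 : mf S q = (4 * Real.pi)⁻¹ * ∫ n : S2, (S.F (q.1, q.2, (n : E3)))⁻¹ ∂sm := rfl
  have h8 : ∫ n : S2, A * (S.F (q.1, q.2, (n : E3)))⁻¹ ∂sm = A * ∫ n : S2, (S.F (q.1, q.2, (n : E3)))⁻¹ ∂sm :=
    integral_const_mul _ _
  have h9 : A * ∫ n : S2, (S.F (q.1, q.2, (n : E3)))⁻¹ ∂sm ≤
      (∫ n : S2, fderiv ℝ S.F (q.1, q.2, (n : E3)) (e / 2, 1 / (2 * S.k q.2), 0) / S.F (q.1, q.2, (n : E3)) ^ 2 ∂sm) * B := by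
    rw [← h8, ← h4]
    exact h3
  rw [h6, h7, neg_neg]
  have hpi := Real.pi_pos
  calc A * ((4 * Real.pi)⁻¹ * ∫ n : S2, (S.F (q.1, q.2, (n : E3)))⁻¹ ∂sm) =
        (4 * Real.pi)⁻¹ * (A * ∫ n : S2, (S.F (q.1, q.2, (n : E3)))⁻¹ ∂sm) := by ring
    _ ≤ (4 * Real.pi)⁻¹ * ((∫ n : S2, fderiv ℝ S.F (q.1, q.2, (n : E3)) (e / 2, 1 / (2 * S.k q.2), 0) /
          S.F (q.1, q.2, (n : E3)) ^ 2 ∂sm) * B) := mul_le_mul_of_nonneg_left h9 (by positivity)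
    _ = _ := by ring

end H74X
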