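import Pool.Agent.Lib.H74X.B0

set_option autoImplicit false

/-!
# H74X, chunk BS1 (M): continuity and derivative of parameter integrals (pure analysis)

Auxiliary names start with `bs1_`. `S2` is the unit sphere of `E3` (compact), `sm` its surface measure (finite). Template for the
differentiation: `H86N/Had.lean` (`hasFDerivAt_integral_of_dominated_of_fderiv_le`).
-/

open MeasureTheory Filter Topology Set
open scoped ContDiff

namespace H74X

open Pool.Agent.Lib.PenroseSph (E3 S2 sm pd)

theorem bs1_tube {B : Type*} [NormedAddCommGroup B] {q : B} {P : B × E3 → Prop}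
    (h : ∀ n : S2, ∀ᶠ z in 𝓝 (q, (n : E3)), P z) : ∀ᶠ q' in 𝓝 q, ∀ n : S2, P (q', (n : E3)) := by
  have hK : IsCompact (Metric.sphere (0 : E3) 1) := isCompact_sphere _ _
  have h1 := hK.eventually_forall_of_forall_eventually (P := fun x y => P (x, y)) (x₀ := q)
    (fun y hy => h ⟨y, hy⟩)
  filter_upwards [h1] with q' hq n
  exact hq n n.2

theorem bs1_slice {B E : Type*} [NormedAddCommGroup B] [NormedAddCommGroup E] {g : B × E3 → E} {q : B}
    (hg : ∀ n : S2, ContinuousAt g (q, (n : E3))) : Continuous fun n : S2 => g (q, (n : E3)) := by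
  rw [continuous_iff_continuousAt]
  intro n
  have h1 : ContinuousAt (fun n : S2 => ((q, (n : E3)) : B × E3)) n := by fun_prop
  exact ContinuousAt.comp (f := fun n : S2 => ((q, (n : E3)) : B × E3)) (hg n) h1

theorem bs1_bound {B E : Type*} [NormedAddCommGroup B] [NormedAddCommGroup E] {g : B × E3 → E} {q : B}
    (hg : ∀ n : S2, ContinuousAt g (q, (n : E3))) : ∃ C : ℝ, ∀ᶠ q' in 𝓝 q, ∀ n : S2, ‖g (q', (n : E3))‖ ≤ C := by
  have h1 := bs1_slice hg
  obtain ⟨C, hC⟩ := isCompact_univ.exists_bound_of_continuousOn h1.continuousOn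
  refine ⟨C + 1, bs1_tube (P := fun z => ‖g z‖ ≤ C + 1) fun n => ?_⟩
  have h2 : ∀ᶠ z in 𝓝 (q, (n : E3)), ‖g z‖ < ‖g (q, (n : E3))‖ + 1 :=
    (hg n).norm.eventually_lt_const (lt_add_one _)
  filter_upwards [h2] with z hz
  have h3 := hC n (mem_univ n)
  linarith

/-- Continuity of the integral: if `g` is continuous at all points `(q, n)`, `n` in the sphere (tube lemma: `g` is bounded on a neighbourhood
of `{q} × S2`; dominated convergence), for functions with values in a finite dimensional space. `g` need not be measurable away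
from `q`, so continuity is assumed at all points near `q`. -/
theorem param_cont {B E : Type*} [NormedAddCommGroup B] [NormedSpace ℝ B] [NormedAddCommGroup E] [NormedSpace ℝ E]
    [FiniteDimensional ℝ E] {g : B × E3 → E} {q : B} (hg : ∀ᶠ q' in 𝓝 q, ∀ n : S2, ContinuousAt g (q', (n : E3))) :
    ContinuousAt (fun q' : B => ∫ n : S2, g (q', (n : E3)) ∂sm) q := by
  obtain ⟨C, hC⟩ := bs1_bound hg.self_of_nhds
  refine MeasureTheory.continuousAt_of_dominated (bound := fun _ => C) ?_ ?_ (integrable_const C) ?_
  · filter_upwards [hg] with q' hq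
    exact (bs1_slice hq).aestronglyMeasurable
  · filter_upwards [hC] with q' hq
    exact Eventually.of_forall hq
  · refine Eventually.of_forall fun n => ?_
    have h1 : ContinuousAt (fun x : B => ((x, (n : E3)) : B × E3)) q := by fun_prop
    exact ContinuousAt.comp (f := fun x : B => ((x, (n : E3)) : B × E3)) (hg.self_of_nhds n) h1

/-- Differentiation under the integral. For a `C¹` function the derivative with respect to the parameter is continuous near `{q} × S2`, hence
bounded on `U × S2` for a ball `U` around `q`; `hasFDerivAt_integral_of_dominated_of_fderiv_le`. -/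
theorem param_has {B E : Type*} [NormedAddCommGroup B] [NormedSpace ℝ B] [NormedAddCommGroup E] [NormedSpace ℝ E]
    [FiniteDimensional ℝ B] [FiniteDimensional ℝ E] {g : B × E3 → E} {q : B} (hg : ∀ n : S2, ContDiffAt ℝ 1 g (q, (n : E3))) :
    HasFDerivAt (fun q' : B => ∫ n : S2, g (q', (n : E3)) ∂sm)
      (∫ n : S2, (fderiv ℝ g (q, (n : E3))).comp (ContinuousLinearMap.inl ℝ B E3) ∂sm) q := by
  have hgev : ∀ᶠ q' in 𝓝 q, ∀ n : S2, ContDiffAt ℝ 1 g (q', (n : E3)) :=
    bs1_tube (P := fun z => ContDiffAt ℝ 1 g z) fun n => (hg n).eventually (by simp)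
  have hD : ∀ n : S2, ContinuousAt (fun z : B × E3 => (fderiv ℝ g z).comp (ContinuousLinearMap.inl ℝ B E3)) (q, (n : E3)) := by
    intro n
    have h1 : ContDiffAt ℝ 0 (fderiv ℝ g) (q, (n : E3)) := (hg n).fderiv_right (by simp)
    exact h1.continuousAt.clm_comp continuousAt_const
  obtain ⟨C, hC⟩ := bs1_bound hD
  refine hasFDerivAt_integral_of_dominated_of_fderiv_le (𝕜 := ℝ)
    (F' := fun q' (n : S2) => (fderiv ℝ g (q', (n : E3))).comp (ContinuousLinearMap.inl ℝ B E3))
    (bound := fun _ => C) (hgev.and hC) ?_ ?_ ?_ ?_ (integrable_const C) ?_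
  · filter_upwards [hgev] with q' hq
    exact (bs1_slice fun n => (hq n).continuousAt).aestronglyMeasurable
  · exact (bs1_slice fun n => (hg n).continuousAt).integrable_of_hasCompactSupport (HasCompactSupport.of_compactSpace _)
  · exact (bs1_slice hD).aestronglyMeasurable
  · exact Eventually.of_forall fun n q' hq => hq.2 n
  · refine Eventually.of_forall fun n q' hq => ?_
    have h1 : HasFDerivAt g (fderiv ℝ g (q', (n : E3))) (q', (n : E3)) :=
      ((hq.1 n).differentiableAt (by simp)).hasFDerivAt
    exact h1.comp q' (hasFDerivAt_prodMk_left q' (n : E3))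

end H74X
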