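import Pool.Agent.Lib.H74X.B0
import Pool.Agent.Lib.H74X.BS1

set_option autoImplicit false

/-!
# H74X, chunk BS2 (M): smoothness of parameter integrals (pure analysis)

Auxiliary names start with `bs2_`. `S2` is the unit sphere of `E3` (compact), `sm` its surface measure (finite). Template for the
differentiation: `H86N/Had.lean` (`hasFDerivAt_integral_of_dominated_of_fderiv_le`).
-/

open MeasureTheory Filter Topology Set
open scoped ContDiff

namespace H74X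

open Pool.Agent.Lib.PenroseSph (E3 S2 sm pd)

/-- By induction on `N` (for all targets `E`): `contDiffAt_succ_iff_hasFDerivAt`, `param_has` near `q` (`ContDiffAt.eventually` and compactness),
and the induction hypothesis for `z ↦ (fderiv ℝ g z).comp inl`. -/
theorem param_smooth_nat {B : Type} [NormedAddCommGroup B] [NormedSpace ℝ B] [FiniteDimensional ℝ B] (N : ℕ) :
    ∀ {E : Type} [NormedAddCommGroup E] [NormedSpace ℝ E] [FiniteDimensional ℝ E] {g : B × E3 → E} {q : B},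
      (∀ n : S2, ContDiffAt ℝ N g (q, (n : E3))) → ContDiffAt ℝ N (fun q' : B => ∫ n : S2, g (q', (n : E3)) ∂sm) q := by
  induction N with
  | zero =>
    intro E _ _ _ g q hg
    have hev : ∀ᶠ q' in 𝓝 q, ∀ n : S2, ContinuousAt g (q', (n : E3)) :=
      bs1_tube (P := fun z => ContinuousAt g z) fun n =>
        ((hg n).eventually (by simp)).mono fun z hz => hz.continuousAt
    rw [Nat.cast_zero, contDiffAt_zero]
    exact ⟨{q' | ∀ᶠ q'' in 𝓝 q', ∀ n : S2, ContinuousAt g (q'', (n : E3))}, eventually_eventually_nhds.mpr hev,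
      fun q' hq' => (param_cont hq').continuousWithinAt⟩
  | succ N ih =>
    intro E _ _ _ g q hg
    have hcast : ((N + 1 : ℕ) : WithTop ℕ∞) = (N : WithTop ℕ∞) + 1 := by push_cast; rfl
    rw [hcast] at hg ⊢
    rw [contDiffAt_succ_iff_hasFDerivAt]
    refine ⟨fun q' => ∫ n : S2, (fderiv ℝ g (q', (n : E3))).comp (ContinuousLinearMap.inl ℝ B E3) ∂sm,
      ⟨{q' | ∀ n : S2, ContDiffAt ℝ 1 g (q', (n : E3))}, ?_, fun q' hq' => param_has hq'⟩, ?_⟩
    · refine bs1_tube (P := fun z => ContDiffAt ℝ 1 g z) fun n => ?_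
      exact ((hg n).of_le (m := 1) (by simp)).eventually (by simp)
    · refine ih (g := fun z => (fderiv ℝ g z).comp (ContinuousLinearMap.inl ℝ B E3)) fun n => ?_
      exact ((hg n).fderiv_right (m := N) le_rfl).clm_comp contDiffAt_const

/-- the linear map `((T, ρ), y) ↦ (T, ρ, y)` -/
noncomputable def bs2_L : (ℝ × ℝ) × E3 →L[ℝ] VV :=
  ((ContinuousLinearMap.fst ℝ ℝ ℝ).comp (ContinuousLinearMap.fst ℝ (ℝ × ℝ) E3)).prod
    (((ContinuousLinearMap.snd ℝ ℝ ℝ).comp (ContinuousLinearMap.fst ℝ (ℝ × ℝ) E3)).prod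
      (ContinuousLinearMap.snd ℝ (ℝ × ℝ) E3))

/-- The version which is used: parameters `(T, ρ)`. -/
theorem param_smooth {φ : VV → ℝ} {q : ℝ × ℝ} (hφ : ∀ n : S2, ContDiffAt ℝ ∞ φ (q.1, q.2, (n : E3))) :
    ContDiffAt ℝ ∞ (fun q' : ℝ × ℝ => ∫ n : S2, φ (q'.1, q'.2, (n : E3)) ∂sm) q := by
  rw [contDiffAt_infty]
  intro N
  have h1 : ∀ n : S2, ContDiffAt ℝ N (fun z : (ℝ × ℝ) × E3 => φ (bs2_L z)) (q, (n : E3)) := by
    intro n
    have h2 : ContDiffAt ℝ N φ (bs2_L (q, (n : E3))) := (hφ n).of_le (by exact_mod_cast le_top)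
    exact h2.comp (q, (n : E3)) bs2_L.contDiff.contDiffAt
  exact param_smooth_nat N h1

theorem param_fderiv {φ : VV → ℝ} {q : ℝ × ℝ} (hφ : ∀ n : S2, ContDiffAt ℝ ∞ φ (q.1, q.2, (n : E3))) (v : ℝ × ℝ) :
    fderiv ℝ (fun q' : ℝ × ℝ => ∫ n : S2, φ (q'.1, q'.2, (n : E3)) ∂sm) q v =
      ∫ n : S2, fderiv ℝ φ (q.1, q.2, (n : E3)) (v.1, v.2, 0) ∂sm := by
  have h1 : ∀ n : S2, ContDiffAt ℝ 1 (fun z : (ℝ × ℝ) × E3 => φ (bs2_L z)) (q, (n : E3)) := by
    intro n
    have h2 : ContDiffAt ℝ 1 φ (bs2_L (q, (n : E3))) := (hφ n).of_le (by exact_mod_cast le_top)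
    exact h2.comp (q, (n : E3)) bs2_L.contDiff.contDiffAt
  have h3 := param_has h1
  have h4 : fderiv ℝ (fun q' : ℝ × ℝ => ∫ n : S2, φ (q'.1, q'.2, (n : E3)) ∂sm) q =
      ∫ n : S2, (fderiv ℝ (fun z : (ℝ × ℝ) × E3 => φ (bs2_L z)) (q, (n : E3))).comp
        (ContinuousLinearMap.inl ℝ (ℝ × ℝ) E3) ∂sm := h3.fderiv
  have hD : ∀ n : S2, ContinuousAt (fun z : (ℝ × ℝ) × E3 => (fderiv ℝ (fun z : (ℝ × ℝ) × E3 => φ (bs2_L z)) z).comp
      (ContinuousLinearMap.inl ℝ (ℝ × ℝ) E3)) (q, (n : E3)) := by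
    intro n
    have h5 : ContDiffAt ℝ 0 (fderiv ℝ (fun z : (ℝ × ℝ) × E3 => φ (bs2_L z))) (q, (n : E3)) :=
      (h1 n).fderiv_right (by simp)
    exact h5.continuousAt.clm_comp continuousAt_const
  have hint : Integrable (fun n : S2 => (fderiv ℝ (fun z : (ℝ × ℝ) × E3 => φ (bs2_L z)) (q, (n : E3))).comp
      (ContinuousLinearMap.inl ℝ (ℝ × ℝ) E3)) sm :=
    (bs1_slice hD).integrable_of_hasCompactSupport (HasCompactSupport.of_compactSpace _)
  rw [h4, ContinuousLinearMap.integral_apply hint]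
  refine integral_congr_ae (Eventually.of_forall fun n => ?_)
  have h6 : HasFDerivAt φ (fderiv ℝ φ (q.1, q.2, (n : E3))) (bs2_L (q, (n : E3))) :=
    ((hφ n).differentiableAt (by simp)).hasFDerivAt
  have h7 := h6.comp (q, (n : E3)) bs2_L.hasFDerivAt
  have h8 : fderiv ℝ (fun z : (ℝ × ℝ) × E3 => φ (bs2_L z)) (q, (n : E3)) =
      (fderiv ℝ φ (q.1, q.2, (n : E3))).comp bs2_L := h7.fderiv
  dsimp only
  rw [h8]
  rfl

end H74X
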