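import Pool.Agent.Lib.H17B.B3B
import Pool.Agent.Lib.H17B.B8B
import Pool.Agent.Lib.H17B.AFV
import Pool.Agent.Lib.H74X.Defs

set_option autoImplicit false

/-!
# H74X, module E: orders of magnitude at infinity, definitions

`LL` is the filter of the neighbourhoods of infinity of `E3`, `PP f x = pt (f x) x` the event of the slice over `x`.
-/

open MeasureTheory Filter Topology Set Asymptotics
open scoped ContDiff

namespace H74E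

open H17T H17B
open Pool.Agent.Lib.PenroseSph (E3 Tens S2 sm pd fluxDensity momDensity admFlux admMom)

/-- `φ = O(ρ⁻ⁿ)` and `∂φ = O(ρ⁻ⁿ⁻¹)` along the slice. -/
structure Sm (f : E3 → ℝ) (n : ℕ) (φ : E4 → ℝ) : Prop where
  val : (fun x => φ (PP f x)) =O[LL] fun x => (‖x‖ ^ n)⁻¹
  der : ∀ a, (fun x => H31R.pd a φ (PP f x)) =O[LL] fun x => (‖x‖ ^ (n + 1))⁻¹
  diff : ∀ᶠ x in LL, DifferentiableAt ℝ φ (PP f x)

/-- `ψ = O(ρ⁻ⁿ)` and `∂ψ = O(ρ⁻ⁿ⁻¹)` on `E3`. -/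
structure Om (n : ℕ) (ψ : E3 → ℝ) : Prop where
  val : ψ =O[LL] fun x => (‖x‖ ^ n)⁻¹
  der : ∀ i, pd i ψ =O[LL] fun x => (‖x‖ ^ (n + 1))⁻¹
  diff : ∀ᶠ x in LL, DifferentiableAt ℝ ψ x

/-- `H - 1`. -/
noncomputable def KK (H : E4 → Matrix (Fin 3) (Fin 3) ℝ) (i j : Fin 3) (p : E4) : ℝ := H p i j - if i = j then 1 else 0

/-- The unit vector `x/ρ`. -/
noncomputable def un (i : Fin 3) (p : E4) : ℝ := pos p i / ‖pos p‖

/-- The asymptotic conditions in terms of orders of magnitude. -/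
structure Asy (D : Set (ℝ × ℝ)) (F : E4 → ℝ) (k : ℝ → ℝ) (r : ℝ × ℝ → ℝ) (H : E4 → Matrix (Fin 3) (Fin 3) ℝ)
    (U W : E4 → Fin 3 → ℝ) (f : E3 → ℝ) : Prop where
  dom : ∀ᶠ x in LL, ((PP f x) 0, ‖pos (PP f x)‖) ∈ D
  f_smooth : ∀ᶠ x in LL, ContDiffAt ℝ ∞ f x
  f_one : ∀ i, pd i f =O[LL] fun _ => (1 : ℝ)
  f_two : ∀ i j, pd i (pd j f) =O[LL] fun x => (‖x‖ ^ 2)⁻¹
  F_sm : Sm f 1 fun p => F p - 1
  k_sm : Sm f 1 fun p => k ‖pos p‖ - 1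
  r_sm : Sm f 1 fun p => r (p 0, ‖pos p‖) / ‖pos p‖ - 1
  H_sm : ∀ i j, Sm f 1 (KK H i j)
  U_sm : ∀ i, Sm f 1 fun p => U p i
  W_sm : ∀ i, Sm f 1 fun p => W p i

end H74E
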