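import Pool.Agent.Lib.H74X.EA1B

/-!
# H74X, module EA1 (all chunks)
-/
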