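import Pool.Agent.Lib.H74X.E0

set_option autoImplicit false

/-!
# H74X, chunk EA1A (S/M): calculus of orders of magnitude along the slice

Auxiliary names start with `ea1a_`. Template: `H17B/B3A.lean` (`Ex.const`, `Ex.add`, `Ex.mul`), `H17B/B3B.lean` (`b3b_bound`, the directions).
-/

open MeasureTheory Filter Topology Set Asymptotics
open scoped ContDiff

namespace H74E

open H17T H17B

open H74X (Small Small2)

open Pool.Agent.Lib.PenroseSph (E3 Tens S2 sm pd)

variable {f : E3 → ℝ} {n m : ℕ} {φ ψ : E4 → ℝ}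

/-- `ex_pow_le`. -/
theorem Sm.mono (h : Sm f n φ) (hmn : m ≤ n) : Sm f m φ :=
  ⟨h.val.trans (ex_pow_le hmn), fun a => (h.der a).trans (ex_pow_le (Nat.succ_le_succ hmn)), h.diff⟩

theorem Sm.const (f : E3 → ℝ) (c : ℝ) : Sm f 0 fun _ => c := by
  refine ⟨?_, ?_, ?_⟩
  · have h1 : (fun x : E3 => (‖x‖ ^ 0)⁻¹) = fun _ => (1 : ℝ) := by
      funext x
      simp
    rw [h1]
    exact isBigO_const_const c one_ne_zero LL
  · intro a
    have h1 : (fun x : E3 => H31R.pd a (fun _ : E4 => c) (PP f x)) = fun _ => (0 : ℝ) := by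
      funext x
      simp [H31R.pd]
    rw [h1]
    exact isBigO_zero _ _
  · exact Eventually.of_forall fun x => differentiableAt_const _

theorem Sm.neg (h : Sm f n φ) : Sm f n fun p => -φ p := by
  refine ⟨h.val.neg_left, ?_, ?_⟩
  · intro a
    refine (h.der a).neg_left.congr_left fun x => ?_
    have h1 : H31R.pd a (fun p => -φ p) (PP f x) = -H31R.pd a φ (PP f x) := by
      unfold H31R.pd
      rw [fderiv_fun_neg]
      rfl
    rw [h1]
  · filter_upwards [h.diff] with x hx
    exact hx.fun_neg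

theorem Sm.add (h : Sm f n φ) (h' : Sm f n ψ) : Sm f n fun p => φ p + ψ p := by
  refine ⟨h.val.add h'.val, ?_, ?_⟩
  · intro a
    refine IsBigO.congr' ((h.der a).add (h'.der a)) ?_ EventuallyEq.rfl
    filter_upwards [h.diff, h'.diff] with x hx hx'
    have h1 : H31R.pd a (fun p => φ p + ψ p) (PP f x) = H31R.pd a φ (PP f x) + H31R.pd a ψ (PP f x) := by
      unfold H31R.pd
      rw [fderiv_fun_add hx hx']
      rfl
    rw [h1]
  · filter_upwards [h.diff, h'.diff] with x hx hx'
    exact hx.fun_add hx'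

theorem Sm.sub (h : Sm f n φ) (h' : Sm f n ψ) : Sm f n fun p => φ p - ψ p := by
  have h1 := h.add h'.neg
  simpa [sub_eq_add_neg] using h1

/-- Product rule. -/
theorem Sm.mul (h : Sm f n φ) (h' : Sm f m ψ) : Sm f (n + m) fun p => φ p * ψ p := by
  refine ⟨?_, ?_, ?_⟩
  · refine (h.val.mul h'.val).congr_right fun x => ?_
    rw [pow_add, mul_inv]
  · intro a
    have e1 := (h.der a).mul h'.val
    have e2 := h.val.mul (h'.der a)
    have e1' : (fun x => H31R.pd a φ (PP f x) * ψ (PP f x)) =O[LL] fun x => (‖x‖ ^ (n + m + 1))⁻¹ := by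
      refine e1.congr_right fun x => ?_
      rw [← mul_inv, ← pow_add]
      congr 2
      omega
    have e2' : (fun x => φ (PP f x) * H31R.pd a ψ (PP f x)) =O[LL] fun x => (‖x‖ ^ (n + m + 1))⁻¹ := by
      refine e2.congr_right fun x => ?_
      rw [← mul_inv, ← pow_add]
      congr 2
    refine IsBigO.congr' (e1'.add e2') ?_ EventuallyEq.rfl
    filter_upwards [h.diff, h'.diff] with x hx hx'
    have h1 : H31R.pd a (fun p => φ p * ψ p) (PP f x) = φ (PP f x) * H31R.pd a ψ (PP f x) + ψ (PP f x) * H31R.pd a φ (PP f x) := by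
      unfold H31R.pd
      rw [fderiv_fun_mul hx hx']
      rfl
    rw [h1]
    ring
  · filter_upwards [h.diff, h'.diff] with x hx hx'
    exact hx.fun_mul hx'

theorem Sm.const_mul (c : ℝ) (h : Sm f n φ) : Sm f n fun p => c * φ p := by
  have h1 := (Sm.const f c).mul h
  rwa [zero_add] at h1

theorem Sm.sum {ι : Type*} (s : Finset ι) {φ : ι → E4 → ℝ} (h : ∀ i ∈ s, Sm f n (φ i)) : Sm f n fun p => ∑ i ∈ s, φ i p := by
  classical
  induction s using Finset.induction_on with
  | empty =>
    have h0 : Sm f n fun _ => (0 : ℝ) := by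
      refine ⟨isBigO_zero _ _, ?_, Eventually.of_forall fun x => differentiableAt_const _⟩
      intro a
      have h1 : (fun x : E3 => H31R.pd a (fun _ : E4 => (0 : ℝ)) (PP f x)) = fun _ => (0 : ℝ) := by
        funext x
        simp [H31R.pd]
      rw [h1]
      exact isBigO_zero _ _
    simpa using h0
  | insert i s hi ih =>
    have h1 := (h i (Finset.mem_insert_self i s)).add (ih fun j hj => h j (Finset.mem_insert_of_mem hj))
    have h2 : (fun p => ∑ j ∈ insert i s, φ j p) = fun p => φ i p + ∑ j ∈ s, φ j p := by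
      funext p
      rw [Finset.sum_insert hi]
    rw [h2]
    exact h1

/-- Functions which are equal near the events of the slice. -/
theorem Sm.congr (h : Sm f n φ) (he : ∀ᶠ x in LL, φ =ᶠ[𝓝 (PP f x)] ψ) : Sm f n ψ := by
  refine ⟨?_, ?_, ?_⟩
  · refine IsBigO.congr' h.val ?_ EventuallyEq.rfl
    filter_upwards [he] with x hx
    exact hx.eq_of_nhds
  · intro a
    refine IsBigO.congr' (h.der a) ?_ EventuallyEq.rfl
    filter_upwards [he] with x hx
    unfold H31R.pd
    rw [hx.fderiv_eq]
  · filter_upwards [he, h.diff] with x hx hx'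
    exact hx'.congr_of_eventuallyEq hx.symm

end H74E
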