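import Pool.Agent.Lib.H74X.E0
import Pool.Agent.Lib.H74X.EA1A

set_option autoImplicit false

/-!
# H74X, chunk EA1B (S/M): directions, bounds of the statement

Auxiliary names start with `ea1b_`. Template: `H17B/B3A.lean` (`Ex.const`, `Ex.add`, `Ex.mul`), `H17B/B3B.lean` (`b3b_bound`, the directions).
-/

open MeasureTheory Filter Topology Set Asymptotics
open scoped ContDiff

namespace H74E

open H17T H17B

open H74X (Small Small2)

open Pool.Agent.Lib.PenroseSph (E3 Tens S2 sm pd)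

variable {f : E3 → ℝ} {n m : ℕ} {φ ψ : E4 → ℝ}

/-- The directions (`H17B/B3B.lean`). -/
theorem Sm.un (f : E3 → ℝ) (i : Fin 3) : Sm f 0 (un i) := by
  obtain ⟨h1, h2, h3⟩ := ex_dir f i
  refine ⟨?_, ?_, h3⟩
  · refine h1.congr_right fun x => ?_
    simp
  · intro a
    refine (h2 a).congr_right fun x => ?_
    simp

/-- The event of the slice over `x` is in `Near R₀ f`. -/
theorem ea1b_near {R₀ : ℝ} {x : E3} (hx : R₀ < ‖x‖) : PP f x ∈ H17V.Near R₀ f :=
  ⟨by rw [b3b_pp]; exact hx, x, by rw [b3b_pp], (pt_zero _ _).symm⟩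

/-- From the bounds of the statement: `PP f x ∈ Near R₀ f`, `pos (PP f x) = x` (`b3b_bound`, `H17V.mem_near`). -/
theorem Sm.of_small {R₀ : ℝ} (h : Small R₀ f n φ) (hd : ∀ᶠ x in LL, DifferentiableAt ℝ φ (PP f x)) : Sm f n φ := by
  obtain ⟨C, R, hR, hC⟩ := h
  have key : ∀ x : E3, max R (R₀ + 1) ≤ ‖x‖ → |φ (PP f x)| ≤ C / ‖x‖ ^ n ∧ ∀ a, |H31R.pd a φ (PP f x)| ≤ C / ‖x‖ ^ (n + 1) := by
    intro x hx
    have h1 : R ≤ ‖x‖ := (le_max_left _ _).trans hx
    have h2 : R₀ < ‖x‖ := by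
      have := (le_max_right R (R₀ + 1)).trans hx
      linarith
    have h3 := hC (PP f x) (ea1b_near h2) (by rw [b3b_pp]; exact h1)
    rw [b3b_pp] at h3
    exact h3
  exact ⟨b3b_bound (R := max R (R₀ + 1)) (C := C) n fun x hx => (key x hx).1,
    fun a => b3b_bound (R := max R (R₀ + 1)) (C := C) (n + 1) fun x hx => (key x hx).2 a, hd⟩

theorem Sm.of_decay {R₀ : ℝ} (h : H17V.Decay R₀ f φ) (hd : ∀ᶠ x in LL, DifferentiableAt ℝ φ (PP f x)) :
    Sm f 1 fun p => φ p - 1 := by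
  have hpd : ∀ (a : Fin 4) (p : E4), H31R.pd a (fun p => φ p - 1) p = H31R.pd a φ p := by
    intro a p
    unfold H31R.pd
    rw [fderiv_sub_const]
  refine Sm.of_small (R₀ := R₀) ?_ ?_
  · obtain ⟨C, R, hR, hC⟩ := h
    refine ⟨C, R, hR, fun p hp hRp => ?_⟩
    obtain ⟨h1, h2⟩ := hC p hp hRp
    refine ⟨by rw [pow_one]; exact h1, fun a => ?_⟩
    rw [hpd]
    exact h2 a
  · filter_upwards [hd] with x hx
    exact hx.sub_const 1

/-- Comparison with the expansions of H17B. -/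
theorem Sm.ex (h : Sm f 2 φ) : Ex f 0 0 φ := by
  refine ⟨?_, ?_, h.diff⟩
  · refine h.val.congr_left fun x => ?_
    simp
  · intro a
    refine (h.der a).congr_left fun x => ?_
    simp

end H74E
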