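import Pool.Agent.Lib.H74X.EA1
import Pool.Agent.Lib.H74X.EA2A

set_option autoImplicit false

/-!
# H74X, chunk EA2B (S/M): directions, chain rule

Auxiliary names start with `ea2b_`. As `EA1`. `Pool.Agent.Lib.PenroseSph.pd i ψ x = fderiv ℝ ψ x (EuclideanSpace.single i 1)`.
-/

open MeasureTheory Filter Topology Set Asymptotics
open scoped ContDiff

namespace H74E

open H17T H17B

open Pool.Agent.Lib.PenroseSph (E3 Tens S2 sm pd)

variable {f : E3 → ℝ} {n m : ℕ} {φ ψ : E3 → ℝ}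

/-- The derivative of `x_i/|x|`. -/
theorem ea2b_fd {x : E3} (hx : x ≠ 0) (i : Fin 3) : HasFDerivAt (fun y : E3 => y i / ‖y‖)
    ((‖x‖ ^ 2)⁻¹ • (‖x‖ • (EuclideanSpace.proj i : E3 →L[ℝ] ℝ) - x i • (‖x‖⁻¹ • innerSL ℝ x))) x := by
  have hn : ‖x‖ ≠ 0 := norm_ne_zero_iff.2 hx
  have hr : HasFDerivAt (fun y : E3 => ‖y‖) (‖x‖⁻¹ • innerSL ℝ x) x := Pool.Agent.Lib.PenroseSph.hasFDerivAt_norm' hx
  have h0 : HasFDerivAt (fun y : E3 => y i) (EuclideanSpace.proj i : E3 →L[ℝ] ℝ) x :=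
    (EuclideanSpace.proj i : E3 →L[ℝ] ℝ).hasFDerivAt
  have h1 := h0.mul ((hasDerivAt_inv hn).comp_hasFDerivAt x hr)
  have e : (fun y : E3 => y i / ‖y‖) = fun y : E3 => y i * (‖y‖)⁻¹ := by
    funext p
    rw [div_eq_mul_inv]
  rw [e]
  refine h1.congr_fderiv ?_
  ext v
  simp only [ContinuousLinearMap.add_apply, ContinuousLinearMap.smul_apply, ContinuousLinearMap.sub_apply,
    smul_eq_mul, Function.comp_apply]
  field_simp
  ring

/-- The value of the derivative of `x_i/|x|`. -/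
theorem pd_un {x : E3} (hx : x ≠ 0) (i j : Fin 3) :
    pd j (fun y : E3 => y i / ‖y‖) x = ((if i = j then 1 else 0) - x i / ‖x‖ * (x j / ‖x‖)) / ‖x‖ := by
  have hn : ‖x‖ ≠ 0 := norm_ne_zero_iff.2 hx
  have e1 : pd j (fun y : E3 => y i / ‖y‖) x = fderiv ℝ (fun y : E3 => y i / ‖y‖) x (EuclideanSpace.single j 1) := rfl
  rw [e1, (ea2b_fd hx i).fderiv]
  simp only [ContinuousLinearMap.smul_apply, ContinuousLinearMap.sub_apply, smul_eq_mul]
  have h3 : (EuclideanSpace.proj i : E3 →L[ℝ] ℝ) (EuclideanSpace.single j (1 : ℝ)) = if i = j then (1 : ℝ) else 0 := by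
    show (EuclideanSpace.single j (1 : ℝ) : E3) i = _
    rw [EuclideanSpace.single_apply]
  have h4 : innerSL ℝ x (EuclideanSpace.single j (1 : ℝ)) = x j := by
    rw [innerSL_apply_apply, EuclideanSpace.inner_single_right]
    simp
  rw [h3, h4]
  field_simp

/-- `x_i/|x|`: `∂_j (x_i/|x|) = (δ_ij - x_i x_j/|x|²)/|x|`. -/
theorem Om.un (i : Fin 3) : Om 0 fun x : E3 => x i / ‖x‖ := by
  have hb : ∀ (i : Fin 3) (x : E3), |x i / ‖x‖| ≤ 1 := fun i x => ex_om i.succ x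
  refine ⟨?_, ?_, ?_⟩
  · refine b3b_bound (R := 1) (C := 1) 0 fun x _ => ?_
    simpa using hb i x
  · intro j
    refine b3b_bound (R := 1) (C := 2) (0 + 1) fun x hx => ?_
    have hx0 : 0 < ‖x‖ := lt_of_lt_of_le one_pos hx
    rw [pd_un (norm_pos_iff.1 hx0), abs_div, abs_norm, zero_add, pow_one]
    refine div_le_div_of_nonneg_right ?_ hx0.le
    have h3 : |(if i = j then (1 : ℝ) else 0)| ≤ 1 := by
      split_ifs <;> simp
    have h4 : |x i / ‖x‖ * (x j / ‖x‖)| ≤ 1 := by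
      rw [abs_mul]
      exact mul_le_one₀ (hb i x) (abs_nonneg _) (hb j x)
    have h5 := abs_sub (if i = j then (1 : ℝ) else 0) (x i / ‖x‖ * (x j / ‖x‖))
    linarith
  · filter_upwards [tendsto_norm_cobounded_atTop.eventually_ge_atTop 1] with x hx
    exact (ea2b_fd (norm_pos_iff.1 (lt_of_lt_of_le one_pos hx)) i).differentiableAt

/-- Chain rule (`b8b_chain` in `H17B/B8B.lean`). -/
theorem pd_PP {φ : E4 → ℝ} {x : E3} (hf : DifferentiableAt ℝ f x) (hφ : DifferentiableAt ℝ φ (PP f x)) (i : Fin 3) :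
    DifferentiableAt ℝ (fun x => φ (PP f x)) x ∧
      pd i (fun x => φ (PP f x)) x = H31R.pd i.succ φ (PP f x) + H31R.pd 0 φ (PP f x) * pd i f x := by
  obtain ⟨h1, h2⟩ := b8b_chain hf hφ i
  exact ⟨h1, by rw [h2]; ring⟩

/-- Restriction to the slice. -/
theorem Sm.comp {φ : E4 → ℝ} (h : Sm f n φ) (hf : ∀ᶠ x in LL, DifferentiableAt ℝ f x)
    (h1 : ∀ i, pd i f =O[LL] fun _ => (1 : ℝ)) : Om n fun x => φ (PP f x) := by
  refine ⟨h.val, ?_, ?_⟩
  · intro i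
    have e1 := (h.der 0).mul (h1 i)
    have e2 : (fun x => H31R.pd 0 φ (PP f x) * pd i f x) =O[LL] fun x => (‖x‖ ^ (n + 1))⁻¹ := by
      refine e1.congr_right fun x => ?_
      rw [mul_one]
    refine IsBigO.congr' ((h.der i.succ).add e2) ?_ EventuallyEq.rfl
    filter_upwards [h.diff, hf] with x hx hx'
    exact (pd_PP hx' hx i).2.symm
  · filter_upwards [h.diff, hf] with x hx hx'
    exact (pd_PP hx' hx 0).1

/-- The first derivatives of `f`, if they tend to zero. -/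
theorem Om.pd {C : ℝ} (hf : ∀ᶠ x in LL, ContDiffAt ℝ ∞ f x)
    (h1 : ∀ᶠ x in LL, ∀ i, |Pool.Agent.Lib.PenroseSph.pd i f x| ≤ C / ‖x‖)
    (h2 : ∀ i j, Pool.Agent.Lib.PenroseSph.pd i (Pool.Agent.Lib.PenroseSph.pd j f) =O[LL] fun x => (‖x‖ ^ 2)⁻¹) (i : Fin 3) :
    Om 1 (Pool.Agent.Lib.PenroseSph.pd i f) := by
  refine ⟨?_, fun j => h2 j i, ?_⟩
  · refine IsBigO.of_bound C ?_
    filter_upwards [h1] with x hx
    rw [Real.norm_eq_abs, Real.norm_of_nonneg (show (0 : ℝ) ≤ (‖x‖ ^ 1)⁻¹ by positivity), ← div_eq_mul_inv, pow_one]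
    exact hx i
  · filter_upwards [hf] with x hx
    exact b8b_diff hx i

end H74E
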