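import Pool.Agent.Lib.H74X.A1
import Pool.Agent.Lib.H74X.A2
import Pool.Agent.Lib.H74X.EA2

set_option autoImplicit false

/-!
# H74X, chunk EB1A (S/M): from the hypotheses to orders of magnitude

Auxiliary names start with `eb1a_`. 
-/

open MeasureTheory Filter Topology Set Asymptotics
open scoped ContDiff

namespace H74E

open H17T H17B

open H74X (metric va dra met_ip SpaceTime AsympFlatB dom_open)

open Pool.Agent.Lib.PenroseSph (E3 Tens S2 sm pd)

variable {R₀ β : ℝ} {D : Set (ℝ × ℝ)} {F : E4 → ℝ} {k : ℝ → ℝ} {r : ℝ × ℝ → ℝ} {H : E4 → Matrix (Fin 3) (Fin 3) ℝ}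
  {U W : E4 → Fin 3 → ℝ} {f : E3 → ℝ}

/-- The radius is differentiable at the events of the slice. -/
theorem eb1a_rho (f : E3 → ℝ) {x : E3} (hx : 0 < ‖x‖) : DifferentiableAt ℝ (fun q : E4 => ‖pos q‖) (PP f x) :=
  (b3b_rho (b3b_ne f hx)).differentiableAt

/-- From the hypotheses: `PP f x` is in the domain for `|x| > R₀` (`pos (PP f x) = x`), `Sm.of_small`, `Sm.of_decay`, differentiability from the smoothness of
`F`, `k`, `r`, `H`, `U`, `W` (`hS.st`); `∂f = β + O(1/ρ)` is bounded. -/
theorem asy_of (hS : H74X.Slice R₀ D F k r H U W f) (hA : AsympFlatB R₀ β F k r H U W f) : Asy D F k r H U W f := by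
  have hst := hS.st
  have hbig : ∀ᶠ x : E3 in LL, R₀ < ‖x‖ := tendsto_norm_cobounded_atTop.eventually_gt_atTop R₀
  have hpos : ∀ {x : E3}, R₀ < ‖x‖ → 0 < ‖x‖ := fun {x} hx => lt_of_le_of_lt hst.nonneg hx
  have hdom : ∀ {x : E3}, R₀ < ‖x‖ → ((PP f x) 0, ‖pos (PP f x)‖) ∈ D := by
    intro x hx
    rw [b3b_pp]
    exact hS.mem x hx
  have hne : (∞ : WithTop ℕ∞) ≠ 0 := by simp
  obtain ⟨C, R, hR, hC⟩ := hA.base.f_decay
  refine ⟨?_, ?_, ?_, ?_, ?_, ?_, ?_, ?_, ?_, ?_⟩
  · filter_upwards [hbig] with x hx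
    exact hdom hx
  · filter_upwards [hbig] with x hx
    exact hS.f_smooth x hx
  · intro i
    refine IsBigO.of_bound (|C| + |β|) ?_
    filter_upwards [tendsto_norm_cobounded_atTop.eventually_ge_atTop (max R 1)] with x hx
    have h1 := (hC x ((le_max_left _ _).trans hx)).1 i
    have h2 : (1 : ℝ) ≤ ‖x‖ := (le_max_right _ _).trans hx
    have h3 : C / ‖x‖ ≤ |C| := by
      rw [div_le_iff₀ (by linarith)]
      have := le_abs_self C
      nlinarith [abs_nonneg C]
    have h4 : |(if i = 0 then β else 0)| ≤ |β| := by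
      split_ifs
      · exact le_rfl
      · simp
    rw [norm_one, mul_one, Real.norm_eq_abs]
    have h5 : |pd i f x| ≤ |pd i f x - (if i = 0 then β else 0)| + |(if i = 0 then β else 0)| := by
      have := abs_add_le (pd i f x - (if i = 0 then β else 0)) (if i = 0 then β else 0)
      rwa [sub_add_cancel] at this
    linarith
  · intro i j
    exact b3b_bound (R := R) (C := C) 2 fun x hx => (hC x hx).2 i j
  · refine Sm.of_decay hA.base.F_decay ?_
    filter_upwards [hbig] with x hx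
    exact (hst.F_smooth _ (hdom hx)).differentiableAt hne
  · refine Sm.of_decay (φ := fun p => k ‖pos p‖) hA.base.k_decay ?_
    filter_upwards [hbig] with x hx
    have h1 : DifferentiableAt ℝ k ‖pos (PP f x)‖ := by
      rw [b3b_pp]
      exact (hst.k_smooth _ hx).differentiableAt hne
    exact h1.comp (PP f x) (eb1a_rho f (hpos hx))
  · refine Sm.of_decay (φ := fun p => r (p 0, ‖pos p‖) / ‖pos p‖) hA.base.r_decay ?_
    filter_upwards [hbig] with x hx
    have h0 : DifferentiableAt ℝ (fun p : E4 => p 0) (PP f x) :=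
      (EuclideanSpace.proj (0 : Fin 4) : E4 →L[ℝ] ℝ).differentiableAt
    have h1 : DifferentiableAt ℝ r ((PP f x) 0, ‖pos (PP f x)‖) := (hst.r_smooth _ (hdom hx)).differentiableAt hne
    have h2 : DifferentiableAt ℝ (fun p : E4 => r (p 0, ‖pos p‖)) (PP f x) :=
      DifferentiableAt.comp (g := r) (f := fun p : E4 => (p 0, ‖pos p‖)) (PP f x) h1 (h0.prodMk (eb1a_rho f (hpos hx)))
    have h3 : ‖pos (PP f x)‖ ≠ 0 := by
      rw [b3b_pp]
      exact (hpos hx).ne'
    have e : (fun p : E4 => r (p 0, ‖pos p‖) / ‖pos p‖) = fun p : E4 => r (p 0, ‖pos p‖) * (‖pos p‖)⁻¹ := by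
      funext p
      rw [div_eq_mul_inv]
    rw [e]
    exact h2.fun_mul ((hasDerivAt_inv h3).comp_hasFDerivAt (PP f x) (b3b_rho (b3b_ne f (hpos hx)))).differentiableAt
  · intro i j
    refine Sm.of_small (R₀ := R₀) (hA.H_decay i j) ?_
    filter_upwards [hbig] with x hx
    exact ((hst.H_smooth _ (hdom hx) i j).differentiableAt hne).sub_const _
  · intro i
    refine Sm.of_small (R₀ := R₀) (hA.U_decay i) ?_
    filter_upwards [hbig] with x hx
    exact (hst.U_smooth _ (hdom hx) i).differentiableAt hne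
  · intro i
    refine Sm.of_small (R₀ := R₀) (hA.W_decay i) ?_
    filter_upwards [hbig] with x hx
    exact (hst.W_smooth _ (hdom hx) i).differentiableAt hne

/-- The point `PP f x` and its neighbours are in the domain (`dom_open`). -/
theorem dom_ev (hS : SpaceTime R₀ D F k r H U W) (hA : Asy D F k r H U W f) :
    ∀ᶠ x in LL, ∀ᶠ p in 𝓝 (PP f x), (p 0, ‖pos p‖) ∈ D := by
  filter_upwards [hA.dom] with x hx
  exact (dom_open hS).mem_nhds hx

end H74E
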