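import Pool.Agent.Lib.H74X.A1
import Pool.Agent.Lib.H74X.A2
import Pool.Agent.Lib.H74X.EA2
import Pool.Agent.Lib.H74X.EB1A

set_option autoImplicit false

/-!
# H74X, chunk EB1B (S): components of the metric (finite sums)

Auxiliary names start with `eb1b_`. 
-/

open MeasureTheory Filter Topology Set Asymptotics
open scoped ContDiff

namespace H74E

open H17T H17B

open H74X (metric va dra met_ip SpaceTime AsympFlatB dom_open)

open Pool.Agent.Lib.PenroseSph (E3 Tens S2 sm pd)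

variable {R₀ β : ℝ} {D : Set (ℝ × ℝ)} {F : E4 → ℝ} {k : ℝ → ℝ} {r : ℝ × ℝ → ℝ} {H : E4 → Matrix (Fin 3) (Fin 3) ℝ}
  {U W : E4 → Fin 3 → ℝ} {f : E3 → ℝ}

/-- The values of `V` on the coordinate vectors: `V_b(∂_T) = - U_b`, `V_b(∂_j) = δ_bj - (x_b/ρ + W_b) x_j/ρ`, `dρ(∂_T) = 0`, `dρ(∂_j) = x_j/ρ`; `G_ab = <∂_a, ∂_b>` (`met_ip`). -/
theorem comp_00 (p : E4) : metric F k r H U W p 0 0 = -F p + (r (p 0, ‖pos p‖) / ‖pos p‖) ^ 2 * ∑ a, ∑ b, H p a b * (U p a * U p b) := by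
  unfold metric
  simp only [Matrix.of_apply, H74X.dtm, H74X.drh, H74X.form, Fin.cons_zero, Fin.sum_univ_three]
  ring

theorem comp_0j (p : E4) (j : Fin 3) : metric F k r H U W p 0 j.succ =
    -(r (p 0, ‖pos p‖) / ‖pos p‖) ^ 2 * ∑ a, ∑ b, H p a b * (U p a * ((if b = j then 1 else 0) - (un b p + W p b) * un j p)) := by
  unfold metric un
  simp only [Matrix.of_apply, H74X.dtm, H74X.drh, H74X.form, Fin.cons_zero, Fin.cons_succ, Fin.sum_univ_three]
  ring

theorem comp_j0 (p : E4) (j : Fin 3) : metric F k r H U W p j.succ 0 =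
    -(r (p 0, ‖pos p‖) / ‖pos p‖) ^ 2 * ∑ a, ∑ b, H p a b * (((if a = j then 1 else 0) - (un a p + W p a) * un j p) * U p b) := by
  unfold metric un
  simp only [Matrix.of_apply, H74X.dtm, H74X.drh, H74X.form, Fin.cons_zero, Fin.cons_succ, Fin.sum_univ_three]
  ring

theorem comp_ij (p : E4) (i j : Fin 3) : metric F k r H U W p i.succ j.succ =
    F p * k ‖pos p‖ ^ 2 * (un i p * un j p) + (r (p 0, ‖pos p‖) / ‖pos p‖) ^ 2 * ∑ a, ∑ b, H p a b *
      (((if a = i then 1 else 0) - (un a p + W p a) * un i p) * ((if b = j then 1 else 0) - (un b p + W p b) * un j p)) := by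
  unfold metric un
  simp only [Matrix.of_apply, H74X.dtm, H74X.drh, H74X.form, Fin.cons_zero, Fin.cons_succ, Fin.sum_univ_three]
  ring

end H74E
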