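import Pool.Agent.Lib.H74X.EB1

set_option autoImplicit false

/-!
# H74X, chunk EB2A (S/M): relations near the slice

Auxiliary names start with `eb2a_`. `stMetric F k r = metric F k r 1 0 0` (`H17T/Defs.lean`, `stMetric`: components `-F`, `0`, `F k² x_i x_j/ρ² + (r/ρ)² (δ_ij - x_i x_j/ρ²)`).
Write `q = (r/ρ)²`, `q - 1 ∈ Sm 1`, `K = H - 1 ∈ Sm 1`, `K x = 0`, `Σ x_a U_a = 0`, `Σ x_a W_a = 0` near the events of the slice (`dom_ev`, `H_rad`, `U_tan`, `W_tan`; use `Sm.congr`).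
-/

open MeasureTheory Filter Topology Set Asymptotics
open scoped ContDiff

namespace H74E

open H17T H17B

open H74X (metric va dra met_ip SpaceTime AsympFlatB dom_open)

open Pool.Agent.Lib.PenroseSph (E3 Tens S2 sm pd)

variable {R₀ β : ℝ} {D : Set (ℝ × ℝ)} {F : E4 → ℝ} {k : ℝ → ℝ} {r : ℝ × ℝ → ℝ} {H : E4 → Matrix (Fin 3) (Fin 3) ℝ}
  {U W : E4 → Fin 3 → ℝ} {f : E3 → ℝ}

/-- `(r/ρ)² - 1` is of first order. -/
theorem q_sm (hA : Asy D F k r H U W f) : Sm f 1 fun p => (r (p 0, ‖pos p‖) / ‖pos p‖) ^ 2 - 1 := by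
  have h1 := ((hA.r_sm.mul hA.r_sm).mono (show 1 ≤ 1 + 1 by norm_num)).add (hA.r_sm.const_mul 2)
  have e : (fun p : E4 => (r (p 0, ‖pos p‖) / ‖pos p‖ - 1) * (r (p 0, ‖pos p‖) / ‖pos p‖ - 1) + 2 * (r (p 0, ‖pos p‖) / ‖pos p‖ - 1)) =
      fun p => (r (p 0, ‖pos p‖) / ‖pos p‖) ^ 2 - 1 := by
    funext p
    ring
  rwa [e] at h1

/-- `(r/ρ)²` is bounded. -/
theorem q_zero (hA : Asy D F k r H U W f) : Sm f 0 fun p => (r (p 0, ‖pos p‖) / ‖pos p‖) ^ 2 := by
  have h1 := ((q_sm hA).mono (Nat.zero_le 1)).add (Sm.const f 1)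
  simpa using h1

theorem H_zero (hA : Asy D F k r H U W f) (i j : Fin 3) : Sm f 0 fun p => H p i j := by
  have h1 := ((hA.H_sm i j).mono (Nat.zero_le 1)).add (Sm.const f (if i = j then 1 else 0))
  have e : (fun p : E4 => KK H i j p + (if i = j then (1 : ℝ) else 0)) = fun p => H p i j := by
    funext p
    unfold KK
    ring
  rwa [e] at h1

/-- `Σ_j K_ij x_j/ρ = 0`, `Σ_j x_j/ρ W_j = 0`, `Σ_j x_j/ρ U_j = 0` near the events of the slice. -/
theorem rel_ev (hS : SpaceTime R₀ D F k r H U W) (hA : Asy D F k r H U W f) :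
    ∀ᶠ x in LL, ∀ᶠ p in 𝓝 (PP f x), (∀ i, ∑ j, KK H i j p * un j p = 0) ∧ (∀ i j, KK H i j p = KK H j i p) ∧
      (∑ j, un j p * U p j) = 0 ∧ (∑ j, un j p * W p j) = 0 ∧ (∑ j, un j p * un j p) = 1 := by
  filter_upwards [dom_ev hS hA] with x hx
  filter_upwards [hx] with p hp
  obtain ⟨h1, h2, h3⟩ := H74X.unit_pos hS hp
  refine ⟨fun i => ?_, fun i j => ?_, h2, h3, h1⟩
  · have h4 := hS.H_rad p hp i
    have h5 : ∑ j, KK H i j p * un j p = (∑ j, H p i j * pos p j) / ‖pos p‖ - pos p i / ‖pos p‖ := by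
      rw [Finset.sum_div]
      have h6 : pos p i / ‖pos p‖ = ∑ j, (if i = j then (1 : ℝ) else 0) * (pos p j / ‖pos p‖) := by simp
      rw [h6, ← Finset.sum_sub_distrib]
      refine Finset.sum_congr rfl fun j _ => ?_
      unfold KK un
      ring
    rw [h5, h4, sub_self]
  · unfold KK
    rw [hS.H_symm p hp i j]
    by_cases hij : i = j
    · rw [if_pos hij, if_pos hij.symm]
    · rw [if_neg hij, if_neg fun h => hij h.symm]

/-- `div U = div W = 0` at the events of the slice. -/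
theorem div_ev (hS : SpaceTime R₀ D F k r H U W) (hA : Asy D F k r H U W f) :
    ∀ᶠ x in LL, (∑ i : Fin 3, H31R.pd i.succ (fun q => U q i) (PP f x)) = 0 ∧
      (∑ i : Fin 3, H31R.pd i.succ (fun q => W q i) (PP f x)) = 0 := by
  filter_upwards [hA.dom] with x hx
  exact ⟨hS.U_div _ hx, hS.W_div _ hx⟩

end H74E
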