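import Pool.Agent.Lib.H74X.EB1
import Pool.Agent.Lib.H74X.EB2A

set_option autoImplicit false

/-!
# H74X, chunk EB2B (M): trace of H - 1, mixed components

Auxiliary names start with `eb2b_`. `stMetric F k r = metric F k r 1 0 0` (`H17T/Defs.lean`, `stMetric`: components `-F`, `0`, `F k² x_i x_j/ρ² + (r/ρ)² (δ_ij - x_i x_j/ρ²)`).
Write `q = (r/ρ)²`, `q - 1 ∈ Sm 1`, `K = H - 1 ∈ Sm 1`, `K x = 0`, `Σ x_a U_a = 0`, `Σ x_a W_a = 0` near the events of the slice (`dom_ev`, `H_rad`, `U_tan`, `W_tan`; use `Sm.congr`).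
-/

open MeasureTheory Filter Topology Set Asymptotics
open scoped ContDiff

namespace H74E

open H17T H17B

open H74X (metric va dra met_ip SpaceTime AsympFlatB dom_open)

open Pool.Agent.Lib.PenroseSph (E3 Tens S2 sm pd)

variable {R₀ β : ℝ} {D : Set (ℝ × ℝ)} {F : E4 → ℝ} {k : ℝ → ℝ} {r : ℝ × ℝ → ℝ} {H : E4 → Matrix (Fin 3) (Fin 3) ℝ}
  {U W : E4 → Fin 3 → ℝ} {f : E3 → ℝ}

/-- Inner sum. -/
theorem eb2b_inner (K : Fin 3 → Fin 3 → ℝ) (n w : Fin 3 → ℝ) (hK : ∀ a, ∑ b, K a b * n b = 0) (a j : Fin 3) :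
    ∑ b, ((if a = b then 1 else 0) + K a b) * ((if b = j then 1 else 0) - (n b + w b) * n j) =
      (if a = j then 1 else 0) + K a j - n j * (n a + w a + ∑ b, K a b * w b) := by
  have h1 : ∀ b, ((if a = b then (1 : ℝ) else 0) + K a b) * ((if b = j then 1 else 0) - (n b + w b) * n j) =
      (if a = b then ((if b = j then (1 : ℝ) else 0) - (n b + w b) * n j) else 0) + (if b = j then K a b else 0) -
        n j * (K a b * n b) - n j * (K a b * w b) := by
    intro b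
    split_ifs <;> ring
  rw [Finset.sum_congr rfl fun b _ => h1 b, Finset.sum_sub_distrib, Finset.sum_sub_distrib, Finset.sum_add_distrib,
    ← Finset.mul_sum, ← Finset.mul_sum, hK]
  simp only [Finset.sum_ite_eq, Finset.sum_ite_eq', Finset.mem_univ, if_true]
  ring

/-- Mixed components. -/
theorem eb2b_alg (K : Fin 3 → Fin 3 → ℝ) (n w u : Fin 3 → ℝ) (hK : ∀ a, ∑ b, K a b * n b = 0) (hu : ∑ a, n a * u a = 0)
    (j : Fin 3) : ∑ a, ∑ b, ((if a = b then 1 else 0) + K a b) * (u a * ((if b = j then 1 else 0) - (n b + w b) * n j)) =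
      u j + ∑ a, K a j * u a - n j * (∑ a, u a * w a + ∑ a, ∑ b, K a b * (u a * w b)) := by
  have h1 : ∀ a, ∑ b, ((if a = b then 1 else 0) + K a b) * (u a * ((if b = j then 1 else 0) - (n b + w b) * n j)) =
      (if a = j then u a else 0) + K a j * u a - n j * (n a * u a) - n j * (u a * w a) - n j * ∑ b, K a b * (u a * w b) := by
    intro a
    have h2 : ∑ b, ((if a = b then 1 else 0) + K a b) * (u a * ((if b = j then 1 else 0) - (n b + w b) * n j)) =
        u a * ∑ b, ((if a = b then 1 else 0) + K a b) * ((if b = j then 1 else 0) - (n b + w b) * n j) := by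
      rw [Finset.mul_sum]
      refine Finset.sum_congr rfl fun b _ => ?_
      ring
    have h3 : ∑ b, K a b * (u a * w b) = u a * ∑ b, K a b * w b := by
      rw [Finset.mul_sum]
      refine Finset.sum_congr rfl fun b _ => ?_
      ring
    rw [h2, eb2b_inner K n w hK a j, h3]
    split_ifs <;> ring
  rw [Finset.sum_congr rfl fun a _ => h1 a, Finset.sum_sub_distrib, Finset.sum_sub_distrib, Finset.sum_sub_distrib,
    Finset.sum_add_distrib, ← Finset.mul_sum, ← Finset.mul_sum, ← Finset.mul_sum, hu]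
  simp only [Finset.sum_ite_eq, Finset.sum_ite_eq', Finset.mem_univ, if_true]
  ring

theorem eb2b_H (H : E4 → Matrix (Fin 3) (Fin 3) ℝ) (p : E4) (a b : Fin 3) : H p a b = (if a = b then 1 else 0) + KK H a b p := by
  unfold KK
  ring

/-- The determinant: `det (1 + K) = 1 + tr K + ((tr K)² - tr K²)/2 + det K`, so `tr K = - ((tr K)² - tr K²)/2 - det K` near the events of the slice (`H_det`). -/
theorem tr_sm (hS : SpaceTime R₀ D F k r H U W) (hA : Asy D F k r H U W f) : Sm f 2 fun p => ∑ i, KK H i i p := by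
  have h2 : ∀ i j a b : Fin 3, Sm f 2 fun p => KK H i j p * KK H a b p := fun i j a b => (hA.H_sm i j).mul (hA.H_sm a b)
  have h3 : ∀ i j a b c d : Fin 3, Sm f 2 fun p => KK H i j p * KK H a b p * KK H c d p := fun i j a b c d =>
    ((h2 i j a b).mul (hA.H_sm c d)).mono (by norm_num)
  have hq : Sm f 2 fun p => KK H 0 0 p * KK H 1 1 p + KK H 0 0 p * KK H 2 2 p + KK H 1 1 p * KK H 2 2 p -
      KK H 1 2 p * KK H 2 1 p - KK H 0 1 p * KK H 1 0 p - KK H 0 2 p * KK H 2 0 p :=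
    ((((((h2 0 0 1 1).add (h2 0 0 2 2)).add (h2 1 1 2 2)).sub (h2 1 2 2 1)).sub (h2 0 1 1 0)).sub (h2 0 2 2 0))
  have hc : Sm f 2 fun p => KK H 0 0 p * KK H 1 1 p * KK H 2 2 p - KK H 0 0 p * KK H 1 2 p * KK H 2 1 p -
      KK H 0 1 p * KK H 1 0 p * KK H 2 2 p + KK H 0 1 p * KK H 1 2 p * KK H 2 0 p +
      KK H 0 2 p * KK H 1 0 p * KK H 2 1 p - KK H 0 2 p * KK H 1 1 p * KK H 2 0 p :=
    ((((((h3 0 0 1 1 2 2).sub (h3 0 0 1 2 2 1)).sub (h3 0 1 1 0 2 2)).add (h3 0 1 1 2 2 0)).add (h3 0 2 1 0 2 1)).sub (h3 0 2 1 1 2 0))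
  refine (hq.neg.sub hc).congr ?_
  filter_upwards [dom_ev hS hA] with x hx
  filter_upwards [hx] with p hp
  have h4 := hS.H_det p hp
  rw [Matrix.det_fin_three] at h4
  simp only [eb2b_H H p] at h4
  rw [Fin.sum_univ_three]
  simp only [if_true, if_neg (show ¬(0 : Fin 3) = 1 by decide), if_neg (show ¬(0 : Fin 3) = 2 by decide),
    if_neg (show ¬(1 : Fin 3) = 0 by decide), if_neg (show ¬(1 : Fin 3) = 2 by decide),
    if_neg (show ¬(2 : Fin 3) = 0 by decide), if_neg (show ¬(2 : Fin 3) = 1 by decide)] at h4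
  linarith

/-- `(r/ρ)² Σ H_ab U_a U_b`. -/
theorem cmp_00 (hA : Asy D F k r H U W f) : Sm f 2 fun p => metric F k r H U W p 0 0 - stMetric F k r p 0 0 := by
  have h1 : Sm f 2 fun p => (r (p 0, ‖pos p‖) / ‖pos p‖) ^ 2 * ∑ a, ∑ b, H p a b * (U p a * U p b) :=
    ((q_zero hA).mul (Sm.sum Finset.univ fun a _ => Sm.sum Finset.univ fun b _ =>
      (H_zero hA a b).mul ((hA.U_sm a).mul (hA.U_sm b)))).mono (by norm_num)
  have e : (fun p => metric F k r H U W p 0 0 - stMetric F k r p 0 0) =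
      fun p => (r (p 0, ‖pos p‖) / ‖pos p‖) ^ 2 * ∑ a, ∑ b, H p a b * (U p a * U p b) := by
    funext p
    have h2 : stMetric F k r p 0 0 = -F p := rfl
    rw [comp_00, h2]
    ring
  rw [e]
  exact h1

/-- The terms of second order in the mixed components. -/
theorem eb2b_sm (hA : Asy D F k r H U W f) (j : Fin 3) : Sm f 2 fun p =>
    -(((r (p 0, ‖pos p‖) / ‖pos p‖) ^ 2 - 1) * U p j) - (r (p 0, ‖pos p‖) / ‖pos p‖) ^ 2 * ∑ a, KK H a j p * U p a +
      (r (p 0, ‖pos p‖) / ‖pos p‖) ^ 2 * (un j p * (∑ a, U p a * W p a + ∑ a, ∑ b, KK H a b p * (U p a * W p b))) := by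
  have h1 : Sm f 2 fun p => ((r (p 0, ‖pos p‖) / ‖pos p‖) ^ 2 - 1) * U p j := (q_sm hA).mul (hA.U_sm j)
  have h2 : Sm f 2 fun p => (r (p 0, ‖pos p‖) / ‖pos p‖) ^ 2 * ∑ a, KK H a j p * U p a :=
    ((q_zero hA).mul (Sm.sum Finset.univ fun a _ => (hA.H_sm a j).mul (hA.U_sm a))).mono (by norm_num)
  have h3 : Sm f 2 fun p => ∑ a, U p a * W p a := (Sm.sum Finset.univ fun a _ => (hA.U_sm a).mul (hA.W_sm a)).mono (by norm_num)
  have h4 : Sm f 2 fun p => ∑ a, ∑ b, KK H a b p * (U p a * W p b) :=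
    (Sm.sum Finset.univ fun a _ => Sm.sum Finset.univ fun b _ => (hA.H_sm a b).mul ((hA.U_sm a).mul (hA.W_sm b))).mono (by norm_num)
  have h5 : Sm f 2 fun p => (r (p 0, ‖pos p‖) / ‖pos p‖) ^ 2 * (un j p * (∑ a, U p a * W p a + ∑ a, ∑ b, KK H a b p * (U p a * W p b))) :=
    ((q_zero hA).mul ((Sm.un f j).mul (h3.add h4))).mono (by norm_num)
  exact (h1.neg.sub h2).add h5

/-- `- q Σ H_ab U_a (δ_bj - (x_b/ρ + W_b) x_j/ρ) + U_j`: `H = 1 + K`, `Σ_a U_a (δ_aj - x_a x_j/ρ²) = U_j`; the other terms contain `(q-1) U`, `K U` or `U W`. -/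
theorem cmp_0j (hS : SpaceTime R₀ D F k r H U W) (hA : Asy D F k r H U W f) (j : Fin 3) :
    Sm f 2 fun p => metric F k r H U W p 0 j.succ - stMetric F k r p 0 j.succ + U p j := by
  refine (eb2b_sm hA j).congr ?_
  filter_upwards [rel_ev hS hA] with x hx
  filter_upwards [hx] with p hp
  obtain ⟨h1, -, h3, -, -⟩ := hp
  have h2 : stMetric F k r p 0 j.succ = 0 := rfl
  rw [comp_0j, h2]
  simp only [eb2b_H H p]
  rw [eb2b_alg (fun a b => KK H a b p) (fun a => un a p) (W p) (U p) h1 h3 j]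
  ring

theorem cmp_j0 (hS : SpaceTime R₀ D F k r H U W) (hA : Asy D F k r H U W f) (j : Fin 3) :
    Sm f 2 fun p => metric F k r H U W p j.succ 0 - stMetric F k r p j.succ 0 + U p j := by
  refine (eb2b_sm hA j).congr ?_
  filter_upwards [rel_ev hS hA] with x hx
  filter_upwards [hx] with p hp
  obtain ⟨h1, hs, h3, -, -⟩ := hp
  have h2 : stMetric F k r p j.succ 0 = 0 := rfl
  rw [comp_j0, h2]
  simp only [eb2b_H H p]
  have h4 : ∑ a, ∑ b, ((if a = b then 1 else 0) + KK H a b p) * (((if a = j then 1 else 0) - (un a p + W p a) * un j p) * U p b) =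
      ∑ a, ∑ b, ((if a = b then 1 else 0) + KK H a b p) * (U p a * ((if b = j then 1 else 0) - (un b p + W p b) * un j p)) := by
    rw [Finset.sum_comm]
    refine Finset.sum_congr rfl fun a _ => Finset.sum_congr rfl fun b _ => ?_
    rw [hs b a]
    by_cases hab : a = b
    · rw [if_pos hab, if_pos hab.symm]
      ring
    · rw [if_neg hab, if_neg fun h => hab h.symm]
      ring
  rw [h4, eb2b_alg (fun a b => KK H a b p) (fun a => un a p) (W p) (U p) h1 h3 j]
  ring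

end H74E
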