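import Pool.Agent.Lib.H74X.EB1
import Pool.Agent.Lib.H74X.EB2B

set_option autoImplicit false

/-!
# H74X, chunk EB2C (M): spatial components

Auxiliary names start with `eb2c_`. `stMetric F k r = metric F k r 1 0 0` (`H17T/Defs.lean`, `stMetric`: components `-F`, `0`, `F k² x_i x_j/ρ² + (r/ρ)² (δ_ij - x_i x_j/ρ²)`).
Write `q = (r/ρ)²`, `q - 1 ∈ Sm 1`, `K = H - 1 ∈ Sm 1`, `K x = 0`, `Σ x_a U_a = 0`, `Σ x_a W_a = 0` near the events of the slice (`dom_ev`, `H_rad`, `U_tan`, `W_tan`; use `Sm.congr`).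
-/

open MeasureTheory Filter Topology Set Asymptotics
open scoped ContDiff

namespace H74E

open H17T H17B

open H74X (metric va dra met_ip SpaceTime AsympFlatB dom_open)

open Pool.Agent.Lib.PenroseSph (E3 Tens S2 sm pd)

variable {R₀ β : ℝ} {D : Set (ℝ × ℝ)} {F : E4 → ℝ} {k : ℝ → ℝ} {r : ℝ × ℝ → ℝ} {H : E4 → Matrix (Fin 3) (Fin 3) ℝ}
  {U W : E4 → Fin 3 → ℝ} {f : E3 → ℝ}

/-- Spatial components. -/
theorem eb2c_alg (K : Fin 3 → Fin 3 → ℝ) (n w : Fin 3 → ℝ) (hK : ∀ a, ∑ b, K a b * n b = 0) (hs : ∀ a b, K a b = K b a)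
    (hw : ∑ a, n a * w a = 0) (hn : ∑ a, n a * n a = 1) (i j : Fin 3) :
    ∑ a, ∑ b, ((if a = b then 1 else 0) + K a b) *
        (((if a = i then 1 else 0) - (n a + w a) * n i) * ((if b = j then 1 else 0) - (n b + w b) * n j)) =
      (if i = j then 1 else 0) - n i * n j + K i j - w i * n j - w j * n i - n j * ∑ b, K i b * w b - n i * ∑ a, K a j * w a +
        n i * (n j * (∑ a, w a * w a + ∑ a, ∑ b, K a b * (w a * w b))) := by
  have h1 : ∀ a, ∑ b, ((if a = b then 1 else 0) + K a b) *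
        (((if a = i then 1 else 0) - (n a + w a) * n i) * ((if b = j then 1 else 0) - (n b + w b) * n j)) =
      ((if a = i then 1 else 0) - (n a + w a) * n i) * ((if a = j then 1 else 0) + K a j - n j * (n a + w a + ∑ b, K a b * w b)) := by
    intro a
    rw [← eb2b_inner K n w hK a j, Finset.mul_sum]
    refine Finset.sum_congr rfl fun b _ => ?_
    ring
  rw [Finset.sum_congr rfl fun a _ => h1 a]
  have h2 : ∀ a, ((if a = i then (1 : ℝ) else 0) - (n a + w a) * n i) * ((if a = j then 1 else 0) + K a j - n j * (n a + w a + ∑ b, K a b * w b)) =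
      (if a = i then ((if a = j then (1 : ℝ) else 0) + K a j - n j * (n a + w a + ∑ b, K a b * w b)) else 0) -
        (if a = j then (n a + w a) * n i else 0) - n i * (K a j * n a) - n i * (K a j * w a) +
        n i * n j * (n a * n a) + n i * n j * (n a * w a) + n i * n j * (n a * w a) + n i * n j * (w a * w a) +
        n i * n j * (∑ b, K a b * w b * n a) + n i * n j * (∑ b, K a b * (w a * w b)) := by
    intro a
    have e1 : ∑ b, K a b * w b * n a = (∑ b, K a b * w b) * n a := by rw [Finset.sum_mul]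
    have e2 : ∑ b, K a b * (w a * w b) = w a * ∑ b, K a b * w b := by
      rw [Finset.mul_sum]
      refine Finset.sum_congr rfl fun b _ => ?_
      ring
    rw [e1, e2]
    split_ifs <;> ring
  have h3 : ∑ a, K a j * n a = 0 := by
    rw [← hK j]
    refine Finset.sum_congr rfl fun a _ => ?_
    rw [hs a j]
  have h4 : ∑ a, ∑ b, K a b * w b * n a = 0 := by
    rw [Finset.sum_comm]
    refine Finset.sum_eq_zero fun b _ => ?_
    have e : ∀ a, K a b * w b * n a = w b * (K b a * n a) := by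
      intro a
      rw [hs a b]
      ring
    rw [Finset.sum_congr rfl fun a _ => e a, ← Finset.mul_sum, hK b, mul_zero]
  rw [Finset.sum_congr rfl fun a _ => h2 a]
  simp only [Finset.sum_add_distrib, Finset.sum_sub_distrib, ← Finset.mul_sum]
  rw [h3, h4, hw, hn]
  simp only [Finset.sum_ite_eq', Finset.mem_univ, if_true]
  ring

/-- With `A_ai = P_ai - W_a x_i/ρ`, `P_ai = δ_ai - x_a x_i/ρ²`: `Σ H_ab A_ai A_bj = Σ_a A_ai A_aj + Σ K_ab A_ai A_bj`, `Σ_a A_ai A_aj = P_ij - W_i x_j/ρ - W_j x_i/ρ + |W|² x_i x_j/ρ²`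
(`Σ_a P_ai W_a = W_i`), `Σ K_ab P_ai P_bj = K_ij` (`K x = 0`); the other terms contain `(q-1)` and `K` or `W`, or `K W`, or `W W`. -/
theorem cmp_ij (hS : SpaceTime R₀ D F k r H U W) (hA : Asy D F k r H U W f) (i j : Fin 3) :
    Sm f 2 fun p => metric F k r H U W p i.succ j.succ - stMetric F k r p i.succ j.succ -
      (KK H i j p - W p i * un j p - W p j * un i p) := by
  have h1 : Sm f 2 fun p => ((r (p 0, ‖pos p‖) / ‖pos p‖) ^ 2 - 1) * (KK H i j p - W p i * un j p - W p j * un i p) := by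
    have e1 : Sm f 1 fun p => W p i * un j p := ((hA.W_sm i).mul (Sm.un f j)).mono (by norm_num)
    have e2 : Sm f 1 fun p => W p j * un i p := ((hA.W_sm j).mul (Sm.un f i)).mono (by norm_num)
    exact (q_sm hA).mul (((hA.H_sm i j).sub e1).sub e2)
  have h2 : Sm f 2 fun p => ∑ b, KK H i b p * W p b := (Sm.sum Finset.univ fun b _ => (hA.H_sm i b).mul (hA.W_sm b)).mono (by norm_num)
  have h3 : Sm f 2 fun p => ∑ a, KK H a j p * W p a := (Sm.sum Finset.univ fun a _ => (hA.H_sm a j).mul (hA.W_sm a)).mono (by norm_num)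
  have h4 : Sm f 2 fun p => ∑ a, W p a * W p a := (Sm.sum Finset.univ fun a _ => (hA.W_sm a).mul (hA.W_sm a)).mono (by norm_num)
  have h5 : Sm f 2 fun p => ∑ a, ∑ b, KK H a b p * (W p a * W p b) :=
    (Sm.sum Finset.univ fun a _ => Sm.sum Finset.univ fun b _ => (hA.H_sm a b).mul ((hA.W_sm a).mul (hA.W_sm b))).mono (by norm_num)
  have h6 : Sm f 2 fun p => (r (p 0, ‖pos p‖) / ‖pos p‖) ^ 2 * (-(un j p * ∑ b, KK H i b p * W p b) - un i p * ∑ a, KK H a j p * W p a +
      un i p * (un j p * (∑ a, W p a * W p a + ∑ a, ∑ b, KK H a b p * (W p a * W p b)))) := by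
    have e1 : Sm f 2 fun p => un j p * ∑ b, KK H i b p * W p b := ((Sm.un f j).mul h2).mono (by norm_num)
    have e2 : Sm f 2 fun p => un i p * ∑ a, KK H a j p * W p a := ((Sm.un f i).mul h3).mono (by norm_num)
    have e3 : Sm f 2 fun p => un i p * (un j p * (∑ a, W p a * W p a + ∑ a, ∑ b, KK H a b p * (W p a * W p b))) :=
      ((Sm.un f i).mul ((Sm.un f j).mul (h4.add h5))).mono (by norm_num)
    exact ((q_zero hA).mul ((e1.neg.sub e2).add e3)).mono (by norm_num)
  refine (h1.add h6).congr ?_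
  filter_upwards [rel_ev hS hA] with x hx
  filter_upwards [hx] with p hp
  obtain ⟨k1, k2, -, k3, k4⟩ := hp
  have h7 : stMetric F k r p i.succ j.succ = F p * k ‖pos p‖ ^ 2 * (un i p * un j p) +
      (r (p 0, ‖pos p‖) / ‖pos p‖) ^ 2 * ((if i = j then 1 else 0) - un i p * un j p) := rfl
  rw [comp_ij, h7]
  simp only [eb2b_H H p]
  rw [eb2c_alg (fun a b => KK H a b p) (fun a => un a p) (W p) k1 k2 k3 k4 i j]
  ring

end H74E
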