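import Pool.Agent.Lib.H17V.F0
import Pool.Agent.Lib.H17W.EG2
import Pool.Agent.Lib.H74X.EB2

set_option autoImplicit false

/-!
# H74X, chunk EB3A (M): induced metric

Auxiliary names start with `eb3a_`. 
-/

open MeasureTheory Filter Topology Set Asymptotics
open scoped ContDiff

namespace H74E

open H17T H17B

open H74X (metric SpaceTime AsympFlatB)

open Pool.Agent.Lib.PenroseSph (E3 Tens S2 sm pd fluxDensity momDensity)

variable {R₀ β : ℝ} {D : Set (ℝ × ℝ)} {F : E4 → ℝ} {k : ℝ → ℝ} {r : ℝ × ℝ → ℝ} {H : E4 → Matrix (Fin 3) (Fin 3) ℝ}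
  {U W : E4 → Fin 3 → ℝ} {f : E3 → ℝ}

/-- The linear part of the difference of the induced metrics. -/
noncomputable def lin (H : E4 → Matrix (Fin 3) (Fin 3) ℝ) (W : E4 → Fin 3 → ℝ) (f : E3 → ℝ) : Tens := fun x =>
  Matrix.of fun i j => KK H i j (PP f x) - W (PP f x) i * (x j / ‖x‖) - W (PP f x) j * (x i / ‖x‖)

/-- `slice_split` (`H17W/EG2.lean`): `g_ij = G_ij + G_00 f_i f_j + G_0j f_i + G_i0 f_j` at `PP f x`; `cmp_00`, `cmp_0j`, `cmp_j0`, `cmp_ij`, `Sm.comp`, `f_i ∈ Om 1`: the terms `U_j f_i` are in `Om 2`. -/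
theorem slice_cmp (hS : SpaceTime R₀ D F k r H U W) (hA : Asy D F k r H U W f) (hf : ∀ i, Om 1 (pd i f)) (i j : Fin 3) :
    Om 2 fun x => slice (metric F k r H U W) f x i j - slice (stMetric F k r) f x i j - lin H W f x i j := by
  have hfd : ∀ᶠ x in LL, DifferentiableAt ℝ f x := by
    filter_upwards [hA.f_smooth] with x hx
    exact hx.differentiableAt (by simp)
  have h0 : Om 2 fun x => (fun p => metric F k r H U W p 0 0 - stMetric F k r p 0 0) (PP f x) * (pd i f x * pd j f x) :=
    (((cmp_00 hA).comp hfd hA.f_one).mul ((hf i).mul (hf j))).mono (by norm_num)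
  have h1 : Om 2 fun x => (fun p => metric F k r H U W p 0 j.succ - stMetric F k r p 0 j.succ + U p j) (PP f x) * pd i f x :=
    (((cmp_0j hS hA j).comp hfd hA.f_one).mul (hf i)).mono (by norm_num)
  have h2 : Om 2 fun x => (fun p => metric F k r H U W p i.succ 0 - stMetric F k r p i.succ 0 + U p i) (PP f x) * pd j f x :=
    (((cmp_j0 hS hA i).comp hfd hA.f_one).mul (hf j)).mono (by norm_num)
  have h3 : Om 2 fun x => (fun p => U p j) (PP f x) * pd i f x := ((hA.U_sm j).comp hfd hA.f_one).mul (hf i)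
  have h4 : Om 2 fun x => (fun p => U p i) (PP f x) * pd j f x := ((hA.U_sm i).comp hfd hA.f_one).mul (hf j)
  have h5 := (cmp_ij hS hA i j).comp hfd hA.f_one
  have e : (fun x => slice (metric F k r H U W) f x i j - slice (stMetric F k r) f x i j - lin H W f x i j) = fun x =>
      ((fun p => metric F k r H U W p i.succ j.succ - stMetric F k r p i.succ j.succ -
      (KK H i j p - W p i * un j p - W p j * un i p)) (PP f x) +
      (fun p => metric F k r H U W p 0 0 - stMetric F k r p 0 0) (PP f x) * (pd i f x * pd j f x)) +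
      (fun p => metric F k r H U W p 0 j.succ - stMetric F k r p 0 j.succ + U p j) (PP f x) * pd i f x +
      (fun p => metric F k r H U W p i.succ 0 - stMetric F k r p i.succ 0 + U p i) (PP f x) * pd j f x -
      (fun p => U p j) (PP f x) * pd i f x - (fun p => U p i) (PP f x) * pd j f x := by
    funext x
    have e1 : un i (PP f x) = x i / ‖x‖ := by
      unfold un
      rw [b3b_pp]
    have e2 : un j (PP f x) = x j / ‖x‖ := by
      unfold un
      rw [b3b_pp]
    have e3 : lin H W f x i j = KK H i j (PP f x) - W (PP f x) i * (x j / ‖x‖) - W (PP f x) j * (x i / ‖x‖) := rfl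
    rw [H17G.slice_split, H17G.slice_split, e3]
    simp only [e1, e2]
    ring
  rw [e]
  exact ((((h5.add h0).add h1).add h2).sub h3).sub h4

end H74E
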