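import Pool.Agent.Lib.H17V.F0
import Pool.Agent.Lib.H17W.EG2
import Pool.Agent.Lib.H74X.EB2
import Pool.Agent.Lib.H74X.EB3A

set_option autoImplicit false

/-!
# H74X, chunk EB3B (S): additivity of the flux density

Auxiliary names start with `eb3b_`. 
-/

open MeasureTheory Filter Topology Set Asymptotics
open scoped ContDiff

namespace H74E

open H17T H17B

open H74X (metric SpaceTime AsympFlatB)

open Pool.Agent.Lib.PenroseSph (E3 Tens S2 sm pd fluxDensity momDensity)

variable {R₀ β : ℝ} {D : Set (ℝ × ℝ)} {F : E4 → ℝ} {k : ℝ → ℝ} {r : ℝ × ℝ → ℝ} {H : E4 → Matrix (Fin 3) (Fin 3) ℝ}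
  {U W : E4 → Fin 3 → ℝ} {f : E3 → ℝ}

/-- Additivity of the flux density. -/
theorem flux_add {g g' : Tens} {x : E3} (h : ∀ i j, DifferentiableAt ℝ (fun y => g y i j) x)
    (h' : ∀ i j, DifferentiableAt ℝ (fun y => g' y i j) x) :
    fluxDensity (fun y => g y + g' y) x = fluxDensity g x + fluxDensity g' x := by
  have h1 : ∀ l i j, pd l (fun y => (g y + g' y) i j) x = pd l (fun y => g y i j) x + pd l (fun y => g' y i j) x := by
    intro l i j
    have e : (fun y => (g y + g' y) i j) = fun y => g y i j + g' y i j := rfl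
    rw [e]
    unfold pd
    rw [fderiv_fun_add (h i j) (h' i j)]
    rfl
  unfold fluxDensity
  simp only [h1]
  rw [← Finset.sum_add_distrib]
  refine Finset.sum_congr rfl fun i _ => ?_
  rw [← Finset.sum_add_distrib]
  refine Finset.sum_congr rfl fun j _ => ?_
  ring

theorem flux_om {q : Tens} (h : ∀ i j, Om 2 fun x => q x i j) : (fun x => fluxDensity q x) =O[LL] fun x => (‖x‖ ^ 3)⁻¹ := by
  unfold fluxDensity
  refine IsBigO.fun_sum fun i _ => IsBigO.fun_sum fun j _ => ?_
  have h1 := (((h i j).der j).sub ((h j j).der i)).mul (Om.un i).val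
  refine h1.congr_right fun x => ?_
  simp

end H74E
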