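import Pool.Agent.Lib.H17V.F0
import Pool.Agent.Lib.H17W.EG2
import Pool.Agent.Lib.H74X.EB2
import Pool.Agent.Lib.H74X.EB3B

set_option autoImplicit false

/-!
# H74X, chunk EB3C (M): flux density of the linear part

Auxiliary names start with `eb3c_`. 
-/

open MeasureTheory Filter Topology Set Asymptotics
open scoped ContDiff

namespace H74E

open H17T H17B

open H74X (metric SpaceTime AsympFlatB)

open Pool.Agent.Lib.PenroseSph (E3 Tens S2 sm pd fluxDensity momDensity)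

variable {R₀ β : ℝ} {D : Set (ℝ × ℝ)} {F : E4 → ℝ} {k : ℝ → ℝ} {r : ℝ × ℝ → ℝ} {H : E4 → Matrix (Fin 3) (Fin 3) ℝ}
  {U W : E4 → Fin 3 → ℝ} {f : E3 → ℝ}

/-- The algebra. -/
theorem eb3c_alg (ρ' : ℝ) (n v : Fin 3 → ℝ) (w K : Fin 3 → Fin 3 → ℝ) (a : Fin 3 → Fin 3 → Fin 3 → ℝ)
    (hn : ∑ i, n i * n i = 1) (hW : ∑ i, n i * v i = 0) (hE : ∀ j, ∑ i, a i j j * n i = -(K j j * ρ'))
    (hG : ∀ l, ∑ i, w i l * n i = -(v l * ρ')) :
    ∑ i, ∑ j, ((a i j j - (w i j * n j + v i * ((1 - n j * n j) * ρ')) -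
        (w j j * n i + v j * (((if i = j then 1 else 0) - n i * n j) * ρ'))) -
      (a j j i - (w j i * n j + v j * (((if j = i then 1 else 0) - n j * n i) * ρ')) -
        (w j i * n j + v j * (((if j = i then 1 else 0) - n j * n i) * ρ')))) * n i =
      -(∑ i, K i i) * ρ' - ∑ i, n i * ∑ j, a j j i - ∑ j, w j j := by
  have e0 := hE 0
  have e1 := hE 1
  have e2 := hE 2
  have g0 := hG 0
  have g1 := hG 1
  have g2 := hG 2
  simp only [Fin.sum_univ_three] at hn hW e0 e1 e2 g0 g1 g2 ⊢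
  simp only [if_true, if_neg (show ¬(0 : Fin 3) = 1 by decide), if_neg (show ¬(0 : Fin 3) = 2 by decide),
    if_neg (show ¬(1 : Fin 3) = 0 by decide), if_neg (show ¬(1 : Fin 3) = 2 by decide),
    if_neg (show ¬(2 : Fin 3) = 0 by decide), if_neg (show ¬(2 : Fin 3) = 1 by decide)]
  linear_combination e0 + e1 + e2 + n 0 * g0 + n 1 * g1 + n 2 * g2 - 3 * ρ' * hW - (w 0 0 + w 1 1 + w 2 2) * hn

theorem eb3c_mul {φ ψ : E3 → ℝ} {x : E3} (h : DifferentiableAt ℝ φ x) (h' : DifferentiableAt ℝ ψ x) (l : Fin 3) :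
    pd l (fun y => φ y * ψ y) x = pd l φ x * ψ x + φ x * pd l ψ x := by
  unfold pd
  rw [fderiv_fun_mul h h']
  simp only [add_apply, smul_apply, smul_eq_mul]
  ring

theorem eb3c_sub {φ ψ : E3 → ℝ} {x : E3} (h : DifferentiableAt ℝ φ x) (h' : DifferentiableAt ℝ ψ x) (l : Fin 3) :
    pd l (fun y => φ y - ψ y) x = pd l φ x - pd l ψ x := by
  unfold pd
  rw [fderiv_fun_sub h h']
  rfl

theorem eb3c_sum {φ : Fin 3 → E3 → ℝ} {x : E3} (h : ∀ i, DifferentiableAt ℝ (φ i) x) (l : Fin 3) :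
    pd l (fun y => ∑ i, φ i y) x = ∑ i, pd l (φ i) x := by
  unfold pd
  rw [fderiv_fun_sum fun i _ => h i]
  simp only [sum_apply]

theorem eb3c_zero {φ : E3 → ℝ} {x : E3} (h : ∀ᶠ y in 𝓝 x, φ y = 0) (l : Fin 3) : pd l φ x = 0 := by
  have h1 : φ =ᶠ[𝓝 x] fun _ => (0 : ℝ) := h
  unfold pd
  rw [h1.fderiv_eq]
  simp

/-- The flux density of the linear part. With `K_ij(x)`, `W_i(x)` the restrictions to the slice, `n = x/|x|`, `m_ij = W_i n_j + W_j n_i`: `Σ_j K_ij n_j = 0`, `W·n = 0` for all `x` of large norm, so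
`Σ_ij ∂_j K_ij n_i = - Σ_ij K_ij ∂_j n_i = - tr K/ρ` (`pd_un`), `Σ_ij ∂_i K_jj n_i = ∂_n tr K`, `Σ_ij ∂_j m_ij n_i = ∂_j (Σ_i m_ij n_i) - Σ m_ij ∂_j n_i = Σ_j ∂_j W_j - (tr m - m(n,n))/ρ = Σ_j ∂_j W_j`,
`tr m = 0`. Hence `fluxDensity lin = - tr K/ρ - ∂_n tr K - Σ_j ∂_j W_j`, with `tr K ∈ Om 2` (`tr_sm`) and `Σ_j ∂_j W_j = (div W)(PP) + Σ_j ∂_T W_j f_j = Σ_j ∂_T W_j f_j = O(ρ⁻³)` (`pd_PP`, `div_ev`). -/
theorem flux_lin (hS : SpaceTime R₀ D F k r H U W) (hA : Asy D F k r H U W f) (hf : ∀ i, Om 1 (pd i f)) :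
    (fun x => fluxDensity (lin H W f) x) =O[LL] fun x => (‖x‖ ^ 3)⁻¹ := by
  have hfd : ∀ᶠ x in LL, DifferentiableAt ℝ f x := by
    filter_upwards [hA.f_smooth] with x hx
    exact hx.differentiableAt (by simp)
  have hK : ∀ i j, Om 1 fun x => KK H i j (PP f x) := fun i j => (hA.H_sm i j).comp hfd hA.f_one
  have hW : ∀ i, Om 1 fun x => W (PP f x) i := fun i => (hA.W_sm i).comp hfd hA.f_one
  have htr : Om 2 fun x => ∑ i, KK H i i (PP f x) := (tr_sm hS hA).comp hfd hA.f_one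
  have hrel : ∀ᶠ x in LL, (∀ i, ∑ j, KK H i j (PP f x) * (x j / ‖x‖) = 0) ∧ (∀ i j, KK H i j (PP f x) = KK H j i (PP f x)) ∧
      (∑ j, x j / ‖x‖ * W (PP f x) j) = 0 ∧ (∑ j : Fin 3, x j / ‖x‖ * (x j / ‖x‖)) = 1 := by
    filter_upwards [rel_ev hS hA] with x hx
    obtain ⟨h1, h2, -, h3, h4⟩ := hx.self_of_nhds
    have e : ∀ j, un j (PP f x) = x j / ‖x‖ := fun j => by
      unfold un
      rw [b3b_pp]
    simp only [e] at h1 h3 h4
    exact ⟨h1, h2, h3, h4⟩
  have key : ∀ᶠ x in LL, fluxDensity (lin H W f) x = -(∑ i, KK H i i (PP f x)) * ‖x‖⁻¹ -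
      ∑ i, x i / ‖x‖ * pd i (fun y => ∑ j, KK H j j (PP f y)) x -
      ∑ j : Fin 3, (H31R.pd 0 (fun q => W q j) (PP f x) * pd j f x) := by
    have hKd : ∀ᶠ x in LL, ∀ i j, DifferentiableAt ℝ (fun y => KK H i j (PP f y)) x := by
      rw [eventually_all]
      intro i
      rw [eventually_all]
      exact fun j => (hK i j).diff
    have hWd : ∀ᶠ x in LL, ∀ i, DifferentiableAt ℝ (fun y => W (PP f y) i) x := by
      rw [eventually_all]
      exact fun i => (hW i).diff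
    have hnd : ∀ᶠ x in LL, ∀ i, DifferentiableAt ℝ (fun y : E3 => y i / ‖y‖) x := by
      rw [eventually_all]
      exact fun i => (Om.un i).diff
    have hWs : ∀ᶠ x in LL, ∀ i, DifferentiableAt ℝ (fun q => W q i) (PP f x) := by
      rw [eventually_all]
      exact fun i => (hA.W_sm i).diff
    filter_upwards [ev_near hrel, hKd, hWd, hnd, hfd, hWs, div_ev hS hA,
      tendsto_norm_cobounded_atTop.eventually_gt_atTop (0 : ℝ)] with x hx hKd hWd hnd hfd hWs hdiv hx0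
    obtain ⟨r1, r2, r3, r4⟩ := hx.self_of_nhds
    have hxne : x ≠ 0 := norm_pos_iff.1 hx0
    have hpn : ∀ i l, pd l (fun y : E3 => y i / ‖y‖) x = ((if i = l then 1 else 0) - x i / ‖x‖ * (x l / ‖x‖)) * ‖x‖⁻¹ := by
      intro i l
      rw [pd_un hxne, div_eq_mul_inv]
    -- the derivative of the first relation
    have hE : ∀ j, ∑ i, pd j (fun y => KK H i j (PP f y)) x * (x i / ‖x‖) = -(KK H j j (PP f x) * ‖x‖⁻¹) := by
      intro j
      have h1 : pd j (fun y => ∑ i, KK H i j (PP f y) * (y i / ‖y‖)) x = 0 := by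
        refine eb3c_zero ?_ j
        filter_upwards [hx] with y hy
        obtain ⟨k1, k2, -, -⟩ := hy
        rw [← k1 j]
        refine Finset.sum_congr rfl fun i _ => ?_
        rw [k2 i j]
      rw [eb3c_sum fun i => (hKd i j).fun_mul (hnd i)] at h1
      simp only [eb3c_mul (hKd _ j) (hnd _), hpn] at h1
      rw [Finset.sum_add_distrib] at h1
      have h2 : ∑ i, KK H i j (PP f x) * (((if i = j then 1 else 0) - x i / ‖x‖ * (x j / ‖x‖)) * ‖x‖⁻¹) =
          KK H j j (PP f x) * ‖x‖⁻¹ := by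
        have e : ∀ i, KK H i j (PP f x) * (((if i = j then 1 else 0) - x i / ‖x‖ * (x j / ‖x‖)) * ‖x‖⁻¹) =
            (if i = j then KK H i j (PP f x) * ‖x‖⁻¹ else 0) - (x j / ‖x‖ * ‖x‖⁻¹) * (KK H j i (PP f x) * (x i / ‖x‖)) := by
          intro i
          rw [r2 j i]
          split_ifs <;> ring
        rw [Finset.sum_congr rfl fun i _ => e i, Finset.sum_sub_distrib, ← Finset.mul_sum, r1 j]
        simp
      rw [h2] at h1
      linarith
    -- the derivative of the second relation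
    have hG : ∀ l, ∑ i, pd l (fun y => W (PP f y) i) x * (x i / ‖x‖) = -(W (PP f x) l * ‖x‖⁻¹) := by
      intro l
      have h1 : pd l (fun y => ∑ i, W (PP f y) i * (y i / ‖y‖)) x = 0 := by
        refine eb3c_zero ?_ l
        filter_upwards [hx] with y hy
        obtain ⟨-, -, k1, -⟩ := hy
        rw [← k1]
        refine Finset.sum_congr rfl fun i _ => ?_
        ring
      rw [eb3c_sum fun i => (hWd i).fun_mul (hnd i)] at h1
      simp only [eb3c_mul (hWd _) (hnd _), hpn] at h1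
      rw [Finset.sum_add_distrib] at h1
      have h2 : ∑ i, W (PP f x) i * (((if i = l then 1 else 0) - x i / ‖x‖ * (x l / ‖x‖)) * ‖x‖⁻¹) =
          W (PP f x) l * ‖x‖⁻¹ := by
        have e : ∀ i, W (PP f x) i * (((if i = l then 1 else 0) - x i / ‖x‖ * (x l / ‖x‖)) * ‖x‖⁻¹) =
            (if i = l then W (PP f x) i * ‖x‖⁻¹ else 0) - (x l / ‖x‖ * ‖x‖⁻¹) * (x i / ‖x‖ * W (PP f x) i) := by
          intro i
          split_ifs <;> ring
        rw [Finset.sum_congr rfl fun i _ => e i, Finset.sum_sub_distrib, ← Finset.mul_sum, r3]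
        simp
      rw [h2] at h1
      linarith
    have halg := eb3c_alg ‖x‖⁻¹ (fun i => x i / ‖x‖) (fun i => W (PP f x) i) (fun i l => pd l (fun y => W (PP f y) i) x)
      (fun i j => KK H i j (PP f x)) (fun i j l => pd l (fun y => KK H i j (PP f y)) x) r4 r3 hE hG
    have hlin : ∀ i j l, pd l (fun y => lin H W f y i j) x = pd l (fun y => KK H i j (PP f y)) x -
        (pd l (fun y => W (PP f y) i) x * (x j / ‖x‖) + W (PP f x) i * (((if j = l then 1 else 0) - x j / ‖x‖ * (x l / ‖x‖)) * ‖x‖⁻¹)) -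
        (pd l (fun y => W (PP f y) j) x * (x i / ‖x‖) + W (PP f x) j * (((if i = l then 1 else 0) - x i / ‖x‖ * (x l / ‖x‖)) * ‖x‖⁻¹)) := by
      intro i j l
      have e : (fun y => lin H W f y i j) = fun y => KK H i j (PP f y) - W (PP f y) i * (y j / ‖y‖) - W (PP f y) j * (y i / ‖y‖) := rfl
      rw [e, eb3c_sub ((hKd i j).fun_sub ((hWd i).fun_mul (hnd j))) ((hWd j).fun_mul (hnd i)),
        eb3c_sub (hKd i j) ((hWd i).fun_mul (hnd j)), eb3c_mul (hWd i) (hnd j), eb3c_mul (hWd j) (hnd i), hpn, hpn]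
    have hflux : fluxDensity (lin H W f) x = -(∑ i, KK H i i (PP f x)) * ‖x‖⁻¹ -
        ∑ i, x i / ‖x‖ * ∑ j, pd i (fun y => KK H j j (PP f y)) x - ∑ j, pd j (fun y => W (PP f y) j) x := by
      rw [← halg]
      unfold fluxDensity
      refine Finset.sum_congr rfl fun i _ => Finset.sum_congr rfl fun j _ => ?_
      rw [hlin, hlin]
      rw [if_pos (rfl : j = j)]
    have hWj : ∑ j, pd j (fun y => W (PP f y) j) x = ∑ j : Fin 3, (H31R.pd 0 (fun q => W q j) (PP f x) * pd j f x) := by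
      have e : ∀ j, pd j (fun y => W (PP f y) j) x = H31R.pd j.succ (fun q => W q j) (PP f x) +
          H31R.pd 0 (fun q => W q j) (PP f x) * pd j f x := fun j => (pd_PP hfd (hWs j) j).2
      rw [Finset.sum_congr rfl fun j _ => e j, Finset.sum_add_distrib, hdiv.2, zero_add]
    rw [hflux, hWj]
    simp only [eb3c_sum fun j => hKd j j]
  have b1 : (fun x => -(∑ i, KK H i i (PP f x)) * ‖x‖⁻¹) =O[LL] fun x => (‖x‖ ^ 3)⁻¹ := by
    have h1 := htr.val.neg_left.mul (isBigO_refl (fun x : E3 => ‖x‖⁻¹) LL)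
    refine h1.congr_right fun x => ?_
    rw [← mul_inv, ← pow_succ]
  have b2 : (fun x => ∑ i, x i / ‖x‖ * pd i (fun y => ∑ j, KK H j j (PP f y)) x) =O[LL] fun x => (‖x‖ ^ 3)⁻¹ := by
    refine IsBigO.fun_sum fun i _ => ?_
    refine ((Om.un i).val.mul (htr.der i)).congr_right fun x => ?_
    simp
  have b3 : (fun x => ∑ j : Fin 3, (H31R.pd 0 (fun q => W q j) (PP f x) * pd j f x)) =O[LL] fun x => (‖x‖ ^ 3)⁻¹ := by
    refine IsBigO.fun_sum fun j _ => ?_
    refine (((hA.W_sm j).der 0).mul (hf j).val).congr_right fun x => ?_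
    rw [← mul_inv, ← pow_add]
  refine IsBigO.congr' ((b1.sub b2).sub b3) ?_ EventuallyEq.rfl
  filter_upwards [key] with x hx
  exact hx.symm

end H74E
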