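import Pool.Agent.Lib.H17V.F0
import Pool.Agent.Lib.H17W.EG2
import Pool.Agent.Lib.H74X.EB2
import Pool.Agent.Lib.H74X.EB3C

set_option autoImplicit false

/-!
# H74X, chunk EB3D (S/M): comparison of flux densities

Auxiliary names start with `eb3d_`. 
-/

open MeasureTheory Filter Topology Set Asymptotics
open scoped ContDiff

namespace H74E

open H17T H17B

open H74X (metric SpaceTime AsympFlatB)

open Pool.Agent.Lib.PenroseSph (E3 Tens S2 sm pd fluxDensity momDensity)

variable {R₀ β : ℝ} {D : Set (ℝ × ℝ)} {F : E4 → ℝ} {k : ℝ → ℝ} {r : ℝ × ℝ → ℝ} {H : E4 → Matrix (Fin 3) (Fin 3) ℝ}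
  {U W : E4 → Fin 3 → ℝ} {f : E3 → ℝ}

/-- The flux densities of the two induced metrics (`flux_add` twice; the components of `slice (stMetric F k r) f` are differentiable at points of large norm). -/
theorem flux_cmp (hS : H74X.Slice R₀ D F k r H U W f) (hA : Asy D F k r H U W f) (hf : ∀ i, Om 1 (pd i f)) :
    (fun x => fluxDensity (slice (metric F k r H U W) f) x - fluxDensity (slice (stMetric F k r) f) x) =O[LL]
      fun x => (‖x‖ ^ 3)⁻¹ := by
  have hfd : ∀ᶠ x in LL, DifferentiableAt ℝ f x := by
    filter_upwards [hA.f_smooth] with x hx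
    exact hx.differentiableAt (by simp)
  set q : Tens := fun y => Matrix.of fun i j =>
    slice (metric F k r H U W) f y i j - slice (stMetric F k r) f y i j - lin H W f y i j with hq
  have hqo : ∀ i j, Om 2 fun x => q x i j := fun i j => slice_cmp hS.st hA hf i j
  have hK : ∀ i j, Om 1 fun x => KK H i j (PP f x) := fun i j => (hA.H_sm i j).comp hfd hA.f_one
  have hW : ∀ i, Om 1 fun x => W (PP f x) i := fun i => (hA.W_sm i).comp hfd hA.f_one
  have hlin : ∀ᶠ x in LL, ∀ i j, DifferentiableAt ℝ (fun y => lin H W f y i j) x := by
    rw [eventually_all]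
    intro i
    rw [eventually_all]
    intro j
    filter_upwards [(hK i j).diff, (hW i).diff, (hW j).diff, (Om.un i).diff, (Om.un j).diff] with x h1 h2 h3 h4 h5
    have e : (fun y => lin H W f y i j) = fun y => KK H i j (PP f y) - W (PP f y) i * (y j / ‖y‖) - W (PP f y) j * (y i / ‖y‖) := rfl
    rw [e]
    exact (h1.fun_sub (h2.fun_mul h5)).fun_sub (h3.fun_mul h4)
  have hqd : ∀ᶠ x in LL, ∀ i j, DifferentiableAt ℝ (fun y => q y i j) x := by
    rw [eventually_all]
    intro i
    rw [eventually_all]
    intro j
    exact (hqo i j).diff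
  have hgd : ∀ᶠ x in LL, ∀ i j, DifferentiableAt ℝ (fun y => slice (metric F k r H U W) f y i j) x := by
    rw [eventually_all]
    intro i
    rw [eventually_all]
    intro j
    filter_upwards [hA.dom, hfd, (hf i).diff, (hf j).diff] with x hx hfx hfi hfj
    have hm : ∀ a b, DifferentiableAt ℝ (fun y => metric F k r H U W (PP f y) a b) x := fun a b =>
      (pd_PP (φ := fun p => metric F k r H U W p a b) hfx ((H74X.met_smooth hS.st hx a b).differentiableAt (by simp)) 0).1
    have e : (fun y => slice (metric F k r H U W) f y i j) = fun y =>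
        (metric F k r H U W (PP f y) i.succ j.succ + metric F k r H U W (PP f y) 0 0 * (pd i f y * pd j f y)) +
          (metric F k r H U W (PP f y) 0 j.succ * pd i f y + metric F k r H U W (PP f y) i.succ 0 * pd j f y) := by
      funext y
      exact H17G.slice_split _ f y i j
    rw [e]
    exact ((hm _ _).fun_add ((hm _ _).fun_mul (hfi.fun_mul hfj))).fun_add (((hm _ _).fun_mul hfi).fun_add ((hm _ _).fun_mul hfj))
  have key : ∀ᶠ x in LL, fluxDensity (slice (metric F k r H U W) f) x - fluxDensity (slice (stMetric F k r) f) x =
      fluxDensity (lin H W f) x + fluxDensity q x := by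
    filter_upwards [hlin, hqd, hgd] with x hl hq' hg
    have hst : ∀ i j, DifferentiableAt ℝ (fun y => slice (stMetric F k r) f y i j) x := by
      intro i j
      have e : (fun y => slice (stMetric F k r) f y i j) = fun y => slice (metric F k r H U W) f y i j - lin H W f y i j - q y i j := by
        funext y
        rw [hq]
        simp only [Matrix.of_apply]
        ring
      rw [e]
      exact ((hg i j).fun_sub (hl i j)).fun_sub (hq' i j)
    have e1 : slice (metric F k r H U W) f = fun y => slice (stMetric F k r) f y + (lin H W f y + q y) := by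
      funext y
      ext i j
      rw [Matrix.add_apply, Matrix.add_apply, hq]
      simp only [Matrix.of_apply]
      ring
    have e2 : fluxDensity (slice (metric F k r H U W) f) x =
        fluxDensity (slice (stMetric F k r) f) x + fluxDensity (fun y => lin H W f y + q y) x := by
      conv_lhs => rw [e1]
      exact flux_add hst fun i j => (hl i j).fun_add (hq' i j)
    rw [e2, flux_add hl hq']
    ring
  refine IsBigO.congr' ((flux_lin hS.st hA hf).add (flux_om hqo)) ?_ EventuallyEq.rfl
  filter_upwards [key] with x hx
  exact hx.symm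

end H74E
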