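import Pool.Agent.Lib.H17V.T0

set_option autoImplicit false

/-!
# H74X, module K: kinematic conditions

The conditions on `F`, `k`, `r`, `f` which are used for the expansions at infinity (no metric, no energy condition).
-/

open MeasureTheory Filter Topology Set
open scoped ContDiff

namespace H74K

open H17T (E4 pt pos qq)
open H17V (Near)
open Pool.Agent.Lib.PenroseSph (E3 Tens S2 sm pd)

/-- Smoothness, positivity and the slope condition. -/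
structure Kin (R₀ : ℝ) (F : E4 → ℝ) (k : ℝ → ℝ) (r : ℝ × ℝ → ℝ) (f : E3 → ℝ) : Prop where
  nonneg : 0 ≤ R₀
  F_smooth : ∀ p ∈ Near R₀ f, ContDiffAt ℝ ∞ F p
  F_pos : ∀ p ∈ Near R₀ f, 0 < F p
  k_smooth : ∀ t : ℝ, R₀ < t → ContDiffAt ℝ ∞ k t
  k_pos : ∀ t : ℝ, R₀ < t → 0 < k t
  r_smooth : ∀ p ∈ Near R₀ f, ContDiffAt ℝ ∞ r (p 0, ‖pos p‖)
  r_pos : ∀ p ∈ Near R₀ f, 0 < r (p 0, ‖pos p‖)
  f_smooth : ∀ x : E3, R₀ < ‖x‖ → ContDiffAt ℝ ∞ f x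
  slope : ∀ x : E3, R₀ < ‖x‖ → |fderiv ℝ f x x| < k ‖x‖ * ‖x‖

open H17T H17V in
theorem slice_r {R₀ : ℝ} {F : E4 → ℝ} {k : ℝ → ℝ} {r : ℝ × ℝ → ℝ} {f : E3 → ℝ} (hS : Kin R₀ F k r f) {q : ℝ × ℝ}
    (hq : q ∈ QQ R₀ f) : ContDiffAt ℝ ∞ r q ∧ 0 < r q := by
  obtain ⟨y, hy, rfl⟩ := hq
  have h1 := mem_near (f := f) hy
  have h2 := hS.r_smooth _ h1
  have h3 := hS.r_pos _ h1
  rw [pos_pt, pt_zero] at h2 h3
  exact ⟨h2, h3⟩

end H74K
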