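import Pool.Agent.Lib.H17T.FB
import Pool.Agent.Lib.H17V.FB
import Pool.Agent.Lib.H17V.T0
import Pool.Agent.Lib.H74X.Kin

set_option autoImplicit false

/-!
# H74X, module K: port of `H17V/FB.lean` to the kinematic conditions `Kin`
-/

open MeasureTheory Filter Topology Set
open scoped ContDiff

namespace H74K

open H17V hiding Slice

open H17T

open Pool.Agent.Lib.PenroseSph (E3 Tens S2 sm pd)

theorem fb_φ {R₀ : ℝ} {F : E4 → ℝ} {k : ℝ → ℝ} {r : ℝ × ℝ → ℝ} {f : E3 → ℝ} (hS : Kin R₀ F k r f) {p : E4}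
    (hp : p ∈ Near R₀ f) :
    ContDiffAt ℝ ∞ (fun p : E4 => r (p 0, ‖pos p‖) / ‖pos p‖) p ∧ ContDiffAt ℝ ∞ (fun p : E4 => k ‖pos p‖) p := by
  have hp1 : pos p ≠ 0 := norm_pos_iff.1 (lt_of_le_of_lt hS.nonneg hp.1)
  have hpos : ContDiffAt ℝ ∞ pos p := pos_smooth.contDiffAt
  have hnorm : ContDiffAt ℝ ∞ (fun p : E4 => ‖pos p‖) p := hpos.norm ℝ hp1
  have hn : ‖pos p‖ ≠ 0 := norm_ne_zero_iff.mpr hp1
  have hp0 : ContDiffAt ℝ ∞ (fun p : E4 => p 0) p := by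
    have : ContDiffAt ℝ ∞ (fun p : E4 => (EuclideanSpace.proj (0 : Fin 4) : E4 →L[ℝ] ℝ) p) p :=
      (EuclideanSpace.proj (0 : Fin 4) : E4 →L[ℝ] ℝ).contDiff.contDiffAt
    exact this
  have hk' : ContDiffAt ℝ ∞ (fun p : E4 => k ‖pos p‖) p :=
    ContDiffAt.comp p (g := k) (hS.k_smooth _ hp.1) hnorm
  have hr' : ContDiffAt ℝ ∞ (fun p : E4 => r (p 0, ‖pos p‖)) p := by
    have h1 : ContDiffAt ℝ ∞ (fun p : E4 => (p 0, ‖pos p‖)) p := hp0.prodMk hnorm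
    exact ContDiffAt.comp p (g := r) (hS.r_smooth p hp) h1
  exact ⟨hr'.div hnorm hn, hk'⟩

/-- The derivatives of r. -/
theorem fb_r {R₀ : ℝ} {F : E4 → ℝ} {k : ℝ → ℝ} {r : ℝ × ℝ → ℝ} {f : E3 → ℝ} (hS : Kin R₀ F k r f) {q : ℝ × ℝ}
    (hq : q ∈ QQ R₀ f) (v : ℝ × ℝ) :
    fderiv ℝ r q v = q.2 * fderiv ℝ (fun p : E4 => r (p 0, ‖pos p‖) / ‖pos p‖) (fb_i q) (fb_i v) +
      v.2 * (r q / q.2) := by
  have hsm := (fb_φ hS (fb_near hS.nonneg hq)).1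
  have hpos : 0 < q.2 := lt_of_le_of_lt hS.nonneg (QQ_lt hq)
  have hrq : ContDiffAt ℝ ∞ r q := (slice_r hS hq).1
  have hr : ContDiffAt ℝ 1 r q := hrq.of_le (by exact_mod_cast le_top : (1 : WithTop ℕ∞) ≤ ∞)
  have hev : ∀ᶠ q'' in 𝓝 q, (fun q => (fun p : E4 => r (p 0, ‖pos p‖) / ‖pos p‖) (fb_i q)) q'' = r q'' / q''.2 := by
    have h1 : ∀ᶠ q'' : ℝ × ℝ in 𝓝 q, 0 < q''.2 := continuous_snd.continuousAt.eventually (lt_mem_nhds hpos)
    filter_upwards [h1] with q'' hq''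
    show r (fb_i q'' 0, ‖pos (fb_i q'')‖) / ‖pos (fb_i q'')‖ = r q'' / q''.2
    rw [fb_zero, fb_norm q'' hq'']
  rw [← (fb_chain hsm).self_of_nhds v]
  have h3 : (fun q => (fun p : E4 => r (p 0, ‖pos p‖) / ‖pos p‖) (fb_i q)) =ᶠ[𝓝 q] fun q => r q / q.2 := hev
  rw [h3.fderiv_eq]
  have h4 : HasFDerivAt r (fderiv ℝ r q) q := (hr.differentiableAt (by simp)).hasFDerivAt
  have h5 : HasFDerivAt (fun q : ℝ × ℝ => q.2) (ContinuousLinearMap.snd ℝ ℝ ℝ) q := hasFDerivAt_snd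
  have h6 : DifferentiableAt ℝ (fun q : ℝ × ℝ => r q / q.2) q :=
    (hr.div contDiffAt_snd hpos.ne').differentiableAt (by simp)
  have h7 : HasFDerivAt (fun q : ℝ × ℝ => q.2 * (r q / q.2)) (q.2 • fderiv ℝ (fun q : ℝ × ℝ => r q / q.2) q +
      (r q / q.2) • ContinuousLinearMap.snd ℝ ℝ ℝ) q := h5.mul h6.hasFDerivAt
  have h8 : r =ᶠ[𝓝 q] fun q : ℝ × ℝ => q.2 * (r q / q.2) := by
    have h1 : ∀ᶠ q'' : ℝ × ℝ in 𝓝 q, 0 < q''.2 := continuous_snd.continuousAt.eventually (lt_mem_nhds hpos)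
    filter_upwards [h1] with q'' hq''
    field_simp
  rw [h8.fderiv_eq, h7.fderiv]
  rw [ContinuousLinearMap.add_apply, ContinuousLinearMap.smul_apply, ContinuousLinearMap.smul_apply, smul_eq_mul, smul_eq_mul,
    ContinuousLinearMap.coe_snd', mul_comm v.2]

theorem bounds {R₀ : ℝ} {F : E4 → ℝ} {k : ℝ → ℝ} {r : ℝ × ℝ → ℝ} {f : E3 → ℝ} (hS : Kin R₀ F k r f)
    (hA : AsympFlat R₀ F k r f) : ∃ C R : ℝ, BD R₀ F k r f C R := by
  obtain ⟨C₁, R₁, hR₁, h₁⟩ := hA.f_decay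
  obtain ⟨C₂, R₂, hR₂, h₂⟩ := hA.F_decay
  obtain ⟨C₃, R₃, hR₃, h₃⟩ := hA.k_decay
  obtain ⟨C₄, R₄, hR₄, h₄⟩ := hA.r_decay
  have h0 := hS.nonneg
  set C : ℝ := |C₁| + |C₂| + |C₃| + 2 * |C₄| with hC
  have hC0 : 0 ≤ C := by positivity
  have hc1 : C₁ ≤ C := by have := le_abs_self C₁; have := abs_nonneg C₂; have := abs_nonneg C₃; have := abs_nonneg C₄; linarith
  have hc2 : C₂ ≤ C := by have := le_abs_self C₂; have := abs_nonneg C₁; have := abs_nonneg C₃; have := abs_nonneg C₄; linarith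
  have hc3 : C₃ ≤ C := by have := le_abs_self C₃; have := abs_nonneg C₂; have := abs_nonneg C₁; have := abs_nonneg C₄; linarith
  have hc4 : 2 * C₄ ≤ C := by have := le_abs_self C₄; have := abs_nonneg C₂; have := abs_nonneg C₃; have := abs_nonneg C₁; linarith
  have hc4' : C₄ ≤ C := by have := le_abs_self C₄; have := abs_nonneg C₂; have := abs_nonneg C₃; have := abs_nonneg C₁; have := abs_nonneg C₄; linarith
  set R : ℝ := max (R₀ + 1) (max (max R₁ R₂) (max R₃ R₄)) with hR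
  have r0 : R₀ + 1 ≤ R := le_max_left _ _
  have r1 : 1 ≤ R := by linarith
  have r2 : R₁ ≤ R := ((le_max_left _ _).trans (le_max_left _ _)).trans (le_max_right _ _)
  have r3 : R₂ ≤ R := ((le_max_right _ _).trans (le_max_left _ _)).trans (le_max_right _ _)
  have r4 : R₃ ≤ R := ((le_max_left _ _).trans (le_max_right _ _)).trans (le_max_right _ _)
  have r5 : R₄ ≤ R := ((le_max_right _ _).trans (le_max_right _ _)).trans (le_max_right _ _)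
  have hgt : R₀ < R := by linarith
  have hqpos : ∀ q ∈ QQ R₀ f, 0 < q.2 := fun q hq => lt_of_le_of_lt h0 (QQ_lt hq)
  -- the function r
  have hφ : ∀ q ∈ QQ R₀ f, R ≤ q.2 → |r q / q.2 - 1| ≤ C₄ / q.2 ∧
      (∀ a, |H31R.pd a (fun p : E4 => r (p 0, ‖pos p‖) / ‖pos p‖) (fb_i q)| ≤ C₄ / q.2 ^ 2) := by
    intro q hq hRq
    have hpos := hqpos q hq
    have hn := fb_norm q hpos
    have h := h₄ (fb_i q) (fb_near h0 hq) (by rw [hn]; exact r5.trans hRq)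
    rw [hn] at h
    refine ⟨?_, h.2⟩
    have h' := h.1
    have e : (fun p : E4 => r (p 0, ‖pos p‖) / ‖pos p‖) (fb_i q) = r q / q.2 := by
      show r (fb_i q 0, ‖pos (fb_i q)‖) / ‖pos (fb_i q)‖ = r q / q.2
      rw [fb_zero, hn]
    rw [← e]
    exact h'
  have hP0 : ∀ q : ℝ × ℝ, fderiv ℝ (fun p : E4 => r (p 0, ‖pos p‖) / ‖pos p‖) (fb_i q) (fb_i (1, 0)) =
      H31R.pd 0 (fun p : E4 => r (p 0, ‖pos p‖) / ‖pos p‖) (fb_i q) := by
    intro q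
    rw [fb_i0]
    rfl
  have hP1 : ∀ q : ℝ × ℝ, fderiv ℝ (fun p : E4 => r (p 0, ‖pos p‖) / ‖pos p‖) (fb_i q) (fb_i (0, 1)) =
      H31R.pd 1 (fun p : E4 => r (p 0, ‖pos p‖) / ‖pos p‖) (fb_i q) := by
    intro q
    rw [fb_i1]
    rfl
  have hdiv : ∀ {a b c : ℝ}, 0 < c → a ≤ b → a / c ≤ b / c := fun hc hab => div_le_div_of_nonneg_right hab hc.le
  refine ⟨C, R, hC0, r1, hgt, ?_, ?_, ?_, ?_, ?_, ?_, ?_, ?_, ?_⟩
  · intro x hx i
    have hx0 : 0 < ‖x‖ := lt_of_lt_of_le one_pos (r1.trans hx)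
    exact ((h₁ x (r2.trans hx)).1 i).trans (hdiv hx0 hc1)
  · intro x hx i j
    have hx0 : 0 < ‖x‖ := lt_of_lt_of_le one_pos (r1.trans hx)
    exact ((h₁ x (r2.trans hx)).2 i j).trans (hdiv (pow_pos hx0 2) hc1)
  · intro q hq hx n
    obtain ⟨k1, -, k3, -⟩ := ev_near h0 hq n
    have h := h₂ _ k1 (by rw [k3]; exact r3.trans hx)
    rw [k3] at h
    exact h.1.trans (hdiv (hqpos q hq) hc2)
  · intro q hq hx n a
    obtain ⟨k1, -, k3, -⟩ := ev_near h0 hq n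
    have h := h₂ _ k1 (by rw [k3]; exact r3.trans hx)
    rw [k3] at h
    exact (h.2 a).trans (hdiv (pow_pos (hqpos q hq) 2) hc2)
  · intro ρ hρ
    have hρ0 : 0 < ρ := lt_of_lt_of_le one_pos (r1.trans hρ)
    have hq := fb_ρ h0 f (hgt.trans_le hρ)
    have hn := fb_norm _ (hqpos _ hq)
    have h := h₃ _ (fb_near h0 hq) (by rw [hn]; exact r4.trans hρ)
    simp only [hn] at h
    exact h.1.trans (hdiv hρ0 hc3)
  · intro ρ hρ
    have hρ0 : 0 < ρ := lt_of_lt_of_le one_pos (r1.trans hρ)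
    have hρ1 : R₀ < ρ := hgt.trans_le hρ
    have hq := fb_ρ h0 f hρ1
    have hn := fb_norm _ (hqpos _ hq)
    have h := (h₃ _ (fb_near h0 hq) (by rw [hn]; exact r4.trans hρ)).2 1
    rw [hn] at h
    have hch := (fb_chain (fb_φ hS (fb_near h0 hq)).2).self_of_nhds (0, 1)
    have e1 : (fun q => (fun p : E4 => k ‖pos p‖) (fb_i q)) =ᶠ[𝓝 (f (ρ • (fb_e : E3)), ρ)] fun q : ℝ × ℝ => k q.2 := by
      have h0 : ∀ᶠ q' : ℝ × ℝ in 𝓝 (f (ρ • (fb_e : E3)), ρ), 0 < q'.2 :=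
        continuous_snd.continuousAt.eventually (lt_mem_nhds hρ0)
      filter_upwards [h0] with q' hq'
      show k ‖pos (fb_i q')‖ = k q'.2
      rw [fb_norm q' hq']
    rw [e1.fderiv_eq] at hch
    have h2 : HasDerivAt k (deriv k ρ) ρ := ((hS.k_smooth ρ hρ1).differentiableAt (by simp)).hasDerivAt
    have h3 : HasFDerivAt (fun q : ℝ × ℝ => k q.2) (deriv k ρ • ContinuousLinearMap.snd ℝ ℝ ℝ) (f (ρ • (fb_e : E3)), ρ) :=
      HasDerivAt.comp_hasFDerivAt (f := fun q : ℝ × ℝ => q.2) (f (ρ • (fb_e : E3)), ρ) h2 hasFDerivAt_snd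
    rw [h3.fderiv, fb_i1] at hch
    have h4 : deriv k ρ = H31R.pd 1 (fun p : E4 => k ‖pos p‖) (fb_i (f (ρ • (fb_e : E3)), ρ)) := by
      have h5 : (deriv k ρ • ContinuousLinearMap.snd ℝ ℝ ℝ) ((0 : ℝ), (1 : ℝ)) = deriv k ρ := by
        show deriv k ρ * 1 = deriv k ρ
        rw [mul_one]
      rw [← h5]
      exact hch
    rw [h4]
    exact h.trans (hdiv (pow_pos hρ0 2) hc3)
  · intro q hq hx
    have hpos := hqpos q hq
    have h := (hφ q hq hx).1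
    have e : r q - q.2 = q.2 * (r q / q.2 - 1) := by
      field_simp
    rw [e, abs_mul, abs_of_pos hpos]
    calc q.2 * |r q / q.2 - 1| ≤ q.2 * (C₄ / q.2) := mul_le_mul_of_nonneg_left h hpos.le
      _ = C₄ := by field_simp
      _ ≤ C := hc4'
  · intro q hq hx
    have hpos := hqpos q hq
    have h := (hφ q hq hx).2 0
    rw [fb_r hS hq (1, 0), hP0]
    show |q.2 * _ + 0 * _| ≤ C / q.2
    rw [zero_mul, add_zero, abs_mul, abs_of_pos hpos]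
    calc q.2 * _ ≤ q.2 * (C₄ / q.2 ^ 2) := mul_le_mul_of_nonneg_left h hpos.le
      _ = C₄ / q.2 := by field_simp
      _ ≤ C / q.2 := hdiv hpos hc4'
  · intro q hq hx
    have hpos := hqpos q hq
    obtain ⟨h0, h1⟩ := hφ q hq hx
    rw [fb_r hS hq (0, 1), hP1]
    show |q.2 * _ + 1 * _ - 1| ≤ C / q.2
    rw [one_mul, add_sub_assoc]
    calc _ ≤ |q.2 * H31R.pd 1 (fun p : E4 => r (p 0, ‖pos p‖) / ‖pos p‖) (fb_i q)| + |r q / q.2 - 1| := abs_add_le _ _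
      _ ≤ q.2 * (C₄ / q.2 ^ 2) + C₄ / q.2 := by
        rw [abs_mul, abs_of_pos hpos]
        exact add_le_add (mul_le_mul_of_nonneg_left (h1 1) hpos.le) h0
      _ = (2 * C₄) / q.2 := by
        field_simp
        ring
      _ ≤ C / q.2 := hdiv hpos hc4

end H74K
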