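import Pool.Agent.Lib.H17T.F2
import Pool.Agent.Lib.H17V.D0
import Pool.Agent.Lib.H74X.KFB
import Pool.Agent.Lib.H74X.Kin

set_option autoImplicit false

/-!
# H74X, module K: port of `H17V/D0.lean` to the kinematic conditions `Kin`
-/

open MeasureTheory Filter Topology Set
open scoped ContDiff

namespace H74K

open H17V hiding Slice

open H17T

open Pool.Agent.Lib.PenroseSph (E3 Tens S2 sm pd )

theorem sphere_times {R₀ : ℝ} {F : E4 → ℝ} {k : ℝ → ℝ} {r : ℝ × ℝ → ℝ} {f : E3 → ℝ} (hS : Kin R₀ F k r f) {C R : ℝ}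
    (hB : BD R₀ F k r f C R) {x y : E3} (hx : R ≤ ‖x‖) (hxy : ‖y‖ = ‖x‖) :
    |f y - f x| ≤ 3 * C * Real.pi ∧ ∀ T ∈ uIcc (f x) (f y), (T, ‖x‖) ∈ QQ R₀ f := by
  have hρ : 0 < ‖x‖ := by linarith [hB.R_pos]
  have hxR : R₀ < ‖x‖ := hB.R_gt.trans_le hx
  have hx0 : x ≠ 0 := norm_pos_iff.1 hρ
  obtain ⟨z, θ, h0, h1, hz, hxz, hy⟩ := f2_arc hx0 hxy
  have hn : ∀ t : ℝ, ‖Real.cos t • x + Real.sin t • z‖ = ‖x‖ := fun t =>
    f2_nsq hz hxz (Real.cos_sq_add_sin_sq t)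
  have hn' : ∀ t : ℝ, ‖(-Real.sin t) • x + Real.cos t • z‖ = ‖x‖ := fun t =>
    f2_nsq hz hxz (by rw [neg_sq, Real.sin_sq_add_cos_sq])
  have hne : ∀ t : ℝ, R₀ < ‖Real.cos t • x + Real.sin t • z‖ := by
    intro t
    rw [hn t]
    exact hxR
  have hd : ∀ t : ℝ, HasDerivAt (fun t : ℝ => f (Real.cos t • x + Real.sin t • z))
      (fderiv ℝ f (Real.cos t • x + Real.sin t • z) ((-Real.sin t) • x + Real.cos t • z)) t := by
    intro t
    have d1 : HasDerivAt (fun t : ℝ => Real.cos t • x + Real.sin t • z) ((-Real.sin t) • x + Real.cos t • z) t :=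
      ((Real.hasDerivAt_cos t).smul_const x).add ((Real.hasDerivAt_sin t).smul_const z)
    exact ((hS.f_smooth _ (hne t)).differentiableAt (by simp)).hasFDerivAt.comp_hasDerivAt t d1
  have hb : ∀ t : ℝ, ‖fderiv ℝ f (Real.cos t • x + Real.sin t • z) ((-Real.sin t) • x + Real.cos t • z)‖ ≤ 3 * C := by
    intro t
    rw [Real.norm_eq_abs, f2_expand]
    have hf := hB.f1 (Real.cos t • x + Real.sin t • z) (by rw [hn t]; exact hx)
    rw [hn t] at hf
    calc |∑ m, ((-Real.sin t) • x + Real.cos t • z : E3) m *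
          fderiv ℝ f (Real.cos t • x + Real.sin t • z) (EuclideanSpace.single m 1)|
        ≤ ∑ m, |((-Real.sin t) • x + Real.cos t • z : E3) m *
          fderiv ℝ f (Real.cos t • x + Real.sin t • z) (EuclideanSpace.single m 1)| := Finset.abs_sum_le_sum_abs _ _
      _ ≤ ∑ _m : Fin 3, C := by
          refine Finset.sum_le_sum fun m _ => ?_
          rw [abs_mul]
          have a1 := f2_coord ((-Real.sin t) • x + Real.cos t • z) m
          rw [hn' t] at a1
          calc |((-Real.sin t) • x + Real.cos t • z : E3) m| *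
                |fderiv ℝ f (Real.cos t • x + Real.sin t • z) (EuclideanSpace.single m 1)|
              ≤ ‖x‖ * (C / ‖x‖) := mul_le_mul a1 (hf m) (abs_nonneg _) hρ.le
            _ = C := mul_div_cancel₀ _ hρ.ne'
      _ = 3 * C := by simp
  have e0 : Real.cos 0 • x + Real.sin 0 • z = x := by simp
  constructor
  · have h2 := Convex.norm_image_sub_le_of_norm_hasDerivWithin_le (s := univ)
      (fun t _ => (hd t).hasDerivWithinAt) (fun t _ => hb t) convex_univ (mem_univ (0 : ℝ)) (mem_univ θ)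
    have h3 : |f (Real.cos θ • x + Real.sin θ • z) - f (Real.cos 0 • x + Real.sin 0 • z)| ≤ 3 * C * |θ - 0| := h2
    rw [← hy, e0, sub_zero, abs_of_nonneg h0] at h3
    exact h3.trans (mul_le_mul_of_nonneg_left h1 (by linarith [hB.C_nonneg]))
  · intro T hT
    have hc : ContinuousOn (fun t : ℝ => f (Real.cos t • x + Real.sin t • z)) (uIcc 0 θ) := fun t _ =>
      (hd t).continuousAt.continuousWithinAt
    have h2 := intermediate_value_uIcc hc
    have e1 : f (Real.cos 0 • x + Real.sin 0 • z) = f x := by rw [e0]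
    have e2 : f (Real.cos θ • x + Real.sin θ • z) = f y := by rw [← hy]
    have h3 : T ∈ (fun t : ℝ => f (Real.cos t • x + Real.sin t • z)) '' uIcc 0 θ := by
      refine h2 ?_
      show T ∈ uIcc (f (Real.cos 0 • x + Real.sin 0 • z)) (f (Real.cos θ • x + Real.sin θ • z))
      rw [e1, e2]
      exact hT
    obtain ⟨t, -, ht⟩ := h3
    refine ⟨Real.cos t • x + Real.sin t • z, hne t, ?_⟩
    show (f (Real.cos t • x + Real.sin t • z), ‖Real.cos t • x + Real.sin t • z‖) = (T, ‖x‖)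
    rw [hn t]
    exact congrArg (fun u => (u, ‖x‖)) ht

theorem times_F {R₀ : ℝ} {F : E4 → ℝ} {k : ℝ → ℝ} {r : ℝ × ℝ → ℝ} {f : E3 → ℝ} (hS : Kin R₀ F k r f) {C R : ℝ}
    (hB : BD R₀ F k r f C R) :
    ∃ C' : ℝ, 0 ≤ C' ∧ ∀ x y : E3, R ≤ ‖x‖ → ‖y‖ = ‖x‖ →
      ∀ n : S2, |F (ev (qq f x) n) - F (ev (qq f y) n)| ≤ C' / ‖x‖ ^ 2 := by
  refine ⟨C * (3 * C * Real.pi), ?_, fun x y hx hxy n => ?_⟩
  · have h1 := hB.C_nonneg
    have h2 := Real.pi_pos
    positivity
  have hρ : 0 < ‖x‖ := by linarith [hB.R_pos]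
  obtain ⟨h1, h2⟩ := sphere_times hS hB hx hxy
  have hB0 : 0 ≤ C / ‖x‖ ^ 2 := div_nonneg hB.C_nonneg (by positivity)
  have e1 : qq f x = (f x, ‖x‖) := rfl
  have e2 : qq f y = (f y, ‖x‖) := by rw [← hxy]; rfl
  have e3 : C * (3 * C * Real.pi) / ‖x‖ ^ 2 = C / ‖x‖ ^ 2 * (3 * C * Real.pi) := by ring
  rw [e1, e2, e3]
  refine f2_mvt (φ := fun T => F (ev (T, ‖x‖) n)) (φ' := fun T => H31R.pd 0 F (ev (T, ‖x‖) n)) (fun T hT => ?_)
      (fun T hT => ?_) hB0 h1
  · have a1 := (ev_near hS.nonneg (h2 T hT) n).1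
    exact ((hS.F_smooth _ a1).differentiableAt (by simp)).hasFDerivAt.comp_hasDerivAt T (f2_ev ‖x‖ n T)
  · exact hB.F1 _ (h2 T hT) hx n 0

end H74K
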