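import Pool.Agent.Lib.H17T.F4
import Pool.Agent.Lib.H17T.M1
import Pool.Agent.Lib.H17V.D2B
import Pool.Agent.Lib.H74X.KFB
import Pool.Agent.Lib.H74X.Kin

set_option autoImplicit false

/-!
# H74X, module K: port of `H17V/D2B.lean` to the kinematic conditions `Kin`
-/

open MeasureTheory Filter Topology Set
open scoped ContDiff

namespace H74K

open H17V hiding Slice

open H17T

open Pool.Agent.Lib.PenroseSph (E3 Tens S2 sm pd )

theorem bd_ab {R₀ : ℝ} {F : E4 → ℝ} {k : ℝ → ℝ} {r : ℝ × ℝ → ℝ} {f : E3 → ℝ} (hS : Kin R₀ F k r f) {C R : ℝ}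
    (hB : BD R₀ F k r f C R) :
    ∃ C' R' : ℝ, 0 ≤ C' ∧ R ≤ R' ∧ ∀ q ∈ QQ R₀ f, R' ≤ q.2 →
      (|Da k r q - 1 / 2| ≤ C' / q.2 ∧ |Db k r q - 1 / 2| ≤ C' / q.2 ∧ |mF F q - 1| ≤ C' / q.2) ∧
      (|Da k (mF F) q| ≤ C' / q.2 ^ 2 ∧ |Db k (mF F) q| ≤ C' / q.2 ^ 2) ∧
      (1 / 4 ≤ Da k r q ∧ 1 / 4 ≤ Db k r q ∧ 1 / 2 ≤ mF F q ∧ mF F q ≤ 2) ∧
      (|r q| ≤ 2 * q.2 ∧ 3 / 4 ≤ k q.2 ∧ k q.2 ≤ 5 / 4) := by
  have hC0 := hB.C_nonneg
  refine ⟨14 * C, max R (14 * C), by positivity, le_max_left _ _, fun q hq hqR => ?_⟩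
  have h1 : R ≤ q.2 := (le_max_left _ _).trans hqR
  have h2 : 14 * C ≤ q.2 := (le_max_right _ _).trans hqR
  have hρ : 0 < q.2 := by linarith [hB.R_pos]
  obtain ⟨t, ht⟩ : ∃ t, t = C / q.2 := ⟨_, rfl⟩
  have ht0 : 0 ≤ t := by rw [ht]; positivity
  have ht1 : 14 * t ≤ 1 := by
    rw [ht, ← mul_div_assoc, div_le_one hρ]
    exact h2
  have htC : 14 * C / q.2 = 14 * t := by rw [ht]; ring
  have htρ : C = t * q.2 := by rw [ht, div_mul_cancel₀ _ hρ.ne']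
  have hk := hB.k0 _ h1
  have hrT := hB.rT q hq h1
  have hrR := hB.rR q hq h1
  have hr0 := hB.r0 q hq h1
  rw [← ht] at hk hrT hrR
  rw [htρ] at hr0
  have hk1 := abs_le.1 hk
  have hT1 := abs_le.1 hrT
  have hR1 := abs_le.1 hrR
  have hr1 := abs_le.1 hr0
  have hkpos : 0 < k q.2 := by linarith [hk1.1]
  have hk2 : 13 / 14 ≤ k q.2 := by linarith [hk1.1]
  have eDa : Da k r q = 1 / 2 * fderiv ℝ r q (1, 0) + 1 / (2 * k q.2) * fderiv ℝ r q (0, 1) := by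
    unfold Da
    rw [f4_D]
  have eDb : Db k r q = -(1 / 2) * fderiv ℝ r q (1, 0) + 1 / (2 * k q.2) * fderiv ℝ r q (0, 1) := by
    unfold Db
    rw [f4_D]
  -- `r_ρ/(2k)`
  have hq1 : |1 / (2 * k q.2) * fderiv ℝ r q (0, 1) - 1 / 2| ≤ 2 * t := by
    have e : 1 / (2 * k q.2) * fderiv ℝ r q (0, 1) - 1 / 2 =
        (fderiv ℝ r q (0, 1) - 1 - (k q.2 - 1)) / (2 * k q.2) := by
      field_simp
      ring
    rw [e, abs_div, abs_of_pos (by positivity : (0 : ℝ) < 2 * k q.2), div_le_iff₀ (by positivity)]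
    have h3 : |fderiv ℝ r q (0, 1) - 1 - (k q.2 - 1)| ≤ 2 * t := by
      rw [abs_le]
      constructor
      · linarith [hR1.1, hk1.2]
      · linarith [hR1.2, hk1.1]
    have h4 : 2 * t * 1 ≤ 2 * t * (2 * k q.2) := mul_le_mul_of_nonneg_left (by linarith) (by positivity)
    linarith
  have hq2 := abs_le.1 hq1
  have ha : |Da k r q - 1 / 2| ≤ 3 * t := by
    rw [eDa, abs_le]
    constructor
    · linarith [hT1.1, hq2.1]
    · linarith [hT1.2, hq2.2]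
  have hb : |Db k r q - 1 / 2| ≤ 3 * t := by
    rw [eDb, abs_le]
    constructor
    · linarith [hT1.2, hq2.1]
    · linarith [hT1.1, hq2.2]
  -- the mean of `1/F`
  have hFs : ∀ n : S2, ContDiffAt ℝ ∞ F (ev q n) := fun n => hS.F_smooth _ (ev_near hS.nonneg hq n).1
  have hFp : ∀ n : S2, 0 < F (ev q n) := fun n => hS.F_pos _ (ev_near hS.nonneg hq n).1
  have hF0 : ∀ n : S2, |F (ev q n) - 1| ≤ t := fun n => by
    rw [ht]
    exact hB.F0 q hq h1 n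
  have hF2 : ∀ n : S2, 1 / 2 ≤ F (ev q n) := fun n => by
    have := abs_le.1 (hF0 n)
    linarith [this.1]
  have hFi : ∀ n : S2, |(F (ev q n))⁻¹ - 1| ≤ 2 * t := by
    intro n
    have h3 := hFp n
    have e : (F (ev q n))⁻¹ - 1 = -(F (ev q n) - 1) / F (ev q n) := by
      field_simp
      ring
    rw [e, abs_div, abs_neg, abs_of_pos h3, div_le_iff₀ h3]
    have h4 := hF0 n
    have h5 : 2 * t * (1 / 2) ≤ 2 * t * F (ev q n) := mul_le_mul_of_nonneg_left (hF2 n) (by positivity)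
    linarith
  have hci := (mF_cont hFs hFp (0, 0)).2
  have i1 : Integrable (fun n : S2 => (F (ev q n))⁻¹) sm := Pool.Agent.Lib.PenroseSph.integrable_S2 hci
  have hm : |mF F q - 1| ≤ 2 * t := by
    have e : mF F q - 1 = (4 * Real.pi)⁻¹ * ∫ n : S2, ((F (ev q n))⁻¹ - 1) ∂sm := by
      rw [integral_sub i1 (integrable_const _), integral_const, smul_eq_mul, Pool.Agent.Lib.PenroseSph.sm_univ]
      unfold mF
      have hpi : Real.pi ≠ 0 := Real.pi_ne_zero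
      field_simp
    rw [e]
    exact d2b_mean hFi
  -- its derivatives
  have hd : ∀ v : ℝ × ℝ, |v.1| ≤ 1 / 2 → |v.2| ≤ 1 → |fderiv ℝ (mF F) q v| ≤ 14 * C / q.2 ^ 2 := by
    intro v hv1 hv2
    rw [(mF_deriv hFs hFp).2 v, abs_neg]
    refine d2b_mean fun n => ?_
    have h3 := d2b_chain (n := n) ((hFs n).differentiableAt (by simp)) (hB.F1 q hq h1 n) v
    have h4 : C / q.2 ^ 2 * (|v.1| + 3 * |v.2|) ≤ C / q.2 ^ 2 * (7 / 2) :=
      mul_le_mul_of_nonneg_left (by linarith) (by positivity)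
    have h5 : 1 / 4 ≤ F (ev q n) ^ 2 := by nlinarith [hF2 n]
    have h6 : 0 < F (ev q n) ^ 2 := by positivity
    rw [abs_div, abs_of_pos h6, div_le_iff₀ h6]
    have h7 : 14 * C / q.2 ^ 2 * (1 / 4) ≤ 14 * C / q.2 ^ 2 * F (ev q n) ^ 2 :=
      mul_le_mul_of_nonneg_left h5 (by positivity)
    have h8 : 14 * C / q.2 ^ 2 * (1 / 4) = C / q.2 ^ 2 * (7 / 2) := by ring
    linarith
  have hv2 : |1 / (2 * k q.2)| ≤ 1 := by
    rw [abs_of_pos (by positivity : (0 : ℝ) < 1 / (2 * k q.2)), div_le_one (by positivity)]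
    linarith
  have ha1 := abs_le.1 ha
  have hb1 := abs_le.1 hb
  have hm1 := abs_le.1 hm
  refine ⟨⟨?_, ?_, ?_⟩, ⟨?_, ?_⟩, ⟨?_, ?_, ?_, ?_⟩, ?_, ?_, ?_⟩
  · rw [htC]
    linarith
  · rw [htC]
    linarith
  · rw [htC]
    linarith
  · exact hd (1 / 2, 1 / (2 * k q.2)) (by norm_num) hv2
  · exact hd (-(1 / 2), 1 / (2 * k q.2)) (by norm_num [abs_neg]) hv2
  · linarith [ha1.1]
  · linarith [hb1.1]
  · linarith [hm1.1]
  · linarith [hm1.2]
  · have h3 : t * q.2 ≤ q.2 := by nlinarith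
    rw [abs_le]
    constructor
    · linarith [hr1.1]
    · linarith [hr1.2]
  · linarith
  · linarith [hk1.2]

end H74K
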