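import Pool.Agent.Lib.H17T.F4
import Pool.Agent.Lib.H17V.E1
import Pool.Agent.Lib.H74X.KF3
import Pool.Agent.Lib.H74X.Kin

set_option autoImplicit false

/-!
# H74X, module K: port of `H17V/E1.lean` to the kinematic conditions `Kin`
-/

open MeasureTheory Filter Topology Set
open scoped ContDiff

namespace H74K

open H17V hiding Slice

open H17T

open Pool.Agent.Lib.PenroseSph (E3 Tens S2 sm pd fluxDensity)

theorem flux_mhat {R₀ : ℝ} {F : E4 → ℝ} {k : ℝ → ℝ} {r : ℝ × ℝ → ℝ} {f : E3 → ℝ} (hS : Kin R₀ F k r f) {C R : ℝ}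
    (hB : BD R₀ F k r f C R) :
    ∃ C' R' : ℝ, 0 ≤ C' ∧ R ≤ R' ∧ ∀ x : E3, R' ≤ ‖x‖ →
      |‖x‖ ^ 2 * fluxDensity (slice (stMetric F k r) f) x - 4 * mhat F k r f x| ≤ C' / ‖x‖ := by
  have hC0 := hB.C_nonneg
  obtain ⟨C₁, hC₁⟩ := flux_exp hS hB
  refine ⟨|C₁| + 304 * C ^ 2, max R (14 * C), by positivity, le_max_left _ _, fun x hxR => ?_⟩
  have h1 : R ≤ ‖x‖ := (le_max_left _ _).trans hxR
  have h2 : 14 * C ≤ ‖x‖ := (le_max_right _ _).trans hxR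
  have hρ : 0 < ‖x‖ := by linarith [hB.R_pos]
  have hgt : R₀ < ‖x‖ := hB.R_gt.trans_le h1
  have hq : qq f x ∈ QQ R₀ f := ⟨x, hgt, rfl⟩
  obtain ⟨n, hn⟩ : ∃ n : S2, ‖x‖ • (n : E3) = x := by
    refine ⟨⟨‖x‖⁻¹ • x, ?_⟩, ?_⟩
    · rw [mem_sphere_zero_iff_norm, norm_smul, norm_inv, norm_norm, inv_mul_cancel₀ hρ.ne']
    · show ‖x‖ • (‖x‖⁻¹ • x) = x
      rw [smul_smul, mul_inv_cancel₀ hρ.ne', one_smul]
  have hev : ev (qq f x) n = pt (f x) x := by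
    show pt (f x) (‖x‖ • (n : E3)) = pt (f x) x
    rw [hn]
  have e2 : (qq f x).2 = ‖x‖ := rfl
  have hF := hB.F0 (qq f x) hq h1 n
  have hr := hB.r0 (qq f x) hq h1
  have hrT := hB.rT (qq f x) hq h1
  have hrR := hB.rR (qq f x) hq h1
  have hk := hB.k0 _ h1
  rw [hev, e2] at hF
  rw [e2] at hr hrT hrR
  obtain ⟨t, ht⟩ : ∃ t, t = C / ‖x‖ := ⟨_, rfl⟩
  have ht0 : 0 ≤ t := by rw [ht]; positivity
  have ht1 : 14 * t ≤ 1 := by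
    rw [ht, ← mul_div_assoc, div_le_one hρ]
    exact h2
  have htρ : C = t * ‖x‖ := by rw [ht, div_mul_cancel₀ _ hρ.ne']
  rw [← ht] at hF hrT hrR hk
  rw [htρ] at hr
  have a1 := f4_pw (t := t) (r := r (qq f x)) (ρ := ‖x‖) (F := F (pt (f x) x)) (k := k ‖x‖)
    (rT := fderiv ℝ r (qq f x) (1, 0)) (rR := fderiv ℝ r (qq f x) (0, 1)) ht0 ht1 hρ hF hk hr hrT hrR
  have eDa : Da k r (qq f x) = fderiv ℝ r (qq f x) (1, 0) / 2 + fderiv ℝ r (qq f x) (0, 1) / (2 * k ‖x‖) := by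
    unfold Da
    rw [f4_D, e2]
    ring
  have eDb : Db k r (qq f x) = -(fderiv ℝ r (qq f x) (1, 0) / 2) + fderiv ℝ r (qq f x) (0, 1) / (2 * k ‖x‖) := by
    unfold Db
    rw [f4_D, e2]
    ring
  rw [← eDa, ← eDb] at a1
  have a2 := hC₁ x h1
  have a3 : C₁ / ‖x‖ ≤ |C₁| / ‖x‖ := div_le_div_of_nonneg_right (le_abs_self _) hρ.le
  have a4 : 76 * (t ^ 2 * ‖x‖) = 76 * C ^ 2 / ‖x‖ := by
    rw [ht]
    field_simp
  rw [a4] at a1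
  have a5 : (|C₁| + 304 * C ^ 2) / ‖x‖ = |C₁| / ‖x‖ + 4 * (76 * C ^ 2 / ‖x‖) := by ring
  have b1 := abs_le.1 a1
  have b2 := abs_le.1 a2
  unfold mhat
  rw [a5, abs_le]
  constructor
  · linarith [b1.1, b1.2, b2.1, b2.2]
  · linarith [b1.1, b1.2, b2.1, b2.2]

end H74K
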