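import Pool.Agent.Lib.H17V.E2
import Pool.Agent.Lib.H74X.KD0
import Pool.Agent.Lib.H74X.KD2B
import Pool.Agent.Lib.H74X.KE1
import Pool.Agent.Lib.H74X.Kin

set_option autoImplicit false

/-!
# H74X, module K: port of `H17V/E2.lean` to the kinematic conditions `Kin`
-/

open MeasureTheory Filter Topology Set
open scoped ContDiff

namespace H74K

open H17V hiding Slice

open H17T

open Pool.Agent.Lib.PenroseSph (E3 Tens S2 sm pd )

theorem mass_cont {R₀ : ℝ} {F : E4 → ℝ} {k : ℝ → ℝ} {r : ℝ × ℝ → ℝ} {f : E3 → ℝ} (hS : Kin R₀ F k r f) {x : E3}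
    (hx : R₀ < ‖x‖) :
    ContinuousAt (fun x => mass F k r (qq f x)) x ∧ ContinuousAt (mhat F k r f) x := by
  have hq : qq f x ∈ QQ R₀ f := mem_QQ hx
  have hqc : ContinuousAt (qq f) x := (hS.f_smooth x hx).continuousAt.prodMk continuous_norm.continuousAt
  have hr := (slice_r hS hq).1
  have hk : ContDiffAt ℝ ∞ k (qq f x).2 := hS.k_smooth _ (QQ_lt hq)
  have hD := D_smooth hk (hS.k_pos _ (QQ_lt hq)) hr
  have hF : ∀ n : S2, ContDiffAt ℝ ∞ F (ev (qq f x) n) := fun n => hS.F_smooth _ (ev_near hS.nonneg hq n).1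
  have hF0 : ∀ n : S2, 0 < F (ev (qq f x) n) := fun n => hS.F_pos _ (ev_near hS.nonneg hq n).1
  have c1 : ContinuousAt (fun x => r (qq f x)) x := ContinuousAt.comp (g := r) (f := qq f) hr.continuousAt hqc
  have c2 : ContinuousAt (fun x => Da k r (qq f x)) x :=
    ContinuousAt.comp (g := Da k r) (f := qq f) hD.1.continuousAt hqc
  have c3 : ContinuousAt (fun x => Db k r (qq f x)) x :=
    ContinuousAt.comp (g := Db k r) (f := qq f) hD.2.continuousAt hqc
  have c4 : ContinuousAt (fun x => mF F (qq f x)) x :=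
    ContinuousAt.comp (g := mF F) (f := qq f) (mF_deriv hF hF0).1.continuousAt hqc
  have c5 : ContinuousAt (fun x => (F (pt (f x) x))⁻¹) x := by
    have h1 : ContinuousAt (fun x => pt (f x) x) x :=
      ContinuousAt.comp (g := fun q : ℝ × E3 => pt q.1 q.2) (f := fun x : E3 => (f x, x)) (x := x)
        pt_smooth.continuous.continuousAt ((hS.f_smooth x hx).continuousAt.prodMk continuousAt_id)
    have h2 : ContinuousAt F (pt (f x) x) := (hS.F_smooth _ (mem_near hx)).continuousAt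
    exact (ContinuousAt.comp (g := F) (f := fun x => pt (f x) x) h2 h1).inv₀ (hS.F_pos _ (mem_near hx)).ne'
  refine ⟨?_, ?_⟩
  · exact (c1.div_const 2).mul (continuousAt_const.sub (((continuousAt_const.mul c2).mul c3).mul c4))
  · exact (c1.div_const 2).mul (continuousAt_const.sub (((continuousAt_const.mul c2).mul c3).mul c5))

theorem mean_mhat {R₀ : ℝ} {F : E4 → ℝ} {k : ℝ → ℝ} {r : ℝ × ℝ → ℝ} {f : E3 → ℝ} (hS : Kin R₀ F k r f) {C R : ℝ}
    (hB : BD R₀ F k r f C R) :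
    ∃ C' R' : ℝ, 0 ≤ C' ∧ R ≤ R' ∧ ∀ s : ℝ, R' ≤ s →
      |(∫ n : S2, mhat F k r f (s • (n : E3)) ∂sm) - ∫ n : S2, mass F k r (qq f (s • (n : E3))) ∂sm| ≤ C' / s := by
  obtain ⟨C1, hC1, h1⟩ := times_F hS hB
  obtain ⟨C2, R2, hC2, hR2, h2⟩ := bd_ab hS hB
  have hC := hB.C_nonneg
  obtain ⟨n0⟩ : Nonempty S2 := ⟨⟨EuclideanSpace.single 0 1, by simp⟩⟩
  refine ⟨(32 * C1 + (2 * C + 3 * C2) * (4 * C + C2)) * (4 * Real.pi), max R2 (max (2 * C) (2 * C2)),
    by positivity, hR2.trans (le_max_left _ _), fun s hs => ?_⟩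
  have hs2 : R2 ≤ s := (le_max_left _ _).trans hs
  have hsC : 2 * C ≤ s := (le_max_left _ _).trans ((le_max_right _ _).trans hs)
  have hsC2 : 2 * C2 ≤ s := (le_max_right _ _).trans ((le_max_right _ _).trans hs)
  have hsR : R ≤ s := hR2.trans hs2
  have hs1 : 1 ≤ s := hB.R_pos.trans hsR
  have hs0 : 0 < s := by linarith
  have hsR0 : R₀ < s := lt_of_lt_of_le hB.R_gt hsR
  have hnn : ∀ n : S2, ‖s • (n : E3)‖ = s := Pool.Agent.Lib.PenroseSph.norm_ray hs0
  have hne : ∀ n : S2, R₀ < ‖s • (n : E3)‖ := fun n => by rw [hnn n]; exact hsR0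
  have hq : ∀ n : S2, qq f (s • (n : E3)) ∈ QQ R₀ f := fun n => mem_QQ (hne n)
  have hq2 : ∀ n : S2, (qq f (s • (n : E3))).2 = s := hnn
  have hFs : ∀ n m : S2, ContDiffAt ℝ ∞ F (ev (qq f (s • (n : E3))) m) := fun n m =>
    hS.F_smooth _ (ev_near hS.nonneg (hq n) m).1
  have hFp : ∀ n m : S2, 0 < F (ev (qq f (s • (n : E3))) m) := fun n m =>
    hS.F_pos _ (ev_near hS.nonneg (hq n) m).1
  have hcF : ∀ n : S2, Continuous fun m : S2 => (F (ev (qq f (s • (n : E3))) m))⁻¹ := fun n =>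
    (mF_cont (hFs n) (hFp n) (0, 0)).2
  have hiF : ∀ n : S2, Integrable (fun m : S2 => (F (ev (qq f (s • (n : E3))) m))⁻¹) sm := fun n =>
    Pool.Agent.Lib.PenroseSph.integrable_S2 (hcF n)
  have hF0 : ∀ n m : S2, |F (ev (qq f (s • (n : E3))) m) - 1| ≤ C / s := by
    intro n m
    have := hB.F0 _ (hq n) (by rw [hq2 n]; exact hsR) m
    rwa [hq2 n] at this
  have hCs : C / s ≤ 1 / 2 := by
    rw [div_le_iff₀ hs0]
    linarith
  have hC2s : C2 / s ≤ 1 / 2 := by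
    rw [div_le_iff₀ hs0]
    linarith
  have hFh : ∀ n m : S2, 1 / 2 ≤ F (ev (qq f (s • (n : E3))) m) := by
    intro n m
    have := (abs_le.1 (hF0 n m)).1
    linarith
  have hFF : ∀ n n' m : S2, |(F (ev (qq f (s • (n : E3))) m))⁻¹ - (F (ev (qq f (s • (n' : E3))) m))⁻¹| ≤
      4 * (C1 / s ^ 2) := by
    intro n n' m
    refine e2_inv (hFh n m) (hFh n' m) ?_
    have := h1 (s • (n : E3)) (s • (n' : E3)) (by rw [hnn n]; exact hsR) (by rw [hnn n, hnn n']) m
    rwa [hnn n] at this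
  have hpi := Real.pi_pos
  have hΦΦ : ∀ n n' : S2, |mF F (qq f (s • (n : E3))) - mF F (qq f (s • (n' : E3)))| ≤ 4 * (C1 / s ^ 2) := by
    intro n n'
    unfold mF
    rw [← mul_sub, ← integral_sub (hiF n) (hiF n'), abs_mul, abs_of_pos (by positivity : (0 : ℝ) < (4 * Real.pi)⁻¹)]
    have h3 : |∫ m : S2, ((F (ev (qq f (s • (n : E3))) m))⁻¹ - (F (ev (qq f (s • (n' : E3))) m))⁻¹) ∂sm| ≤
        4 * (C1 / s ^ 2) * (4 * Real.pi) := by
      rw [← Real.norm_eq_abs, ← Pool.Agent.Lib.PenroseSph.sm_univ]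
      exact norm_integral_le_of_norm_le_const (Filter.Eventually.of_forall fun m => hFF n n' m)
    calc (4 * Real.pi)⁻¹ * |∫ m : S2, ((F (ev (qq f (s • (n : E3))) m))⁻¹ - (F (ev (qq f (s • (n' : E3))) m))⁻¹) ∂sm|
        ≤ (4 * Real.pi)⁻¹ * (4 * (C1 / s ^ 2) * (4 * Real.pi)) := mul_le_mul_of_nonneg_left h3 (by positivity)
      _ = 4 * (C1 / s ^ 2) := by field_simp
  have h0 : Continuous (fun m : S2 => s • (m : E3)) := by fun_prop
  obtain ⟨A, hA⟩ : ∃ A : S2 → ℝ, A = fun m : S2 => mhat F k r f (s • (m : E3)) := ⟨_, rfl⟩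
  obtain ⟨B, hBm⟩ : ∃ B : S2 → ℝ, B = fun m : S2 => mass F k r (qq f (s • (m : E3))) := ⟨_, rfl⟩
  obtain ⟨G, hG⟩ : ∃ G : S2 → ℝ, G = fun m : S2 => s / 2 * ((F (ev (qq f (s • (n0 : E3))) m))⁻¹ - mF F (qq f (s • (n0 : E3)))) :=
    ⟨_, rfl⟩
  have cA : Continuous A := by
    rw [hA, continuous_iff_continuousAt]
    intro m
    exact ContinuousAt.comp (f := fun m : S2 => s • (m : E3)) (mass_cont hS (hne m)).2 h0.continuousAt
  have cB : Continuous B := by
    rw [hBm, continuous_iff_continuousAt]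
    intro m
    exact ContinuousAt.comp (g := fun x => mass F k r (qq f x)) (f := fun m : S2 => s • (m : E3))
      (mass_cont hS (hne m)).1 h0.continuousAt
  have cG : Continuous G := by
    rw [hG]
    exact continuous_const.mul ((hcF n0).sub continuous_const)
  have iA : Integrable A sm := Pool.Agent.Lib.PenroseSph.integrable_S2 cA
  have iB : Integrable B sm := Pool.Agent.Lib.PenroseSph.integrable_S2 cB
  have iG : Integrable G sm := Pool.Agent.Lib.PenroseSph.integrable_S2 cG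
  have hG0 : ∫ m, G m ∂sm = 0 := by
    rw [hG, integral_const_mul, integral_sub (hiF n0) (Pool.Agent.Lib.PenroseSph.integrable_S2 continuous_const),
      integral_const, Pool.Agent.Lib.PenroseSph.sm_univ, smul_eq_mul]
    unfold mF
    field_simp
    ring
  have hb : ∀ n : S2, ‖A n - B n + G n‖ ≤ (32 * C1 + (2 * C + 3 * C2) * (4 * C + C2)) / s := by
    intro n
    obtain ⟨⟨a1, a2, a3⟩, -, ⟨c1, c2, -, -⟩, ⟨d1, -, -⟩⟩ := h2 _ (hq n) (by rw [hq2 n]; exact hs2)
    obtain ⟨⟨-, -, a30⟩, -⟩ := h2 _ (hq n0) (by rw [hq2 n0]; exact hs2)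
    have r0 := hB.r0 _ (hq n) (by rw [hq2 n]; exact hsR)
    rw [hq2 n] at a1 a2 d1 r0
    rw [hq2 n0] at a30
    have hev : pt (f (s • (n : E3))) (s • (n : E3)) = ev (qq f (s • (n : E3))) n := by
      unfold ev qq
      simp only
      rw [hnn]
    have hu1 : |(F (ev (qq f (s • (n0 : E3))) n))⁻¹ - mF F (qq f (s • (n0 : E3)))| ≤ (4 * C + C2) / s := by
      have e1 := e2_inv (hFh n0 n) (by norm_num : (1 : ℝ) / 2 ≤ 1) (hF0 n0 n)
      rw [inv_one] at e1
      have e2 : (F (ev (qq f (s • (n0 : E3))) n))⁻¹ - mF F (qq f (s • (n0 : E3))) =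
        ((F (ev (qq f (s • (n0 : E3))) n))⁻¹ - 1) - (mF F (qq f (s • (n0 : E3))) - 1) := by ring
      rw [e2]
      refine (abs_sub _ _).trans ?_
      rw [add_div, mul_div_assoc]
      exact add_le_add e1 a30
    rw [Real.norm_eq_abs, hA, hBm, hG]
    show |mhat F k r f (s • (n : E3)) - mass F k r (qq f (s • (n : E3))) +
      s / 2 * ((F (ev (qq f (s • (n0 : E3))) n))⁻¹ - mF F (qq f (s • (n0 : E3))))| ≤ _
    unfold mhat mass
    rw [hev]
    exact e2_alg hs1 hC hC1 hC2 r0 d1 a1 a2 (by linarith) (by linarith [(abs_le.1 a1).2]) (by linarith)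
      (by linarith [(abs_le.1 a2).2]) (hFF n n0 n) (hΦΦ n n0) hu1
  have hint := norm_integral_le_of_norm_le_const (μ := sm) (Filter.Eventually.of_forall hb)
  rw [Pool.Agent.Lib.PenroseSph.sm_univ] at hint
  have e5 : ∫ n : S2, (A n - B n + G n) ∂sm = (∫ n : S2, A n ∂sm) - ∫ n : S2, B n ∂sm := by
    have i12 : Integrable (fun n : S2 => A n - B n) sm := iA.sub iB
    rw [integral_add i12 iG, integral_sub iA iB, hG0, add_zero]
  rw [e5, hA, hBm, Real.norm_eq_abs] at hint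
  refine hint.trans (le_of_eq ?_)
  ring

end H74K
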