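import Pool.Agent.Lib.H17V.E3
import Pool.Agent.Lib.H74X.A3
import Pool.Agent.Lib.H74X.EB3
import Pool.Agent.Lib.H74X.KE2

set_option autoImplicit false

/-!
# H74X, chunk EB4A (S/M): continuity of the densities

Auxiliary names start with `eb4a_`. Template: `H17V/E3.lean` (`energy_lim`, which can be copied), `H17V/F0.lean` (`dens_cont`).
-/

open MeasureTheory Filter Topology Set Asymptotics
open scoped ContDiff

namespace H74E

open H17T H17B

open H17W (SlAt)

open H17V (BD QQ mhat)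

open H74X (metric SpaceTime AsympFlatB sl_at)

open H74K (Kin)

open Pool.Agent.Lib.PenroseSph (E3 Tens S2 sm pd fluxDensity momDensity admFlux)

variable {R₀ β : ℝ} {D : Set (ℝ × ℝ)} {F : E4 → ℝ} {k : ℝ → ℝ} {r : ℝ × ℝ → ℝ} {H : E4 → Matrix (Fin 3) (Fin 3) ℝ}
  {U W : E4 → Fin 3 → ℝ} {f : E3 → ℝ}

theorem eb4a_pt {f : E3 → ℝ} {x : E3} (hf : ContDiffAt ℝ ∞ f x) :
    ContDiffAt ℝ ∞ (fun y => pt (f y) y) x :=
  ContDiffAt.comp (g := fun q : ℝ × E3 => pt q.1 q.2) (f := fun y : E3 => (f y, y)) x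
    pt_smooth.contDiffAt (hf.prodMk contDiffAt_id)

theorem eb4a_comp {φ : E4 → ℝ} {f : E3 → ℝ} {x : E3} (hφ : ContDiffAt ℝ ∞ φ (pt (f x) x))
    (hf : ContDiffAt ℝ ∞ f x) : ContDiffAt ℝ ∞ (fun y => φ (pt (f y) y)) x :=
  ContDiffAt.comp (g := φ) (f := fun y : E3 => pt (f y) y) x hφ (eb4a_pt hf)

theorem eb4a_pd {φ : E3 → ℝ} {x : E3} (h : ContDiffAt ℝ ∞ φ x) (i : Fin 3) :
    ContDiffAt ℝ ∞ (pd i φ) x :=
  (h.fderiv_right (m := ∞) (by simp)).clm_apply contDiffAt_const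

theorem eb4a_pd4 {φ : E4 → ℝ} {x : E4} (h : ContDiffAt ℝ ∞ φ x) (i : Fin 4) :
    ContDiffAt ℝ ∞ (H31R.pd i φ) x :=
  (h.fderiv_right (m := ∞) (by simp)).clm_apply contDiffAt_const

theorem eb4a_coord (i : Fin 3) {x : E3} : ContDiffAt ℝ ∞ (fun y : E3 => y i) x :=
  (EuclideanSpace.proj (𝕜 := ℝ) i).contDiff.contDiffAt

theorem eb4a_tang {f : E3 → ℝ} {x : E3} (hf : ContDiffAt ℝ ∞ f x) (i : Fin 3) (a : Fin 4) :
    ContDiffAt ℝ ∞ (fun y => tang f y i a) x := by
  refine Fin.cases ?_ (fun j => ?_) a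
  · exact eb4a_pd hf i
  · exact contDiffAt_const

theorem eb4a_conorm {f : E3 → ℝ} {x : E3} (hf : ContDiffAt ℝ ∞ f x) (a : Fin 4) :
    ContDiffAt ℝ ∞ (fun y => conorm f y a) x := by
  refine Fin.cases ?_ (fun j => ?_) a
  · exact contDiffAt_const
  · exact (eb4a_pd hf j).neg

theorem eb4a_slice {G : E4 → Matrix (Fin 4) (Fin 4) ℝ} {x : E3} (h : SlAt G f x) (i j : Fin 3) :
    ContDiffAt ℝ ∞ (fun y => slice G f y i j) x := by
  have hf := h.smooth
  show ContDiffAt ℝ ∞ (fun y => ∑ a, ∑ b, G (pt (f y) y) a b * tang f y i a * tang f y j b) x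
  refine ContDiffAt.sum fun a _ => ContDiffAt.sum fun b _ => ?_
  exact ((eb4a_comp (φ := fun p => G p a b) (h.met.smooth.self_of_nhds a b) hf).mul (eb4a_tang hf i a)).mul (eb4a_tang hf j b)

theorem eb4a_second {G : E4 → Matrix (Fin 4) (Fin 4) ℝ} {x : E3} (h : SlAt G f x) (i j : Fin 3) :
    ContDiffAt ℝ ∞ (fun y => second G f y i j) x := by
  have hf := h.smooth
  have hG := fun a b => h.met.smooth.self_of_nhds a b
  have hinv : ∀ a b, ContDiffAt ℝ ∞ (fun p => (G p)⁻¹ a b) (pt (f x) x) := fun a b =>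
    H31R.N_inv_at (fun a b => hG a b) h.met.nondeg a b
  have hchr : ∀ c a b, ContDiffAt ℝ ∞ (H31R.chr G c a b) (pt (f x) x) := by
    intro c a b
    refine contDiffAt_const.mul (ContDiffAt.sum fun l _ => (hinv c l).mul ?_)
    exact ((eb4a_pd4 (hG b l) a).add (eb4a_pd4 (hG a l) b)).sub (eb4a_pd4 (hG a b) l)
  have ht := H17W.conorm_time h
  refine ContDiffAt.div ?_ (ContDiffAt.sqrt ?_ ht.ne') (Real.sqrt_ne_zero'.2 ht)
  · refine (eb4a_pd (eb4a_pd hf j) i).add (ContDiffAt.sum fun c _ => ContDiffAt.sum fun a _ => ContDiffAt.sum fun b _ => ?_)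
    exact (((eb4a_comp (hchr c a b) hf).mul (eb4a_conorm hf c)).mul (eb4a_tang hf i a)).mul
      (eb4a_tang hf j b)
  · refine (ContDiffAt.sum fun a _ => ContDiffAt.sum fun b _ => ?_).neg
    exact ((eb4a_comp (hinv a b) hf).mul (eb4a_conorm hf a)).mul (eb4a_conorm hf b)

/-- Continuity of the densities, for a general metric (`H17V.dens_cont`; `H17V.slice_smooth`, `H17V.second_smooth` for `stMetric`): all the functions are smooth at a point where `SlAt` holds. -/
theorem dens_cont {G : E4 → Matrix (Fin 4) (Fin 4) ℝ} {x : E3} (h : SlAt G f x) (hx : x ≠ 0) (i : Fin 3) :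
    ContinuousAt (fluxDensity (slice G f)) x ∧ ContinuousAt (momDensity (slice G f) (second G f) i) x := by
  have hn : ∀ j : Fin 3, ContinuousAt (fun y : E3 => y j / ‖y‖) x := fun j =>
    (eb4a_coord j).continuousAt.div continuous_norm.continuousAt (norm_ne_zero_iff.2 hx)
  have hg := fun i j => eb4a_slice h i j
  have hdet := (H17W.slice_det h).ne'
  have hinv : ∀ a b, ContDiffAt ℝ ∞ (fun y => (slice G f y)⁻¹ a b) x := fun a b =>
    H31R.N_inv_at hg hdet a b
  constructor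
  · refine tendsto_finsetSum _ fun i _ => tendsto_finsetSum _ fun j _ => ?_
    exact ((eb4a_pd (hg i j) j).continuousAt.sub (eb4a_pd (hg j j) i).continuousAt).mul (hn i)
  · refine tendsto_finsetSum _ fun j _ => ?_
    refine ((eb4a_second h i j).continuousAt.sub (ContinuousAt.mul ?_ (hg i j).continuousAt)).mul (hn j)
    refine tendsto_finsetSum _ fun a _ => tendsto_finsetSum _ fun b _ => ?_
    exact (hinv a b).continuousAt.mul (eb4a_second h a b).continuousAt

end H74E
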