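import Pool.Agent.Lib.H17V.E3
import Pool.Agent.Lib.H74X.A3
import Pool.Agent.Lib.H74X.EB3
import Pool.Agent.Lib.H74X.EB4A
import Pool.Agent.Lib.H74X.KE2

set_option autoImplicit false

/-!
# H74X, chunk EB4B (S): flux density and mass

Auxiliary names start with `eb4b_`. Template: `H17V/E3.lean` (`energy_lim`, which can be copied), `H17V/F0.lean` (`dens_cont`).
-/

open MeasureTheory Filter Topology Set Asymptotics
open scoped ContDiff

namespace H74E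

open H17T H17B

open H17W (SlAt)

open H17V (BD QQ mhat)

open H74X (metric SpaceTime AsympFlatB sl_at)

open H74K (Kin)

open Pool.Agent.Lib.PenroseSph (E3 Tens S2 sm pd fluxDensity momDensity admFlux)

variable {R₀ β : ℝ} {D : Set (ℝ × ℝ)} {F : E4 → ℝ} {k : ℝ → ℝ} {r : ℝ × ℝ → ℝ} {H : E4 → Matrix (Fin 3) (Fin 3) ℝ}
  {U W : E4 → Fin 3 → ℝ} {f : E3 → ℝ}

/-- `|ρ² fluxDensity - 4 mhat| = O(1/ρ)`: `flux_cmp` and `H74K.flux_mhat`. -/
theorem flux_mhat (hS : H74X.Slice R₀ D F k r H U W f) (hA : Asy D F k r H U W f) (hf : ∀ i, Om 1 (pd i f))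
    (hK : Kin R₀ F k r f) {C R : ℝ} (hB : BD R₀ F k r f C R) :
    ∃ C' R' : ℝ, 0 ≤ C' ∧ R ≤ R' ∧ ∀ x : E3, R' ≤ ‖x‖ →
      |‖x‖ ^ 2 * fluxDensity (slice (metric F k r H U W) f) x - 4 * mhat F k r f x| ≤ C' / ‖x‖ := by
  obtain ⟨C₁, R₁, hC₁, hR₁, h1⟩ := H74K.flux_mhat hK hB
  obtain ⟨C₂, hC₂⟩ := (flux_cmp hS hA hf).bound
  obtain ⟨R₂, -, h2⟩ := (hasBasis_cobounded_norm (E := E3)).eventually_iff.1 hC₂
  refine ⟨C₁ + |C₂|, max R₁ (max R₂ 1), by positivity, hR₁.trans (le_max_left _ _), fun x hx => ?_⟩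
  have hx1 : R₁ ≤ ‖x‖ := (le_max_left _ _).trans hx
  have hx2 : R₂ ≤ ‖x‖ := (le_max_left _ _).trans ((le_max_right _ _).trans hx)
  have hx3 : 1 ≤ ‖x‖ := (le_max_right _ _).trans ((le_max_right _ _).trans hx)
  have hρ : 0 < ‖x‖ := lt_of_lt_of_le one_pos hx3
  have h3 := h1 x hx1
  have h4 := h2 hx2
  rw [Real.norm_eq_abs, Real.norm_of_nonneg (show (0 : ℝ) ≤ (‖x‖ ^ 3)⁻¹ by positivity)] at h4
  have h5 : |‖x‖ ^ 2 * (fluxDensity (slice (metric F k r H U W) f) x - fluxDensity (slice (stMetric F k r) f) x)| ≤ |C₂| / ‖x‖ := by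
    rw [abs_mul, abs_of_pos (show (0 : ℝ) < ‖x‖ ^ 2 by positivity)]
    calc ‖x‖ ^ 2 * |fluxDensity (slice (metric F k r H U W) f) x - fluxDensity (slice (stMetric F k r) f) x|
        ≤ ‖x‖ ^ 2 * (C₂ * (‖x‖ ^ 3)⁻¹) := mul_le_mul_of_nonneg_left h4 (by positivity)
      _ = C₂ / ‖x‖ := by field_simp
      _ ≤ |C₂| / ‖x‖ := div_le_div_of_nonneg_right (le_abs_self C₂) hρ.le
  have h6 : ‖x‖ ^ 2 * fluxDensity (slice (metric F k r H U W) f) x - 4 * mhat F k r f x =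
      (‖x‖ ^ 2 * fluxDensity (slice (stMetric F k r) f) x - 4 * mhat F k r f x) +
        ‖x‖ ^ 2 * (fluxDensity (slice (metric F k r H U W) f) x - fluxDensity (slice (stMetric F k r) f) x) := by ring
  rw [h6, add_div]
  exact (abs_add_le _ _).trans (add_le_add h3 h5)

end H74E
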