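import Pool.Agent.Lib.H17B.B5
import Pool.Agent.Lib.H17W.EG1
import Pool.Agent.Lib.H74X.EA2

set_option autoImplicit false

/-!
# H74X, chunk EC1A (S/M): Christoffel symbols to first order (port)

Auxiliary names start with `ec1a_`. Template: `H17W/EG1.lean` (`inv_metric`, `chr_exp`, `chr_sum`, `conorm_len`, `conorm_sqrt`, `second_exp`) with `m = 0`, `β = 0`, one order less.
-/

open MeasureTheory Filter Topology Set Asymptotics
open scoped ContDiff

namespace H74E

open H17T H17B

open Pool.Agent.Lib.PenroseSph (E3 Tens S2 sm pd)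

variable {f : E3 → ℝ} {G : E4 → Matrix (Fin 4) (Fin 4) ℝ}

/-- `H17B.inv_bigO`. -/
theorem inv_one (hG : ∀ a b, Sm f 1 fun p => G p a b - eta a b) (a b : Fin 4) :
    (fun x => (G (PP f x))⁻¹ a b - eta a b) =O[LL] fun x => ‖x‖⁻¹ := by
  have h := inv_bigO (A := fun x => G (PP f x)) (A0 := Matrix.of eta) b5_eta_det
    (fun i j => by
      have h1 := (hG i j).val
      simpa using h1) a b
  rw [b5_eta_inv] at h
  exact h

/-- The derivatives of the metric. -/
theorem ec1a_der (hG : ∀ a b, Sm f 1 fun p => G p a b - eta a b) (a b l : Fin 4) :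
    (fun x => H31R.pd l (fun p => G p a b) (PP f x)) =O[LL] fun x => (‖x‖ ^ 2)⁻¹ := by
  refine ((hG a b).der l).congr_left fun x => ?_
  unfold H31R.pd
  rw [fderiv_sub_const]

/-- The Christoffel symbols to first order. -/
theorem ec1a_chr (hG : ∀ a b, Sm f 1 fun p => G p a b - eta a b) (c a b : Fin 4) :
    (fun x => H31R.chr G c a b (PP f x) - 1 / 2 * (eta c c * (H31R.pd a (fun p => G p b c) (PP f x) + H31R.pd b (fun p => G p a c) (PP f x)
      - H31R.pd c (fun p => G p a b) (PP f x)))) =O[LL] fun x => (‖x‖ ^ 3)⁻¹ := by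
  have hI : ∀ l, (fun x => (G (PP f x))⁻¹ c l - eta c l) =O[LL] fun x => (‖x‖ ^ 1)⁻¹ := by
    intro l
    have h := inv_one hG c l
    simpa using h
  have h1 : ∀ l : Fin 4, (fun x => ((G (PP f x))⁻¹ c l - eta c l)
      * (H31R.pd a (fun y => G y b l) (PP f x) + H31R.pd b (fun y => G y a l) (PP f x)
        - H31R.pd l (fun y => G y a b) (PP f x))) =O[LL] fun x => (‖x‖ ^ 3)⁻¹ := by
    intro l
    exact b5_mul (by norm_num) (hI l) (((ec1a_der hG b l a).add (ec1a_der hG a l b)).sub (ec1a_der hG a b l))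
  have h3 := (b5_sum Finset.univ h1).const_mul_left (1 / 2 : ℝ)
  refine h3.congr_left fun x => ?_
  have e1 : ∑ l : Fin 4, eta c l * (H31R.pd a (fun y => G y b l) (PP f x) + H31R.pd b (fun y => G y a l) (PP f x)
        - H31R.pd l (fun y => G y a b) (PP f x)) = eta c c * (H31R.pd a (fun p => G p b c) (PP f x) + H31R.pd b (fun p => G p a c) (PP f x)
      - H31R.pd c (fun p => G p a b) (PP f x)) := by
    rw [Finset.sum_eq_single c]
    · intro l _ hl
      have : eta c l = 0 := by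
        simp [eta, hl.symm]
      rw [this, zero_mul]
    · intro h
      exact absurd (Finset.mem_univ c) h
  rw [H31R.chr, ← e1, ← mul_sub, ← Finset.sum_sub_distrib]
  congr 1
  refine Finset.sum_congr rfl fun l _ => ?_
  ring

/-- `Γ = O(ρ⁻²)`, and `Γ⁰_ij = -½ (∂_i G_j0 + ∂_j G_i0 - ∂_T G_ij) + O(ρ⁻³)`. -/
theorem chr_one (hG : ∀ a b, Sm f 1 fun p => G p a b - eta a b) (c a b : Fin 4) :
    (fun x => H31R.chr G c a b (PP f x)) =O[LL] fun x => (‖x‖ ^ 2)⁻¹ := by
  have h1 := (ec1a_chr hG c a b).trans (ex_pow_le (show 2 ≤ 3 by norm_num))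
  have h2 := ((((ec1a_der hG b c a).add (ec1a_der hG a c b)).sub (ec1a_der hG a b c)).const_mul_left (eta c c)).const_mul_left (1 / 2 : ℝ)
  refine (h1.add h2).congr_left fun x => ?_
  ring

theorem chr_zero (hG : ∀ a b, Sm f 1 fun p => G p a b - eta a b) (a b : Fin 4) :
    (fun x => H31R.chr G 0 a b (PP f x) + 1 / 2 * (H31R.pd a (fun p => G p b 0) (PP f x) + H31R.pd b (fun p => G p a 0) (PP f x)
      - H31R.pd 0 (fun p => G p a b) (PP f x))) =O[LL] fun x => (‖x‖ ^ 3)⁻¹ := by
  refine (ec1a_chr hG 0 a b).congr_left fun x => ?_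
  have e : eta 0 0 = -1 := by simp [eta]
  rw [e]
  ring

end H74E
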