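import Pool.Agent.Lib.H17B.B5
import Pool.Agent.Lib.H17W.EG1
import Pool.Agent.Lib.H74X.EA2
import Pool.Agent.Lib.H74X.EC1A

set_option autoImplicit false

/-!
# H74X, chunk EC1B (M): second fundamental form to first order (port)

Auxiliary names start with `ec1b_`. Template: `H17W/EG1.lean` (`inv_metric`, `chr_exp`, `chr_sum`, `conorm_len`, `conorm_sqrt`, `second_exp`) with `m = 0`, `β = 0`, one order less.
-/

open MeasureTheory Filter Topology Set Asymptotics
open scoped ContDiff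

namespace H74E

open H17T H17B

open Pool.Agent.Lib.PenroseSph (E3 Tens S2 sm pd)

variable {f : E3 → ℝ} {G : E4 → Matrix (Fin 4) (Fin 4) ℝ}

theorem ec1b_con (hf : ∀ i, pd i f =O[LL] fun x => ‖x‖⁻¹) (c : Fin 4) :
    (fun x => conorm f x c - (Fin.cons 1 (fun _ => 0) : Fin 4 → ℝ) c) =O[LL] fun x => ‖x‖⁻¹ := by
  refine Fin.cases ?_ (fun l => ?_) c
  · simp only [conorm, Fin.cons_zero, sub_self]
    exact isBigO_zero _ _
  · simp only [conorm, Fin.cons_succ]
    refine (hf l).neg_left.congr_left fun x => ?_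
    ring

theorem ec1b_tang (hf : ∀ i, pd i f =O[LL] fun x => ‖x‖⁻¹) (i : Fin 3) (c : Fin 4) :
    (fun x => tang f x i c - (Fin.cons 0 (fun l => dl l i) : Fin 4 → ℝ) c) =O[LL] fun x => ‖x‖⁻¹ := by
  refine Fin.cases ?_ (fun l => ?_) c
  · simp only [tang, Fin.cons_zero, sub_zero]
    exact hf i
  · simp only [tang, Fin.cons_succ, dl, sub_self]
    exact isBigO_zero _ _

/-- The numerator of the second fundamental form: the terms with `c ≠ 0`, or `a` or `b = 0`, contain a derivative of `f` (`conorm f x = (1, -∂f)`, `tang f x i = (∂_i f, e_i)`) and a Christoffel symbol. -/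
theorem sum_one (hG : ∀ a b, Sm f 1 fun p => G p a b - eta a b) (hf : ∀ i, pd i f =O[LL] fun x => ‖x‖⁻¹) (i j : Fin 3) :
    (fun x => (∑ c, ∑ a, ∑ b, H31R.chr G c a b (PP f x) * conorm f x c * tang f x i a * tang f x j b) +
      1 / 2 * (H31R.pd i.succ (fun p => G p j.succ 0) (PP f x) + H31R.pd j.succ (fun p => G p i.succ 0) (PP f x)
      - H31R.pd 0 (fun p => G p i.succ j.succ) (PP f x))) =O[LL] fun x => (‖x‖ ^ 3)⁻¹ := by
  set N' : Fin 4 → ℝ := Fin.cons 1 (fun _ => 0) with hN'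
  set t' : Fin 3 → Fin 4 → ℝ := fun i => Fin.cons 0 (fun l => dl l i) with ht'
  have hN : ∀ c, (fun x => conorm f x c - N' c) =O[LL] fun x => (‖x‖ ^ 1)⁻¹ := fun c => by
    simp only [pow_one]
    exact ec1b_con hf c
  have ht : ∀ i c, (fun x => tang f x i c - t' i c) =O[LL] fun x => (‖x‖ ^ 1)⁻¹ := fun i c => by
    simp only [pow_one]
    exact ec1b_tang hf i c
  have hN0 : ∀ c, (fun x => conorm f x c) =O[LL] fun x => (‖x‖ ^ 0)⁻¹ := fun c => b6b_bdd (hN c)
  have ht0 : ∀ i c, (fun x => tang f x i c) =O[LL] fun x => (‖x‖ ^ 0)⁻¹ := fun i c => b6b_bdd (ht i c)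
  have key : ∀ c a b, (fun x => (H31R.chr G c a b (PP f x) * (conorm f x c - N' c) * tang f x i a * tang f x j b
      + H31R.chr G c a b (PP f x) * N' c * (tang f x i a - t' i a) * tang f x j b)
      + H31R.chr G c a b (PP f x) * N' c * t' i a * (tang f x j b - t' j b)) =O[LL] fun x => (‖x‖ ^ 3)⁻¹ := by
    intro c a b
    have hc := chr_one hG c a b
    have h2 : (fun x => H31R.chr G c a b (PP f x) * (conorm f x c - N' c) * tang f x i a * tang f x j b)
        =O[LL] fun x => (‖x‖ ^ 3)⁻¹ :=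
      b5_mul (n := 3) (k := 0) (by norm_num) (b5_mul (n := 3) (k := 0) (by norm_num)
        (b5_mul (n := 2) (k := 1) (by norm_num) hc (hN c)) (ht0 i a)) (ht0 j b)
    have h3 : (fun x => H31R.chr G c a b (PP f x) * N' c * (tang f x i a - t' i a) * tang f x j b)
        =O[LL] fun x => (‖x‖ ^ 3)⁻¹ :=
      b5_mul (n := 3) (k := 0) (by norm_num) (b5_mul (n := 2) (k := 1) (by norm_num)
        (b5_mul (n := 2) (k := 0) (by norm_num) hc (b6b_one (N' c))) (ht i a)) (ht0 j b)
    have h4 : (fun x => H31R.chr G c a b (PP f x) * N' c * t' i a * (tang f x j b - t' j b))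
        =O[LL] fun x => (‖x‖ ^ 3)⁻¹ :=
      b5_mul (n := 2) (k := 1) (by norm_num) (b5_mul (n := 2) (k := 0) (by norm_num)
        (b5_mul (n := 2) (k := 0) (by norm_num) hc (b6b_one (N' c))) (b6b_one (t' i a))) (ht j b)
    exact (h2.add h3).add h4
  have h5 := b5_sum Finset.univ fun c => b5_sum Finset.univ fun a => b5_sum Finset.univ fun b => key c a b
  refine (h5.add (chr_zero hG i.succ j.succ)).congr_left fun x => ?_
  have e1 : ∑ c, ∑ a, ∑ b, H31R.chr G c a b (PP f x) * N' c * t' i a * t' j b = H31R.chr G 0 i.succ j.succ (PP f x) := by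
    rw [Fin.sum_univ_succ]
    have hz : ∀ c : Fin 3, ∑ a, ∑ b, H31R.chr G c.succ a b (PP f x) * N' c.succ * t' i a * t' j b = 0 := by
      intro c
      refine Finset.sum_eq_zero fun a _ => Finset.sum_eq_zero fun b _ => ?_
      rw [hN', Fin.cons_succ]
      ring
    rw [Finset.sum_eq_zero fun c _ => hz c, add_zero, Finset.sum_eq_single i.succ]
    · rw [Finset.sum_eq_single j.succ]
      · rw [hN', ht']
        simp [dl]
      · intro b _ hb
        have : t' j b = 0 := by
          rw [ht']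
          revert hb
          refine Fin.cases (fun _ => ?_) (fun l hl => ?_) b
          · simp
          · simp only [Fin.cons_succ, dl]
            rw [if_neg]
            intro h
            exact hl (by rw [h])
        rw [this, mul_zero]
      · intro h
        exact absurd (Finset.mem_univ _) h
    · intro a _ ha
      have : t' i a = 0 := by
        rw [ht']
        revert ha
        refine Fin.cases (fun _ => ?_) (fun l hl => ?_) a
        · simp
        · simp only [Fin.cons_succ, dl]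
          rw [if_neg]
          intro h
          exact hl (by rw [h])
      refine Finset.sum_eq_zero fun b _ => ?_
      rw [this]
      ring
    · intro h
      exact absurd (Finset.mem_univ _) h
  rw [← e1]
  have e2 : (∑ c, ∑ a, ∑ b, H31R.chr G c a b (PP f x) * conorm f x c * tang f x i a * tang f x j b) =
      (∑ c, ∑ a, ∑ b, ((H31R.chr G c a b (PP f x) * (conorm f x c - N' c) * tang f x i a * tang f x j b
      + H31R.chr G c a b (PP f x) * N' c * (tang f x i a - t' i a) * tang f x j b)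
      + H31R.chr G c a b (PP f x) * N' c * t' i a * (tang f x j b - t' j b))) +
      ∑ c, ∑ a, ∑ b, H31R.chr G c a b (PP f x) * N' c * t' i a * t' j b := by
    rw [← Finset.sum_add_distrib]
    refine Finset.sum_congr rfl fun c _ => ?_
    rw [← Finset.sum_add_distrib]
    refine Finset.sum_congr rfl fun a _ => ?_
    rw [← Finset.sum_add_distrib]
    refine Finset.sum_congr rfl fun b _ => ?_
    ring
  rw [e2]
  ring

/-- `1/√(-G⁻¹(N,N)) = 1 + O(1/ρ)`. -/
theorem sqrt_one (hG : ∀ a b, Sm f 1 fun p => G p a b - eta a b) (hf : ∀ i, pd i f =O[LL] fun x => ‖x‖⁻¹) :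
    (fun x => 1 / Real.sqrt (-∑ a, ∑ b, (G (PP f x))⁻¹ a b * conorm f x a * conorm f x b) - 1) =O[LL] fun x => ‖x‖⁻¹ := by
  have h : ∀ a b : Fin 4, (fun x => (G (PP f x))⁻¹ a b * conorm f x a * conorm f x b -
      eta a b * (Fin.cons 1 (fun _ => 0) : Fin 4 → ℝ) a * (Fin.cons 1 (fun _ => 0) : Fin 4 → ℝ) b)
      =O[LL] fun x => ‖x‖⁻¹ := fun a b =>
    b7a_mul (b7a_mul (inv_one hG a b) (ec1b_con hf a)) (ec1b_con hf b)
  have h2 : (fun x => ∑ a, ∑ b, ((G (PP f x))⁻¹ a b * conorm f x a * conorm f x b -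
      eta a b * (Fin.cons 1 (fun _ => 0) : Fin 4 → ℝ) a * (Fin.cons 1 (fun _ => 0) : Fin 4 → ℝ) b))
      =O[LL] fun x => ‖x‖⁻¹ :=
    IsBigO.fun_sum fun a _ => IsBigO.fun_sum fun b _ => h a b
  have e0 : (-∑ a, ∑ b, eta a b * (Fin.cons 1 (fun _ => 0) : Fin 4 → ℝ) a *
      (Fin.cons 1 (fun _ => 0) : Fin 4 → ℝ) b) = 1 := by
    have := b7a_eta 0
    simpa using this
  have h3 : (fun x => (-∑ a, ∑ b, (G (PP f x))⁻¹ a b * conorm f x a * conorm f x b) - 1) =O[LL] fun x => ‖x‖⁻¹ := by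
    refine h2.neg_left.congr_left fun x => ?_
    simp only [Finset.sum_sub_distrib]
    linarith [e0]
  have ht : Tendsto (fun x => -∑ a, ∑ b, (G (PP f x))⁻¹ a b * conorm f x a * conorm f x b) LL (𝓝 1) := by
    have h1 := h3.trans_tendsto b7a_zero
    have h2 := h1.add_const 1
    simpa using h2
  have hd : DifferentiableAt ℝ (fun s : ℝ => 1 / Real.sqrt s) 1 :=
    (differentiableAt_const _).div (Real.hasDerivAt_sqrt one_ne_zero).differentiableAt (Real.sqrt_pos.2 one_pos).ne'
  have h4 := (hd.isBigO_sub.comp_tendsto ht).trans h3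
  simpa [Function.comp_def] using h4

theorem second_one (hG : ∀ a b, Sm f 1 fun p => G p a b - eta a b) (hf : ∀ i, pd i f =O[LL] fun x => ‖x‖⁻¹)
    (hf2 : ∀ i j, pd i (pd j f) =O[LL] fun x => (‖x‖ ^ 2)⁻¹) (i j : Fin 3) :
    (fun x => second G f x i j - (pd i (pd j f) x - 1 / 2 * (H31R.pd i.succ (fun p => G p j.succ 0) (PP f x) +
      H31R.pd j.succ (fun p => G p i.succ 0) (PP f x) - H31R.pd 0 (fun p => G p i.succ j.succ) (PP f x)))) =O[LL]
        fun x => (‖x‖ ^ 3)⁻¹ := by
  have h1 := sum_one hG hf i j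
  have h2 := sqrt_one hG hf
  have h3 : (fun x => pd i (pd j f) x - 1 / 2 * (H31R.pd i.succ (fun p => G p j.succ 0) (PP f x) +
      H31R.pd j.succ (fun p => G p i.succ 0) (PP f x) - H31R.pd 0 (fun p => G p i.succ j.succ) (PP f x)))
      =O[LL] fun x => (‖x‖ ^ 2)⁻¹ :=
    (hf2 i j).sub ((((ec1a_der hG _ _ _).add (ec1a_der hG _ _ _)).sub (ec1a_der hG _ _ _)).const_mul_left (1 / 2 : ℝ))
  have h4 : (fun x => 1 / Real.sqrt (-∑ a, ∑ b, (G (PP f x))⁻¹ a b * conorm f x a * conorm f x b))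
      =O[LL] fun _ => (1 : ℝ) := by
    have h5 := (h2.trans b7a_one).add (isBigO_const_const (1 : ℝ) (one_ne_zero (α := ℝ)) LL)
    refine h5.congr_left fun x => ?_
    ring
  have e : ∀ x : E3, (‖x‖ ^ 2)⁻¹ * ‖x‖⁻¹ = (‖x‖ ^ 3)⁻¹ := fun x => by
    rw [← mul_inv, ← pow_succ]
  have h6 : (fun x => ((∑ c, ∑ a, ∑ b, H31R.chr G c a b (PP f x) * conorm f x c * tang f x i a * tang f x j b) +
      1 / 2 * (H31R.pd i.succ (fun p => G p j.succ 0) (PP f x) + H31R.pd j.succ (fun p => G p i.succ 0) (PP f x)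
      - H31R.pd 0 (fun p => G p i.succ j.succ) (PP f x))) *
      (1 / Real.sqrt (-∑ a, ∑ b, (G (PP f x))⁻¹ a b * conorm f x a * conorm f x b)) +
      (pd i (pd j f) x - 1 / 2 * (H31R.pd i.succ (fun p => G p j.succ 0) (PP f x) +
      H31R.pd j.succ (fun p => G p i.succ 0) (PP f x) - H31R.pd 0 (fun p => G p i.succ j.succ) (PP f x))) *
      (1 / Real.sqrt (-∑ a, ∑ b, (G (PP f x))⁻¹ a b * conorm f x a * conorm f x b) - 1))
      =O[LL] fun x => (‖x‖ ^ 3)⁻¹ := by
    refine IsBigO.add ?_ ?_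
    · have := h1.mul h4
      simpa using this
    · exact (h3.mul h2).congr_right e
  refine h6.congr_left fun x => ?_
  simp only [second, Matrix.of_apply]
  have e1 : pt (f x) x = PP f x := rfl
  rw [e1]
  ring

end H74E
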