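import Pool.Agent.Lib.H74X.EA2
import Pool.Agent.Lib.H17B.C3C
import Pool.Agent.Lib.H17W.EG6

set_option autoImplicit false

/-!
# H74X, chunk EC2 (S/M): the momentum density to first order

Auxiliary names start with `ec2_`. Template: `H17W/EG6.lean` (`mom_trace`, `mom_exp`).
-/

open MeasureTheory Filter Topology Set Asymptotics
open scoped ContDiff

namespace H74E

open H17T H17B
open Pool.Agent.Lib.PenroseSph (E3 Tens S2 sm pd trg momDensity)

/-- The trace with respect to `g`. -/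
theorem ec2_trace {g h : Tens} (hgv : ∀ a b, (fun y => g y a b - dl a b) =O[LL] fun y => ‖y‖⁻¹)
    (hhv : ∀ a b, (fun y => h y a b) =O[LL] fun y => (‖y‖ ^ 2)⁻¹) (i : Fin 3) :
    (fun y => momDensity g h i y - ∑ j, (h y i j - (∑ l, h y l l) * dl i j) * (y j / ‖y‖)) =O[LL] fun y => (‖y‖ ^ 3)⁻¹ := by
  have hgi : ∀ a b, (fun y => (g y)⁻¹ a b - dl a b) =O[LL] fun y => ‖y‖⁻¹ := by
    intro a b
    have h1 := inv_bigO (A := g) (A0 := 1) (by simp) (fun i j => by
      have h2 := hgv i j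
      simpa only [c3b_one] using h2) a b
    simpa only [inv_one, c3b_one] using h1
  have hT0 : (fun y => ∑ l, h y l l) =O[LL] fun y => (‖y‖ ^ 2)⁻¹ :=
    Asymptotics.IsBigO.fun_sum fun l _ => hhv l l
  have hT : (fun y => trg g h y - ∑ l, h y l l) =O[LL] fun y => (‖y‖ ^ 3)⁻¹ := by
    have h1 : (fun y => ∑ a, ∑ b, ((g y)⁻¹ a b - dl a b) * h y a b) =O[LL] fun y => (‖y‖ ^ 3)⁻¹ :=
      Asymptotics.IsBigO.fun_sum fun a _ => Asymptotics.IsBigO.fun_sum fun b _ => c3b_mul12 (hgi a b) (hhv a b)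
    refine h1.congr_left fun y => ?_
    unfold trg
    rw [c3b_trace (h y), ← Finset.sum_sub_distrib]
    refine Finset.sum_congr rfl fun a _ => ?_
    rw [← Finset.sum_sub_distrib]
    refine Finset.sum_congr rfl fun b _ => ?_
    ring
  have hmain : ∀ j, (fun y => -((trg g h y - ∑ l, h y l l) * g y i j + (∑ l, h y l l) * (g y i j - dl i j)) * (y j / ‖y‖))
      =O[LL] fun y => (‖y‖ ^ 3)⁻¹ := by
    intro j
    have hgb : (fun y => g y i j) =O[LL] fun _ => (1 : ℝ) := by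
      have h1 : (fun y => g y i j - dl i j) =O[LL] fun _ => (1 : ℝ) := (hgv i j).trans c3b_inv_one
      have h2 : (fun _ : E3 => dl i j) =O[LL] fun _ => (1 : ℝ) := Asymptotics.isBigO_const_const _ one_ne_zero _
      refine (h1.add h2).congr_left fun y => ?_
      ring
    have h1 : (fun y => (trg g h y - ∑ l, h y l l) * g y i j) =O[LL] fun y => (‖y‖ ^ 3)⁻¹ := by
      have h2 := hT.mul hgb
      simpa only [mul_one] using h2
    have h2 : (fun y => (∑ l, h y l l) * (g y i j - dl i j)) =O[LL] fun y => (‖y‖ ^ 3)⁻¹ := by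
      have h3 := c3b_mul12 (hgv i j) hT0
      refine h3.congr_left fun y => ?_
      ring
    have h3 := (h1.add h2).neg_left.mul (c3b_dir j)
    simpa only [mul_one] using h3
  have hall := Asymptotics.IsBigO.fun_sum (s := Finset.univ) fun j _ => hmain j
  refine hall.congr_left fun y => ?_
  unfold momDensity
  rw [← Finset.sum_sub_distrib]
  refine Finset.sum_congr rfl fun j _ => ?_
  ring

/-- `momDensity = Σ_j (K_ij - (tr_g K) g_ij) n_j` with `g = δ + O(1/ρ)`, `g⁻¹ = δ + O(1/ρ)` (`inv_bigO`), `K = L + O(ρ⁻³)`, `L = O(ρ⁻²)`. -/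
theorem mom_red {g K L : Tens} (hg : ∀ a b, (fun y => g y a b - dl a b) =O[LL] fun y => ‖y‖⁻¹)
    (hL : ∀ a b, (fun y => L y a b) =O[LL] fun y => (‖y‖ ^ 2)⁻¹) (hK : ∀ a b, (fun y => K y a b - L y a b) =O[LL] fun y => (‖y‖ ^ 3)⁻¹)
    (i : Fin 3) :
    (fun y => momDensity g K i y - ∑ j, (L y i j - (∑ l, L y l l) * dl i j) * (y j / ‖y‖)) =O[LL] fun y => (‖y‖ ^ 3)⁻¹ := by
  have hK2 : ∀ a b, (fun y => K y a b) =O[LL] fun y => (‖y‖ ^ 2)⁻¹ := by
    intro a b
    have h1 := ((hK a b).trans (ex_pow_le (show 2 ≤ 3 by norm_num))).add (hL a b)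
    refine h1.congr_left fun y => ?_
    ring
  have htr := ec2_trace hg hK2 i
  have htrace : (fun y => ∑ l, (K y l l - L y l l)) =O[LL] fun y => (‖y‖ ^ 3)⁻¹ :=
    IsBigO.fun_sum (fun (l : Fin 3) _ => hK l l)
  have hh : ∀ j : Fin 3, (fun y : E3 => ((K y i j - L y i j) - (∑ l, (K y l l - L y l l)) * dl i j) * (y j / ‖y‖))
      =O[LL] fun y : E3 => (‖y‖ ^ 3)⁻¹ := by
    intro j
    have h0 : (fun y => (∑ l, (K y l l - L y l l)) * dl i j) =O[LL] fun y => (‖y‖ ^ 3)⁻¹ := by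
      have h1 := htrace.const_mul_left (dl i j)
      refine h1.congr' (Filter.Eventually.of_forall fun y => ?_) EventuallyEq.rfl
      exact mul_comm _ _
    have h1 := ((hK i j).sub h0).mul (c3c_unit j)
    simpa using h1
  have hs : (fun y : E3 => ∑ j : Fin 3,
      ((K y i j - L y i j) - (∑ l, (K y l l - L y l l)) * dl i j) * (y j / ‖y‖)) =O[LL] fun y : E3 => (‖y‖ ^ 3)⁻¹ :=
    IsBigO.fun_sum (fun (j : Fin 3) _ => hh j)
  refine (htr.add hs).congr_left fun y => ?_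
  have hfin : ∑ j : Fin 3, ((K y i j - L y i j) - (∑ l, (K y l l - L y l l)) * dl i j) * (y j / ‖y‖)
      = ∑ j : Fin 3, (K y i j - (∑ l, K y l l) * dl i j) * (y j / ‖y‖)
        - ∑ j : Fin 3, (L y i j - (∑ l, L y l l) * dl i j) * (y j / ‖y‖) := by
    rw [← Finset.sum_sub_distrib]
    refine Finset.sum_congr rfl fun j _ => ?_
    rw [Finset.sum_sub_distrib]
    ring
  rw [hfin]
  ring

end H74E
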