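import Pool.Agent.Lib.H74X.EB3
import Pool.Agent.Lib.H74X.EC1

set_option autoImplicit false

/-!
# H74X, chunk EC3A (M): metric and r_T at infinity

Auxiliary names start with `ec3a_`. 
-/

open MeasureTheory Filter Topology Set Asymptotics
open scoped ContDiff

namespace H74E

open H17T H17B

open H74X (metric SpaceTime AsympFlatB)

open Pool.Agent.Lib.PenroseSph (E3 Tens S2 sm pd)

variable {R₀ β : ℝ} {D : Set (ℝ × ℝ)} {F : E4 → ℝ} {k : ℝ → ℝ} {r : ℝ × ℝ → ℝ} {H : E4 → Matrix (Fin 3) (Fin 3) ℝ}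
  {U W : E4 → Fin 3 → ℝ} {f : E3 → ℝ}

/-- The leading part of the second fundamental form. -/
noncomputable def Lm (F : E4 → ℝ) (r : ℝ × ℝ → ℝ) (H : E4 → Matrix (Fin 3) (Fin 3) ℝ) (U W : E4 → Fin 3 → ℝ) (f : E3 → ℝ) : Tens :=
  fun x => Matrix.of fun i j =>
    pd i (pd j f) x + 1 / 2 * (H31R.pd i.succ (fun p => U p j) (PP f x) + H31R.pd j.succ (fun p => U p i) (PP f x)) +
    1 / 2 * (H31R.pd 0 F (PP f x) * (x i / ‖x‖ * (x j / ‖x‖)) +
      2 * (fderiv ℝ r (qq f x) (1, 0) / ‖x‖) * (dl i j - x i / ‖x‖ * (x j / ‖x‖)) + H31R.pd 0 (fun p => H p i j) (PP f x) -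
      H31R.pd 0 (fun p => W p i) (PP f x) * (x j / ‖x‖) - H31R.pd 0 (fun p => W p j) (PP f x) * (x i / ‖x‖))

/-- The derivative of the radius function. -/
theorem ec3a_q {x : E3} (hx0 : 0 < ‖x‖) (hr : DifferentiableAt ℝ r (qq f x)) :
    HasFDerivAt (fun p : E4 => r (p 0, ‖pos p‖) / ‖pos p‖)
      ((‖x‖ ^ 2)⁻¹ • (‖x‖ • ((fderiv ℝ r (qq f x)).comp ((EuclideanSpace.proj (0 : Fin 4) : E4 →L[ℝ] ℝ).prod
        ((‖pos (PP f x)‖⁻¹ • innerSL ℝ (pos (PP f x))).comp b3b_pos))) -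
        r (qq f x) • ((‖pos (PP f x)‖⁻¹ • innerSL ℝ (pos (PP f x))).comp b3b_pos))) (PP f x) := by
  have hρ := b3b_rho (b3b_ne f hx0)
  have hn : ‖pos (PP f x)‖ ≠ 0 := norm_ne_zero_iff.2 (b3b_ne f hx0)
  have e2 : ((PP f x) 0, ‖pos (PP f x)‖) = qq f x := by
    rw [b3b_pp]
    rfl
  have h0 : HasFDerivAt (fun p : E4 => p 0) (EuclideanSpace.proj (0 : Fin 4) : E4 →L[ℝ] ℝ) (PP f x) :=
    (EuclideanSpace.proj (0 : Fin 4) : E4 →L[ℝ] ℝ).hasFDerivAt
  have hrr : HasFDerivAt r (fderiv ℝ r (qq f x)) ((PP f x) 0, ‖pos (PP f x)‖) := by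
    rw [e2]
    exact hr.hasFDerivAt
  have h1 := (hrr.comp (PP f x) (h0.prodMk hρ)).mul ((hasDerivAt_inv hn).comp_hasFDerivAt (PP f x) hρ)
  have e : (fun p : E4 => r (p 0, ‖pos p‖) / ‖pos p‖) = fun p : E4 => r (p 0, ‖pos p‖) * (‖pos p‖)⁻¹ := by
    funext p
    rw [div_eq_mul_inv]
  rw [e]
  refine h1.congr_fderiv ?_
  have hx0' : ‖x‖ ≠ 0 := hx0.ne'
  ext v
  simp only [add_apply, smul_apply, sub_apply, smul_eq_mul, e2, Function.comp_apply]
  rw [b3b_pp]
  field_simp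
  ring

/-- The time derivative of `r/ρ`. -/
theorem ec3a_qT {x : E3} (hx0 : 0 < ‖x‖) (hr : DifferentiableAt ℝ r (qq f x)) :
    H31R.pd 0 (fun p : E4 => r (p 0, ‖pos p‖) / ‖pos p‖) (PP f x) = fderiv ℝ r (qq f x) (1, 0) / ‖x‖ := by
  have hx0' : ‖x‖ ≠ 0 := hx0.ne'
  unfold H31R.pd
  rw [(ec3a_q hx0 hr).fderiv]
  simp only [smul_apply, sub_apply, smul_eq_mul]
  have ho : om x 0 = 0 := rfl
  have h5 : ((‖pos (PP f x)‖⁻¹ • innerSL ℝ (pos (PP f x))).comp b3b_pos) (H31R.ebas 0) = 0 := by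
    rw [b3b_ap, b3b_pp, ho]
  have h2 : ((fderiv ℝ r (qq f x)).comp ((EuclideanSpace.proj (0 : Fin 4) : E4 →L[ℝ] ℝ).prod
      ((‖pos (PP f x)‖⁻¹ • innerSL ℝ (pos (PP f x))).comp b3b_pos))) (H31R.ebas 0) = fderiv ℝ r (qq f x) (1, 0) := by
    have h3 : (EuclideanSpace.proj (0 : Fin 4) : E4 →L[ℝ] ℝ) (H31R.ebas 0) = 1 := by
      show (EuclideanSpace.single (0 : Fin 4) (1 : ℝ) : E4) 0 = _
      simp
    rw [ContinuousLinearMap.comp_apply, ContinuousLinearMap.prod_apply, h5, h3]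
  rw [h2, h5]
  field_simp
  ring

/-- `stMetric = η + Sm 1` (`H17T/Defs.lean`), and `cmp_00`, `cmp_0j`, `cmp_j0`, `cmp_ij`. -/
theorem met_one (hS : SpaceTime R₀ D F k r H U W) (hA : Asy D F k r H U W f) (a b : Fin 4) :
    Sm f 1 fun p => metric F k r H U W p a b - eta a b := by
  refine Fin.cases ?_ (fun i => ?_) a
  · refine Fin.cases ?_ (fun j => ?_) b
    · have h1 := ((cmp_00 hA).mono (show 1 ≤ 2 by norm_num)).sub hA.F_sm
      have e : (fun p => metric F k r H U W p 0 0 - eta 0 0) = fun p =>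
          metric F k r H U W p 0 0 - stMetric F k r p 0 0 - (F p - 1) := by
        funext p
        have h2 : stMetric F k r p 0 0 = -F p := rfl
        have h3 : eta 0 0 = -1 := by simp [eta]
        rw [h2, h3]
        ring
      rw [e]
      exact h1
    · have h1 := ((cmp_0j hS hA j).mono (show 1 ≤ 2 by norm_num)).sub (hA.U_sm j)
      have e : (fun p => metric F k r H U W p 0 j.succ - eta 0 j.succ) = fun p =>
          metric F k r H U W p 0 j.succ - stMetric F k r p 0 j.succ + U p j - U p j := by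
        funext p
        have h2 : stMetric F k r p 0 j.succ = 0 := rfl
        have h3 : eta 0 j.succ = 0 := by simp [eta, (Fin.succ_ne_zero j).symm]
        rw [h2, h3]
        ring
      rw [e]
      exact h1
  · refine Fin.cases ?_ (fun j => ?_) b
    · have h1 := ((cmp_j0 hS hA i).mono (show 1 ≤ 2 by norm_num)).sub (hA.U_sm i)
      have e : (fun p => metric F k r H U W p i.succ 0 - eta i.succ 0) = fun p =>
          metric F k r H U W p i.succ 0 - stMetric F k r p i.succ 0 + U p i - U p i := by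
        funext p
        have h2 : stMetric F k r p i.succ 0 = 0 := rfl
        have h3 : eta i.succ 0 = 0 := by simp [eta, Fin.succ_ne_zero i]
        rw [h2, h3]
        ring
      rw [e]
      exact h1
    · have hk1 : Sm f 1 fun p => (k ‖pos p‖) ^ 2 - 1 := by
        have h1 := ((hA.k_sm.mul hA.k_sm).mono (show 1 ≤ 1 + 1 by norm_num)).add (hA.k_sm.const_mul 2)
        have e : (fun p : E4 => (k ‖pos p‖ - 1) * (k ‖pos p‖ - 1) + 2 * (k ‖pos p‖ - 1)) = fun p => (k ‖pos p‖) ^ 2 - 1 := by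
          funext p
          ring
        rwa [e] at h1
      have hFk : Sm f 1 fun p => F p * k ‖pos p‖ ^ 2 - 1 := by
        have h1 := (((hA.F_sm.mul hk1).mono (show 1 ≤ 1 + 1 by norm_num)).add hA.F_sm).add hk1
        have e : (fun p : E4 => (F p - 1) * ((k ‖pos p‖) ^ 2 - 1) + (F p - 1) + ((k ‖pos p‖) ^ 2 - 1)) =
            fun p => F p * k ‖pos p‖ ^ 2 - 1 := by
          funext p
          ring
        rwa [e] at h1
      have hnn : Sm f 0 fun p => un i p * un j p := (Sm.un f i).mul (Sm.un f j)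
      have h1 : Sm f 1 fun p => (F p * k ‖pos p‖ ^ 2 - 1) * (un i p * un j p) := hFk.mul hnn
      have h2 : Sm f 1 fun p => ((r (p 0, ‖pos p‖) / ‖pos p‖) ^ 2 - 1) * ((if i = j then 1 else 0) - un i p * un j p) :=
        (q_sm hA).mul ((Sm.const f _).sub hnn)
      have h3 : Sm f 1 fun p => W p i * un j p := (hA.W_sm i).mul (Sm.un f j)
      have h4 : Sm f 1 fun p => W p j * un i p := (hA.W_sm j).mul (Sm.un f i)
      have h5 := (((cmp_ij hS hA i j).mono (show 1 ≤ 2 by norm_num)).add (((hA.H_sm i j).sub h3).sub h4)).add (h1.add h2)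
      have e : (fun p => metric F k r H U W p i.succ j.succ - eta i.succ j.succ) = fun p =>
          (metric F k r H U W p i.succ j.succ - stMetric F k r p i.succ j.succ - (KK H i j p - W p i * un j p - W p j * un i p)) +
          (KK H i j p - W p i * un j p - W p j * un i p) +
          ((F p * k ‖pos p‖ ^ 2 - 1) * (un i p * un j p) +
          ((r (p 0, ‖pos p‖) / ‖pos p‖) ^ 2 - 1) * ((if i = j then 1 else 0) - un i p * un j p)) := by
        funext p
        have h7 : stMetric F k r p i.succ j.succ = F p * k ‖pos p‖ ^ 2 * (un i p * un j p) +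
          (r (p 0, ‖pos p‖) / ‖pos p‖) ^ 2 * ((if i = j then 1 else 0) - un i p * un j p) := rfl
        have h8 : eta i.succ j.succ = if i = j then 1 else 0 := by
          simp [eta, Fin.succ_inj]
        rw [h7, h8]
        ring
      rw [e]
      exact h5

/-- `∂_T ((r/ρ)²) = 2 r_T/ρ + O(ρ⁻³)` at the events of the slice, `r_T/ρ = O(ρ⁻²)`. -/
theorem rT_exp (hS : SpaceTime R₀ D F k r H U W) (hA : Asy D F k r H U W f) :
    (fun x => H31R.pd 0 (fun p => (r (p 0, ‖pos p‖) / ‖pos p‖) ^ 2) (PP f x) - 2 * (fderiv ℝ r (qq f x) (1, 0) / ‖x‖)) =O[LL]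
      (fun x => (‖x‖ ^ 3)⁻¹) ∧
    (fun x => fderiv ℝ r (qq f x) (1, 0) / ‖x‖) =O[LL] fun x => (‖x‖ ^ 2)⁻¹ := by
  have hev : ∀ᶠ x in LL, 0 < ‖x‖ ∧ DifferentiableAt ℝ r (qq f x) := by
    filter_upwards [hA.dom, tendsto_norm_cobounded_atTop.eventually_gt_atTop (0 : ℝ)] with x hx hx0
    have e2 : ((PP f x) 0, ‖pos (PP f x)‖) = qq f x := by
      rw [b3b_pp]
      rfl
    rw [e2] at hx
    exact ⟨hx0, (hS.r_smooth _ hx).differentiableAt (by simp)⟩
  have h2 : (fun x => fderiv ℝ r (qq f x) (1, 0) / ‖x‖) =O[LL] fun x => (‖x‖ ^ 2)⁻¹ := by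
    refine IsBigO.congr' (hA.r_sm.der 0) ?_ EventuallyEq.rfl
    filter_upwards [hev] with x hx
    rw [← ec3a_qT hx.1 hx.2]
    unfold H31R.pd
    rw [fderiv_sub_const]
  refine ⟨?_, h2⟩
  have h3 : (fun x => 2 * ((fun p : E4 => r (p 0, ‖pos p‖) / ‖pos p‖ - 1) (PP f x) * (fderiv ℝ r (qq f x) (1, 0) / ‖x‖))) =O[LL]
      fun x => (‖x‖ ^ 3)⁻¹ := by
    refine IsBigO.const_mul_left ?_ _
    refine (hA.r_sm.val.mul h2).congr_right fun x => ?_
    rw [← mul_inv, ← pow_add]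
  refine IsBigO.congr' h3 ?_ EventuallyEq.rfl
  filter_upwards [hev] with x hx
  have hd := (ec3a_q hx.1 hx.2).differentiableAt
  have e1 : H31R.pd 0 (fun p => (r (p 0, ‖pos p‖) / ‖pos p‖) ^ 2) (PP f x) =
      2 * (r ((PP f x) 0, ‖pos (PP f x)‖) / ‖pos (PP f x)‖) * H31R.pd 0 (fun p => r (p 0, ‖pos p‖) / ‖pos p‖) (PP f x) := by
    unfold H31R.pd
    have e2 : (fun p : E4 => (r (p 0, ‖pos p‖) / ‖pos p‖) ^ 2) = fun p : E4 =>
        (r (p 0, ‖pos p‖) / ‖pos p‖) * (r (p 0, ‖pos p‖) / ‖pos p‖) := by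
      funext p
      ring
    rw [e2, fderiv_fun_mul hd hd]
    simp only [add_apply, smul_apply, smul_eq_mul]
    ring
  rw [e1, ec3a_qT hx.1 hx.2]
  ring

end H74E
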