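import Pool.Agent.Lib.H74X.EB3
import Pool.Agent.Lib.H74X.EC1
import Pool.Agent.Lib.H74X.EC3A

set_option autoImplicit false

/-!
# H74X, chunk EC3B (M): second fundamental form of the slice

Auxiliary names start with `ec3b_`. 
-/

open MeasureTheory Filter Topology Set Asymptotics
open scoped ContDiff

namespace H74E

open H17T H17B

open H74X (metric SpaceTime AsympFlatB)

open Pool.Agent.Lib.PenroseSph (E3 Tens S2 sm pd)

variable {R₀ β : ℝ} {D : Set (ℝ × ℝ)} {F : E4 → ℝ} {k : ℝ → ℝ} {r : ℝ × ℝ → ℝ} {H : E4 → Matrix (Fin 3) (Fin 3) ℝ}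
  {U W : E4 → Fin 3 → ℝ} {f : E3 → ℝ}

/-- The derivative of the directions. -/
theorem ec3b_un (f : E3 → ℝ) {x : E3} (hx0 : 0 < ‖x‖) (i : Fin 3) : HasFDerivAt (un i)
    ((‖x‖ ^ 2)⁻¹ • (‖x‖ • (EuclideanSpace.proj (i.succ : Fin 4) : E4 →L[ℝ] ℝ) -
      x i • ((‖pos (PP f x)‖⁻¹ • innerSL ℝ (pos (PP f x))).comp b3b_pos))) (PP f x) := by
  have hr := b3b_rho (b3b_ne f hx0)
  have hn : ‖pos (PP f x)‖ ≠ 0 := norm_ne_zero_iff.2 (b3b_ne f hx0)
  have h0 : HasFDerivAt (fun p : E4 => pos p i) (EuclideanSpace.proj (i.succ : Fin 4) : E4 →L[ℝ] ℝ) (PP f x) := by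
    have e : (fun p : E4 => pos p i) = fun p : E4 => (EuclideanSpace.proj (i.succ : Fin 4) : E4 →L[ℝ] ℝ) p := by
      funext p
      rw [t0_pos_apply]
      rfl
    rw [e]
    exact (EuclideanSpace.proj (i.succ : Fin 4) : E4 →L[ℝ] ℝ).hasFDerivAt
  have h1 := h0.mul ((hasDerivAt_inv hn).comp_hasFDerivAt (PP f x) hr)
  have e : un i = fun p : E4 => pos p i * (‖pos p‖)⁻¹ := by
    funext p
    unfold un
    rw [div_eq_mul_inv]
  rw [e]
  refine h1.congr_fderiv ?_
  have hx0' : ‖x‖ ≠ 0 := hx0.ne'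
  ext v
  simp only [add_apply, smul_apply, sub_apply, smul_eq_mul, Function.comp_apply]
  rw [b3b_pp]
  field_simp
  ring

theorem ec3b_pdun (f : E3 → ℝ) {x : E3} (hx0 : 0 < ‖x‖) (i : Fin 3) (a : Fin 4) :
    H31R.pd a (un i) (PP f x) = ((if i.succ = a then 1 else 0) - x i / ‖x‖ * om x a) / ‖x‖ := by
  have hx0' : ‖x‖ ≠ 0 := hx0.ne'
  have h1 : H31R.pd a (un i) (PP f x) =
      (‖x‖ ^ 2)⁻¹ * (‖x‖ * (if i.succ = a then (1 : ℝ) else 0) - x i * om x a) := by
    unfold H31R.pd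
    rw [(ec3b_un f hx0 i).fderiv]
    simp only [smul_apply, sub_apply, smul_eq_mul]
    rw [b3b_ap, b3b_pp]
    have h3 : (EuclideanSpace.proj (i.succ : Fin 4) : E4 →L[ℝ] ℝ) (H31R.ebas a) =
        if i.succ = a then (1 : ℝ) else 0 := by
      show (EuclideanSpace.single a (1 : ℝ) : E4) i.succ = _
      rw [PiLp.single_apply]
    rw [h3]
  rw [h1]
  field_simp

/-- The directions do not depend on the time. -/
theorem ec3b_un0 (f : E3 → ℝ) {x : E3} (hx0 : 0 < ‖x‖) (i : Fin 3) : H31R.pd 0 (un i) (PP f x) = 0 := by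
  rw [ec3b_pdun f hx0 i 0, if_neg (Fin.succ_ne_zero i)]
  have : om x 0 = 0 := rfl
  rw [this]
  simp

/-- A function of the radius does not depend on the time. -/
theorem ec3b_k0 {x : E3} (h : DifferentiableAt ℝ (fun p : E4 => k ‖pos p‖) (PP f x)) :
    H31R.pd 0 (fun p : E4 => k ‖pos p‖) (PP f x) = 0 := by
  unfold H31R.pd
  have h1 := h.hasFDerivAt.hasLineDerivAt (H31R.ebas 0)
  have h2 : HasLineDerivAt ℝ (fun p : E4 => k ‖pos p‖) 0 (PP f x) (H31R.ebas 0) := by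
    have e : (fun t : ℝ => k ‖pos (PP f x + t • H31R.ebas 0)‖) = fun _ => k ‖pos (PP f x)‖ := by
      funext t
      have e2 : pos (PP f x + t • (H31R.ebas 0 : E4)) = pos (PP f x) := by
        ext j
        rw [t0_pos_apply, t0_pos_apply, PiLp.add_apply, PiLp.smul_apply]
        have e3 : (H31R.ebas (0 : Fin 4) : E4) j.succ = 0 := by
          show (EuclideanSpace.single (0 : Fin 4) (1 : ℝ) : E4) j.succ = 0
          rw [PiLp.single_apply, if_neg (Fin.succ_ne_zero j)]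
        rw [e3, smul_zero, add_zero]
      rw [e2]
    unfold HasLineDerivAt
    rw [e]
    exact hasDerivAt_const _ _
  exact h1.unique h2

theorem ec3b_mul {φ ψ : E4 → ℝ} {p : E4} (h : DifferentiableAt ℝ φ p) (h' : DifferentiableAt ℝ ψ p) (a : Fin 4) :
    H31R.pd a (fun q => φ q * ψ q) p = H31R.pd a φ p * ψ p + φ p * H31R.pd a ψ p := by
  unfold H31R.pd
  rw [fderiv_fun_mul h h']
  simp only [add_apply, smul_apply, smul_eq_mul]
  ring

theorem ec3b_add {φ ψ : E4 → ℝ} {p : E4} (h : DifferentiableAt ℝ φ p) (h' : DifferentiableAt ℝ ψ p) (a : Fin 4) :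
    H31R.pd a (fun q => φ q + ψ q) p = H31R.pd a φ p + H31R.pd a ψ p := by
  unfold H31R.pd
  rw [fderiv_fun_add h h']
  rfl

theorem ec3b_sub {φ ψ : E4 → ℝ} {p : E4} (h : DifferentiableAt ℝ φ p) (h' : DifferentiableAt ℝ ψ p) (a : Fin 4) :
    H31R.pd a (fun q => φ q - ψ q) p = H31R.pd a φ p - H31R.pd a ψ p := by
  unfold H31R.pd
  rw [fderiv_fun_sub h h']
  rfl

theorem ec3b_subc (φ : E4 → ℝ) (c : ℝ) (a : Fin 4) (p : E4) : H31R.pd a (fun q => φ q - c) p = H31R.pd a φ p := by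
  unfold H31R.pd
  rw [fderiv_sub_const]

/-- The differentiability of the functions at the events of the slice. -/
theorem ec3b_diff (hA : Asy D F k r H U W f) : ∀ᶠ x in LL, 0 < ‖x‖ ∧ DifferentiableAt ℝ F (PP f x) ∧
    DifferentiableAt ℝ (fun p : E4 => k ‖pos p‖) (PP f x) ∧
    DifferentiableAt ℝ (fun p : E4 => (r (p 0, ‖pos p‖) / ‖pos p‖) ^ 2) (PP f x) ∧
    (∀ i j, DifferentiableAt ℝ (fun p => H p i j) (PP f x)) ∧ (∀ i, DifferentiableAt ℝ (fun p => U p i) (PP f x)) ∧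
    (∀ i, DifferentiableAt ℝ (fun p => W p i) (PP f x)) ∧ ∀ i, DifferentiableAt ℝ (un i) (PP f x) := by
  have hH : ∀ᶠ x in LL, ∀ i j, DifferentiableAt ℝ (fun p => H p i j) (PP f x) := by
    rw [eventually_all]
    intro i
    rw [eventually_all]
    exact fun j => (H_zero hA i j).diff
  have hU : ∀ᶠ x in LL, ∀ i, DifferentiableAt ℝ (fun p => U p i) (PP f x) := by
    rw [eventually_all]
    exact fun i => (hA.U_sm i).diff
  have hW : ∀ᶠ x in LL, ∀ i, DifferentiableAt ℝ (fun p => W p i) (PP f x) := by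
    rw [eventually_all]
    exact fun i => (hA.W_sm i).diff
  have hn : ∀ᶠ x in LL, ∀ i, DifferentiableAt ℝ (un i) (PP f x) := by
    rw [eventually_all]
    exact fun i => (Sm.un f i).diff
  filter_upwards [hH, hU, hW, hn, hA.F_sm.diff, hA.k_sm.diff, (q_zero hA).diff,
    tendsto_norm_cobounded_atTop.eventually_gt_atTop (0 : ℝ)] with x h1 h2 h3 h4 h5 h6 h7 h8
  refine ⟨h8, ?_, ?_, h7, h1, h2, h3, h4⟩
  · have := h5.add_const 1
    simpa using this
  · have := h6.add_const 1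
    simpa using this

/-- The time derivative of the spatial components: `∂_T G_ij = F_T n_i n_j + 2 (r_T/ρ) (δ_ij - n_i n_j) + ∂_T H_ij - ∂_T W_i n_j - ∂_T W_j n_i + O(ρ⁻³)` (`cmp_ij`, `stMetric`,
the directions do not depend on `T`). -/
theorem dT_exp (hS : SpaceTime R₀ D F k r H U W) (hA : Asy D F k r H U W f) (i j : Fin 3) :
    (fun x => H31R.pd 0 (fun p => metric F k r H U W p i.succ j.succ) (PP f x) -
      (H31R.pd 0 F (PP f x) * (x i / ‖x‖ * (x j / ‖x‖)) +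
      2 * (fderiv ℝ r (qq f x) (1, 0) / ‖x‖) * (dl i j - x i / ‖x‖ * (x j / ‖x‖)) + H31R.pd 0 (fun p => H p i j) (PP f x) -
      H31R.pd 0 (fun p => W p i) (PP f x) * (x j / ‖x‖) - H31R.pd 0 (fun p => W p j) (PP f x) * (x i / ‖x‖))) =O[LL]
        fun x => (‖x‖ ^ 3)⁻¹ := by
  have hk1 : Sm f 1 fun p => (k ‖pos p‖) ^ 2 - 1 := by
    have h1 := ((hA.k_sm.mul hA.k_sm).mono (show 1 ≤ 1 + 1 by norm_num)).add (hA.k_sm.const_mul 2)
    have e : (fun p : E4 => (k ‖pos p‖ - 1) * (k ‖pos p‖ - 1) + 2 * (k ‖pos p‖ - 1)) = fun p => (k ‖pos p‖) ^ 2 - 1 := by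
      funext p
      ring
    rwa [e] at h1
  have hF0 : (fun x => H31R.pd 0 F (PP f x)) =O[LL] fun x => (‖x‖ ^ 2)⁻¹ := by
    refine (hA.F_sm.der 0).congr_left fun x => ?_
    exact ec3b_subc F 1 0 _
  have hnn : ∀ i j, (fun x : E3 => x i / ‖x‖ * (x j / ‖x‖)) =O[LL] fun x => (‖x‖ ^ 0)⁻¹ := fun i j =>
    ((Om.un i).mul (Om.un j)).val
  -- the terms of third order
  have b1 := ((cmp_ij hS hA i j).der 0)
  have b2 : (fun x => H31R.pd 0 F (PP f x) * ((fun p : E4 => (k ‖pos p‖) ^ 2 - 1) (PP f x)) * (x i / ‖x‖ * (x j / ‖x‖))) =O[LL]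
      fun x => (‖x‖ ^ 3)⁻¹ := b5_mul (n := 3) (k := 0) (by norm_num) (b5_mul (n := 2) (k := 1) (by norm_num) hF0 hk1.val) (hnn i j)
  have b3 : (fun x => (H31R.pd 0 (fun p => (r (p 0, ‖pos p‖) / ‖pos p‖) ^ 2) (PP f x) - 2 * (fderiv ℝ r (qq f x) (1, 0) / ‖x‖)) *
      (dl i j - x i / ‖x‖ * (x j / ‖x‖))) =O[LL] fun x => (‖x‖ ^ 3)⁻¹ :=
    b5_mul (n := 3) (k := 0) (by norm_num) (rT_exp hS hA).1 ((b6b_one (dl i j)).sub (hnn i j))
  refine IsBigO.congr' ((b1.add b2).add b3) ?_ EventuallyEq.rfl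
  filter_upwards [ec3b_diff hA, (cmp_ij hS hA i j).diff] with x hx hc
  obtain ⟨hx0, hF, hk, hq, hH, hU, hW, hn⟩ := hx
  have e0 : ∀ l, un l (PP f x) = x l / ‖x‖ := fun l => by
    unfold un
    rw [b3b_pp]
  -- the difference
  have hKK : DifferentiableAt ℝ (fun p => KK H i j p - W p i * un j p - W p j * un i p) (PP f x) :=
    (((hH i j).sub_const _).fun_sub ((hW i).fun_mul (hn j))).fun_sub ((hW j).fun_mul (hn i))
  have hst : DifferentiableAt ℝ (fun p => stMetric F k r p i.succ j.succ) (PP f x) := by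
    have e : (fun p => stMetric F k r p i.succ j.succ) = fun p => F p * (k ‖pos p‖ * k ‖pos p‖) * (un i p * un j p) +
        (r (p 0, ‖pos p‖) / ‖pos p‖) ^ 2 * ((if i = j then 1 else 0) - un i p * un j p) := by
      funext p
      rw [← sq]
      rfl
    rw [e]
    exact ((hF.fun_mul (hk.fun_mul hk)).fun_mul ((hn i).fun_mul (hn j))).fun_add
      (hq.fun_mul ((differentiableAt_const _).fun_sub ((hn i).fun_mul (hn j))))
  have hG : H31R.pd 0 (fun p => metric F k r H U W p i.succ j.succ) (PP f x) =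
      H31R.pd 0 (fun p => metric F k r H U W p i.succ j.succ - stMetric F k r p i.succ j.succ -
      (KK H i j p - W p i * un j p - W p j * un i p)) (PP f x) + H31R.pd 0 (fun p => stMetric F k r p i.succ j.succ) (PP f x) +
      H31R.pd 0 (fun p => KK H i j p - W p i * un j p - W p j * un i p) (PP f x) := by
    rw [← ec3b_add hc hst, ← ec3b_add (hc.fun_add hst) hKK]
    congr 1
    funext p
    ring
  have hK0 : H31R.pd 0 (fun p => KK H i j p - W p i * un j p - W p j * un i p) (PP f x) =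
      H31R.pd 0 (fun p => H p i j) (PP f x) - H31R.pd 0 (fun p => W p i) (PP f x) * (x j / ‖x‖) -
        H31R.pd 0 (fun p => W p j) (PP f x) * (x i / ‖x‖) := by
    have hKd : DifferentiableAt ℝ (fun p => KK H i j p) (PP f x) := (hH i j).sub_const _
    rw [ec3b_sub (hKd.fun_sub ((hW i).fun_mul (hn j))) ((hW j).fun_mul (hn i)),
      ec3b_sub hKd ((hW i).fun_mul (hn j)), ec3b_mul (hW i) (hn j), ec3b_mul (hW j) (hn i),
      ec3b_un0 f hx0, ec3b_un0 f hx0, e0, e0]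
    have e : H31R.pd 0 (KK H i j) (PP f x) = H31R.pd 0 (fun p => H p i j) (PP f x) := ec3b_subc (fun p => H p i j) _ 0 _
    have e' : H31R.pd 0 (fun p => KK H i j p) (PP f x) = H31R.pd 0 (fun p => H p i j) (PP f x) := e
    rw [e']
    ring
  have hst0 : H31R.pd 0 (fun p => stMetric F k r p i.succ j.succ) (PP f x) =
      H31R.pd 0 F (PP f x) * (k ‖pos (PP f x)‖) ^ 2 * (x i / ‖x‖ * (x j / ‖x‖)) +
      H31R.pd 0 (fun p => (r (p 0, ‖pos p‖) / ‖pos p‖) ^ 2) (PP f x) * (dl i j - x i / ‖x‖ * (x j / ‖x‖)) := by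
    have e : (fun p => stMetric F k r p i.succ j.succ) = fun p => F p * (k ‖pos p‖ * k ‖pos p‖) * (un i p * un j p) +
        (r (p 0, ‖pos p‖) / ‖pos p‖) ^ 2 * ((if i = j then 1 else 0) - un i p * un j p) := by
      funext p
      rw [← sq]
      rfl
    have hnn0 : H31R.pd 0 (fun p => un i p * un j p) (PP f x) = 0 := by
      rw [ec3b_mul (hn i) (hn j), ec3b_un0 f hx0, ec3b_un0 f hx0]
      ring
    have hc0 : H31R.pd 0 (fun p => (if i = j then (1 : ℝ) else 0) - un i p * un j p) (PP f x) = 0 := by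
      rw [ec3b_sub (differentiableAt_const _) ((hn i).fun_mul (hn j)), hnn0]
      simp [H31R.pd]
    rw [e, ec3b_add ((hF.fun_mul (hk.fun_mul hk)).fun_mul ((hn i).fun_mul (hn j)))
      (hq.fun_mul ((differentiableAt_const _).fun_sub ((hn i).fun_mul (hn j)))),
      ec3b_mul (hF.fun_mul (hk.fun_mul hk)) ((hn i).fun_mul (hn j)), hnn0,
      ec3b_mul hq ((differentiableAt_const _).fun_sub ((hn i).fun_mul (hn j))), hc0,
      ec3b_mul hF (hk.fun_mul hk), ec3b_mul hk hk, ec3b_k0 hk, e0, e0]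
    unfold dl
    ring
  rw [hG, hK0, hst0]
  ring

/-- `second_one`, `cmp_j0` (`stMetric` has no components `j0`, so `∂_i G_j0 = - ∂_i U_j + O(ρ⁻³)`), `dT_exp`. -/
theorem second_exp (hS : SpaceTime R₀ D F k r H U W) (hA : Asy D F k r H U W f) (hf : ∀ i, Om 1 (pd i f)) (i j : Fin 3) :
    (fun x => second (metric F k r H U W) f x i j - Lm F r H U W f x i j) =O[LL] fun x => (‖x‖ ^ 3)⁻¹ := by
  have h1 := second_one (fun a b => met_one hS hA a b) (fun i => by
    have := (hf i).val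
    simpa using this) hA.f_two i j
  have hG : ∀ i j : Fin 3, (fun x => H31R.pd i.succ (fun p => metric F k r H U W p j.succ 0) (PP f x) +
      H31R.pd i.succ (fun p => U p j) (PP f x)) =O[LL] fun x => (‖x‖ ^ 3)⁻¹ := by
    intro i j
    refine IsBigO.congr' ((cmp_j0 hS hA j).der i.succ) ?_ EventuallyEq.rfl
    filter_upwards [ec3b_diff hA, (cmp_j0 hS hA j).diff] with x hx hc
    obtain ⟨-, -, -, -, -, hU, -, -⟩ := hx
    have e : (fun p => metric F k r H U W p j.succ 0) = fun p =>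
        (metric F k r H U W p j.succ 0 - stMetric F k r p j.succ 0 + U p j) - U p j := by
      funext p
      have h2 : stMetric F k r p j.succ 0 = 0 := rfl
      rw [h2]
      ring
    rw [e, ec3b_sub hc (hU j)]
    ring
  have h2 := ((hG i j).add (hG j i)).const_mul_left (-(1 / 2) : ℝ)
  have h3 := (dT_exp hS hA i j).const_mul_left (1 / 2 : ℝ)
  refine ((h1.add h2).add h3).congr_left fun x => ?_
  simp only [Lm, Matrix.of_apply]
  ring

theorem Lm_two (hS : SpaceTime R₀ D F k r H U W) (hA : Asy D F k r H U W f) (i j : Fin 3) :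
    (fun x => Lm F r H U W f x i j) =O[LL] fun x => (‖x‖ ^ 2)⁻¹ := by
  have hF0 : (fun x => H31R.pd 0 F (PP f x)) =O[LL] fun x => (‖x‖ ^ 2)⁻¹ := by
    refine (hA.F_sm.der 0).congr_left fun x => ?_
    exact ec3b_subc F 1 0 _
  have hnn : (fun x : E3 => x i / ‖x‖ * (x j / ‖x‖)) =O[LL] fun x => (‖x‖ ^ 0)⁻¹ := ((Om.un i).mul (Om.un j)).val
  have hH0 : (fun x => H31R.pd 0 (fun p => H p i j) (PP f x)) =O[LL] fun x => (‖x‖ ^ 2)⁻¹ := by
    refine ((hA.H_sm i j).der 0).congr_left fun x => ?_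
    exact ec3b_subc (fun p => H p i j) _ 0 _
  have c1 := (((hA.U_sm j).der i.succ).add ((hA.U_sm i).der j.succ)).const_mul_left (1 / 2 : ℝ)
  have c2 := b5_mul (l := 2) (by norm_num) hF0 hnn
  have c3 := b5_mul (l := 2) (by norm_num) ((rT_exp hS hA).2.const_mul_left 2) ((b6b_one (dl i j)).sub hnn)
  have c4 := b5_mul (l := 2) (by norm_num) ((hA.W_sm i).der 0) (Om.un j).val
  have c5 := b5_mul (l := 2) (by norm_num) ((hA.W_sm j).der 0) (Om.un i).val
  have c6 := ((((c2.add c3).add hH0).sub c4).sub c5).const_mul_left (1 / 2 : ℝ)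
  refine (((hA.f_two i j).add c1).add c6).congr_left fun x => ?_
  simp only [Lm, Matrix.of_apply]

end H74E
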