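import Pool.Agent.Lib.H74X.EC2
import Pool.Agent.Lib.H74X.EC3

set_option autoImplicit false

/-!
# H74X, chunk EC4A (M): contraction of the leading part

Auxiliary names start with `ec4a_`. 
-/

open MeasureTheory Filter Topology Set Asymptotics
open scoped ContDiff

namespace H74E

open H17T H17B

open H74X (metric SpaceTime AsympFlatB)

open Pool.Agent.Lib.PenroseSph (E3 Tens S2 sm pd momDensity)

variable {R₀ β : ℝ} {D : Set (ℝ × ℝ)} {F : E4 → ℝ} {k : ℝ → ℝ} {r : ℝ × ℝ → ℝ} {H : E4 → Matrix (Fin 3) (Fin 3) ℝ}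
  {U W : E4 → Fin 3 → ℝ} {f : E3 → ℝ}

/-- The part of the momentum density which depends on the shifts. -/
noncomputable def Xm (U W : E4 → Fin 3 → ℝ) (f : E3 → ℝ) (i : Fin 3) (x : E3) : ℝ :=
  1 / 2 * ((∑ j, x j / ‖x‖ * H31R.pd j.succ (fun p => U p i) (PP f x)) - U (PP f x) i / ‖x‖) -
    1 / 2 * H31R.pd 0 (fun p => W p i) (PP f x)

/-- The induced metric is `δ + O(1/ρ)` (`H17G.slice_split`, `met_one`, `∂f = O(1/ρ)`). -/
theorem slice_one (hS : SpaceTime R₀ D F k r H U W) (hA : Asy D F k r H U W f) (hf : ∀ i, Om 1 (pd i f)) (i j : Fin 3) :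
    (fun x => slice (metric F k r H U W) f x i j - dl i j) =O[LL] fun x => ‖x‖⁻¹ := by
  have hb : ∀ a b, (fun x => metric F k r H U W (PP f x) a b) =O[LL] fun x => (‖x‖ ^ 0)⁻¹ := fun a b =>
    b6b_bdd (met_one hS hA a b).val
  have c1 := (met_one hS hA i.succ j.succ).val
  have c2 := (b5_mul (n := 0) (k := 2) (l := 2) (by norm_num) (hb 0 0)
    (b5_mul (l := 2) (by norm_num) (hf i).val (hf j).val)).trans (ex_pow_le (show 1 ≤ 2 by norm_num))
  have c3 := b5_mul (l := 1) (by norm_num) (hb 0 j.succ) (hf i).val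
  have c4 := b5_mul (l := 1) (by norm_num) (hb i.succ 0) (hf j).val
  have h := ((c1.add c2).add c3).add c4
  have h' : (fun x => slice (metric F k r H U W) f x i j - dl i j) =O[LL] fun x => (‖x‖ ^ 1)⁻¹ := by
    refine h.congr_left fun x => ?_
    have e : eta i.succ j.succ = dl i j := by
      simp [eta, dl, Fin.succ_inj]
    rw [H17G.slice_split, e]
    ring
  simpa using h'

/-- The algebra of the contraction. -/
theorem ec4a_alg (A u' ht : Fin 3 → Fin 3 → ℝ) (u wt n : Fin 3 → ℝ) (ρ' FT R : ℝ) (hn : ∑ j, n j * n j = 1)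
    (hA : ∀ i j, A i j = A j i) (hu : ∀ i, ∑ j, u' i j * n j = -(u i * ρ')) (hdiv : ∑ j, u' j j = 0)
    (hh : ∀ i, ∑ j, ht i j * n j = 0) (hw : ∑ j, n j * wt j = 0) (L : Fin 3 → Fin 3 → ℝ)
    (hL : ∀ i j, L i j = A i j + 1 / 2 * (u' i j + u' j i) + 1 / 2 * (FT * (n i * n j) + 2 * R * (dl i j - n i * n j) + ht i j -
      wt i * n j - wt j * n i)) (i : Fin 3) :
    (∑ j, (L i j - (∑ l, L l l) * dl i j) * n j) -
      ((∑ j, (A j i * n j - A j j * n i)) - 2 * R * n i + (1 / 2 * ((∑ j, n j * u' j i) - u i * ρ') - 1 / 2 * wt i)) =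
      -(1 / 2) * ((∑ j, ht j j) * n i) := by
  have h1 := hu i
  have h2 := hh i
  have a0 := hA i 0
  have a1 := hA i 1
  have a2 := hA i 2
  have hi : i = 0 ∨ i = 1 ∨ i = 2 := by
    fin_cases i <;> simp
  simp only [Fin.sum_univ_three, hL] at hn hdiv hw h1 h2 ⊢
  rcases hi with rfl | rfl | rfl
  · simp only [dl, if_true, if_neg (show ¬(0 : Fin 3) = 1 by decide), if_neg (show ¬(0 : Fin 3) = 2 by decide)]
    linear_combination n 1 * a1 + n 2 * a2 + 1 / 2 * h1 + 1 / 2 * h2 - 1 / 2 * wt 0 * hn + 1 / 2 * n 0 * hw - n 0 * hdiv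
  · simp only [dl, if_true, if_neg (show ¬(1 : Fin 3) = 0 by decide), if_neg (show ¬(1 : Fin 3) = 2 by decide)]
    linear_combination n 0 * a0 + n 2 * a2 + 1 / 2 * h1 + 1 / 2 * h2 - 1 / 2 * wt 1 * hn + 1 / 2 * n 1 * hw - n 1 * hdiv
  · simp only [dl, if_true, if_neg (show ¬(2 : Fin 3) = 0 by decide), if_neg (show ¬(2 : Fin 3) = 1 by decide)]
    linear_combination n 0 * a0 + n 1 * a1 + 1 / 2 * h1 + 1 / 2 * h2 - 1 / 2 * wt 2 * hn + 1 / 2 * n 2 * hw - n 2 * hdiv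

theorem ec4a_symm {f : E3 → ℝ} {x : E3} (hf : ContDiffAt ℝ ∞ f x) (i j : Fin 3) :
    pd i (pd j f) x = pd j (pd i f) x := by
  have hs : IsSymmSndFDerivAt ℝ f x := hf.isSymmSndFDerivAt (by simp; norm_cast)
  have hd : DifferentiableAt ℝ (fderiv ℝ f) x :=
    (hf.fderiv_right (m := ∞) (by simp)).differentiableAt (by simp)
  have key : ∀ a b : Fin 3, pd a (pd b f) x
      = fderiv ℝ (fderiv ℝ f) x (EuclideanSpace.single a 1) (EuclideanSpace.single b 1) := by
    intro a b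
    unfold pd
    rw [fderiv_clm_apply hd (differentiableAt_const _)]
    simp
  rw [key, key, hs]

theorem ec4a_sum {φ : Fin 3 → E4 → ℝ} {p : E4} (h : ∀ i, DifferentiableAt ℝ (φ i) p) (a : Fin 4) :
    H31R.pd a (fun q => ∑ i, φ i q) p = ∑ i, H31R.pd a (φ i) p := by
  unfold H31R.pd
  rw [fderiv_fun_sum fun i _ => h i]
  simp only [sum_apply]

theorem ec4a_zero {φ : E4 → ℝ} {p : E4} (h : ∀ᶠ q in 𝓝 p, φ q = 0) (a : Fin 4) : H31R.pd a φ p = 0 := by
  have h1 : φ =ᶠ[𝓝 p] fun _ => (0 : ℝ) := h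
  unfold H31R.pd
  rw [h1.fderiv_eq]
  simp

/-- The contraction of the leading part. With `n = x/ρ` at an event of the slice of large radius, from `rel_ev` by differentiation (these relations hold near the event):
`Σ_j ∂_i U_j n_j = - U_i/ρ` (from `Σ_j U_j x_j = 0`), `Σ_j ∂_j U_i n_j = ∂_n U_i`, `div U = 0`, `Σ_j ∂_T H_ij n_j = 0`, `Σ_j ∂_T W_j n_j = 0`, `Σ_j n_j n_j = 1`, and `Σ_j ∂_T H_jj = O(ρ⁻³)`
(`tr_sm`). So `Σ_j (L_ij - (tr L) δ_ij) n_j = Σ_j (f_ij n_j - f_jj n_i) - 2 (r_T/ρ) n_i + Xm_i - ½ (Σ_j ∂_T H_jj) n_i`. -/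
theorem Lm_con (hS : SpaceTime R₀ D F k r H U W) (hA : Asy D F k r H U W f) (i : Fin 3) :
    (fun x => (∑ j, (Lm F r H U W f x i j - (∑ l, Lm F r H U W f x l l) * dl i j) * (x j / ‖x‖)) -
      ((∑ j, (pd j (pd i f) x * (x j / ‖x‖) - pd j (pd j f) x * (x i / ‖x‖))) -
        2 * (fderiv ℝ r (qq f x) (1, 0) / ‖x‖) * (x i / ‖x‖) + Xm U W f i x)) =O[LL] fun x => (‖x‖ ^ 3)⁻¹ := by
  have hb : (fun x => -(1 / 2) * (H31R.pd 0 (fun p => ∑ i, KK H i i p) (PP f x) * (x i / ‖x‖))) =O[LL] fun x => (‖x‖ ^ 3)⁻¹ :=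
    (b5_mul (l := 3) (by norm_num) ((tr_sm hS hA).der 0) (Om.un i).val).const_mul_left _
  refine IsBigO.congr' hb ?_ EventuallyEq.rfl
  filter_upwards [ec3b_diff hA, rel_ev hS hA, div_ev hS hA, hA.f_smooth] with x hx hrel hdiv hfs
  obtain ⟨hx0, -, -, -, hH, hU, hW, hn⟩ := hx
  have hx0' : ‖x‖ ≠ 0 := hx0.ne'
  have e0 : ∀ l, un l (PP f x) = x l / ‖x‖ := fun l => by
    unfold un
    rw [b3b_pp]
  have hKd : ∀ i j, DifferentiableAt ℝ (fun p => KK H i j p) (PP f x) := fun i j => (hH i j).sub_const _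
  have hK0 : ∀ i j, H31R.pd 0 (fun p => KK H i j p) (PP f x) = H31R.pd 0 (fun p => H p i j) (PP f x) := fun i j =>
    ec3b_subc (fun p => H p i j) _ 0 _
  have hself := hrel.self_of_nhds
  obtain ⟨-, -, r1, r2, r3⟩ := hself
  simp only [e0] at r1 r2 r3
  -- the derivative of the relation for U
  have hu : ∀ i, ∑ j, H31R.pd i.succ (fun p => U p j) (PP f x) * (x j / ‖x‖) = -(U (PP f x) i * ‖x‖⁻¹) := by
    intro i
    have h1 : H31R.pd i.succ (fun p => ∑ j, un j p * U p j) (PP f x) = 0 := by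
      refine ec4a_zero ?_ _
      filter_upwards [hrel] with p hp
      exact hp.2.2.1
    rw [ec4a_sum fun j => (hn j).fun_mul (hU j)] at h1
    simp only [ec3b_mul (hn _) (hU _), ec3b_pdun f hx0, e0] at h1
    rw [Finset.sum_add_distrib] at h1
    have h2 : ∑ j : Fin 3, ((if j.succ = i.succ then (1 : ℝ) else 0) - x j / ‖x‖ * om x i.succ) / ‖x‖ * U (PP f x) j = U (PP f x) i * ‖x‖⁻¹ := by
      have e : ∀ j : Fin 3, ((if j.succ = i.succ then (1 : ℝ) else 0) - x j / ‖x‖ * om x i.succ) / ‖x‖ * U (PP f x) j =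
          (if j = i then U (PP f x) j * ‖x‖⁻¹ else 0) - (om x i.succ * ‖x‖⁻¹) * (x j / ‖x‖ * U (PP f x) j) := by
        intro j
        by_cases hji : j = i
        · rw [if_pos (by rw [hji]), if_pos hji]
          ring
        · rw [if_neg (fun h => hji (Fin.succ_inj.1 h)), if_neg hji]
          ring
      rw [Finset.sum_congr rfl fun j _ => e j, Finset.sum_sub_distrib, ← Finset.mul_sum, r1]
      simp
    rw [h2] at h1
    have h3 : ∑ j, H31R.pd i.succ (fun p => U p j) (PP f x) * (x j / ‖x‖) =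
        ∑ j, x j / ‖x‖ * H31R.pd i.succ (fun p => U p j) (PP f x) :=
      Finset.sum_congr rfl fun j _ => mul_comm _ _
    rw [h3]
    linarith
  have hh : ∀ i, ∑ j, H31R.pd 0 (fun p => H p i j) (PP f x) * (x j / ‖x‖) = 0 := by
    intro i
    have h1 : H31R.pd 0 (fun p => ∑ j, KK H i j p * un j p) (PP f x) = 0 := by
      refine ec4a_zero ?_ _
      filter_upwards [hrel] with p hp
      exact hp.1 i
    rw [ec4a_sum fun j => (hKd i j).fun_mul (hn j)] at h1
    simp only [ec3b_mul (hKd _ _) (hn _), ec3b_un0 f hx0, e0, hK0, mul_zero, add_zero] at h1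
    exact h1
  have hw : ∑ j, x j / ‖x‖ * H31R.pd 0 (fun p => W p j) (PP f x) = 0 := by
    have h1 : H31R.pd 0 (fun p => ∑ j, un j p * W p j) (PP f x) = 0 := by
      refine ec4a_zero ?_ _
      filter_upwards [hrel] with p hp
      exact hp.2.2.2.1
    rw [ec4a_sum fun j => (hn j).fun_mul (hW j)] at h1
    simp only [ec3b_mul (hn _) (hW _), ec3b_un0 f hx0, e0, zero_mul, zero_add] at h1
    exact h1
  have htr : H31R.pd 0 (fun p => ∑ i, KK H i i p) (PP f x) = ∑ j, H31R.pd 0 (fun p => H p j j) (PP f x) := by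
    rw [ec4a_sum fun j => hKd j j]
    exact Finset.sum_congr rfl fun j _ => hK0 j j
  rw [htr]
  have halg := ec4a_alg (fun i j => pd i (pd j f) x) (fun i j => H31R.pd i.succ (fun p => U p j) (PP f x))
    (fun i j => H31R.pd 0 (fun p => H p i j) (PP f x)) (fun i => U (PP f x) i) (fun i => H31R.pd 0 (fun p => W p i) (PP f x))
    (fun i => x i / ‖x‖) ‖x‖⁻¹ (H31R.pd 0 F (PP f x)) (fderiv ℝ r (qq f x) (1, 0) / ‖x‖) r3 (fun i j => ec4a_symm hfs i j) hu hdiv.1 hh hw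
    (fun i j => Lm F r H U W f x i j) (fun i j => by simp only [Lm, Matrix.of_apply]) i
  rw [← halg]
  unfold Xm
  rw [div_eq_mul_inv (U (PP f x) i)]

end H74E
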