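import Pool.Agent.Lib.H74X.EC2
import Pool.Agent.Lib.H74X.EC3
import Pool.Agent.Lib.H74X.EC4A

set_option autoImplicit false

/-!
# H74X, chunk EC4B (S): momentum density

Auxiliary names start with `ec4b_`. 
-/

open MeasureTheory Filter Topology Set Asymptotics
open scoped ContDiff

namespace H74E

open H17T H17B

open H74X (metric SpaceTime AsympFlatB)

open Pool.Agent.Lib.PenroseSph (E3 Tens S2 sm pd momDensity)

variable {R₀ β : ℝ} {D : Set (ℝ × ℝ)} {F : E4 → ℝ} {k : ℝ → ℝ} {r : ℝ × ℝ → ℝ} {H : E4 → Matrix (Fin 3) (Fin 3) ℝ}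
  {U W : E4 → Fin 3 → ℝ} {f : E3 → ℝ}

/-- `mom_red` with `slice_one`, `Lm_two`, `second_exp`; `Lm_con`. -/
theorem mom_exp (hS : SpaceTime R₀ D F k r H U W) (hA : Asy D F k r H U W f) (hf : ∀ i, Om 1 (pd i f)) (i : Fin 3) :
    (fun x => momDensity (slice (metric F k r H U W) f) (second (metric F k r H U W) f) i x -
      ((∑ j, (pd j (pd i f) x * (x j / ‖x‖) - pd j (pd j f) x * (x i / ‖x‖))) -
        2 * (fderiv ℝ r (qq f x) (1, 0) / ‖x‖) * (x i / ‖x‖) + Xm U W f i x)) =O[LL] fun x => (‖x‖ ^ 3)⁻¹ := by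
  have h1 := mom_red (fun a b => slice_one hS hA hf a b) (fun a b => Lm_two hS hA a b) (fun a b => second_exp hS hA hf a b) i
  refine (h1.add (Lm_con hS hA i)).congr_left fun x => ?_
  ring

end H74E
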