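import Pool.Agent.Lib.H17V.D2B
import Pool.Agent.Lib.H17W.C1
import Pool.Agent.Lib.H74X.A5
import Pool.Agent.Lib.H74X.BS

set_option autoImplicit false

/-!
# H74X, chunk EC5A (S/M): mean zero of divergence free fields

Auxiliary names start with `ec5a_`. 
-/

open MeasureTheory Filter Topology Set
open scoped ContDiff

namespace H74E

open H17T (E4 pt pos ev)

open H74X (VV dY phi div_field param_fderiv param_smooth)

open Pool.Agent.Lib.PenroseSph (E3 Tens S2 sm pd)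

variable {D : Set (ℝ × ℝ)} {V : E4 → Fin 3 → ℝ} {q : ℝ × ℝ}

theorem ec5a_norm (n : S2) : ‖(n : E3)‖ = 1 := Pool.Agent.Lib.PenroseSph.norm_S2 n

theorem ec5a_ne (n : S2) : (n : E3) ≠ 0 := by
  intro h0
  have := ec5a_norm n
  rw [h0, norm_zero] at this
  exact zero_ne_one this

theorem ec5a_phi (q : ℝ × ℝ) (n : S2) : phi (q.1, q.2, (n : E3)) = ev q n := by
  unfold phi ev
  simp only
  rw [ec5a_norm n, div_one]

theorem ec5a_pos (q : ℝ × ℝ) (y : E3) : pos (phi (q.1, q.2, y)) = (q.2 / ‖y‖) • y := H17T.pos_pt _ _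

theorem ec5a_dom (hR : ∀ q ∈ D, 0 < q.2) (hq : q ∈ D) {y : E3} (hy : y ≠ 0) :
    (phi (q.1, q.2, y) 0, ‖pos (phi (q.1, q.2, y))‖) ∈ D := by
  have hρ : 0 < q.2 := hR _ hq
  have hn : 0 < ‖y‖ := norm_pos_iff.2 hy
  have h1 : ‖pos (phi (q.1, q.2, y))‖ = q.2 := by
    rw [ec5a_pos, norm_smul, Real.norm_eq_abs, abs_of_pos (div_pos hρ hn), div_mul_cancel₀ _ hn.ne']
  have h2 : phi (q.1, q.2, y) 0 = q.1 := by
    unfold phi
    exact H17T.pt_zero _ _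
  rw [h1, h2]
  exact hq

/-- `V_j(phi)` is smooth. -/
theorem ec5a_smV (hR : ∀ q ∈ D, 0 < q.2)
    (hV : ∀ p : E4, (p 0, ‖pos p‖) ∈ D → ∀ i, ContDiffAt ℝ ∞ (fun q => V q i) p)
    (hq : q ∈ D) (j : Fin 3) {y : E3} (hy : y ≠ 0) : ContDiffAt ℝ ∞ (fun p : VV => V (phi p) j) (q.1, q.2, y) := by
  have h1 : ContDiffAt ℝ ∞ phi (q.1, q.2, y) := H74X.phi_smooth (p := (q.1, q.2, y)) hy
  exact (hV _ (ec5a_dom hR hq hy) j).comp (q.1, q.2, y) h1

theorem ec5a_smB (hR : ∀ q ∈ D, 0 < q.2)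
    (hV : ∀ p : E4, (p 0, ‖pos p‖) ∈ D → ∀ i, ContDiffAt ℝ ∞ (fun q => V q i) p)
    (hq : q ∈ D) (j : Fin 3) {y : E3} (hy : y ≠ 0) :
    ContDiffAt ℝ ∞ (fun p : VV => ‖p.2.2‖ * V (phi p) j) (q.1, q.2, y) := by
  have h3 : ContDiffAt ℝ ∞ (fun p : VV => p.2.2) (q.1, q.2, y) := contDiffAt_snd.comp _ contDiffAt_snd
  have h4 : ContDiffAt ℝ ∞ (fun p : VV => ‖p.2.2‖) (q.1, q.2, y) := h3.norm ℝ hy
  exact h4.mul (ec5a_smV hR hV hq j hy)

theorem ec5a_smA (i : Fin 3) {y : E3} (hy : y ≠ 0) : ContDiffAt ℝ ∞ (fun y : E3 => (‖y‖ ^ 4)⁻¹ * y i) y := by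
  have h1 : ContDiffAt ℝ ∞ (fun y : E3 => ‖y‖) y := contDiffAt_id.norm ℝ hy
  have h2 : ContDiffAt ℝ ∞ (fun y : E3 => y i) y := (EuclideanSpace.proj (𝕜 := ℝ) i : E3 →L[ℝ] ℝ).contDiff.contDiffAt
  exact ((h1.pow 4).inv (pow_ne_zero 4 (norm_ne_zero_iff.2 hy))).mul h2

/-- derivative of `y_i/|y|⁴` at a unit vector -/
theorem ec5a_pdA (i j : Fin 3) (n : S2) :
    pd j (fun y : E3 => (‖y‖ ^ 4)⁻¹ * y i) n = (if i = j then 1 else 0) - 4 * (n : E3) i * (n : E3) j := by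
  have hn := ec5a_norm n
  have a1 : HasFDerivAt (fun y : E3 => ‖y‖ ^ 2) (2 • innerSL ℝ (n : E3)) (n : E3) :=
    (hasStrictFDerivAt_norm_sq (n : E3)).hasFDerivAt
  have a2 : HasDerivAt (fun t : ℝ => (t ^ 2)⁻¹) (-2) (‖(n : E3)‖ ^ 2) := by
    rw [hn]
    have h1 : HasDerivAt (fun t : ℝ => (t ^ 2)⁻¹) _ ((1 : ℝ) ^ 2) := (hasDerivAt_pow 2 ((1 : ℝ) ^ 2)).inv (by norm_num)
    refine h1.congr_deriv ?_
    norm_num
  have a3 := a2.comp_hasFDerivAt (n : E3) a1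
  have a4 : HasFDerivAt (fun y : E3 => y i) (EuclideanSpace.proj (𝕜 := ℝ) i : E3 →L[ℝ] ℝ) (n : E3) :=
    (EuclideanSpace.proj (𝕜 := ℝ) i : E3 →L[ℝ] ℝ).hasFDerivAt
  have a5 := a3.mul a4
  have e : (fun y : E3 => (‖y‖ ^ 4)⁻¹ * y i) = fun y => ((fun t : ℝ => (t ^ 2)⁻¹) ∘ fun y : E3 => ‖y‖ ^ 2) y * y i := by
    funext y
    simp only [Function.comp_apply]
    rw [← pow_mul]
  unfold Pool.Agent.Lib.PenroseSph.pd
  rw [e, HasFDerivAt.fderiv (f := fun y => ((fun t : ℝ => (t ^ 2)⁻¹) ∘ fun y : E3 => ‖y‖ ^ 2) y * y i) a5]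
  simp only [ContinuousLinearMap.add_apply, ContinuousLinearMap.smul_apply, smul_eq_mul, Function.comp_apply, hn,
    innerSL_apply_apply, EuclideanSpace.inner_single_right]
  have h2 : (EuclideanSpace.proj (𝕜 := ℝ) i : E3 →L[ℝ] ℝ) (EuclideanSpace.single j (1 : ℝ)) = if i = j then 1 else 0 := by
    show (EuclideanSpace.single j (1 : ℝ) : E3) i = _
    simp
  rw [h2]
  simp
  ring

/-- `H17W.flux` for `Z_j(y) = |y|⁻⁴ y_i v_j(y)`, `v_j(y) = |y| V_j(Φ(T, ρ, y))` (`phi`), which is homogeneous of degree `-2`; at `|y| = 1` its divergence is `v_i + y_i div v - 4 y_i (y·v) = v_i`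
(`div_field` with `c = 1`, `y·v = 0`), and `v_i(n) = V_i(ev q n)` (`phi (q.1, q.2, n) = ev q n` for `|n| = 1`). -/
theorem mean_zero (hO : IsOpen D) (hR : ∀ q ∈ D, 0 < q.2)
    (hV : ∀ p : E4, (p 0, ‖pos p‖) ∈ D → ∀ i, ContDiffAt ℝ ∞ (fun q => V q i) p)
    (htan : ∀ p : E4, (p 0, ‖pos p‖) ∈ D → ∑ i, pos p i * V p i = 0)
    (hdiv : ∀ p : E4, (p 0, ‖pos p‖) ∈ D → ∑ i : Fin 3, H31R.pd i.succ (fun q => V q i) p = 0)
    (hq : q ∈ D) (i : Fin 3) : ∫ n : S2, V (ev q n) i ∂sm = 0 := by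
  have hρ : 0 < q.2 := hR _ hq
  have h1 := H17W.flux (Z := fun y j => (‖y‖ ^ 4)⁻¹ * y i * (‖y‖ * V (phi (q.1, q.2, y)) j)) ?_ ?_
  · rw [← h1]
    refine integral_congr_ae (Eventually.of_forall fun n => ?_)
    have hn := ec5a_norm n
    have hn0 := ec5a_ne n
    have hB : ∀ j, DifferentiableAt ℝ (fun p : VV => ‖p.2.2‖ * V (phi p) j) (q.1, q.2, (n : E3)) := fun j =>
      (ec5a_smB hR hV hq j hn0).differentiableAt (by norm_num)
    have hB' : ∀ j, DifferentiableAt ℝ (fun y : E3 => ‖y‖ * V (phi (q.1, q.2, y)) j) (n : E3) := fun j =>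
      (H74X.sm_leaf (p := (q.1, q.2, (n : E3))) (ec5a_smB hR hV hq j hn0)).differentiableAt (by norm_num)
    have hA : DifferentiableAt ℝ (fun y : E3 => (‖y‖ ^ 4)⁻¹ * y i) (n : E3) :=
      (ec5a_smA i hn0).differentiableAt (by norm_num)
    have e1 : ∀ j, pd j (fun y : E3 => (‖y‖ ^ 4)⁻¹ * y i * (‖y‖ * V (phi (q.1, q.2, y)) j)) n =
        (n : E3) i * pd j (fun y : E3 => ‖y‖ * V (phi (q.1, q.2, y)) j) n +
          V (ev q n) j * ((if i = j then 1 else 0) - 4 * (n : E3) i * (n : E3) j) := by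
      intro j
      rw [← ec5a_pdA i j n]
      have h2 := (hA.hasFDerivAt.mul (hB' j).hasFDerivAt).fderiv
      have h3 : fderiv ℝ (fun y : E3 => (‖y‖ ^ 4)⁻¹ * y i * (‖y‖ * V (phi (q.1, q.2, y)) j)) (n : E3) = _ := h2
      unfold Pool.Agent.Lib.PenroseSph.pd
      rw [h3]
      simp only [ContinuousLinearMap.add_apply, ContinuousLinearMap.smul_apply, smul_eq_mul, hn, ec5a_phi]
      ring
    have e2 : ∑ j, pd j (fun y : E3 => ‖y‖ * V (phi (q.1, q.2, y)) j) n = 0 := by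
      have h2 := div_field (p := (q.1, q.2, (n : E3))) hO hR hV htan hdiv hq hn0 (fun _ => 1) contDiffAt_const
        (fun _ _ => rfl)
      rw [← h2]
      refine Finset.sum_congr rfl fun j _ => ?_
      have h3 : (fun q : VV => (fun _ => (1 : ℝ)) q * (‖q.2.2‖ * V (phi q) j)) = fun q : VV => ‖q.2.2‖ * V (phi q) j := by
        funext z
        rw [one_mul]
      have h4 := H74X.pd_y' (p := (q.1, q.2, (n : E3))) (hB j) j
      simp only [one_mul]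
      exact h4
    have e3 : ∑ j, (n : E3) j * V (ev q n) j = 0 := by
      have h2 := htan _ (ec5a_dom hR hq hn0)
      rw [ec5a_pos, hn, ec5a_phi, div_one] at h2
      have h3 : ∑ j, (q.2 • (n : E3)) j * V (ev q n) j = q.2 * ∑ j, (n : E3) j * V (ev q n) j := by
        rw [Finset.mul_sum]
        refine Finset.sum_congr rfl fun j _ => ?_
        rw [PiLp.smul_apply, smul_eq_mul]
        ring
      rw [h3] at h2
      exact (mul_eq_zero.1 h2).resolve_left hρ.ne'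
    have e4 : ∑ j, pd j (fun y : E3 => (‖y‖ ^ 4)⁻¹ * y i * (‖y‖ * V (phi (q.1, q.2, y)) j)) n =
        (n : E3) i * (∑ j, pd j (fun y : E3 => ‖y‖ * V (phi (q.1, q.2, y)) j) n) +
          (∑ j, V (ev q n) j * (if i = j then 1 else 0)) - 4 * (n : E3) i * ∑ j, (n : E3) j * V (ev q n) j := by
      rw [Finset.mul_sum, Finset.mul_sum, ← Finset.sum_add_distrib, ← Finset.sum_sub_distrib]
      refine Finset.sum_congr rfl fun j _ => ?_
      rw [e1]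
      ring
    have e5 : ∑ j, V (ev q n) j * (if i = j then (1 : ℝ) else 0) = V (ev q n) i := by simp
    show V (ev q n) i = ∑ j, pd j (fun y : E3 => (‖y‖ ^ 4)⁻¹ * y i * (‖y‖ * V (phi (q.1, q.2, y)) j)) n
    rw [e4, e2, e3, e5]
    ring
  · intro y hy j
    have h2 : ContDiffAt ℝ ∞ (fun y : E3 => ‖y‖ * V (phi (q.1, q.2, y)) j) y :=
      H74X.sm_leaf (p := (q.1, q.2, y)) (ec5a_smB hR hV hq j hy)
    exact ((ec5a_smA i hy).mul h2).of_le (by norm_cast)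
  · intro y hy c hc j
    have hn : ‖y‖ ≠ 0 := norm_ne_zero_iff.2 hy
    have h2 : phi (q.1, q.2, c • y) = phi (q.1, q.2, y) := H74X.phi_hom (q.1, q.2, y) hc
    rw [h2, norm_smul, Real.norm_eq_abs, abs_of_pos hc, PiLp.smul_apply, smul_eq_mul]
    have hc' := hc.ne'
    field_simp

end H74E
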