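import Pool.Agent.Lib.H17V.D2B
import Pool.Agent.Lib.H17W.C1
import Pool.Agent.Lib.H74X.A5
import Pool.Agent.Lib.H74X.BS
import Pool.Agent.Lib.H74X.EC5A

set_option autoImplicit false

/-!
# H74X, chunk EC5B (S/M): mean zero of the derivatives

Auxiliary names start with `ec5b_`. 
-/

open MeasureTheory Filter Topology Set
open scoped ContDiff

namespace H74E

open H17T (E4 pt pos ev)

open H74X (VV dY phi div_field param_fderiv param_smooth)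

open Pool.Agent.Lib.PenroseSph (E3 Tens S2 sm pd)

variable {D : Set (ℝ × ℝ)} {V : E4 → Fin 3 → ℝ} {q : ℝ × ℝ}

theorem ec5b_dom (hR : ∀ q ∈ D, 0 < q.2) (hq : q ∈ D) (n : S2) : (ev q n 0, ‖pos (ev q n)‖) ∈ D := by
  rw [← ec5a_phi]
  exact ec5a_dom hR hq (ec5a_ne n)

theorem ec5b_sm (hR : ∀ q ∈ D, 0 < q.2)
    (hV : ∀ p : E4, (p 0, ‖pos p‖) ∈ D → ∀ i, ContDiffAt ℝ ∞ (fun q => V q i) p)
    (hq : q ∈ D) (i : Fin 3) (n : S2) :
    ContDiffAt ℝ ∞ (fun p : VV => V (pt p.1 (p.2.1 • p.2.2)) i) (q.1, q.2, (n : E3)) := by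
  have h1 : ContDiffAt ℝ ∞ (fun p : VV => (p.1, p.2.1 • p.2.2)) (q.1, q.2, (n : E3)) := by
    have g1 : ContDiffAt ℝ ∞ (fun q : VV => q.1) (q.1, q.2, (n : E3)) := contDiffAt_fst
    have g2 : ContDiffAt ℝ ∞ (fun q : VV => q.2.1) (q.1, q.2, (n : E3)) := contDiffAt_fst.comp _ contDiffAt_snd
    have g3 : ContDiffAt ℝ ∞ (fun q : VV => q.2.2) (q.1, q.2, (n : E3)) := contDiffAt_snd.comp _ contDiffAt_snd
    exact g1.prodMk (g2.smul g3)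
  have h2 : ContDiffAt ℝ ∞ (fun p : VV => pt p.1 (p.2.1 • p.2.2)) (q.1, q.2, (n : E3)) :=
    ContDiffAt.comp _ (g := fun q : ℝ × E3 => pt q.1 q.2) H17T.pt_smooth.contDiffAt h1
  exact (hV _ (ec5b_dom hR hq n) i).comp (q.1, q.2, (n : E3)) h2

/-- the chain rule -/
theorem ec5b_chain (hR : ∀ q ∈ D, 0 < q.2)
    (hV : ∀ p : E4, (p 0, ‖pos p‖) ∈ D → ∀ i, ContDiffAt ℝ ∞ (fun q => V q i) p)
    (hq : q ∈ D) (i : Fin 3) (n : S2) (v : ℝ × ℝ) :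
    fderiv ℝ (fun p : VV => V (pt p.1 (p.2.1 • p.2.2)) i) (q.1, q.2, (n : E3)) (v.1, v.2, 0) =
      v.1 * H31R.pd 0 (fun p => V p i) (ev q n) +
        v.2 * ∑ j : Fin 3, (n : E3) j * H31R.pd j.succ (fun p => V p i) (ev q n) := by
  have h1 : HasFDerivAt (fun q' : ℝ × ℝ => ((q'.1, q'.2, (n : E3)) : VV))
      ((ContinuousLinearMap.fst ℝ ℝ ℝ).prod ((ContinuousLinearMap.snd ℝ ℝ ℝ).prod 0)) q :=
    hasFDerivAt_fst.prodMk (hasFDerivAt_snd.prodMk (hasFDerivAt_const _ _))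
  have h2 : DifferentiableAt ℝ (fun p : VV => V (pt p.1 (p.2.1 • p.2.2)) i) (q.1, q.2, (n : E3)) :=
    (ec5b_sm hR hV hq i n).differentiableAt (by norm_num)
  have h3 := HasFDerivAt.comp (g := fun p : VV => V (pt p.1 (p.2.1 • p.2.2)) i)
    (f := fun q' : ℝ × ℝ => ((q'.1, q'.2, (n : E3)) : VV)) q h2.hasFDerivAt h1
  have h4 : DifferentiableAt ℝ (fun p => V p i) (ev q n) :=
    (hV _ (ec5b_dom hR hq n) i).differentiableAt (by norm_num)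
  have h5 : HasFDerivAt (fun p => V p i) (fderiv ℝ (fun p => V p i) (ev q n)) (H17V.d2b_L n q) := by
    rw [← H17V.d2b_L_eq]
    exact h4.hasFDerivAt
  have h6 : HasFDerivAt (fun q' => V (H17V.d2b_L n q') i) ((fderiv ℝ (fun p => V p i) (ev q n)).comp (H17V.d2b_L n)) q :=
    h5.comp q (H17V.d2b_L (n : E3)).hasFDerivAt
  have h7 : ((fun p : VV => V (pt p.1 (p.2.1 • p.2.2)) i) ∘ fun q' : ℝ × ℝ => ((q'.1, q'.2, (n : E3)) : VV)) =
      fun q' => V (H17V.d2b_L n q') i := by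
    funext q'
    rw [← H17V.d2b_L_eq]
    rfl
  rw [h7] at h3
  have h8 := congrArg (fun L : ℝ × ℝ →L[ℝ] ℝ => L v) (h3.unique h6)
  have h9 : fderiv ℝ (fun p : VV => V (pt p.1 (p.2.1 • p.2.2)) i) (q.1, q.2, (n : E3)) (v.1, v.2, 0) =
      fderiv ℝ (fun p => V p i) (ev q n) (H17V.d2b_L n v) := h8
  rw [h9, H17V.d2b_L_apply, map_add, map_smul, map_smul, map_add, map_add, map_smul, map_smul, map_smul,
    Fin.sum_univ_three]
  rfl

/-- the derivatives of the integral vanish -/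
theorem ec5b_int (hO : IsOpen D) (hR : ∀ q ∈ D, 0 < q.2)
    (hV : ∀ p : E4, (p 0, ‖pos p‖) ∈ D → ∀ i, ContDiffAt ℝ ∞ (fun q => V q i) p)
    (htan : ∀ p : E4, (p 0, ‖pos p‖) ∈ D → ∑ i, pos p i * V p i = 0)
    (hdiv : ∀ p : E4, (p 0, ‖pos p‖) ∈ D → ∑ i : Fin 3, H31R.pd i.succ (fun q => V q i) p = 0)
    (hq : q ∈ D) (i : Fin 3) (v : ℝ × ℝ) :
    ∫ n : S2, (v.1 * H31R.pd 0 (fun p => V p i) (ev q n) +
        v.2 * ∑ j : Fin 3, (n : E3) j * H31R.pd j.succ (fun p => V p i) (ev q n)) ∂sm = 0 := by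
  have h1 := param_fderiv (φ := fun p : VV => V (pt p.1 (p.2.1 • p.2.2)) i) (q := q) (ec5b_sm hR hV hq i) v
  have h2 : (fun q' : ℝ × ℝ => ∫ n : S2, (fun p : VV => V (pt p.1 (p.2.1 • p.2.2)) i) (q'.1, q'.2, (n : E3)) ∂sm)
      =ᶠ[𝓝 q] fun _ => 0 := by
    filter_upwards [hO.mem_nhds hq] with q' hq'
    exact mean_zero hO hR hV htan hdiv hq' i
  rw [h2.fderiv_eq, fderiv_const_apply] at h1
  have h3 : (0 : ℝ) = ∫ n : S2, fderiv ℝ (fun p : VV => V (pt p.1 (p.2.1 • p.2.2)) i) (q.1, q.2, (n : E3)) (v.1, v.2, 0) ∂sm :=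
    h1
  rw [h3]
  refine integral_congr_ae (Eventually.of_forall fun n => ?_)
  exact (ec5b_chain hR hV hq i n v).symm

/-- The function `q' ↦ ∫ V_i(ev q' n)` vanishes near `q` (`mean_zero`, `D` is open), so its derivatives vanish; `param_fderiv` for `φ(T, ρ, y) = V_i(pt T (ρ y))` (`ev q n = pt q.1 (q.2 n)`; chain rule:
`H17V.d2b_L`). -/
theorem mean_dT (hO : IsOpen D) (hR : ∀ q ∈ D, 0 < q.2)
    (hV : ∀ p : E4, (p 0, ‖pos p‖) ∈ D → ∀ i, ContDiffAt ℝ ∞ (fun q => V q i) p)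
    (htan : ∀ p : E4, (p 0, ‖pos p‖) ∈ D → ∑ i, pos p i * V p i = 0)
    (hdiv : ∀ p : E4, (p 0, ‖pos p‖) ∈ D → ∑ i : Fin 3, H31R.pd i.succ (fun q => V q i) p = 0)
    (hq : q ∈ D) (i : Fin 3) : ∫ n : S2, H31R.pd 0 (fun p => V p i) (ev q n) ∂sm = 0 := by
  have h1 := ec5b_int hO hR hV htan hdiv hq i (1, 0)
  simpa using h1

theorem mean_dR (hO : IsOpen D) (hR : ∀ q ∈ D, 0 < q.2)
    (hV : ∀ p : E4, (p 0, ‖pos p‖) ∈ D → ∀ i, ContDiffAt ℝ ∞ (fun q => V q i) p)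
    (htan : ∀ p : E4, (p 0, ‖pos p‖) ∈ D → ∑ i, pos p i * V p i = 0)
    (hdiv : ∀ p : E4, (p 0, ‖pos p‖) ∈ D → ∑ i : Fin 3, H31R.pd i.succ (fun q => V q i) p = 0)
    (hq : q ∈ D) (i : Fin 3) :
    ∫ n : S2, (∑ j : Fin 3, (n : E3) j * H31R.pd j.succ (fun p => V p i) (ev q n)) ∂sm = 0 := by
  have h1 := ec5b_int hO hR hV htan hdiv hq i (0, 1)
  simpa only [zero_mul, zero_add, one_mul] using h1

end H74E
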