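import Pool.Agent.Lib.H74X.EC4
import Pool.Agent.Lib.H74X.EC5
import Pool.Agent.Lib.H74X.KD0

set_option autoImplicit false

/-!
# H74X, chunk EC6A (S/M): different times on the same sphere (port)

Auxiliary names start with `ec6a_`. Template: `H74X/KD0.lean` (`sphere_times`, `times_F`).
-/

open MeasureTheory Filter Topology Set Asymptotics
open scoped ContDiff

namespace H74E

open H17T H17B

open H17V (BD Near)

open H74X (metric SpaceTime AsympFlatB Small Small2)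

open H74K (Kin)

open Pool.Agent.Lib.PenroseSph (E3 Tens S2 sm pd momDensity)

variable {R₀ β : ℝ} {D : Set (ℝ × ℝ)} {F : E4 → ℝ} {k : ℝ → ℝ} {r : ℝ × ℝ → ℝ} {H : E4 → Matrix (Fin 3) (Fin 3) ℝ}
  {U W : E4 → Fin 3 → ℝ} {f : E3 → ℝ}

/-- Comparison of different times on the same sphere (`H74K.sphere_times`, `H17T.f2_mvt`, as `H74K.times_F`). -/
theorem shift_time (hK : Kin R₀ F k r f) {C R : ℝ} (hB : BD R₀ F k r f C R) {φ : E4 → ℝ} {C₁ R₁ : ℝ} (N : ℕ)
    (hd : ∀ p ∈ Near R₀ f, DifferentiableAt ℝ φ p)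
    (h1 : ∀ p ∈ Near R₀ f, R₁ ≤ ‖pos p‖ → |H31R.pd 0 φ p| ≤ C₁ / ‖pos p‖ ^ N) :
    ∃ C' R' : ℝ, 0 ≤ C' ∧ R ≤ R' ∧ ∀ x y : E3, R' ≤ ‖x‖ → ‖y‖ = ‖x‖ → ∀ n : S2,
      |φ (ev (qq f x) n) - φ (ev (qq f y) n)| ≤ C' / ‖x‖ ^ N := by
  have hC := hB.C_nonneg
  have hpi := Real.pi_pos
  refine ⟨|C₁| * (3 * C * Real.pi), max R R₁, by positivity, le_max_left _ _, fun x y hx hxy n => ?_⟩
  have hxR : R ≤ ‖x‖ := (le_max_left _ _).trans hx
  have hxR1 : R₁ ≤ ‖x‖ := (le_max_right _ _).trans hx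
  have hρ : 0 < ‖x‖ := by linarith [hB.R_pos]
  obtain ⟨g1, g2⟩ := H74K.sphere_times hK hB hxR hxy
  have hB0 : 0 ≤ |C₁| / ‖x‖ ^ N := div_nonneg (abs_nonneg _) (by positivity)
  have e1 : qq f x = (f x, ‖x‖) := rfl
  have e2 : qq f y = (f y, ‖x‖) := by rw [← hxy]; rfl
  have e3 : |C₁| * (3 * C * Real.pi) / ‖x‖ ^ N = |C₁| / ‖x‖ ^ N * (3 * C * Real.pi) := by ring
  rw [e1, e2, e3]
  refine f2_mvt (φ := fun T => φ (ev (T, ‖x‖) n)) (φ' := fun T => H31R.pd 0 φ (ev (T, ‖x‖) n)) (fun T hT => ?_)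
      (fun T hT => ?_) hB0 g1
  · have a1 := (H17V.ev_near hK.nonneg (g2 T hT) n).1
    exact (hd _ a1).hasFDerivAt.comp_hasDerivAt T (f2_ev ‖x‖ n T)
  · obtain ⟨a1, -, a2, -⟩ := H17V.ev_near hK.nonneg (g2 T hT) n
    have a3 : ‖pos (ev (T, ‖x‖) n)‖ = ‖x‖ := a2
    have a4 := h1 _ a1 (by rw [a3]; exact hxR1)
    rw [a3] at a4
    exact a4.trans (div_le_div_of_nonneg_right (le_abs_self C₁) (by positivity))

/-- Continuity (the functions `H31R.pd a (fun p => U p i)` are smooth at the events over `D`). -/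
theorem Xm_cont (hS : H74X.Slice R₀ D F k r H U W f) {x : E3} (hx : R₀ < ‖x‖) (i : Fin 3) : ContinuousAt (Xm U W f i) x := by
  have hst := hS.st
  have h0 : 0 < ‖x‖ := lt_of_le_of_lt hst.nonneg hx
  have hdom : ((PP f x) 0, ‖pos (PP f x)‖) ∈ D := by
    rw [b3b_pp]
    exact hS.mem x hx
  have hPP : ContinuousAt (PP f) x := (t4b_io_diff ((hS.f_smooth x hx).differentiableAt (by simp))).continuousAt
  have hU : ContDiffAt ℝ ∞ (fun p => U p i) (PP f x) := hst.U_smooth _ hdom i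
  have hW : ContDiffAt ℝ ∞ (fun p => W p i) (PP f x) := hst.W_smooth _ hdom i
  have hn : ContinuousAt (fun y : E3 => ‖y‖) x := continuous_norm.continuousAt
  have hc : ∀ j : Fin 3, ContinuousAt (fun y : E3 => y j / ‖y‖) x := by
    intro j
    have hj : ContinuousAt (fun y : E3 => y j) x := (EuclideanSpace.proj (𝕜 := ℝ) j).continuous.continuousAt
    exact hj.div hn h0.ne'
  have hpd : ∀ (φ : E4 → ℝ) (a : Fin 4), ContDiffAt ℝ ∞ φ (PP f x) → ContinuousAt (fun y => H31R.pd a φ (PP f y)) x := by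
    intro φ a hφ
    have h1 : ContinuousAt (H31R.pd a φ) (PP f x) :=
      ((hφ.fderiv_right (m := ∞) (by simp)).clm_apply contDiffAt_const).continuousAt
    exact ContinuousAt.comp (f := PP f) (g := H31R.pd a φ) h1 hPP
  have hUc : ContinuousAt (fun y => U (PP f y) i) x :=
    ContinuousAt.comp (f := PP f) (g := fun p => U p i) hU.continuousAt hPP
  unfold Xm
  refine ((ContinuousAt.sub ?_ (hUc.div hn h0.ne')).const_mul (1 / 2)).sub ((hpd _ 0 hW).const_mul (1 / 2))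
  exact tendsto_finsetSum _ fun j _ => (hc j).mul (hpd _ j.succ hU)

end H74E
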