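import Pool.Agent.Lib.H74X.EC4
import Pool.Agent.Lib.H74X.EC5
import Pool.Agent.Lib.H74X.EC6A
import Pool.Agent.Lib.H74X.KD0

set_option autoImplicit false

/-!
# H74X, chunk EC6B (M): mean of the shift part

Auxiliary names start with `ec6b_`. Template: `H74X/KD0.lean` (`sphere_times`, `times_F`).
-/

open MeasureTheory Filter Topology Set Asymptotics
open scoped ContDiff

namespace H74E

open H17T H17B

open H17V (BD Near)

open H74X (metric SpaceTime AsympFlatB Small Small2)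

open H74K (Kin)

open Pool.Agent.Lib.PenroseSph (E3 Tens S2 sm pd momDensity)

variable {R₀ β : ℝ} {D : Set (ℝ × ℝ)} {F : E4 → ℝ} {k : ℝ → ℝ} {r : ℝ × ℝ → ℝ} {H : E4 → Matrix (Fin 3) (Fin 3) ℝ}
  {U W : E4 → Fin 3 → ℝ} {f : E3 → ℝ}

/-- Smooth functions at the events over a point of `D`. -/
theorem ec6b_cont {φ : E4 → ℝ} {q : ℝ × ℝ} (hφ : ∀ n : S2, ContinuousAt φ (ev q n)) : Continuous fun n : S2 => φ (ev q n) := by
  rw [continuous_iff_continuousAt]
  intro n
  have h1 : ContinuousAt (fun n : S2 => ev q (n : E3)) n := by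
    have h2 : Continuous fun n : S2 => ev q (n : E3) := by
      unfold ev
      have h3 : Continuous fun n : S2 => q.2 • (n : E3) := by fun_prop
      have h4 : Continuous fun y : E3 => pt q.1 y := by
        unfold pt
        fun_prop
      exact h4.comp h3
    exact h2.continuousAt
  exact ContinuousAt.comp (f := fun n : S2 => ev q (n : E3)) (g := φ) (hφ n) h1

/-- The shift part as a function of the time, the radius and the direction. -/
noncomputable def ec6b_G (U W : E4 → Fin 3 → ℝ) (i : Fin 3) (s : ℝ) (q : ℝ × ℝ) (n : E3) : ℝ :=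
  1 / 2 * ((∑ j : Fin 3, n j * H31R.pd j.succ (fun p => U p i) (ev q n)) - U (ev q n) i / s) -
    1 / 2 * H31R.pd 0 (fun p => W p i) (ev q n)

theorem ec6b_eq {s : ℝ} (hs : 0 < s) (i : Fin 3) (n : S2) :
    Xm U W f i (s • (n : E3)) = ec6b_G U W i s (qq f (s • (n : E3))) n := by
  have h1 : ‖s • (n : E3)‖ = s := Pool.Agent.Lib.PenroseSph.norm_ray hs n
  have h2 : ev (qq f (s • (n : E3))) n = PP f (s • (n : E3)) := by
    unfold ev PP qq
    rw [h1]
  unfold Xm ec6b_G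
  rw [h1, h2]
  congr 3
  refine Finset.sum_congr rfl fun j _ => ?_
  congr 1
  rw [PiLp.smul_apply, smul_eq_mul]
  field_simp

theorem ec6b_mean (hS : H74X.Slice R₀ D F k r H U W f) {q : ℝ × ℝ} (hq : q ∈ D) (i : Fin 3) (s : ℝ) :
    (Continuous fun n : S2 => ec6b_G U W i s q n) ∧ ∫ n : S2, ec6b_G U W i s q n ∂sm = 0 := by
  have hst := hS.st
  have hpos : ∀ q ∈ D, 0 < q.2 := fun q hq => lt_of_le_of_lt hst.nonneg (hst.rad q hq)
  have hdom : ∀ n : S2, ((ev q n) 0, ‖pos (ev q n)‖) ∈ D := by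
    intro n
    have h1 : ‖(n : E3)‖ = 1 := mem_sphere_zero_iff_norm.1 n.2
    have h2 : (ev q (n : E3)) 0 = q.1 := pt_zero _ _
    have h3 : ‖pos (ev q (n : E3))‖ = q.2 := by
      unfold ev
      rw [pos_pt, norm_smul, h1, mul_one, Real.norm_of_nonneg (hpos q hq).le]
    rw [h2, h3]
    exact hq
  have hUs : ∀ n : S2, ContDiffAt ℝ ∞ (fun p => U p i) (ev q n) := fun n => hst.U_smooth _ (hdom n) i
  have hWs : ∀ n : S2, ContDiffAt ℝ ∞ (fun p => W p i) (ev q n) := fun n => hst.W_smooth _ (hdom n) i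
  have hpd : ∀ (φ : E4 → ℝ) (a : Fin 4), (∀ n : S2, ContDiffAt ℝ ∞ φ (ev q n)) →
      Continuous fun n : S2 => H31R.pd a φ (ev q n) := fun φ a hφ =>
    ec6b_cont fun n => (((hφ n).fderiv_right (m := ∞) (by simp)).clm_apply contDiffAt_const).continuousAt
  have c1 : Continuous fun n : S2 => ∑ j : Fin 3, (n : E3) j * H31R.pd j.succ (fun p => U p i) (ev q n) :=
    continuous_finsetSum _ fun j _ => (show Continuous fun n : S2 => (n : E3) j by fun_prop).mul (hpd _ j.succ hUs)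
  have c2 : Continuous fun n : S2 => U (ev q n) i := ec6b_cont (φ := fun p => U p i) fun n => (hUs n).continuousAt
  have c3 : Continuous fun n : S2 => H31R.pd 0 (fun p => W p i) (ev q n) := hpd _ 0 hWs
  refine ⟨?_, ?_⟩
  · unfold ec6b_G
    exact ((c1.sub (c2.div_const s)).const_mul (1 / 2)).sub (c3.const_mul (1 / 2))
  · have z1 := mean_dR (V := U) hst.isOpen hpos hst.U_smooth hst.U_tan hst.U_div hq i
    have z2 := mean_zero (V := U) hst.isOpen hpos hst.U_smooth hst.U_tan hst.U_div hq i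
    have z3 := mean_dT (V := W) hst.isOpen hpos hst.W_smooth hst.W_tan hst.W_div hq i
    have i1 := Pool.Agent.Lib.PenroseSph.integrable_S2 c1
    have i2 := Pool.Agent.Lib.PenroseSph.integrable_S2 (c2.div_const s)
    have c12 : Continuous fun n : S2 => 1 / 2 * ((∑ j : Fin 3, (n : E3) j * H31R.pd j.succ (fun p => U p i) (ev q n)) -
        U (ev q n) i / s) := (c1.sub (c2.div_const s)).const_mul (1 / 2)
    have i12 := Pool.Agent.Lib.PenroseSph.integrable_S2 c12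
    have i3 := Pool.Agent.Lib.PenroseSph.integrable_S2 (c3.const_mul (1 / 2))
    unfold ec6b_G
    rw [integral_sub i12 i3, integral_const_mul, integral_sub i1 i2, integral_const_mul, integral_div, z1, z2, z3]
    ring

/-- With `ψ(q, n) = ½ (Σ_j n_j ∂_j U_i(ev q n) - U_i(ev q n)/q.2) - ½ ∂_T W_i(ev q n)` one has `Xm_i(s n) = ψ(qq f (s n), n)` and, for `q₀ = qq f (s n₀)` with a fixed `n₀`, `∫ ψ(q₀, n) = 0`
(`mean_zero`, `mean_dR` for `U`, `mean_dT` for `W`; `q₀ ∈ D`). `|ψ(qq f (s n), n) - ψ(q₀, n)| ≤ C/s³` (`shift_time` for `∂_j U_i`, `∂_T W_i` with `N = 3`, and for `U_i` with `N = 2`). -/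
theorem mean_Xm (hS : H74X.Slice R₀ D F k r H U W f) (hK : Kin R₀ F k r f) {C R : ℝ} (hB : BD R₀ F k r f C R)
    (hU : ∀ i, Small R₀ f 1 fun p => U p i) (hU2 : ∀ i, Small2 R₀ f fun p => U p i)
    (hW2 : ∀ i, Small2 R₀ f fun p => W p i) (i : Fin 3) :
    ∃ C' R' : ℝ, 0 ≤ C' ∧ R ≤ R' ∧ ∀ s : ℝ, R' ≤ s → |∫ n : S2, Xm U W f i (s • (n : E3)) ∂sm| ≤ C' / s ^ 3 := by
  have hst := hS.st
  obtain ⟨n0⟩ : Nonempty S2 := ⟨⟨EuclideanSpace.single 0 1, by simp⟩⟩
  have hdom : ∀ p ∈ Near R₀ f, (p 0, ‖pos p‖) ∈ D := by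
    rintro p ⟨g1, y, g2, g3⟩
    have g4 := hS.mem y (by rw [g2]; exact g1)
    rw [g2, g3] at g4
    exact g4
  have hpd : ∀ (φ : E4 → ℝ) (a : Fin 4), (∀ p ∈ Near R₀ f, ContDiffAt ℝ ∞ φ p) →
      ∀ p ∈ Near R₀ f, DifferentiableAt ℝ (H31R.pd a φ) p := fun φ a hφ p hp =>
    (((hφ p hp).fderiv_right (m := ∞) (by simp)).clm_apply contDiffAt_const).differentiableAt (by simp)
  have hUs : ∀ p ∈ Near R₀ f, ContDiffAt ℝ ∞ (fun p => U p i) p := fun p hp => hst.U_smooth _ (hdom p hp) i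
  have hWs : ∀ p ∈ Near R₀ f, ContDiffAt ℝ ∞ (fun p => W p i) p := fun p hp => hst.W_smooth _ (hdom p hp) i
  obtain ⟨a1, b1, -, k1⟩ := hU i
  obtain ⟨a2, b2, -, k2⟩ := hU2 i
  obtain ⟨a3, b3, -, k3⟩ := hW2 i
  obtain ⟨C1, R1, hC1, hR1, h1⟩ := shift_time hK hB (φ := fun p => U p i) (C₁ := a1) (R₁ := b1) 2
    (fun p hp => (hUs p hp).differentiableAt (by simp)) (fun p hp hpR => (k1 p hp hpR).2 0)
  have hj : ∀ j : Fin 3, ∃ C' R' : ℝ, 0 ≤ C' ∧ R ≤ R' ∧ ∀ x y : E3, R' ≤ ‖x‖ → ‖y‖ = ‖x‖ → ∀ n : S2,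
      |H31R.pd j.succ (fun p => U p i) (ev (qq f x) n) - H31R.pd j.succ (fun p => U p i) (ev (qq f y) n)| ≤ C' / ‖x‖ ^ 3 :=
    fun j => shift_time hK hB (φ := H31R.pd j.succ (fun p => U p i)) (C₁ := a2) (R₁ := b2) 3
      (hpd _ j.succ hUs) (fun p hp hpR => k2 p hp hpR 0 j.succ)
  choose C2 R2 hC2 hR2 h2 using hj
  obtain ⟨C3, R3, hC3, hR3, h3⟩ := shift_time hK hB (φ := H31R.pd 0 (fun p => W p i)) (C₁ := a3) (R₁ := b3) 3
    (hpd _ 0 hWs) (fun p hp hpR => k3 p hp hpR 0 0)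
  obtain ⟨K, hKd⟩ : ∃ K : ℝ, K = (C2 0 + C2 1 + C2 2) + C1 + C3 := ⟨_, rfl⟩
  have hK0 : 0 ≤ K := by
    rw [hKd]
    have := hC2 0
    have := hC2 1
    have := hC2 2
    positivity
  refine ⟨K * (4 * Real.pi), max (max R1 R3) (max (max (R2 0) (R2 1)) (R2 2)), by positivity,
    hR1.trans ((le_max_left _ _).trans (le_max_left _ _)), fun s hs => ?_⟩
  have s1 : R1 ≤ s := (le_max_left _ _).trans ((le_max_left _ _).trans hs)
  have s3 : R3 ≤ s := (le_max_right _ _).trans ((le_max_left _ _).trans hs)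
  have s20 : R2 0 ≤ s := (le_max_left _ _).trans ((le_max_left _ _).trans ((le_max_right _ _).trans hs))
  have s21 : R2 1 ≤ s := (le_max_right _ _).trans ((le_max_left _ _).trans ((le_max_right _ _).trans hs))
  have s22 : R2 2 ≤ s := (le_max_right _ _).trans ((le_max_right _ _).trans hs)
  have hsR : R ≤ s := hR1.trans s1
  have hs0 : 0 < s := by linarith [hB.R_pos]
  have hsR0 : R₀ < s := hB.R_gt.trans_le hsR
  have hnn : ∀ n : S2, ‖s • (n : E3)‖ = s := Pool.Agent.Lib.PenroseSph.norm_ray hs0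
  have hne : ∀ n : S2, R₀ < ‖s • (n : E3)‖ := fun n => by rw [hnn n]; exact hsR0
  have hq0 : qq f (s • (n0 : E3)) ∈ D := hS.mem _ (hne n0)
  obtain ⟨cG, zG⟩ := ec6b_mean hS hq0 i s
  have cX : Continuous fun n : S2 => Xm U W f i (s • (n : E3)) := by
    rw [continuous_iff_continuousAt]
    intro n
    have g1 : ContinuousAt (fun n : S2 => s • (n : E3)) n := by fun_prop
    exact ContinuousAt.comp (f := fun n : S2 => s • (n : E3)) (Xm_cont hS (hne n) i) g1
  have hb : ∀ n : S2, ‖Xm U W f i (s • (n : E3)) - ec6b_G U W i s (qq f (s • (n0 : E3))) n‖ ≤ K / s ^ 3 := by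
    intro n
    have hx : ‖s • (n : E3)‖ = s := hnn n
    have hy : ‖s • (n0 : E3)‖ = ‖s • (n : E3)‖ := by rw [hnn, hnn]
    have l1 := h1 (s • (n : E3)) (s • (n0 : E3)) (by rw [hx]; exact s1) hy n
    have l3 := h3 (s • (n : E3)) (s • (n0 : E3)) (by rw [hx]; exact s3) hy n
    have l2 : ∀ j, |H31R.pd j.succ (fun p => U p i) (ev (qq f (s • (n : E3))) n) -
        H31R.pd j.succ (fun p => U p i) (ev (qq f (s • (n0 : E3))) n)| ≤ C2 j / s ^ 3 := by
      intro j
      have l4 := h2 j (s • (n : E3)) (s • (n0 : E3)) (by rw [hx]; fin_cases j <;> assumption) hy n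
      rwa [hx] at l4
    rw [hx] at l1 l3
    have hn1 : ∀ j, |(n : E3) j| ≤ 1 := by
      intro j
      have g1 := f2_coord (n : E3) j
      have g2 : ‖(n : E3)‖ = 1 := mem_sphere_zero_iff_norm.1 n.2
      rwa [g2] at g1
    have e1 : Xm U W f i (s • (n : E3)) - ec6b_G U W i s (qq f (s • (n0 : E3))) n =
        1 / 2 * ((∑ j : Fin 3, (n : E3) j * (H31R.pd j.succ (fun p => U p i) (ev (qq f (s • (n : E3))) n) -
          H31R.pd j.succ (fun p => U p i) (ev (qq f (s • (n0 : E3))) n))) -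
          (U (ev (qq f (s • (n : E3))) n) i - U (ev (qq f (s • (n0 : E3))) n) i) / s) -
        1 / 2 * (H31R.pd 0 (fun p => W p i) (ev (qq f (s • (n : E3))) n) -
          H31R.pd 0 (fun p => W p i) (ev (qq f (s • (n0 : E3))) n)) := by
      rw [ec6b_eq hs0]
      unfold ec6b_G
      simp only [mul_sub, Finset.sum_sub_distrib]
      ring
    have m1 : |∑ j : Fin 3, (n : E3) j * (H31R.pd j.succ (fun p => U p i) (ev (qq f (s • (n : E3))) n) -
          H31R.pd j.succ (fun p => U p i) (ev (qq f (s • (n0 : E3))) n))| ≤ (C2 0 + C2 1 + C2 2) / s ^ 3 := by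
      refine (Finset.abs_sum_le_sum_abs _ _).trans ?_
      have m2 : ∀ j : Fin 3, |(n : E3) j * (H31R.pd j.succ (fun p => U p i) (ev (qq f (s • (n : E3))) n) -
          H31R.pd j.succ (fun p => U p i) (ev (qq f (s • (n0 : E3))) n))| ≤ C2 j / s ^ 3 := by
        intro j
        rw [abs_mul]
        calc _ ≤ 1 * (C2 j / s ^ 3) := mul_le_mul (hn1 j) (l2 j) (abs_nonneg _) (by norm_num)
          _ = C2 j / s ^ 3 := one_mul _
      refine (Finset.sum_le_sum fun j _ => m2 j).trans (le_of_eq ?_)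
      rw [Fin.sum_univ_three]
      ring
    have m3 : |(U (ev (qq f (s • (n : E3))) n) i - U (ev (qq f (s • (n0 : E3))) n) i) / s| ≤ C1 / s ^ 3 := by
      rw [abs_div, abs_of_pos hs0, div_le_iff₀ hs0]
      refine l1.trans (le_of_eq ?_)
      field_simp
    rw [Real.norm_eq_abs, e1]
    refine (abs_sub _ _).trans ?_
    rw [abs_mul, abs_mul, abs_of_pos (by norm_num : (0 : ℝ) < 1 / 2)]
    have m4 := abs_sub (∑ j : Fin 3, (n : E3) j * (H31R.pd j.succ (fun p => U p i) (ev (qq f (s • (n : E3))) n) -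
          H31R.pd j.succ (fun p => U p i) (ev (qq f (s • (n0 : E3))) n)))
          ((U (ev (qq f (s • (n : E3))) n) i - U (ev (qq f (s • (n0 : E3))) n) i) / s)
    have e2 : K / s ^ 3 = (C2 0 + C2 1 + C2 2) / s ^ 3 + C1 / s ^ 3 + C3 / s ^ 3 := by
      rw [hKd]
      ring
    rw [e2]
    have p1 : 0 ≤ (C2 0 + C2 1 + C2 2) / s ^ 3 := (abs_nonneg _).trans m1
    have p2 : 0 ≤ C1 / s ^ 3 := (abs_nonneg _).trans m3
    have p3 : 0 ≤ C3 / s ^ 3 := (abs_nonneg _).trans l3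
    linarith
  have hint := norm_integral_le_of_norm_le_const (μ := sm) (Filter.Eventually.of_forall hb)
  rw [Pool.Agent.Lib.PenroseSph.sm_univ, integral_sub (Pool.Agent.Lib.PenroseSph.integrable_S2 cX)
    (Pool.Agent.Lib.PenroseSph.integrable_S2 cG), zG, sub_zero, Real.norm_eq_abs] at hint
  refine hint.trans (le_of_eq ?_)
  ring

end H74E
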