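import Pool.Agent.Lib.H17V.D2A
import Pool.Agent.Lib.H17V.D2C
import Pool.Agent.Lib.H74X.KD2B
import Pool.Agent.Lib.H74X.Kin

set_option autoImplicit false

/-!
# H74X, module K: port of `H17V/D2C.lean` to the kinematic conditions `Kin`
-/

open MeasureTheory Filter Topology Set
open scoped ContDiff

namespace H74K

open H17V hiding Slice

open H17T

open Pool.Agent.Lib.PenroseSph (E3 Tens S2 sm pd )

theorem dw_bound {R₀ : ℝ} {F : E4 → ℝ} {k : ℝ → ℝ} {r : ℝ × ℝ → ℝ} {f : E3 → ℝ} (hS : Kin R₀ F k r f)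
    (hR : Red R₀ F k r f) {C R : ℝ} (hB : BD R₀ F k r f C R) :
    ∃ C' R' : ℝ, 0 ≤ C' ∧ R ≤ R' ∧ ∀ q ∈ QQ R₀ f, R' ≤ q.2 →
      0 ≤ Da k (mass F k r) q ∧ 0 ≤ Db k (mass F k r) q ∧
      |Da k (ww r) q| ≤ C' / q.2 + 8 * Da k (mass F k r) q ∧
      |Db k (ww r) q| ≤ C' / q.2 + 8 * Db k (mass F k r) q ∧ 3 / 4 ≤ k q.2 ∧ k q.2 ≤ 5 / 4 := by
  obtain ⟨C1, R1, hC1, hR1, h1⟩ := bd_ab hS hB
  refine ⟨12 * C1, max R1 (2 * C1), by positivity, hR1.trans (le_max_left _ _), fun q hq hq2 => ?_⟩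
  have hq1 : R1 ≤ q.2 := (le_max_left _ _).trans hq2
  have hqC : 2 * C1 ≤ q.2 := (le_max_right _ _).trans hq2
  have hρ : 0 < q.2 := by linarith [hB.R_pos]
  obtain ⟨⟨a1, a2, a3⟩, ⟨b1, b2⟩, ⟨c1, c2, c3, c4⟩, ⟨d1, d2, d3⟩⟩ := h1 q hq hq1
  obtain ⟨-, m1, m2, m3, m4, m5⟩ := mass_formula hR hq
  obtain ⟨-, w1, w2⟩ := ww_formula hR hq
  have hr : 0 < r q := hR.r_pos q hq
  have hr2 : r q ≤ 2 * q.2 := (le_abs_self _).trans d1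
  have hle : C1 / q.2 ≤ 1 / 2 := by
    rw [div_le_iff₀ hρ]
    linarith
  have ha : Da k r q ≤ 1 := by linarith [(abs_le.1 a1).2]
  have hb : Db k r q ≤ 1 := by linarith [(abs_le.1 a2).2]
  obtain ⟨u1, u2⟩ := d2c_alg hρ hC1 a1 a3 b1 c1 ha c2 c3 hr hr2 m3 m4 m1 (Or.inl w1)
  obtain ⟨v1, v2⟩ := d2c_alg hρ hC1 a2 a3 b2 c2 hb c1 c3 hr hr2 m3 m5 m2 (Or.inr w2)
  exact ⟨u1, v1, u2, v2, d2, d3⟩

end H74K
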