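import Pool.Agent.Lib.H17V.D4
import Pool.Agent.Lib.H74X.KD3
import Pool.Agent.Lib.H74X.Kin

set_option autoImplicit false

/-!
# H74X, module K: port of `H17V/D4.lean` to the kinematic conditions `Kin`
-/

open MeasureTheory Filter Topology Set
open scoped ContDiff

namespace H74K

open H17V hiding Slice

open H17T

open Pool.Agent.Lib.PenroseSph (E3 Tens S2 sm pd )

private theorem d4_alg {a b φ C ρ : ℝ} (hC : 0 ≤ C) (hρ : 1 ≤ ρ) (ha : |a - 1 / 2| ≤ C / ρ) (hb : |b - 1 / 2| ≤ C / ρ)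
    (hφ : |φ - 1| ≤ C / ρ) :
    |1 - 4 * a * b * φ| ≤ C / ρ * (4 * (1 / 2 + C) * (1 / 2 + C) + 4 * (1 / 2 + C) + 2) := by
  have hρ0 : 0 < ρ := by linarith
  have h0 : 0 ≤ C / ρ := div_nonneg hC hρ0.le
  have h1 : C / ρ ≤ C := div_le_self hC hρ
  have ha1 : |a| ≤ 1 / 2 + C := by
    have h2 : a = (a - 1 / 2) + 1 / 2 := by ring
    calc |a| = |(a - 1 / 2) + 1 / 2| := by rw [← h2]
      _ ≤ |a - 1 / 2| + |(1 : ℝ) / 2| := abs_add_le _ _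
      _ ≤ C + 1 / 2 := by
          rw [abs_of_pos (by norm_num : (0 : ℝ) < 1 / 2)]
          linarith
      _ = 1 / 2 + C := by ring
  have hb1 : |b| ≤ 1 / 2 + C := by
    have h2 : b = (b - 1 / 2) + 1 / 2 := by ring
    calc |b| = |(b - 1 / 2) + 1 / 2| := by rw [← h2]
      _ ≤ |b - 1 / 2| + |(1 : ℝ) / 2| := abs_add_le _ _
      _ ≤ C + 1 / 2 := by
          rw [abs_of_pos (by norm_num : (0 : ℝ) < 1 / 2)]
          linarith
      _ = 1 / 2 + C := by ring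
  have e : 1 - 4 * a * b * φ = -(4 * a * b * (φ - 1) + (4 * a * (b - 1 / 2) + 2 * (a - 1 / 2))) := by ring
  rw [e, abs_neg]
  calc |4 * a * b * (φ - 1) + (4 * a * (b - 1 / 2) + 2 * (a - 1 / 2))|
      ≤ |4 * a * b * (φ - 1)| + (|4 * a * (b - 1 / 2)| + |2 * (a - 1 / 2)|) :=
        (abs_add_le _ _).trans (add_le_add (le_refl _) (abs_add_le _ _))
    _ = 4 * |a| * |b| * |φ - 1| + (4 * |a| * |b - 1 / 2| + 2 * |a - 1 / 2|) := by
        rw [abs_mul, abs_mul, abs_mul, abs_mul, abs_mul, abs_mul]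
        norm_num
    _ ≤ 4 * (1 / 2 + C) * (1 / 2 + C) * (C / ρ) + (4 * (1 / 2 + C) * (C / ρ) + 2 * (C / ρ)) := by
        apply add_le_add
        · apply mul_le_mul _ hφ (abs_nonneg _) (by positivity)
          apply mul_le_mul _ hb1 (abs_nonneg _) (by positivity)
          exact mul_le_mul_of_nonneg_left ha1 (by norm_num)
        · apply add_le_add
          · apply mul_le_mul _ hb (abs_nonneg _) (by positivity)
            exact mul_le_mul_of_nonneg_left ha1 (by norm_num)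
          · exact mul_le_mul_of_nonneg_left ha (by norm_num)
    _ = C / ρ * (4 * (1 / 2 + C) * (1 / 2 + C) + 4 * (1 / 2 + C) + 2) := by ring

theorem mass_bdd {R₀ : ℝ} {F : E4 → ℝ} {k : ℝ → ℝ} {r : ℝ × ℝ → ℝ} {f : E3 → ℝ} (hS : Kin R₀ F k r f)
    {C R : ℝ} (hB : BD R₀ F k r f C R) :
    ∃ C' R' : ℝ, 0 ≤ C' ∧ R ≤ R' ∧ ∀ q ∈ QQ R₀ f, R' ≤ q.2 → |mass F k r q| ≤ C' := by
  obtain ⟨C', R', hC', hR', h⟩ := bd_ab hS hB
  refine ⟨C' * (4 * (1 / 2 + C') * (1 / 2 + C') + 4 * (1 / 2 + C') + 2), R', by positivity, hR', ?_⟩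
  intro q hq hqR
  obtain ⟨⟨h1, h2, h3⟩, -, -, h4, -, -⟩ := h q hq hqR
  have hρ : 1 ≤ q.2 := hB.R_pos.trans (hR'.trans hqR)
  have hρ0 : 0 < q.2 := by linarith
  have h5 := d4_alg hC' hρ h1 h2 h3
  unfold mass
  rw [abs_mul]
  calc |r q / 2| * |1 - 4 * Da k r q * Db k r q * mF F q|
      ≤ q.2 * (C' / q.2 * (4 * (1 / 2 + C') * (1 / 2 + C') + 4 * (1 / 2 + C') + 2)) := by
        apply mul_le_mul _ h5 (abs_nonneg _) hρ0.le
        rw [abs_div, abs_of_pos (by norm_num : (0 : ℝ) < 2)]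
        linarith
    _ = C' * (4 * (1 / 2 + C') * (1 / 2 + C') + 4 * (1 / 2 + C') + 2) := by
        rw [← mul_assoc, mul_div_cancel₀ _ hρ0.ne']

theorem mass_unif {R₀ : ℝ} {F : E4 → ℝ} {k : ℝ → ℝ} {r : ℝ × ℝ → ℝ} {f : E3 → ℝ} (hS : Kin R₀ F k r f)
    (hR : Red R₀ F k r f) {C R : ℝ} (hB : BD R₀ F k r f C R) :
    ∃ E : ℝ, ∀ ε : ℝ, 0 < ε → ∃ R' : ℝ, ∀ x : E3, R' ≤ ‖x‖ → |mass F k r (qq f x) - E| ≤ ε := by
  obtain ⟨C1, R1, -, hR1, h1⟩ := mass_bdd hS hB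
  obtain ⟨C2, L, R2, -, hL, hR2, h2⟩ := along hS hR hB
  have hgt : ∀ x : E3, max R1 R2 ≤ ‖x‖ → qq f x ∈ QQ R₀ f := fun x hx =>
    mem_QQ (hB.R_gt.trans_le (hR1.trans ((le_max_left _ _).trans hx)))
  obtain ⟨S, hS'⟩ : ∃ S : Set ℝ, S = {m | ∃ x : E3, max R1 R2 ≤ ‖x‖ ∧ mass F k r (qq f x) = m} := ⟨_, rfl⟩
  have hbdd : BddAbove S := by
    refine ⟨C1, ?_⟩
    rintro m hm
    rw [hS'] at hm
    obtain ⟨x, hx, rfl⟩ := hm
    exact (abs_le.1 (h1 _ (hgt x hx) ((le_max_left _ _).trans hx))).2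
  have hmem : ∀ x : E3, max R1 R2 ≤ ‖x‖ → mass F k r (qq f x) ∈ S := by
    intro x hx
    rw [hS']
    exact ⟨x, hx, rfl⟩
  have hne : S.Nonempty := by
    have h3 : 0 < max R1 R2 := by linarith [hB.R_pos, le_max_left R1 R2]
    refine ⟨_, hmem (max R1 R2 • (fb_e : E3)) ?_⟩
    rw [norm_smul, mem_sphere_zero_iff_norm.1 fb_e.2, mul_one, Real.norm_of_nonneg h3.le]
  refine ⟨sSup S, fun ε hε => ?_⟩
  obtain ⟨m, hm, hmε⟩ := exists_lt_of_lt_csSup hne (show sSup S - ε < sSup S by linarith)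
  rw [hS'] at hm
  obtain ⟨x0, hx0, rfl⟩ := hm
  refine ⟨‖x0‖ + L, fun y hy => ?_⟩
  have h4 := (h2 x0 y ((le_max_right _ _).trans hx0) hy).1
  have h5 := le_csSup hbdd (hmem y (by linarith))
  rw [abs_le]
  constructor <;> linarith

theorem ww_osc {R₀ : ℝ} {F : E4 → ℝ} {k : ℝ → ℝ} {r : ℝ × ℝ → ℝ} {f : E3 → ℝ} (hS : Kin R₀ F k r f)
    (hR : Red R₀ F k r f) {C R : ℝ} (hB : BD R₀ F k r f C R) {ε : ℝ} (hε : 0 < ε) :
    ∃ R' : ℝ, ∀ x y : E3, R' ≤ ‖x‖ → ‖y‖ = ‖x‖ → |ww r (qq f x) - ww r (qq f y)| ≤ ε := by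
  obtain ⟨C2, L, R2, hC2, hL, hR2, h2⟩ := along hS hR hB
  obtain ⟨E, hE⟩ := mass_unif hS hR hB
  obtain ⟨R3, h3⟩ := hE (ε / 64) (by positivity)
  refine ⟨max (max R2 R3) (4 * C2 * L / ε), fun x y hx hxy => ?_⟩
  have hx2 : R2 ≤ ‖x‖ := ((le_max_left _ _).trans (le_max_left _ _)).trans hx
  have hx3 : R3 ≤ ‖x‖ := ((le_max_right _ _).trans (le_max_left _ _)).trans hx
  have hx4 : 4 * C2 * L / ε ≤ ‖x‖ := (le_max_right _ _).trans hx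
  have hs : 0 < ‖x‖ := by linarith [hB.R_pos]
  obtain ⟨z, hz⟩ : ∃ z : E3, ‖z‖ = ‖x‖ + L := by
    refine ⟨((‖x‖ + L) / ‖x‖) • x, ?_⟩
    rw [norm_smul, Real.norm_of_nonneg (by positivity), div_mul_cancel₀ _ hs.ne']
  have a1 := (h2 x z hx2 hz.ge).2
  have a2 := (h2 y z (by rw [hxy]; exact hx2) (by rw [hxy]; exact hz.ge)).2
  have b1 := abs_le.1 (h3 x hx3)
  have b2 := abs_le.1 (h3 y (by rw [hxy]; exact hx3))
  have b3 := abs_le.1 (h3 z (by rw [hz]; linarith))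
  rw [hz] at a1 a2
  rw [hxy] at a2
  have e1 : ‖x‖ + L - ‖x‖ = L := by ring
  rw [e1] at a1 a2
  have h5 : C2 * L / ‖x‖ ≤ ε / 4 := by
    rw [div_le_iff₀ hε] at hx4
    rw [div_le_iff₀ hs]
    linarith
  have c1 := abs_le.1 a1
  have c2 := abs_le.1 a2
  rw [abs_le]
  constructor
  · linarith [c1.1, c1.2, c2.1, c2.2, b1.1, b1.2, b2.1, b2.2, b3.1, b3.2]
  · linarith [c1.1, c1.2, c2.1, c2.2, b1.1, b1.2, b2.1, b2.2, b3.1, b3.2]

end H74K
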