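import Pool.Agent.Lib.H74X.EB4
import Pool.Agent.Lib.H74X.EC6
import Pool.Agent.Lib.H74X.KD4
import Pool.Agent.Lib.H17V.E4

set_option autoImplicit false

/-!
# H74X, chunk EC7 (M): the linear momentum vanishes

Auxiliary names start with `ec7_`. Template: `H17V/E4.lean` (`e4_bound`, `mom_lim`, which can be copied; `H17V.flux_zero`), `EB4.lean` (`dens_cont`).
-/

open MeasureTheory Filter Topology Set Asymptotics
open scoped ContDiff

namespace H74E

open H17T H17B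
open H17V (BD Near QQ ww)
open H74X (metric SpaceTime AsympFlatB Small Small2)
open H74K (Kin)
open Pool.Agent.Lib.PenroseSph (E3 Tens S2 sm pd momDensity admMom)

variable {R₀ β : ℝ} {D : Set (ℝ × ℝ)} {F : E4 → ℝ} {k : ℝ → ℝ} {r : ℝ × ℝ → ℝ} {H : E4 → Matrix (Fin 3) (Fin 3) ℝ}
  {U W : E4 → Fin 3 → ℝ} {f : E3 → ℝ}

/-- The expansion with explicit constants. -/
theorem ec7_exp (hS : H74X.Slice R₀ D F k r H U W f) (hA : Asy D F k r H U W f) (hf : ∀ i, Om 1 (pd i f)) (i : Fin 3) (R : ℝ) :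
    ∃ C1 R1 : ℝ, 0 ≤ C1 ∧ R ≤ R1 ∧ ∀ x : E3, R1 ≤ ‖x‖ →
      |momDensity (slice (metric F k r H U W) f) (second (metric F k r H U W) f) i x
        - ((∑ j, (pd j (pd i f) x * (x j / ‖x‖) - pd j (pd j f) x * (x i / ‖x‖)))
          - 2 * (fderiv ℝ r (qq f x) (1, 0) / ‖x‖) * (x i / ‖x‖) + Xm U W f i x)| ≤ C1 / ‖x‖ ^ 3 := by
  obtain ⟨C, hC, h1⟩ := (mom_exp hS.st hA hf i).exists_nonneg
  rw [isBigOWith_iff] at h1
  obtain ⟨R1, -, hR1⟩ := (Metric.hasBasis_cobounded_compl_closedBall (0 : E3)).eventually_iff.1 h1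
  refine ⟨C, max R (max (R1 + 1) 1), hC, le_max_left _ _, fun x hx => ?_⟩
  have hx1 : R1 + 1 ≤ ‖x‖ := (le_max_left _ _).trans ((le_max_right _ _).trans hx)
  have hx2 : 1 ≤ ‖x‖ := (le_max_right _ _).trans ((le_max_right _ _).trans hx)
  have h2 := hR1 (show x ∈ (Metric.closedBall (0 : E3) R1)ᶜ by
    rw [Set.mem_compl_iff, mem_closedBall_zero_iff]
    intro h3
    linarith)
  rw [Real.norm_eq_abs, Real.norm_eq_abs, abs_of_nonneg (by positivity : (0 : ℝ) ≤ (‖x‖ ^ 3)⁻¹), ← div_eq_mul_inv] at h2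
  exact h2

/-- The estimate at one radius. -/
theorem ec7_bound (hS : H74X.Slice R₀ D F k r H U W f) {C R : ℝ}
    (hB : BD R₀ F k r f C R) (i : Fin 3) {C1 R1 : ℝ} (hR1 : R ≤ R1)
    (h1 : ∀ x : E3, R1 ≤ ‖x‖ →
      |momDensity (slice (metric F k r H U W) f) (second (metric F k r H U W) f) i x
        - ((∑ j, (pd j (pd i f) x * (x j / ‖x‖) - pd j (pd j f) x * (x i / ‖x‖)))
          - 2 * (fderiv ℝ r (qq f x) (1, 0) / ‖x‖) * (x i / ‖x‖) + Xm U W f i x)| ≤ C1 / ‖x‖ ^ 3)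
    {s : ℝ} (hs : R1 ≤ s) {ε C2 : ℝ} (hX : |∫ n : S2, Xm U W f i (s • (n : E3)) ∂sm| ≤ C2 / s ^ 3)
    (hosc : ∀ x y : E3, ‖x‖ = s → ‖y‖ = s → |ww r (qq f x) - ww r (qq f y)| ≤ ε) :
    ‖admMom (slice (metric F k r H U W) f) (second (metric F k r H U W) f) i s‖ ≤
      (|C1| + 2 * C ^ 2) / 2 / s + |C2| / s + ε := by
  obtain ⟨n0⟩ : Nonempty S2 := ⟨⟨EuclideanSpace.single 0 1, by simp⟩⟩
  have hcoord : ∀ j : Fin 3, Continuous fun n : S2 => (n : E3) j := fun j => by fun_prop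
  have hci : ∫ n : S2, (n : E3) i ∂sm = 0 := by
    have a1 := Pool.Agent.Lib.PenroseSph.avg_coord (t := 1) one_pos i
    unfold Pool.Agent.Lib.PenroseSph.avg at a1
    have hpi : (4 * Real.pi)⁻¹ ≠ 0 := by positivity
    have a2 := (mul_eq_zero.1 a1).resolve_left hpi
    simp only [one_smul] at a2
    exact a2
  have hC0 := hB.C_nonneg
  have hs1 : 1 ≤ s := by linarith [hB.R_pos]
  have hsR : R₀ < s := by linarith [hB.R_gt]
  have hs0 : 0 < s := by linarith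
  have hpi := Real.pi_pos
  have hR00 := hS.st.nonneg
  obtain ⟨w0, hw0⟩ : ∃ w0, w0 = ww r (qq f (s • (n0 : E3))) := ⟨_, rfl⟩
  obtain ⟨mo, hmo⟩ : ∃ mo : S2 → ℝ, mo = fun n : S2 => momDensity (slice (metric F k r H U W) f)
    (second (metric F k r H U W) f) i (s • (n : E3)) := ⟨_, rfl⟩
  obtain ⟨Xn, hXn⟩ : ∃ Xn : S2 → ℝ, Xn = fun n : S2 => Xm U W f i (s • (n : E3)) := ⟨_, rfl⟩
  obtain ⟨D', hD⟩ : ∃ D' : S2 → ℝ, D' = fun n : S2 => ∑ j, (pd j (pd i f) (s • (n : E3)) * (n : E3) j -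
    pd j (pd j f) (s • (n : E3)) * (n : E3) i) := ⟨_, rfl⟩
  have hnn : ∀ n : S2, ‖s • (n : E3)‖ = s := Pool.Agent.Lib.PenroseSph.norm_ray hs0
  have hne : ∀ n : S2, R₀ < ‖s • (n : E3)‖ := fun n => by rw [hnn n]; exact hsR
  have hne0 : ∀ n : S2, s • (n : E3) ≠ 0 := fun n => norm_pos_iff.1 (lt_of_le_of_lt hR00 (hne n))
  have cmo : Continuous mo := by
    rw [hmo, continuous_iff_continuousAt]
    intro n
    have a1 : ContinuousAt (fun n : S2 => s • (n : E3)) n := by fun_prop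
    exact ContinuousAt.comp (f := fun n : S2 => s • (n : E3)) (dens_cont (H74X.sl_at hS (hne n)) (hne0 n) i).2 a1
  have cX : Continuous Xn := by
    rw [hXn, continuous_iff_continuousAt]
    intro n
    have a1 : ContinuousAt (fun n : S2 => s • (n : E3)) n := by fun_prop
    exact ContinuousAt.comp (f := fun n : S2 => s • (n : E3)) (Xm_cont hS (hne n) i) a1
  have cD : Continuous D' := by
    have b1 : ∀ j, ∀ x : E3, R₀ < ‖x‖ → ContDiffAt ℝ ∞ (pd j f) x := fun j x hx => H17T.f8a_sm (hS.f_smooth x hx) j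
    have b2 : ∀ i j, ∀ x : E3, R₀ < ‖x‖ → ContDiffAt ℝ ∞ (pd i (pd j f)) x := fun i j x hx => H17T.f8a_sm (b1 j x hx) i
    rw [hD]
    exact continuous_finsetSum _ fun j _ =>
      ((H17V.f8_cont hR00 (fun x hx => (b2 j i x hx).continuousAt) hsR).mul (hcoord j)).sub
        ((H17V.f8_cont hR00 (fun x hx => (b2 j j x hx).continuousAt) hsR).mul (hcoord i))
  have hDz : ∫ n : S2, D' n ∂sm = 0 := by
    rw [hD]
    exact H17V.flux_zero hR00 hS.f_smooth hsR i
  have hb : ∀ n : S2, ‖s ^ 2 * mo n - s ^ 2 * D' n - s ^ 2 * Xn n + 2 * w0 * (n : E3) i‖ ≤ (|C1| + 2 * C ^ 2) / s + 2 * ε := by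
    intro n
    have a1 := h1 (s • (n : E3)) (by rw [hnn n]; exact hs)
    rw [hnn n] at a1
    have hq : qq f (s • (n : E3)) ∈ QQ R₀ f := ⟨_, hne n, rfl⟩
    have hq2 : (qq f (s • (n : E3))).2 = s := hnn n
    have a2 := hB.r0 _ hq (by rw [hq2]; linarith)
    have a3 := hB.rT _ hq (by rw [hq2]; linarith)
    rw [hq2] at a2 a3
    have a4 := hosc (s • (n : E3)) (s • (n0 : E3)) (hnn n) (hnn n0)
    rw [← hw0] at a4
    unfold ww at a4
    obtain ⟨qn, hqn⟩ : ∃ qn, qn = fderiv ℝ r (qq f (s • (n : E3))) (1, 0) := ⟨_, rfl⟩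
    obtain ⟨rn, hrn⟩ : ∃ rn, rn = r (qq f (s • (n : E3))) := ⟨_, rfl⟩
    rw [← hqn] at a1 a3 a4
    rw [← hrn] at a2 a4
    have e1 : ∀ j, (s • (n : E3)) j / s = (n : E3) j := by
      intro j
      simp only [PiLp.smul_apply, smul_eq_mul]
      field_simp
    simp only [e1] at a1
    have e2 : momDensity (slice (metric F k r H U W) f) (second (metric F k r H U W) f) i (s • (n : E3)) = mo n := by
      rw [hmo]
    have e2' : Xm U W f i (s • (n : E3)) = Xn n := by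
      rw [hXn]
    have e3 : (∑ j, (pd j (pd i f) (s • (n : E3)) * (n : E3) j - pd j (pd j f) (s • (n : E3)) * (n : E3) i)) = D' n := by
      rw [hD]
    rw [e2, e2', e3] at a1
    have hni : |(n : E3) i| ≤ 1 := by
      have b1 := H17T.f2_coord (n : E3) i
      have b2 : ‖(n : E3)‖ = 1 := by simp
      rwa [b2] at b1
    have e4 : s ^ 2 * mo n - s ^ 2 * D' n - s ^ 2 * Xn n + 2 * w0 * (n : E3) i =
        s ^ 2 * (mo n - (D' n - 2 * (qn / s) * (n : E3) i + Xn n)) + 2 * ((rn - s) * qn) * (n : E3) i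
          - 2 * (rn * qn - w0) * (n : E3) i := by
      field_simp
      ring
    rw [Real.norm_eq_abs, e4]
    have c1 : |s ^ 2 * (mo n - (D' n - 2 * (qn / s) * (n : E3) i + Xn n))| ≤ |C1| / s := by
      rw [abs_mul, abs_of_pos (by positivity : (0 : ℝ) < s ^ 2)]
      calc s ^ 2 * |mo n - (D' n - 2 * (qn / s) * (n : E3) i + Xn n)| ≤ s ^ 2 * (C1 / s ^ 3) :=
            mul_le_mul_of_nonneg_left a1 (by positivity)
        _ = C1 / s := by field_simp
        _ ≤ |C1| / s := div_le_div_of_nonneg_right (le_abs_self C1) hs0.le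
    have c2 : |2 * ((rn - s) * qn) * (n : E3) i| ≤ 2 * C ^ 2 / s := by
      rw [abs_mul, abs_mul, abs_mul, abs_of_pos (by norm_num : (0 : ℝ) < 2)]
      have d1 : |rn - s| * |qn| ≤ C * (C / s) := mul_le_mul a2 a3 (abs_nonneg _) hC0
      calc 2 * (|rn - s| * |qn|) * |(n : E3) i| ≤ 2 * (|rn - s| * |qn|) * 1 :=
            mul_le_mul_of_nonneg_left hni (by positivity)
        _ ≤ 2 * (C * (C / s)) * 1 := by linarith
        _ = 2 * C ^ 2 / s := by ring
    have c3 : |2 * (rn * qn - w0) * (n : E3) i| ≤ 2 * ε := by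
      rw [abs_mul, abs_mul, abs_of_pos (by norm_num : (0 : ℝ) < 2)]
      calc 2 * |rn * qn - w0| * |(n : E3) i| ≤ 2 * |rn * qn - w0| * 1 :=
            mul_le_mul_of_nonneg_left hni (by positivity)
        _ ≤ 2 * ε := by linarith
    have c4 := abs_sub (s ^ 2 * (mo n - (D' n - 2 * (qn / s) * (n : E3) i + Xn n)) + 2 * ((rn - s) * qn) * (n : E3) i)
      (2 * (rn * qn - w0) * (n : E3) i)
    have c5 := abs_add_le (s ^ 2 * (mo n - (D' n - 2 * (qn / s) * (n : E3) i + Xn n))) (2 * ((rn - s) * qn) * (n : E3) i)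
    have c6 : (|C1| + 2 * C ^ 2) / s = |C1| / s + 2 * C ^ 2 / s := by ring
    rw [c6]
    linarith
  have hint := norm_integral_le_of_norm_le_const (μ := sm) (Filter.Eventually.of_forall hb)
  rw [Pool.Agent.Lib.PenroseSph.sm_univ] at hint
  have i1 : Integrable (fun n : S2 => s ^ 2 * mo n) sm :=
    Pool.Agent.Lib.PenroseSph.integrable_S2 (continuous_const.mul cmo)
  have i2 : Integrable (fun n : S2 => s ^ 2 * D' n) sm :=
    Pool.Agent.Lib.PenroseSph.integrable_S2 (continuous_const.mul cD)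
  have i4 : Integrable (fun n : S2 => s ^ 2 * Xn n) sm :=
    Pool.Agent.Lib.PenroseSph.integrable_S2 (continuous_const.mul cX)
  have i3 : Integrable (fun n : S2 => 2 * w0 * (n : E3) i) sm :=
    Pool.Agent.Lib.PenroseSph.integrable_S2 (continuous_const.mul (hcoord i))
  have e5 : ∫ n : S2, (s ^ 2 * mo n - s ^ 2 * D' n - s ^ 2 * Xn n + 2 * w0 * (n : E3) i) ∂sm =
      (∫ n : S2, s ^ 2 * mo n ∂sm) - s ^ 2 * ∫ n : S2, Xn n ∂sm := by
    have i12 : Integrable (fun n : S2 => s ^ 2 * mo n - s ^ 2 * D' n) sm := i1.sub i2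
    have i124 : Integrable (fun n : S2 => s ^ 2 * mo n - s ^ 2 * D' n - s ^ 2 * Xn n) sm := i12.sub i4
    rw [integral_add i124 i3, integral_sub i12 i4, integral_sub i1 i2, integral_const_mul (s ^ 2) D', hDz,
      integral_const_mul (2 * w0), hci, integral_const_mul (s ^ 2) Xn]
    ring
  rw [e5] at hint
  have hX' : |s ^ 2 * ∫ n : S2, Xn n ∂sm| ≤ |C2| / s := by
    rw [abs_mul, abs_of_pos (by positivity : (0 : ℝ) < s ^ 2), hXn]
    calc s ^ 2 * |∫ n : S2, Xm U W f i (s • (n : E3)) ∂sm| ≤ s ^ 2 * (C2 / s ^ 3) :=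
          mul_le_mul_of_nonneg_left hX (by positivity)
      _ = C2 / s := by field_simp
      _ ≤ |C2| / s := div_le_div_of_nonneg_right (le_abs_self C2) hs0.le
  have hint2 : ‖∫ n : S2, s ^ 2 * mo n ∂sm‖ ≤ ((|C1| + 2 * C ^ 2) / s + 2 * ε) * (4 * Real.pi) + |C2| / s := by
    have e7 : ∫ n : S2, s ^ 2 * mo n ∂sm = ((∫ n : S2, s ^ 2 * mo n ∂sm) - s ^ 2 * ∫ n : S2, Xn n ∂sm) +
        s ^ 2 * ∫ n : S2, Xn n ∂sm := by ring
    rw [e7]
    exact (norm_add_le _ _).trans (add_le_add hint hX')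
  have e6 : admMom (slice (metric F k r H U W) f) (second (metric F k r H U W) f) i s =
      1 / (8 * Real.pi) * ∫ n : S2, s ^ 2 * mo n ∂sm := by
    rw [hmo]
    rfl
  have hpi1 : 1 / (8 * Real.pi) ≤ 1 := by
    rw [div_le_one (by positivity)]
    linarith [Real.pi_gt_three]
  have hC2 : 0 ≤ |C2| / s := by positivity
  rw [e6, norm_mul, Real.norm_eq_abs, abs_of_pos (by positivity : (0 : ℝ) < 1 / (8 * Real.pi))]
  calc 1 / (8 * Real.pi) * ‖∫ n : S2, s ^ 2 * mo n ∂sm‖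
      ≤ 1 / (8 * Real.pi) * (((|C1| + 2 * C ^ 2) / s + 2 * ε) * (4 * Real.pi) + |C2| / s) :=
        mul_le_mul_of_nonneg_left hint2 (by positivity)
    _ = (|C1| + 2 * C ^ 2) / 2 / s + ε + 1 / (8 * Real.pi) * (|C2| / s) := by
        field_simp
        ring
    _ ≤ (|C1| + 2 * C ^ 2) / 2 / s + |C2| / s + ε := by
        have := mul_le_mul_of_nonneg_right hpi1 hC2
        linarith

/-- As `H17V.mom_lim`, with the additional term `Xm` (`mom_exp`, `mean_Xm`, `Xm_cont`). -/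
theorem mom_lim (hS : H74X.Slice R₀ D F k r H U W f) (hA : Asy D F k r H U W f) (hf : ∀ i, Om 1 (pd i f))
    (hK : Kin R₀ F k r f) {C R : ℝ} (hB : BD R₀ F k r f C R)
    (hU : ∀ i, Small R₀ f 1 fun p => U p i) (hU2 : ∀ i, Small2 R₀ f fun p => U p i)
    (hW2 : ∀ i, Small2 R₀ f fun p => W p i)
    (hosc : ∀ ε : ℝ, 0 < ε → ∃ R' : ℝ, ∀ x y : E3, R' ≤ ‖x‖ → ‖y‖ = ‖x‖ → |ww r (qq f x) - ww r (qq f y)| ≤ ε)
    (i : Fin 3) :
    Tendsto (admMom (slice (metric F k r H U W) f) (second (metric F k r H U W) f) i) atTop (𝓝 0) := by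
  obtain ⟨C2, R3, hC2, hR3, hX⟩ := mean_Xm hS hK hB hU hU2 hW2 i
  obtain ⟨C1, R1, -, hR1, h1⟩ := ec7_exp hS hA hf i R
  rw [Metric.tendsto_atTop]
  intro η hη
  obtain ⟨R2, h2⟩ := hosc (η / 4) (by linarith)
  set K : ℝ := (|C1| + 2 * C ^ 2) / 2 + |C2| with hKdef
  have hK0 : 0 ≤ K := by positivity
  refine ⟨max (max R1 (max R2 R3)) (max 1 (2 * K / η)), fun s hs => ?_⟩
  have hs1 : R1 ≤ s := (le_max_left _ _).trans ((le_max_left _ _).trans hs)
  have hs2 : R2 ≤ s := (le_max_left _ _).trans ((le_max_right _ _).trans ((le_max_left _ _).trans hs))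
  have hs5 : R3 ≤ s := (le_max_right _ _).trans ((le_max_right _ _).trans ((le_max_left _ _).trans hs))
  have hs3 : 1 ≤ s := (le_max_left _ _).trans ((le_max_right _ _).trans hs)
  have hs4 : 2 * K / η ≤ s := (le_max_right _ _).trans ((le_max_right _ _).trans hs)
  have hs0 : 0 < s := by linarith
  have h3 := ec7_bound hS hB i hR1 h1 hs1 (ε := η / 4) (hX s hs5)
    fun x y hx hy => h2 x y (by rw [hx]; exact hs2) (by rw [hx, hy])
  rw [dist_zero_right]
  have h4 : K / s ≤ η / 2 := by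
    rw [div_le_iff₀ hs0]
    rw [div_le_iff₀ hη] at hs4
    linarith
  have h5 : K / s = (|C1| + 2 * C ^ 2) / 2 / s + |C2| / s := by
    rw [hKdef, add_div]
  linarith

end H74E
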