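import Pool.Agent.Lib.H74X.KD4
import Pool.Agent.Lib.H74X.R2

set_option autoImplicit false

/-!
# H74X, chunk ED1A (S): kinematic conditions

Auxiliary names start with `ed1a_`. 
-/

open MeasureTheory Filter Topology Set
open scoped ContDiff

namespace H74E

open H17T

open H17V (BD QQ Near)

open H74X (metric SpaceTime AsympFlatB Fb Fb_smooth Fb_ev mF_smooth)

open H74K (Kin bounds bd_ab)

open Pool.Agent.Lib.PenroseSph (E3 Tens S2 sm pd)

variable {R₀ : ℝ} {D : Set (ℝ × ℝ)} {F : E4 → ℝ} {k : ℝ → ℝ} {r : ℝ × ℝ → ℝ} {H : E4 → Matrix (Fin 3) (Fin 3) ℝ}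
  {U W : E4 → Fin 3 → ℝ} {f : E3 → ℝ}

/-- The events `Near R₀ f` are over `D` (`hS.mem`). -/
theorem near_dom (hS : H74X.Slice R₀ D F k r H U W f) {p : E4} (hp : p ∈ Near R₀ f) : (p 0, ‖pos p‖) ∈ D := by
  obtain ⟨h1, y, h2, h3⟩ := hp
  have h4 := hS.mem y (by rw [h2]; exact h1)
  rw [h2, h3] at h4
  exact h4

theorem kin_F (hS : H74X.Slice R₀ D F k r H U W f) : Kin R₀ F k r f :=
  ⟨hS.st.nonneg, fun p hp => hS.st.F_smooth p (near_dom hS hp), fun p hp => hS.st.F_pos p (near_dom hS hp),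
    hS.st.k_smooth, hS.st.k_pos, fun p hp => hS.st.r_smooth _ (near_dom hS hp), fun p hp => hS.st.r_pos _ (near_dom hS hp),
    hS.f_smooth, hS.slope⟩

/-- `Fb_smooth`. -/
theorem kin_Fb (hS : H74X.Slice R₀ D F k r H U W f) : Kin R₀ (Fb F) k r f :=
  ⟨hS.st.nonneg, fun _ hp => (Fb_smooth hS.st (near_dom hS hp)).1, fun _ hp => (Fb_smooth hS.st (near_dom hS hp)).2,
    hS.st.k_smooth, hS.st.k_pos, fun p hp => hS.st.r_smooth _ (near_dom hS hp), fun p hp => hS.st.r_pos _ (near_dom hS hp),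
    hS.f_smooth, hS.slope⟩

end H74E
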