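import Pool.Agent.Lib.H17T.T6
import Pool.Agent.Lib.H74X.ED1A
import Pool.Agent.Lib.H74X.KD4
import Pool.Agent.Lib.H74X.R2

set_option autoImplicit false

/-!
# H74X, chunk ED1B (M): bounds for the mean

Auxiliary names start with `ed1b_`. 
-/

open MeasureTheory Filter Topology Set
open scoped ContDiff

namespace H74E

open H17T

open H17V (BD QQ Near)

open H74X (metric SpaceTime AsympFlatB Fb Fb_smooth Fb_ev mF_smooth)

open H74K (Kin bounds bd_ab)

open Pool.Agent.Lib.PenroseSph (E3 Tens S2 sm pd)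

variable {R₀ : ℝ} {D : Set (ℝ × ℝ)} {F : E4 → ℝ} {k : ℝ → ℝ} {r : ℝ × ℝ → ℝ} {H : E4 → Matrix (Fin 3) (Fin 3) ℝ}
  {U W : E4 → Fin 3 → ℝ} {f : E3 → ℝ}

/-- Chain rule for functions of `(T, ρ)`. -/
theorem ed1b_fd {φ : ℝ × ℝ → ℝ} {p : E4} (hp : pos p ≠ 0) (hφ : DifferentiableAt ℝ φ (p 0, ‖pos p‖)) (v : E4) :
    DifferentiableAt ℝ (fun q : E4 => φ (q 0, ‖pos q‖)) p ∧
    fderiv ℝ (fun q : E4 => φ (q 0, ‖pos q‖)) p v =
      fderiv ℝ φ (p 0, ‖pos p‖) (v 0, (∑ i : Fin 3, pos p i * pos v i) / ‖pos p‖) := by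
  have h0 : DifferentiableAt ℝ (fun q : E4 => q 0) p :=
    (EuclideanSpace.proj (𝕜 := ℝ) (0 : Fin 4)).differentiableAt
  have h1 : DifferentiableAt ℝ (fun q : E4 => ‖pos q‖) p :=
    (pos_smooth.contDiffAt.differentiableAt (by simp)).norm ℝ hp
  have hd : DifferentiableAt ℝ (fun q : E4 => φ (q 0, ‖pos q‖)) p :=
    DifferentiableAt.comp (g := φ) (f := fun q : E4 => (q 0, ‖pos q‖)) p hφ (h0.prodMk h1)
  refine ⟨hd, t6_line0 hd v _ ?_⟩
  have h2 : HasDerivAt (fun t : ℝ => ((p + t • v) 0, ‖pos (p + t • v)‖)) (v 0, (∑ i : Fin 3, pos p i * pos v i) / ‖pos p‖) 0 :=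
    (t6_co p v 0).prodMk (t6_rho hp v)
  have h3 : HasFDerivAt φ (fderiv ℝ φ (p 0, ‖pos p‖)) ((fun t : ℝ => ((p + t • v) 0, ‖pos (p + t • v)‖)) 0) := by
    have e : (fun t : ℝ => ((p + t • v) 0, ‖pos (p + t • v)‖)) 0 = (p 0, ‖pos p‖) := by
      simp
    rw [e]
    exact hφ.hasFDerivAt
  exact h3.comp_hasDerivAt (0 : ℝ) h2

/-- The derivative in an arbitrary direction by `Da`, `Db`. -/
theorem ed1b_ab {φ : ℝ × ℝ → ℝ} {q : ℝ × ℝ} (hk : k q.2 ≠ 0) (x y : ℝ) :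
    fderiv ℝ φ q (x, y) = x * (Da k φ q - Db k φ q) + y * (k q.2 * (Da k φ q + Db k φ q)) := by
  have e : ((x, y) : ℝ × ℝ) = (x + y * k q.2) • ((1 / 2, 1 / (2 * k q.2)) : ℝ × ℝ) +
      (y * k q.2 - x) • ((-(1 / 2), 1 / (2 * k q.2)) : ℝ × ℝ) := by
    rw [Prod.smul_mk, Prod.smul_mk, Prod.mk_add_mk, smul_eq_mul, smul_eq_mul, smul_eq_mul, smul_eq_mul]
    congr 1
    · ring
    · field_simp
      ring
  unfold Da Db
  rw [e, map_add, map_smul, map_smul, smul_eq_mul, smul_eq_mul]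
  ring

/-- `Fb = 1/<1/F>`: `|Fb - 1| ≤ 2 |mF - 1|` (`bd_ab`: `mF ≥ 1/2`). The derivatives: at an event `ev q n` with `q ∈ QQ`, `∂_0 Fb = - (∂_T mF)/mF²`, `∂_{j+1} Fb = - n_j (∂_ρ mF)/mF²` (chain rule with
`p ↦ (p 0, ‖pos p‖)`), and `∂_T mF = D_a mF - D_b mF`, `∂_ρ mF = k (D_a mF + D_b mF)` (`Da k φ q = fderiv φ q (1/2, 1/(2k))`, `Db k φ q = fderiv φ q (-1/2, 1/(2k))`), which are `O(1/ρ²)` (`bd_ab`). -/
theorem bd_Fb (hS : H74X.Slice R₀ D F k r H U W f) {C R : ℝ} (hB : BD R₀ F k r f C R) :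
    ∃ C' R' : ℝ, BD R₀ (Fb F) k r f C' R' := by
  obtain ⟨C', R', hC', hR', h⟩ := bd_ab (kin_F hS) hB
  have hC := hB.C_nonneg
  have hm1 : ∀ {t : ℝ}, 0 ≤ t → C / t ≤ (C + 18 * C') / t := fun ht => by
    apply div_le_div_of_nonneg_right _ ht
    linarith
  have hev : ∀ q ∈ QQ R₀ f, R' ≤ q.2 → ∀ n : S2, 0 < q.2 ∧ ev q n ∈ Near R₀ f ∧ pos (ev q n) = q.2 • (n : E3) ∧
      ‖pos (ev q n)‖ = q.2 ∧ ev q n 0 = q.1 := by
    intro q hq hqR n
    have h1 : 0 < q.2 := by linarith [hB.R_pos]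
    exact ⟨h1, H17V.ev_near hS.st.nonneg hq n⟩
  refine ⟨C + 18 * C', R', ⟨by positivity, hB.R_pos.trans hR', hB.R_gt.trans_le hR', ?_, ?_, ?_, ?_, ?_, ?_, ?_, ?_, ?_⟩⟩
  · exact fun x hx i => (hB.f1 x (hR'.trans hx) i).trans (hm1 (norm_nonneg x))
  · exact fun x hx i j => (hB.f2 x (hR'.trans hx) i j).trans (hm1 (by positivity))
  · intro q hq hqR n
    obtain ⟨h0, -, -, -, -⟩ := hev q hq hqR n
    obtain ⟨⟨-, -, h1⟩, -, ⟨-, -, h2, -⟩, -⟩ := h q hq hqR
    rw [Fb_ev F h0]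
    have hm : 0 < mF F q := by linarith
    have e : (mF F q)⁻¹ - 1 = -((mF F q - 1) / mF F q) := by
      field_simp
      ring
    rw [e, abs_neg, abs_div, abs_of_pos hm, div_le_div_iff₀ hm h0]
    have h3 : |mF F q - 1| * q.2 ≤ C' := by
      rw [le_div_iff₀ h0] at h1
      exact h1
    nlinarith
  · intro q hq hqR n a
    obtain ⟨h0, hn, hpos, hnorm, h00⟩ := hev q hq hqR n
    obtain ⟨-, ⟨h1, h2⟩, ⟨-, -, h3, -⟩, -, hk1, hk2⟩ := h q hq hqR
    have hm : 0 < mF F q := by linarith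
    have hk : k q.2 ≠ 0 := by
      have : 0 < k q.2 := by linarith
      exact this.ne'
    have hpn : pos (ev q n) ≠ 0 := by
      rw [← norm_pos_iff, hnorm]
      exact h0
    have hqD : q ∈ D := by
      have h4 := near_dom hS hn
      rw [h00, hnorm] at h4
      exact h4
    have hmd : DifferentiableAt ℝ (mF F) (ev q n 0, ‖pos (ev q n)‖) := by
      rw [h00, hnorm]
      exact (mF_smooth hS.st hqD).1.differentiableAt (by simp)
    obtain ⟨hd, hfd⟩ := ed1b_fd hpn hmd (H31R.ebas a)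
    have h5 : H31R.pd a (Fb F) (ev q n) = -(mF F q ^ 2)⁻¹ * fderiv ℝ (mF F) q (H31R.ebas a 0, (∑ i : Fin 3, pos (ev q n) i *
        pos (H31R.ebas a) i) / q.2) := by
      unfold H31R.pd Fb
      have h6 : mF F (ev q n 0, ‖pos (ev q n)‖) ≠ 0 := by
        rw [h00, hnorm]
        exact hm.ne'
      have h7 : HasFDerivAt (fun p : E4 => (mF F (p 0, ‖pos p‖))⁻¹) ((-(mF F (ev q n 0, ‖pos (ev q n)‖) ^ 2)⁻¹) •
          fderiv ℝ (fun p : E4 => mF F (p 0, ‖pos p‖)) (ev q n)) (ev q n) :=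
        (hasDerivAt_inv h6).comp_hasFDerivAt (ev q n) hd.hasFDerivAt
      rw [h7.fderiv, ContinuousLinearMap.smul_apply, hfd, h00, hnorm, smul_eq_mul]
    have h8 : |H31R.ebas a 0| ≤ 1 := by
      unfold H31R.ebas
      rcases eq_or_ne a 0 with ha | ha
      · rw [ha]
        simp
      · simp [ha.symm]
    have h9 : |(∑ i : Fin 3, pos (ev q n) i * pos (H31R.ebas a) i) / q.2| ≤ 1 := by
      rw [hpos]
      have h10 : ∑ i : Fin 3, (q.2 • (n : E3)) i * pos (H31R.ebas a) i =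
          q.2 * ∑ i : Fin 3, (n : E3) i * pos (H31R.ebas a) i := by
        rw [Finset.mul_sum]
        refine Finset.sum_congr rfl fun i _ => ?_
        rw [PiLp.smul_apply, smul_eq_mul]
        ring
      rw [h10, mul_div_cancel_left₀ _ h0.ne']
      have h11 : ∀ i : Fin 3, |(n : E3) i| ≤ 1 := by
        intro i
        have h12 : ‖(n : E3)‖ = 1 := mem_sphere_zero_iff_norm.1 n.2
        have h13 := PiLp.norm_apply_le (n : E3) i
        rw [h12] at h13
        exact h13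
      refine Fin.cases ?_ (fun j => ?_) a
      · have h14 : ∀ i : Fin 3, pos (H31R.ebas (0 : Fin 4)) i = 0 := by
          intro i
          rw [t6_pos_ap]
          simp [H31R.ebas]
        simp [h14]
      · have h14 : ∀ i : Fin 3, pos (H31R.ebas j.succ) i = if i = j then 1 else 0 := by
          intro i
          rw [t6_pos_ap]
          simp [H31R.ebas, Fin.succ_inj]
        simp only [h14]
        simpa using h11 j
    have hk0 : |k q.2| ≤ 5 / 4 := by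
      rw [abs_of_pos (by linarith)]
      exact hk2
    set t : ℝ := C' / q.2 ^ 2 with ht
    have ht0 : 0 ≤ t := by positivity
    have h15 : |fderiv ℝ (mF F) q (H31R.ebas a 0, (∑ i : Fin 3, pos (ev q n) i * pos (H31R.ebas a) i) / q.2)| ≤ 9 / 2 * t := by
      rw [ed1b_ab hk]
      have h16 : |Da k (mF F) q - Db k (mF F) q| ≤ 2 * t := (abs_sub _ _).trans (by linarith)
      have h17 : |Da k (mF F) q + Db k (mF F) q| ≤ 2 * t := (abs_add_le _ _).trans (by linarith)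
      refine (abs_add_le _ _).trans ?_
      rw [abs_mul, abs_mul, abs_mul]
      have h18 : |H31R.ebas a 0| * |Da k (mF F) q - Db k (mF F) q| ≤ 1 * (2 * t) :=
        mul_le_mul h8 h16 (abs_nonneg _) (by norm_num)
      have h19 : |(∑ i : Fin 3, pos (ev q n) i * pos (H31R.ebas a) i) / q.2| * (|k q.2| * |Da k (mF F) q + Db k (mF F) q|) ≤
          1 * (5 / 4 * (2 * t)) :=
        mul_le_mul h9 (mul_le_mul hk0 h17 (abs_nonneg _) (by norm_num)) (by positivity) (by norm_num)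
      linarith
    have h20 : (mF F q ^ 2)⁻¹ ≤ 4 := by
      rw [inv_le_comm₀ (by positivity) (by norm_num)]
      nlinarith
    rw [h5, abs_mul, abs_neg, abs_of_nonneg (by positivity)]
    calc (mF F q ^ 2)⁻¹ * |fderiv ℝ (mF F) q (H31R.ebas a 0, (∑ i : Fin 3, pos (ev q n) i * pos (H31R.ebas a) i) / q.2)|
        ≤ 4 * (9 / 2 * t) := mul_le_mul h20 h15 (abs_nonneg _) (by norm_num)
      _ ≤ (C + 18 * C') / q.2 ^ 2 := by
          have h21 : 4 * (9 / 2 * t) = 18 * C' / q.2 ^ 2 := by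
            rw [ht]
            ring
          rw [h21]
          apply div_le_div_of_nonneg_right _ (by positivity)
          linarith
  · exact fun ρ hρ => (hB.k0 ρ (hR'.trans hρ)).trans (hm1 (by linarith [hB.R_pos]))
  · exact fun ρ hρ => (hB.k1 ρ (hR'.trans hρ)).trans (hm1 (by positivity))
  · exact fun q hq hqR => (hB.r0 q hq (hR'.trans hqR)).trans (by linarith)
  · exact fun q hq hqR => (hB.rT q hq (hR'.trans hqR)).trans (hm1 (by linarith [hB.R_pos]))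
  · exact fun q hq hqR => (hB.rR q hq (hR'.trans hqR)).trans (hm1 (by linarith [hB.R_pos]))

end H74E
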