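import Pool.Agent.Lib.H17B.AFV
import Pool.Agent.Lib.H17B.B1
import Pool.Agent.Lib.H17B.FE
import Pool.Agent.Lib.H17B.FEV
import Pool.Agent.Lib.H74X.KFB
import Pool.Agent.Lib.H74X.Kin

set_option autoImplicit false

/-!
# H74X, module K: port of `H17B/FEV.lean` to the kinematic conditions `Kin`
-/

open MeasureTheory Filter Topology Set Asymptotics
open scoped ContDiff

namespace H74K

open H17V hiding Slice

open H17T H17B

open Pool.Agent.Lib.PenroseSph (E3 Tens S2 sm pd trg fluxDensity momDensity admFlux admMom DefFun meanCurv trLevel)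

theorem fev_k1 {R₀ : ℝ} {F : E4 → ℝ} {k : ℝ → ℝ} {r : ℝ × ℝ → ℝ} {f : E3 → ℝ} (hS : Kin R₀ F k r f) {m : ℝ} {q : ℝ × ℝ} (hq : q ∈ QQ R₀ f) :
    H31R.pd 1 (fun p => k ‖pos p‖ - (1 + 2 * m / ‖pos p‖)) (fb_i q) = deriv k q.2 + 2 * m / q.2 ^ 2 := by
  have hpos : 0 < q.2 := lt_of_le_of_lt hS.nonneg (QQ_lt hq)
  have hposR := QQ_lt hq
  have hnear := fb_near hS.nonneg hq
  have hd : DifferentiableAt ℝ (fun p : E4 => k ‖pos p‖ - (1 + 2 * m / ‖pos p‖)) (fb_i q) :=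
    ((fb_φ hS hnear).2.differentiableAt (by simp)).sub (fev_const hS.nonneg (2 * m) hnear)
  have h1 := fe_curve1 hd
  have h2 : HasDerivAt (fun t => k t - (1 + 2 * m / t)) (deriv k q.2 + 2 * m / q.2 ^ 2) q.2 := by
    have h3 : HasDerivAt k (deriv k q.2) q.2 := ((hS.k_smooth _ hposR).differentiableAt (by simp)).hasDerivAt
    have h4 : HasDerivAt (fun t : ℝ => t⁻¹) (-(q.2 ^ 2)⁻¹) q.2 := hasDerivAt_inv hpos.ne'
    have h5 := h3.sub ((h4.const_mul (2 * m)).const_add 1)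
    refine (h5.congr_deriv ?_).congr_of_eventuallyEq ?_
    · field_simp
      ring
    · exact Eventually.of_forall fun t => by
        simp only [Pi.sub_apply, div_eq_mul_inv]
  refine h1.unique (h2.congr_of_eventuallyEq ?_)
  filter_upwards [lt_mem_nhds hpos] with t ht
  rw [fb_norm (q.1, t) ht]

theorem fev_rT {R₀ : ℝ} {F : E4 → ℝ} {k : ℝ → ℝ} {r : ℝ × ℝ → ℝ} {f : E3 → ℝ} (hS : Kin R₀ F k r f) {m : ℝ} {q : ℝ × ℝ} (hq : q ∈ QQ R₀ f) :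
    H31R.pd 0 (fun p => r (p 0, ‖pos p‖) / ‖pos p‖ - (1 + m / ‖pos p‖)) (fb_i q) = fderiv ℝ r q (1, 0) / q.2 := by
  have hpos : 0 < q.2 := lt_of_le_of_lt hS.nonneg (QQ_lt hq)
  have hposR := QQ_lt hq
  have hnear := fb_near hS.nonneg hq
  have hd : DifferentiableAt ℝ (fun p : E4 => r (p 0, ‖pos p‖) / ‖pos p‖ - (1 + m / ‖pos p‖)) (fb_i q) :=
    ((fb_φ hS hnear).1.differentiableAt (by simp)).sub (fev_const hS.nonneg m hnear)
  have h1 := fe_curve0 hd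
  have hrq : DifferentiableAt ℝ r (q.1, q.2) := by
    have h1 := hS.r_smooth _ (fb_near hS.nonneg hq)
    rw [fb_zero, fb_norm q hpos] at h1
    exact h1.differentiableAt (by simp)
  have h6 : HasDerivAt (fun t : ℝ => (t, q.2)) ((1 : ℝ), (0 : ℝ)) q.1 := (hasDerivAt_id _).prodMk (hasDerivAt_const _ _)
  have h7 : HasDerivAt (fun t : ℝ => r (t, q.2)) (fderiv ℝ r q (1, 0)) q.1 := hrq.hasFDerivAt.comp_hasDerivAt q.1 h6
  have h2 : HasDerivAt (fun t => r (t, q.2) / q.2 - (1 + m / q.2)) (fderiv ℝ r q (1, 0) / q.2) q.1 :=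
    (h7.div_const q.2).sub_const _
  refine h1.unique (h2.congr_of_eventuallyEq ?_)
  refine Eventually.of_forall fun t => ?_
  show r (fb_i (t, q.2) 0, ‖pos (fb_i (t, q.2))‖) / ‖pos (fb_i (t, q.2))‖ - (1 + m / ‖pos (fb_i (t, q.2))‖) = _
  rw [fb_norm (t, q.2) hpos, fb_zero]

theorem fev_rR {R₀ : ℝ} {F : E4 → ℝ} {k : ℝ → ℝ} {r : ℝ × ℝ → ℝ} {f : E3 → ℝ} (hS : Kin R₀ F k r f) {m : ℝ} {q : ℝ × ℝ} (hq : q ∈ QQ R₀ f) :
    H31R.pd 1 (fun p => r (p 0, ‖pos p‖) / ‖pos p‖ - (1 + m / ‖pos p‖)) (fb_i q)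
      = fderiv ℝ r q (0, 1) / q.2 - r q / q.2 ^ 2 + m / q.2 ^ 2 := by
  have hpos : 0 < q.2 := lt_of_le_of_lt hS.nonneg (QQ_lt hq)
  have hposR := QQ_lt hq
  have hnear := fb_near hS.nonneg hq
  have hd : DifferentiableAt ℝ (fun p : E4 => r (p 0, ‖pos p‖) / ‖pos p‖ - (1 + m / ‖pos p‖)) (fb_i q) :=
    ((fb_φ hS hnear).1.differentiableAt (by simp)).sub (fev_const hS.nonneg m hnear)
  have h1 := fe_curve1 hd
  have hrq : DifferentiableAt ℝ r (q.1, q.2) := by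
    have h1 := hS.r_smooth _ (fb_near hS.nonneg hq)
    rw [fb_zero, fb_norm q hpos] at h1
    exact h1.differentiableAt (by simp)
  have h6 : HasDerivAt (fun t : ℝ => (q.1, t)) ((0 : ℝ), (1 : ℝ)) q.2 := (hasDerivAt_const _ _).prodMk (hasDerivAt_id _)
  have h7 : HasDerivAt (fun t : ℝ => r (q.1, t)) (fderiv ℝ r q (0, 1)) q.2 := hrq.hasFDerivAt.comp_hasDerivAt q.2 h6
  have h8 : HasDerivAt (fun t : ℝ => t) 1 q.2 := hasDerivAt_id _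
  have h4 : HasDerivAt (fun t : ℝ => t⁻¹) (-(q.2 ^ 2)⁻¹) q.2 := hasDerivAt_inv hpos.ne'
  have h2 := (h7.div h8 hpos.ne').sub ((h4.const_mul m).const_add 1)
  have h9 := h1.unique (h2.congr_of_eventuallyEq ?_)
  · rw [h9]
    field_simp
    ring
  filter_upwards [lt_mem_nhds hpos] with t ht
  show r (fb_i (q.1, t) 0, ‖pos (fb_i (q.1, t))‖) / ‖pos (fb_i (q.1, t))‖ - (1 + m / ‖pos (fb_i (q.1, t))‖) = _
  rw [fb_norm (q.1, t) ht, fb_zero]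
  simp only [Pi.sub_apply, div_eq_mul_inv, Pi.mul_apply, Pi.inv_apply]

theorem farEnd_of {R₀ : ℝ} {F : E4 → ℝ} {k : ℝ → ℝ} {r : ℝ × ℝ → ℝ} {f : E3 → ℝ} {m β : ℝ} (hS : Kin R₀ F k r f)
    (hB : BoostEnd R₀ F k r f m β) : ∃ C R : ℝ, R₀ < R ∧ FarEnd F k r f m β C R := by
  obtain ⟨C₁, R₁, hR₁, h₁⟩ := hB.f_decay
  obtain ⟨C₂, R₂, hR₂, h₂⟩ := hB.F_decay
  obtain ⟨C₃, R₃, hR₃, h₃'⟩ := hB.k_decay
  obtain ⟨C₄, R₄, hR₄, h₄'⟩ := hB.r_decay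
  have h₃ : ∀ p ∈ Near R₀ f, R₃ ≤ ‖pos p‖ → |k ‖pos p‖ - (1 + 2 * m / ‖pos p‖)| ≤ C₃ / ‖pos p‖ ^ 2 ∧
      ∀ a, |H31R.pd a (fun q => k ‖pos q‖ - (1 + 2 * m / ‖pos q‖)) p| ≤ C₃ / ‖pos p‖ ^ 3 := h₃'
  have h₄ : ∀ p ∈ Near R₀ f, R₄ ≤ ‖pos p‖ → |r (p 0, ‖pos p‖) / ‖pos p‖ - (1 + m / ‖pos p‖)| ≤ C₄ / ‖pos p‖ ^ 2 ∧
      ∀ a, |H31R.pd a (fun q => r (q 0, ‖pos q‖) / ‖pos q‖ - (1 + m / ‖pos q‖)) p| ≤ C₄ / ‖pos p‖ ^ 3 := h₄'
  obtain ⟨R, hR⟩ : ∃ R, R = max (max (max R₁ R₂) (max R₃ R₄)) (R₀ + 1) := ⟨_, rfl⟩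
  have a1 : R₁ ≤ R := by rw [hR]; exact ((le_max_left _ _).trans (le_max_left _ _)).trans (le_max_left _ _)
  have a2 : R₂ ≤ R := by rw [hR]; exact ((le_max_right _ _).trans (le_max_left _ _)).trans (le_max_left _ _)
  have a3 : R₃ ≤ R := by rw [hR]; exact ((le_max_left _ _).trans (le_max_right _ _)).trans (le_max_left _ _)
  have a4 : R₄ ≤ R := by rw [hR]; exact ((le_max_right _ _).trans (le_max_right _ _)).trans (le_max_left _ _)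
  have a0 : R₀ < R := by rw [hR]; exact lt_of_lt_of_le (lt_add_one _) (le_max_right _ _)
  have hRp : 0 < R := hR₁.trans_le a1
  obtain ⟨C, hC⟩ : ∃ C, C = |C₁| + |C₂| + |C₃| + 2 * |C₄| := ⟨_, rfl⟩
  have b1 : C₁ ≤ C := by
    rw [hC]
    linarith [le_abs_self C₁, abs_nonneg C₂, abs_nonneg C₃, abs_nonneg C₄]
  have b2 : C₂ ≤ C := by
    rw [hC]
    linarith [le_abs_self C₂, abs_nonneg C₁, abs_nonneg C₃, abs_nonneg C₄]
  have b3 : C₃ ≤ C := by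
    rw [hC]
    linarith [le_abs_self C₃, abs_nonneg C₂, abs_nonneg C₁, abs_nonneg C₄]
  have b4 : 2 * C₄ ≤ C := by
    rw [hC]
    linarith [le_abs_self C₄, abs_nonneg C₂, abs_nonneg C₃, abs_nonneg C₁]
  have b5 : C₄ ≤ C := by
    rw [hC]
    linarith [le_abs_self C₄, abs_nonneg C₂, abs_nonneg C₃, abs_nonneg C₁, abs_nonneg C₄]
  have hx0 : ∀ x : E3, R ≤ ‖x‖ → R₀ < ‖x‖ := fun x hx => a0.trans_le hx
  have hqq : ∀ x : E3, R ≤ ‖x‖ → qq f x ∈ QQ R₀ f := fun x hx => ⟨x, hx0 x hx, rfl⟩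
  have hnorm : ∀ x : E3, R ≤ ‖x‖ → ∀ n : S2, ‖pos (ev (qq f x) n)‖ = ‖x‖ := fun x hx n => (ev_near hS.nonneg (hqq x hx) n).2.2.1
  have hfb : ∀ x : E3, R ≤ ‖x‖ → ‖pos (fb_i (qq f x))‖ = ‖x‖ := by
    intro x hx
    rw [← fb_ev]
    exact hnorm x hx fb_e
  refine ⟨C, R, a0, ⟨hB.beta, hRp, fun x hx => hS.f_smooth x (hx0 x hx), fun x hx i => ?_, fun x hx i j => ?_,
    fun x hx n => hS.F_smooth _ (ev_near hS.nonneg (hqq x hx) n).1, fun x hx n => hS.F_pos _ (ev_near hS.nonneg (hqq x hx) n).1,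
    fun x hx n => ?_, fun x hx a => ?_, fun t ht => hS.k_smooth t (a0.trans_le ht), fun t ht => hS.k_pos t (a0.trans_le ht),
    fun t ht => ?_, fun t ht => ?_, fun x hx => ?_, fun x hx => ?_, fun x hx => ?_, fun x hx => ?_, fun x hx => ?_⟩⟩
  · have h := (h₁ x (a1.trans hx)).1 i
    rw [← pow_one ‖x‖] at h ⊢
    exact fe_mono h b1 (hRp.trans_le hx)
  · exact fe_mono ((h₁ x (a1.trans hx)).2 i j) b1 (hRp.trans_le hx)
  · have h := (h₂ _ (ev_near hS.nonneg (hqq x hx) n).1 (by rw [hnorm x hx n]; exact a2.trans hx)).1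
    rw [hnorm x hx n, neg_div, ← sub_eq_add_neg] at h
    exact fe_mono h b2 (hRp.trans_le hx)
  · have h := (h₂ (pt (f x) x) (mem_near (hx0 x hx)) (by rw [pos_pt]; exact a2.trans hx)).2 a
    rw [pos_pt] at h
    have e : (fun q : E4 => F q - (1 + -(2 * m) / ‖pos q‖)) = fun q => F q - (1 - 2 * m / ‖pos q‖) := by
      funext q
      rw [neg_div, ← sub_eq_add_neg]
    rw [e] at h
    exact fe_mono h b2 (hRp.trans_le hx)
  · have ht0 : 0 < t := hRp.trans_le ht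
    have hq := fb_ρ hS.nonneg f (a0.trans_le ht)
    have h := (h₃ _ (fb_near hS.nonneg hq) (by rw [fb_norm _ ht0]; exact a3.trans ht)).1
    rw [fb_norm _ ht0] at h
    exact fe_mono h b3 ht0
  · have ht0 : 0 < t := hRp.trans_le ht
    have hq := fb_ρ hS.nonneg f (a0.trans_le ht)
    have h := (h₃ _ (fb_near hS.nonneg hq) (by rw [fb_norm _ ht0]; exact a3.trans ht)).2 1
    rw [fb_norm _ ht0, fev_k1 hS hq] at h
    exact fe_mono h b3 ht0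
  · have h := hS.r_smooth _ (fb_near hS.nonneg (hqq x hx))
    rwa [fb_zero, hfb x hx] at h
  · have h := hS.r_pos _ (fb_near hS.nonneg (hqq x hx))
    rwa [fb_zero, hfb x hx] at h
  · have hp : 0 < ‖x‖ := hRp.trans_le hx
    have h := (h₄ _ (fb_near hS.nonneg (hqq x hx)) (by rw [hfb x hx]; exact a4.trans hx)).1
    rw [fb_zero, hfb x hx] at h
    have h5 : |r (qq f x) / ‖x‖ - (1 + m / ‖x‖)| ≤ C₄ / ‖x‖ ^ 2 := h
    have e : r (qq f x) - (‖x‖ + m) = ‖x‖ * (r (qq f x) / ‖x‖ - (1 + m / ‖x‖)) := by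
      field_simp
    rw [e, abs_mul, abs_of_pos hp]
    calc ‖x‖ * |r (qq f x) / ‖x‖ - (1 + m / ‖x‖)| ≤ ‖x‖ * (C₄ / ‖x‖ ^ 2) := mul_le_mul_of_nonneg_left h5 hp.le
      _ = C₄ / ‖x‖ := by field_simp
      _ ≤ C / ‖x‖ := div_le_div_of_nonneg_right b5 hp.le
  · have hp : 0 < ‖x‖ := hRp.trans_le hx
    have h := (h₄ _ (fb_near hS.nonneg (hqq x hx)) (by rw [hfb x hx]; exact a4.trans hx)).2 0
    rw [hfb x hx, fev_rT hS (hqq x hx)] at h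
    have h5 : |fderiv ℝ r (qq f x) (1, 0) / ‖x‖| ≤ C₄ / ‖x‖ ^ 3 := h
    rw [abs_div, abs_of_pos hp, div_le_iff₀ hp] at h5
    refine h5.trans ?_
    have e : C₄ / ‖x‖ ^ 3 * ‖x‖ = C₄ / ‖x‖ ^ 2 := by field_simp
    rw [e]
    exact div_le_div_of_nonneg_right b5 (by positivity)
  · have hp : 0 < ‖x‖ := hRp.trans_le hx
    have h := (h₄ _ (fb_near hS.nonneg (hqq x hx)) (by rw [hfb x hx]; exact a4.trans hx))
    have h6 := h.2 1
    have h7 := h.1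
    rw [fb_zero, hfb x hx] at h7
    have h8 : |r (qq f x) / ‖x‖ - (1 + m / ‖x‖)| ≤ C₄ / ‖x‖ ^ 2 := h7
    rw [hfb x hx, fev_rR hS (hqq x hx)] at h6
    have h9 : |fderiv ℝ r (qq f x) (0, 1) / ‖x‖ - r (qq f x) / ‖x‖ ^ 2 + m / ‖x‖ ^ 2| ≤ C₄ / ‖x‖ ^ 3 := h6
    have e : fderiv ℝ r (qq f x) (0, 1) - 1
        = ‖x‖ * (fderiv ℝ r (qq f x) (0, 1) / ‖x‖ - r (qq f x) / ‖x‖ ^ 2 + m / ‖x‖ ^ 2)
          + (r (qq f x) / ‖x‖ - (1 + m / ‖x‖)) := by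
      field_simp
      ring
    rw [e]
    refine (abs_add_le _ _).trans ?_
    rw [abs_mul, abs_of_pos hp]
    calc ‖x‖ * |fderiv ℝ r (qq f x) (0, 1) / ‖x‖ - r (qq f x) / ‖x‖ ^ 2 + m / ‖x‖ ^ 2|
          + |r (qq f x) / ‖x‖ - (1 + m / ‖x‖)|
        ≤ ‖x‖ * (C₄ / ‖x‖ ^ 3) + C₄ / ‖x‖ ^ 2 := add_le_add (mul_le_mul_of_nonneg_left h9 hp.le) h8
      _ = 2 * C₄ / ‖x‖ ^ 2 := by
        field_simp
        ring
      _ ≤ C / ‖x‖ ^ 2 := div_le_div_of_nonneg_right b4 (by positivity)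

end H74K
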