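import Pool.Agent.Lib.H74X.EB2
import Pool.Agent.Lib.H74X.KFEV
import Pool.Agent.Lib.H17B.B4
import Pool.Agent.Lib.H17W.EG1

set_option autoImplicit false

/-!
# H74X, chunk ED2 (S/M): slices which are boosted at infinity

Auxiliary names start with `ed2_`. Template: `H17W/EG9.lean` (`gend_of`).
-/

open MeasureTheory Filter Topology Set Asymptotics
open scoped ContDiff

namespace H74E

open H17T H17B
open H17V (Near)
open H74X (metric SpaceTime AsympFlatB Small met_smooth met_inv)
open H74K (Kin)
open Pool.Agent.Lib.PenroseSph (E3 Tens S2 sm pd)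

variable {R₀ β m : ℝ} {D : Set (ℝ × ℝ)} {F : E4 → ℝ} {k : ℝ → ℝ} {r : ℝ × ℝ → ℝ} {H : E4 → Matrix (Fin 3) (Fin 3) ℝ}
  {U W : E4 → Fin 3 → ℝ} {f : E3 → ℝ}

/-- If `H - 1`, `U`, `W` are of second order, the metric differs from `stMetric F k r` by terms of second order (`cmp_00`, `cmp_0j`, `cmp_j0`, `cmp_ij`). -/
theorem cmp_two (hS : SpaceTime R₀ D F k r H U W) (hA : Asy D F k r H U W f) (hH : ∀ i j, Sm f 2 (KK H i j))
    (hU : ∀ i, Sm f 2 fun p => U p i) (hW : ∀ i, Sm f 2 fun p => W p i) (a b : Fin 4) :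
    Sm f 2 fun p => metric F k r H U W p a b - stMetric F k r p a b := by
  refine Fin.cases ?_ (fun i => ?_) a
  · refine Fin.cases ?_ (fun j => ?_) b
    · exact cmp_00 hA
    · have h := (cmp_0j hS hA j).sub (hU j)
      have e : (fun p => metric F k r H U W p 0 j.succ - stMetric F k r p 0 j.succ + U p j - U p j) =
          fun p => metric F k r H U W p 0 j.succ - stMetric F k r p 0 j.succ := by
        funext p
        ring
      rwa [e] at h
  · refine Fin.cases ?_ (fun j => ?_) b
    · have h := (cmp_j0 hS hA i).sub (hU i)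
      have e : (fun p => metric F k r H U W p i.succ 0 - stMetric F k r p i.succ 0 + U p i - U p i) =
          fun p => metric F k r H U W p i.succ 0 - stMetric F k r p i.succ 0 := by
        funext p
        ring
      rwa [e] at h
    · have h1 : Sm f 2 fun p => W p i * un j p := (hW i).mul (Sm.un f j)
      have h2 : Sm f 2 fun p => W p j * un i p := (hW j).mul (Sm.un f i)
      have h3 := (cmp_ij hS hA i j).add (((hH i j).sub h1).sub h2)
      have e : (fun p => metric F k r H U W p i.succ j.succ - stMetric F k r p i.succ j.succ -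
          (KK H i j p - W p i * un j p - W p j * un i p) + (KK H i j p - W p i * un j p - W p j * un i p)) =
          fun p => metric F k r H U W p i.succ j.succ - stMetric F k r p i.succ j.succ := by
        funext p
        ring
      rwa [e] at h3

/-- The conditions `GEnd` of `H17W/EG1.lean` for the metric: `ex` by `cmp_two`, `Sm.ex`, `H17B.ex_metric` (for `FarEnd`, `H17B/B4.lean`) and `Ex.add`; smoothness and determinant: `met_smooth`, `met_inv`. -/
theorem gend (hS : H74X.Slice R₀ D F k r H U W f) (hA : Asy D F k r H U W f) (hH : ∀ i j, Sm f 2 (KK H i j))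
    (hU : ∀ i, Sm f 2 fun p => U p i) (hW : ∀ i, Sm f 2 fun p => W p i) {C R : ℝ} (hR : R₀ < R)
    (hF : FarEnd F k r f m β C R) : H17G.GEnd (metric F k r H U W) f m β C R := by
  have hdom : ∀ x : E3, R ≤ ‖x‖ → ((PP f x) 0, ‖pos (PP f x)‖) ∈ D := by
    intro x hx
    rw [b3b_pp]
    exact hS.mem x (hR.trans_le hx)
  refine ⟨hF.beta, hF.R_pos, hF.f_smooth, hF.f1, hF.f2, fun x hx a b => met_smooth hS.st (hdom x hx) a b,
    fun x hx => (met_inv hS.st (hdom x hx)).2, fun a b => ?_⟩
  have h := (cmp_two hS.st hA hH hU hW a b).ex.add (H17B.ex_metric hF a b)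
  have e : (fun p => metric F k r H U W p a b - stMetric F k r p a b + stMetric F k r p a b) =
      fun p => metric F k r H U W p a b := by
    funext p
    ring
  rw [e] at h
  simpa using h

/-- `Sm.of_small` for the conditions of the statement. -/
theorem two_of (hS : H74X.Slice R₀ D F k r H U W f) (hH : ∀ i j, Small R₀ f 2 fun p => H p i j - if i = j then 1 else 0)
    (hU : ∀ i, Small R₀ f 2 fun p => U p i) (hW : ∀ i, Small R₀ f 2 fun p => W p i) :
    (∀ i j, Sm f 2 (KK H i j)) ∧ (∀ i, Sm f 2 fun p => U p i) ∧ ∀ i, Sm f 2 fun p => W p i := by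
  have hst := hS.st
  have hne : (∞ : WithTop ℕ∞) ≠ 0 := by simp
  have hbig : ∀ᶠ x : E3 in LL, R₀ < ‖x‖ := tendsto_norm_cobounded_atTop.eventually_gt_atTop R₀
  have hdom : ∀ {x : E3}, R₀ < ‖x‖ → ((PP f x) 0, ‖pos (PP f x)‖) ∈ D := by
    intro x hx
    rw [b3b_pp]
    exact hS.mem x hx
  refine ⟨fun i j => ?_, fun i => ?_, fun i => ?_⟩
  · refine Sm.of_small (R₀ := R₀) (hH i j) ?_
    filter_upwards [hbig] with x hx
    exact ((hst.H_smooth _ (hdom hx) i j).differentiableAt hne).sub_const _
  · refine Sm.of_small (R₀ := R₀) (hU i) ?_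
    filter_upwards [hbig] with x hx
    exact (hst.U_smooth _ (hdom hx) i).differentiableAt hne
  · refine Sm.of_small (R₀ := R₀) (hW i) ?_
    filter_upwards [hbig] with x hx
    exact (hst.W_smooth _ (hdom hx) i).differentiableAt hne

end H74E
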