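import Pool.Agent.Lib.H17W.A3
import Pool.Agent.Lib.H74X.B0
import Pool.Agent.Lib.H74X.GA1

set_option autoImplicit false

/-!
# H74X, chunk GA2 (S/M): commutator with a variable direction

Auxiliary names start with `ga2_`. `Φ : V → ℝ^d`, fields along `Φ`, and vector fields `w : V → V` on `V`. See `H17W/A0.lean` for the
definitions of `vel`, `cov`, `riem` and `H17W/A2.lean`, `A3.lean` for `cov_symm`, `cov_comm` (constant directions).
-/

open MeasureTheory Filter Topology Set
open scoped ContDiff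

namespace H74X

open H17W (ip gam vel cov riem Ric scal MetAt cov_symm cov_comm)

variable {d : ℕ} {V : Type*} [NormedAddCommGroup V] [NormedSpace ℝ V]
  {G : H31R.EE d → Matrix (Fin d) (Fin d) ℝ} {Φ : V → H31R.EE d} {A : V → Fin d → ℝ} {w w' : V → V} {x : V}

/-- The component `a` of the covariant derivative as a linear form of the direction. -/
noncomputable def ga2L (G : H31R.EE d → Matrix (Fin d) (Fin d) ℝ) (Φ : V → H31R.EE d) (A : V → Fin d → ℝ) (a : Fin d) (y : V) :
    V →L[ℝ] ℝ :=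
  fderiv ℝ (fun z => A z a) y + ∑ i, ∑ j, (H31R.chr G a i j (Φ y) * A y j) • fderiv ℝ (fun z => Φ z i) y

theorem ga2L_apply (a : Fin d) (y v : V) : ga2L G Φ A a y v = cov G Φ A y v a := by
  unfold ga2L cov gam vel
  simp only [ContinuousLinearMap.add_apply, ContinuousLinearMap.sum_apply, ContinuousLinearMap.smul_apply, smul_eq_mul]
  congr 1
  exact Finset.sum_congr rfl fun i _ => Finset.sum_congr rfl fun j _ => by ring

theorem ga2L_diff (hG : MetAt G (Φ x)) (hΦ : ContDiffAt ℝ ∞ Φ x) (hA : ∀ a, ContDiffAt ℝ ∞ (fun z => A z a) x) (a : Fin d) :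
    DifferentiableAt ℝ (ga2L G Φ A a) x := by
  unfold ga2L
  refine DifferentiableAt.add ?_ ?_
  · exact ((hA a).fderiv_right (m := ∞) (by norm_cast)).differentiableAt (by norm_num)
  · refine DifferentiableAt.fun_sum fun i _ => DifferentiableAt.fun_sum fun j _ => ?_
    refine DifferentiableAt.smul (DifferentiableAt.mul ?_ ((hA j).differentiableAt (by norm_num))) ?_
    · exact ((H17W.a1_chr_at hG a i j).comp x hΦ).differentiableAt (by norm_num)
    · have h1 : ContDiffAt ℝ ∞ (fun y => Φ y i) x :=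
        (EuclideanSpace.proj (𝕜 := ℝ) i).contDiff.contDiffAt.comp x hΦ
      exact (h1.fderiv_right (m := ∞) (by norm_cast)).differentiableAt (by norm_num)

theorem ga2_field (hG : MetAt G (Φ x)) (hΦ : ContDiffAt ℝ ∞ Φ x) (hA : ∀ a, ContDiffAt ℝ ∞ (fun z => A z a) x)
    (hw : DifferentiableAt ℝ w x) (v : V) :
    cov G Φ (fun y => cov G Φ A y (w y)) x v = cov G Φ (fun y => cov G Φ A y (w x)) x v + cov G Φ A x (fderiv ℝ w x v) := by
  funext a
  have h := ga1_clm (ga2L_diff hG hΦ hA a) hw v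
  simp only [ga2L_apply] at h
  rw [Pi.add_apply]
  have e : ∀ B : V → Fin d → ℝ, cov G Φ B x v a = fderiv ℝ (fun y => B y a) x v + gam G (Φ x) (vel Φ x v) (B x) a :=
    fun B => rfl
  rw [e, e, h]
  ring

/-- `D_w D_v A - D_v D_w A = R(∂_w Φ, ∂_v Φ) A - D_{∂_v w} A` for a constant direction `v` and a variable direction `w`: the component `a` of
`y ↦ cov G Φ A y (w y)` is `fderiv ℝ (fun y => A y a) y (w y) + gam G (Φ y) (vel Φ y (w y)) (A y) a`; product rule as in `cov_field`, so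
`cov G Φ (fun y => cov G Φ A y (w y)) x v = cov G Φ (fun y => cov G Φ A y (w x)) x v + cov G Φ A x (fderiv ℝ w x v)`; then `cov_comm`. -/
theorem cov_comm_field (hG : MetAt G (Φ x)) (hΦ : ∀ᶠ y in 𝓝 x, ContDiffAt ℝ ∞ Φ y)
    (hA : ∀ᶠ y in 𝓝 x, ∀ a, ContDiffAt ℝ ∞ (fun z => A z a) y) (hw : DifferentiableAt ℝ w x) (v : V) :
    cov G Φ (fun y => cov G Φ A y v) x (w x) - cov G Φ (fun y => cov G Φ A y (w y)) x v =
      riem G (Φ x) (vel Φ x (w x)) (vel Φ x v) (A x) - cov G Φ A x (fderiv ℝ w x v) := by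
  rw [ga2_field hG hΦ.self_of_nhds hA.self_of_nhds hw v, ← cov_comm hG hΦ hA (w x) v]
  abel

end H74X
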