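import Pool.Agent.Lib.H17V.Red
import Pool.Agent.Lib.H74X.Defs

set_option autoImplicit false

/-!
# H74X, module S: definitions
-/

open MeasureTheory Filter Topology Set
open scoped ContDiff

namespace H74X

open H17T (E4 pt pos qq RadialGraph)
open H17V (NN XX)
open Pool.Agent.Lib.PenroseSph (E3 Tens S2 sm pd)

/-- The graph of `s` lies on a curve `(A - a0)(c B + d) = δ` of the `(T, ρ)` plane, `A = ε T + X`, `B = X - ε T`. -/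
def OnCurve (R₀ : ℝ) (k : ℝ → ℝ) (f s : E3 → ℝ) : Prop :=
  ∃ ε a0 c d δ : ℝ, (ε = 1 ∨ ε = -1) ∧ ((c = 0 ∧ d = 1) ∨ c = 1) ∧ 0 < δ ∧ ∀ n : S2,
    a0 < NN R₀ ε k f (s n • (n : E3)) ∧ 0 < c * NN R₀ (-ε) k f (s n • (n : E3)) + d ∧
    (NN R₀ ε k f (s n • (n : E3)) - a0) * (c * NN R₀ (-ε) k f (s n • (n : E3)) + d) = δ

/-- There is a smooth radial graph which encloses `Ω`, with `r ≤ 2 E + δ`, and which lies on such a curve. -/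
def EnvS (R₀ : ℝ) (k : ℝ → ℝ) (r : ℝ × ℝ → ℝ) (f : E3 → ℝ) (Ω : Set E3) (E δ : ℝ) : Prop :=
  ∃ s : E3 → ℝ, RadialGraph s ∧ (∀ x ∈ Ω, R₀ < ‖x‖ → ‖x‖ < s x) ∧ (∀ x : E3, x ≠ 0 → R₀ < s x) ∧
    (∀ n : S2, r (qq f (s n • (n : E3))) ≤ 2 * E + δ) ∧ OnCurve R₀ k f s

/-- A family of divergence free tangential fields on the sphere, extended to `y ≠ 0` with degree `1`. -/
structure Fld (a b : ℝ) (v : ℝ × E3 → E3) : Prop where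
  smooth : ∀ t ∈ Ioo a b, ∀ y : E3, y ≠ 0 → ContDiffAt ℝ ∞ v (t, y)
  tan : ∀ t ∈ Ioo a b, ∀ y : E3, y ≠ 0 → ∑ i, y i * v (t, y) i = 0
  hom : ∀ t ∈ Ioo a b, ∀ y : E3, y ≠ 0 → ∀ c : ℝ, 0 < c → v (t, c • y) = c • v (t, y)
  div : ∀ t ∈ Ioo a b, ∀ y : E3, y ≠ 0 → ∑ i, pd i (fun z => v (t, z) i) y = 0

end H74X
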