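import Pool.Agent.Lib.H17V.A4
import Pool.Agent.Lib.H74X.S0

set_option autoImplicit false

/-!
# H74X, module S1: the enclosing surface lies on a curve of the `(T, ρ)` plane

As `H17T/CMain.lean` and `H17V/A3.lean`.
-/

open MeasureTheory Filter Topology Set
open scoped ContDiff

namespace H74X

open H17T (E4 pt pos qq RadialGraph Da Db revf revr revF NN_rev)
open Pool.Agent.Lib.PenroseSph (E3 Tens S2 sm pd)

/-- `OnCurve` for `R₀ = 0` in the notation of H17T. -/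
def OnCurve0 (k : ℝ → ℝ) (f s : E3 → ℝ) : Prop :=
  ∃ ε a0 c d δ : ℝ, (ε = 1 ∨ ε = -1) ∧ ((c = 0 ∧ d = 1) ∨ c = 1) ∧ 0 < δ ∧ ∀ n : S2,
    a0 < H17T.NN ε k f (s n • (n : E3)) ∧ 0 < c * H17T.NN (-ε) k f (s n • (n : E3)) + d ∧
    (H17T.NN ε k f (s n • (n : E3)) - a0) * (c * H17T.NN (-ε) k f (s n • (n : E3)) + d) = δ

def Env0 (k : ℝ → ℝ) (r : ℝ × ℝ → ℝ) (f : E3 → ℝ) (Ω : Set E3) (E δ : ℝ) : Prop :=
  ∃ s : E3 → ℝ, RadialGraph s ∧ (∀ x ∈ Ω, x ≠ 0 → ‖x‖ < s x) ∧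
    (∀ n : S2, r (qq f (s n • (n : E3))) ≤ 2 * E + δ) ∧ OnCurve0 k f s

/-- The future (`b`) version. -/
theorem env_main0 {F : E4 → ℝ} {k : ℝ → ℝ} {r : ℝ × ℝ → ℝ} {f : E3 → ℝ} {E : ℝ} (hR : H17T.Red F k r f)
    (hE : H17T.Ends F k r f E) {Om : Set E3} {p : E3} (hp : p ≠ 0) (hpb : Db k r (qq f p) ≤ 0)
    (hOm : ∀ x ∈ Om, x ≠ 0 → H17T.NN 1 k f x ≤ H17T.NN 1 k f p) {ρ0 : ℝ} (hρ0 : 0 < ρ0)
    (hin : ∀ x : E3, x ≠ 0 → ‖x‖ < ρ0 → H17T.NN 1 k f x < H17T.NN 1 k f p) :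
    0 < E ∧ ∀ δ : ℝ, 0 < δ → Env0 k r f Om E δ := by
  obtain ⟨a0, c, d, hO, ha0⟩ := H17T.exists_outer hR hE hp hpb hρ0 hin
  have hin' : ∀ x : E3, x ≠ 0 → ‖x‖ < ρ0 → H17T.NN 1 k f x < a0 := fun x hx h => (hin x hx h).trans_le ha0
  have hc : (c = 0 ∧ d = 1) ∨ c = 1 := by
    rcases hO.ha with h | h
    · exact Or.inl h
    · exact Or.inr h.1
  have key : ∀ δ : ℝ, 0 < δ → Env0 k r f Om E δ := by
    intro δ hδ
    obtain ⟨δ', hδ', hnear⟩ := H17T.near_env hR hE hc hρ0 hin'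
      (fun x hx h1 h2 h3 => H17T.env_bound hR hE hO hx h1 h2 h3) hδ
    obtain ⟨s, hs, hsn⟩ := H17T.exists_graph hR hE.grow hc hρ0 hin' hδ'
    refine ⟨s, hs, ?_, ?_, 1, a0, c, d, δ', Or.inl rfl, hc, hδ', hsn⟩
    · intro x hx hx0
      by_contra hlt
      push Not at hlt
      have hnx : 0 < ‖x‖ := norm_pos_iff.2 hx0
      obtain ⟨n, hn⟩ : ∃ n : S2, x = ‖x‖ • (n : E3) := by
        refine ⟨⟨‖x‖⁻¹ • x, ?_⟩, ?_⟩
        · rw [mem_sphere_zero_iff_norm, norm_smul, norm_inv, norm_norm, inv_mul_cancel₀ hnx.ne']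
        · show x = ‖x‖ • (‖x‖⁻¹ • x)
          rw [smul_smul, mul_inv_cancel₀ hnx.ne', one_smul]
      have hsx : s x = s n := by
        conv_lhs => rw [hn]
        exact hs.homog _ _ hnx
      have hn0 : (n : E3) ≠ 0 := H17V.a3_ne
      have hspos : 0 < s n := hs.pos _ hn0
      have h1 := (hsn n).1
      have hle : H17T.NN 1 k f (s n • (n : E3)) ≤ H17T.NN 1 k f x := by
        rw [hsx] at hlt
        rcases hlt.eq_or_lt with h | h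
        · rw [h, ← hn]
        · have hc1 : 1 < ‖x‖ / s n := (one_lt_div hspos).2 h
          have := H17T.NN_mono (ε := 1) (Or.inl rfl) hR.k_smooth hR.f_smooth hR.slope
            (x := s n • (n : E3)) (smul_ne_zero hspos.ne' hn0) hc1
          rw [smul_smul, div_mul_cancel₀ _ hspos.ne', ← hn] at this
          exact this.le
      have := hOm x hx hx0
      linarith
    · intro n
      obtain ⟨h1, h2, h3⟩ := hsn n
      have hn0 : (n : E3) ≠ 0 := H17V.a3_ne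
      exact hnear _ (smul_ne_zero (hs.pos _ hn0).ne' hn0) h1.le h2.le h3
  refine ⟨?_, key⟩
  by_contra hneg
  push Not at hneg
  obtain ⟨q, hq, hqa, hqb⟩ := hO.hb
  rcases hO.ha with ⟨h1, h2⟩ | ⟨h1, q', hq', h3, h4, -⟩
  · have h := H17T.env_bound hR hE hO hq hqa.ge (by rw [h1, h2]; norm_num) (by rw [hqa]; ring)
    have := hR.r_pos (qq f q) ⟨q, hq, rfl⟩
    linarith
  · have h := H17T.env_bound hR hE hO hq' h3 (by rw [h1, h4]; linarith) (by rw [h1, h4]; ring)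
    have := hR.r_pos (qq f q') ⟨q', hq', rfl⟩
    linarith

/-- The reversal of the time. -/
theorem Env0.rev {k : ℝ → ℝ} {r : ℝ × ℝ → ℝ} {f : E3 → ℝ} {Om : Set E3} {E δ : ℝ}
    (h : Env0 k (revr r) (revf f) Om E δ) : Env0 k r f Om E δ := by
  obtain ⟨s, hs, hΩ, h1, ε, a0, c, d, δ', hε, hc, hδ', h⟩ := h
  refine ⟨s, hs, hΩ, fun n => ?_, -ε, a0, c, d, δ', ?_, hc, hδ', fun n => ?_⟩
  · have e2 : ∀ x : E3, revr r (qq (revf f) x) = r (qq f x) := by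
      intro x
      simp [revr, qq, revf]
    have h2 := h1 n
    rw [e2] at h2
    exact h2
  · rcases hε with rfl | rfl
    · exact Or.inr rfl
    · exact Or.inl (by norm_num)
  · have h2 := h n
    rw [NN_rev, NN_rev] at h2
    exact h2

/-- Both versions. -/
theorem env_both0 {F : E4 → ℝ} {k : ℝ → ℝ} {r : ℝ × ℝ → ℝ} {f : E3 → ℝ} {E ε : ℝ} (hε : ε = 1 ∨ ε = -1)
    (hR : H17T.Red F k r f) (hE : H17T.Ends F k r f E) {Om : Set E3} {p : E3} (hp : p ≠ 0)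
    (hpb : fderiv ℝ r (qq f p) (-ε, 1 / k ‖p‖) ≤ 0)
    (hOm : ∀ x ∈ Om, x ≠ 0 → H17T.NN ε k f x ≤ H17T.NN ε k f p) {ρ0 : ℝ} (hρ0 : 0 < ρ0)
    (hin : ∀ x : E3, x ≠ 0 → ‖x‖ < ρ0 → H17T.NN ε k f x < H17T.NN ε k f p) :
    0 < E ∧ ∀ δ : ℝ, 0 < δ → Env0 k r f Om E δ := by
  have hkp : 0 < k ‖p‖ := hR.k_pos _ (norm_pos_iff.2 hp)
  rcases hε with rfl | rfl
  · refine env_main0 hR hE hp ?_ hOm hρ0 hin
    have e : ((-(1 / 2) : ℝ), 1 / (2 * k ‖p‖)) = (1 / 2 : ℝ) • ((-1 : ℝ), 1 / k ‖p‖) := by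
      rw [Prod.smul_mk, smul_eq_mul, smul_eq_mul]
      congr 1
      · norm_num
      · field_simp
    show fderiv ℝ r (qq f p) (-(1 / 2), 1 / (2 * k ‖p‖)) ≤ 0
    rw [e, map_smul, smul_eq_mul]
    linarith
  · have h := env_main0 (f := revf f) hR.rev hE.rev (Om := Om) hp ?_ ?_ hρ0 ?_
    · exact ⟨h.1, fun δ hδ => (h.2 δ hδ).rev⟩
    · rw [H17T.Db_rev]
      have e2 : ((-(qq (revf f) p).1, (qq (revf f) p).2) : ℝ × ℝ) = qq f p := by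
        show ((- -f p, ‖p‖) : ℝ × ℝ) = (f p, ‖p‖)
        rw [neg_neg]
      rw [e2]
      have e : ((1 / 2 : ℝ), 1 / (2 * k ‖p‖)) = (1 / 2 : ℝ) • ((- -1 : ℝ), 1 / k ‖p‖) := by
        rw [Prod.smul_mk, smul_eq_mul, smul_eq_mul]
        congr 1
        · norm_num
        · field_simp
      show fderiv ℝ r (qq f p) (1 / 2, 1 / (2 * k ‖p‖)) ≤ 0
      rw [e, map_smul, smul_eq_mul]
      linarith
    · intro x hx hx0
      rw [NN_rev]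
      exact hOm x hx hx0
    · intro x hx hx0
      rw [NN_rev]
      exact hin x hx hx0

open H17V (sg sgi shk shr shf shF sg_norm sgi_norm sg_ray qq_sg NN_shift Red Ends NN)

/-- The radial translation. -/
theorem envS_shift {R₀ : ℝ} {F : E4 → ℝ} {k : ℝ → ℝ} {r : ℝ × ℝ → ℝ} {f : E3 → ℝ} (hR : Red R₀ F k r f) {Om : Set E3}
    {E δ : ℝ} (h : Env0 (shk R₀ k) (shr R₀ r) (shf R₀ f) {y | y ≠ 0 ∧ sg R₀ y ∈ Om} E δ) :
    EnvS R₀ k r f Om E δ := by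
  have h0 := hR.nonneg
  obtain ⟨s, hs, hΩ, hn, ε, a0, c, d, δ', hε, hc, hδ', hcv⟩ := h
  refine ⟨fun x => s x + R₀, ⟨?_, ?_, ?_⟩, ?_, ?_, ?_, ε, a0, c, d, δ', hε, hc, hδ', ?_⟩
  · exact fun x hx => (hs.smooth x hx).add contDiffAt_const
  · intro x hx
    have := hs.pos x hx
    linarith
  · intro x c hc
    show s (c • x) + R₀ = s x + R₀
    rw [hs.homog x c hc]
  · intro x hx hxR
    obtain ⟨h1, h2, h3⟩ := sgi_norm h0 hxR
    have hlt := hΩ (sgi R₀ x) ⟨h1, by rw [h3]; exact hx⟩ h1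
    have hx0 : 0 < ‖x‖ := lt_of_le_of_lt h0 hxR
    have h4 : s (sgi R₀ x) = s x := hs.homog x _ (div_pos (by linarith) hx0)
    rw [h2, h4] at hlt
    show ‖x‖ < s x + R₀
    linarith
  · intro x hx
    have := hs.pos x hx
    show R₀ < s x + R₀
    linarith
  · intro n
    have hn0 : (n : E3) ≠ 0 := H17V.a3_ne
    have hpos : 0 < s n := hs.pos _ hn0
    have hy0 : s n • (n : E3) ≠ 0 := smul_ne_zero hpos.ne' hn0
    show r (qq f ((s n + R₀) • (n : E3))) ≤ 2 * E + δ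
    rw [← sg_ray R₀ n hpos, qq_sg h0 f hy0]
    exact hn n
  · intro n
    have hn0 : (n : E3) ≠ 0 := H17V.a3_ne
    have hpos : 0 < s n := hs.pos _ hn0
    have hy0 : s n • (n : E3) ≠ 0 := smul_ne_zero hpos.ne' hn0
    have h3 := hcv n
    rw [NN_shift h0 ε k f hy0, NN_shift h0 (-ε) k f hy0, sg_ray R₀ n hpos] at h3
    exact h3

theorem env_bothS {R₀ : ℝ} {F : E4 → ℝ} {k : ℝ → ℝ} {r : ℝ × ℝ → ℝ} {f : E3 → ℝ} {E ε : ℝ} (hε : ε = 1 ∨ ε = -1)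
    (hR : Red R₀ F k r f) (hE : Ends R₀ F k r f E) {Om : Set E3} {p : E3} (hp : R₀ < ‖p‖)
    (hpb : fderiv ℝ r (qq f p) (-ε, 1 / k ‖p‖) ≤ 0)
    (hOm : ∀ x ∈ Om, R₀ < ‖x‖ → NN R₀ ε k f x ≤ NN R₀ ε k f p) {ρ0 : ℝ} (hρ0 : R₀ < ρ0)
    (hin : ∀ x : E3, R₀ < ‖x‖ → ‖x‖ < ρ0 → NN R₀ ε k f x < NN R₀ ε k f p) :
    0 < E ∧ ∀ δ : ℝ, 0 < δ → EnvS R₀ k r f Om E δ := by
  have h0 := hR.nonneg
  obtain ⟨h1, h2, h3⟩ := sgi_norm h0 hp
  have hq : ((qq (shf R₀ f) (sgi R₀ p)).1, (qq (shf R₀ f) (sgi R₀ p)).2 + R₀) = qq f p := by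
    rw [← qq_sg h0 f h1, h3]
  have key := env_both0 (F := shF R₀ F) (k := shk R₀ k) (r := shr R₀ r) (f := shf R₀ f) (E := E) hε (H17V.sh_red hR)
    (H17V.sh_ends h0 hE) (Om := {y | y ≠ 0 ∧ sg R₀ y ∈ Om}) (p := sgi R₀ p) h1 ?_ ?_ (ρ0 := ρ0 - R₀) (by linarith) ?_
  · exact ⟨key.1, fun δ hδ => envS_shift hR (key.2 δ hδ)⟩
  · have e := H17V.shift_fderiv R₀ r (qq (shf R₀ f) (sgi R₀ p)) (-ε, 1 / shk R₀ k ‖sgi R₀ p‖)
    rw [hq] at e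
    have e2 : shk R₀ k ‖sgi R₀ p‖ = k ‖p‖ := by
      show k (‖sgi R₀ p‖ + R₀) = k ‖p‖
      rw [h2, sub_add_cancel]
    rw [e2] at e ⊢
    exact e.le.trans hpb
  · rintro x ⟨-, hx⟩ hx0
    rw [NN_shift h0 ε k f hx0, NN_shift h0 ε k f h1, h3]
    exact hOm _ hx (sg_norm h0 hx0).2
  · intro x hx0 hx
    rw [NN_shift h0 ε k f hx0, NN_shift h0 ε k f h1, h3]
    have hn := sg_norm h0 hx0
    exact hin _ hn.2 (by rw [hn.1]; linarith)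

end H74X
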