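import Pool.Agent.Lib.H17V.Top
import Pool.Agent.Lib.H17W.FB
import Pool.Agent.Lib.H74X.R2
import Pool.Agent.Lib.H74X.S1
import Pool.Agent.Lib.H74X.S7
import Pool.Agent.Lib.H74X.T2

set_option autoImplicit false

/-!
# H74X, module T3: the touching point, the core theorem

As `H17V/Top.lean`.
-/

open MeasureTheory Filter Topology Set
open scoped ContDiff

namespace H74X

open H17T (E4 pt pos tang slice second DEC qq RadialGraph graphArea areaSq touch_compare)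
open H17V (NN Ends NN_smooth NN_radial exists_maxR meanCurv_congr trLevel_congr ext_nhds mem_near)
open Pool.Agent.Lib.PenroseSph (E3 Tens S2 sm pd gradNorm normal meanCurv trLevel DefFun)

variable {R₀ : ℝ} {D : Set (ℝ × ℝ)} {F : E4 → ℝ} {k : ℝ → ℝ} {r : ℝ × ℝ → ℝ} {H : E4 → Matrix (Fin 3) (Fin 3) ℝ}
  {U W : E4 → Fin 3 → ℝ} {f : E3 → ℝ}

/-- The touching point of the boundary. -/
theorem touch_main (hS : Slice R₀ D F k r H U W f) {g h : Tens}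
    (hg : ∀ x : E3, R₀ < ‖x‖ → g x = slice (metric F k r H U W) f x)
    (hh : (∀ x : E3, R₀ < ‖x‖ → h x = second (metric F k r H U W) f x) ∨
      ∀ x : E3, R₀ < ‖x‖ → h x = -second (metric F k r H U W) f x)
    {Om : Set E3} (hOo : IsOpen Om) (hOb : Bornology.IsBounded Om)
    (hin : (∃ δ : ℝ, 0 < δ ∧ ∀ x : E3, R₀ < ‖x‖ → ‖x‖ < R₀ + δ → x ∈ Om) ∨
      (R₀ = 0 ∧ Om.Nonempty ∧ ContinuousAt f 0))
    (hor : ∀ x ∈ frontier Om, R₀ < ‖x‖ → ∃ w : E3 → ℝ, DefFun Om w x ∧ meanCurv g w x ≤ trLevel g h w x) :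
    ∃ ε : ℝ, (ε = 1 ∨ ε = -1) ∧ ∃ (p : E3) (ρ0 : ℝ), R₀ < ‖p‖ ∧ R₀ < ρ0 ∧
      fderiv ℝ r (qq f p) (-ε, 1 / k ‖p‖) ≤ 0 ∧ (∀ x ∈ Om, R₀ < ‖x‖ → NN R₀ ε k f x ≤ NN R₀ ε k f p) ∧
      ∀ x : E3, R₀ < ‖x‖ → ‖x‖ < ρ0 → NN R₀ ε k f x < NN R₀ ε k f p := by
  set g' := slice (metric F k r H U W) f with hg'
  set K := second (metric F k r H U W) f with hK
  have hR := red_of hS
  obtain ⟨ε, hε, htr⟩ : ∃ ε : ℝ, (ε = 1 ∨ ε = -1) ∧ ∀ w x, R₀ < ‖x‖ → trLevel g' h w x = ε * trLevel g' K w x := by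
    rcases hh with hh | hh
    · refine ⟨1, Or.inl rfl, fun w x hx => ?_⟩
      unfold trLevel
      rw [one_mul]
      simp only [hh x hx]
    · refine ⟨-1, Or.inr rfl, fun w x hx => ?_⟩
      unfold trLevel
      rw [Finset.mul_sum]
      refine Finset.sum_congr rfl fun i _ => ?_
      rw [Finset.mul_sum]
      refine Finset.sum_congr rfl fun j _ => ?_
      rw [hh x hx]
      show _ * -(K x i j) = _
      ring
  obtain ⟨p, ρ0, hp, hpf, hρ0, hOm, hin0⟩ := exists_maxR hε hR hOo hOb hin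
  refine ⟨ε, hε, p, ρ0, hp, hρ0, ?_, hOm, hin0⟩
  obtain ⟨w, hw, hhor⟩ := hor p hpf hp
  rw [meanCurv_congr ((ext_nhds hp).mono fun y hy => hg y hy), trLevel_congr (hg p hp) rfl, htr w p hp] at hhor
  have hNs : ContDiffAt ℝ ∞ (NN R₀ ε k f) p := NN_smooth hS.st.nonneg hS.st.k_smooth hS.f_smooth hp
  have hrad := NN_radial hS.st.nonneg hε hS.st.k_smooth hS.f_smooth hS.slope hp
  have hdN : fderiv ℝ (NN R₀ ε k f) p ≠ 0 := by
    intro h0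
    rw [h0] at hrad
    simp at hrad
  have hmax : ∀ᶠ x in 𝓝 p, x ∈ Om → NN R₀ ε k f x ≤ NN R₀ ε k f p := by
    filter_upwards [ext_nhds hp] with x hx hxO
    exact hOm x hxO hx
  obtain ⟨h1, h2⟩ := touch_compare (g := g') (h := K) (fun i j => H17W.fb_slice_symm (sl_at hS hp) i j)
    (hS.spacelike p hp) hw hpf (hNs.of_le (by norm_cast)) hdN hmax
  have h3 := expansion hS hε hp
  rw [← hg', ← hK] at h3
  rw [h2] at hhor
  have hFp : 0 < F (pt (f p) p) := hS.st.F_pos _ (dom_pt hS hp)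
  have hrp : 0 < r (qq f p) := hS.st.r_pos _ (hS.mem p hp)
  have hgn := (null_normal hS hε hp).2
  rw [← hg'] at hgn
  have h4 : 2 * fderiv ℝ r (qq f p) (-ε, 1 / k ‖p‖) / (F (pt (f p) p) * r (qq f p) * gradNorm g' (NN R₀ ε k f) p) ≤ 0 := by
    rw [← h3]
    linarith
  have hden : 0 < F (pt (f p) p) * r (qq f p) * gradNorm g' (NN R₀ ε k f) p := by positivity
  by_contra hcon
  push Not at hcon
  have : 0 < 2 * fderiv ℝ r (qq f p) (-ε, 1 / k ‖p‖) / (F (pt (f p) p) * r (qq f p) * gradNorm g' (NN R₀ ε k f) p) :=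
    div_pos (by linarith) hden
  linarith

/-- The core: limits are an input. -/
theorem core (hS : Slice R₀ D F k r H U W f) {m : ℝ} (hEnds : Ends R₀ (Fb F) k r f m) {g h : Tens}
    (hg : ∀ x : E3, R₀ < ‖x‖ → g x = slice (metric F k r H U W) f x)
    (hh : (∀ x : E3, R₀ < ‖x‖ → h x = second (metric F k r H U W) f x) ∨
      ∀ x : E3, R₀ < ‖x‖ → h x = -second (metric F k r H U W) f x)
    {Om : Set E3} (hOo : IsOpen Om) (hOb : Bornology.IsBounded Om)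
    (hin : (∃ δ : ℝ, 0 < δ ∧ ∀ x : E3, R₀ < ‖x‖ → ‖x‖ < R₀ + δ → x ∈ Om) ∨
      (R₀ = 0 ∧ Om.Nonempty ∧ ContinuousAt f 0))
    (hor : ∀ x ∈ frontier Om, R₀ < ‖x‖ → ∃ w : E3 → ℝ, DefFun Om w x ∧ meanCurv g w x ≤ trLevel g h w x) :
    0 < m ∧ ∀ δ : ℝ, 0 < δ → ∃ s : E3 → ℝ, RadialGraph s ∧ (∀ x : E3, x ≠ 0 → R₀ < s x) ∧
      (∀ x ∈ Om, R₀ < ‖x‖ → ‖x‖ < s x) ∧ graphArea g s ≤ 16 * Real.pi * m ^ 2 + δ := by
  obtain ⟨ε, hε, p, ρ0, hp, hρ0, hW, hOm, hin0⟩ := touch_main hS hg hh hOo hOb hin hor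
  obtain ⟨hm, hEnv⟩ := env_bothS hε (red_of hS) hEnds hp hW hOm hρ0 hin0
  exact ⟨hm, fun δ hδ => area_of_env hS hg hm hEnv hδ⟩

end H74X
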