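import Pool.Agent.Lib.H17B.MainV
import Pool.Agent.Lib.H17W.EG8
import Pool.Agent.Lib.H74X.EC7
import Pool.Agent.Lib.H74X.ED1
import Pool.Agent.Lib.H74X.ED2
import Pool.Agent.Lib.H74X.T3

set_option autoImplicit false

/-!
# H74X: assembly of the main theorem
-/

open MeasureTheory Filter Topology Set Asymptotics
open scoped ContDiff

namespace H74E

open H17T H17B
open H17V (BD Near QQ ww Ends NN XX Red XX_deriv admFlux_congr admMom_congr admMom_neg boost_neg boost_zero boost_congr)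
open H74X (metric SpaceTime AsympFlatB Small Small2 Fb mass_Fb red_of core)
open H74K (Kin)
open Pool.Agent.Lib.PenroseSph (E3 Tens S2 sm pd momDensity admFlux admMom DefFun meanCurv trLevel)

variable {R₀ β : ℝ} {D : Set (ℝ × ℝ)} {F : E4 → ℝ} {k : ℝ → ℝ} {r : ℝ × ℝ → ℝ} {H : E4 → Matrix (Fin 3) (Fin 3) ℝ}
  {U W : E4 → Fin 3 → ℝ} {f : E3 → ℝ}

/-- The behaviour at infinity of the mean from that of `F`. -/
theorem ends_Fb {m : ℝ} (h : Ends R₀ F k r f m) : Ends R₀ (Fb F) k r f m := by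
  refine ⟨h.pos, h.grow, fun n => (h.lim n).congr' ?_⟩
  filter_upwards [eventually_gt_atTop (0 : ℝ)] with s hs
  refine (mass_Fb F k r ?_).symm
  show 0 < ‖s • (n : E3)‖
  rw [H17V.norm_n n hs]
  exact hs

/-- Behaviour at infinity for `β = 0`. -/
theorem ends_zero (hS : H74X.Slice R₀ D F k r H U W f) (hA : AsympFlatB R₀ 0 F k r H U W f) :
    ∃ E : ℝ, Ends R₀ (Fb F) k r f E ∧ Tendsto (admFlux (slice (metric F k r H U W) f)) atTop (𝓝 E) ∧
      ∀ i, Tendsto (admMom (slice (metric F k r H U W) f) (second (metric F k r H U W) f) i) atTop (𝓝 0) := by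
  have hK := kin_F hS
  have hKb := kin_Fb hS
  have hR := red_of hS
  have hAs := asy_of hS hA
  have hfd : ∃ C R : ℝ, 0 < R ∧ ∀ x : E3, R ≤ ‖x‖ → (∀ i, |pd i f x| ≤ C / ‖x‖) ∧ ∀ i j, |pd i (pd j f) x| ≤ C / ‖x‖ ^ 2 := by
    obtain ⟨C, R, hR, h⟩ := hA.base.f_decay
    refine ⟨C, R, hR, fun x hx => ⟨fun i => ?_, (h x hx).2⟩⟩
    have := (h x hx).1 i
    simpa using this
  obtain ⟨C, R, hB⟩ := H74K.bounds hK ⟨hfd, hA.base.F_decay, hA.base.k_decay, hA.base.r_decay⟩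
  obtain ⟨C', R', hBb⟩ := bd_Fb hS hB
  have hf : ∀ i, Om 1 (pd i f) := by
    obtain ⟨C₁, R₁, -, h₁⟩ := hfd
    refine fun i => Om.pd (C := C₁) hAs.f_smooth ?_ hAs.f_two i
    filter_upwards [tendsto_norm_cobounded_atTop.eventually_ge_atTop R₁] with x hx
    exact (h₁ x hx).1
  obtain ⟨E, hE⟩ := H74K.mass_unif hKb hR hBb
  have hE' : ∀ ε : ℝ, 0 < ε → ∃ R' : ℝ, ∀ x : E3, R' ≤ ‖x‖ → |mass F k r (qq f x) - E| ≤ ε := by
    intro ε hε
    obtain ⟨R₂, h⟩ := hE ε hε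
    refine ⟨max R₂ 1, fun x hx => ?_⟩
    have h0 : 0 < (qq f x).2 := lt_of_lt_of_le one_pos ((le_max_right _ _).trans hx)
    rw [← mass_Fb F k r h0]
    exact h x ((le_max_left _ _).trans hx)
  refine ⟨E, ⟨H74K.ends_pos hK hB, H74K.ends_grow hK hB, fun n => ?_⟩, energy_lim hS hAs hf hK hB hE',
    fun i => mom_lim hS hAs hf hK hB hA.U_decay (fun i => (hA.second rfl i).1) (fun i => (hA.second rfl i).2)
      (fun ε hε => H74K.ww_osc hKb hR hBb hε) i⟩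
  rw [Metric.tendsto_atTop]
  intro ε hε
  obtain ⟨R₂, h⟩ := hE (ε / 2) (half_pos hε)
  refine ⟨max R₂ 1, fun s hs => ?_⟩
  have hs0 : 0 < s := lt_of_lt_of_le one_pos ((le_max_right _ _).trans hs)
  have h1 := h (s • (n : E3)) (by rw [H17V.norm_n n hs0]; exact (le_max_left _ _).trans hs)
  rw [Real.dist_eq]
  linarith

/-- The main theorem for `β = 0`. -/
theorem main_zero (hS : H74X.Slice R₀ D F k r H U W f) (hA : AsympFlatB R₀ 0 F k r H U W f) {g h : Tens}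
    (hg : ∀ x : E3, R₀ < ‖x‖ → g x = slice (metric F k r H U W) f x)
    (hh : (∀ x : E3, R₀ < ‖x‖ → h x = second (metric F k r H U W) f x) ∨
      ∀ x : E3, R₀ < ‖x‖ → h x = -second (metric F k r H U W) f x)
    {Om : Set E3} (hOo : IsOpen Om) (hOb : Bornology.IsBounded Om)
    (hin : (∃ δ : ℝ, 0 < δ ∧ ∀ x : E3, R₀ < ‖x‖ → ‖x‖ < R₀ + δ → x ∈ Om) ∨
      (R₀ = 0 ∧ Om.Nonempty ∧ ContinuousAt f 0))
    (hor : ∀ x ∈ frontier Om, R₀ < ‖x‖ → ∃ w : E3 → ℝ, DefFun Om w x ∧ meanCurv g w x ≤ trLevel g h w x) :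
    ∃ E : ℝ, Tendsto (admFlux g) atTop (𝓝 E) ∧ (∀ i, Tendsto (admMom g h i) atTop (𝓝 0)) ∧ 0 < E ∧
      ∀ δ : ℝ, 0 < δ → ∃ s : E3 → ℝ, RadialGraph s ∧ (∀ x : E3, x ≠ 0 → R₀ < s x) ∧
        (∀ x ∈ Om, R₀ < ‖x‖ → ‖x‖ < s x) ∧ graphArea g s ≤ 16 * Real.pi * E ^ 2 + δ := by
  obtain ⟨E, hEnds, hE, hP⟩ := ends_zero hS hA
  obtain ⟨hEpos, hfin⟩ := core hS hEnds hg hh hOo hOb hin hor
  refine ⟨E, ?_, fun i => ?_, hEpos, hfin⟩
  · refine hE.congr' ?_
    filter_upwards [eventually_gt_atTop R₀] with t ht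
    exact (admFlux_congr hS.st.nonneg hg ht).symm
  · rcases hh with hh | hh
    · refine (hP i).congr' ?_
      filter_upwards [eventually_gt_atTop R₀] with t ht
      exact (admMom_congr hS.st.nonneg hg hh i ht).symm
    · have h1 : Tendsto (admMom (slice (metric F k r H U W) f) (fun x => -second (metric F k r H U W) f x) i) atTop (𝓝 0) := by
        rw [admMom_neg]
        simpa using (hP i).neg
      refine h1.congr' ?_
      filter_upwards [eventually_gt_atTop R₀] with t ht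
      exact (admMom_congr hS.st.nonneg hg hh i ht).symm

/-- The limits for boosted slices. -/
theorem main_boost (hS : H74X.Slice R₀ D F k r H U W f) (hβ : β ≠ 0) (hA : AsympFlatB R₀ β F k r H U W f) {g h : Tens}
    (hg : ∀ x : E3, R₀ < ‖x‖ → g x = slice (metric F k r H U W) f x)
    (hh : (∀ x : E3, R₀ < ‖x‖ → h x = second (metric F k r H U W) f x) ∨
      ∀ x : E3, R₀ < ‖x‖ → h x = -second (metric F k r H U W) f x)
    {Om : Set E3} (hOo : IsOpen Om) (hOb : Bornology.IsBounded Om)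
    (hin : (∃ δ : ℝ, 0 < δ ∧ ∀ x : E3, R₀ < ‖x‖ → ‖x‖ < R₀ + δ → x ∈ Om) ∨
      (R₀ = 0 ∧ Om.Nonempty ∧ ContinuousAt f 0))
    (hor : ∀ x ∈ frontier Om, R₀ < ‖x‖ → ∃ w : E3 → ℝ, DefFun Om w x ∧ meanCurv g w x ≤ trLevel g h w x) :
    ∃ (E : ℝ) (P : Fin 3 → ℝ), Tendsto (admFlux (boost β g)) atTop (𝓝 E) ∧
      (∀ i, Tendsto (admMom (boost β g) (boost β h) i) atTop (𝓝 (P i))) ∧
      ∑ i, P i ^ 2 = β ^ 2 * E ^ 2 ∧ Real.sqrt (∑ i, P i ^ 2) < E ∧
      ∀ δ : ℝ, 0 < δ → ∃ s : E3 → ℝ, RadialGraph s ∧ (∀ x : E3, x ≠ 0 → R₀ < s x) ∧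
        (∀ x ∈ Om, R₀ < ‖x‖ → ‖x‖ < s x) ∧ graphArea g s ≤ 16 * Real.pi * (E ^ 2 - ∑ i, P i ^ 2) + δ := by
  obtain ⟨m, h1, h2, h3⟩ := hA.base.schw hβ
  obtain ⟨hH, hU, hW⟩ := hA.schw hβ
  obtain ⟨sH, sU, sW⟩ := two_of hS hH hU hW
  have hK := kin_F hS
  obtain ⟨C, R, hR, hF⟩ := H74K.farEnd_of (m := m) (β := β) hK ⟨hA.base.beta, hA.base.f_decay, h1, h2, h3⟩
  have hG := gend hS (asy_of hS hA) sH sU sW hR hF
  have hEnds : Ends R₀ F k r f m := by
    refine ⟨pos_b hF, ?_, mass_lim_b hF⟩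
    intro M
    obtain ⟨R', h⟩ := grow_b hF (X := XX R₀ k) (fun t ht => XX_deriv hK.k_smooth (hR.trans_le ht)) M
    refine ⟨R', fun x hx => ?_⟩
    obtain ⟨h1, h2⟩ := h x hx
    unfold H17V.NN
    constructor <;> linarith
  obtain ⟨hm, hfin⟩ := core hS (ends_Fb hEnds) hg hh hOo hOb hin hor
  have hβ1 := hA.base.beta
  obtain ⟨hγ1, hγ2⟩ := lor_one_le hβ1
  have hγ0 : 0 < lor β := lt_of_lt_of_le one_pos hγ1
  have hE : Tendsto (admFlux (boost β g)) atTop (𝓝 (lor β * m)) := by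
    refine (H17G.energy_lim hG).congr' ?_
    filter_upwards [eventually_gt_atTop R₀] with t ht
    exact (admFlux_congr hS.st.nonneg (boost_congr hβ1 hg) ht).symm
  obtain ⟨τ, hτ, hmom⟩ : ∃ τ : ℝ, τ ^ 2 = 1 ∧ ∀ i,
      Tendsto (admMom (boost β g) (boost β h) i) atTop (𝓝 (τ * (lor β * β * m * dz i))) := by
    rcases hh with hh | hh
    · refine ⟨1, by norm_num, fun i => ?_⟩
      rw [one_mul]
      refine (H17G.momentum_lim hG i).congr' ?_
      filter_upwards [eventually_gt_atTop R₀] with t ht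
      exact (admMom_congr hS.st.nonneg (boost_congr hβ1 hg) (boost_congr hβ1 hh) i ht).symm
    · refine ⟨-1, by norm_num, fun i => ?_⟩
      have h1 : Tendsto (admMom (boost β (slice (metric F k r H U W) f))
          (boost β fun x => -second (metric F k r H U W) f x) i) atTop (𝓝 (-1 * (lor β * β * m * dz i))) := by
        rw [boost_neg, admMom_neg, neg_one_mul]
        exact (H17G.momentum_lim hG i).neg
      refine h1.congr' ?_
      filter_upwards [eventually_gt_atTop R₀] with t ht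
      exact (admMom_congr hS.st.nonneg (boost_congr hβ1 hg) (boost_congr hβ1 hh) i ht).symm
  have hsum : ∑ i, (τ * (lor β * β * m * dz i)) ^ 2 = β ^ 2 * (lor β * m) ^ 2 := by
    rw [Fin.sum_univ_three]
    unfold dz
    simp only [if_true, Fin.isValue, one_ne_zero, if_false, Fin.reduceEq]
    linear_combination (β ^ 2 * (lor β * m) ^ 2) * hτ
  refine ⟨lor β * m, fun i => τ * (lor β * β * m * dz i), hE, hmom, hsum, ?_, ?_⟩
  · rw [hsum]
    have h1 : β ^ 2 * (lor β * m) ^ 2 = (|β| * (lor β * m)) ^ 2 := by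
      rw [mul_pow |β|, sq_abs]
    rw [h1, Real.sqrt_sq (by positivity)]
    have h2 : 0 < lor β * m := mul_pos hγ0 hm
    calc |β| * (lor β * m) < 1 * (lor β * m) := mul_lt_mul_of_pos_right hβ1 h2
      _ = lor β * m := one_mul _
  · intro δ hδ
    obtain ⟨s, hs, hsR, hsO, harea⟩ := hfin δ hδ
    refine ⟨s, hs, hsR, hsO, harea.trans (le_of_eq ?_)⟩
    have h3 : (lor β * m) ^ 2 - ∑ i, (τ * (lor β * β * m * dz i)) ^ 2 = m ^ 2 := by
      rw [hsum]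
      linear_combination m ^ 2 * hγ2
    show 16 * Real.pi * m ^ 2 + δ = 16 * Real.pi * ((lor β * m) ^ 2 - ∑ i, (τ * (lor β * β * m * dz i)) ^ 2) + δ
    rw [h3]

/-- One statement for all velocities at infinity. -/
theorem main_all (hS : H74X.Slice R₀ D F k r H U W f) (hA : AsympFlatB R₀ β F k r H U W f) {g h : Tens}
    (hg : ∀ x : E3, R₀ < ‖x‖ → g x = slice (metric F k r H U W) f x)
    (hh : (∀ x : E3, R₀ < ‖x‖ → h x = second (metric F k r H U W) f x) ∨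
      ∀ x : E3, R₀ < ‖x‖ → h x = -second (metric F k r H U W) f x)
    {Om : Set E3} (hOo : IsOpen Om) (hOb : Bornology.IsBounded Om)
    (hin : (∃ δ : ℝ, 0 < δ ∧ ∀ x : E3, R₀ < ‖x‖ → ‖x‖ < R₀ + δ → x ∈ Om) ∨
      (R₀ = 0 ∧ Om.Nonempty ∧ ContinuousAt f 0))
    (hor : ∀ x ∈ frontier Om, R₀ < ‖x‖ → ∃ w : E3 → ℝ, DefFun Om w x ∧ meanCurv g w x ≤ trLevel g h w x) :
    ∃ (E : ℝ) (P : Fin 3 → ℝ), Tendsto (admFlux (boost β g)) atTop (𝓝 E) ∧
      (∀ i, Tendsto (admMom (boost β g) (boost β h) i) atTop (𝓝 (P i))) ∧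
      ∑ i, P i ^ 2 = β ^ 2 * E ^ 2 ∧ Real.sqrt (∑ i, P i ^ 2) < E ∧
      ∀ δ : ℝ, 0 < δ → ∃ s : E3 → ℝ, RadialGraph s ∧ (∀ x : E3, x ≠ 0 → R₀ < s x) ∧
        (∀ x ∈ Om, R₀ < ‖x‖ → ‖x‖ < s x) ∧ graphArea g s ≤ 16 * Real.pi * (E ^ 2 - ∑ i, P i ^ 2) + δ := by
  by_cases hβ : β = 0
  · subst hβ
    obtain ⟨E, hE, hP, hEpos, hfin⟩ := main_zero hS hA hg hh hOo hOb hin hor
    refine ⟨E, fun _ => 0, ?_, ?_, by simp, by simpa using hEpos, ?_⟩
    · rw [boost_zero]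
      exact hE
    · intro i
      rw [boost_zero, boost_zero]
      exact hP i
    · intro δ hδ
      obtain ⟨s, hs, hsR, hsO, harea⟩ := hfin δ hδ
      refine ⟨s, hs, hsR, hsO, ?_⟩
      simpa using harea
  · exact main_boost hS hβ hA hg hh hOo hOb hin hor

end H74E
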