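import Pool.Agent.Lib.H74X.A5
import Pool.Agent.Lib.H74X.BR

set_option autoImplicit false

/-!
# H74X, chunk R1 (M): consequences of the dominant energy condition

Auxiliary names start with `r1_`.
-/

open MeasureTheory Filter Topology Set
open scoped ContDiff

namespace H74X

open H17T (E4 pt pos tang slice second DEC)
open H17W (ip vel cov riem Ric scal MetAt Cyl NFrame)
open Pool.Agent.Lib.PenroseSph (E3 Tens S2 sm)

variable {S : Dat} {p : VV}

/-- The Einstein tensor on two vectors is `Ric(a,b) - scal/2 <a,b>` (`H17T.ein`, `H17W.Ric`, `H17W.scal`, `H17W.ip`: the sums are the same). -/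
theorem ein_sum (G : E4 → Matrix (Fin 4) (Fin 4) ℝ) (q : E4) (a b : Fin 4 → ℝ) :
    ∑ i, ∑ j, H17T.ein G i j q * a i * b j = Ric G q a b - 1 / 2 * scal G q * ip G q a b := by
  have h1 : ∀ i j, H17T.ein G i j q * a i * b j =
      H31R.ric G i j q * a i * b j - 1 / 2 * scal G q * (G q i j * a i * b j) := by
    intro i j
    show (H31R.ric G i j q - 1 / 2 * scal G q * G q i j) * a i * b j = _
    ring
  simp only [h1, Finset.sum_sub_distrib]
  unfold Ric ip
  simp only [Finset.mul_sum]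

theorem r1_smul_right (G : E4 → Matrix (Fin 4) (Fin 4) ℝ) (q : E4) (t : ℝ) (a b : Fin 4 → ℝ) :
    Ric G q a (t • b) = t * Ric G q a b := by
  unfold Ric
  rw [Finset.mul_sum]
  refine Finset.sum_congr rfl fun i _ => ?_
  rw [Finset.mul_sum]
  refine Finset.sum_congr rfl fun j _ => ?_
  rw [Pi.smul_apply, smul_eq_mul]
  ring

theorem r1_neg_right (G : E4 → Matrix (Fin 4) (Fin 4) ℝ) (q : E4) (a b : Fin 4 → ℝ) :
    Ric G q a (-b) = -Ric G q a b := by
  have h1 := r1_smul_right G q (-1) a b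
  rw [neg_one_smul] at h1
  rw [h1]
  ring

/-- The scalar curvature (`H17W.scal_frame` with `nframe`, `Ric_symm`): `scal = tr_S Ric + (4/F) Ric(L_1, L_{-1})`. -/
theorem scal_eq (h : Ok S) (hp : p ∈ OO S) :
    scal S.G (S.Ph p) = ricS S p + 4 / S.F p * Ric S.G (S.Ph p) (LL S 1 p) (LL S (-1) p) := by
  have h1 := H17W.scal_frame (h.met p hp) (nframe h hp (e := 1) (by norm_num))
  rw [h1, H17W.Ric_symm (h.met p hp) ((4 / S.F p) • LL S (-1) p), r1_smul_right]
  unfold ricS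
  ring

/-- If the dominant energy condition holds at `Φ(p)` and `L_1`, `-L_{-1}` are future directed (positive time component), then `Ric(L_1, L_1)`,
`Ric(L_{-1}, L_{-1})` and `tr_S Ric` are nonnegative: `Ein(L,L) = Ric(L,L)` for null `L`, `Ein(L_1, -L_{-1}) = (F/4) tr_S Ric` (`ein_sum`, `scal_eq`,
`<L_1, L_{-1}> = F/2`). -/
theorem dec_null (h : Ok S) (hp : p ∈ OO S) (hD : DEC S.G (S.Ph p)) (h1 : 0 < LL S 1 p 0) (h2 : LL S (-1) p 0 < 0) :
    0 ≤ Ric S.G (S.Ph p) (LL S 1 p) (LL S 1 p) ∧ 0 ≤ Ric S.G (S.Ph p) (LL S (-1) p) (LL S (-1) p) ∧ 0 ≤ ricS S p := by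
  have hF := h.F_pos p hp
  have i1 : ip S.G (S.Ph p) (LL S 1 p) (LL S 1 p) = 0 := by
    refine (h.ipL p hp 1 1).trans ?_
    ring
  have i2 : ip S.G (S.Ph p) (LL S (-1) p) (LL S (-1) p) = 0 := by
    refine (h.ipL p hp (-1) (-1)).trans ?_
    ring
  have i3 : ip S.G (S.Ph p) (LL S 1 p) (LL S (-1) p) = S.F p / 2 := by
    refine (h.ipL p hp 1 (-1)).trans ?_
    ring
  have i4 : ip S.G (S.Ph p) (LL S 1 p) (-LL S (-1) p) = -(S.F p / 2) := by
    have e := H17W.ip_smul_right (G := S.G) (p := S.Ph p) (-1) (LL S 1 p) (LL S (-1) p)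
    rw [neg_one_smul] at e
    rw [e, i3]
    ring
  have i5 : ip S.G (S.Ph p) (-LL S (-1) p) (-LL S (-1) p) = 0 := by
    have e := H17W.ip_smul_right (G := S.G) (p := S.Ph p) (-1) (-LL S (-1) p) (LL S (-1) p)
    have e' := H17W.ip_smul_left (G := S.G) (p := S.Ph p) (-1) (LL S (-1) p) (LL S (-1) p)
    rw [neg_one_smul] at e e'
    rw [e, e', i2]
    ring
  have c1 : H17T.Causal S.G (S.Ph p) (LL S 1 p) := ⟨h1, le_of_eq i1⟩
  have c2 : H17T.Causal S.G (S.Ph p) (-LL S (-1) p) := by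
    refine ⟨?_, le_of_eq i5⟩
    rw [Pi.neg_apply]
    linarith
  have d1 := hD _ _ c1 c1
  have d2 := hD _ _ c2 c2
  have d3 := hD _ _ c1 c2
  rw [ein_sum, i1] at d1
  rw [ein_sum, i5] at d2
  rw [ein_sum, i4, scal_eq h hp, r1_neg_right] at d3
  have e2 : Ric S.G (S.Ph p) (-LL S (-1) p) (-LL S (-1) p) = Ric S.G (S.Ph p) (LL S (-1) p) (LL S (-1) p) := by
    rw [r1_neg_right, H17W.Ric_symm (h.met p hp), r1_neg_right, neg_neg]
  rw [e2] at d2
  refine ⟨by linarith, by linarith, ?_⟩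
  have e3 : -Ric S.G (S.Ph p) (LL S 1 p) (LL S (-1) p) - 1 / 2 * (ricS S p + 4 / S.F p *
      Ric S.G (S.Ph p) (LL S 1 p) (LL S (-1) p)) * -(S.F p / 2) = S.F p / 4 * ricS S p := by
    field_simp
    ring
  rw [e3] at d3
  have h4 : 0 < S.F p / 4 := by positivity
  exact nonneg_of_mul_nonneg_right d3 h4

end H74X
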