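import Pool.Agent.Lib.H17V.Red
import Pool.Agent.Lib.H74X.R1

set_option autoImplicit false

/-!
# H74X, chunk R2A (S/M): mean of 1/F

Auxiliary names start with `r2a_`. 
-/

open MeasureTheory Filter Topology Set
open scoped ContDiff

namespace H74X

open H17T (E4 pt pos tang slice second DEC ev qq Da Db mF mass)

open H17V (Red Near)

open H17W (ip vel cov riem Ric scal MetAt Cyl NFrame)

open Pool.Agent.Lib.PenroseSph (E3 Tens S2 sm)

/-- The radial function `1 / <1/F>`. -/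
noncomputable def Fb (F : E4 → ℝ) (p : E4) : ℝ := (mF F (p 0, ‖pos p‖))⁻¹

variable {R₀ : ℝ} {D : Set (ℝ × ℝ)} {F : E4 → ℝ} {k : ℝ → ℝ} {r : ℝ × ℝ → ℝ} {H : E4 → Matrix (Fin 3) (Fin 3) ℝ}
  {U W : E4 → Fin 3 → ℝ} {f : E3 → ℝ} {q : ℝ × ℝ}

theorem r2a_ev (hq : 0 < q.2) (n : S2) : ((ev q n : E4) 0, ‖pos (ev q n)‖) = q := by
  unfold ev
  rw [H17T.pt_zero, H17T.pos_pt, norm_smul, norm_eq_of_mem_sphere n, mul_one, Real.norm_eq_abs, abs_of_pos hq]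

theorem Fb_ev (F : E4 → ℝ) (hq : 0 < q.2) (n : S2) : Fb F (ev q n) = (mF F q)⁻¹ := by
  unfold Fb
  rw [r2a_ev hq n]

/-- The mean of `1/Fb` is `1/Fb`: `sm` has total mass `4 π` and `Fb` is constant on the sphere. -/
theorem mF_Fb (F : E4 → ℝ) (hq : 0 < q.2) : mF (Fb F) q = mF F q := by
  have h1 : mF (Fb F) q = (4 * Real.pi)⁻¹ * ∫ n : S2, (Fb F (ev q n))⁻¹ ∂sm := rfl
  have h2 : ∀ n : S2, (Fb F (ev q n))⁻¹ = mF F q := by
    intro n
    rw [Fb_ev F hq n, inv_inv]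
  rw [h1]
  simp only [h2]
  rw [integral_const, Pool.Agent.Lib.PenroseSph.sm_univ, smul_eq_mul, ← mul_assoc, inv_mul_cancel₀, one_mul]
  have := Real.pi_pos
  positivity

theorem mass_Fb (F : E4 → ℝ) (k : ℝ → ℝ) (r : ℝ × ℝ → ℝ) (hq : 0 < q.2) : mass (Fb F) k r q = mass F k r q := by
  unfold mass
  rw [mF_Fb F hq]

theorem r2a_phi (q : ℝ × ℝ) (n : S2) : phi (q.1, q.2, (n : E3)) = ev q n := by
  unfold phi ev
  rw [norm_eq_of_mem_sphere n, div_one]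

/-- `mf (dat ..) = mF F` on `D` (`phi (q.1, q.2, n) = ev q n` for `|n| = 1`). -/
theorem mf_dat (hS : SpaceTime R₀ D F k r H U W) (hq : q ∈ D) : mf (dat D F k r H U W) q = mF F q := by
  unfold mf mF
  congr 1
  refine integral_congr_ae (Eventually.of_forall fun n => ?_)
  show (F (phi (q.1, q.2, (n : E3))))⁻¹ = _
  rw [r2a_phi]

theorem mF_smooth (hS : SpaceTime R₀ D F k r H U W) (hq : q ∈ D) : ContDiffAt ℝ ∞ (mF F) q ∧ 0 < mF F q := by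
  refine ⟨?_, ?_⟩
  · refine (mf_smooth (dat_ok hS) hq).congr_of_eventuallyEq ?_
    filter_upwards [hS.isOpen.mem_nhds hq] with q' hq'
    exact (mf_dat hS hq').symm
  · rw [← mf_dat hS hq]
    exact mf_pos (dat_ok hS) hq

theorem Fb_smooth (hS : SpaceTime R₀ D F k r H U W) {p : E4} (hp : (p 0, ‖pos p‖) ∈ D) : ContDiffAt ℝ ∞ (Fb F) p ∧ 0 < Fb F p := by
  obtain ⟨h1, h2⟩ := mF_smooth hS hp
  have h3 : ContDiffAt ℝ ∞ (fun q : E4 => ‖pos q‖) p := H17T.pos_smooth.contDiffAt.norm ℝ (pos_ne hS hp)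
  have h4 : ContDiffAt ℝ ∞ (fun q : E4 => q 0) p := (contDiff_piLp_apply (𝕜 := ℝ) (p := 2) (i := (0 : Fin 4))).contDiffAt
  have h5 : ContDiffAt ℝ ∞ (fun q : E4 => mF F (q 0, ‖pos q‖)) p :=
    ContDiffAt.comp (g := mF F) (f := fun q : E4 => ((q 0, ‖pos q‖) : ℝ × ℝ)) p h1 (h4.prodMk h3)
  exact ⟨h5.inv h2.ne', inv_pos.2 h2⟩

end H74X
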