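import Pool.Agent.Lib.H17V.Red
import Pool.Agent.Lib.H74X.R1
import Pool.Agent.Lib.H74X.R2A

set_option autoImplicit false

/-!
# H74X, chunk R2B (S/M): energy condition on the frame

Auxiliary names start with `r2b_`. 
-/

open MeasureTheory Filter Topology Set
open scoped ContDiff

namespace H74X

open H17T (E4 pt pos tang slice second DEC ev qq Da Db mF mass)

open H17V (Red Near)

open H17W (ip vel cov riem Ric scal MetAt Cyl NFrame)

open Pool.Agent.Lib.PenroseSph (E3 Tens S2 sm)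

variable {R₀ : ℝ} {D : Set (ℝ × ℝ)} {F : E4 → ℝ} {k : ℝ → ℝ} {r : ℝ × ℝ → ℝ} {H : E4 → Matrix (Fin 3) (Fin 3) ℝ}
  {U W : E4 → Fin 3 → ℝ} {f : E3 → ℝ} {q : ℝ × ℝ}

/-- `dk S 1 = Da k`, `dk S (-1) = Db k`. -/
theorem dk_Da (φ : ℝ × ℝ → ℝ) : dk (dat D F k r H U W) 1 φ = Da k φ ∧ dk (dat D F k r H U W) (-1) φ = Db k φ := by
  refine ⟨rfl, ?_⟩
  funext q
  show fderiv ℝ φ q (-1 / 2, 1 / (2 * k q.2)) = fderiv ℝ φ q (-(1 / 2), 1 / (2 * k q.2))
  have h : (-1 / 2 : ℝ) = -(1 / 2) := by norm_num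
  rw [h]

/-- A point met by the slice is in `D`, the events over it are in `Near`. -/
theorem QQ_mem (hS : Slice R₀ D F k r H U W f) (hq : q ∈ H17V.QQ R₀ f) : q ∈ D := by
  obtain ⟨y, hy, rfl⟩ := hq
  exact hS.mem y hy

/-- The frame is future directed (`LL_val`: the time component of `L_e` is `e/2`), so `dec_null` applies at the events `phi (q.1, q.2, n)` over `q`
(they are in `Near R₀ f`). -/
theorem dec_q (hS : Slice R₀ D F k r H U W f) (hq : q ∈ H17V.QQ R₀ f) (n : S2) :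
    let S := dat D F k r H U W
    let p : VV := (q.1, q.2, (n : E3))
    0 ≤ Ric S.G (S.Ph p) (LL S 1 p) (LL S 1 p) ∧ 0 ≤ Ric S.G (S.Ph p) (LL S (-1) p) (LL S (-1) p) ∧ 0 ≤ ricS S p := by
  intro S p
  have hqD := QQ_mem hS hq
  have hq2 : 0 < q.2 := lt_of_le_of_lt hS.st.nonneg (hS.st.rad _ hqD)
  have hp : p ∈ OO (dat D F k r H U W) := leaf_mem hqD (be1_ne n)
  have hev : phi p = ev q n := r2a_phi q n
  have hN : ev q n ∈ Near R₀ f := by
    obtain ⟨y, hy, rfl⟩ := hq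
    have h1 := r2a_ev hq2 n
    have h2 : (ev (qq f y) n : E4) 0 = f y := congrArg Prod.fst h1
    have h3 : ‖pos (ev (qq f y) n)‖ = ‖y‖ := congrArg Prod.snd h1
    refine ⟨?_, y, h3.symm, h2.symm⟩
    rw [h3]
    exact hy
  have hD : DEC S.G (S.Ph p) := by
    have h1 := hS.dec _ hN
    rw [← hev] at h1
    exact h1
  have hL : ∀ e : ℝ, LL S e p 0 = e / 2 := by
    intro e
    have h1 := congrFun (LL_val hS.st hp e) 0
    rw [Pi.add_apply, Pi.smul_apply, Pi.smul_apply] at h1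
    have e1 : eT U (phi p) 0 = 1 := rfl
    have e2 : eR W (phi p) 0 = 0 := rfl
    rw [e1, e2, smul_eq_mul, smul_eq_mul, mul_one, mul_zero, add_zero] at h1
    exact h1
  refine dec_null (dat_ok hS.st) hp hD ?_ ?_
  · rw [hL]
    norm_num
  · rw [hL]
    norm_num

end H74X
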