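import Pool.Agent.Lib.H17V.Red
import Pool.Agent.Lib.H74X.R1
import Pool.Agent.Lib.H74X.R2B

set_option autoImplicit false

/-!
# H74X, chunk R2C (S/M): reduced inequalities

Auxiliary names start with `r2c_`. 
-/

open MeasureTheory Filter Topology Set
open scoped ContDiff

namespace H74X

open H17T (E4 pt pos tang slice second DEC ev qq Da Db mF mass)

open H17V (Red Near)

open H17W (ip vel cov riem Ric scal MetAt Cyl NFrame)

open Pool.Agent.Lib.PenroseSph (E3 Tens S2 sm)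

variable {R₀ : ℝ} {D : Set (ℝ × ℝ)} {F : E4 → ℝ} {k : ℝ → ℝ} {r : ℝ × ℝ → ℝ} {H : E4 → Matrix (Fin 3) (Fin 3) ℝ}
  {U W : E4 → Fin 3 → ℝ} {f : E3 → ℝ} {q : ℝ × ℝ}

theorem r2c_ra (hS : Slice R₀ D F k r H U W f) (hq : q ∈ H17V.QQ R₀ f) (n : S2) (v : ℝ × ℝ) :
    fderiv ℝ (fun q => Fb F (ev q n)) q v = -(mF F q ^ 2)⁻¹ * fderiv ℝ (mF F) q v := by
  have hqD := QQ_mem hS hq
  obtain ⟨h1, h2⟩ := mF_smooth hS.st hqD
  have h3 : (fun q => Fb F (ev q n)) =ᶠ[𝓝 q] fun q => (mF F q)⁻¹ := by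
    filter_upwards [hS.st.isOpen.mem_nhds hqD] with q' hq'
    exact Fb_ev F (lt_of_le_of_lt hS.st.nonneg (hS.st.rad _ hq')) n
  have h4 : HasFDerivAt (fun q => (mF F q)⁻¹) (-(mF F q ^ 2)⁻¹ • fderiv ℝ (mF F) q) q :=
    (hasDerivAt_inv h2.ne').comp_hasFDerivAt q (h1.differentiableAt (by simp)).hasFDerivAt
  rw [h3.fderiv_eq, h4.fderiv, smul_apply, smul_eq_mul]

theorem r2c_mf (hS : Slice R₀ D F k r H U W f) (hq : q ∈ H17V.QQ R₀ f) :
    fderiv ℝ (mf (dat D F k r H U W)) q = fderiv ℝ (mF F) q := by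
  have h3 : mf (dat D F k r H U W) =ᶠ[𝓝 q] mF F := by
    filter_upwards [hS.st.isOpen.mem_nhds (QQ_mem hS hq)] with q' hq'
    exact mf_dat hS.st hq'
  exact h3.fderiv_eq

theorem r2c_alg {A B C m : ℝ} (hm : 0 < m) (h : A * m ≤ -B * C) : A * m⁻¹ ≤ -(m ^ 2)⁻¹ * B * C := by
  have h1 : A * m⁻¹ = (A * m) * (m ^ 2)⁻¹ := by field_simp
  have h2 : -(m ^ 2)⁻¹ * B * C = (-B * C) * (m ^ 2)⁻¹ := by ring
  rw [h1, h2]
  exact mul_le_mul_of_nonneg_right h (by positivity)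

/-- The reduced inequalities for `Fb F`: `int_ra` for `e = ± 1` (with `Fb = 1/mF`: `Da Fb = - Da (mF F) / (mF F)²`), `int_rc` (with `mF_Fb`), `slope`. -/
theorem red_of (hS : Slice R₀ D F k r H U W f) : Red R₀ (Fb F) k r f := by
  have hpos : ∀ {q : ℝ × ℝ}, q ∈ H17V.QQ R₀ f → 0 < q.2 := fun hq =>
    lt_of_le_of_lt hS.st.nonneg (hS.st.rad _ (QQ_mem hS hq))
  have hFb : ∀ {q : ℝ × ℝ}, q ∈ H17V.QQ R₀ f → ∀ n : S2, ContDiffAt ℝ ∞ (Fb F) (ev q n) ∧ 0 < Fb F (ev q n) := by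
    intro q hq n
    refine Fb_smooth hS.st ?_
    rw [r2a_ev (hpos hq) n]
    exact QQ_mem hS hq
  refine ⟨hS.st.nonneg, fun q hq n => (hFb hq n).1, fun q hq n => (hFb hq n).2, hS.st.k_smooth, hS.st.k_pos,
    fun q hq => hS.st.r_smooth _ (QQ_mem hS hq), fun q hq => hS.st.r_pos _ (QQ_mem hS hq), hS.f_smooth, hS.slope, ?_, ?_, ?_⟩
  · intro q hq n
    have h1 := int_ra (dat_ok hS.st) (QQ_mem hS hq) (e := 1) (by norm_num) (fun n => (dec_q hS hq n).1)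
    have e1 : dk (dat D F k r H U W) 1 (mf (dat D F k r H U W)) q = Da k (mF F) q := by
      rw [(dk_Da _).1]
      unfold Da
      rw [r2c_mf hS hq]
    have e2 : (dat D F k r H U W).r = r := rfl
    rw [e1, e2, (dk_Da r).1, (dk_Da (Da k r)).1, mf_dat hS.st (QQ_mem hS hq)] at h1
    have e3 : Da k (fun q => Fb F (ev q n)) q = -(mF F q ^ 2)⁻¹ * Da k (mF F) q := r2c_ra hS hq n _
    rw [Fb_ev F (hpos hq) n, e3]
    exact r2c_alg (mF_smooth hS.st (QQ_mem hS hq)).2 h1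
  · intro q hq n
    have h1 := int_ra (dat_ok hS.st) (QQ_mem hS hq) (e := -1) (by norm_num) (fun n => (dec_q hS hq n).2.1)
    have e1 : dk (dat D F k r H U W) (-1) (mf (dat D F k r H U W)) q = Db k (mF F) q := by
      rw [(dk_Da _).2]
      unfold Db
      rw [r2c_mf hS hq]
    have e2 : (dat D F k r H U W).r = r := rfl
    rw [e1, e2, (dk_Da r).2, (dk_Da (Db k r)).2, mf_dat hS.st (QQ_mem hS hq)] at h1
    have e3 : Db k (fun q => Fb F (ev q n)) q = -(mF F q ^ 2)⁻¹ * Db k (mF F) q := r2c_ra hS hq n _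
    rw [Fb_ev F (hpos hq) n, e3]
    exact r2c_alg (mF_smooth hS.st (QQ_mem hS hq)).2 h1
  · intro q hq
    have h1 := int_rc (dat_ok hS.st) (QQ_mem hS hq) (fun n => (dec_q hS hq n).2.2)
    have e2 : (dat D F k r H U W).r = r := rfl
    rw [e2, (dk_Da r).1, (dk_Da r).2, (dk_Da (Db k r)).1, mf_dat hS.st (QQ_mem hS hq)] at h1
    rw [mF_Fb F (hpos hq)]
    exact h1

end H74X
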