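import Pool.Agent.Lib.H74X.S0

set_option autoImplicit false

/-!
# H74X, chunk S2A (S): the curve as a graph over `T`

Auxiliary names start with `s2a_`.
-/

open MeasureTheory Filter Topology Set
open scoped ContDiff

namespace H74X

/-- On the curve `(A - a0)(c B + d) = δ`, `A = τ + X`, `B = X - τ` (`τ = ε T`), `X` is a smooth function of `τ` with slope in `[-1, 1]`. If `c = 0`, `d = 1`: `X = δ + a0 - τ`. If `c = 1`:
with `u = X + τ - a0 > 0`, `w = X - τ + d > 0`, `u w = δ`, `u - w = 2τ - a0 - d =: m`, so `u + w = √(m² + 4δ)` and `X = (a0 - d + √(m² + 4δ))/2`, `dX/dτ = m/√(m² + 4δ)`. -/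
theorem curve_X {a0 c d δ : ℝ} (hc : (c = 0 ∧ d = 1) ∨ c = 1) (hδ : 0 < δ) :
    ∃ Ξ : ℝ → ℝ, ContDiff ℝ ∞ Ξ ∧ (∀ τ, |deriv Ξ τ| ≤ 1) ∧
      ∀ τ X : ℝ, a0 < τ + X → 0 < c * (-τ + X) + d → (τ + X - a0) * (c * (-τ + X) + d) = δ → X = Ξ τ := by
  rcases hc with ⟨rfl, rfl⟩ | rfl
  · refine ⟨fun τ => δ + a0 - τ, contDiff_const.sub contDiff_id, ?_, ?_⟩
    · intro τ
      have h1 : HasDerivAt (fun τ : ℝ => δ + a0 - τ) (-1) τ := (hasDerivAt_id τ).const_sub _
      rw [h1.deriv]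
      norm_num
    · intro τ X _ _ h
      rw [zero_mul, zero_add, mul_one] at h
      dsimp only
      linarith
  · have hpos : ∀ τ : ℝ, 0 < (2 * τ - a0 - d) ^ 2 + 4 * δ := fun τ => by positivity
    refine ⟨fun τ => (a0 - d + √((2 * τ - a0 - d) ^ 2 + 4 * δ)) / 2, ?_, ?_, ?_⟩
    · refine ContDiff.div_const (contDiff_const.add (ContDiff.sqrt ?_ fun τ => (hpos τ).ne')) _
      fun_prop
    · intro τ
      have h1 : HasDerivAt (fun τ : ℝ => (2 * τ - a0 - d) ^ 2 + 4 * δ) (4 * (2 * τ - a0 - d)) τ := by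
        have h2 : HasDerivAt (fun τ : ℝ => 2 * τ - a0 - d) 2 τ := by
          simpa using (((hasDerivAt_id τ).const_mul 2).sub_const a0).sub_const d
        have h3 := (h2.pow 2).add_const (4 * δ)
        refine h3.congr_deriv ?_
        norm_num
        ring
      have h4 := ((h1.sqrt (hpos τ).ne').const_add (a0 - d)).div_const 2
      rw [h4.deriv]
      have h5 : 0 < √((2 * τ - a0 - d) ^ 2 + 4 * δ) := Real.sqrt_pos.mpr (hpos τ)
      have h6 : 4 * (2 * τ - a0 - d) / (2 * √((2 * τ - a0 - d) ^ 2 + 4 * δ)) / 2 =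
          (2 * τ - a0 - d) / √((2 * τ - a0 - d) ^ 2 + 4 * δ) := by
        field_simp
        ring
      rw [h6, abs_div, abs_of_pos h5, div_le_one h5]
      apply Real.le_sqrt_of_sq_le
      rw [sq_abs]
      linarith
    · intro τ X h1 h2 h3
      dsimp only
      have h4 : √((2 * τ - a0 - d) ^ 2 + 4 * δ) = 2 * X - a0 + d := by
        have h5 : (2 * τ - a0 - d) ^ 2 + 4 * δ = (2 * X - a0 + d) ^ 2 := by
          rw [← h3]
          ring
        rw [h5, Real.sqrt_sq]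
        linarith
      rw [h4]
      ring

end H74X
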