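import Pool.Agent.Lib.H17V.C1
import Pool.Agent.Lib.H74X.S0

set_option autoImplicit false

/-!
# H74X, chunk S2B (S/M): the inverse of `X`

Auxiliary names start with `s2b_`.
-/

open MeasureTheory Filter Topology Set
open scoped ContDiff

namespace H74X

open H17V (XX XX_deriv XX_smooth)

/-- `X` is strictly increasing on `(R₀, ∞)` with derivative `k > 0` (`XX_deriv`). Its inverse is smooth on the open set `X((R₀, ∞))` (inverse function theorem: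
`ContDiffAt.to_localInverse`, or `OpenPartialHomeomorph.contDiffAt_symm_deriv` and `HasStrictDerivAt`), with derivative `1/k`. -/
theorem inv_XX {R₀ : ℝ} {k : ℝ → ℝ} (hk : ∀ t : ℝ, R₀ < t → ContDiffAt ℝ ∞ k t) (hk0 : ∀ t : ℝ, R₀ < t → 0 < k t) :
    ∃ Y : ℝ → ℝ, (∀ ρ : ℝ, R₀ < ρ → Y (XX R₀ k ρ) = ρ ∧ ContDiffAt ℝ ∞ Y (XX R₀ k ρ) ∧ deriv Y (XX R₀ k ρ) = 1 / k ρ) ∧
      IsOpen (XX R₀ k '' Ioi R₀) := by
  have hmono : StrictMonoOn (XX R₀ k) (Ioi R₀) := by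
    apply strictMonoOn_of_deriv_pos (convex_Ioi _)
    · exact fun s hs => (XX_deriv hk hs).continuousAt.continuousWithinAt
    · intro s hs
      rw [interior_Ioi] at hs
      rw [(XX_deriv hk hs).deriv]
      exact hk0 s hs
  have hY : ∀ ρ : ℝ, R₀ < ρ → Function.invFunOn (XX R₀ k) (Ioi R₀) (XX R₀ k ρ) = ρ :=
    fun ρ h => hmono.injOn.leftInvOn_invFunOn h
  have hstr : ∀ ρ : ℝ, R₀ < ρ → HasStrictDerivAt (XX R₀ k) (k ρ) ρ := fun ρ h =>
    (XX_smooth hk h).hasStrictDerivAt' (XX_deriv hk h) (by simp)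
  refine ⟨Function.invFunOn (XX R₀ k) (Ioi R₀), fun ρ hρ => ⟨hY ρ hρ, ?_, ?_⟩, ?_⟩
  · have hne : k ρ ≠ 0 := (hk0 ρ hρ).ne'
    have h1 := (hstr ρ hρ).hasStrictFDerivAt_equiv hne
    have h2 := (XX_smooth hk hρ).to_localInverse h1.hasFDerivAt (by simp)
    refine h2.congr_of_eventuallyEq ?_
    have h3 : ∀ᶠ x in 𝓝 ρ, Function.invFunOn (XX R₀ k) (Ioi R₀) (XX R₀ k x) = x := by
      filter_upwards [Ioi_mem_nhds hρ] with x hx
      exact hY x hx
    exact h1.localInverse_unique h3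
  · have h3 : ∀ᶠ x in 𝓝 ρ, Function.invFunOn (XX R₀ k) (Ioi R₀) (XX R₀ k x) = x := by
      filter_upwards [Ioi_mem_nhds hρ] with x hx
      exact hY x hx
    rw [((hstr ρ hρ).to_local_left_inverse (hk0 ρ hρ).ne' h3).hasDerivAt.deriv, one_div]
  · rw [isOpen_iff_mem_nhds]
    rintro y ⟨ρ, hρ, rfl⟩
    rw [← (hstr ρ hρ).map_nhds_eq (hk0 ρ hρ).ne']
    exact image_mem_map (Ioi_mem_nhds hρ)

end H74X
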