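import Pool.Agent.Lib.H74X.S2A
import Pool.Agent.Lib.H74X.S2B

set_option autoImplicit false

/-!
# H74X, chunk S2C (M): the enclosing surface over the time axis

Auxiliary names start with `s2c_`.
-/

open MeasureTheory Filter Topology Set
open scoped ContDiff

namespace H74X

open H17T (E4 pt pos qq RadialGraph)
open H17V (NN XX)
open Pool.Agent.Lib.PenroseSph (E3 Tens S2 sm pd)

variable {R₀ : ℝ} {D : Set (ℝ × ℝ)} {F : E4 → ℝ} {k : ℝ → ℝ} {r : ℝ × ℝ → ℝ} {H : E4 → Matrix (Fin 3) (Fin 3) ℝ}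
  {U W : E4 → Fin 3 → ℝ} {f s : E3 → ℝ}

theorem s2c_ne (n : S2) : (n : E3) ≠ 0 := by
  intro h
  have := norm_eq_of_mem_sphere n
  rw [h, norm_zero] at this
  exact zero_ne_one this

/-- `s = P(T)` on the surface. Proof. By `curve_X` (with `τ = ε T`, `NN R₀ ε k f x = ε f(x) + XX R₀ k |x|`) `XX(s n) = Ξ(ε T(n))`, `T(n) = f(s n • n)`. Put `P(t) = Y(Ξ(ε t))` (`inv_XX`). The range of
`n ↦ T(n)` on the sphere is compact and connected, an interval `[T₁, T₂]`; for each `t` in it, `t = T(n)` for some `n`, `Ξ(ε t) = XX(s n)` is in the open set `XX((R₀,∞))`, and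
`(t, P(t)) = (f(x), |x|) ∈ D` for `x = s n • n` (`hS.mem`). The set of the `t` with `Ξ(ε t) ∈ XX((R₀,∞))` and `(t, P t) ∈ D` is open (`P` is continuous on the first set), so it contains an open
interval `(a, b) ⊇ [T₁, T₂]`. There `P' = ε Ξ'(ε t)/k(P t)`, `|k(P) P'| ≤ 1`. -/
theorem exists_curve (hS : Slice R₀ D F k r H U W f) (hs : RadialGraph s) (hsR : ∀ x : E3, x ≠ 0 → R₀ < s x)
    (hc : OnCurve R₀ k f s) : ∃ (a b : ℝ) (P : ℝ → ℝ),
    (∀ t ∈ Ioo a b, ContDiffAt ℝ ∞ P t ∧ |k (P t) * deriv P t| ≤ 1 ∧ (t, P t) ∈ D) ∧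
      ∀ n : S2, f (s n • (n : E3)) ∈ Ioo a b ∧ s n = P (f (s n • (n : E3))) := by
  obtain ⟨ε, a0, c, d, δ, hε, hcd, hδ, hcur⟩ := hc
  obtain ⟨Ξ, hΞ, hΞ1, hΞ2⟩ := curve_X (a0 := a0) hcd hδ
  obtain ⟨Y, hY, hYo⟩ := inv_XX hS.st.k_smooth hS.st.k_pos
  obtain ⟨P, hPdef⟩ : ∃ P : ℝ → ℝ, P = fun t => Y (Ξ (ε * t)) := ⟨_, rfl⟩
  have hsR' : ∀ n : S2, R₀ < s n := fun n => hsR _ (s2c_ne n)
  have hsn : ∀ n : S2, 0 < s n := fun n => hs.pos _ (s2c_ne n)
  have hxn : ∀ n : S2, ‖s n • (n : E3)‖ = s n := by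
    intro n
    rw [norm_smul, norm_eq_of_mem_sphere n, mul_one, Real.norm_eq_abs, abs_of_pos (hsn n)]
  have hX : ∀ n : S2, XX R₀ k (s n) = Ξ (ε * f (s n • (n : E3))) := by
    intro n
    obtain ⟨h1, h2, h3⟩ := hcur n
    unfold NN at h1 h2 h3
    rw [hxn n] at h1 h2 h3
    have e : -ε * f (s n • (n : E3)) = -(ε * f (s n • (n : E3))) := by ring
    rw [e] at h2 h3
    exact hΞ2 _ _ (by linarith) h2 h3
  have hPn : ∀ n : S2, P (f (s n • (n : E3))) = s n := by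
    intro n
    rw [hPdef]
    simp only
    rw [← hX n]
    exact (hY _ (hsR' n)).1
  -- smoothness and derivative
  have hder : ∀ t : ℝ, Ξ (ε * t) ∈ XX R₀ k '' Ioi R₀ → ContDiffAt ℝ ∞ P t ∧ |k (P t) * deriv P t| ≤ 1 := by
    rintro t ⟨ρ, hρ, hρt⟩
    obtain ⟨y1, y2, y3⟩ := hY ρ hρ
    have hPt : P t = ρ := by
      rw [hPdef]
      simp only
      rw [← hρt, y1]
    have h1 : ContDiffAt ℝ ∞ (fun t : ℝ => Ξ (ε * t)) t := (hΞ.comp (contDiff_const.mul contDiff_id)).contDiffAt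
    have y2' : ContDiffAt ℝ ∞ Y (Ξ (ε * t)) := by rw [← hρt]; exact y2
    refine ⟨?_, ?_⟩
    · rw [hPdef]
      exact ContDiffAt.comp (g := Y) (f := fun t : ℝ => Ξ (ε * t)) t y2' h1
    · have h2 : HasDerivAt Ξ (deriv Ξ (ε * t)) (ε * t) := (hΞ.differentiable (by simp) _).hasDerivAt
      have h3 : HasDerivAt (fun t : ℝ => ε * t) ε t := by simpa using (hasDerivAt_id t).const_mul ε
      have h4 : HasDerivAt (fun t : ℝ => Ξ (ε * t)) (deriv Ξ (ε * t) * ε) t := h2.comp t h3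
      have h5 : HasDerivAt Y (1 / k ρ) (Ξ (ε * t)) := by
        rw [← hρt, ← y3]
        exact (y2.differentiableAt (by simp)).hasDerivAt
      have h6 : HasDerivAt P (1 / k ρ * (deriv Ξ (ε * t) * ε)) t := by
        rw [hPdef]
        exact HasDerivAt.comp (h₂ := Y) (h := fun t : ℝ => Ξ (ε * t)) t h5 h4
      have hk : 0 < k ρ := hS.st.k_pos ρ hρ
      rw [h6.deriv, hPt]
      have h7 : k ρ * (1 / k ρ * (deriv Ξ (ε * t) * ε)) = deriv Ξ (ε * t) * ε := by
        field_simp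
      rw [h7, abs_mul]
      have h8 : |ε| = 1 := by
        rcases hε with rfl | rfl <;> simp
      rw [h8, mul_one]
      exact hΞ1 _
  -- the open set
  have hG1 : IsOpen {t : ℝ | Ξ (ε * t) ∈ XX R₀ k '' Ioi R₀} :=
    hYo.preimage (hΞ.continuous.comp (continuous_const.mul continuous_id))
  have hG : IsOpen ({t : ℝ | Ξ (ε * t) ∈ XX R₀ k '' Ioi R₀} ∩ (fun t => ((t, P t) : ℝ × ℝ)) ⁻¹' D) := by
    refine ContinuousOn.isOpen_inter_preimage ?_ hG1 hS.st.isOpen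
    intro t ht
    exact (continuousAt_id.prodMk (hder t ht).1.continuousAt).continuousWithinAt
  -- the times of the surface
  have hT : Continuous fun n : S2 => f (s n • (n : E3)) := by
    refine continuous_iff_continuousAt.2 fun n => ?_
    have h1 : ContinuousAt (fun y : E3 => s y • y) (n : E3) :=
      (hs.smooth _ (s2c_ne n)).continuousAt.smul continuousAt_id
    have h2 : ContinuousAt f (s n • (n : E3)) := (hS.f_smooth _ (by rw [hxn n]; exact hsR' n)).continuousAt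
    have h3 : ContinuousAt (fun y : E3 => f (s y • y)) (n : E3) :=
      ContinuousAt.comp (g := f) (f := fun y : E3 => s y • y) h2 h1
    exact ContinuousAt.comp (g := fun y : E3 => f (s y • y)) (f := fun n : S2 => (n : E3)) h3
      continuous_subtype_val.continuousAt
  have hmem : ∀ n : S2, f (s n • (n : E3)) ∈ {t : ℝ | Ξ (ε * t) ∈ XX R₀ k '' Ioi R₀} ∩ (fun t => ((t, P t) : ℝ × ℝ)) ⁻¹' D := by
    intro n
    refine ⟨⟨s n, hsR' n, hX n⟩, ?_⟩
    show (f (s n • (n : E3)), P (f (s n • (n : E3)))) ∈ D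
    rw [hPn n]
    have h1 := hS.mem (s n • (n : E3)) (by rw [hxn n]; exact hsR' n)
    rw [hxn n] at h1
    exact h1
  have hconn : IsPreconnected (Metric.sphere (0 : E3) 1) := by
    refine isPreconnected_sphere ?_ 0 1
    rw [← Module.finrank_eq_rank, finrank_euclideanSpace_fin]
    norm_num
  have hsp : PreconnectedSpace S2 := Subtype.preconnectedSpace hconn
  have hne : (Set.univ : Set S2).Nonempty := by
    refine ⟨⟨EuclideanSpace.single (0 : Fin 3) (1 : ℝ), ?_⟩, mem_univ _⟩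
    simp
  obtain ⟨n1, -, hn1⟩ := (isCompact_univ (X := S2)).exists_isMinOn hne hT.continuousOn
  obtain ⟨n2, -, hn2⟩ := (isCompact_univ (X := S2)).exists_isMaxOn hne hT.continuousOn
  have hn1' : ∀ n : S2, f (s n1 • (n1 : E3)) ≤ f (s n • (n : E3)) := fun n => hn1 (mem_univ n)
  have hn2' : ∀ n : S2, f (s n • (n : E3)) ≤ f (s n2 • (n2 : E3)) := fun n => hn2 (mem_univ n)
  obtain ⟨e1, he1, hb1⟩ := Metric.isOpen_iff.1 hG _ (hmem n1)
  obtain ⟨e2, he2, hb2⟩ := Metric.isOpen_iff.1 hG _ (hmem n2)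
  refine ⟨f (s n1 • (n1 : E3)) - e1, f (s n2 • (n2 : E3)) + e2, P, ?_, ?_⟩
  · rintro t ⟨ht1, ht2⟩
    have htG : t ∈ {t : ℝ | Ξ (ε * t) ∈ XX R₀ k '' Ioi R₀} ∩ (fun t => ((t, P t) : ℝ × ℝ)) ⁻¹' D := by
      rcases lt_or_ge t (f (s n1 • (n1 : E3))) with h1 | h1
      · refine hb1 ?_
        rw [Metric.mem_ball, Real.dist_eq, abs_lt]
        constructor <;> linarith
      · rcases lt_or_ge (f (s n2 • (n2 : E3))) t with h2 | h2
        · refine hb2 ?_
          rw [Metric.mem_ball, Real.dist_eq, abs_lt]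
          constructor <;> linarith
        · obtain ⟨z, hz⟩ := mem_range_of_exists_le_of_exists_ge hT ⟨n1, h1⟩ ⟨n2, h2⟩
          rw [← hz]
          exact hmem z
    exact ⟨(hder t htG.1).1, (hder t htG.1).2, htG.2⟩
  · intro n
    have h1 := hn1' n
    have h2 := hn2' n
    exact ⟨⟨by linarith, by linarith⟩, (hPn n).symm⟩

end H74X
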