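import Pool.Agent.Lib.H74X.S0
import Pool.Agent.Lib.H74X.A5

set_option autoImplicit false

/-!
# H74X, chunk S3 (S/M): the field of the shifts along the curve

Auxiliary names start with `s3_`.
-/

open MeasureTheory Filter Topology Set
open scoped ContDiff

namespace H74X

open H17T (E4 pt pos)
open Pool.Agent.Lib.PenroseSph (E3 Tens S2 sm pd)

/-- `v(t, y) = (|y|/P) (U + P' W)(t, P y/|y|)`. -/
noncomputable def vfl (U W : E4 → Fin 3 → ℝ) (P : ℝ → ℝ) (z : ℝ × E3) : E3 :=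
  (‖z.2‖ / P z.1) • toE fun i => U (phi (z.1, P z.1, z.2)) i + deriv P z.1 * W (phi (z.1, P z.1, z.2)) i

variable {R₀ : ℝ} {D : Set (ℝ × ℝ)} {F : E4 → ℝ} {k : ℝ → ℝ} {r : ℝ × ℝ → ℝ} {H : E4 → Matrix (Fin 3) (Fin 3) ℝ}
  {U W : E4 → Fin 3 → ℝ}

/-- Smoothness: `P'` is smooth at the points of the open interval. Divergence: `div_field` (twice, for `U` and for `W`) at `(t, P t, y)`, with constant functions `c` (`pd i (fun z => g (t, P t, z)) y` is
`fderiv ℝ g (t, P t, y) (dY i)`, `pd_y'`). -/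
theorem vfl_fld (hS : SpaceTime R₀ D F k r H U W) {a b : ℝ} {P : ℝ → ℝ}
    (hP : ∀ t ∈ Ioo a b, ContDiffAt ℝ ∞ P t ∧ (t, P t) ∈ D) : Fld a b (vfl U W P) := by
  have hpos : ∀ q ∈ D, 0 < q.2 := fun q hq => lt_of_le_of_lt hS.nonneg (hS.rad q hq)
  have hmem : ∀ t ∈ Ioo a b, ∀ y : E3, y ≠ 0 → ((t, P t, y) : VV) ∈ OO (dat D F k r H U W) := fun t ht y hy =>
    ⟨(hP t ht).2, hy⟩
  have hval : ∀ (t : ℝ) (y : E3) (i : Fin 3), vfl U W P (t, y) i =
      (‖y‖ / P t) * (U (phi (t, P t, y)) i + deriv P t * W (phi (t, P t, y)) i) := by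
    intro t y i
    unfold vfl
    rw [PiLp.smul_apply, toE_apply, smul_eq_mul]
  have hder : ∀ t ∈ Ioo a b, ContDiffAt ℝ ∞ (deriv P) t := by
    intro t ht
    have h1 : ContDiffOn ℝ ∞ P (Ioo a b) := fun s hs => (hP s hs).1.contDiffWithinAt
    have h2 := ((contDiffOn_infty_iff_deriv_of_isOpen isOpen_Ioo).1 h1).2
    exact h2.contDiffAt (Ioo_mem_nhds ht.1 ht.2)
  have hcomp : ∀ {V : E4 → Fin 3 → ℝ}, (∀ p : E4, (p 0, ‖pos p‖) ∈ D → ∀ i, ContDiffAt ℝ ∞ (fun q => V q i) p) →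
      ∀ t ∈ Ioo a b, ∀ y : E3, y ≠ 0 → ∀ i, ContDiffAt ℝ ∞ (fun q : VV => V (phi q) i) (t, P t, y) := by
    intro V hV t ht y hy i
    have h1 := phi_dom hS (hmem t ht y hy)
    exact ContDiffAt.comp (g := fun q => V q i) ((t, P t, y) : VV) (hV _ h1 i) (phi_smooth (p := (t, P t, y)) hy)
  have htan : ∀ {V : E4 → Fin 3 → ℝ}, (∀ p : E4, (p 0, ‖pos p‖) ∈ D → ∑ i, pos p i * V p i = 0) →
      ∀ t ∈ Ioo a b, ∀ y : E3, y ≠ 0 → ∑ i, y i * V (phi (t, P t, y)) i = 0 := by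
    intro V hV t ht y hy
    obtain ⟨h1, h2, -, h4, -⟩ := phi_val hS (hmem t ht y hy)
    have h5 := hV _ (phi_dom hS (hmem t ht y hy))
    rw [h4] at h5
    have h6 : ∑ i, ((P t / ‖y‖) • y) i * V (phi (t, P t, y)) i = (P t / ‖y‖) * ∑ i, y i * V (phi (t, P t, y)) i := by
      rw [Finset.mul_sum]
      refine Finset.sum_congr rfl fun i _ => ?_
      rw [PiLp.smul_apply, smul_eq_mul, mul_assoc]
    have h7 : (P t / ‖y‖) * ∑ i, y i * V (phi (t, P t, y)) i = 0 := h6.symm.trans h5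
    exact (mul_eq_zero.1 h7).resolve_left (div_pos h1 h2).ne'
  refine ⟨?_, ?_, ?_, ?_⟩
  · intro t ht y hy
    rw [contDiffAt_euclidean]
    intro i
    have e1 : ContDiffAt ℝ ∞ (fun z : ℝ × E3 => ((z.1, P z.1, z.2) : VV)) (t, y) :=
      contDiffAt_fst.prodMk ((ContDiffAt.comp (f := fun z : ℝ × E3 => z.1) ((t, y) : ℝ × E3) (hP t ht).1 contDiffAt_fst).prodMk
        contDiffAt_snd)
    have e2 : ContDiffAt ℝ ∞ (fun z : ℝ × E3 => P z.1) (t, y) :=
      ContDiffAt.comp (f := fun z : ℝ × E3 => z.1) ((t, y) : ℝ × E3) (hP t ht).1 contDiffAt_fst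
    have e3 : ContDiffAt ℝ ∞ (fun z : ℝ × E3 => deriv P z.1) (t, y) :=
      ContDiffAt.comp (f := fun z : ℝ × E3 => z.1) ((t, y) : ℝ × E3) (hder t ht) contDiffAt_fst
    have e4 : ContDiffAt ℝ ∞ (fun z : ℝ × E3 => ‖z.2‖) (t, y) :=
      ContDiffAt.comp (f := fun z : ℝ × E3 => z.2) ((t, y) : ℝ × E3) (contDiffAt_norm ℝ hy) contDiffAt_snd
    have e5 : ContDiffAt ℝ ∞ (fun z : ℝ × E3 => U (phi (z.1, P z.1, z.2)) i) (t, y) :=
      ContDiffAt.comp (g := fun q : VV => U (phi q) i) (f := fun z : ℝ × E3 => ((z.1, P z.1, z.2) : VV)) (t, y)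
        (hcomp hS.U_smooth t ht y hy i) e1
    have e6 : ContDiffAt ℝ ∞ (fun z : ℝ × E3 => W (phi (z.1, P z.1, z.2)) i) (t, y) :=
      ContDiffAt.comp (g := fun q : VV => W (phi q) i) (f := fun z : ℝ × E3 => ((z.1, P z.1, z.2) : VV)) (t, y)
        (hcomp hS.W_smooth t ht y hy i) e1
    have e7 := (e4.div e2 (hpos _ (hP t ht).2).ne').mul (e5.add (e3.mul e6))
    refine e7.congr_of_eventuallyEq (Eventually.of_forall fun z => ?_)
    exact hval z.1 z.2 i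
  · intro t ht y hy
    have h1 := htan hS.U_tan t ht y hy
    have h2 := htan hS.W_tan t ht y hy
    have h3 : ∑ i, y i * vfl U W P (t, y) i = (‖y‖ / P t) * ((∑ i, y i * U (phi (t, P t, y)) i) +
        deriv P t * ∑ i, y i * W (phi (t, P t, y)) i) := by
      rw [Finset.mul_sum, ← Finset.sum_add_distrib, Finset.mul_sum]
      refine Finset.sum_congr rfl fun i _ => ?_
      rw [hval]
      ring
    rw [h3, h1, h2]
    ring
  · intro t ht y hy c hc
    ext i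
    rw [PiLp.smul_apply, smul_eq_mul, hval, hval]
    have h1 : phi (t, P t, c • y) = phi (t, P t, y) := phi_hom ((t, P t, y) : VV) hc
    rw [h1, norm_smul, Real.norm_eq_abs, abs_of_pos hc]
    ring
  · intro t ht y hy
    have hd := fun (V : E4 → Fin 3 → ℝ) (hV : ∀ p : E4, (p 0, ‖pos p‖) ∈ D → ∀ i, ContDiffAt ℝ ∞ (fun q => V q i) p)
      (ht' : ∀ p : E4, (p 0, ‖pos p‖) ∈ D → ∑ i, pos p i * V p i = 0)
      (hdv : ∀ p : E4, (p 0, ‖pos p‖) ∈ D → ∑ i : Fin 3, H31R.pd i.succ (fun q => V q i) p = 0) (c : ℝ) =>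
      div_field (p := ((t, P t, y) : VV)) hS.isOpen hpos hV ht' hdv (hP t ht).2 hy (fun _ => c) contDiffAt_const
        (fun _ _ => rfl)
    have hUd := hd U hS.U_smooth hS.U_tan hS.U_div (P t)⁻¹
    have hWd := hd W hS.W_smooth hS.W_tan hS.W_div (deriv P t / P t)
    have hsm : ∀ {V : E4 → Fin 3 → ℝ}, (∀ p : E4, (p 0, ‖pos p‖) ∈ D → ∀ i, ContDiffAt ℝ ∞ (fun q => V q i) p) →
        ∀ (c : ℝ) (i : Fin 3), DifferentiableAt ℝ (fun q : VV => c * (‖q.2.2‖ * V (phi q) i)) (t, P t, y) := by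
      intro V hV c i
      have e1 : ContDiffAt ℝ ∞ (fun q : VV => q.2.2) ((t, P t, y) : VV) := by fun_prop
      have e2 : ContDiffAt ℝ ∞ (fun q : VV => ‖q.2.2‖) ((t, P t, y) : VV) := e1.norm ℝ hy
      exact (contDiffAt_const.mul (e2.mul (hcomp hV t ht y hy i))).differentiableAt (by norm_num)
    have h1 : ∀ i, pd i (fun z => vfl U W P (t, z) i) y =
        fderiv ℝ (fun q : VV => (P t)⁻¹ * (‖q.2.2‖ * U (phi q) i)) (t, P t, y) (dY i) +
        fderiv ℝ (fun q : VV => deriv P t / P t * (‖q.2.2‖ * W (phi q) i)) (t, P t, y) (dY i) := by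
      intro i
      have d1 := hsm hS.U_smooth (P t)⁻¹ i
      have d2 := hsm hS.W_smooth (deriv P t / P t) i
      have h2 := pd_y' (p := ((t, P t, y) : VV)) (d1.add d2) i
      have h3 : (fun z => vfl U W P (t, z) i) = fun z => ((fun q : VV => (P t)⁻¹ * (‖q.2.2‖ * U (phi q) i)) +
          fun q : VV => deriv P t / P t * (‖q.2.2‖ * W (phi q) i)) (t, P t, z) := by
        funext z
        rw [hval, Pi.add_apply]
        ring
      rw [h3, h2, fderiv_add d1 d2]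
      rfl
    simp only [h1]
    rw [Finset.sum_add_distrib, hUd, hWd, add_zero]

end H74X
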