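import Pool.Agent.Lib.H74X.S0

set_option autoImplicit false

/-!
# H74X, chunk S5 (M): algebra of the area element

Auxiliary names start with `s5_`. `H17V/S1.lean` has the case `H = 1`, `v = 0` (`S1_mat`).
-/

open MeasureTheory Filter Topology Set
open scoped ContDiff

namespace H74X

/-- The components of `e_i × n`. -/
noncomputable def rot (i : Fin 3) (n : Fin 3 → ℝ) (a : Fin 3) : ℝ :=
  n (i + 1) * (if a = i + 2 then 1 else 0) - n (i + 2) * (if a = i + 1 then 1 else 0)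

theorem s5_rot (n : Fin 3 → ℝ) :
    (rot 0 n 0 = 0 ∧ rot 0 n 1 = -n 2 ∧ rot 0 n 2 = n 1) ∧
    (rot 1 n 0 = n 2 ∧ rot 1 n 1 = 0 ∧ rot 1 n 2 = -n 0) ∧
    (rot 2 n 0 = -n 1 ∧ rot 2 n 1 = n 0 ∧ rot 2 n 2 = 0) := by
  unfold rot
  refine ⟨⟨?_, ?_, ?_⟩, ⟨?_, ?_, ?_⟩, ⟨?_, ?_, ?_⟩⟩ <;> simp

/-- For a bilinear form `B` on `ℝ³` the sum `½ Σ_ij (B_ii B_jj - B_ij²)`, `B_ij = β(e_i × n, e_j × n)`, is `nᵀ adj(β) n` (the determinant of `β` on the plane orthogonal to the unit vector `n`). -/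
theorem s5_adj (n : Fin 3 → ℝ) (M : Matrix (Fin 3) (Fin 3) ℝ) (hM : ∀ a b, M a b = M b a) {B : Fin 3 → Fin 3 → ℝ}
    (hB : ∀ i j, B i j = ∑ a, ∑ b, M a b * rot i n a * rot j n b) :
    1 / 2 * ∑ i, ∑ j, (B i i * B j j - B i j ^ 2) = (∑ i, n i ^ 2) * ∑ a, ∑ b, M.adjugate a b * n a * n b := by
  obtain ⟨⟨r00, r01, r02⟩, ⟨r10, r11, r12⟩, ⟨r20, r21, r22⟩⟩ := s5_rot n
  have h10 := hM 1 0
  have h20 := hM 2 0
  have h21 := hM 2 1
  simp only [hB, Matrix.adjugate_fin_three, Fin.sum_univ_three, r00, r01, r02, r10, r11, r12, r20, r21, r22,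
    Matrix.of_apply, Matrix.cons_val_zero, Matrix.cons_val_one, Matrix.cons_val_two, Matrix.head_cons, Matrix.tail_cons,
    h10, h20, h21]
  ring

theorem s5_rank (N : Matrix (Fin 3) (Fin 3) ℝ) (n l : Fin 3 → ℝ) (c : ℝ) :
    ∑ a, ∑ b, (Matrix.of fun a b => N a b - c * (l a * l b)).adjugate a b * n a * n b =
      (∑ a, ∑ b, N.adjugate a b * n a * n b) -
        c * ∑ a, ∑ b, N a b * (∑ m, l m * rot a n m) * (∑ m, l m * rot b n m) := by
  obtain ⟨⟨r00, r01, r02⟩, ⟨r10, r11, r12⟩, ⟨r20, r21, r22⟩⟩ := s5_rot n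
  simp only [Matrix.adjugate_fin_three, Fin.sum_univ_three, r00, r01, r02, r10, r11, r12, r20, r21, r22,
    Matrix.of_apply, Matrix.cons_val_zero, Matrix.cons_val_one, Matrix.cons_val_two, Matrix.head_cons, Matrix.tail_cons]
  ring

/-- the matrix `1 - v lᵀ` -/
noncomputable def s5A (v l : Fin 3 → ℝ) : Matrix (Fin 3) (Fin 3) ℝ :=
  Matrix.of fun a b => (if a = b then 1 else 0) - v a * l b

theorem s5A_vals (v l : Fin 3 → ℝ) :
    (s5A v l 0 0 = 1 - v 0 * l 0 ∧ s5A v l 0 1 = -(v 0 * l 1) ∧ s5A v l 0 2 = -(v 0 * l 2)) ∧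
    (s5A v l 1 0 = -(v 1 * l 0) ∧ s5A v l 1 1 = 1 - v 1 * l 1 ∧ s5A v l 1 2 = -(v 1 * l 2)) ∧
    (s5A v l 2 0 = -(v 2 * l 0) ∧ s5A v l 2 1 = -(v 2 * l 1) ∧ s5A v l 2 2 = 1 - v 2 * l 2) := by
  unfold s5A
  refine ⟨⟨?_, ?_, ?_⟩, ⟨?_, ?_, ?_⟩, ⟨?_, ?_, ?_⟩⟩ <;> simp

theorem s5_bil (H : Matrix (Fin 3) (Fin 3) ℝ) (v l x y : Fin 3 → ℝ) :
    ∑ a, ∑ b, ((s5A v l).transpose * H * s5A v l) a b * x a * y b =
      ∑ a, ∑ b, H a b * (x a - v a * ∑ m, l m * x m) * (y b - v b * ∑ m, l m * y m) := by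
  obtain ⟨⟨r00, r01, r02⟩, ⟨r10, r11, r12⟩, ⟨r20, r21, r22⟩⟩ := s5A_vals v l
  simp only [Matrix.mul_apply, Matrix.transpose_apply, Fin.sum_univ_three, r00, r01, r02, r10, r11, r12, r20, r21, r22]
  ring

theorem s5_adjA (v l n : Fin 3 → ℝ) (hv : ∑ i, n i * v i = 0) :
    (s5A v l).transpose.adjugate.mulVec n = (1 - ∑ m, v m * l m) • n := by
  obtain ⟨⟨r00, r01, r02⟩, ⟨r10, r11, r12⟩, ⟨r20, r21, r22⟩⟩ := s5A_vals v l
  rw [Fin.sum_univ_three] at hv
  funext i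
  fin_cases i
  · simp only [Matrix.mulVec, dotProduct, Matrix.adjugate_fin_three, Matrix.transpose_apply, Fin.sum_univ_three, r00, r01, r02, r10, r11, r12, r20, r21, r22,
      Matrix.of_apply, Matrix.cons_val_zero, Matrix.cons_val_one, Matrix.cons_val_two, Matrix.head_cons, Matrix.tail_cons, Pi.smul_apply, smul_eq_mul, Fin.zero_eta, Fin.mk_one, Fin.reduceFinMk]
    linear_combination l 0 * hv
  · simp only [Matrix.mulVec, dotProduct, Matrix.adjugate_fin_three, Matrix.transpose_apply, Fin.sum_univ_three, r00, r01, r02, r10, r11, r12, r20, r21, r22,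
      Matrix.of_apply, Matrix.cons_val_zero, Matrix.cons_val_one, Matrix.cons_val_two, Matrix.head_cons, Matrix.tail_cons, Pi.smul_apply, smul_eq_mul, Fin.zero_eta, Fin.mk_one, Fin.reduceFinMk]
    linear_combination l 1 * hv
  · simp only [Matrix.mulVec, dotProduct, Matrix.adjugate_fin_three, Matrix.transpose_apply, Fin.sum_univ_three, r00, r01, r02, r10, r11, r12, r20, r21, r22,
      Matrix.of_apply, Matrix.cons_val_zero, Matrix.cons_val_one, Matrix.cons_val_two, Matrix.head_cons, Matrix.tail_cons, Pi.smul_apply, smul_eq_mul, Fin.zero_eta, Fin.mk_one, Fin.reduceFinMk]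
    linear_combination l 2 * hv

theorem s5_dot (M : Matrix (Fin 3) (Fin 3) ℝ) (n : Fin 3 → ℝ) :
    ∑ a, ∑ b, M a b * n a * n b = dotProduct n (M.mulVec n) := by
  simp only [dotProduct, Matrix.mulVec, Finset.mul_sum]
  refine Finset.sum_congr rfl fun a _ => Finset.sum_congr rfl fun b _ => ?_
  ring

theorem s5_full {n : Fin 3 → ℝ} (hn : ∑ i, n i ^ 2 = 1) {H : Matrix (Fin 3) (Fin 3) ℝ}
    (hdet : H.det = 1) (hHn : ∀ i, ∑ j, H i j * n j = n i) {v l : Fin 3 → ℝ} (hv : ∑ i, n i * v i = 0) :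
    ∑ a, ∑ b, ((s5A v l).transpose * H * s5A v l).adjugate a b * n a * n b = (1 - ∑ m, v m * l m) ^ 2 := by
  have hH : H.mulVec n = n := funext hHn
  have hadj : H.adjugate.mulVec n = n := by
    conv_lhs => rw [← hH]
    rw [Matrix.mulVec_mulVec, Matrix.adjugate_mul, hdet, one_smul, Matrix.one_mulVec]
  have hnn : dotProduct n n = 1 := by
    rw [← hn]
    simp only [dotProduct]
    exact Finset.sum_congr rfl fun i _ => (sq (n i)).symm
  set t : ℝ := 1 - ∑ m, v m * l m with ht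
  rw [s5_dot, Matrix.adjugate_mul_distrib, Matrix.adjugate_mul_distrib, ← Matrix.mulVec_mulVec, ← Matrix.mulVec_mulVec,
    s5_adjA v l n hv, Matrix.mulVec_smul, hadj, Matrix.mulVec_smul, dotProduct_smul, Matrix.dotProduct_mulVec,
    ← Matrix.mulVec_transpose, Matrix.adjugate_transpose, s5_adjA v l n hv, smul_dotProduct, hnn]
  simp only [smul_eq_mul]
  ring

/-- `β = R Aᵀ H A - c l lᵀ` with `A = 1 - v lᵀ`: `nᵀ adj(Aᵀ H A) n = (adj(A)ᵀ n)ᵀ H⁻¹ (adj(A)ᵀ n)` and `adj(A) = (1 - v·l) 1 + v lᵀ`, so `adj(A)ᵀ n = (1 - v·l) n` (`v·n = 0`) and the value is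
`(1 - v·l)² nᵀ adj(H) n = (1 - v·l)²` (`adj H = H⁻¹`, `H n = n`). The term `- c l lᵀ` lowers the determinant on the plane orthogonal to `n`, since `R Aᵀ H A` is positive semidefinite there:
`nᵀ adj(M - c l lᵀ) n = nᵀ adj(M) n - c Σ_ij M_ij (n × l)_i (n × l)_j`. -/
theorem area_alg {n : Fin 3 → ℝ} (hn : ∑ i, n i ^ 2 = 1) {H : Matrix (Fin 3) (Fin 3) ℝ} (hs : ∀ i j, H i j = H j i)
    (hpos : ∀ ξ : Fin 3 → ℝ, 0 ≤ ∑ i, ∑ j, H i j * ξ i * ξ j) (hdet : H.det = 1) (hHn : ∀ i, ∑ j, H i j * n j = n i)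
    {v l : Fin 3 → ℝ} (hv : ∑ i, n i * v i = 0) {R c : ℝ} (hR : 0 ≤ R) (hc : 0 ≤ c) {B : Fin 3 → Fin 3 → ℝ}
    (hB : ∀ i j, B i j = R * (∑ a, ∑ b, H a b * (rot i n a - v a * ∑ m, l m * rot i n m) * (rot j n b - v b * ∑ m, l m * rot j n m)) -
      c * ((∑ m, l m * rot i n m) * ∑ m, l m * rot j n m)) :
    1 / 2 * ∑ i, ∑ j, (B i i * B j j - B i j ^ 2) ≤ R ^ 2 * (1 - ∑ m, v m * l m) ^ 2 := by
  have hHt : H.transpose = H := by
    ext i j
    exact hs j i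
  set N : Matrix (Fin 3) (Fin 3) ℝ := (s5A v l).transpose * H * s5A v l with hN
  have hNt : N.transpose = N := by
    rw [hN, Matrix.transpose_mul, Matrix.transpose_mul, Matrix.transpose_transpose, hHt, Matrix.mul_assoc]
  have hNs : ∀ a b, N a b = N b a := fun a b => by
    conv_lhs => rw [← hNt]
    rfl
  have hM := s5_adj n (Matrix.of fun a b => (R • N) a b - c * (l a * l b)) (fun a b => by
    simp only [Matrix.of_apply, Matrix.smul_apply, hNs a b, mul_comm (l a)]) (B := B) (fun i j => by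
    have h1 := s5_bil H v l (rot i n) (rot j n)
    rw [← hN] at h1
    rw [hB i j, ← h1]
    simp only [Matrix.of_apply, Matrix.smul_apply, smul_eq_mul, Fin.sum_univ_three]
    ring)
  have hpos' : 0 ≤ ∑ a, ∑ b, N a b * (∑ m, l m * rot a n m) * (∑ m, l m * rot b n m) := by
    rw [hN, s5_bil]
    exact hpos _
  rw [hM, hn, one_mul, s5_rank, Matrix.adjugate_smul, Fintype.card_fin]
  have h2 := s5_full hn hdet hHn hv (l := l)
  rw [← hN] at h2
  have h3 : ∑ a, ∑ b, (R ^ (3 - 1) • N.adjugate) a b * n a * n b = R ^ 2 * (1 - ∑ m, v m * l m) ^ 2 := by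
    rw [← h2, Finset.mul_sum]
    refine Finset.sum_congr rfl fun a _ => ?_
    rw [Finset.mul_sum]
    refine Finset.sum_congr rfl fun b _ => ?_
    rw [Matrix.smul_apply, smul_eq_mul]
    ring
  have h4 : ∑ a, ∑ b, (R • N) a b * (∑ m, l m * rot a n m) * (∑ m, l m * rot b n m) =
      R * ∑ a, ∑ b, N a b * (∑ m, l m * rot a n m) * (∑ m, l m * rot b n m) := by
    rw [Finset.mul_sum]
    refine Finset.sum_congr rfl fun a _ => ?_
    rw [Finset.mul_sum]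
    refine Finset.sum_congr rfl fun b _ => ?_
    rw [Matrix.smul_apply, smul_eq_mul]
    ring
  rw [h3, h4]
  have h5 : 0 ≤ c * (R * ∑ a, ∑ b, N a b * (∑ m, l m * rot a n m) * (∑ m, l m * rot b n m)) := by positivity
  linarith

end H74X
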