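import Pool.Agent.Lib.H74X.A3
import Pool.Agent.Lib.H74X.S3
import Pool.Agent.Lib.H74X.S5

set_option autoImplicit false

/-!
# H74X, chunk S6A (S/M): time of the surface

Auxiliary names start with `s6a_`. Template: `H17V/S1.lean` (`area_le`, `fd_sum`, `rotv_comp`), `H17T/G3.lean`, `H17V/A3.lean` (`a3_gtan`).
-/

open MeasureTheory Filter Topology Set
open scoped ContDiff

namespace H74X

open H17T (E4 pt pos qq RadialGraph gtan gprod areaSq rotv tang slice)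

open H17W (ip)

open Pool.Agent.Lib.PenroseSph (E3 Tens S2 sm pd)

variable {R₀ : ℝ} {D : Set (ℝ × ℝ)} {F : E4 → ℝ} {k : ℝ → ℝ} {r : ℝ × ℝ → ℝ} {H : E4 → Matrix (Fin 3) (Fin 3) ℝ}
  {U W : E4 → Fin 3 → ℝ} {f s : E3 → ℝ} {a b : ℝ} {P : ℝ → ℝ}

/-- The time of the points of the surface, homogeneous of degree `0`. -/
noncomputable def sig (f s : E3 → ℝ) (y : E3) : ℝ := f ((s y / ‖y‖) • y)

theorem sig_hom (hs : RadialGraph s) {y : E3} (hy : y ≠ 0) {c : ℝ} (hc : 0 < c) : sig f s (c • y) = sig f s y := by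
  have h0 : ‖y‖ ≠ 0 := norm_ne_zero_iff.2 hy
  unfold sig
  rw [hs.homog y c hc, norm_smul, Real.norm_eq_abs, abs_of_pos hc, smul_smul]
  congr 2
  field_simp

theorem sig_n (n : S2) : sig f s n = f (s n • (n : E3)) := by
  have h1 : ‖(n : E3)‖ = 1 := norm_eq_of_mem_sphere n
  unfold sig
  rw [h1, div_one]

/-- The unit vector `y/|y|`. -/
theorem s6a_unit {y : E3} (hy : y ≠ 0) : ∃ n : S2, (n : E3) = ‖y‖⁻¹ • y := by
  refine ⟨⟨‖y‖⁻¹ • y, ?_⟩, rfl⟩
  rw [mem_sphere_zero_iff_norm, norm_smul, norm_inv, norm_norm, inv_mul_cancel₀ (norm_ne_zero_iff.2 hy)]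

theorem s6a_ne (n : S2) : (n : E3) ≠ 0 := by
  intro h
  have := norm_eq_of_mem_sphere n
  rw [h, norm_zero] at this
  exact zero_ne_one this

theorem sig_smooth (hS : Slice R₀ D F k r H U W f) (hs : RadialGraph s) (hsR : ∀ x : E3, x ≠ 0 → R₀ < s x) {y : E3} (hy : y ≠ 0) :
    ContDiffAt ℝ ∞ (sig f s) y := by
  have h0 : ‖y‖ ≠ 0 := norm_ne_zero_iff.2 hy
  have h1 : ContDiffAt ℝ ∞ (fun y : E3 => (s y / ‖y‖) • y) y :=
    ((hs.smooth y hy).div (contDiffAt_norm ℝ hy) h0).smul contDiffAt_id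
  have h2 : ‖(s y / ‖y‖) • y‖ = s y := by
    rw [norm_smul, norm_div, norm_norm, div_mul_cancel₀ _ h0, Real.norm_eq_abs, abs_of_pos (hs.pos y hy)]
  have h3 : ContDiffAt ℝ ∞ f ((s y / ‖y‖) • y) := hS.f_smooth _ (by rw [h2]; exact hsR y hy)
  exact ContDiffAt.comp (g := f) (f := fun y : E3 => (s y / ‖y‖) • y) y h3 h1

/-- Values at all `y ≠ 0` (homogeneity). -/
theorem sig_mem (hs : RadialGraph s) (hP : ∀ n : S2, f (s n • (n : E3)) ∈ Ioo a b) {y : E3} (hy : y ≠ 0) : sig f s y ∈ Ioo a b := by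
  obtain ⟨n, hn⟩ := s6a_unit hy
  have h1 := hP n
  rw [← sig_n (f := f) (s := s), hn, sig_hom hs hy (inv_pos.2 (norm_pos_iff.2 hy))] at h1
  exact h1

/-- `s = P(σ)` for all `y ≠ 0`, so `∂s = P'(σ) ∂σ`. -/
theorem ds_eq (hS : Slice R₀ D F k r H U W f) (hs : RadialGraph s) (hsR : ∀ x : E3, x ≠ 0 → R₀ < s x)
    (hP : ∀ t ∈ Ioo a b, ContDiffAt ℝ ∞ P t) (hsP : ∀ n : S2, f (s n • (n : E3)) ∈ Ioo a b ∧ s n = P (f (s n • (n : E3))))
    (n : S2) (v : E3) : fderiv ℝ s n v = deriv P (sig f s n) * fderiv ℝ (sig f s) n v := by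
  have hn0 := s6a_ne n
  have h1 : s =ᶠ[𝓝 (n : E3)] fun y => P (sig f s y) := by
    filter_upwards [isOpen_ne.mem_nhds hn0] with y hy
    obtain ⟨m, hm⟩ := s6a_unit hy
    have hi : 0 < ‖y‖⁻¹ := inv_pos.2 (norm_pos_iff.2 hy)
    have h2 := (hsP m).2
    rw [← sig_n (f := f) (s := s), hm, sig_hom hs hy hi, hs.homog y _ hi] at h2
    exact h2
  have h2 : HasFDerivAt (sig f s) (fderiv ℝ (sig f s) n) (n : E3) :=
    ((sig_smooth hS hs hsR hn0).differentiableAt (by simp)).hasFDerivAt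
  have h3 : HasDerivAt P (deriv P (sig f s n)) (sig f s n) :=
    ((hP _ (sig_mem hs (fun m => (hsP m).1) hn0)).differentiableAt (by simp)).hasDerivAt
  have h4 := h3.comp_hasFDerivAt (n : E3) h2
  have h5 : fderiv ℝ s n = fderiv ℝ (fun y => P (sig f s y)) n := h1.fderiv_eq
  have h6 : fderiv ℝ (fun y => P (sig f s y)) n = deriv P (sig f s n) • fderiv ℝ (sig f s) n := h4.fderiv
  rw [h5, h6, smul_apply, smul_eq_mul]

end H74X
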