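import Pool.Agent.Lib.H74X.A3
import Pool.Agent.Lib.H74X.S3
import Pool.Agent.Lib.H74X.S5
import Pool.Agent.Lib.H74X.S6A

set_option autoImplicit false

/-!
# H74X, chunk S6B (M): induced metric of the surface

Auxiliary names start with `s6b_`. Template: `H17V/S1.lean` (`area_le`, `fd_sum`, `rotv_comp`), `H17T/G3.lean`, `H17V/A3.lean` (`a3_gtan`).
-/

open MeasureTheory Filter Topology Set
open scoped ContDiff

namespace H74X

open H17T (E4 pt pos qq RadialGraph gtan gprod areaSq rotv tang slice)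

open H17W (ip)

open Pool.Agent.Lib.PenroseSph (E3 Tens S2 sm pd)

variable {R₀ : ℝ} {D : Set (ℝ × ℝ)} {F : E4 → ℝ} {k : ℝ → ℝ} {r : ℝ × ℝ → ℝ} {H : E4 → Matrix (Fin 3) (Fin 3) ℝ}
  {U W : E4 → Fin 3 → ℝ} {f s : E3 → ℝ} {a b : ℝ} {P : ℝ → ℝ}

theorem s6b_lin (G : Matrix (Fin 4) (Fin 4) ℝ) (T : Fin 3 → Fin 4 → ℝ) (u v : Fin 3 → ℝ) :
    ∑ i, ∑ j, (∑ a, ∑ b, G a b * T i a * T j b) * u i * v j =
      ∑ a, ∑ b, G a b * (∑ i, T i a * u i) * (∑ j, T j b * v j) := by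
  simp only [Fin.sum_univ_four, Fin.sum_univ_three]
  ring

theorem s6b_tang (f : E3 → ℝ) (x u : E3) :
    (Fin.cons (∑ i, pd i f x * u i) fun i => u i : Fin 4 → ℝ) = fun a => ∑ i, tang f x i a * u i := by
  funext a
  refine Fin.cases ?_ (fun j => ?_) a
  · simp [tang]
  · simp [tang]

theorem s6b_fd (f : E3 → ℝ) (y v : E3) : fderiv ℝ f y v = ∑ a, pd a f y * v a := by
  have hv : v = ∑ a, v a • EuclideanSpace.single a (1 : ℝ) := by
    ext j
    simp [Pi.single_apply]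
  conv_lhs => rw [hv]
  rw [map_sum]
  refine Finset.sum_congr rfl fun a _ => ?_
  rw [map_smul, smul_eq_mul, mul_comm]
  rfl

theorem s6b_inner (x y : E3) : inner ℝ x y = ∑ i, x i * y i := by
  rw [PiLp.inner_apply]
  refine Finset.sum_congr rfl fun i _ => ?_
  simp [mul_comm]

/-- A vector `η` of `ℝ³` as a tangent vector `(∂_η f, η)` of the slice; the induced metric is the restriction of the space-time metric. -/
theorem slice_ip (G : E4 → Matrix (Fin 4) (Fin 4) ℝ) {f : E3 → ℝ} {x : E3} (u v : E3) :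
    ∑ i, ∑ j, slice G f x i j * u i * v j =
      ip G (pt (f x) x) (Fin.cons (∑ i, pd i f x * u i) fun i => u i) (Fin.cons (∑ i, pd i f x * v i) fun i => v i) := by
  rw [s6b_tang, s6b_tang]
  unfold ip
  rw [← s6b_lin]
  rfl

/-- The derivative of `σ` in a direction tangent to the sphere. -/
theorem s6b_ds (hS : Slice R₀ D F k r H U W f) (hs : RadialGraph s) (hsR : ∀ x : E3, x ≠ 0 → R₀ < s x)
    (n : S2) {ξ : E3} (hξ : inner ℝ (n : E3) ξ = 0) :
    fderiv ℝ (sig f s) n ξ = fderiv ℝ f (s n • (n : E3)) (fderiv ℝ s n ξ • (n : E3) + s n • ξ) := by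
  have hn0 := s6a_ne n
  have hn1 : ‖(n : E3)‖ = 1 := norm_eq_of_mem_sphere n
  have hsn : 0 < s n := hs.pos _ hn0
  have h1 : HasFDerivAt s (fderiv ℝ s n) (n : E3) := ((hs.smooth _ hn0).differentiableAt (by simp)).hasFDerivAt
  have h2 : DifferentiableAt ℝ (fun y : E3 => ‖y‖) (n : E3) := (contDiffAt_norm ℝ hn0).differentiableAt one_ne_zero
  have h2' : fderiv ℝ (fun y : E3 => ‖y‖) (n : E3) ξ = 0 := by
    have h3 : HasFDerivAt (fun y : E3 => ‖y‖ ^ 2) (2 • (innerSL ℝ (n : E3))) (n : E3) :=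
      (hasStrictFDerivAt_norm_sq (n : E3)).hasFDerivAt
    have h4 := (h2.hasFDerivAt.pow 2).unique h3
    have h5 := congrArg (fun L : StrongDual ℝ E3 => L ξ) h4
    simp only [smul_apply, innerSL_apply_apply, hξ, hn1, smul_eq_mul, nsmul_eq_mul] at h5
    norm_num at h5
    exact h5
  have h6 : HasFDerivAt (fun y : E3 => (‖y‖)⁻¹) (-(‖(n : E3)‖ ^ 2)⁻¹ • fderiv ℝ (fun y : E3 => ‖y‖) (n : E3)) (n : E3) :=
    (hasDerivAt_inv (norm_ne_zero_iff.2 hn0)).comp_hasFDerivAt (n : E3) h2.hasFDerivAt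
  have h7' : HasFDerivAt (fun y : E3 => s y * (‖y‖)⁻¹) (s n • (-(‖(n : E3)‖ ^ 2)⁻¹ • fderiv ℝ (fun y : E3 => ‖y‖) (n : E3)) +
      (‖(n : E3)‖)⁻¹ • fderiv ℝ s n) (n : E3) := h1.mul h6
  have h7 : HasFDerivAt (fun y : E3 => (s y * (‖y‖)⁻¹) • y) _ (n : E3) := h7'.smul (hasFDerivAt_id (n : E3))
  have h8 : (s n * (‖(n : E3)‖)⁻¹) • (n : E3) = s n • (n : E3) := by rw [hn1, inv_one, mul_one]
  have h9 : HasFDerivAt f (fderiv ℝ f (s n • (n : E3))) ((s n * (‖(n : E3)‖)⁻¹) • (n : E3)) := by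
    rw [h8]
    refine ((hS.f_smooth _ ?_).differentiableAt (by simp)).hasFDerivAt
    rw [norm_smul, hn1, mul_one, Real.norm_eq_abs, abs_of_pos hsn]
    exact hsR _ hn0
  have h10 := (HasFDerivAt.comp (g := f) (f := fun y : E3 => (s y * (‖y‖)⁻¹) • y) (n : E3) h9 h7).fderiv
  have h11 : sig f s = f ∘ fun y : E3 => (s y * (‖y‖)⁻¹) • y := by
    funext y
    unfold sig
    rw [Function.comp_apply, div_eq_mul_inv]
  rw [h11, h10]
  simp only [ContinuousLinearMap.comp_apply, add_apply, smul_apply, ContinuousLinearMap.smulRight_apply,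
    ContinuousLinearMap.id_apply, h2', hn1, smul_eq_mul, smul_zero, mul_zero, zero_add, inv_one, mul_one, one_mul, id]
  congr 1
  abel

/-- The surface at `n`, in the direction `ξ` tangent to the sphere: with `dσ = dσ(ξ)` the tangent vector of the slice is `η = P' dσ n + s ξ`, its time component `∂_η f` is `dσ` (derivative of `σ(y) = f(s(y) y/|y|)` along the sphere),
`dρ = P' dσ`, `V_i = s (ξ_i - v_i dσ)` with `v = (U + P' W)/s = vfl (σ, n)`. So (`met_ip`) the induced metric is `-F (1 - k² P'²) dσ dσ' + r² <ξ - v dσ, H (ξ' - v dσ')>`. -/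
theorem surf_metric (hS : Slice R₀ D F k r H U W f) (hs : RadialGraph s) (hsR : ∀ x : E3, x ≠ 0 → R₀ < s x)
    (hP : ∀ t ∈ Ioo a b, ContDiffAt ℝ ∞ P t) (hsP : ∀ n : S2, f (s n • (n : E3)) ∈ Ioo a b ∧ s n = P (f (s n • (n : E3))))
    (n : S2) {ξ ζ : E3} (hξ : inner ℝ (n : E3) ξ = 0) (hζ : inner ℝ (n : E3) ζ = 0) :
    let σ := sig f s
    let x := s n • (n : E3)
    let η : E3 → E3 := fun ξ => (deriv P (σ n) * fderiv ℝ σ n ξ) • (n : E3) + s n • ξ
    ∑ i, ∑ j, slice (metric F k r H U W) f x i j * η ξ i * η ζ j =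
      -(F (pt (f x) x) * (1 - (k (s n) * deriv P (σ n)) ^ 2)) * (fderiv ℝ σ n ξ * fderiv ℝ σ n ζ) +
        r (qq f x) ^ 2 * ∑ i, ∑ j, H (pt (f x) x) i j *
          ((ξ i - vfl U W P (σ n, (n : E3)) i * fderiv ℝ σ n ξ) * (ζ j - vfl U W P (σ n, (n : E3)) j * fderiv ℝ σ n ζ)) := by
  intro σ x η
  have hn0 := s6a_ne n
  have hn1 : ‖(n : E3)‖ = 1 := norm_eq_of_mem_sphere n
  have hsn : 0 < s n := hs.pos _ hn0
  have hσ : σ n = f x := sig_n n
  have hPs : P (σ n) = s n := by rw [hσ]; exact (hsP n).2.symm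
  have hxn : ‖x‖ = s n := by rw [norm_smul, hn1, mul_one, Real.norm_eq_abs, abs_of_pos hsn]
  have hxa : ∀ a, x a / ‖x‖ = (n : E3) a := by
    intro a
    rw [hxn, PiLp.smul_apply, smul_eq_mul, mul_div_assoc, mul_div_cancel₀]
    exact hsn.ne'
  have hnn : ∑ i, (n : E3) i * (n : E3) i = 1 := by
    rw [← s6b_inner, real_inner_self_eq_norm_sq, hn1, one_pow]
  have hηi : ∀ (ξ : E3) i, η ξ i = (deriv P (σ n) * fderiv ℝ σ n ξ) * (n : E3) i + s n * ξ i := by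
    intro ξ i
    simp only [η, PiLp.add_apply, PiLp.smul_apply, smul_eq_mul]
  have htime : ∀ {ξ : E3}, inner ℝ (n : E3) ξ = 0 → ∑ i, pd i f x * η ξ i = fderiv ℝ σ n ξ := by
    intro ξ hξ
    rw [← s6b_fd, s6b_ds hS hs hsR n hξ, ds_eq hS hs hsR hP hsP n ξ]
  have hphi : phi (σ n, P (σ n), (n : E3)) = pt (f x) x := by
    unfold phi
    rw [hn1, hPs, div_one, hσ]
  have hv : ∀ i, vfl U W P (σ n, (n : E3)) i = (1 / s n) * (U (pt (f x) x) i + deriv P (σ n) * W (pt (f x) x) i) := by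
    intro i
    unfold vfl
    rw [PiLp.smul_apply, toE_apply, smul_eq_mul, hphi, hn1, hPs]
  have hdra : ∀ {ξ : E3}, inner ℝ (n : E3) ξ = 0 → dra (pt (f x) x)
      (Fin.cons (∑ i, pd i f x * η ξ i) fun i => η ξ i) = deriv P (σ n) * fderiv ℝ σ n ξ := by
    intro ξ hξ
    rw [s6b_inner] at hξ
    unfold dra
    simp only [Fin.cons_succ, H17T.pos_pt, hxa, hηi]
    have e : ∑ i, (n : E3) i * (deriv P (σ n) * fderiv ℝ σ n ξ * (n : E3) i + s n * ξ i) =
        (deriv P (σ n) * fderiv ℝ σ n ξ) * (∑ i, (n : E3) i * (n : E3) i) + s n * ∑ i, (n : E3) i * ξ i := by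
      rw [Finset.mul_sum, Finset.mul_sum, ← Finset.sum_add_distrib]
      refine Finset.sum_congr rfl fun i _ => ?_
      ring
    rw [e, hnn, hξ]
    ring
  have hva : ∀ {ξ : E3}, inner ℝ (n : E3) ξ = 0 → ∀ i, va U W (pt (f x) x)
      (Fin.cons (∑ i, pd i f x * η ξ i) fun i => η ξ i) i =
        s n * (ξ i - vfl U W P (σ n, (n : E3)) i * fderiv ℝ σ n ξ) := by
    intro ξ hξ i
    unfold va
    rw [hdra hξ, Fin.cons_succ, Fin.cons_zero, htime hξ, H17T.pos_pt, hxa, hv, hηi]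
    have := hsn.ne'
    field_simp
    ring
  rw [slice_ip, met_ip]
  simp only [hva hξ, hva hζ]
  rw [hdra hξ, hdra hζ, Fin.cons_zero, Fin.cons_zero, htime hξ, htime hζ, H17T.pos_pt, H17T.pt_zero]
  have hsum : ∑ i, ∑ j, H (pt (f x) x) i j * (s n * (ξ i - vfl U W P (σ n, (n : E3)) i * fderiv ℝ σ n ξ) *
      (s n * (ζ j - vfl U W P (σ n, (n : E3)) j * fderiv ℝ σ n ζ))) =
      s n ^ 2 * ∑ i, ∑ j, H (pt (f x) x) i j * ((ξ i - vfl U W P (σ n, (n : E3)) i * fderiv ℝ σ n ξ) *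
      (ζ j - vfl U W P (σ n, (n : E3)) j * fderiv ℝ σ n ζ)) := by
    rw [Finset.mul_sum]
    refine Finset.sum_congr rfl fun i _ => ?_
    rw [Finset.mul_sum]
    refine Finset.sum_congr rfl fun j _ => ?_
    ring
  rw [hsum, hxn]
  have hr : (r (f x, s n) / s n) ^ 2 * (s n ^ 2 * ∑ i, ∑ j, H (pt (f x) x) i j *
      ((ξ i - vfl U W P (σ n, (n : E3)) i * fderiv ℝ σ n ξ) *
      (ζ j - vfl U W P (σ n, (n : E3)) j * fderiv ℝ σ n ζ))) = r (f x, s n) ^ 2 * ∑ i, ∑ j, H (pt (f x) x) i j *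
      ((ξ i - vfl U W P (σ n, (n : E3)) i * fderiv ℝ σ n ξ) *
      (ζ j - vfl U W P (σ n, (n : E3)) j * fderiv ℝ σ n ζ)) := by
    have h4 : (r (f x, s n) / s n) ^ 2 * s n ^ 2 = r (f x, s n) ^ 2 := by rw [← mul_pow, div_mul_cancel₀ _ hsn.ne']
    rw [← mul_assoc, h4]
  have hq : r (qq f x) = r (f x, s n) := by
    unfold qq
    rw [hxn]
  rw [hr, hq]
  ring

end H74X
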