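import Pool.Agent.Lib.H74X.A3
import Pool.Agent.Lib.H74X.S3
import Pool.Agent.Lib.H74X.S5
import Pool.Agent.Lib.H74X.S6B

set_option autoImplicit false

/-!
# H74X, chunk S6C (M): area element

Auxiliary names start with `s6c_`. Template: `H17V/S1.lean` (`area_le`, `fd_sum`, `rotv_comp`), `H17T/G3.lean`, `H17V/A3.lean` (`a3_gtan`).
-/

open MeasureTheory Filter Topology Set
open scoped ContDiff

namespace H74X

open H17T (E4 pt pos qq RadialGraph gtan gprod areaSq rotv tang slice)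

open H17W (ip)

open Pool.Agent.Lib.PenroseSph (E3 Tens S2 sm pd)

variable {R₀ : ℝ} {D : Set (ℝ × ℝ)} {F : E4 → ℝ} {k : ℝ → ℝ} {r : ℝ × ℝ → ℝ} {H : E4 → Matrix (Fin 3) (Fin 3) ℝ}
  {U W : E4 → Fin 3 → ℝ} {f s : E3 → ℝ} {a b : ℝ} {P : ℝ → ℝ}

/-- The function `J = 1 - v·∂σ`. -/
noncomputable def JJ (U W : E4 → Fin 3 → ℝ) (P : ℝ → ℝ) (f s : E3 → ℝ) (n : E3) : ℝ :=
  1 - ∑ m, vfl U W P (sig f s n, n) m * pd m (sig f s) n

theorem s6c_rotv (i : Fin 3) (n : E3) (a : Fin 3) : rotv i n a = rot i n a := by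
  unfold rot
  simp [rotv, PiLp.single_apply]

theorem s6c_orth (i : Fin 3) (n : E3) : inner ℝ n (rotv i n) = 0 := by
  unfold rotv
  rw [inner_sub_right, inner_smul_right, inner_smul_right, EuclideanSpace.inner_single_right,
    EuclideanSpace.inner_single_right]
  simp
  ring

theorem s6c_gtan {s : E3 → ℝ} {n : E3} (hs : DifferentiableAt ℝ s n) (i : Fin 3) :
    gtan s n i = fderiv ℝ s n (rotv i n) • n + s n • rotv i n := by
  have h1 : HasFDerivAt (fun x => s x • x)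
      (s n • ContinuousLinearMap.id ℝ E3 + (fderiv ℝ s n).smulRight n) n :=
    hs.hasFDerivAt.smul (hasFDerivAt_id n)
  unfold gtan
  rw [h1.fderiv]
  simp only [_root_.add_apply, _root_.smul_apply, ContinuousLinearMap.smulRight_apply,
    ContinuousLinearMap.id_apply]
  rw [add_comm]

/-- The data at a point of the sphere. -/
theorem s6c_data (hS : Slice R₀ D F k r H U W f) (hs : RadialGraph s) (hsR : ∀ x : E3, x ≠ 0 → R₀ < s x)
    (hP : ∀ t ∈ Ioo a b, ContDiffAt ℝ ∞ P t ∧ |k (P t) * deriv P t| ≤ 1 ∧ (t, P t) ∈ D)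
    (hsP : ∀ n : S2, f (s n • (n : E3)) ∈ Ioo a b ∧ s n = P (f (s n • (n : E3)))) (n : S2) :
    R₀ < ‖s n • (n : E3)‖ ∧ inner ℝ (n : E3) (vfl U W P (sig f s n, (n : E3))) = 0 ∧
      0 ≤ F (pt (f (s n • (n : E3))) (s n • (n : E3))) * (1 - (k (s n) * deriv P (sig f s n)) ^ 2) := by
  have hn0 := s6a_ne n
  have hn1 : ‖(n : E3)‖ = 1 := norm_eq_of_mem_sphere n
  have hsn : 0 < s n := hs.pos _ hn0
  have hxR : R₀ < ‖s n • (n : E3)‖ := by
    rw [norm_smul, hn1, mul_one, Real.norm_eq_abs, abs_of_pos hsn]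
    exact hsR _ hn0
  have hσm : sig f s n ∈ Ioo a b := sig_mem hs (fun m => (hsP m).1) hn0
  have hfld : Fld a b (vfl U W P) := vfl_fld hS.st fun t ht => ⟨(hP t ht).1, (hP t ht).2.2⟩
  refine ⟨hxR, ?_, ?_⟩
  · rw [s6b_inner]
    exact hfld.tan _ hσm _ hn0
  · have h1 := (hP _ hσm).2.1
    have h2 : P (sig f s n) = s n := by rw [sig_n]; exact (hsP n).2.symm
    rw [h2] at h1
    have h3 := (sq_le_one_iff_abs_le_one _).2 h1
    have h4 : 0 < F (pt (f (s n • (n : E3))) (s n • (n : E3))) := hS.st.F_pos _ (dom_pt hS hxR)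
    exact mul_nonneg h4.le (by linarith)

theorem s6c_hP (hP : ∀ t ∈ Ioo a b, ContDiffAt ℝ ∞ P t ∧ |k (P t) * deriv P t| ≤ 1 ∧ (t, P t) ∈ D) :
    ∀ t ∈ Ioo a b, ContDiffAt ℝ ∞ P t := fun t ht => (hP t ht).1

/-- `surf_metric` for `ξ = rotv i n` (`gtan s n i = (∂s(rotv i n)) n + s rotv i n`, `ds_eq`), `area_alg` with `R = r²`, `c = F (1 - (k P')²) ≥ 0`, `l = ∂σ`. -/
theorem area_le (hS : Slice R₀ D F k r H U W f) (hs : RadialGraph s) (hsR : ∀ x : E3, x ≠ 0 → R₀ < s x)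
    (hP : ∀ t ∈ Ioo a b, ContDiffAt ℝ ∞ P t ∧ |k (P t) * deriv P t| ≤ 1 ∧ (t, P t) ∈ D)
    (hsP : ∀ n : S2, f (s n • (n : E3)) ∈ Ioo a b ∧ s n = P (f (s n • (n : E3)))) (n : S2) :
    areaSq (slice (metric F k r H U W) f) s n ≤ r (qq f (s n • (n : E3))) ^ 4 * JJ U W P f s n ^ 2 := by
  obtain ⟨hxR, hvn, hc⟩ := s6c_data hS hs hsR hP hsP n
  have hn0 := s6a_ne n
  have hn1 : ‖(n : E3)‖ = 1 := norm_eq_of_mem_sphere n
  have hsn : 0 < s n := hs.pos _ hn0
  have hdom := dom_pt hS hxR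
  have hnn : ∑ i, (n : E3) i ^ 2 = 1 := by
    have h := EuclideanSpace.norm_sq_eq (n : E3)
    rw [hn1, one_pow] at h
    rw [h]
    refine Finset.sum_congr rfl fun i _ => ?_
    rw [Real.norm_eq_abs, sq_abs]
  have hHn : ∀ i, ∑ j, H (pt (f (s n • (n : E3))) (s n • (n : E3))) i j * (n : E3) j = (n : E3) i := by
    intro i
    have h := hS.st.H_rad _ hdom i
    rw [H17T.pos_pt] at h
    have h2 : ∑ j, H (pt (f (s n • (n : E3))) (s n • (n : E3))) i j * (s n • (n : E3)) j =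
        s n * ∑ j, H (pt (f (s n • (n : E3))) (s n • (n : E3))) i j * (n : E3) j := by
      rw [Finset.mul_sum]
      refine Finset.sum_congr rfl fun j _ => ?_
      rw [PiLp.smul_apply, smul_eq_mul]
      ring
    rw [h2, PiLp.smul_apply, smul_eq_mul] at h
    exact mul_left_cancel₀ hsn.ne' h
  have hpos : ∀ ξ : Fin 3 → ℝ, 0 ≤ ∑ i, ∑ j, H (pt (f (s n • (n : E3))) (s n • (n : E3))) i j * ξ i * ξ j := by
    intro ξ
    by_cases h : ξ = 0
    · rw [h]
      simp
    · exact (hS.st.H_pos _ hdom ξ h).le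
  have hv0 : ∑ i, (n : E3) i * vfl U W P (sig f s n, (n : E3)) i = 0 := by
    rw [← s6b_inner]
    exact hvn
  have hdσ : ∀ i, fderiv ℝ (sig f s) n (rotv i n) = ∑ m, pd m (sig f s) n * rot i n m := by
    intro i
    rw [s6b_fd]
    refine Finset.sum_congr rfl fun m _ => ?_
    rw [s6c_rotv]
  have hgt : ∀ i, gtan s n i = (deriv P (sig f s n) * fderiv ℝ (sig f s) n (rotv i n)) • (n : E3) + s n • rotv i n := by
    intro i
    have h := s6c_gtan ((hs.smooth _ hn0).differentiableAt (by simp)) i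
    rw [← ds_eq hS hs hsR (s6c_hP hP) hsP n (rotv i n)]
    exact h
  have hB : ∀ i j, gprod (slice (metric F k r H U W) f) s n i j =
      r (qq f (s n • (n : E3))) ^ 2 * (∑ a, ∑ b, H (pt (f (s n • (n : E3))) (s n • (n : E3))) a b *
        (rot i n a - vfl U W P (sig f s n, (n : E3)) a * ∑ m, pd m (sig f s) n * rot i n m) *
        (rot j n b - vfl U W P (sig f s n, (n : E3)) b * ∑ m, pd m (sig f s) n * rot j n m)) -
      F (pt (f (s n • (n : E3))) (s n • (n : E3))) * (1 - (k (s n) * deriv P (sig f s n)) ^ 2) *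
        ((∑ m, pd m (sig f s) n * rot i n m) * ∑ m, pd m (sig f s) n * rot j n m) := by
    intro i j
    have h := surf_metric hS hs hsR (s6c_hP hP) hsP n (s6c_orth i (n : E3)) (s6c_orth j (n : E3))
    simp only at h
    unfold gprod
    rw [hgt i, hgt j, h, hdσ i, hdσ j]
    simp only [s6c_rotv]
    have e : ∀ X Y : Fin 3 → ℝ, ∑ a, ∑ b, H (pt (f (s n • (n : E3))) (s n • (n : E3))) a b * (X a * Y b) =
        ∑ a, ∑ b, H (pt (f (s n • (n : E3))) (s n • (n : E3))) a b * X a * Y b := fun X Y =>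
      Finset.sum_congr rfl fun _ _ => Finset.sum_congr rfl fun _ _ => by ring
    rw [e (fun a => rot i n a - vfl U W P (sig f s n, (n : E3)) a * ∑ m, pd m (sig f s) n * rot i n m)
      (fun b => rot j n b - vfl U W P (sig f s n, (n : E3)) b * ∑ m, pd m (sig f s) n * rot j n m)]
    ring
  have key := area_alg hnn (hS.st.H_symm _ hdom) hpos (hS.st.H_det _ hdom) hHn hv0 (sq_nonneg (r (qq f (s n • (n : E3))))) hc hB
  calc areaSq (slice (metric F k r H U W) f) s n ≤ (r (qq f (s n • (n : E3))) ^ 2) ^ 2 *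
        (1 - ∑ m, vfl U W P (sig f s n, (n : E3)) m * pd m (sig f s) n) ^ 2 := key
    _ = r (qq f (s n • (n : E3))) ^ 4 * JJ U W P f s n ^ 2 := by
      unfold JJ
      ring

/-- `J ≠ 0`: if `Σ v_m ∂_m σ = 1` take `ξ = v` (tangent to the sphere, `dσ(v) = 1`, so `v ≠ 0`): in `surf_metric` the second term vanishes and the first is `≤ 0`, but `η(v) = P' n + s v ≠ 0` and the slice is
spacelike. -/
theorem JJ_ne (hS : Slice R₀ D F k r H U W f) (hs : RadialGraph s) (hsR : ∀ x : E3, x ≠ 0 → R₀ < s x)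
    (hP : ∀ t ∈ Ioo a b, ContDiffAt ℝ ∞ P t ∧ |k (P t) * deriv P t| ≤ 1 ∧ (t, P t) ∈ D)
    (hsP : ∀ n : S2, f (s n • (n : E3)) ∈ Ioo a b ∧ s n = P (f (s n • (n : E3)))) (n : S2) : JJ U W P f s n ≠ 0 := by
  obtain ⟨hxR, hvn, hc⟩ := s6c_data hS hs hsR hP hsP n
  have hn0 := s6a_ne n
  have hn1 : ‖(n : E3)‖ = 1 := norm_eq_of_mem_sphere n
  have hsn : 0 < s n := hs.pos _ hn0
  intro hJ
  have hd : fderiv ℝ (sig f s) n (vfl U W P (sig f s n, (n : E3))) = 1 := by
    rw [s6b_fd]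
    unfold JJ at hJ
    have e : ∑ m, pd m (sig f s) n * vfl U W P (sig f s n, (n : E3)) m =
        ∑ m, vfl U W P (sig f s n, (n : E3)) m * pd m (sig f s) n :=
      Finset.sum_congr rfl fun m _ => mul_comm _ _
    rw [e]
    linarith
  have h := surf_metric hS hs hsR (s6c_hP hP) hsP n hvn hvn
  simp only [hd, mul_one, sub_self, mul_zero, Finset.sum_const_zero, add_zero] at h
  have hne : (deriv P (sig f s n)) • (n : E3) + s n • vfl U W P (sig f s n, (n : E3)) ≠ 0 := by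
    intro h0
    have h1 := congrArg (fun z : E3 => inner ℝ (n : E3) z) h0
    simp only [inner_add_right, inner_smul_right, real_inner_self_eq_norm_sq, hn1, hvn, inner_zero_right] at h1
    have h2 : deriv P (sig f s n) = 0 := by linarith
    rw [h2, zero_smul, zero_add] at h0
    have h3 := (smul_eq_zero.1 h0).resolve_left hsn.ne'
    rw [h3, map_zero] at hd
    exact zero_ne_one hd
  have hsp := hS.spacelike _ hxR (fun i => ((deriv P (sig f s n)) • (n : E3) + s n • vfl U W P (sig f s n, (n : E3))) i)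
    (fun h0 => hne (by ext i; exact congrFun h0 i))
  rw [h] at hsp
  linarith

end H74X
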