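import Pool.Agent.Lib.H74X.S2C
import Pool.Agent.Lib.H74X.S4B
import Pool.Agent.Lib.H74X.S6

set_option autoImplicit false

/-!
# H74X, chunk S7A (M): integral of J

Auxiliary names start with `s7a_`. Template: `H17V/Top.lean` (`area_total`, `area_of_env`).
-/

open MeasureTheory Filter Topology Set
open scoped ContDiff

namespace H74X

open H17T (E4 pt pos qq RadialGraph gtan gprod areaSq graphArea rotv tang slice)

open Pool.Agent.Lib.PenroseSph (E3 Tens S2 sm pd)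

variable {R₀ : ℝ} {D : Set (ℝ × ℝ)} {F : E4 → ℝ} {k : ℝ → ℝ} {r : ℝ × ℝ → ℝ} {H : E4 → Matrix (Fin 3) (Fin 3) ℝ}
  {U W : E4 → Fin 3 → ℝ} {f s : E3 → ℝ} {a b : ℝ} {P : ℝ → ℝ}

theorem s7a_at (hS : Slice R₀ D F k r H U W f) (hs : RadialGraph s) (hsR : ∀ x : E3, x ≠ 0 → R₀ < s x)
    (hP : ∀ t ∈ Ioo a b, ContDiffAt ℝ ∞ P t ∧ |k (P t) * deriv P t| ≤ 1 ∧ (t, P t) ∈ D)
    (hsP : ∀ n : S2, f (s n • (n : E3)) ∈ Ioo a b ∧ s n = P (f (s n • (n : E3)))) {y : E3} (hy : y ≠ 0) :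
    ContinuousAt (fun y : E3 => ∑ m, vfl U W P (sig f s y, y) m * pd m (sig f s) y) y := by
  have hfld : Fld a b (vfl U W P) := vfl_fld hS.st fun t ht => ⟨(hP t ht).1, (hP t ht).2.2⟩
  have hσ : ContDiffAt ℝ ∞ (sig f s) y := sig_smooth hS hs hsR hy
  have hm : sig f s y ∈ Ioo a b := sig_mem hs (fun m => (hsP m).1) hy
  have hpair : ContinuousAt (fun y : E3 => ((sig f s y, y) : ℝ × E3)) y := hσ.continuousAt.prodMk continuousAt_id
  have hfd : ContinuousAt (fderiv ℝ (sig f s)) y := (hσ.fderiv_right (m := 0) (by simp)).continuousAt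
  refine tendsto_finsetSum _ fun m _ => ?_
  refine Filter.Tendsto.mul ?_ ?_
  · have h1 : ContDiffAt ℝ ∞ (fun z => vfl U W P z m) (sig f s y, y) := contDiffAt_euclidean.1 (hfld.smooth _ hm y hy) m
    exact ContinuousAt.comp (g := fun z => vfl U W P z m) (f := fun y : E3 => ((sig f s y, y) : ℝ × E3)) h1.continuousAt hpair
  · exact hfd.clm_apply continuousAt_const

theorem JJ_cont (hS : Slice R₀ D F k r H U W f) (hs : RadialGraph s) (hsR : ∀ x : E3, x ≠ 0 → R₀ < s x)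
    (hP : ∀ t ∈ Ioo a b, ContDiffAt ℝ ∞ P t ∧ |k (P t) * deriv P t| ≤ 1 ∧ (t, P t) ∈ D)
    (hsP : ∀ n : S2, f (s n • (n : E3)) ∈ Ioo a b ∧ s n = P (f (s n • (n : E3)))) :
    Continuous fun n : S2 => JJ U W P f s n := by
  refine continuous_iff_continuousAt.2 fun n => ?_
  have h1 := s7a_at hS hs hsR hP hsP (s6a_ne n)
  have h2 : ContinuousAt (JJ U W P f s) (n : E3) := continuousAt_const.sub h1
  exact ContinuousAt.comp (g := JJ U W P f s) (f := fun n : S2 => (n : E3)) h2 continuous_subtype_val.continuousAt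

/-- `∫ J = 4 π` (`int_field` with `vfl_fld`). -/
theorem JJ_int (hS : Slice R₀ D F k r H U W f) (hs : RadialGraph s) (hsR : ∀ x : E3, x ≠ 0 → R₀ < s x)
    (hP : ∀ t ∈ Ioo a b, ContDiffAt ℝ ∞ P t ∧ |k (P t) * deriv P t| ≤ 1 ∧ (t, P t) ∈ D)
    (hsP : ∀ n : S2, f (s n • (n : E3)) ∈ Ioo a b ∧ s n = P (f (s n • (n : E3)))) :
    ∫ n : S2, JJ U W P f s n ∂sm = 4 * Real.pi := by
  have hfld : Fld a b (vfl U W P) := vfl_fld hS.st fun t ht => ⟨(hP t ht).1, (hP t ht).2.2⟩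
  obtain ⟨n0, -⟩ := s6a_unit (y := EuclideanSpace.single (0 : Fin 3) (1 : ℝ)) (by simp)
  have hab : a < b := (hsP n0).1.1.trans (hsP n0).1.2
  have h1 := int_field hab hfld (σ := sig f s) (fun y hy => sig_smooth hS hs hsR hy) (fun y hy c hc => sig_hom hs hy hc)
    (fun y hy => sig_mem hs (fun m => (hsP m).1) hy)
  have h2 : Continuous fun n : S2 => ∑ m, vfl U W P (sig f s n, (n : E3)) m * pd m (sig f s) n := by
    refine continuous_iff_continuousAt.2 fun n => ?_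
    exact ContinuousAt.comp (g := fun y : E3 => ∑ m, vfl U W P (sig f s y, y) m * pd m (sig f s) y)
      (f := fun n : S2 => (n : E3)) (s7a_at hS hs hsR hP hsP (s6a_ne n)) continuous_subtype_val.continuousAt
  have h3 : ∫ n : S2, JJ U W P f s n ∂sm = ∫ _ : S2, (1 : ℝ) ∂sm -
      ∫ n : S2, ∑ m, vfl U W P (sig f s n, (n : E3)) m * pd m (sig f s) n ∂sm :=
    integral_sub (integrable_const _) (Pool.Agent.Lib.PenroseSph.integrable_S2 h2)
  rw [h3, h1, integral_const, Pool.Agent.Lib.PenroseSph.sm_univ, smul_eq_mul]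
  ring

/-- `J` is continuous, never zero (`JJ_ne`), the sphere is connected, and its integral is positive. -/
theorem JJ_pos (hS : Slice R₀ D F k r H U W f) (hs : RadialGraph s) (hsR : ∀ x : E3, x ≠ 0 → R₀ < s x)
    (hP : ∀ t ∈ Ioo a b, ContDiffAt ℝ ∞ P t ∧ |k (P t) * deriv P t| ≤ 1 ∧ (t, P t) ∈ D)
    (hsP : ∀ n : S2, f (s n • (n : E3)) ∈ Ioo a b ∧ s n = P (f (s n • (n : E3)))) (n : S2) : 0 < JJ U W P f s n := by
  have hc := JJ_cont hS hs hsR hP hsP
  have hconn : IsPreconnected (Metric.sphere (0 : E3) 1) := by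
    refine isPreconnected_sphere ?_ 0 1
    rw [← Module.finrank_eq_rank, finrank_euclideanSpace_fin]
    norm_num
  have hsp : PreconnectedSpace S2 := Subtype.preconnectedSpace hconn
  by_contra hcon
  have hle : ∀ m : S2, JJ U W P f s m ≤ 0 := by
    intro m
    by_contra hm
    obtain ⟨z, hz⟩ := mem_range_of_exists_le_of_exists_ge hc ⟨n, not_lt.1 hcon⟩ ⟨m, (not_le.1 hm).le⟩
    exact JJ_ne hS hs hsR hP hsP z hz
  have h1 := integral_nonpos_of_ae (μ := sm) (f := fun n : S2 => JJ U W P f s n) (Eventually.of_forall hle)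
  rw [JJ_int hS hs hsR hP hsP] at h1
  have := Real.pi_pos
  linarith

end H74X
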