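import Pool.Agent.Lib.H74X.S2C
import Pool.Agent.Lib.H74X.S4B
import Pool.Agent.Lib.H74X.S6
import Pool.Agent.Lib.H74X.S7A

set_option autoImplicit false

/-!
# H74X, chunk S7B (S/M): area

Auxiliary names start with `s7b_`. Template: `H17V/Top.lean` (`area_total`, `area_of_env`).
-/

open MeasureTheory Filter Topology Set
open scoped ContDiff

namespace H74X

open H17T (E4 pt pos qq RadialGraph gtan gprod areaSq graphArea rotv tang slice)

open Pool.Agent.Lib.PenroseSph (E3 Tens S2 sm pd)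

variable {R₀ : ℝ} {D : Set (ℝ × ℝ)} {F : E4 → ℝ} {k : ℝ → ℝ} {r : ℝ × ℝ → ℝ} {H : E4 → Matrix (Fin 3) (Fin 3) ℝ}
  {U W : E4 → Fin 3 → ℝ} {f s : E3 → ℝ} {a b : ℝ} {P : ℝ → ℝ}

/-- `√areaSq ≤ r² J ≤ M² J` and `∫ J = 4 π`; `exists_curve`. -/
theorem area_total (hS : Slice R₀ D F k r H U W f) (hs : RadialGraph s) (hsR : ∀ x : E3, x ≠ 0 → R₀ < s x)
    (hc : OnCurve R₀ k f s) {M : ℝ} (hM : 0 ≤ M) (hr : ∀ n : S2, r (qq f (s n • (n : E3))) ≤ M) :
    graphArea (slice (metric F k r H U W) f) s ≤ 4 * Real.pi * M ^ 2 := by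
  obtain ⟨a, b, P, hP, hsP⟩ := exists_curve hS hs hsR hc
  have hJ := JJ_pos hS hs hsR hP hsP
  have hint := JJ_int hS hs hsR hP hsP
  have hcont := JJ_cont hS hs hsR hP hsP
  have h1 : ∀ n : S2, Real.sqrt (areaSq (slice (metric F k r H U W) f) s n) ≤ M ^ 2 * JJ U W P f s n := by
    intro n
    have hn0 := s6a_ne n
    have hsn : 0 < s n := hs.pos _ hn0
    have hxn : ‖s n • (n : E3)‖ = s n := by
      rw [norm_smul, norm_eq_of_mem_sphere n, mul_one, Real.norm_eq_abs, abs_of_pos hsn]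
    have hr0 : 0 < r (qq f (s n • (n : E3))) := hS.st.r_pos _ (hS.mem _ (by rw [hxn]; exact hsR _ hn0))
    have hle := area_le hS hs hsR hP hsP n
    refine Real.sqrt_le_iff.2 ⟨mul_nonneg (sq_nonneg _) (hJ n).le, ?_⟩
    calc areaSq (slice (metric F k r H U W) f) s n ≤ r (qq f (s n • (n : E3))) ^ 4 * JJ U W P f s n ^ 2 := hle
      _ ≤ M ^ 4 * JJ U W P f s n ^ 2 :=
        mul_le_mul_of_nonneg_right (pow_le_pow_left₀ hr0.le (hr n) 4) (sq_nonneg _)
      _ = (M ^ 2 * JJ U W P f s n) ^ 2 := by ring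
  unfold graphArea
  calc ∫ n : S2, Real.sqrt (areaSq (slice (metric F k r H U W) f) s n) ∂sm ≤ ∫ n : S2, M ^ 2 * JJ U W P f s n ∂sm := by
        refine integral_mono_of_nonneg (Eventually.of_forall fun n => Real.sqrt_nonneg _) ?_
          (Eventually.of_forall h1)
        exact Pool.Agent.Lib.PenroseSph.integrable_S2 (continuous_const.mul hcont)
    _ = 4 * Real.pi * M ^ 2 := by
        rw [integral_const_mul, hint]
        ring

/-- From the reduced conclusion to areas (as `H17V.area_of_env`). -/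
theorem area_of_env (hS : Slice R₀ D F k r H U W f) {g : Tens}
    (hg : ∀ x : E3, R₀ < ‖x‖ → g x = slice (metric F k r H U W) f x) {Om : Set E3} {E : ℝ}
    (hE : 0 < E) (hEnv : ∀ δ : ℝ, 0 < δ → EnvS R₀ k r f Om E δ) {δ : ℝ} (hδ : 0 < δ) :
    ∃ s : E3 → ℝ, RadialGraph s ∧ (∀ x : E3, x ≠ 0 → R₀ < s x) ∧ (∀ x ∈ Om, R₀ < ‖x‖ → ‖x‖ < s x) ∧
      graphArea g s ≤ 16 * Real.pi * E ^ 2 + δ := by
  obtain ⟨η, hη, hη2⟩ : ∃ η : ℝ, 0 < η ∧ 4 * Real.pi * (2 * E + η) ^ 2 ≤ 16 * Real.pi * E ^ 2 + δ := by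
    have hc : ContinuousAt (fun η : ℝ => 4 * Real.pi * (2 * E + η) ^ 2) 0 := by fun_prop
    have h1 : (fun η : ℝ => 4 * Real.pi * (2 * E + η) ^ 2) 0 < 16 * Real.pi * E ^ 2 + δ := by
      simp only [add_zero]
      have : 4 * Real.pi * (2 * E) ^ 2 = 16 * Real.pi * E ^ 2 := by ring
      linarith
    have h2 := hc.eventually (gt_mem_nhds h1)
    obtain ⟨η, h3, h4⟩ := ((h2.filter_mono nhdsWithin_le_nhds).and
      (self_mem_nhdsWithin : Ioi (0 : ℝ) ∈ 𝓝[>] 0)).exists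
    exact ⟨η, h4, h3.le⟩
  obtain ⟨s, hs, hsO, hsR, hsn, hcur⟩ := hEnv η hη
  refine ⟨s, hs, hsR, hsO, ?_⟩
  have hsg : ∀ n : S2, R₀ < ‖s n • (n : E3)‖ := by
    intro n
    have hsn : 0 < s n := hs.pos _ (s6a_ne n)
    rw [norm_smul, norm_eq_of_mem_sphere n, mul_one, Real.norm_eq_abs, abs_of_pos hsn]
    exact hsR _ (s6a_ne n)
  have h1 : graphArea g s = graphArea (slice (metric F k r H U W) f) s := by
    unfold graphArea
    refine integral_congr_ae (Eventually.of_forall fun n => ?_)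
    simp only
    unfold areaSq gprod
    rw [hg _ (hsg n)]
  rw [h1]
  exact (area_total hS hs hsR hcur (M := 2 * E + η) (by linarith) hsn).trans hη2

end H74X
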