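import Pool.Agent.Lib.H17V.T6
import Pool.Agent.Lib.H17W.A6
import Pool.Agent.Lib.H74X.A5
import Pool.Agent.Lib.H74X.B6B

set_option autoImplicit false

/-!
# H74X, chunk T1A (S/M): Hessian and gradient fields

Auxiliary names start with `t1a_`. `H17V/T6.lean`: `nuf`, `nuf_pd`.
-/

open MeasureTheory Filter Topology Set
open scoped ContDiff

namespace H74X

open H17T (E4 pt pos tang slice second DEC)

open H17V (nuf nuf_pd)

open H17W (ip vel cov riem Ric scal MetAt Cyl NFrame)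

open Pool.Agent.Lib.PenroseSph (E3 Tens S2 sm)

/-- The Hessian of a function `ν` on `E4`. -/
noncomputable def hess (G : E4 → Matrix (Fin 4) (Fin 4) ℝ) (ν : E4 → ℝ) (p : E4) (a b : Fin 4) : ℝ :=
  H31R.pd a (H31R.pd b ν) p - ∑ c, H31R.chr G c a b p * H31R.pd c ν p

theorem t1a_diff {ν : E4 → ℝ} {p : E4} (hν : ContDiffAt ℝ ∞ ν p) (c : Fin 4) : DifferentiableAt ℝ (H31R.pd c ν) p := by
  have h1 := H17W.a1_pd_sm hν c
  exact h1.differentiableAt (by norm_num)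

theorem t1a_pd_symm {ν : E4 → ℝ} {p : E4} (hν : ContDiffAt ℝ ∞ ν p) (a b : Fin 4) :
    H31R.pd a (H31R.pd b ν) p = H31R.pd b (H31R.pd a ν) p := by
  have h2 : DifferentiableAt ℝ (fderiv ℝ ν) p :=
    (hν.fderiv_right (m := ∞) (by norm_cast)).differentiableAt (by norm_num)
  have h3 : IsSymmSndFDerivAt ℝ ν p := hν.isSymmSndFDerivAt (by simp; norm_cast)
  have h4 : ∀ w : E4, fderiv ℝ (fun y => fderiv ℝ ν y w) p =
      (ContinuousLinearMap.apply ℝ ℝ w).comp (fderiv ℝ (fderiv ℝ ν) p) := by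
    intro w
    exact ((ContinuousLinearMap.apply ℝ ℝ w).hasFDerivAt.comp p h2.hasFDerivAt).fderiv
  show fderiv ℝ (fun y => fderiv ℝ ν y (H31R.ebas b)) p (H31R.ebas a) =
    fderiv ℝ (fun y => fderiv ℝ ν y (H31R.ebas a)) p (H31R.ebas b)
  rw [h4, h4]
  exact h3 _ _

/-- If the field `K` along `Φ` is the gradient of `ν` (`<K, b> = dν(b)` for all `b`, at all points near `x`), then `Hess ν(∂_v Φ, b) = <D_v K, b>`. Proof: differentiate
`<K, b> = Σ_c ∂_c ν(Φ) b_c` for a constant vector `b` in the direction `v`: `H17W.ip_cov` gives `<D_v K, b> + <K, D_v b>` with `D_v b = Γ(∂_v Φ, b)`, so the second term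
is `Σ_c ∂_c ν Γ^c(∂_v Φ, b)`; the right side gives `Σ_ac ∂_a ∂_c ν (∂_v Φ)_a b_c`. -/
theorem hess_cov {V : Type*} [NormedAddCommGroup V] [NormedSpace ℝ V] {G : E4 → Matrix (Fin 4) (Fin 4) ℝ} {Φ : V → E4}
    {K : V → Fin 4 → ℝ} {ν : E4 → ℝ} {x : V} (hG : MetAt G (Φ x)) (hΦ : ContDiffAt ℝ ∞ Φ x) (hν : ContDiffAt ℝ ∞ ν (Φ x))
    (hK : ∀ a, DifferentiableAt ℝ (fun y => K y a) x)
    (hg : ∀ᶠ y in 𝓝 x, ∀ b : Fin 4 → ℝ, ip G (Φ y) (K y) b = ∑ c, H31R.pd c ν (Φ y) * b c) (v : V) (b : Fin 4 → ℝ) :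
    ∑ a, ∑ c, hess G ν (Φ x) a c * vel Φ x v a * b c = ip G (Φ x) (cov G Φ K x v) b := by
  have hΦd : DifferentiableAt ℝ Φ x := hΦ.differentiableAt (by norm_num)
  have h1 := H17W.ip_cov (B := fun _ => b) hG hΦd hK (fun a => differentiableAt_const _) v
  have h2 : fderiv ℝ (fun y => ip G (Φ y) (K y) b) x v =
      ∑ c, (∑ a, H31R.pd a (H31R.pd c ν) (Φ x) * vel Φ x v a) * b c := by
    have e1 : (fun y => ip G (Φ y) (K y) b) =ᶠ[𝓝 x] fun y => ∑ c, H31R.pd c ν (Φ y) * b c := hg.mono fun y hy => hy b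
    rw [e1.fderiv_eq]
    have hd : ∀ c, DifferentiableAt ℝ (fun y => H31R.pd c ν (Φ y)) x := fun c => (t1a_diff hν c).comp x hΦd
    have e2 : HasFDerivAt (fun y => ∑ c, H31R.pd c ν (Φ y) * b c)
        (∑ c, b c • fderiv ℝ (fun y => H31R.pd c ν (Φ y)) x) x :=
      HasFDerivAt.fun_sum fun c _ => (hd c).hasFDerivAt.mul_const (b c)
    rw [e2.fderiv]
    simp only [ContinuousLinearMap.sum_apply, ContinuousLinearMap.smul_apply, smul_eq_mul]
    refine Finset.sum_congr rfl fun c _ => ?_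
    rw [H17W.chain (t1a_diff hν c) hΦd v, mul_comm]
  have h3 : cov G Φ (fun _ => b) x v = H17W.gam G (Φ x) (vel Φ x v) b := by
    funext a
    have e : cov G Φ (fun _ => b) x v a = fderiv ℝ (fun _ : V => b a) x v + H17W.gam G (Φ x) (vel Φ x v) b a := rfl
    rw [e, fderiv_fun_const]
    simp
  have h4 : ip G (Φ x) (K x) (cov G Φ (fun _ => b) x v) =
      ∑ c, H31R.pd c ν (Φ x) * H17W.gam G (Φ x) (vel Φ x v) b c := by
    rw [h3]
    exact hg.self_of_nhds _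
  have h5 : ip G (Φ x) (cov G Φ K x v) b = (∑ c, (∑ a, H31R.pd a (H31R.pd c ν) (Φ x) * vel Φ x v a) * b c) -
      ∑ c, H31R.pd c ν (Φ x) * H17W.gam G (Φ x) (vel Φ x v) b c := by
    rw [← h2, h1, h4]
    ring
  rw [h5]
  unfold hess H17W.gam
  simp only [sub_mul, Finset.sum_sub_distrib]
  congr 1
  · rw [Finset.sum_comm]
    refine Finset.sum_congr rfl fun c _ => ?_
    rw [Finset.sum_mul]
  · simp only [Finset.mul_sum, Finset.sum_mul]
    calc ∑ a, ∑ c, ∑ e, H31R.chr G e a c (Φ x) * H31R.pd e ν (Φ x) * vel Φ x v a * b c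
        = ∑ a, ∑ e, ∑ c, H31R.chr G e a c (Φ x) * H31R.pd e ν (Φ x) * vel Φ x v a * b c :=
          Finset.sum_congr rfl fun a _ => Finset.sum_comm
      _ = ∑ e, ∑ a, ∑ c, H31R.chr G e a c (Φ x) * H31R.pd e ν (Φ x) * vel Φ x v a * b c := Finset.sum_comm
      _ = _ := Finset.sum_congr rfl fun e _ => Finset.sum_congr rfl fun a _ => Finset.sum_congr rfl fun c _ => by ring

/-- The Hessian is symmetric (`H31R.pd` of a smooth function commute, `H17W.chr_symm`). -/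
theorem hess_symm {G : E4 → Matrix (Fin 4) (Fin 4) ℝ} {ν : E4 → ℝ} {p : E4} (hG : MetAt G p) (hν : ContDiffAt ℝ ∞ ν p)
    (a b : Fin 4) : hess G ν p a b = hess G ν p b a := by
  unfold hess
  rw [t1a_pd_symm hν a b]
  congr 1
  exact Finset.sum_congr rfl fun c _ => by rw [H17W.chr_symm hG c a b]

end H74X
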