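import Pool.Agent.Lib.H17V.T6
import Pool.Agent.Lib.H17W.A6
import Pool.Agent.Lib.H74X.A5
import Pool.Agent.Lib.H74X.B6B
import Pool.Agent.Lib.H74X.T1A

set_option autoImplicit false

/-!
# H74X, chunk T1B (M): Hessian of the null coordinates

Auxiliary names start with `t1b_`. `H17V/T6.lean`: `nuf`, `nuf_pd`.
-/

open MeasureTheory Filter Topology Set
open scoped ContDiff

namespace H74X

open H17T (E4 pt pos tang slice second DEC)

open H17V (nuf nuf_pd)

open H17W (ip vel cov riem Ric scal MetAt Cyl NFrame)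

open Pool.Agent.Lib.PenroseSph (E3 Tens S2 sm)

variable {R₀ : ℝ} {D : Set (ℝ × ℝ)} {F : E4 → ℝ} {k : ℝ → ℝ} {r : ℝ × ℝ → ℝ} {H : E4 → Matrix (Fin 3) (Fin 3) ℝ}
  {U W : E4 → Fin 3 → ℝ} {p : VV} {ε : ℝ}

/-- `(2/F) L_{-ε}` is the gradient of `ν = ε T + X(ρ)`: `LL_val`, `frame_ip'`, `nuf_pd`: `<(1/F)(-ε e_T + (1/k) e_ρ), b> = ε b^0 + k dρ(b)`. -/
theorem grad_nu (hS : SpaceTime R₀ D F k r H U W) (hp : p ∈ OO (dat D F k r H U W)) (ε : ℝ) (b : Fin 4 → ℝ) :
    ipp (dat D F k r H U W) p ((2 / F (phi p)) • LL (dat D F k r H U W) (-ε) p) b =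
      ∑ c, H31R.pd c (nuf R₀ ε k) (phi p) * b c := by
  obtain ⟨hρ, hy, h0, hpos, hn⟩ := phi_val hS hp
  have hd := phi_dom hS hp
  obtain ⟨h1, h2⟩ := frame_ip' hS hd b
  have hR : R₀ < ‖pos (phi p)‖ := hS.rad _ hd
  obtain ⟨-, hd0, hds⟩ := nuf_pd (ε := ε) hS.k_smooth (pos_ne hS hd) hR
  have hF : F (phi p) ≠ 0 := (hS.F_pos _ hd).ne'
  have hk : k p.2.1 ≠ 0 := by
    have := hS.k_pos _ hR
    rw [hn] at this
    exact this.ne'
  rw [LL_val hS hp]
  show ip (metric F k r H U W) (phi p) ((2 / F (phi p)) • ((-ε / 2) • eT U (phi p) +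
    (1 / (2 * k p.2.1)) • eR W (phi p))) b = _
  rw [H17W.ip_smul_left, H17W.ip_add_left, H17W.ip_smul_left, H17W.ip_smul_left, h1, h2, hn, Fin.sum_univ_succ, hd0]
  simp only [hds, hn]
  have e1 : ∑ i : Fin 3, k p.2.1 * (pos (phi p) i / p.2.1) * b i.succ = k p.2.1 * dra (phi p) b := by
    unfold dra
    rw [hn, Finset.mul_sum]
    exact Finset.sum_congr rfl fun i _ => by ring
  rw [e1]
  field_simp

/-- The field `(2/F) L_{-ε}`. -/
noncomputable def t1b_K (D : Set (ℝ × ℝ)) (F : E4 → ℝ) (k : ℝ → ℝ) (r : ℝ × ℝ → ℝ) (H : E4 → Matrix (Fin 3) (Fin 3) ℝ)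
    (U W : E4 → Fin 3 → ℝ) (ε : ℝ) (q : VV) : Fin 4 → ℝ := (2 / F (phi q)) • LL (dat D F k r H U W) (-ε) q

theorem t1b_fd (hS : SpaceTime R₀ D F k r H U W) (hp : p ∈ OO (dat D F k r H U W)) :
    DifferentiableAt ℝ (fun q => F (phi q)) p :=
  ((dat_ok hS).F_smooth p hp).differentiableAt (by simp)

theorem t1b_2F (hS : SpaceTime R₀ D F k r H U W) (hp : p ∈ OO (dat D F k r H U W)) :
    HasFDerivAt (fun q => 2 / F (phi q)) ((-(2 / F (phi p) ^ 2)) • fderiv ℝ (fun q => F (phi q)) p) p := by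
  have hF : F (phi p) ≠ 0 := (hS.F_pos _ (phi_dom hS hp)).ne'
  have h1 := (t1b_fd hS hp).hasFDerivAt
  have h2 : HasDerivAt (fun t : ℝ => 2 / t) (-(2 / F (phi p) ^ 2)) (F (phi p)) := by
    have h3 := (hasDerivAt_inv hF).const_mul (2 : ℝ)
    have e : (2 : ℝ) * -(F (phi p) ^ 2)⁻¹ = -(2 / F (phi p) ^ 2) := by
      field_simp
    rw [e] at h3
    simpa only [div_eq_mul_inv] using h3
  exact h2.comp_hasFDerivAt p h1

/-- `Hess ν(∂_v Φ, b) = <D_v K, b>` and the derivative of `K`. -/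
theorem t1b_key (hS : SpaceTime R₀ D F k r H U W) (hp : p ∈ OO (dat D F k r H U W)) (ε : ℝ) (v : VV) (b : Fin 4 → ℝ) :
    ∑ a, ∑ c, hess (metric F k r H U W) (nuf R₀ ε k) (phi p) a c * vel phi p v a * b c =
      ipp (dat D F k r H U W) p ((-(2 / F (phi p) ^ 2) * fderiv ℝ (fun q => F (phi q)) p v) • LL (dat D F k r H U W) (-ε) p +
        (2 / F (phi p)) • cov (metric F k r H U W) phi (LL (dat D F k r H U W) (-ε)) p v) b := by
  have hok := dat_ok hS
  have hd := phi_dom hS hp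
  have hR : R₀ < ‖pos (phi p)‖ := hS.rad _ hd
  have hLd : ∀ a, DifferentiableAt ℝ (fun q => LL (dat D F k r H U W) (-ε) q a) p := fun a => LL_diff hok hp (-ε) a
  have h2F := t1b_2F hS hp
  have hKd : ∀ a, DifferentiableAt ℝ (fun q => t1b_K D F k r H U W ε q a) p := fun a =>
    h2F.differentiableAt.mul (hLd a)
  have h1 := hess_cov (G := metric F k r H U W) (Φ := phi) (K := t1b_K D F k r H U W ε) (ν := nuf R₀ ε k) (x := p)
    (hok.met p hp) (hok.smooth p hp) (nuf_pd (ε := ε) hS.k_smooth (pos_ne hS hd) hR).1 hKd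
    (OO_ev_of hok hp fun q hq b => grad_nu hS hq ε b) v b
  rw [h1]
  have h2 := H17W.cov_smul (G := metric F k r H U W) (Φ := phi) (A := LL (dat D F k r H U W) (-ε)) (x := p)
    (f := fun q => 2 / F (phi q)) h2F.differentiableAt hLd v
  rw [h2F.fderiv] at h2
  show ip (metric F k r H U W) (phi p) (cov (metric F k r H U W) phi (fun q => (2 / F (phi q)) • LL (dat D F k r H U W) (-ε) q) p v) b = _
  rw [h2]
  rfl

/-- `Hess ν(X_i, X_j) = (2/F) χ^{-ε}_ij` (`hess_cov` with `K = (2/F) L_{-ε}`, `H17W.cov_smul`, `<L, X_j> = 0`). -/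
theorem hess_XX (hS : SpaceTime R₀ D F k r H U W) (hp : p ∈ OO (dat D F k r H U W)) (hε : ε * ε = 1) (i j : Fin 3) :
    ∑ a, ∑ b, hess (metric F k r H U W) (nuf R₀ ε k) (phi p) a b * XX (dat D F k r H U W) i p a * XX (dat D F k r H U W) j p b =
      2 / F (phi p) * chi (dat D F k r H U W) (-ε) i j p := by
  have h1 := t1b_key hS hp ε (dY i) (XX (dat D F k r H U W) j p)
  have h2 := (dat_ok hS).ipLX p hp (-ε) j
  rw [ipp_add_left, ipp_smul_left, ipp_smul_left, h2, mul_zero, zero_add] at h1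
  exact h1

/-- `Hess ν(L_{-ε}, ·) = 0`: `D_L ((2/F) L) = (2/F) (LF/F) L - (2 LF/F²) L = 0` (`DL_LL`). -/
theorem hess_L (hS : SpaceTime R₀ D F k r H U W) (hp : p ∈ OO (dat D F k r H U W)) (hε : ε * ε = 1) (b : Fin 4 → ℝ) :
    ∑ a, ∑ c, hess (metric F k r H U W) (nuf R₀ ε k) (phi p) a c * LL (dat D F k r H U W) (-ε) p a * b c = 0 := by
  have hF : F (phi p) ≠ 0 := (hS.F_pos _ (phi_dom hS hp)).ne'
  have h1 := t1b_key hS hp ε (ell (dat D F k r H U W) (-ε) p) b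
  have hε' : -ε * -ε = 1 := by rw [neg_mul_neg, hε]
  have h2 : cov (metric F k r H U W) phi (LL (dat D F k r H U W) (-ε)) p (ell (dat D F k r H U W) (-ε) p) =
      (fderiv ℝ (fun q => F (phi q)) p (ell (dat D F k r H U W) (-ε) p) / F (phi p)) • LL (dat D F k r H U W) (-ε) p :=
    DL_LL (dat_ok hS) hp hε'
  rw [h2, smul_smul, ← add_smul] at h1
  have h3 : -(2 / F (phi p) ^ 2) * fderiv ℝ (fun q => F (phi q)) p (ell (dat D F k r H U W) (-ε) p) +
      2 / F (phi p) * (fderiv ℝ (fun q => F (phi q)) p (ell (dat D F k r H U W) (-ε) p) / F (phi p)) = 0 := by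
    field_simp
    ring
  rw [h3, ipp_smul_left, zero_mul] at h1
  exact h1

/-- `□ν = (2/F) tr χ^{-ε} = 2 (-ε r_T + r_ρ/k)/(F r)`: `nframe` (`H17W.a6_bil`), `hess_XX`, `hess_L`, `hess_symm`, `exl_dk`. -/
theorem box_nu (hS : SpaceTime R₀ D F k r H U W) (hp : p ∈ OO (dat D F k r H U W)) (hε : ε * ε = 1) :
    ∑ a, ∑ b, (metric F k r H U W (phi p))⁻¹ a b * hess (metric F k r H U W) (nuf R₀ ε k) (phi p) a b =
      2 * fderiv ℝ r (p.1, p.2.1) (-ε, 1 / k p.2.1) / (F (phi p) * r (p.1, p.2.1)) := by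
  have hok := dat_ok hS
  have hd := phi_dom hS hp
  obtain ⟨hρ, hy, h0, hpos, hn⟩ := phi_val hS hp
  have hR : R₀ < ‖pos (phi p)‖ := hS.rad _ hd
  have hF : F (phi p) ≠ 0 := (hS.F_pos _ hd).ne'
  have hr : r (p.1, p.2.1) ≠ 0 := (hS.r_pos _ hp.1).ne'
  have hε' : -ε * -ε = 1 := by rw [neg_mul_neg, hε]
  have hN := nframe hok hp hε'
  have h1 := H17W.a6_bil hN (hess (metric F k r H U W) (nuf R₀ ε k) (phi p))
  have hsy := hess_symm (G := metric F k r H U W) (ν := nuf R₀ ε k) (p := phi p) (hok.met p hp)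
    (nuf_pd (ε := ε) hS.k_smooth (pos_ne hS hd) hR).1
  have h2 : ∑ a, ∑ c, LL (dat D F k r H U W) (-ε) p a * ((4 / (dat D F k r H U W).F p) • LL (dat D F k r H U W) (- -ε) p) c *
      hess (metric F k r H U W) (nuf R₀ ε k) (phi p) a c = 0 := by
    rw [← hess_L hS hp hε ((4 / (dat D F k r H U W).F p) • LL (dat D F k r H U W) (- -ε) p)]
    exact Finset.sum_congr rfl fun a _ => Finset.sum_congr rfl fun c _ => by ring
  have h3 : ∑ a, ∑ c, ((4 / (dat D F k r H U W).F p) • LL (dat D F k r H U W) (- -ε) p) a * LL (dat D F k r H U W) (-ε) p c *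
      hess (metric F k r H U W) (nuf R₀ ε k) (phi p) a c = 0 := by
    rw [← h2, Finset.sum_comm]
    refine Finset.sum_congr rfl fun a _ => Finset.sum_congr rfl fun c _ => ?_
    rw [hsy c a]
    ring
  have h4 : ∑ i, ∑ j, QQ (dat D F k r H U W) i j p * (∑ a, ∑ c, XX (dat D F k r H U W) i p a * XX (dat D F k r H U W) j p c *
      hess (metric F k r H U W) (nuf R₀ ε k) (phi p) a c) = 2 / F (phi p) * exl (dat D F k r H U W) (-ε) p := by
    unfold exl
    rw [Finset.mul_sum]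
    refine Finset.sum_congr rfl fun i _ => ?_
    rw [Finset.mul_sum]
    refine Finset.sum_congr rfl fun j _ => ?_
    have h5 := hess_XX hS hp hε i j
    have h6 : ∑ a, ∑ c, XX (dat D F k r H U W) i p a * XX (dat D F k r H U W) j p c *
        hess (metric F k r H U W) (nuf R₀ ε k) (phi p) a c = 2 / F (phi p) * chi (dat D F k r H U W) (-ε) i j p := by
      rw [← h5]
      exact Finset.sum_congr rfl fun a _ => Finset.sum_congr rfl fun c _ => by ring
    rw [h6]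
    ring
  have h7 : ∑ a, ∑ b, (metric F k r H U W (phi p))⁻¹ a b * hess (metric F k r H U W) (nuf R₀ ε k) (phi p) a b =
      2 / F (phi p) * exl (dat D F k r H U W) (-ε) p := by
    refine h1.trans ?_
    rw [h2, h3, h4, add_zero, zero_div, add_zero]
  rw [h7, exl_dk hok hp]
  have h8 : dk (dat D F k r H U W) (-ε) (dat D F k r H U W).r (p.1, p.2.1) = fderiv ℝ r (p.1, p.2.1) (-ε, 1 / k p.2.1) / 2 := by
    show fderiv ℝ r (p.1, p.2.1) (-ε / 2, 1 / (2 * k p.2.1)) = _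
    have e1 : ((-ε / 2, 1 / (2 * k p.2.1)) : ℝ × ℝ) = (1 / 2 : ℝ) • ((-ε, 1 / k p.2.1) : ℝ × ℝ) := by
      rw [Prod.smul_mk, smul_eq_mul, smul_eq_mul]
      congr 1
      · ring
      · rw [mul_comm 2, one_div, one_div, mul_inv, one_div]
        ring
    rw [e1, map_smul, smul_eq_mul]
    ring
  rw [h8]
  show 2 / F (phi p) * (2 * (fderiv ℝ r (p.1, p.2.1) (-ε, 1 / k p.2.1) / 2) / r (p.1, p.2.1)) = _
  field_simp

end H74X
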