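import Pool.Agent.Lib.H17V.T8
import Pool.Agent.Lib.H17W.FD
import Pool.Agent.Lib.H74X.A3
import Pool.Agent.Lib.H74X.T1

set_option autoImplicit false

/-!
# H74X, chunk T2A (M): Hessian of the restriction

Auxiliary names start with `t2a_`. Templates: `H17V/T7.lean` (`null_normal`), `H17V/T8.lean` (`expansion`).
-/

open MeasureTheory Filter Topology Set
open scoped ContDiff

namespace H74X

open H17T (E4 pt pos tang conorm slice second DEC qq)

open H17V (nuf nuf_pd NN)

open H17W (ip MetAt SlAt nor SS)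

open Pool.Agent.Lib.PenroseSph (E3 Tens S2 sm pd gradNorm normal meanCurv trLevel)

/-- The Hessian of the restriction of `ν` to the slice. `H17W.gauss_vec` contracted with `dν`: `∂_0 ν f_ij + Σ ∂_c ν Γ^c(t_i, t_j) = Σ_l Γ^l_ij dν(t_l) + K_ij dν(nor)`; chain rule
(`H17T.t4b_chain`, `H17T.t4b_second`): `∂_i ∂_j (ν|M) = Σ ∂_a ∂_b ν t_i^a t_j^b + ∂_0 ν f_ij`, `dν(t_l) = ∂_l (ν|M)`. -/
theorem hess_slice {G : E4 → Matrix (Fin 4) (Fin 4) ℝ} {f : E3 → ℝ} {x : E3} {ν : E4 → ℝ} (h : SlAt G f x)
    (hν : ContDiffAt ℝ ∞ ν (pt (f x) x)) (i j : Fin 3) :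
    pd i (pd j fun y => ν (pt (f y) y)) x
        - ∑ l, Pool.Agent.Lib.PenroseSph.chr (slice G f) l i j x * pd l (fun y => ν (pt (f y) y)) x =
      (∑ a, ∑ b, hess G ν (pt (f x) x) a b * tang f x i a * tang f x j b) +
        second G f x i j * ∑ c, H31R.pd c ν (pt (f x) x) * nor G f x c := by
  have hf := h.smooth
  have h1 := H17T.t4b_second hf hν i j
  have h2 : ∀ l, pd l (fun y => ν (pt (f y) y)) x = ∑ c, H31R.pd c ν (pt (f x) x) * tang f x l c := fun l =>
    H17T.t4b_chain (hν.differentiableAt (by simp)) (hf.differentiableAt (by simp)) l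
  have h3 := fun c => H17W.gauss_vec h i j c
  set Dν : Fin 4 → ℝ := fun c => H31R.pd c ν (pt (f x) x) with hD
  have h4 : ∑ c, Dν c * (pd i (pd j f) x * (if c = 0 then 1 else 0) +
      ∑ a, ∑ b, H31R.chr G c a b (pt (f x) x) * tang f x i a * tang f x j b) =
      ∑ c, Dν c * ((∑ l, Pool.Agent.Lib.PenroseSph.chr (slice G f) l i j x * tang f x l c) +
        second G f x i j * nor G f x c) := Finset.sum_congr rfl fun c _ => by rw [h3 c]
  have e1 : ∑ c, Dν c * (pd i (pd j f) x * (if c = 0 then 1 else 0) +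
      ∑ a, ∑ b, H31R.chr G c a b (pt (f x) x) * tang f x i a * tang f x j b) =
      Dν 0 * pd i (pd j f) x +
        ∑ a, ∑ b, (∑ c, H31R.chr G c a b (pt (f x) x) * Dν c) * tang f x i a * tang f x j b := by
    simp only [mul_add, Finset.sum_add_distrib]
    congr 1
    · simp
    · simp only [Finset.mul_sum, Finset.sum_mul]
      rw [Finset.sum_comm]
      refine Finset.sum_congr rfl fun a _ => ?_
      rw [Finset.sum_comm]
      refine Finset.sum_congr rfl fun b _ => Finset.sum_congr rfl fun c _ => ?_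
      ring
  have e2 : ∑ c, Dν c * ((∑ l, Pool.Agent.Lib.PenroseSph.chr (slice G f) l i j x * tang f x l c) +
        second G f x i j * nor G f x c) =
      (∑ l, Pool.Agent.Lib.PenroseSph.chr (slice G f) l i j x * ∑ c, Dν c * tang f x l c) +
        second G f x i j * ∑ c, Dν c * nor G f x c := by
    simp only [mul_add, Finset.sum_add_distrib, Finset.mul_sum]
    congr 1
    · rw [Finset.sum_comm]
      refine Finset.sum_congr rfl fun a _ => Finset.sum_congr rfl fun c _ => ?_
      ring
    · refine Finset.sum_congr rfl fun c _ => ?_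
      ring
  rw [e1, e2] at h4
  rw [h1]
  simp only [h2]
  have e3 : ∑ a, ∑ b, hess G ν (pt (f x) x) a b * tang f x i a * tang f x j b =
      (∑ a, ∑ b, H31R.pd a (H31R.pd b ν) (pt (f x) x) * tang f x i a * tang f x j b) -
      ∑ a, ∑ b, (∑ c, H31R.chr G c a b (pt (f x) x) * Dν c) * tang f x i a * tang f x j b := by
    simp only [← Finset.sum_sub_distrib]
    refine Finset.sum_congr rfl fun a _ => Finset.sum_congr rfl fun b _ => ?_
    unfold hess
    ring
  rw [e3]
  linarith

end H74X
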