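import Pool.Agent.Lib.H17V.T8
import Pool.Agent.Lib.H17W.FD
import Pool.Agent.Lib.H74X.A3
import Pool.Agent.Lib.H74X.T1
import Pool.Agent.Lib.H74X.T2A

set_option autoImplicit false

/-!
# H74X, chunk T2B (S/M): trace over the tangent plane

Auxiliary names start with `t2b_`. Templates: `H17V/T7.lean` (`null_normal`), `H17V/T8.lean` (`expansion`).
-/

open MeasureTheory Filter Topology Set
open scoped ContDiff

namespace H74X

open H17T (E4 pt pos tang conorm slice second DEC qq)

open H17V (nuf nuf_pd NN)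

open H17W (ip MetAt SlAt nor SS)

open Pool.Agent.Lib.PenroseSph (E3 Tens S2 sm pd gradNorm normal meanCurv trLevel)

theorem t2b_lin (B : Fin 4 → Fin 4 → ℝ) (s L : ℝ) (n N K b : Fin 4 → ℝ) (hK : ∀ c, K c = -s * n c + L * N c) :
    ∑ a, ∑ c, B a c * K a * b c = -s * ∑ a, ∑ c, B a c * n a * b c + L * ∑ a, ∑ c, B a c * N a * b c := by
  simp only [Finset.mul_sum, ← Finset.sum_add_distrib]
  exact Finset.sum_congr rfl fun a _ => Finset.sum_congr rfl fun c _ => by
    rw [hK]
    ring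

theorem t2b_lin2 (B : Fin 4 → Fin 4 → ℝ) (s L : ℝ) (n N K b : Fin 4 → ℝ) (hK : ∀ c, K c = -s * n c + L * N c) :
    ∑ a, ∑ c, B a c * b a * K c = -s * ∑ a, ∑ c, B a c * b a * n c + L * ∑ a, ∑ c, B a c * b a * N c := by
  simp only [Finset.mul_sum, ← Finset.sum_add_distrib]
  exact Finset.sum_congr rfl fun a _ => Finset.sum_congr rfl fun c _ => by
    rw [hK]
    ring

/-- The inverse metric in terms of the tangent vectors and the normal. -/
theorem t2b_inv {G : E4 → Matrix (Fin 4) (Fin 4) ℝ} {f : E3 → ℝ} {x : E3} (h : SlAt G f x) (a b : Fin 4) :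
    (G (pt (f x) x))⁻¹ a b = (∑ i, ∑ j, (slice G f x)⁻¹ i j * tang f x i a * tang f x j b) - nor G f x a * nor G f x b := by
  have hS := H17W.SS_pos h
  have hT : ∑ a, ∑ b, (G (pt (f x) x))⁻¹ a b * conorm f x a * conorm f x b ≠ 0 := by
    have h1 := H17W.conorm_time h
    intro h2
    rw [h2] at h1
    simp at h1
  have hdec := H17T.inv_decomp (H17W.fb_symm h) h.met.nondeg (p := fun i => pd i f x) (e := tang f x)
    (fun i => rfl) (τ := conorm f x) rfl (g := slice G f x) (fun i j => rfl) (H17W.slice_det h).ne' hT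
  rw [hdec a b, H17W.fb_norS h, H17W.fb_norS h]
  have h6 : ∑ a, ∑ b, (G (pt (f x) x))⁻¹ a b * conorm f x a * conorm f x b = -SS G f x ^ 2 := by
    rw [H17W.fb_SS_sq h, neg_neg]
  rw [h6]
  have h7 : -(SS G f x * nor G f x a) * -(SS G f x * nor G f x b) / -SS G f x ^ 2 =
      -(nor G f x a * nor G f x b) := by
    field_simp
  rw [h7]
  ring

/-- The trace over the tangent plane of the level set of `w` in the slice, for a bilinear form `B` with `B(K, ·) = B(·, K) = 0`, `K` null, `<K, tang_i> = ∂_i w`: it is the trace over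
the whole space. Proof: `G⁻¹ = Σ g⁻¹_ij t_i t_j - nor nor` (`H17T.inv_decomp` or `H17W.vec_slice`), `K = -<K,nor> nor + |dw| N` with `N = Σ normal_i t_i` (`vec_slice`), and `<K,nor>² = |dw|²`
(`ip_slice` for `<K,K> = 0`), so `N = σ nor` modulo `K` with `σ² = 1`, hence `B(N,N) = B(nor,nor)`. -/
theorem trace_plane {G : E4 → Matrix (Fin 4) (Fin 4) ℝ} {f w : E3 → ℝ} {x : E3} (h : SlAt G f x) {K : Fin 4 → ℝ}
    {B : Fin 4 → Fin 4 → ℝ} (hK : ∀ i, ip G (pt (f x) x) K (tang f x i) = pd i w x) (hKK : ip G (pt (f x) x) K K = 0)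
    (hg : 0 < gradNorm (slice G f) w x) (hB1 : ∀ b : Fin 4 → ℝ, ∑ a, ∑ c, B a c * K a * b c = 0)
    (hB2 : ∀ b : Fin 4 → ℝ, ∑ a, ∑ c, B a c * b a * K c = 0) :
    ∑ i, ∑ j, ((slice G f x)⁻¹ i j - normal (slice G f) w i x * normal (slice G f) w j x) *
      (∑ a, ∑ b, B a b * tang f x i a * tang f x j b) = ∑ a, ∑ b, (G (pt (f x) x))⁻¹ a b * B a b := by
  set L := gradNorm (slice G f) w x with hL
  set n : Fin 4 → ℝ := nor G f x with hn
  set s : ℝ := ip G (pt (f x) x) K n with hs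
  set nu : Fin 3 → ℝ := fun i => normal (slice G f) w i x with hnu
  set N : Fin 4 → ℝ := fun c => ∑ l, nu l * tang f x l c with hN
  have hnu' : ∀ l, L * nu l = ∑ m, (slice G f x)⁻¹ l m * pd m w x := by
    intro l
    have e : nu l = (∑ m, (slice G f x)⁻¹ l m * pd m w x) / L := rfl
    rw [e]
    field_simp
  have hKd : ∀ c, K c = -s * n c + L * N c := by
    intro c
    rw [H17W.vec_slice h K c]
    congr 1
    rw [hN, Finset.mul_sum]
    refine Finset.sum_congr rfl fun l _ => ?_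
    rw [← mul_assoc, hnu', Finset.sum_mul]
    exact Finset.sum_congr rfl fun m _ => by rw [hK]
  have hs2 : s ^ 2 = L ^ 2 := by
    have h1 := H17W.ip_slice h K K
    rw [hKK] at h1
    have h2 : L ^ 2 = ∑ i, ∑ j, (slice G f x)⁻¹ i j * pd i w x * pd j w x := by
      have h3 : 0 < ∑ i, ∑ j, (slice G f x)⁻¹ i j * pd i w x * pd j w x := Real.sqrt_pos.1 hg
      exact Real.sq_sqrt h3.le
    have h4 : ∑ l, ∑ m, (slice G f x)⁻¹ l m * ip G (pt (f x) x) K (tang f x m) * ip G (pt (f x) x) K (tang f x l) =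
        ∑ i, ∑ j, (slice G f x)⁻¹ i j * pd i w x * pd j w x :=
      Finset.sum_congr rfl fun l _ => Finset.sum_congr rfl fun m _ => by
        rw [hK, hK]
        ring
    rw [h4, ← h2] at h1
    linarith [h1]
  have hnN : ∑ a, ∑ c, B a c * n a * n c = ∑ a, ∑ c, B a c * N a * N c := by
    have h1 := hB1 N
    rw [t2b_lin B s L n N K N hKd] at h1
    have h2 := hB2 n
    rw [t2b_lin2 B s L n N K n hKd] at h2
    have h3 : L ^ 2 * ∑ a, ∑ c, B a c * n a * n c = L ^ 2 * ∑ a, ∑ c, B a c * N a * N c := by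
      linear_combination (-(∑ a, ∑ c, B a c * n a * n c)) * hs2 - L * h1 - s * h2
    exact mul_left_cancel₀ (pow_ne_zero 2 hg.ne') h3
  have hNN : ∑ a, ∑ c, B a c * N a * N c =
      ∑ i, ∑ j, nu i * nu j * (∑ a, ∑ b, B a b * tang f x i a * tang f x j b) := by
    have e1 : ∀ i j, nu i * nu j * (∑ a, ∑ b, B a b * tang f x i a * tang f x j b) =
        ∑ a, ∑ b, B a b * (nu i * tang f x i a) * (nu j * tang f x j b) := by
      intro i j
      simp only [Finset.mul_sum]
      exact Finset.sum_congr rfl fun a _ => Finset.sum_congr rfl fun b _ => by ring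
    simp only [e1]
    rw [H17T.t4b_swap]
    refine Finset.sum_congr rfl fun a _ => Finset.sum_congr rfl fun b _ => ?_
    rw [mul_assoc, hN]
    simp only
    rw [Finset.sum_mul_sum, Finset.mul_sum]
    refine Finset.sum_congr rfl fun i _ => ?_
    rw [Finset.mul_sum]
    exact Finset.sum_congr rfl fun j _ => by ring
  have hgg : ∑ i, ∑ j, (slice G f x)⁻¹ i j * (∑ a, ∑ b, B a b * tang f x i a * tang f x j b) =
      ∑ a, ∑ b, B a b * ((G (pt (f x) x))⁻¹ a b + n a * n b) := by
    have e1 : ∀ i j, (slice G f x)⁻¹ i j * (∑ a, ∑ b, B a b * tang f x i a * tang f x j b) =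
        ∑ a, ∑ b, B a b * ((slice G f x)⁻¹ i j * tang f x i a * tang f x j b) := by
      intro i j
      simp only [Finset.mul_sum]
      exact Finset.sum_congr rfl fun a _ => Finset.sum_congr rfl fun b _ => by ring
    simp only [e1]
    rw [H17T.t4b_swap]
    refine Finset.sum_congr rfl fun a _ => Finset.sum_congr rfl fun b _ => ?_
    rw [t2b_inv h a b]
    simp only [← Finset.mul_sum]
    ring
  have e0 : ∑ i, ∑ j, ((slice G f x)⁻¹ i j - nu i * nu j) * (∑ a, ∑ b, B a b * tang f x i a * tang f x j b) =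
      ∑ i, ∑ j, (slice G f x)⁻¹ i j * (∑ a, ∑ b, B a b * tang f x i a * tang f x j b) -
      ∑ i, ∑ j, nu i * nu j * (∑ a, ∑ b, B a b * tang f x i a * tang f x j b) := by
    simp only [← Finset.sum_sub_distrib]
    exact Finset.sum_congr rfl fun i _ => Finset.sum_congr rfl fun j _ => by ring
  have e2 : ∑ a, ∑ b, B a b * ((G (pt (f x) x))⁻¹ a b + n a * n b) =
      ∑ a, ∑ b, (G (pt (f x) x))⁻¹ a b * B a b + ∑ a, ∑ c, B a c * n a * n c := by
    simp only [← Finset.sum_add_distrib]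
    exact Finset.sum_congr rfl fun i _ => Finset.sum_congr rfl fun j _ => by ring
  change ∑ i, ∑ j, ((slice G f x)⁻¹ i j - nu i * nu j) * (∑ a, ∑ b, B a b * tang f x i a * tang f x j b) = _
  rw [e0, hgg, e2, ← hNN, hnN]
  ring

end H74X
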