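import Pool.Agent.Lib.H17V.T8
import Pool.Agent.Lib.H17W.FD
import Pool.Agent.Lib.H74X.A3
import Pool.Agent.Lib.H74X.T1
import Pool.Agent.Lib.H74X.T2B

set_option autoImplicit false

/-!
# H74X, chunk T2C (M): null expansion

Auxiliary names start with `t2c_`. Templates: `H17V/T7.lean` (`null_normal`), `H17V/T8.lean` (`expansion`).
-/

open MeasureTheory Filter Topology Set
open scoped ContDiff

namespace H74X

open H17T (E4 pt pos tang conorm slice second DEC qq)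

open H17V (nuf nuf_pd NN)

open H17W (ip MetAt SlAt nor SS)

open Pool.Agent.Lib.PenroseSph (E3 Tens S2 sm pd gradNorm normal meanCurv trLevel)

variable {R₀ : ℝ} {D : Set (ℝ × ℝ)} {F : E4 → ℝ} {k : ℝ → ℝ} {r : ℝ × ℝ → ℝ} {H : E4 → Matrix (Fin 3) (Fin 3) ℝ}
  {U W : E4 → Fin 3 → ℝ} {f : E3 → ℝ} {x : E3} {ε : ℝ}

/-- The parameters of the event of the slice over `x`. -/
theorem slice_mem (hS : Slice R₀ D F k r H U W f) (hx : R₀ < ‖x‖) :
    ((f x, ‖x‖, x) : VV) ∈ OO (dat D F k r H U W) ∧ phi (f x, ‖x‖, x) = pt (f x) x := by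
  have h0 : 0 < ‖x‖ := lt_of_le_of_lt hS.st.nonneg hx
  refine ⟨⟨hS.mem x hx, norm_pos_iff.1 h0⟩, ?_⟩
  show pt (f x) ((‖x‖ / ‖x‖) • x) = pt (f x) x
  rw [div_self h0.ne', one_smul]

/-- The derivatives of `N` along the slice. -/
theorem t2c_pd (hS : Slice R₀ D F k r H U W f) (hx : R₀ < ‖x‖) (i : Fin 3) :
    pd i (NN R₀ ε k f) x = ∑ a, H31R.pd a (nuf R₀ ε k) (pt (f x) x) * tang f x i a := by
  have h0 : 0 < ‖x‖ := lt_of_le_of_lt hS.st.nonneg hx
  have hsl : NN R₀ ε k f = fun y => nuf R₀ ε k (pt (f y) y) := (H17V.nuf_slice R₀ ε k f).symm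
  rw [hsl]
  refine H17T.t4b_chain ?_ ((hS.f_smooth x hx).differentiableAt (by simp)) i
  refine (nuf_pd (ε := ε) hS.st.k_smooth ?_ ?_).1.differentiableAt (by simp)
  · rw [H17T.pos_pt]
    exact norm_pos_iff.1 h0
  · rw [H17T.pos_pt]
    exact hx

/-- `dν` as the scalar product with `K`. -/
theorem t2c_K (hS : Slice R₀ D F k r H U W f) (hx : R₀ < ‖x‖) (ε : ℝ) (b : Fin 4 → ℝ) :
    ip (metric F k r H U W) (pt (f x) x)
      ((2 / F (pt (f x) x)) • LL (dat D F k r H U W) (-ε) (f x, ‖x‖, x)) b =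
      ∑ c, H31R.pd c (nuf R₀ ε k) (pt (f x) x) * b c := by
  obtain ⟨hm, hphi⟩ := slice_mem hS hx
  have h1 := grad_nu hS.st hm ε b
  rw [hphi] at h1
  rw [← h1]
  show _ = ip (metric F k r H U W) (phi (f x, ‖x‖, x)) _ b
  rw [hphi]

theorem t2c_KK (hS : Slice R₀ D F k r H U W f) (hx : R₀ < ‖x‖) (hε : ε * ε = 1) :
    ip (metric F k r H U W) (pt (f x) x)
      ((2 / F (pt (f x) x)) • LL (dat D F k r H U W) (-ε) (f x, ‖x‖, x))
      ((2 / F (pt (f x) x)) • LL (dat D F k r H U W) (-ε) (f x, ‖x‖, x)) = 0 := by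
  obtain ⟨hm, hphi⟩ := slice_mem hS hx
  have h1 := (dat_ok hS.st).ipL _ hm (-ε) (-ε)
  have h2 : ip (metric F k r H U W) (pt (f x) x) (LL (dat D F k r H U W) (-ε) (f x, ‖x‖, x))
      (LL (dat D F k r H U W) (-ε) (f x, ‖x‖, x)) = 0 := by
    have h3 : ip (metric F k r H U W) (phi (f x, ‖x‖, x)) (LL (dat D F k r H U W) (-ε) (f x, ‖x‖, x))
        (LL (dat D F k r H U W) (-ε) (f x, ‖x‖, x)) = (dat D F k r H U W).F (f x, ‖x‖, x) * (1 - -ε * -ε) / 4 := h1
    rw [hphi, neg_mul_neg, hε, sub_self, mul_zero, zero_div] at h3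
    exact h3
  rw [H17W.ip_smul_left, H17W.ip_smul_right, h2, mul_zero, mul_zero]

/-- The sign of `<K, nor>`. -/
theorem t2c_sign (hS : Slice R₀ D F k r H U W f) (hε : ε = 1 ∨ ε = -1) (hx : R₀ < ‖x‖) :
    0 < ε * ip (metric F k r H U W) (pt (f x) x)
      ((2 / F (pt (f x) x)) • LL (dat D F k r H U W) (-ε) (f x, ‖x‖, x)) (nor (metric F k r H U W) f x) := by
  have hsl := sl_at hS hx
  obtain ⟨hm, hphi⟩ := slice_mem hS hx
  have hF : 0 < F (pt (f x) x) := hS.st.F_pos _ (dom_pt hS hx)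
  have hk : 0 < k ‖x‖ := hS.st.k_pos _ hx
  have hSS := H17W.SS_pos hsl
  have h1 := LL_val hS.st hm (-ε)
  rw [hphi] at h1
  rw [H17W.ip_symm hsl.met, H17W.ip_nor hsl, h1]
  have h2 : ∑ a, conorm f x a * ((2 / F (pt (f x) x)) •
      ((-ε / 2) • eT U (pt (f x) x) + (1 / (2 * k ‖x‖)) • eR W (pt (f x) x))) a =
      2 / F (pt (f x) x) * (-ε / 2 * (∑ a, conorm f x a * eT U (pt (f x) x) a) +
        1 / (2 * k ‖x‖) * ∑ a, conorm f x a * eR W (pt (f x) x) a) := by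
    rw [Finset.mul_sum, Finset.mul_sum, ← Finset.sum_add_distrib, Finset.mul_sum]
    refine Finset.sum_congr rfl fun a _ => ?_
    simp only [Pi.smul_apply, Pi.add_apply, smul_eq_mul]
    ring
  show 0 < ε * (-(∑ a, conorm f x a * ((2 / F (pt (f x) x)) •
      ((-ε / 2) • eT U (pt (f x) x) + (1 / (2 * k ‖x‖)) • eR W (pt (f x) x))) a) / SS (metric F k r H U W) f x)
  rw [h2, tau_eT, tau_eR]
  have hlt := tau_lt hS hx
  set A : ℝ := 1 - ∑ i, U (pt (f x) x) i * pd i f x with hA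
  set B : ℝ := ∑ i, (x i / ‖x‖ + W (pt (f x) x) i) * pd i f x with hB
  obtain ⟨hB1, hB2⟩ := abs_lt.1 hlt
  have hε2 : ε * ε = 1 := by rcases hε with h | h <;> rw [h] <;> norm_num
  have h3 : ε * (-(2 / F (pt (f x) x) * (-ε / 2 * A + 1 / (2 * k ‖x‖) * -B)) / SS (metric F k r H U W) f x) =
      (k ‖x‖ * A + ε * B) / (F (pt (f x) x) * k ‖x‖ * SS (metric F k r H U W) f x) := by
    have e1 : F (pt (f x) x) ≠ 0 := hF.ne'
    have e2 : k ‖x‖ ≠ 0 := hk.ne'
    have e3 : SS (metric F k r H U W) f x ≠ 0 := hSS.ne'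
    field_simp
    linear_combination (k ‖x‖ * A) * hε2
  rw [h3]
  refine div_pos ?_ (by positivity)
  rcases hε with h | h <;> rw [h] <;> linarith

/-- `dν(nor) = ε |dN|`: with `K = (2/F) L_{-ε}` (`grad_nu`), `dν(nor) = <K, nor> = -τ(K)/S = (ε τ(e_T) - τ(e_ρ)/k)/(F S)` (`ip_nor`, `LL_val`, `tau_eT`, `tau_eR`), so `ε dν(nor) > 0` by `tau_lt`;
and `<K,nor>² = |dN|²` (`ip_slice`, `K` null, `dν(t_i) = ∂_i N`). -/
theorem null_normal (hS : Slice R₀ D F k r H U W f) (hε : ε = 1 ∨ ε = -1) (hx : R₀ < ‖x‖) :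
    (∑ c, H31R.pd c (nuf R₀ ε k) (pt (f x) x) * nor (metric F k r H U W) f x c) =
      ε * gradNorm (slice (metric F k r H U W) f) (NN R₀ ε k f) x ∧
    0 < gradNorm (slice (metric F k r H U W) f) (NN R₀ ε k f) x := by
  have hsl := sl_at hS hx
  have hε2 : ε * ε = 1 := by rcases hε with h | h <;> rw [h] <;> norm_num
  have h1 := t2c_sign hS hε hx
  have h2 := t2c_KK hS hx hε2
  have h3 : ∀ i, ip (metric F k r H U W) (pt (f x) x)
      ((2 / F (pt (f x) x)) • LL (dat D F k r H U W) (-ε) (f x, ‖x‖, x)) (tang f x i) = pd i (NN R₀ ε k f) x := by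
    intro i
    rw [t2c_K hS hx, t2c_pd hS hx]
  rw [H17W.ip_slice hsl] at h2
  simp only [h3] at h2
  rw [t2c_K hS hx] at h1 h2
  set N : ℝ := ∑ c, H31R.pd c (nuf R₀ ε k) (pt (f x) x) * nor (metric F k r H U W) f x c with hN
  have h4 : gradNorm (slice (metric F k r H U W) f) (NN R₀ ε k f) x = ε * N := by
    unfold gradNorm
    have h5 : ∑ i, ∑ j, (slice (metric F k r H U W) f x)⁻¹ i j * pd i (NN R₀ ε k f) x * pd j (NN R₀ ε k f) x =
        (ε * N) ^ 2 := by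
      have h6 : ∑ i, ∑ j, (slice (metric F k r H U W) f x)⁻¹ i j * pd i (NN R₀ ε k f) x * pd j (NN R₀ ε k f) x =
          ∑ i, ∑ j, (slice (metric F k r H U W) f x)⁻¹ i j * pd j (NN R₀ ε k f) x * pd i (NN R₀ ε k f) x :=
        Finset.sum_congr rfl fun i _ => Finset.sum_congr rfl fun j _ => by ring
      rw [h6]
      linear_combination h2 - N ^ 2 * hε2
    rw [h5]
    exact Real.sqrt_sq h1.le
  refine ⟨?_, ?_⟩
  · rw [h4, ← mul_assoc, hε2, one_mul]
  · rw [h4]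
    exact h1

/-- `hess_slice` for `ν = nuf` (`H17V.nuf_slice`), `null_normal`, `trace_plane` with `B = hess` (`hess_L`, `hess_symm`), `box_nu`. -/
theorem expansion (hS : Slice R₀ D F k r H U W f) (hε : ε = 1 ∨ ε = -1) (hx : R₀ < ‖x‖) :
    meanCurv (slice (metric F k r H U W) f) (NN R₀ ε k f) x
        - ε * trLevel (slice (metric F k r H U W) f) (second (metric F k r H U W) f) (NN R₀ ε k f) x
      = 2 * fderiv ℝ r (qq f x) (-ε, 1 / k ‖x‖) /
        (F (pt (f x) x) * r (qq f x) * gradNorm (slice (metric F k r H U W) f) (NN R₀ ε k f) x) := by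
  have h0 : 0 < ‖x‖ := lt_of_le_of_lt hS.st.nonneg hx
  have hsl := sl_at hS hx
  obtain ⟨hm, hphi⟩ := slice_mem hS hx
  have hF : F (pt (f x) x) ≠ 0 := (hS.st.F_pos _ (dom_pt hS hx)).ne'
  have hr : r (f x, ‖x‖) ≠ 0 := (hS.st.r_pos _ (hS.mem x hx)).ne'
  have hε2 : ε * ε = 1 := by rcases hε with h | h <;> rw [h] <;> norm_num
  obtain ⟨hn1, hn2⟩ := null_normal hS hε hx
  have hν : ContDiffAt ℝ ∞ (nuf R₀ ε k) (pt (f x) x) := by
    refine (nuf_pd (ε := ε) hS.st.k_smooth ?_ ?_).1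
    · rw [H17T.pos_pt]
      exact norm_pos_iff.1 h0
    · rw [H17T.pos_pt]
      exact hx
  have hgs : ∀ i j, pd i (pd j (NN R₀ ε k f)) x
        - ∑ l, Pool.Agent.Lib.PenroseSph.chr (slice (metric F k r H U W) f) l i j x * pd l (NN R₀ ε k f) x =
      (∑ a, ∑ b, hess (metric F k r H U W) (nuf R₀ ε k) (pt (f x) x) a b * tang f x i a * tang f x j b) +
        second (metric F k r H U W) f x i j * (ε * gradNorm (slice (metric F k r H U W) f) (NN R₀ ε k f) x) := by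
    intro i j
    have h1 := hess_slice hsl hν i j
    have h2 : (fun y => nuf R₀ ε k (pt (f y) y)) = NN R₀ ε k f := H17V.nuf_slice R₀ ε k f
    rw [h2, hn1] at h1
    exact h1
  have hbox := box_nu hS.st hm hε2
  rw [hphi] at hbox
  have hL := hess_L hS.st hm hε2
  rw [hphi] at hL
  have hB1 : ∀ b : Fin 4 → ℝ, ∑ a, ∑ c, hess (metric F k r H U W) (nuf R₀ ε k) (pt (f x) x) a c *
      ((2 / F (pt (f x) x)) • LL (dat D F k r H U W) (-ε) (f x, ‖x‖, x)) a * b c = 0 := by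
    intro b
    have h1 := hL b
    have h2 : ∑ a, ∑ c, hess (metric F k r H U W) (nuf R₀ ε k) (pt (f x) x) a c *
        ((2 / F (pt (f x) x)) • LL (dat D F k r H U W) (-ε) (f x, ‖x‖, x)) a * b c =
        2 / F (pt (f x) x) * ∑ a, ∑ c, hess (metric F k r H U W) (nuf R₀ ε k) (pt (f x) x) a c *
          LL (dat D F k r H U W) (-ε) (f x, ‖x‖, x) a * b c := by
      rw [Finset.mul_sum]
      refine Finset.sum_congr rfl fun a _ => ?_
      rw [Finset.mul_sum]
      refine Finset.sum_congr rfl fun c _ => ?_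
      rw [Pi.smul_apply, smul_eq_mul]
      ring
    rw [h2, h1, mul_zero]
  have hsy := hess_symm (ν := nuf R₀ ε k) hsl.met hν
  have hB2 : ∀ b : Fin 4 → ℝ, ∑ a, ∑ c, hess (metric F k r H U W) (nuf R₀ ε k) (pt (f x) x) a c * b a *
      ((2 / F (pt (f x) x)) • LL (dat D F k r H U W) (-ε) (f x, ‖x‖, x)) c = 0 := by
    intro b
    rw [← hB1 b, Finset.sum_comm]
    refine Finset.sum_congr rfl fun a _ => Finset.sum_congr rfl fun c _ => ?_
    rw [hsy c a]
    ring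
  have htr := trace_plane (w := NN R₀ ε k f) hsl
    (K := (2 / F (pt (f x) x)) • LL (dat D F k r H U W) (-ε) (f x, ‖x‖, x))
    (B := hess (metric F k r H U W) (nuf R₀ ε k) (pt (f x) x))
    (fun i => by rw [t2c_K hS hx, t2c_pd hS hx]) (t2c_KK hS hx hε2) hn2 hB1 hB2
  rw [hbox] at htr
  set L : ℝ := gradNorm (slice (metric F k r H U W) f) (NN R₀ ε k f) x with hLdef
  have hsum : ∑ i, ∑ j, ((slice (metric F k r H U W) f x)⁻¹ i j -
      normal (slice (metric F k r H U W) f) (NN R₀ ε k f) i x * normal (slice (metric F k r H U W) f) (NN R₀ ε k f) j x) *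
      (pd i (pd j (NN R₀ ε k f)) x
        - ∑ l, Pool.Agent.Lib.PenroseSph.chr (slice (metric F k r H U W) f) l i j x * pd l (NN R₀ ε k f) x) =
      2 * fderiv ℝ r (f x, ‖x‖) (-ε, 1 / k ‖x‖) / (F (pt (f x) x) * r (f x, ‖x‖)) +
        ε * L * trLevel (slice (metric F k r H U W) f) (second (metric F k r H U W) f) (NN R₀ ε k f) x := by
    rw [← htr]
    unfold trLevel
    rw [Finset.mul_sum, ← Finset.sum_add_distrib]
    refine Finset.sum_congr rfl fun i _ => ?_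
    rw [Finset.mul_sum, ← Finset.sum_add_distrib]
    refine Finset.sum_congr rfl fun j _ => ?_
    rw [hgs i j]
    ring
  unfold meanCurv
  rw [hsum]
  show (2 * fderiv ℝ r (f x, ‖x‖) (-ε, 1 / k ‖x‖) / (F (pt (f x) x) * r (f x, ‖x‖)) +
        ε * L * trLevel (slice (metric F k r H U W) f) (second (metric F k r H U W) f) (NN R₀ ε k f) x) / L -
      ε * trLevel (slice (metric F k r H U W) f) (second (metric F k r H U W) f) (NN R₀ ε k f) x =
    2 * fderiv ℝ r (f x, ‖x‖) (-ε, 1 / k ‖x‖) / (F (pt (f x) x) * r (f x, ‖x‖) * L)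
  have h9 : L ≠ 0 := hn2.ne'
  field_simp
  ring

end H74X
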